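import Pool.Agent.Work.MP_dd0ddf_al.OC.AdElem

/-!
# MP_dd0ddf_al, module AdIwa: Iwasawa decomposition GL_n(E) = P_c GL_n(O)

For monotone c upper triangular matrices are in Pcg c, so it is enough to write g = b k, b upper triangular, k in GL_n(O).  Induction on n (index type Fin (n+1), last index): in the last row of g choose an entry of maximal norm (nonzero since g is invertible), move it to the last column by a permutation matrix (in K0g) and subtract multiples x of the last column, ‖x‖ ≤ 1,
from the others (elementary matrices in K0g): the last row becomes (0, …, 0, y).  The upper left n × n block is invertible; induction (embed GL_n(O) as blockdiag(k, 1)).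
-/

set_option linter.unusedSectionVars false
set_option linter.style.haveILetI false

namespace Pool.Agent.Work.MP_dd0ddf_al.OC

noncomputable section

variable {E : Type*} [NontriviallyNormedField E] [IsUltrametricDist E] [ProperSpace E] {n : ℕ}

open Matrix

private theorem iwa_step (g : GL (Fin n) E) (m : ℕ) (hm : m ≤ n) :
    ∃ k ∈ K0g E n, ∀ i : Fin n, n - m ≤ (i : ℕ) → ∀ j, j < i → (g * k).1 i j = 0 := by
  classical
  induction m with
  | zero =>
    refine ⟨1, Subgroup.one_mem _, fun i hi => ?_⟩
    have := i.2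
    omega
  | succ m ih =>
    obtain ⟨k, hk, hz⟩ := ih (by omega)
    have hμ : n - (m + 1) < n := by omega
    set μ : Fin n := ⟨n - (m + 1), hμ⟩ with hμdef
    have hgt : ∀ i : Fin n, μ < i → n - m ≤ (i : ℕ) := by
      intro i hi
      have : n - (m + 1) < (i : ℕ) := hi
      omega
    have hcase : ∀ i : Fin n, n - (m + 1) ≤ (i : ℕ) → i = μ ∨ μ < i := by
      intro i hi
      rcases eq_or_lt_of_le hi with h | h
      · exact Or.inl (Fin.ext h.symm)
      · exact Or.inr h
    obtain ⟨j0, hj0, hmax⟩ := Finset.exists_max_image (Finset.univ.filter fun j : Fin n => j ≤ μ)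
      (fun j => ‖(g * k).1 μ j‖) ⟨μ, by simp⟩
    have hj0' : j0 ≤ μ := by simpa using hj0
    have hmax' : ∀ j, j ≤ μ → ‖(g * k).1 μ j‖ ≤ ‖(g * k).1 μ j0‖ := fun j hj =>
      hmax j (by simpa using hj)
    by_cases h0 : (g * k).1 μ j0 = 0
    · refine ⟨k, hk, fun i hi j hj => ?_⟩
      rcases hcase i hi with rfl | hi'
      · have := hmax' j hj.le
        rw [h0, norm_zero] at this
        exact norm_le_zero_iff.1 this
      · exact hz i (hgt i hi') j hj
    · have hsw : ∀ j : Fin n, ∀ i : Fin n, j ≤ i → μ ≤ i → Equiv.swap j0 μ j ≤ i := by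
        intro j i hji hi
        rcases eq_or_ne j j0 with rfl | h1
        · rw [Equiv.swap_apply_left]; exact hi
        rcases eq_or_ne j μ with rfl | h2
        · rw [Equiv.swap_apply_right]; exact hj0'.trans hi
        rw [Equiv.swap_apply_of_ne_of_ne h1 h2]
        exact hji
      have e1 : ∀ i j, (g * k * swG E j0 μ).1 i j = (g * k).1 i (Equiv.swap j0 μ j) :=
        fun i j => mul_swG _ _ _ _ _
      have eμ : (g * k * swG E j0 μ).1 μ μ = (g * k).1 μ j0 := by
        rw [e1, Equiv.swap_apply_right]
      let x : Fin n → E := fun j => if j < μ then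
        (g * k * swG E j0 μ).1 μ j / (g * k * swG E j0 μ).1 μ μ else 0
      have hx : x μ = 0 := if_neg (lt_irrefl μ)
      have hx1 : ∀ j, ‖x j‖ ≤ 1 := by
        intro j
        show ‖(if j < μ then
          (g * k * swG E j0 μ).1 μ j / (g * k * swG E j0 μ).1 μ μ else 0)‖ ≤ 1
        split_ifs with h
        · rw [norm_div, eμ, e1]
          exact div_le_one_of_le₀ (hmax' _ (hsw j μ h.le le_rfl)) (norm_nonneg _)
        · simp
      refine ⟨k * swG E j0 μ * clG μ x hx, Subgroup.mul_mem _ (Subgroup.mul_mem _ hk
        (swG_K0 _ _)) (clG_K0 _ _ _ hx1), fun i hi j hj => ?_⟩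
      have e2 : (g * (k * swG E j0 μ * clG μ x hx)).1 i j =
          (g * k * swG E j0 μ).1 i j - (g * k * swG E j0 μ).1 i μ * x j := by
        rw [← mul_clG (g * k * swG E j0 μ) μ x hx i j]
        simp only [mul_assoc]
      rw [e2]
      rcases hcase i hi with rfl | hi'
      · have h3 : x j = (g * k * swG E j0 μ).1 μ j / (g * k * swG E j0 μ).1 μ μ := if_pos hj
        rw [h3, mul_div_cancel₀, sub_self]
        rw [eμ]
        exact h0
      · have h3 : (g * k * swG E j0 μ).1 i μ = 0 := by
          rw [e1, Equiv.swap_apply_right]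
          exact hz i (hgt i hi') j0 (lt_of_le_of_lt hj0' hi')
        have h4 : (g * k * swG E j0 μ).1 i j = 0 := by
          rw [e1]
          refine hz i (hgt i hi') _ (lt_of_le_of_ne (hsw j i hj.le hi'.le) ?_)
          intro h5
          have h6 : j = Equiv.swap j0 μ i := by rw [← h5, Equiv.swap_apply_self]
          rw [Equiv.swap_apply_of_ne_of_ne (ne_of_gt (lt_of_le_of_lt hj0' hi'))
            (ne_of_gt hi')] at h6
          exact absurd h6 (ne_of_lt hj)
        rw [h3, h4, zero_mul, sub_zero]

theorem iwasawa (c : Fin n → ℕ) (hc : Monotone c) (g : GL (Fin n) E) :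
    ∃ p ∈ Pcg E c, ∃ k ∈ K0g E n, g = p * k := by
  obtain ⟨k, hk, hz⟩ := iwa_step g n le_rfl
  refine ⟨g * k, ?_, k⁻¹, Subgroup.inv_mem _ hk, (mul_inv_cancel_right g k).symm⟩
  have hbt : Matrix.BlockTriangular (g * k).1 c := by
    intro i j hij
    refine hz i (by simp) j ?_
    by_contra hcon
    exact absurd (hc (not_lt.1 hcon)) (not_le.2 hij)
  letI : Invertible (g * k).1 := (g * k).invertible
  have hbt' := Matrix.blockTriangular_inv_of_blockTriangular hbt
  intro i j hij
  refine ⟨hbt hij, ?_⟩
  rw [Matrix.coe_units_inv]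
  exact hbt' hij

end

end Pool.Agent.Work.MP_dd0ddf_al.OC
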