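import Pool.Agent.Work.MP_dd0ddf_al.OC.WrBasic
import Pool.Agent.Work.MP_dd0ddf_al.OC.DescThm

/-!
# MP_dd0ddf_al, module WrRep: the action of U(V) × U(V) on functions GL(V) → SF V

`wRep W`: `β(h1,h2) = l(h1) r(h2)` (homomorphism by l_r_comm, r_mul).  `gC`: `(h1,h2)·g = h1 g h2⁻¹`.
`act_eq`: definitions.  `Theta_act`: `Θ (act h1 h2 G)(g) = t(l(h1) r(h2) G(h1⁻¹ θ(g) h2)) = l(h2') r(h1') t G(h1⁻¹ θ(g) h2)`, `h' = tauU τ h`, and `θ(h) = (tauU τ h)⁻¹` for `h ∈ U(V)`, `θ` an anti-automorphism: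
`h1⁻¹ θ(g) h2 = θ(h2'⁻¹ g h1')`.
`Theta_indep`: `τ' = τ h0` (tau_change): `θ'(g) = θ(h0 g h0⁻¹)`, `t' = geo(h0⁻¹) t = l(h0⁻¹) r(h0⁻¹) t`, so `Θ' G = act h0⁻¹ h0⁻¹ (Θ G)`.
`group_of_good`: apply `GrpGood` to `T' G = T(ΘG) - T G`.
-/

set_option linter.unusedSectionVars false
set_option linter.style.haveILetI false

namespace Pool.Agent.Work.MP_dd0ddf_al.OC

noncomputable section

universe u

variable {F E : Type u} [NontriviallyNormedField F] [IsUltrametricDist F] [ProperSpace F]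
  [NeZero (2 : F)] [NontriviallyNormedField E] [NormedAlgebra F E] [ProperSpace E] [StarRing E]
  [QExt F E] [MeasurableSpace E] [BorelSpace E]
variable {V : Type u} [AddCommGroup V] [Module E V] [Module.Finite E V] [TopologicalSpace V]
  [IsTopologicalAddGroup V] [T2Space V] [ContinuousSMul E V]

private theorem wrrep_comm {B : SkewH E V} {p : PChar F} (W : WeilRep B p) (g h : UU B)
    (f : SF V ℂ) : W.l g (W.r h f) = W.r h (W.l g f) :=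
  congrArg (fun T : SF V ℂ →ₗ[ℂ] SF V ℂ => T f) (l_r_comm W g h)

private theorem wrrep_one {B : SkewH E V} {p : PChar F} (W : WeilRep B p) :
    W.l (1 : UU B × UU B).1 ∘ₗ W.r (1 : UU B × UU B).2 = 1 := by
  apply LinearMap.ext
  intro f
  show W.l 1 (W.r 1 f) = f
  rw [map_one, r_one]
  rfl

private theorem wrrep_mul {B : SkewH E V} {p : PChar F} (W : WeilRep B p)
    (h k : UU B × UU B) : W.l (h * k).1 ∘ₗ W.r (h * k).2 =
      (W.l h.1 ∘ₗ W.r h.2) ∘ₗ (W.l k.1 ∘ₗ W.r k.2) := by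
  apply LinearMap.ext
  intro f
  show W.l (h.1 * k.1) (W.r (h.2 * k.2) f) = W.l h.1 (W.r h.2 (W.l k.1 (W.r k.2 f)))
  rw [map_mul, r_mul, ← wrrep_comm]
  rfl

private theorem wrrep_smooth {B : SkewH E V} {p : PChar F} (W : WeilRep B p) (f : SF V ℂ) :
    ∃ U : Set (UU B × UU B), IsOpen U ∧ (1 : UU B × UU B) ∈ U ∧
      ∀ γ ∈ U, (W.l γ.1 ∘ₗ W.r γ.2) f = f := by
  obtain ⟨U1, hU1o, hU11, hU1⟩ := l_smooth W f
  obtain ⟨U2, hU2o, hU21, hU2⟩ := r_smooth W f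
  refine ⟨U1 ×ˢ U2, hU1o.prod hU2o, ⟨hU11, hU21⟩, ?_⟩
  rintro γ ⟨h1, h2⟩
  show W.l γ.1 (W.r γ.2 f) = f
  rw [hU2 _ h2, hU1 _ h1]

private theorem wrrep_cont (B : SkewH E V) :
    Continuous fun q : (UU B × UU B) × GV E V => q.1.1.1 * q.2 * q.1.2.1⁻¹ :=
  ((continuous_subtype_val.comp (continuous_fst.comp continuous_fst)).mul
    continuous_snd).mul
    (continuous_subtype_val.comp (continuous_snd.comp continuous_fst)).inv

/-- the smooth representation `β(h₁, h₂) = l(h₁) r(h₂)` of `U(V) × U(V)` on `SF V` -/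
def wRep {B : SkewH E V} {p : PChar F} (W : WeilRep B p) : SRep (UU B × UU B) (SF V ℂ) where
  β :=
    { toFun := fun h => W.l h.1 ∘ₗ W.r h.2
      map_one' := wrrep_one W
      map_mul' := wrrep_mul W }
  smooth := wrrep_smooth W

/-- the action `(h₁, h₂) · g = h₁ g h₂⁻¹` -/
def gC (B : SkewH E V) : CAct (UU B × UU B) (GV E V) where
  act h g := h.1.1 * g * h.2.1⁻¹
  one g := by simp
  mul g h x := by
    simp only [Prod.fst_mul, Prod.snd_mul, Subgroup.coe_mul, mul_inv_rev, mul_assoc]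
  cont := wrrep_cont B

theorem act_eq {B : SkewH E V} {p : PChar F} (W : WeilRep B p) (h₁ h₂ : UU B)
    (G : SF (GV E V) (SF V ℂ)) : W.act h₁ h₂ G = (gC B).op (wRep W) (h₁, h₂) G := by
  apply SF.ext
  intro g
  show W.l h₁ (W.r h₂ (G (h₁.1⁻¹ * g * h₂.1))) =
    W.l h₁ (W.r h₂ (G (h₁.1⁻¹ * g * (h₂.1⁻¹)⁻¹)))
  rw [inv_inv]

theorem thG_UU {B : SkewH E V} (τ : AntiU B) (h : UU B) : thG τ h.1 = (tauU τ h).1⁻¹ := by
  apply Units.ext
  show conjτ τ (adj B h.1.1) = conjτ τ h.1⁻¹.1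
  rw [uu_adj]

theorem thG_mul {B : SkewH E V} (τ : AntiU B) (g h : GV E V) :
    thG τ (g * h) = thG τ h * thG τ g := by
  apply Units.ext
  show conjτ τ (adj B (g.1 * h.1)) = conjτ τ (adj B h.1) * conjτ τ (adj B g.1)
  rw [adj_mul, conjτ_mul]

theorem Theta_Theta {B : SkewH E V} (τ : AntiU B) (G : SF (GV E V) (SF V ℂ)) :
    Theta F τ (Theta F τ G) = G := by
  apply SF.ext
  intro g
  show tneg F τ (tneg F τ (G (thG τ (thG τ g)))) = G g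
  rw [tneg_tneg, thG_thG]

theorem Theta_act {B : SkewH E V} {p : PChar F} (W : WeilRep B p) (τ : AntiU B) (h₁ h₂ : UU B)
    (G : SF (GV E V) (SF V ℂ)) :
    Theta F τ (W.act h₁ h₂ G) = W.act (tauU τ h₂) (tauU τ h₁) (Theta F τ G) := by
  apply SF.ext
  intro g
  show tneg F τ (W.l h₁ (W.r h₂ (G (h₁.1⁻¹ * thG τ g * h₂.1)))) =
    W.l (tauU τ h₂) (W.r (tauU τ h₁) (tneg F τ (G (thG τ ((tauU τ h₂).1⁻¹ * g *
      (tauU τ h₁).1)))))
  have hl : ∀ (h : UU B) (f : SF V ℂ), tneg F τ (W.l h f) = W.r (tauU τ h) (tneg F τ f) :=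
    fun h f => congrArg (fun T : SF V ℂ →ₗ[ℂ] SF V ℂ => T f) (tneg_l W τ h)
  have hr : ∀ (h : UU B) (f : SF V ℂ), tneg F τ (W.r h f) = W.l (tauU τ h) (tneg F τ f) :=
    fun h f => congrArg (fun T : SF V ℂ →ₗ[ℂ] SF V ℂ => T f) (tneg_r W τ h)
  have h1 : thG τ (tauU τ h₁).1 = h₁.1⁻¹ := by rw [thG_UU, tauU_tauU]
  have h2 : thG τ (tauU τ h₂).1⁻¹ = h₂.1 := by
    have h3 := thG_UU τ (tauU τ h₂)⁻¹
    have h4 : tauU τ (tauU τ h₂)⁻¹ = h₂⁻¹ := by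
      have h5 : tauU τ (tauU τ h₂)⁻¹ * h₂ = 1 := by
        calc tauU τ (tauU τ h₂)⁻¹ * h₂
            = tauU τ (tauU τ h₂)⁻¹ * tauU τ (tauU τ h₂) := by rw [tauU_tauU]
          _ = tauU τ 1 := by rw [← tauU_mul, inv_mul_cancel]
          _ = 1 := by
            apply Subtype.ext
            apply Units.ext
            exact conjτ_one τ
      exact eq_inv_of_mul_eq_one_left h5
    rw [h4] at h3
    have h6 : ((h₂⁻¹ : UU B) : GV E V)⁻¹ = h₂.1 := by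
      show (h₂.1⁻¹)⁻¹ = h₂.1
      rw [inv_inv]
    rw [h6] at h3
    exact h3
  rw [hl, hr, ← wrrep_comm, thG_mul, thG_mul, h1, h2, ← mul_assoc]

/-- `T` is invariant under `U(V) × U(V)` -/
def GInv {B : SkewH E V} {p : PChar F} (W : WeilRep B p)
    (T : SF (GV E V) (SF V ℂ) →ₗ[ℂ] ℂ) : Prop :=
  ∀ (h₁ h₂ : UU B) (G : SF (GV E V) (SF V ℂ)), T (W.act h₁ h₂ G) = T G

variable (F) in
/-- `T` is antisymmetric under `Θ` -/
def GAnti {B : SkewH E V} (τ : AntiU B) (T : SF (GV E V) (SF V ℂ) →ₗ[ℂ] ℂ) : Prop :=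
  ∀ G : SF (GV E V) (SF V ℂ), T (Theta F τ G) = - T G

/-- the group level theorem in antisymmetric form -/
def GrpGood {B : SkewH E V} {p : PChar F} (W : WeilRep B p) : Prop :=
  ∀ (τ : AntiU B) (T : SF (GV E V) (SF V ℂ) →ₗ[ℂ] ℂ), GInv W T → GAnti F τ T → T = 0

theorem Theta_indep {B : SkewH E V} {p : PChar F} (W : WeilRep B p) (τ τ' : AntiU B)
    (T : SF (GV E V) (SF V ℂ) →ₗ[ℂ] ℂ) (hT : GInv W T) (h : GAnti F τ T) : GAnti F τ' T := by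
  obtain ⟨k, hk⟩ := tau_change B τ τ'
  have hk' : ∀ v, τ'.t v = k.1⁻¹.1 (τ.t v) := by
    intro v
    have h1 : k.1.1 (τ'.t v) = τ.t v := by
      rw [← τ.inv (k.1.1 (τ'.t v)), ← hk, τ'.inv]
    rw [← h1]
    exact (congrArg (fun f : Module.End E V => f (τ'.t v)) k.1.inv_mul).symm
  intro G
  have h2 : Theta F τ' G = W.act k⁻¹ k⁻¹ (Theta F τ G) := by
    apply SF.ext
    intro g
    show tneg F τ' (G (thG τ' g)) = W.l k⁻¹ (W.r k⁻¹ (tneg F τ (G (thG τ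
      ((k⁻¹ : UU B).1⁻¹ * g * (k⁻¹ : UU B).1)))))
    have h3 : W.l k⁻¹ (W.r k⁻¹ (tneg F τ (G (thG τ ((k⁻¹ : UU B).1⁻¹ * g * (k⁻¹ : UU B).1))))) =
        geo (k⁻¹ : UU B).1 (tneg F τ (G (thG τ ((k⁻¹ : UU B).1⁻¹ * g * (k⁻¹ : UU B).1)))) :=
      (congrArg (fun T : SF V ℂ →ₗ[ℂ] SF V ℂ => T (tneg F τ (G (thG τ ((k⁻¹ : UU B).1⁻¹ * g *
        (k⁻¹ : UU B).1))))) (geo_eq W k⁻¹)).symm
    have h4 : thG τ' g = thG τ ((k⁻¹ : UU B).1⁻¹ * g * (k⁻¹ : UU B).1) := by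
      apply Units.ext
      apply LinearMap.ext
      intro v
      show τ'.t (adj B g.1 (τ'.t v)) =
        τ.t (adj B (((k⁻¹ : UU B).1⁻¹).1 * g.1 * (k⁻¹ : UU B).1.1) (τ.t v))
      have h5 : (((k⁻¹ : UU B).1⁻¹ : GV E V)) = k.1 := inv_inv k.1
      rw [h5, adj_mul, adj_mul, uu_adj, uu_adj, hk, hk']
      show τ.t (k.1.1 (adj B g.1 (k.1⁻¹.1 (τ.t v)))) =
        τ.t (((k⁻¹ : UU B).1⁻¹).1 (adj B g.1 (k.1⁻¹.1 (τ.t v))))
      rw [h5]
    rw [h3, ← h4]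
    apply SF.ext
    intro v
    show G (thG τ' g) (-τ'.t v) = G (thG τ' g) (-τ.t (((k⁻¹ : UU B).1⁻¹).1 v))
    have h5 : (((k⁻¹ : UU B).1⁻¹ : GV E V)) = k.1 := inv_inv k.1
    rw [h5, hk]
  rw [h2, hT]
  exact h G

theorem group_of_good {B : SkewH E V} {p : PChar F} {W : WeilRep B p} (hg : GrpGood W)
    (τ : AntiU B) (T : SF (GV E V) (SF V ℂ) →ₗ[ℂ] ℂ) (hT : GInv W T)
    (G : SF (GV E V) (SF V ℂ)) : T (Theta F τ G) = T G := by
  have h1 : T ∘ₗ Theta F τ - T = 0 := by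
    refine hg τ _ (fun h₁ h₂ G => ?_) (fun G => ?_)
    · show T (Theta F τ (W.act h₁ h₂ G)) - T (W.act h₁ h₂ G) = T (Theta F τ G) - T G
      rw [Theta_act, hT, hT]
    · show T (Theta F τ (Theta F τ G)) - T (Theta F τ G) = -(T (Theta F τ G) - T G)
      rw [Theta_Theta]
      ring
  have h3 := congrArg (fun S : SF (GV E V) (SF V ℂ) →ₗ[ℂ] ℂ => S G) h1
  exact sub_eq_zero.1 h3

/-- `s(g) = g g^*` -/
def sg (B : SkewH E V) (g : GV E V) : SA B := ⟨g.1 * adj B g.1, by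
  apply sa_of_adj
  rw [adj_mul, adj_adj]⟩

theorem sg_act (B : SkewH E V) (h₁ h₂ : UU B) (g : GV E V) :
    sg B ((gC B).act (h₁, h₂) g) = saConj B h₁ (sg B g) := by
  apply Subtype.ext
  show (h₁.1.1 * g.1 * h₂.1⁻¹.1) * adj B (h₁.1.1 * g.1 * h₂.1⁻¹.1) =
    h₁.1.1 * (g.1 * adj B g.1) * h₁.1⁻¹.1
  rw [adj_mul, adj_mul, uu_adj, uu_adj_inv]
  have h1 : h₂.1⁻¹.1 * h₂.1.1 = 1 := h₂.1.inv_mul
  calc h₁.1.1 * g.1 * h₂.1⁻¹.1 * (h₂.1.1 * (adj B g.1 * h₁.1⁻¹.1))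
      = h₁.1.1 * g.1 * (h₂.1⁻¹.1 * h₂.1.1) * (adj B g.1 * h₁.1⁻¹.1) := by
        simp only [mul_assoc]
    _ = h₁.1.1 * (g.1 * adj B g.1) * h₁.1⁻¹.1 := by
        rw [h1, mul_one]
        simp only [mul_assoc]

theorem sg_theta {B : SkewH E V} (τ : AntiU B) (g : GV E V) :
    (sg B (thG τ g)).1 = conjτ τ (adj B g.1 * g.1) := by
  show conjτ τ (adj B g.1) * adj B (conjτ τ (adj B g.1)) = conjτ τ (adj B g.1 * g.1)
  rw [adj_conjτ, adj_adj, conjτ_mul]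

variable (F) in
include F in
theorem continuous_sg (B : SkewH E V) : Continuous (sg B) :=
  (Units.continuous_val.mul ((continuous_adj F B).comp Units.continuous_val)).subtype_mk _

end

end Pool.Agent.Work.MP_dd0ddf_al.OC
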