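import Pool.Agent.Work.MP_dd0ddf_al.OC.AdElem

/-!
# MP_dd0ddf_al, module AdCart: Cartan decomposition of the Levi subgroup

Either prove it for GL_m over a general finite linearly ordered index type and assemble the blocks {i | c i = b}, or directly by induction on n (index type Fin (n+1)): among the entries g_ij with c i = c j = c(last) choose one of maximal norm (nonzero), move it to position (last, last) by permutation matrices that preserve c, clear the rest of the last row and column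
by elementary matrices with entries of norm ≤ 1 inside the block; the remaining n × n matrix is in Lcg c restricted; induction.  The order condition: the entries of the block of `last` all have norm ≤ ‖g_last,last‖ and this is preserved by multiplication with elements of K0g ⊓ Lcg c, so t^(a_j) has norm ≤ ‖t^(a_last)‖ for j in that block, i.e. a_last ≤ a_j.
The diagonal entries have norm ‖t‖^m: absorb a unit into k.
-/

set_option linter.unusedSectionVars false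
set_option linter.style.haveILetI false

namespace Pool.Agent.Work.MP_dd0ddf_al.OC

noncomputable section

variable {E : Type*} [NontriviallyNormedField E] [IsUltrametricDist E] [ProperSpace E] {n : ℕ}

open Matrix

private def PC (t : E) (c : Fin n → ℕ) (h : GL (Fin n) E) (i : Fin n) : Prop :=
  (∀ j, j ≠ i → h.1 i j = 0 ∧ h.1 j i = 0) ∧ (∃ a : ℤ, h.1 i i = t ^ a) ∧
    ∀ p q, p ≤ i → q ≤ i → c p = c i → c q = c i → ‖h.1 p q‖ ≤ ‖h.1 i i‖

private theorem row_ne (h : GL (Fin n) E) (μ : Fin n) (h0 : ∀ j, h.1 μ j = 0) : False := by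
  have h1 : (h.1 * h⁻¹.1) μ μ = 1 := by
    have : h.1 * h⁻¹.1 = 1 := h.val_inv
    rw [this, Matrix.one_apply_eq]
  rw [Matrix.mul_apply, Finset.sum_eq_zero fun j _ => by rw [h0 j, zero_mul]] at h1
  exact zero_ne_one h1

private theorem swap_le (a μ j i : Fin n) (ha : a ≤ μ) (hi : μ ≤ i) (hj : j ≤ i) :
    Equiv.swap a μ j ≤ i := by
  rcases eq_or_ne j a with rfl | h1
  · rw [Equiv.swap_apply_left]; exact hi
  rcases eq_or_ne j μ with rfl | h2
  · rw [Equiv.swap_apply_right]; exact ha.trans hi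
  rw [Equiv.swap_apply_of_ne_of_ne h1 h2]
  exact hj

private theorem swap_c (c : Fin n → ℕ) (a μ j : Fin n) (ha : c a = c μ) :
    c (Equiv.swap a μ j) = c j := by
  rcases eq_or_ne j a with rfl | h1
  · rw [Equiv.swap_apply_left]; exact ha.symm
  rcases eq_or_ne j μ with rfl | h2
  · rw [Equiv.swap_apply_right]; exact ha
  rw [Equiv.swap_apply_of_ne_of_ne h1 h2]

private theorem swap_fix (a μ i : Fin n) (ha : a ≤ μ) (hi : μ < i) : Equiv.swap a μ i = i :=
  Equiv.swap_apply_of_ne_of_ne (ne_of_gt (lt_of_le_of_lt ha hi)) (ne_of_gt hi)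

private theorem cart_swap (t : E) (c : Fin n → ℕ) (h : GL (Fin n) E) (hL : h ∈ Lcg E c)
    (μ : Fin n) (hP : ∀ i, μ < i → PC t c h i) :
    ∃ k ∈ K0g E n ⊓ Lcg E c, ∃ k' ∈ K0g E n ⊓ Lcg E c,
      (∀ i, μ < i → PC t c (k * h * k') i) ∧ (k * h * k').1 μ μ ≠ 0 ∧
      ∀ p q, p ≤ μ → q ≤ μ → c p = c μ → c q = c μ →
        ‖(k * h * k').1 p q‖ ≤ ‖(k * h * k').1 μ μ‖ := by
  classical
  obtain ⟨⟨i0, j0⟩, hij, hmax⟩ := Finset.exists_max_image
    ((Finset.univ.filter fun p : Fin n => p ≤ μ ∧ c p = c μ) ×ˢ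
      (Finset.univ.filter fun p : Fin n => p ≤ μ ∧ c p = c μ))
    (fun x => ‖h.1 x.1 x.2‖) ⟨(μ, μ), by simp⟩
  simp only [Finset.mem_product, Finset.mem_filter, Finset.mem_univ, true_and] at hij hmax
  obtain ⟨⟨hi1, hi2⟩, hj1, hj2⟩ := hij
  have hmax' : ∀ p q, p ≤ μ → q ≤ μ → c p = c μ → c q = c μ → ‖h.1 p q‖ ≤ ‖h.1 i0 j0‖ :=
    fun p q h1 h2 h3 h4 => hmax (p, q) ⟨⟨h1, h3⟩, h2, h4⟩
  have hne : h.1 i0 j0 ≠ 0 := by
    intro h0
    refine row_ne h μ fun j => ?_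
    by_cases hc : c j = c μ
    · rcases le_or_gt j μ with hj | hj
      · have := hmax' μ j le_rfl hj rfl hc
        rw [h0, norm_zero] at this
        exact norm_le_zero_iff.1 this
      · exact ((hP j hj).1 μ (ne_of_lt hj)).2
    · exact (hL μ j (Ne.symm hc)).1
  have e1 : ∀ p q, (swG E i0 μ * h * swG E j0 μ).1 p q =
      h.1 (Equiv.swap i0 μ p) (Equiv.swap j0 μ q) := by
    intro p q
    rw [mul_swG, swG_mul]
  refine ⟨swG E i0 μ, ⟨swG_K0 _ _, swG_L c _ _ hi2⟩, swG E j0 μ, ⟨swG_K0 _ _, swG_L c _ _ hj2⟩,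
    ?_, ?_, ?_⟩
  · intro i hi
    obtain ⟨hD, ⟨a, ha⟩, hJ⟩ := hP i hi
    refine ⟨fun j hj => ?_, ⟨a, ?_⟩, fun p q hp hq hcp hcq => ?_⟩
    · rw [e1, e1, swap_fix i0 μ i hi1 hi, swap_fix j0 μ i hj1 hi]
      constructor
      · refine (hD _ ?_).1
        intro h5
        apply hj
        rw [← Equiv.swap_apply_self j0 μ j, h5, swap_fix j0 μ i hj1 hi]
      · refine (hD _ ?_).2
        intro h5
        apply hj
        rw [← Equiv.swap_apply_self i0 μ j, h5, swap_fix i0 μ i hi1 hi]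
    · rw [e1, swap_fix i0 μ i hi1 hi, swap_fix j0 μ i hj1 hi, ha]
    · rw [e1, e1, swap_fix i0 μ i hi1 hi, swap_fix j0 μ i hj1 hi]
      refine hJ _ _ (swap_le _ _ _ _ hi1 hi.le hp) (swap_le _ _ _ _ hj1 hi.le hq) ?_ ?_
      · rw [swap_c c _ _ _ hi2, hcp]
      · rw [swap_c c _ _ _ hj2, hcq]
  · rw [e1, Equiv.swap_apply_right, Equiv.swap_apply_right]
    exact hne
  · intro p q hp hq hcp hcq
    rw [e1, e1, Equiv.swap_apply_right, Equiv.swap_apply_right]
    refine hmax' _ _ (swap_le _ _ _ _ hi1 le_rfl hp) (swap_le _ _ _ _ hj1 le_rfl hq) ?_ ?_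
    · rw [swap_c c _ _ _ hi2, hcp]
    · rw [swap_c c _ _ _ hj2, hcq]

private theorem cart_elim (t : E) (ht : t ≠ 0)
    (hv : ∀ x : E, x ≠ 0 → ∃ m : ℤ, ‖x‖ = ‖t‖ ^ m) (c : Fin n → ℕ) (h : GL (Fin n) E)
    (hL : h ∈ Lcg E c) (μ : Fin n) (hP : ∀ i, μ < i → PC t c h i) (h0 : h.1 μ μ ≠ 0)
    (hM : ∀ p q, p ≤ μ → q ≤ μ → c p = c μ → c q = c μ → ‖h.1 p q‖ ≤ ‖h.1 μ μ‖) :
    ∃ k ∈ K0g E n ⊓ Lcg E c, ∃ k' ∈ K0g E n ⊓ Lcg E c,
      ∀ i, μ ≤ i → PC t c (k * h * k') i := by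
  classical
  have hrow : ∀ j, ‖h.1 μ j‖ ≤ ‖h.1 μ μ‖ := by
    intro j
    by_cases hc : c j = c μ
    · rcases le_or_gt j μ with hj | hj
      · exact hM μ j le_rfl hj rfl hc
      · rw [((hP j hj).1 μ (ne_of_lt hj)).2, norm_zero]
        exact norm_nonneg _
    · rw [(hL μ j (Ne.symm hc)).1, norm_zero]
      exact norm_nonneg _
  have hcol : ∀ j, ‖h.1 j μ‖ ≤ ‖h.1 μ μ‖ := by
    intro j
    by_cases hc : c j = c μ
    · rcases le_or_gt j μ with hj | hj
      · exact hM j μ hj le_rfl hc rfl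
      · rw [((hP j hj).1 μ (ne_of_lt hj)).1, norm_zero]
        exact norm_nonneg _
    · rw [(hL j μ hc).1, norm_zero]
      exact norm_nonneg _
  have hpos : 0 < ‖h.1 μ μ‖ := norm_pos_iff.2 h0
  let x : Fin n → E := fun j => if j = μ then 0 else h.1 μ j / h.1 μ μ
  have hx : x μ = 0 := if_pos rfl
  have hx' : ∀ j, j ≠ μ → x j = h.1 μ j / h.1 μ μ := fun j hj => if_neg hj
  have hx1 : ∀ j, ‖x j‖ ≤ 1 := by
    intro j
    by_cases hj : j = μ
    · rw [hj, hx, norm_zero]; exact zero_le_one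
    · rw [hx' j hj, norm_div]
      exact div_le_one_of_le₀ (hrow j) (norm_nonneg _)
  have hx2 : ∀ j, c μ ≠ c j → x j = 0 := by
    intro j hj
    by_cases hjm : j = μ
    · rw [hjm, hx]
    · rw [hx' j hjm, (hL μ j hj).1, zero_div]
  let y : Fin n → E := fun i => if i = μ then 0 else h.1 i μ / h.1 μ μ
  have hy : y μ = 0 := if_pos rfl
  have hy' : ∀ j, j ≠ μ → y j = h.1 j μ / h.1 μ μ := fun j hj => if_neg hj
  have hy1 : ∀ j, ‖y j‖ ≤ 1 := by
    intro j
    by_cases hj : j = μ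
    · rw [hj, hy, norm_zero]; exact zero_le_one
    · rw [hy' j hj, norm_div]
      exact div_le_one_of_le₀ (hcol j) (norm_nonneg _)
  have hy2 : ∀ j, c j ≠ c μ → y j = 0 := by
    intro j hj
    by_cases hjm : j = μ
    · rw [hjm, hy]
    · rw [hy' j hjm, (hL j μ hj).1, zero_div]
  obtain ⟨a, ha⟩ := hv _ h0
  have hu : t ^ a / h.1 μ μ ≠ 0 := div_ne_zero (zpow_ne_zero _ ht) h0
  have hu1 : ‖t ^ a / h.1 μ μ‖ = 1 := by
    rw [norm_div, norm_zpow, ← ha, div_self hpos.ne']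
  refine ⟨scG μ _ hu * rwG μ y hy, ⟨Subgroup.mul_mem _ (scG_K0 _ _ hu hu1) (rwG_K0 _ _ hy hy1),
    Subgroup.mul_mem _ (scG_L _ _ _ _) (rwG_L _ _ _ hy hy2)⟩,
    clG μ x hx, ⟨clG_K0 _ _ hx hx1, clG_L _ _ _ hx hx2⟩, ?_⟩
  have e1 : ∀ p q, (scG μ _ hu * rwG μ y hy * h * clG μ x hx).1 p q =
      (if p = μ then t ^ a / h.1 μ μ else 1) *
        ((h.1 p q - y p * h.1 μ q) - (h.1 p μ - y p * h.1 μ μ) * x q) := by
    intro p q
    rw [mul_clG, mul_assoc, scG_mul, scG_mul, rwG_mul, rwG_mul]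
    ring
  have eμμ : (scG μ _ hu * rwG μ y hy * h * clG μ x hx).1 μ μ = t ^ a := by
    rw [e1, if_pos rfl, hx, hy]
    field_simp
    ring
  have eμj : ∀ j, j ≠ μ → (scG μ _ hu * rwG μ y hy * h * clG μ x hx).1 μ j = 0 := by
    intro j hj
    rw [e1, if_pos rfl, hy, hx' j hj]
    field_simp
    ring
  have ejμ : ∀ j, j ≠ μ → (scG μ _ hu * rwG μ y hy * h * clG μ x hx).1 j μ = 0 := by
    intro j hj
    rw [e1, if_neg hj, hx, hy' j hj]
    field_simp
    ring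
  have epq : ∀ p q, p ≠ μ → q ≠ μ → (scG μ _ hu * rwG μ y hy * h * clG μ x hx).1 p q =
      h.1 p q - y p * h.1 μ q := by
    intro p q hp hq
    rw [e1, if_neg hp, hy' p hp]
    field_simp
    ring
  have hnorm : ∀ p q : Fin n, ∀ r : ℝ, ‖h.1 p q‖ ≤ r → (p ≠ μ → q ≠ μ → ‖h.1 μ q‖ ≤ r) →
      (‖t ^ a‖ ≤ r ∨ (p ≠ μ ∨ q ≠ μ)) → 0 ≤ r →
      ‖(scG μ _ hu * rwG μ y hy * h * clG μ x hx).1 p q‖ ≤ r := by
    intro p q r h1 h2 h3 hr
    by_cases hp : p = μ
    · by_cases hq : q = μ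
      · rw [hp, hq, eμμ]
        rcases h3 with h3 | h3 | h3
        · exact h3
        · exact absurd hp h3
        · exact absurd hq h3
      · rw [hp, eμj q hq, norm_zero]; exact hr
    · by_cases hq : q = μ
      · rw [hq, ejμ p hp, norm_zero]; exact hr
      · rw [epq p q hp hq]
        refine um_sub _ _ _ h1 ?_
        rw [norm_mul]
        exact (mul_le_of_le_one_left (norm_nonneg _) (hy1 p)).trans (h2 hp hq)
  intro i hi
  rcases eq_or_lt_of_le hi with rfl | hi'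
  · refine ⟨fun j hj => ⟨eμj j hj, ejμ j hj⟩, ⟨a, eμμ⟩, fun p q hp hq hcp hcq => ?_⟩
    rw [eμμ, norm_zpow, ← ha]
    refine hnorm p q _ (hM p q hp hq hcp hcq) (fun _ _ => hrow q) (Or.inl ?_) (norm_nonneg _)
    rw [norm_zpow, ← ha]
  · obtain ⟨hD, ⟨b, hb⟩, hJ⟩ := hP i hi'
    have hne : i ≠ μ := ne_of_gt hi'
    have hyi : y i = 0 := by rw [hy' i hne, (hD μ hne.symm).1, zero_div]
    have eii : (scG μ _ hu * rwG μ y hy * h * clG μ x hx).1 i i = h.1 i i := by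
      rw [epq i i hne hne, hyi, zero_mul, sub_zero]
    refine ⟨fun j hj => ⟨?_, ?_⟩, ⟨b, ?_⟩, fun p q hp hq hcp hcq => ?_⟩
    · by_cases hjm : j = μ
      · rw [hjm]; exact ejμ i hne
      · rw [epq i j hne hjm, (hD j hj).1, hyi, zero_mul, sub_zero]
    · by_cases hjm : j = μ
      · rw [hjm]; exact eμj i hne
      · rw [epq j i hjm hne, (hD j hj).2, (hD μ hne.symm).2, mul_zero, sub_zero]
    · rw [eii, hb]
    · rw [eii]
      refine hnorm p q _ (hJ p q hp hq hcp hcq) (fun hpm hqm => ?_) ?_ (norm_nonneg _)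
      · by_cases hcm : c μ = c i
        · exact hJ μ q hi'.le hq hcm hcq
        · rw [(hL μ q (by rw [hcq]; exact hcm)).1, norm_zero]
          exact norm_nonneg _
      · by_cases hpm : p = μ
        · by_cases hqm : q = μ
          · left
            rw [norm_zpow, ← ha]
            have := hJ p q hp hq hcp hcq
            rwa [hpm, hqm] at this
          · exact Or.inr (Or.inr hqm)
        · exact Or.inr (Or.inl hpm)

private theorem cart_step (t : E) (ht : t ≠ 0)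
    (hv : ∀ x : E, x ≠ 0 → ∃ m : ℤ, ‖x‖ = ‖t‖ ^ m) (c : Fin n → ℕ) (g : GL (Fin n) E)
    (hg : g ∈ Lcg E c) (m : ℕ) (hm : m ≤ n) :
    ∃ k ∈ K0g E n ⊓ Lcg E c, ∃ k' ∈ K0g E n ⊓ Lcg E c,
      ∀ i : Fin n, n - m ≤ (i : ℕ) → PC t c (k * g * k') i := by
  induction m with
  | zero =>
    refine ⟨1, Subgroup.one_mem _, 1, Subgroup.one_mem _, fun i hi => ?_⟩
    have := i.2
    omega
  | succ m ih =>
    obtain ⟨k, hk, k', hk', hP⟩ := ih (by omega)
    have hμ : n - (m + 1) < n := by omega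
    have hL : k * g * k' ∈ Lcg E c :=
      Subgroup.mul_mem _ (Subgroup.mul_mem _ hk.2 hg) hk'.2
    obtain ⟨k1, hk1, k1', hk1', hP1, h1, hM1⟩ := cart_swap t c (k * g * k') hL
      ⟨n - (m + 1), hμ⟩ (fun i hi => hP i (by
        have : n - (m + 1) < (i : ℕ) := hi
        omega))
    have hL1 : k1 * (k * g * k') * k1' ∈ Lcg E c :=
      Subgroup.mul_mem _ (Subgroup.mul_mem _ hk1.2 hL) hk1'.2
    obtain ⟨k2, hk2, k2', hk2', hP2⟩ := cart_elim t ht hv c _ hL1 ⟨n - (m + 1), hμ⟩ hP1 h1 hM1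
    refine ⟨k2 * k1 * k, Subgroup.mul_mem _ (Subgroup.mul_mem _ hk2 hk1) hk,
      k' * k1' * k2', Subgroup.mul_mem _ (Subgroup.mul_mem _ hk' hk1') hk2', fun i hi => ?_⟩
    have e : k2 * k1 * k * g * (k' * k1' * k2') = k2 * (k1 * (k * g * k') * k1') * k2' := by
      simp only [mul_assoc]
    rw [e]
    exact hP2 i hi

theorem cartan (t : E) (ht : t ≠ 0) (ht1 : ‖t‖ < 1)
    (hv : ∀ x : E, x ≠ 0 → ∃ m : ℤ, ‖x‖ = ‖t‖ ^ m) (c : Fin n → ℕ) (g : GL (Fin n) E)
    (hg : g ∈ Lcg E c) : ∃ k ∈ K0g E n ⊓ Lcg E c, ∃ k' ∈ K0g E n ⊓ Lcg E c,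
      ∃ a : Fin n → ℤ, (∀ i j, i ≤ j → c i = c j → a j ≤ a i) ∧ g = k * tz t ht a * k' := by
  obtain ⟨k, hk, k', hk', hP⟩ := cart_step t ht hv c g hg n le_rfl
  have hP' : ∀ i, PC t c (k * g * k') i := fun i => hP i (by simp)
  choose a ha using fun i => (hP' i).2.1
  have ht0 : 0 < ‖t‖ := norm_pos_iff.2 ht
  refine ⟨k⁻¹, Subgroup.inv_mem _ hk, k'⁻¹, Subgroup.inv_mem _ hk', a, ?_, ?_⟩
  · intro i j hij hc
    have h1 := (hP' j).2.2 i i hij hij hc hc
    rw [ha, ha, norm_zpow, norm_zpow] at h1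
    by_contra hcon
    exact absurd h1 (not_le.2 (zpow_lt_zpow_right_of_lt_one₀ ht0 ht1 (not_le.1 hcon)))
  · have e : k * g * k' = tz t ht a := by
      apply Units.ext
      ext i j
      show (k * g * k').1 i j = Matrix.diagonal (fun i => t ^ a i) i j
      by_cases hij : i = j
      · subst hij
        rw [Matrix.diagonal_apply_eq, ha]
      · rw [Matrix.diagonal_apply_ne _ hij, ((hP' i).1 j (Ne.symm hij)).1]
    rw [← e]
    simp only [mul_assoc, inv_mul_cancel_left, mul_inv_cancel, mul_one]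

end

end Pool.Agent.Work.MP_dd0ddf_al.OC
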