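import Mathlib

/-!
# MP_dd0ddf_al, module AdFix: fixed vectors and coinvariants of a group acting with finite orbits; maximal stable subspaces

`fix_inj`: a fixed vector w in span{σ q x - x} is 0: w = ∑ (σ q_j x_j - x_j); N a normal finite index subgroup fixing all x_j (normal core of a finite intersection of finite index subgroups); A(x) = ∑ over Q/N of σ(q) x for N-fixed x; A(σ q_j x_j) = A(x_j) (reindex, N normal), so A(w) = 0 and A(w) = [Q:N] w.
`fix_fd`: the fixed vectors inject into W / W(Q).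
`exists_max`: Zorn for stable proper subspaces containing M0: the union of a nonempty chain is proper because it would contain the finite set S of generators.
-/

set_option linter.unusedSectionVars false
set_option linter.style.haveILetI false

namespace Pool.Agent.Work.MP_dd0ddf_al.OC

noncomputable section

/-- fixed vectors -/
def fixV {Q W : Type*} [Group Q] [AddCommGroup W] [Module ℂ W] (σ : Q →* Module.End ℂ W) :
    Submodule ℂ W where
  carrier := {w | ∀ q, σ q w = w}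
  add_mem' := fun {a b} ha hb q => by rw [map_add, ha, hb]
  zero_mem' := fun q => map_zero _
  smul_mem' := fun c a ha q => by rw [map_smul, ha]

/-- the span of the `σ(q) w - w` -/
def coV {Q W : Type*} [Group Q] [AddCommGroup W] [Module ℂ W] (σ : Q →* Module.End ℂ W) :
    Submodule ℂ W := Submodule.span ℂ {x | ∃ q w, x = σ q w - w}

attribute [local instance] Subgroup.fintypeQuotientOfFiniteIndex

private def avg {Q W : Type*} [Group Q] [AddCommGroup W] [Module ℂ W]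
    (σ : Q →* Module.End ℂ W) (N : Subgroup Q) [N.FiniteIndex] : W →ₗ[ℂ] W :=
  ∑ q : Q ⧸ N, σ q.out

private theorem avg_apply {Q W : Type*} [Group Q] [AddCommGroup W] [Module ℂ W]
    (σ : Q →* Module.End ℂ W) (N : Subgroup Q) [N.FiniteIndex] (w : W) :
    avg σ N w = ∑ q : Q ⧸ N, σ q.out w := by
  rw [avg, LinearMap.sum_apply]

private theorem avg_shift {Q W : Type*} [Group Q] [AddCommGroup W] [Module ℂ W]
    (σ : Q →* Module.End ℂ W) (N : Subgroup Q) [N.FiniteIndex] [N.Normal] (x : W)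
    (hx : ∀ h ∈ N, σ h x = x) (a : Q) : avg σ N (σ a x) = avg σ N x := by
  rw [avg_apply, avg_apply]
  refine Fintype.sum_equiv (Equiv.mulRight (a : Q ⧸ N)) _ _ fun q => ?_
  show σ q.out (σ a x) = σ (q * (a : Q ⧸ N)).out x
  have h1 : ((q.out * a : Q) : Q ⧸ N) = ((q * (a : Q ⧸ N)).out : Q) := by
    rw [QuotientGroup.mk_mul, QuotientGroup.out_eq', QuotientGroup.out_eq']
  have h2 := QuotientGroup.eq.1 h1
  have h3 := hx _ h2
  rw [← Module.End.mul_apply, ← map_mul]
  conv_lhs => rw [← h3]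
  rw [← Module.End.mul_apply, ← map_mul, mul_inv_cancel_left]

private theorem avg_fix {Q W : Type*} [Group Q] [AddCommGroup W] [Module ℂ W]
    (σ : Q →* Module.End ℂ W) (N : Subgroup Q) [N.FiniteIndex] (x : W)
    (hx : ∀ q, σ q x = x) : avg σ N x = (Fintype.card (Q ⧸ N) : ℂ) • x := by
  rw [avg_apply, Finset.sum_congr rfl fun q _ => hx _, Finset.sum_const, Finset.card_univ,
    Nat.cast_smul_eq_nsmul]

private theorem coV_avg {Q W : Type*} [Group Q] [AddCommGroup W] [Module ℂ W]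
    (σ : Q →* Module.End ℂ W)
    (hσ : ∀ w, ∃ H : Subgroup Q, H.FiniteIndex ∧ ∀ h ∈ H, σ h w = w) (w : W)
    (h2 : w ∈ coV σ) : ∃ N : Subgroup Q, N.Normal ∧ N.FiniteIndex ∧
      ∀ N' : Subgroup Q, N' ≤ N → N'.Normal → ∀ _ : N'.FiniteIndex, avg σ N' w = 0 := by
  refine Submodule.span_induction (p := fun w _ => ∃ N : Subgroup Q, N.Normal ∧ N.FiniteIndex ∧
      ∀ N' : Subgroup Q, N' ≤ N → N'.Normal → ∀ _ : N'.FiniteIndex, avg σ N' w = 0)
    ?_ ?_ ?_ ?_ h2
  · rintro _ ⟨q, y, rfl⟩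
    obtain ⟨H, hH, hf⟩ := hσ y
    refine ⟨H.normalCore, inferInstance, inferInstance, fun N' hN' hn hfi => ?_⟩
    rw [map_sub, avg_shift σ N' y (fun h hh => hf h (H.normalCore_le (hN' hh))) q, sub_self]
  · exact ⟨⊤, inferInstance, inferInstance, fun N' _ _ _ => map_zero _⟩
  · rintro x y _ _ ⟨N1, n1, f1, h1⟩ ⟨N2, n2, f2, h2⟩
    refine ⟨N1 ⊓ N2, inferInstance, inferInstance, fun N' hN' hn hfi => ?_⟩
    rw [map_add, h1 N' (hN'.trans inf_le_left) hn hfi, h2 N' (hN'.trans inf_le_right) hn hfi,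
      add_zero]
  · rintro c x _ ⟨N1, n1, f1, h1⟩
    refine ⟨N1, n1, f1, fun N' hN' hn hfi => ?_⟩
    rw [map_smul, h1 N' hN' hn hfi, smul_zero]

theorem fix_inj {Q W : Type*} [Group Q] [AddCommGroup W] [Module ℂ W]
    (σ : Q →* Module.End ℂ W)
    (hσ : ∀ w, ∃ H : Subgroup Q, H.FiniteIndex ∧ ∀ h ∈ H, σ h w = w) (w : W)
    (h1 : w ∈ fixV σ) (h2 : w ∈ coV σ) : w = 0 := by
  obtain ⟨N, hn, hfi, hN⟩ := coV_avg σ hσ w h2
  have h3 := hN N le_rfl hn hfi
  rw [avg_fix σ N w h1] at h3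
  rcases smul_eq_zero.1 h3 with h4 | h4
  · exact absurd (Nat.cast_eq_zero.1 h4) Fintype.card_ne_zero
  · exact h4

theorem fix_fd {Q W : Type*} [Group Q] [AddCommGroup W] [Module ℂ W]
    (σ : Q →* Module.End ℂ W)
    (hσ : ∀ w, ∃ H : Subgroup Q, H.FiniteIndex ∧ ∀ h ∈ H, σ h w = w)
    (S : Finset W) (hS : Submodule.span ℂ (S : Set W) ⊔ coV σ = ⊤) :
    Module.Finite ℂ (fixV σ) := by
  classical
  haveI : Module.Finite ℂ (W ⧸ coV σ) := by
    refine ⟨⟨S.image (coV σ).mkQ, ?_⟩⟩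
    rw [Finset.coe_image, ← Submodule.map_span, eq_top_iff]
    rintro x -
    obtain ⟨y, rfl⟩ := Submodule.mkQ_surjective _ x
    have hy : y ∈ Submodule.span ℂ (S : Set W) ⊔ coV σ := by rw [hS]; trivial
    obtain ⟨a, ha, b, hb, rfl⟩ := Submodule.mem_sup.1 hy
    refine ⟨a, ha, ?_⟩
    rw [map_add, (Submodule.Quotient.mk_eq_zero _).2 hb |> (show (coV σ).mkQ b = 0 from ·),
      add_zero]
  refine Module.Finite.of_injective ((coV σ).mkQ ∘ₗ (fixV σ).subtype) ?_
  rw [← LinearMap.ker_eq_bot, LinearMap.ker_eq_bot']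
  rintro ⟨x, hx⟩ h
  have h' : x ∈ coV σ := (Submodule.Quotient.mk_eq_zero _).1 h
  exact Subtype.ext (fix_inj σ hσ x hx h')

theorem exists_max {G W : Type*} [Group G] [AddCommGroup W] [Module ℂ W]
    (π : G →* Module.End ℂ W) (M0 : Submodule ℂ W) (h0 : M0 ≠ ⊤)
    (hM0 : ∀ g, ∀ w ∈ M0, π g w ∈ M0) (S : Finset W)
    (hS : ∀ M : Submodule ℂ W, (∀ g, ∀ w ∈ M, π g w ∈ M) → (S : Set W) ⊆ M → M = ⊤) :
    ∃ M : Submodule ℂ W, M0 ≤ M ∧ M ≠ ⊤ ∧ (∀ g, ∀ w ∈ M, π g w ∈ M) ∧
      ∀ M' : Submodule ℂ W, M ≤ M' → (∀ g, ∀ w ∈ M', π g w ∈ M') → M' = M ∨ M' = ⊤ := by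
  classical
  obtain ⟨M, hM1, hM2⟩ := zorn_le_nonempty₀
    {M : Submodule ℂ W | M ≠ ⊤ ∧ ∀ g, ∀ w ∈ M, π g w ∈ M} (by
      intro c hc hch y hy
      have hdir : DirectedOn (· ≤ ·) c := hch.directedOn
      have hne : c.Nonempty := ⟨y, hy⟩
      refine ⟨sSup c, ⟨?_, ?_⟩, fun z hz => le_sSup hz⟩
      · intro htop
        have hfin : ∀ T : Finset W, ∃ M ∈ c, (T : Set W) ⊆ M := by
          intro T
          induction T using Finset.induction_on with
          | empty => exact ⟨y, hy, by simp⟩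
          | insert a T ha ih =>
            obtain ⟨M1, hM1, hT⟩ := ih
            have ha' : a ∈ sSup c := by rw [htop]; trivial
            obtain ⟨M2, hM2, haM⟩ := (Submodule.mem_sSup_of_directed hne hdir).1 ha'
            obtain ⟨M3, hM3, h13, h23⟩ := hdir M1 hM1 M2 hM2
            refine ⟨M3, hM3, ?_⟩
            intro x hx
            rcases Finset.mem_insert.1 (Finset.mem_coe.1 hx) with rfl | hx
            · exact h23 haM
            · exact h13 (hT hx)
        obtain ⟨M1, hM1, hT⟩ := hfin S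
        exact (hc hM1).1 (hS M1 (hc hM1).2 hT)
      · intro g w hw
        obtain ⟨M2, hM2, hwM⟩ := (Submodule.mem_sSup_of_directed hne hdir).1 hw
        exact (Submodule.mem_sSup_of_directed hne hdir).2 ⟨M2, hM2, (hc hM2).2 g w hwM⟩)
    M0 ⟨h0, hM0⟩
  refine ⟨M, hM1, hM2.prop.1, hM2.prop.2, fun M' hle hst => ?_⟩
  by_cases htop : M' = ⊤
  · exact Or.inr htop
  · exact Or.inl (le_antisymm (hM2.le_of_ge ⟨htop, hst⟩ hle) hle)

end

end Pool.Agent.Work.MP_dd0ddf_al.OC
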