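import Pool.Agent.Work.MP_dd0ddf_al.OC.Defs2

/-!
# MP_dd0ddf_al, module Witt: quasi-reflections and the theorem of Witt

`qr v β` is `a ↦ a + β⁻¹ ⟨a, v⟩ v`, for `β ≠ 0` with `conj β - β = ⟨v, v⟩`.  Unitary:
`⟨σa, σb⟩ - ⟨a, b⟩ = ⟨a,v⟩ conj⟨b,v⟩ (β conj β)⁻¹ [β - conj β + ⟨v,v⟩] = 0`, using `⟨v, b⟩ = - conj ⟨b, v⟩`.
(Its inverse is `a ↦ a - (conj β)⁻¹ ⟨a, v⟩ v`.)

Key step `witt_step`: let `U'` be a subspace, `x, y` vectors, `⟨y, y⟩ = ⟨x, x⟩`, `⟨y, u⟩ = ⟨x, u⟩` for `u ∈ U'`, and `β := ⟨x, y - x⟩ ≠ 0`.  Then with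
`d = y - x`: `d ⊥ U'`, `conj β - β = ⟨d, d⟩` and `qr d β` fixes `U'` pointwise and maps `x` to `x + d = y`.

Witt: `φ : U → V` injective isometry; claim: `φ` is the restriction of a product of quasi-reflections.  Induction on `dim U`
(generalising φ).  `U = U' + E x`, `x ∉ U'`.  By induction we may compose `φ` with a product of quasi-reflections and assume `φ = id` on
`U'`.  Let `y = φ x` (not in `U'`, since φ is injective and `φ = id` on `U'`).  If `⟨x, y - x⟩ ≠ 0` use `witt_step`.  If `⟨x, y - x⟩ = 0`: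
choose `w ⊥ U'` with `⟨w, x⟩ ≠ 0` and `⟨w, y⟩ ≠ 0` (the functionals `⟨·, x⟩, ⟨·, y⟩` are nonzero on `U'^⊥`, because
`(U'^⊥)^⊥ = U'`; and a vector space is not the union of two proper subspaces) and `β ≠ 0` with `conj β - β = ⟨w, w⟩`
(`β = -⟨w,w⟩/2 + f`, `f ∈ F` suitable; or: if `⟨w,w⟩ ≠ 0` take `-⟨w,w⟩/2`, else take `1`).  Then `x' = qr w β x = x + β⁻¹⟨x,w⟩ w` satisfies
`⟨x', y - x'⟩ = ⟨x', y⟩ - ⟨x, x⟩ = β⁻¹⟨x,w⟩⟨w,y⟩ ≠ 0`; `witt_step` for `(x', y)`.
-/

set_option linter.unusedSectionVars false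
set_option linter.style.haveILetI false

namespace Pool.Agent.Work.MP_dd0ddf_al.OC

noncomputable section

variable {E V : Type*} [Field E] [StarRing E] [AddCommGroup V] [Module E V]
  [Module.Finite E V] (B : SkewH E V)

/-- the linear map `a ↦ a + c ⟨a, v⟩ v` -/
def qrLin (v : V) (c : E) : Module.End E V where
  toFun a := a + (c * B.ip a v) • v
  map_add' a b := by
    rw [B.add_left, mul_add, add_smul]
    abel
  map_smul' t a := by
    rw [B.smul_left, RingHom.id_apply, smul_add, smul_smul]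
    congr 2
    ring

theorem qrLin_apply (v : V) (c : E) (a : V) : qrLin B v c a = a + (c * B.ip a v) • v := rfl

/-- `β ≠ 0` and `conj β - β = ⟨v, v⟩` -/
def QRok (v : V) (β : E) : Prop := β ≠ 0 ∧ star β - β = B.ip v v

private theorem witt_comp (v : V) (c d : E) (a : V) : qrLin B v c (qrLin B v d a) =
    a + ((c + d + c * d * B.ip v v) * B.ip a v) • v := by
  rw [qrLin_apply, qrLin_apply, B.add_left, B.smul_left, add_assoc, ← add_smul]
  congr 2
  ring

private theorem witt_star_ne {β : E} (h : β ≠ 0) : star β ≠ 0 := by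
  intro h0
  apply h
  rw [← star_star β, h0, star_zero]

private theorem witt_coef {v : V} {β : E} (h : QRok B v β) :
    β⁻¹ + -(star β)⁻¹ + β⁻¹ * -(star β)⁻¹ * B.ip v v = 0 := by
  have h1 := h.1
  have h2 := witt_star_ne h.1
  rw [← h.2]
  field_simp
  ring

theorem qr_mul_inv {v : V} {β : E} (h : QRok B v β) :
    qrLin B v β⁻¹ * qrLin B v (-(star β)⁻¹) = 1 := by
  ext a
  change qrLin B v β⁻¹ (qrLin B v (-(star β)⁻¹) a) = a
  rw [witt_comp, witt_coef B h, zero_mul, zero_smul, add_zero]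

theorem qr_inv_mul {v : V} {β : E} (h : QRok B v β) :
    qrLin B v (-(star β)⁻¹) * qrLin B v β⁻¹ = 1 := by
  ext a
  change qrLin B v (-(star β)⁻¹) (qrLin B v β⁻¹ a) = a
  have h1 : -(star β)⁻¹ + β⁻¹ + -(star β)⁻¹ * β⁻¹ * B.ip v v = 0 := by
    rw [← witt_coef B h]
    ring
  rw [witt_comp, h1, zero_mul, zero_smul, add_zero]

theorem qr_isom {v : V} {β : E} (h : QRok B v β) (a b : V) :
    B.ip (qrLin B v β⁻¹ a) (qrLin B v β⁻¹ b) = B.ip a b := by
  have h1 := h.1
  have h2 := witt_star_ne h.1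
  rw [qrLin_apply, qrLin_apply, B.add_left, B.smul_left, B.add_right, B.add_right, B.smul_right,
    B.smul_right, B.skew b v, ← h.2, star_mul', star_inv₀]
  field_simp
  ring

/-- the quasi-reflection `a ↦ a + β⁻¹ ⟨a, v⟩ v` as an element of `U(V)` -/
def qr (v : V) (β : E) (h : QRok B v β) : UU B :=
  ⟨⟨qrLin B v β⁻¹, qrLin B v (-(star β)⁻¹), qr_mul_inv B h, qr_inv_mul B h⟩, qr_isom B h⟩

theorem qr_apply (v : V) (β : E) (h : QRok B v β) (a : V) :
    (qr B v β h).1.1 a = a + (β⁻¹ * B.ip a v) • v := rfl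

/-- the set of quasi-reflections with `v ≠ 0` -/
def qrSet : Set (UU B) := {g | ∃ v β, ∃ h : QRok B v β, v ≠ 0 ∧ g = qr B v β h}

private theorem witt_ip_sum {ι : Type*} (s : Finset ι) (v : V) (c : ι → E) (g : ι → V) :
    B.ip v (∑ j ∈ s, c j • g j) = ∑ j ∈ s, star (c j) * B.ip v (g j) := by
  classical
  induction s using Finset.induction_on with
  | empty =>
    have := B.smul_right 0 v 0
    simp only [Finset.sum_empty]
    rw [zero_smul] at this
    rw [this]
    simp
  | insert a s ha ih =>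
    rw [Finset.sum_insert ha, Finset.sum_insert ha, B.add_right, B.smul_right, ih]

private theorem witt_finrank (U : Submodule E V) :
    Module.finrank E U + Module.finrank E (orth B U) = Module.finrank E V := by
  classical
  let u := Module.finBasis E U
  let T : V →ₗ[E] (Fin (Module.finrank E U) → E) := LinearMap.pi fun i => B.lin (u i : V)
  have hker : LinearMap.ker T = orth B U := by
    ext v
    rw [LinearMap.mem_ker]
    constructor
    · intro h0 w hw
      have h1 : (⟨w, hw⟩ : U) = ∑ i, u.repr ⟨w, hw⟩ i • u i := (u.sum_repr _).symm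
      have h2 : w = ∑ i, u.repr ⟨w, hw⟩ i • (u i : V) := by
        have h3 := congrArg U.subtype h1
        rw [map_sum] at h3
        simp only [map_smul] at h3
        exact h3
      rw [h2, witt_ip_sum]
      refine Finset.sum_eq_zero fun i _ => ?_
      have h3 : B.ip v (u i : V) = 0 := congrFun h0 i
      rw [h3, mul_zero]
    · intro h0
      funext i
      exact h0 (u i : V) (u i).2
  have hrange : LinearMap.range T = ⊤ := by
    by_contra hne
    obtain ⟨f, hf0, hf⟩ := Submodule.exists_le_ker_of_lt_top _ (lt_top_iff_ne_top.2 hne)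
    apply hf0
    set c : Fin (Module.finrank E U) → E := fun i => f (Pi.single i 1) with hc
    have hfx : ∀ x : Fin (Module.finrank E U) → E, f x = ∑ i, c i * x i := by
      intro x
      have h1 : x = ∑ i, x i • (Pi.single i 1 : Fin (Module.finrank E U) → E) := by
        funext j
        simp [Finset.sum_apply, Pi.single_apply]
      conv_lhs => rw [h1]
      rw [map_sum]
      refine Finset.sum_congr rfl fun i _ => ?_
      rw [map_smul, smul_eq_mul, mul_comm]
    have h1 : ∑ i, star (c i) • (u i : V) = 0 := by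
      apply B.nondeg_right
      intro v
      rw [witt_ip_sum]
      have h2 : f (T v) = 0 := LinearMap.mem_ker.1 (hf (LinearMap.mem_range_self T v))
      rw [hfx] at h2
      rw [← h2]
      refine Finset.sum_congr rfl fun i _ => ?_
      rw [star_star]
      rfl
    have h2 : ∑ i, star (c i) • u i = 0 := by
      apply Subtype.ext
      simpa using h1
    have h3 := Fintype.linearIndependent_iff.1 u.linearIndependent _ h2
    have h4 : ∀ i, c i = 0 := fun i => by
      rw [← star_star (c i), h3 i, star_zero]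
    ext x
    simp only [LinearMap.comp_apply, LinearMap.zero_apply]
    exact h4 x
  have h1 := LinearMap.finrank_range_add_finrank_ker T
  rw [hker, hrange, finrank_top, Module.finrank_fin_fun] at h1
  exact h1

theorem orth_orth (U : Submodule E V) : orth B (orth B U) = U := by
  symm
  apply Submodule.eq_of_le_of_finrank_eq
  · intro u hu w hw
    rw [B.skew w u, hw u hu, star_zero, neg_zero]
  · have h1 := witt_finrank B U
    have h2 := witt_finrank B (orth B U)
    omega

theorem finrank_orth (U : Submodule E V) :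
    Module.finrank E U + Module.finrank E (orth B U) = Module.finrank E V :=
  witt_finrank B U

theorem witt_step (U : Submodule E V) (x y : V) (hxx : B.ip y y = B.ip x x)
    (hxu : ∀ u ∈ U, B.ip y u = B.ip x u) (hne : B.ip x (y - x) ≠ 0) :
    ∃ g ∈ qrSet B, (∀ u ∈ U, g.1.1 u = u) ∧ g.1.1 x = y := by
  have hsub : ∀ a b c : V, B.ip a (b - c) = B.ip a b - B.ip a c := by
    intro a b c
    have h1 := B.add_right a b ((-1 : E) • c)
    rw [B.smul_right, neg_smul, one_smul, ← sub_eq_add_neg, star_neg, star_one] at h1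
    rw [h1]
    ring
  have hsub' : ∀ a b c : V, B.ip (b - c) a = B.ip b a - B.ip c a := by
    intro a b c
    have h1 := B.add_left b ((-1 : E) • c) a
    rw [B.smul_left, neg_smul, one_smul, ← sub_eq_add_neg] at h1
    rw [h1]
    ring
  have hok : QRok B (y - x) (B.ip x (y - x)) := by
    refine ⟨hne, ?_⟩
    have h1 : star (B.ip x (y - x)) = -B.ip (y - x) x := by
      rw [B.skew x (y - x), neg_neg]
    rw [h1, hsub, hsub', hsub, hsub', hsub', hxx]
    ring
  refine ⟨qr B (y - x) (B.ip x (y - x)) hok, ⟨_, _, hok, ?_, rfl⟩, fun u hu => ?_, ?_⟩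
  · intro h0
    apply hne
    rw [h0]
    have := B.smul_right 0 x 0
    rw [zero_smul, star_zero, zero_mul] at this
    exact this
  · rw [qr_apply]
    have h1 : B.ip u (y - x) = 0 := by
      rw [B.skew (y - x) u, hsub', hxu u hu, sub_self, star_zero, neg_zero]
    rw [h1, mul_zero, zero_smul, add_zero]
  · rw [qr_apply, inv_mul_cancel₀ hne, one_smul]
    abel

private theorem witt_sep (U : Submodule E V) {x : V} (hx : x ∉ U) :
    ∃ w ∈ orth B U, B.ip w x ≠ 0 := by
  by_contra hcon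
  push Not at hcon
  apply hx
  rw [← orth_orth B U]
  intro w hw
  rw [B.skew w x, hcon w hw, star_zero, neg_zero]

private theorem witt_one (h2 : (2 : E) ≠ 0) (U : Submodule E V) (x y : V) (hx : x ∉ U) (hy : y ∉ U)
    (hxx : B.ip y y = B.ip x x) (hxu : ∀ u ∈ U, B.ip y u = B.ip x u) :
    ∃ g ∈ Subgroup.closure (qrSet B), (∀ u ∈ U, g.1.1 u = u) ∧ g.1.1 x = y := by
  by_cases hne : B.ip x (y - x) ≠ 0
  · obtain ⟨g, hg, h1, h3⟩ := witt_step B U x y hxx hxu hne
    exact ⟨g, Subgroup.subset_closure hg, h1, h3⟩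
  rw [not_not] at hne
  obtain ⟨w, hwU, hwx, hwy⟩ : ∃ w ∈ orth B U, B.ip w x ≠ 0 ∧ B.ip w y ≠ 0 := by
    obtain ⟨w₁, hw₁, h1⟩ := witt_sep B U hx
    obtain ⟨w₂, hw₂, h3⟩ := witt_sep B U hy
    by_cases h4 : B.ip w₁ y = 0
    · by_cases h5 : B.ip w₂ x = 0
      · refine ⟨w₁ + w₂, (orth B U).add_mem hw₁ hw₂, ?_, ?_⟩
        · rw [B.add_left, h5, add_zero]
          exact h1
        · rw [B.add_left, h4, zero_add]
          exact h3
      · exact ⟨w₂, hw₂, h5, h3⟩
    · exact ⟨w₁, hw₁, h1, h4⟩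
  obtain ⟨β, hβ⟩ : ∃ β, QRok B w β := by
    by_cases hs : B.ip w w = 0
    · exact ⟨1, one_ne_zero, by rw [star_one, sub_self, hs]⟩
    · refine ⟨-(B.ip w w) / 2, div_ne_zero (neg_ne_zero.2 hs) h2, ?_⟩
      have h3 : star (B.ip w w) = -B.ip w w := by
        exact (neg_eq_iff_eq_neg.2 (B.skew w w)).symm
      have h4 : star (2 : E) = 2 := by
        have h5 : (2 : E) = 1 + 1 := by norm_num
        rw [h5, star_add, star_one]
      rw [star_div₀, star_neg, h3, h4]
      field_simp
      ring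
  have hw0 : w ≠ 0 := by
    rintro rfl
    apply hwx
    have := B.smul_left 0 0 x
    rw [zero_smul, zero_mul] at this
    exact this
  have hadd : ∀ a b c : V, B.ip a (b - c) = B.ip a b - B.ip a c := by
    intro a b c
    have h1 := B.add_right a b ((-1 : E) • c)
    rw [B.smul_right, neg_smul, one_smul, ← sub_eq_add_neg, star_neg, star_one] at h1
    rw [h1]
    ring
  set σ : UU B := qr B w β hβ with hσ
  have hσx : σ.1.1 x = x + (β⁻¹ * B.ip x w) • w := qr_apply B w β hβ x
  have hσU : ∀ u ∈ U, σ.1.1 u = u := by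
    intro u hu
    rw [hσ, qr_apply]
    have h1 : B.ip u w = 0 := by
      rw [B.skew w u, hwU u hu, star_zero, neg_zero]
    rw [h1, mul_zero, zero_smul, add_zero]
  have hxw : B.ip x w ≠ 0 := by
    intro h0
    apply hwx
    rw [B.skew x w, h0, star_zero, neg_zero]
  have hxx' : B.ip (σ.1.1 x) (σ.1.1 x) = B.ip x x := σ.2 x x
  have hxu' : ∀ u ∈ U, B.ip y u = B.ip (σ.1.1 x) u := by
    intro u hu
    rw [hσx, B.add_left, B.smul_left, hwU u hu, mul_zero, add_zero]
    exact hxu u hu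
  have hne' : B.ip (σ.1.1 x) (y - σ.1.1 x) ≠ 0 := by
    rw [hadd, hxx']
    have h1 : B.ip (σ.1.1 x) y - B.ip x x = B.ip x (y - x) + β⁻¹ * B.ip x w * B.ip w y := by
      rw [hσx, B.add_left, B.smul_left, hadd]
      ring
    rw [h1, hne, zero_add]
    exact mul_ne_zero (mul_ne_zero (inv_ne_zero hβ.1) hxw) hwy
  obtain ⟨g, hg, h1, h3⟩ := witt_step B U (σ.1.1 x) y (hxx.trans hxx'.symm) hxu' hne'
  refine ⟨g * σ, Subgroup.mul_mem _ (Subgroup.subset_closure hg)
    (Subgroup.subset_closure ⟨w, β, hβ, hw0, rfl⟩), fun u hu => ?_, h3⟩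
  change g.1.1 (σ.1.1 u) = u
  rw [hσU u hu, h1 u hu]

private theorem witt_inv_apply (g : UU B) (v : V) : (g⁻¹).1.1 (g.1.1 v) = v :=
  congrArg (fun f : Module.End E V => f v) g.1.inv_mul

private theorem witt_apply_inv (g : UU B) (v : V) : g.1.1 ((g⁻¹).1.1 v) = v :=
  congrArg (fun f : Module.End E V => f v) g.1.mul_inv

private theorem witt_ind (h2 : (2 : E) ≠ 0) (n : ℕ) : ∀ (U : Submodule E V),
    Module.finrank E U = n → ∀ (φ : U →ₗ[E] V), Function.Injective φ →
    (∀ u w : U, B.ip (φ u) (φ w) = B.ip (u : V) (w : V)) →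
    ∃ g : UU B, g ∈ Subgroup.closure (qrSet B) ∧ ∀ u : U, g.1.1 (u : V) = φ u := by
  induction n with
  | zero =>
    intro U hU φ _ _
    refine ⟨1, Subgroup.one_mem _, fun u => ?_⟩
    have h1 : U = ⊥ := Submodule.finrank_eq_zero.1 hU
    have h3 : u = 0 := by
      apply Subtype.ext
      have h4 := h1.le u.2
      rw [Submodule.mem_bot] at h4
      exact h4
    rw [h3, map_zero]
    rfl
  | succ n ih =>
    intro U hU φ hinj hiso
    have hnt : Nontrivial U := Module.nontrivial_of_finrank_pos (R := E) (by omega)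
    obtain ⟨x, hx0⟩ := exists_ne (0 : U)
    obtain ⟨W, hW⟩ := Submodule.exists_isCompl (Submodule.span E {x})
    have hWn : Module.finrank E W = n := by
      have h1 := Submodule.finrank_add_eq_of_isCompl hW
      rw [finrank_span_singleton hx0] at h1
      omega
    have hxW : x ∉ W := by
      intro h
      have h1 : x ∈ Submodule.span E {x} ⊓ W := ⟨Submodule.mem_span_singleton_self x, h⟩
      rw [hW.inf_eq_bot, Submodule.mem_bot] at h1
      exact hx0 h1
    set U' : Submodule E V := W.map U.subtype with hU'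
    have hU'n : Module.finrank E U' = n := by
      rw [hU', ← hWn]
      exact LinearEquiv.finrank_eq
        (Submodule.equivMapOfInjective U.subtype U.subtype_injective W).symm
    have hU'U : U' ≤ U := by
      rintro _ ⟨w, _, rfl⟩
      exact w.2
    set φ' : U' →ₗ[E] V := φ ∘ₗ Submodule.inclusion hU'U with hφ'
    obtain ⟨g₁, hg₁, h1⟩ := ih U' hU'n φ'
      (hinj.comp (Submodule.inclusion_injective hU'U)) (fun u w => hiso _ _)
    have hmemU' : ∀ u : U, (u : V) ∈ U' ↔ u ∈ W := by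
      intro u
      constructor
      · rintro ⟨w, hw, hwu⟩
        have h3 : w = u := Subtype.ext hwu
        rw [← h3]
        exact hw
      · intro h
        exact ⟨u, h, rfl⟩
    have h1' : ∀ u : U, u ∈ W → g₁.1.1 (u : V) = φ u := by
      intro u hu
      exact h1 ⟨u, (hmemU' u).2 hu⟩
    set y : V := (g₁⁻¹).1.1 (φ x) with hy
    have hgy : g₁.1.1 y = φ x := witt_apply_inv B g₁ (φ x)
    have hyU' : y ∉ U' := by
      rintro ⟨w, hw, hwy⟩
      have h3 : φ w = φ x := by
        rw [← h1' w hw, ← hgy, ← hwy]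
        rfl
      exact hxW (hinj h3 ▸ hw)
    have hxU' : (x : V) ∉ U' := fun h => hxW ((hmemU' x).1 h)
    have hyy : B.ip y y = B.ip (x : V) (x : V) := by
      rw [← g₁.2 y y, hgy, hiso]
    have hyu : ∀ u ∈ U', B.ip y u = B.ip (x : V) u := by
      rintro _ ⟨w, hw, rfl⟩
      change B.ip y (w : V) = B.ip (x : V) (w : V)
      rw [← g₁.2 y (w : V), hgy, h1' w hw, hiso]
    obtain ⟨g₂, hg₂, h3, h4⟩ := witt_one B h2 U' (x : V) y hxU' hyU' hyy hyu
    refine ⟨g₁ * g₂, Subgroup.mul_mem _ hg₁ hg₂, fun u => ?_⟩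
    have h5 : u ∈ Submodule.span E {x} ⊔ W := by
      rw [hW.sup_eq_top]
      exact Submodule.mem_top
    obtain ⟨a, ha, w, hw, rfl⟩ := Submodule.mem_sup.1 h5
    obtain ⟨c, rfl⟩ := Submodule.mem_span_singleton.1 ha
    change g₁.1.1 (g₂.1.1 (c • (x : V) + (w : V))) = φ (c • x + w)
    rw [map_add, map_smul, h4, h3 (w : V) ((hmemU' w).2 hw), map_add, map_smul, hgy, h1' w hw,
      map_add, map_smul]

theorem witt_gen (h2 : (2 : E) ≠ 0) (U : Submodule E V) (φ : U →ₗ[E] V) (hinj : Function.Injective φ)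
    (hiso : ∀ u w : U, B.ip (φ u) (φ w) = B.ip (u : V) (w : V)) :
    ∃ g : UU B, g ∈ Subgroup.closure (qrSet B) ∧ ∀ u : U, g.1.1 (u : V) = φ u :=
  witt_ind B h2 _ U rfl φ hinj hiso

theorem qr_closure (h2 : (2 : E) ≠ 0) : Subgroup.closure (qrSet B) = ⊤ := by
  rw [eq_top_iff]
  intro g _
  obtain ⟨g', hg', h1⟩ := witt_gen B h2 ⊤ (g.1.1 ∘ₗ (⊤ : Submodule E V).subtype)
    (by
      intro a b hab
      apply Subtype.ext
      have h3 : g.1.1 (a : V) = g.1.1 (b : V) := hab
      have h4 := congrArg (g⁻¹).1.1 h3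
      rwa [witt_inv_apply, witt_inv_apply] at h4)
    (fun u w => g.2 _ _)
  have h3 : g' = g := by
    apply Subtype.ext
    apply Units.ext
    ext v
    exact h1 ⟨v, Submodule.mem_top⟩
  rw [← h3]
  exact hg'

theorem witt (h2 : (2 : E) ≠ 0) (U : Submodule E V) (φ : U →ₗ[E] V) (hinj : Function.Injective φ)
    (hiso : ∀ u w : U, B.ip (φ u) (φ w) = B.ip (u : V) (w : V)) :
    ∃ g : UU B, ∀ u : U, g.1.1 (u : V) = φ u := by
  obtain ⟨g, _, hg⟩ := witt_gen B h2 U φ hinj hiso
  exact ⟨g, hg⟩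

/-- transitivity on vectors of given length -/
theorem witt_vec (h2 : (2 : E) ≠ 0) (x y : V) (hx : x ≠ 0) (hy : y ≠ 0)
    (h : B.ip x x = B.ip y y) : ∃ g : UU B, g.1.1 x = y := by
  obtain ⟨g, _, _, hg⟩ := witt_one B h2 ⊥ x y (by rwa [Submodule.mem_bot])
    (by rwa [Submodule.mem_bot]) h.symm (fun u hu => by
      rw [Submodule.mem_bot] at hu
      have h1 := B.smul_right 0 y 0
      have h3 := B.smul_right 0 x 0
      rw [zero_smul, star_zero, zero_mul] at h1 h3
      rw [hu, h1, h3])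
  exact ⟨g, hg⟩

end

end Pool.Agent.Work.MP_dd0ddf_al.OC
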