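import Pool.Agent.Work.MP_dd0ddf_al.OC.WrRep
import Pool.Agent.Work.MP_dd0ddf_al.OC.ExtU
import Pool.Agent.Work.MP_dd0ddf_al.OC.SFCurry

/-!
# MP_dd0ddf_al, module WrSub: restriction of a Weil representation to a nondegenerate subspace

Let `U` be nondegenerate, `B1 = B.restrict U`.  `tens f1 f2 (v) = f1(pr v) f2(v - pr v)` for `f1 ∈ SF U`, `f2 ∈ SF (orth B U)`.
`weil_sub`: there is a Weil representation `W1` of `B1` with the same `A, μ` (and `p`) and `W.l (extU k) (tens f1 f2) = tens (W1.l k f1) f2`.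
Define `(W1.l k f1)(u) = W.l (extU k)(tens f1 f0)(u)` with `f0 = single N 1`, N a compact open neighbourhood of 0 in `U^⊥` (value at the point u ∈ U).  By `formula` (R_{extU k} = R_k ⊆ U, same Wall form, same
determinant): `W.l (extU k)(tens f1 f2)(u + w) = [A^r μ(d) ∫ ψ(..) (L_{x·b} f1)(u) dx] f2(w)`, since `L_x (tens f1 f2) = tens (L_x f1) f2` for `x ∈ U` (om(x, w) = 0).
Hence multiplicativity, smoothness, L_comm, R_comm, formula for W1.
`r_sub`: `W.r (extU k) (tens f1 f2) = tens (W1.r k f1) f2` (geo (extU k) (tens f1 f2) = tens (geo k f1) f2).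
`tens_span`: the functions `tens f1 f2` span `SF V`.
`tens_tau`: `tneg τ (tens f1 f2) = tens (tneg τ1 f1) (tneg τ2 f2)` if `τ` preserves `U` (hence `U^⊥`).
-/

set_option linter.unusedSectionVars false
set_option linter.style.haveILetI false

namespace Pool.Agent.Work.MP_dd0ddf_al.OC

noncomputable section

universe u

variable {F E : Type u} [NontriviallyNormedField F] [IsUltrametricDist F] [ProperSpace F]
  [NeZero (2 : F)] [NontriviallyNormedField E] [NormedAlgebra F E] [ProperSpace E] [StarRing E]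
  [QExt F E] [MeasurableSpace E] [BorelSpace E]
variable {V : Type u} [AddCommGroup V] [Module E V] [Module.Finite E V] [TopologicalSpace V]
  [IsTopologicalAddGroup V] [T2Space V] [ContinuousSMul E V]

/-- the decomposition `V = U ⊕ U^⊥` -/
def wrsubHom (B : SkewH E V) (U : Submodule E V) (hU : NDeg B U) : V ≃ₜ U × orth B U where
  toFun v := (⟨prO B U hU v, prO_mem B U hU v⟩, ⟨v - prO B U hU v, sub_prO_mem B U hU v⟩)
  invFun q := (q.1 : V) + q.2
  left_inv v := add_sub_cancel _ _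
  right_inv q := by
    have h1 : prO B U hU ((q.1 : V) + q.2) = q.1 := by
      rw [map_add, prO_of_mem B U hU q.1.2, prO_of_orth B U hU q.2.2, add_zero]
    refine Prod.ext (Subtype.ext h1) (Subtype.ext ?_)
    show (q.1 : V) + q.2 - prO B U hU ((q.1 : V) + q.2) = q.2
    rw [h1, add_sub_cancel_left]
  continuous_toFun := by
    have h1 : Continuous (prO B U hU : V → V) := LinearMap.continuous_of_finiteDimensional _
    exact (h1.subtype_mk _).prodMk ((continuous_id.sub h1).subtype_mk _)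
  continuous_invFun := (continuous_subtype_val.comp continuous_fst).add
    (continuous_subtype_val.comp continuous_snd)

private theorem wrsub_mem (B : SkewH E V) (U : Submodule E V) (hU : NDeg B U) (f1 : SF U ℂ)
    (f2 : SF (orth B U) ℂ) : (fun v => f1 ⟨prO B U hU v, prO_mem B U hU v⟩ *
      f2 ⟨v - prO B U hU v, sub_prO_mem B U hU v⟩) ∈ SF V ℂ := by
  have h1 : IsLocallyConstant (fun q : U × orth B U => f1 q.1 * f2 q.2) :=
    (f1.2.1.comp_continuous continuous_fst).comp₂ (f2.2.1.comp_continuous continuous_snd) (· * ·)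
  have h2 : HasCompactSupport (fun q : U × orth B U => f1 q.1 * f2 q.2) := by
    refine HasCompactSupport.of_support_subset_isCompact (f1.2.2.isCompact.prod
      f2.2.2.isCompact) ?_
    intro q hq
    have hq' : f1 q.1 * f2 q.2 ≠ 0 := hq
    exact ⟨subset_tsupport _ (left_ne_zero_of_mul hq'), subset_tsupport _
      (right_ne_zero_of_mul hq')⟩
  exact ⟨h1.comp_continuous (wrsubHom B U hU).continuous,
    h2.comp_homeomorph (wrsubHom B U hU)⟩

/-- `f1 ⊗ f2` -/
def tens (B : SkewH E V) (U : Submodule E V) (hU : NDeg B U) (f1 : SF U ℂ)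
    (f2 : SF (orth B U) ℂ) : SF V ℂ :=
  ⟨fun v => f1 ⟨prO B U hU v, prO_mem B U hU v⟩ * f2 ⟨v - prO B U hU v, sub_prO_mem B U hU v⟩,
    wrsub_mem B U hU f1 f2⟩

variable (F) in
include F in
theorem tens_span (B : SkewH E V) (U : Submodule E V) (hU : NDeg B U) :
    Submodule.span ℂ {f : SF V ℂ | ∃ f1 f2, f = tens B U hU f1 f2} = ⊤ := by
  haveI := lc_V E U
  haveI := td_V F E U
  haveI := lc_V E (orth B U)
  haveI := td_V F E (orth B U)
  set N := Submodule.span ℂ {f : SF V ℂ | ∃ f1 f2, f = tens B U hU f1 f2} with hN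
  have h1 : Submodule.span ℂ {f : SF (U × orth B U) ℂ | ∃ (K : Set U) (K' : Set (orth B U))
      (b : ℂ), IsCompact K ∧ IsOpen K ∧ IsCompact K' ∧ IsOpen K' ∧
      (∀ x y, x ∈ K → y ∈ K' → f (x, y) = b) ∧ ∀ x y, (x ∉ K ∨ y ∉ K') → f (x, y) = 0} ≤
      N.comap (SF.comp (wrsubHom B U hU)) := by
    rw [Submodule.span_le]
    rintro f ⟨K, K', b, hK, hKo, hK', hKo', h1, h2⟩
    show SF.comp (wrsubHom B U hU) f ∈ N
    refine Submodule.subset_span ⟨SF.single K hK hKo b, SF.single K' hK' hKo' 1, ?_⟩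
    apply SF.ext
    intro v
    show f (⟨prO B U hU v, prO_mem B U hU v⟩, ⟨v - prO B U hU v, sub_prO_mem B U hU v⟩) =
      SF.single K hK hKo b ⟨prO B U hU v, prO_mem B U hU v⟩ *
        SF.single K' hK' hKo' (1 : ℂ) ⟨v - prO B U hU v, sub_prO_mem B U hU v⟩
    by_cases hx : (⟨prO B U hU v, prO_mem B U hU v⟩ : U) ∈ K
    · by_cases hy : (⟨v - prO B U hU v, sub_prO_mem B U hU v⟩ : orth B U) ∈ K'
      · rw [h1 _ _ hx hy, SF.single_apply_mem _ _ _ _ _ hx, SF.single_apply_mem _ _ _ _ _ hy,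
          mul_one]
      · rw [h2 _ _ (Or.inr hy), SF.single_apply_not_mem _ _ _ _ _ hy, mul_zero]
    · rw [h2 _ _ (Or.inl hx), SF.single_apply_not_mem _ _ _ _ _ hx, zero_mul]
  rw [SF.boxes_span] at h1
  rw [eq_top_iff]
  intro f _
  have h2 := h1 (show SF.comp (wrsubHom B U hU).symm f ∈ ⊤ from trivial)
  have h3 : SF.comp (wrsubHom B U hU) (SF.comp (wrsubHom B U hU).symm f) = f := by
    apply SF.ext
    intro v
    show f ((wrsubHom B U hU).symm (wrsubHom B U hU v)) = f v
    rw [Homeomorph.symm_apply_apply]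
  have h4 : SF.comp (wrsubHom B U hU) (SF.comp (wrsubHom B U hU).symm f) ∈ N := h2
  rwa [h3] at h4

theorem wrsub_tens (B : SkewH E V) (U : Submodule E V) (hU : NDeg B U) (f1 : SF U ℂ)
    (f2 : SF (orth B U) ℂ) (v : V) : tens B U hU f1 f2 v =
      f1 ⟨prO B U hU v, prO_mem B U hU v⟩ *
        f2 ⟨v - prO B U hU v, sub_prO_mem B U hU v⟩ := rfl

/-- the tensor product as a linear map in the first variable -/
def wrsubL (B : SkewH E V) (U : Submodule E V) (hU : NDeg B U) (f2 : SF (orth B U) ℂ) :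
    SF U ℂ →ₗ[ℂ] SF V ℂ where
  toFun f1 := tens B U hU f1 f2
  map_add' a b := by
    apply SF.ext
    intro v
    exact add_mul _ _ _
  map_smul' c a := by
    apply SF.ext
    intro v
    exact mul_assoc _ _ _

/-- the tensor product as a linear map in the second variable -/
def wrsubR (B : SkewH E V) (U : Submodule E V) (hU : NDeg B U) (f1 : SF U ℂ) :
    SF (orth B U) ℂ →ₗ[ℂ] SF V ℂ where
  toFun f2 := tens B U hU f1 f2
  map_add' a b := by
    apply SF.ext
    intro v
    exact mul_add _ _ _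
  map_smul' c a := by
    apply SF.ext
    intro v
    exact mul_left_comm _ _ _

private theorem wrsub_om {B : SkewH E V} {U : Submodule E V} {u w : V} (hu : u ∈ U)
    (hw : w ∈ orth B U) : om F B u w = 0 := by
  unfold om
  rw [B.skew w u, hw u hu, star_zero, neg_zero, map_zero]

private theorem wrsub_om' {B : SkewH E V} {U : Submodule E V} {u w : V} (hu : u ∈ U)
    (hw : w ∈ orth B U) : om F B w u = 0 := by
  unfold om
  rw [hw u hu, map_zero]

private theorem wrsub_sub (B : SkewH E V) (U : Submodule E V) (hU : NDeg B U) (u : U) (v : V) :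
    prO B U hU (v - u) = prO B U hU v - u := by
  rw [map_sub, prO_of_mem B U hU u.2]

theorem wrsub_lop (B : SkewH E V) (p : PChar F) (U : Submodule E V) (hU : NDeg B U) (u : U)
    (f1 : SF U ℂ) (f2 : SF (orth B U) ℂ) : Lop B p (u : V) (tens B U hU f1 f2) =
      tens B U hU (Lop (B.restrict U hU) p u f1) f2 := by
  apply SF.ext
  intro v
  show p.ψ (2⁻¹ * om F B u v) * (f1 ⟨prO B U hU (v - u), _⟩ * f2 ⟨v - u - prO B U hU (v - u), _⟩) =
    p.ψ (2⁻¹ * om F B u (prO B U hU v)) * f1 (⟨prO B U hU v, _⟩ - u) *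
      f2 ⟨v - prO B U hU v, _⟩
  have h1 : om F B (u : V) v = om F B (u : V) (prO B U hU v) := by
    have h2 := om_add_right (F := F) B (u : V) (prO B U hU v) (v - prO B U hU v)
    rw [add_sub_cancel, wrsub_om u.2 (sub_prO_mem B U hU v), add_zero] at h2
    exact h2
  have h3 : (⟨prO B U hU (v - u), prO_mem B U hU (v - u)⟩ : U) =
      ⟨prO B U hU v, prO_mem B U hU v⟩ - u := Subtype.ext (wrsub_sub B U hU u v)
  have h4 : (⟨v - u - prO B U hU (v - u), sub_prO_mem B U hU (v - u)⟩ : orth B U) =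
      ⟨v - prO B U hU v, sub_prO_mem B U hU v⟩ := Subtype.ext (by
    show v - u - prO B U hU (v - u) = v - prO B U hU v
    rw [wrsub_sub]
    abel)
  rw [h1, h3, h4, mul_assoc]

theorem wrsub_rop (B : SkewH E V) (p : PChar F) (U : Submodule E V) (hU : NDeg B U) (u : U)
    (f1 : SF U ℂ) (f2 : SF (orth B U) ℂ) : Rop B p (u : V) (tens B U hU f1 f2) =
      tens B U hU (Rop (B.restrict U hU) p u f1) f2 := by
  apply SF.ext
  intro v
  show p.ψ (2⁻¹ * om F B v u) * (f1 ⟨prO B U hU (v - u), _⟩ * f2 ⟨v - u - prO B U hU (v - u), _⟩) =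
    p.ψ (2⁻¹ * om F B (prO B U hU v) u) * f1 (⟨prO B U hU v, _⟩ - u) *
      f2 ⟨v - prO B U hU v, _⟩
  have h1 : om F B v (u : V) = om F B (prO B U hU v) (u : V) := by
    have h2 := om_add_left (F := F) B (prO B U hU v) (v - prO B U hU v) (u : V)
    rw [add_sub_cancel, wrsub_om' u.2 (sub_prO_mem B U hU v), add_zero] at h2
    exact h2
  have h3 : (⟨prO B U hU (v - u), prO_mem B U hU (v - u)⟩ : U) =
      ⟨prO B U hU v, prO_mem B U hU v⟩ - u := Subtype.ext (wrsub_sub B U hU u v)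
  have h4 : (⟨v - u - prO B U hU (v - u), sub_prO_mem B U hU (v - u)⟩ : orth B U) =
      ⟨v - prO B U hU v, sub_prO_mem B U hU v⟩ := Subtype.ext (by
    show v - u - prO B U hU (v - u) = v - prO B U hU v
    rw [wrsub_sub]
    abel)
  rw [h1, h3, h4, mul_assoc]

private theorem wrsub_ext (B : SkewH E V) (U : Submodule E V) (hU : NDeg B U)
    (k : UU (B.restrict U hU)) (v : V) : (extU B U hU k).1.1 v =
      (k.1.1 ⟨prO B U hU v, prO_mem B U hU v⟩ : V) + (v - prO B U hU v) := by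
  have h1 := extU_mem B U hU k ⟨prO B U hU v, prO_mem B U hU v⟩
  have h2 := extU_orth B U hU k (sub_prO_mem B U hU v)
  rw [← h1, ← h2, ← map_add, add_sub_cancel]

theorem wrsub_geo (B : SkewH E V) (U : Submodule E V) (hU : NDeg B U)
    (k : UU (B.restrict U hU)) (f1 : SF U ℂ) (f2 : SF (orth B U) ℂ) :
    geo (extU B U hU k).1 (tens B U hU f1 f2) = tens B U hU (geo k.1 f1) f2 := by
  apply SF.ext
  intro v
  have h0 : (extU B U hU k).1⁻¹.1 v =
      (k.1⁻¹.1 ⟨prO B U hU v, prO_mem B U hU v⟩ : V) + (v - prO B U hU v) := by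
    have h1 := wrsub_ext B U hU k⁻¹ v
    rw [map_inv] at h1
    exact h1
  have h1 : prO B U hU ((extU B U hU k).1⁻¹.1 v) =
      (k.1⁻¹.1 ⟨prO B U hU v, prO_mem B U hU v⟩ : V) := by
    rw [h0, map_add, prO_of_mem B U hU (Subtype.mem _),
      prO_of_orth B U hU (sub_prO_mem B U hU v), add_zero]
  show f1 ⟨prO B U hU ((extU B U hU k).1⁻¹.1 v), _⟩ *
    f2 ⟨(extU B U hU k).1⁻¹.1 v - prO B U hU ((extU B U hU k).1⁻¹.1 v), _⟩ =
    f1 (k.1⁻¹.1 ⟨prO B U hU v, _⟩) * f2 ⟨v - prO B U hU v, _⟩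
  have h3 : (⟨prO B U hU ((extU B U hU k).1⁻¹.1 v), prO_mem B U hU _⟩ : U) =
      k.1⁻¹.1 ⟨prO B U hU v, prO_mem B U hU v⟩ := Subtype.ext h1
  have h4 : (⟨(extU B U hU k).1⁻¹.1 v - prO B U hU ((extU B U hU k).1⁻¹.1 v),
      sub_prO_mem B U hU _⟩ : orth B U) = ⟨v - prO B U hU v, sub_prO_mem B U hU v⟩ :=
    Subtype.ext (by
      show (extU B U hU k).1⁻¹.1 v - prO B U hU ((extU B U hU k).1⁻¹.1 v) = v - prO B U hU v
      rw [h1, h0, add_sub_cancel_left])
  rw [h3, h4]

private theorem wrsub_inj (B : SkewH E V) (U : Submodule E V) (hU : NDeg B U)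
    {f2 : SF (orth B U) ℂ} (h2 : f2 0 = 1) {a b : SF U ℂ}
    (h : tens B U hU a f2 = tens B U hU b f2) : a = b := by
  apply SF.ext
  intro u
  have h1 := congrArg (fun f : SF V ℂ => f (u : V)) h
  have h3 : ∀ a : SF U ℂ, tens B U hU a f2 (u : V) = a u := by
    intro a
    rw [wrsub_tens]
    have h4 : (⟨prO B U hU (u : V), prO_mem B U hU (u : V)⟩ : U) = u :=
      Subtype.ext (prO_of_mem B U hU u.2)
    have h5 : (⟨(u : V) - prO B U hU (u : V), sub_prO_mem B U hU (u : V)⟩ : orth B U) = 0 :=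
      Subtype.ext (by
        show (u : V) - prO B U hU (u : V) = 0
        rw [prO_of_mem B U hU u.2, sub_self])
    rw [h4, h5, h2, mul_one]
  have h6 : tens B U hU a f2 (u : V) = tens B U hU b f2 (u : V) := h1
  rwa [h3, h3] at h6

variable (F) in
include F in
private theorem wrsub_f0 (B : SkewH E V) (U : Submodule E V) :
    ∃ f2 : SF (orth B U) ℂ, f2 0 = 1 := by
  haveI := lc_V E (orth B U)
  haveI := td_V F E (orth B U)
  obtain ⟨N, hNo, hNc, -⟩ := exists_co_addSubgroup (Set.univ : Set (orth B U)) isOpen_univ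
    (Set.mem_univ _)
  exact ⟨SF.single (N : Set (orth B U)) hNc hNo 1, SF.single_apply_mem _ _ _ _ _ N.zero_mem⟩

/-- the basis of `R_{ext k}` -/
private theorem wrsub_basis (B : SkewH E V) (U : Submodule E V) (hU : NDeg B U)
    (k : UU (B.restrict U hU)) {r : ℕ} (b : Fin r → U) (hb : IsRBasis k.1 b) :
    IsRBasis (extU B U hU k).1 (fun i => (b i : V)) := by
  refine ⟨hb.1.map' U.subtype (Submodule.ker_subtype U), ?_⟩
  have h1 : Set.range (fun i => (b i : V)) = U.subtype '' Set.range b := by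
    rw [← Set.range_comp]
    rfl
  rw [h1, Submodule.span_image, hb.2]
  ext y
  constructor
  · rintro ⟨_, ⟨a, rfl⟩, rfl⟩
    refine ⟨(a : V), ?_⟩
    show (extU B U hU k).1.1 (a : V) - (a : V) = ((k.1.1 a - a : U) : V)
    rw [extU_mem]
    rfl
  · rintro ⟨a, rfl⟩
    refine ⟨k.1.1 ⟨prO B U hU a, prO_mem B U hU a⟩ - ⟨prO B U hU a, prO_mem B U hU a⟩,
      ⟨_, rfl⟩, ?_⟩
    show (k.1.1 ⟨prO B U hU a, prO_mem B U hU a⟩ : V) - prO B U hU a =
      (extU B U hU k).1.1 a - a
    rw [wrsub_ext]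
    abel

private theorem wrsub_wall (B : SkewH E V) (U : Submodule E V) (hU : NDeg B U)
    (k : UU (B.restrict U hU)) {r : ℕ} (b : Fin r → U) (hb : IsRBasis k.1 b) (i j : Fin r) :
    wall B (extU B U hU k).1 (b i : V) (b j : V) = wall (B.restrict U hU) k.1 (b i) (b j) := by
  have hmem : ∀ i, b i ∈ LinearMap.range (k.1.1 - 1) := fun i => by
    rw [← hb.2]
    exact Submodule.subset_span ⟨i, rfl⟩
  have hmem' : ∀ i, (b i : V) ∈ LinearMap.range ((extU B U hU k).1.1 - 1) := fun i => by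
    rw [← (wrsub_basis B U hU k b hb).2]
    exact Submodule.subset_span ⟨i, rfl⟩
  obtain ⟨a, ha⟩ := hmem i
  have ha' : k.1.1 a - a = b i := ha
  have h1 : (extU B U hU k).1.1 (a : V) - (a : V) = (b i : V) := by
    rw [extU_mem, ← ha']
    rfl
  rw [wall_eq (extU B U hU k) h1 (hmem' j), wall_eq k ha' (hmem j)]
  rfl

/-- the key computation -/
private theorem wrsub_key {B : SkewH E V} {p : PChar F} (W : WeilRep B p) (U : Submodule E V)
    (hU : NDeg B U) (k : UU (B.restrict U hU)) {r : ℕ} (b : Fin r → U) (hb : IsRBasis k.1 b) :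
    ∃ d : Eˣ, (d : E) = (wallM (B.restrict U hU) k.1 b).det ∧
      ∀ (f1 : SF U ℂ) (f2 : SF (orth B U) ℂ), W.l (extU B U hU k) (tens B U hU f1 f2) =
        tens B U hU ((W.A ^ r * ((W.μ d : ℂˣ) : ℂ)) • Mop (B.restrict U hU) p k b hb f1) f2 := by
  obtain ⟨d, hd, hf⟩ := W.formula (extU B U hU k) r _ (wrsub_basis B U hU k b hb)
  have hw : wallM B (extU B U hU k).1 (fun i => (b i : V)) =
      wallM (B.restrict U hU) k.1 b := by
    ext i j
    exact wrsub_wall B U hU k b hb i j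
  refine ⟨d, by rw [hd, hw], fun f1 f2 => ?_⟩
  apply SF.ext
  intro v
  rw [hf, wrsub_tens]
  show _ = (W.A ^ r * ((W.μ d : ℂˣ) : ℂ)) * Mop (B.restrict U hU) p k b hb f1
    ⟨prO B U hU v, prO_mem B U hU v⟩ * f2 ⟨v - prO B U hU v, sub_prO_mem B U hU v⟩
  rw [Mop_apply, mul_assoc, mul_assoc, mul_assoc, ← MeasureTheory.integral_mul_const]
  congr 2
  refine MeasureTheory.integral_congr_ae (Filter.Eventually.of_forall fun x => ?_)
  have h1 : ∑ i, x i • (b i : V) = ((∑ i, x i • b i : U) : V) := by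
    rw [Submodule.coe_sum]
    rfl
  have h2 : ∀ i j, wall B (extU B U hU k).1 (b i : V) (b j : V) =
      wall (B.restrict U hU) k.1 (b i) (b j) := wrsub_wall B U hU k b hb
  show p.ψ (2⁻¹ * Algebra.trace F E (∑ i, ∑ j, x i * star (x j) *
      wall B (extU B U hU k).1 (b i : V) (b j : V))) *
      Lop B p (∑ i, x i • (b i : V)) (tens B U hU f1 f2) v =
    p.ψ (2⁻¹ * Algebra.trace F E (∑ i, ∑ j, x i * star (x j) *
      wall (B.restrict U hU) k.1 (b i) (b j))) *
      Lop (B.restrict U hU) p (∑ i, x i • b i) f1 ⟨prO B U hU v, prO_mem B U hU v⟩ *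
      f2 ⟨v - prO B U hU v, sub_prO_mem B U hU v⟩
  rw [h1, wrsub_lop, wrsub_tens]
  simp only [h2]
  rw [mul_assoc]

private theorem wrsub_exists_l {B : SkewH E V} {p : PChar F} (W : WeilRep B p)
    (U : Submodule E V) (hU : NDeg B U) (k : UU (B.restrict U hU)) :
    ∃ l1 : SF U ℂ →ₗ[ℂ] SF U ℂ, ∀ (f1 : SF U ℂ) (f2 : SF (orth B U) ℂ),
      W.l (extU B U hU k) (tens B U hU f1 f2) = tens B U hU (l1 f1) f2 := by
  obtain ⟨r, b, hb⟩ := rbasis_exists k
  obtain ⟨d, -, hl⟩ := wrsub_key W U hU k b hb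
  exact ⟨(W.A ^ r * ((W.μ d : ℂˣ) : ℂ)) • Mop (B.restrict U hU) p k b hb, hl⟩

/-- the operators of the restriction -/
private def wrsub_l {B : SkewH E V} {p : PChar F} (W : WeilRep B p)
    (U : Submodule E V) (hU : NDeg B U) (k : UU (B.restrict U hU)) : Module.End ℂ (SF U ℂ) :=
  (wrsub_exists_l W U hU k).choose

private theorem wrsub_l_spec {B : SkewH E V} {p : PChar F} (W : WeilRep B p)
    (U : Submodule E V) (hU : NDeg B U) (k : UU (B.restrict U hU)) (f1 : SF U ℂ)
    (f2 : SF (orth B U) ℂ) :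
    W.l (extU B U hU k) (tens B U hU f1 f2) = tens B U hU (wrsub_l W U hU k f1) f2 :=
  (wrsub_exists_l W U hU k).choose_spec f1 f2

private theorem wrsub_l_one {B : SkewH E V} {p : PChar F} (W : WeilRep B p)
    (U : Submodule E V) (hU : NDeg B U) : wrsub_l W U hU 1 = 1 := by
  obtain ⟨f0, hf0⟩ := wrsub_f0 F B U
  apply LinearMap.ext
  intro f
  apply wrsub_inj B U hU hf0
  rw [← wrsub_l_spec, map_one, map_one]
  rfl

private theorem wrsub_l_mul {B : SkewH E V} {p : PChar F} (W : WeilRep B p)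
    (U : Submodule E V) (hU : NDeg B U) (g k : UU (B.restrict U hU)) :
    wrsub_l W U hU (g * k) = wrsub_l W U hU g * wrsub_l W U hU k := by
  obtain ⟨f0, hf0⟩ := wrsub_f0 F B U
  apply LinearMap.ext
  intro f
  apply wrsub_inj B U hU hf0
  show _ = tens B U hU (wrsub_l W U hU g (wrsub_l W U hU k f)) f0
  rw [← wrsub_l_spec, ← wrsub_l_spec, ← wrsub_l_spec, map_mul, map_mul]
  rfl

/-- the extension on endomorphisms -/
private def wrsub_E (B : SkewH E V) (U : Submodule E V) (hU : NDeg B U)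
    (f : Module.End E U) : Module.End E V :=
  U.subtype ∘ₗ f ∘ₗ ((prO B U hU).codRestrict U (prO_mem B U hU)) + (1 - prO B U hU)

private theorem wrsub_E_cont (B : SkewH E V) (U : Submodule E V) (hU : NDeg B U) :
    Continuous (wrsub_E B U hU) := by
  refine continuous_induced_rng.mpr (continuous_pi fun v => ?_)
  show Continuous (fun f : Module.End E U =>
    ((f ⟨prO B U hU v, prO_mem B U hU v⟩ : U) : V) + (v - prO B U hU v))
  exact (continuous_subtype_val.comp ((continuous_apply _).comp continuous_induced_dom)).add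
    continuous_const

private theorem wrsub_E_ext (B : SkewH E V) (U : Submodule E V) (hU : NDeg B U)
    (k : UU (B.restrict U hU)) : wrsub_E B U hU k.1.1 = (extU B U hU k).1.1 := by
  ext v
  rw [wrsub_ext]
  rfl

private theorem wrsub_smooth {B : SkewH E V} {p : PChar F} (W : WeilRep B p)
    (U : Submodule E V) (hU : NDeg B U) (f : SF U ℂ) :
    ∃ S : Set (Module.End E U), IsOpen S ∧ (1 : Module.End E U) ∈ S ∧
      ∀ h : UU (B.restrict U hU), h.1.1 ∈ S → wrsub_l W U hU h f = f := by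
  obtain ⟨f0, hf0⟩ := wrsub_f0 F B U
  obtain ⟨S, hS, hS1, hSf⟩ := W.smooth (tens B U hU f f0)
  refine ⟨wrsub_E B U hU ⁻¹' S, hS.preimage (wrsub_E_cont B U hU), ?_, fun h hh => ?_⟩
  · show wrsub_E B U hU 1 ∈ S
    have h1 : wrsub_E B U hU 1 = 1 := by
      have h2 := wrsub_E_ext B U hU 1
      rw [map_one] at h2
      exact h2
    rw [h1]
    exact hS1
  · apply wrsub_inj B U hU hf0
    rw [← wrsub_l_spec]
    apply hSf
    rw [← wrsub_E_ext]
    exact hh

theorem weil_subA {B : SkewH E V} {p : PChar F} (W : WeilRep B p) (U : Submodule E V)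
    (hU : NDeg B U) : ∃ W1 : WeilRep (B.restrict U hU) p, W1.A = W.A ∧ W1.μ = W.μ ∧
      (∀ (k : UU (B.restrict U hU)) (f1 : SF U ℂ) (f2 : SF (orth B U) ℂ),
        W.l (extU B U hU k) (tens B U hU f1 f2) = tens B U hU (W1.l k f1) f2) ∧
      ∀ (k : UU (B.restrict U hU)) (f1 : SF U ℂ) (f2 : SF (orth B U) ℂ),
        W.r (extU B U hU k) (tens B U hU f1 f2) = tens B U hU (W1.r k f1) f2 := by
  obtain ⟨f0, hf0⟩ := wrsub_f0 F B U
  refine ⟨{ l :=
              { toFun := wrsub_l W U hU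
                map_one' := wrsub_l_one W U hU
                map_mul' := wrsub_l_mul W U hU }
            A := W.A
            A0 := W.A0
            A4 := W.A4
            μ := W.μ
            μ_norm := W.μ_norm
            μ_non := W.μ_non
            μ_lc := W.μ_lc
            smooth := wrsub_smooth W U hU
            L_comm := ?_
            R_comm := ?_
            formula := ?_ }, rfl, rfl, ?_, ?_⟩
  · intro h x
    apply LinearMap.ext
    intro f
    apply wrsub_inj B U hU hf0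
    show tens B U hU (wrsub_l W U hU h (Lop (B.restrict U hU) p x f)) f0 =
      tens B U hU (Lop (B.restrict U hU) p (h.1.1 x) (wrsub_l W U hU h f)) f0
    have h1 : W.l (extU B U hU h) (Lop B p (x : V) (tens B U hU f f0)) =
        Lop B p ((extU B U hU h).1.1 (x : V)) (W.l (extU B U hU h) (tens B U hU f f0)) :=
      congrArg (fun T : SF V ℂ →ₗ[ℂ] SF V ℂ => T (tens B U hU f f0)) (W.L_comm _ _)
    rw [← wrsub_l_spec, ← wrsub_lop, h1, extU_mem, wrsub_l_spec, wrsub_lop]
  · intro h x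
    apply LinearMap.ext
    intro f
    apply wrsub_inj B U hU hf0
    show tens B U hU (wrsub_l W U hU h (Rop (B.restrict U hU) p x f)) f0 =
      tens B U hU (Rop (B.restrict U hU) p x (wrsub_l W U hU h f)) f0
    have h1 : W.l (extU B U hU h) (Rop B p (x : V) (tens B U hU f f0)) =
        Rop B p (x : V) (W.l (extU B U hU h) (tens B U hU f f0)) :=
      congrArg (fun T : SF V ℂ →ₗ[ℂ] SF V ℂ => T (tens B U hU f f0)) (W.R_comm _ _)
    rw [← wrsub_l_spec, ← wrsub_rop, h1, wrsub_l_spec, wrsub_rop]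
  · intro h r b hb
    obtain ⟨d, hd, hl⟩ := wrsub_key W U hU h b hb
    refine ⟨d, hd, fun f v => ?_⟩
    show wrsub_l W U hU h f v = _
    have h1 : wrsub_l W U hU h f =
        (W.A ^ r * ((W.μ d : ℂˣ) : ℂ)) • Mop (B.restrict U hU) p h b hb f := by
      apply wrsub_inj B U hU hf0
      rw [← wrsub_l_spec, hl]
    rw [h1]
    show (W.A ^ r * ((W.μ d : ℂˣ) : ℂ)) * Mop (B.restrict U hU) p h b hb f v = _
    rw [Mop_apply]
  · exact fun k f1 f2 => wrsub_l_spec W U hU k f1 f2
  · intro k f1 f2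
    show W.l (extU B U hU k)⁻¹ (geo (extU B U hU k).1 (tens B U hU f1 f2)) =
      tens B U hU (wrsub_l W U hU k⁻¹ (geo k.1 f1)) f2
    rw [wrsub_geo, ← wrsub_l_spec, map_inv (extU B U hU)]

theorem weil_sub {B : SkewH E V} {p : PChar F} (W : WeilRep B p) (U : Submodule E V)
    (hU : NDeg B U) : ∃ W1 : WeilRep (B.restrict U hU) p,
      (∀ (k : UU (B.restrict U hU)) (f1 : SF U ℂ) (f2 : SF (orth B U) ℂ),
        W.l (extU B U hU k) (tens B U hU f1 f2) = tens B U hU (W1.l k f1) f2) ∧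
      ∀ (k : UU (B.restrict U hU)) (f1 : SF U ℂ) (f2 : SF (orth B U) ℂ),
        W.r (extU B U hU k) (tens B U hU f1 f2) = tens B U hU (W1.r k f1) f2 := by
  obtain ⟨W1, _, _, h1, h2⟩ := weil_subA W U hU
  exact ⟨W1, h1, h2⟩

/-- the identification of `U^⊥⊥` with `U` -/
private def wrsub_oo (B : SkewH E V) (U : Submodule E V) : orth B (orth B U) ≃ₜ U where
  toFun u := ⟨u.1, (orth_orth B U).le u.2⟩
  invFun u := ⟨u.1, (orth_orth B U).ge u.2⟩
  left_inv _ := rfl
  right_inv _ := rfl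
  continuous_toFun := continuous_subtype_val.subtype_mk _
  continuous_invFun := continuous_subtype_val.subtype_mk _

private theorem wrsub_pr' (B : SkewH E V) (U : Submodule E V) (hU : NDeg B U) (v : V) :
    prO B (orth B U) (ndeg_orth B U hU) v = v - prO B U hU v := by
  have h1 : prO B U hU v ∈ orth B (orth B U) := (orth_orth B U).ge (prO_mem B U hU v)
  have h2 : prO B (orth B U) (ndeg_orth B U hU) (prO B U hU v + (v - prO B U hU v)) =
      v - prO B U hU v := by
    rw [map_add, prO_of_orth B (orth B U) (ndeg_orth B U hU) h1,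
      prO_of_mem B (orth B U) (ndeg_orth B U hU) (sub_prO_mem B U hU v), zero_add]
  rwa [add_sub_cancel] at h2

theorem wrsub_swap (B : SkewH E V) (U : Submodule E V) (hU : NDeg B U) (f1 : SF U ℂ)
    (f2 : SF (orth B U) ℂ) : tens B U hU f1 f2 =
      tens B (orth B U) (ndeg_orth B U hU) f2 (SF.comp (wrsub_oo B U) f1) := by
  apply SF.ext
  intro v
  rw [wrsub_tens, wrsub_tens, mul_comm]
  have h1 : (⟨prO B (orth B U) (ndeg_orth B U hU) v,
      prO_mem B (orth B U) (ndeg_orth B U hU) v⟩ : orth B U) =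
      ⟨v - prO B U hU v, sub_prO_mem B U hU v⟩ := Subtype.ext (wrsub_pr' B U hU v)
  have h2 : wrsub_oo B U ⟨v - prO B (orth B U) (ndeg_orth B U hU) v,
      sub_prO_mem B (orth B U) (ndeg_orth B U hU) v⟩ = ⟨prO B U hU v, prO_mem B U hU v⟩ :=
    Subtype.ext (by
      show v - prO B (orth B U) (ndeg_orth B U hU) v = prO B U hU v
      rw [wrsub_pr', sub_sub_cancel])
  rw [h1, SF.comp_apply, h2]

/-- the same for the complement -/
theorem weil_sub' {B : SkewH E V} {p : PChar F} (W : WeilRep B p) (U : Submodule E V)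
    (hU : NDeg B U) : ∃ W2 : WeilRep (B.restrict (orth B U) (ndeg_orth B U hU)) p,
      (∀ (k : UU (B.restrict (orth B U) (ndeg_orth B U hU))) (f1 : SF U ℂ)
        (f2 : SF (orth B U) ℂ),
        W.l (extU B (orth B U) (ndeg_orth B U hU) k) (tens B U hU f1 f2) =
          tens B U hU f1 (W2.l k f2)) ∧
      ∀ (k : UU (B.restrict (orth B U) (ndeg_orth B U hU))) (f1 : SF U ℂ)
        (f2 : SF (orth B U) ℂ),
        W.r (extU B (orth B U) (ndeg_orth B U hU) k) (tens B U hU f1 f2) =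
          tens B U hU f1 (W2.r k f2) := by
  obtain ⟨W2, h1, h2⟩ := weil_sub W (orth B U) (ndeg_orth B U hU)
  refine ⟨W2, fun k f1 f2 => ?_, fun k f1 f2 => ?_⟩
  · rw [wrsub_swap, h1, ← wrsub_swap]
  · rw [wrsub_swap, h2, ← wrsub_swap]

end

end Pool.Agent.Work.MP_dd0ddf_al.OC
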