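import Mathlib

/-!
# MP_dd0ddf_al, module FdPoly: polynomial lemmas (Mathlib only)

`sqrt_mod`: Hensel, induction on `m` (m = 0, 1 trivial with u = 1): if `q^m ∣ u² - w`, `q ∣ u - 1`, put `u' = u + q^m t`: `u'² - w = (u² - w) + 2 u q^m t + q^{2m} t²`; choose `t` with `q ∣ (u² - w)/q^m + 2 u t` (2u is invertible mod q).
`exists_pi`: Newton: `q` is separable (irreducible, char 0), so coprime to its derivative; `π' = π - a(π) q(π)` with `a q' ≡ 1 mod q`: from `q^m ∣ q∘π` get `q^{2m}`... (or `q^{m+1}`) `∣ q∘π'`.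
-/

set_option linter.unusedSectionVars false
set_option linter.style.haveILetI false

namespace Pool.Agent.Work.MP_dd0ddf_al.OC

noncomputable section

open Polynomial

private theorem fdpoly_coprime {F : Type*} [Field F] (h2 : (2 : F) ≠ 0) (q u : F[X])
    (hq : Irreducible q) (hu : q ∣ u - 1) : IsCoprime (2 * u) q := by
  have h3 : IsCoprime u q := by
    obtain ⟨c, hc⟩ := hu
    exact ⟨1, -c, by linear_combination hc⟩
  have h4 : IsCoprime (2 : F[X]) q := by
    refine ⟨C (2 : F)⁻¹, 0, ?_⟩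
    have : (2 : F[X]) = C (2 : F) := (map_ofNat (C : F →+* F[X]) 2).symm
    rw [this, ← C_mul, inv_mul_cancel₀ h2, C_1]
    ring
  exact h4.mul_left h3

theorem sqrt_mod {F : Type*} [Field F] (h2 : (2 : F) ≠ 0) (q w : F[X]) (hq : Irreducible q)
    (hw : q ∣ w - 1) (m : ℕ) : ∃ u : F[X], q ^ m ∣ u ^ 2 - w ∧ q ∣ u - 1 := by
  induction m with
  | zero => exact ⟨1, by rw [pow_zero]; exact one_dvd _, by rw [sub_self]; exact dvd_zero _⟩
  | succ m ih =>
    rcases Nat.eq_zero_or_pos m with hm | hm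
    · subst hm
      refine ⟨1, ?_, by rw [sub_self]; exact dvd_zero _⟩
      rw [zero_add, pow_one, one_pow, ← neg_sub]
      exact (dvd_neg).2 hw
    · obtain ⟨u, ⟨a, ha⟩, hu⟩ := ih
      obtain ⟨x, y, hxy⟩ := fdpoly_coprime h2 q u hq hu
      refine ⟨u + q ^ m * (-(a * x)), ?_, ?_⟩
      · obtain ⟨n, rfl⟩ : ∃ n, m = n + 1 := ⟨m - 1, by omega⟩
        refine ⟨a * y + q ^ n * (a * x) ^ 2, ?_⟩
        have e1 : (u + q ^ (n + 1) * (-(a * x))) ^ 2 - w =
            (u ^ 2 - w) - q ^ (n + 1) * a * (x * (2 * u)) +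
              q ^ (n + 1) * q ^ (n + 1) * (a * x) ^ 2 := by ring
        have e2 : x * (2 * u) = 1 - y * q := by linear_combination hxy
        rw [e1, ha, e2]
        ring
      · have e : u + q ^ m * (-(a * x)) - 1 = (u - 1) + q ^ m * (-(a * x)) := by ring
        rw [e]
        exact dvd_add hu (Dvd.dvd.mul_right (dvd_pow_self q hm.ne') _)

/-- Newton iteration for a root modulo `q ^ m` of a separable polynomial `q1` -/
theorem exists_pi_gen {F : Type*} [Field F] (q1 q g : F[X]) (hsep : IsCoprime q1 (derivative q1))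
    (hq : q ∣ q1.comp g) (m : ℕ) : ∃ r : F[X], q ∣ r - g ∧ q ^ m ∣ q1.comp r := by
  induction m with
  | zero => exact ⟨g, by rw [sub_self]; exact dvd_zero _, by rw [pow_zero]; exact one_dvd _⟩
  | succ m ih =>
    rcases Nat.eq_zero_or_pos m with hm | hm
    · subst hm
      exact ⟨g, by rw [sub_self]; exact dvd_zero _, by rw [zero_add, pow_one]; exact hq⟩
    · obtain ⟨r, hr, a, ha⟩ := ih
      obtain ⟨y, x, hxy⟩ := hsep
      have hxy' : y.comp r * q1.comp r + x.comp r * (derivative q1).comp r = 1 := by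
        rw [← mul_comp, ← mul_comp, ← add_comp, hxy, one_comp]
      set h : F[X] := q ^ m * (-(a * x.comp r)) with hh
      have hcomp : ∀ (p s : F[X]), p.comp s = (p.map C).eval s := fun p s => by
        rw [comp, eval₂_eq_eval_map]
      obtain ⟨k, hk⟩ := Polynomial.binomExpansion (q1.map C) r h
      refine ⟨r + h, ?_, ?_⟩
      · have e : r + h - g = (r - g) + h := by ring
        rw [e]
        exact dvd_add hr (Dvd.dvd.mul_right (dvd_pow_self q hm.ne') _)
      · have e1 : q1.comp (r + h) = q1.comp r + (derivative q1).comp r * h + k * h ^ 2 := by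
          rw [hcomp, hk, ← hcomp, derivative_map, ← hcomp]
        obtain ⟨n, rfl⟩ : ∃ n, m = n + 1 := ⟨m - 1, by omega⟩
        have e3 : x.comp r * (derivative q1).comp r = 1 - y.comp r * (q ^ (n + 1) * a) := by
          rw [← ha]
          linear_combination hxy'
        refine ⟨q ^ n * (a ^ 2 * y.comp r) + q ^ n * (k * (a * x.comp r) ^ 2), ?_⟩
        rw [e1, ha, hh]
        have e4 : (derivative q1).comp r * (q ^ (n + 1) * -(a * x.comp r)) =
            -(q ^ (n + 1) * a) * (x.comp r * (derivative q1).comp r) := by ring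
        rw [e4, e3]
        ring

theorem exists_pi {F : Type*} [Field F] (q : F[X]) (hq : q.Separable) (m : ℕ) :
    ∃ r : F[X], q ∣ r - X ∧ q ^ m ∣ q.comp r :=
  exists_pi_gen q q X hq (by rw [comp_X]) m

end

end Pool.Agent.Work.MP_dd0ddf_al.OC
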