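import Pool.Agent.Work.MP_dd0ddf_al.OC.NiDefs

/-!
# MP_dd0ddf_al, module NiF: number of square classes of a local field

`[L^× : L^{×2}] = 4 m`, `m = mTwo L = [B_1 : 2B_1]` (finite and nonzero because `L` is locally compact: B_1 compact, 2B_1 open).
Choose `a ∈ L` with `0 < ‖a‖ < 1` and let `A = L^×/⟨a²⟩`.  `A` has finite-index subgroup `U` = image of `uball r`, `r < ‖2‖` (L^×/(⟨a²⟩ U) is finite: the
set `{x : ‖a²‖ ≤ ‖x‖ ≤ 1}` is compact and covered by the open cosets of `uball r`).  `A[2] = {±1, ±a}` has 4 elements (x² = a^{2k}; -1 ≠ 1, and `±a ∉ ⟨a²⟩{±1}` by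
norms).  `U ∩ ⟨a²⟩ = 1` (norm 1), `U` has no 2-torsion (`-1 ∉ uball r` since `‖-1-1‖ = ‖2‖ > r`).  `U²` = image of `uball (‖2‖r)` (NiSq) and
`[uball r : uball (‖2‖ r)] = [B_r : B_{‖2‖r}]`: the map `x ↦ x - 1` identifies cosets (`‖x/y - 1‖ ≤ ρ ⟺ ‖x - y‖ ≤ ρ` for `‖y‖ = 1`); and
`[B_r : B_{‖2‖ r}] = [B_1 : B_{‖2‖}]` when r is a value of the norm: multiplication by an element of norm r (choose `r = ‖ρ‖`).
Conclude with `index_squares`, and `[L^× : L^{×2}] = [A : A²]` because `a² ∈ L^{×2}`.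
-/

set_option linter.unusedSectionVars false
set_option linter.style.haveILetI false

namespace Pool.Agent.Work.MP_dd0ddf_al.OC

noncomputable section

private theorem nif_norm_one {L : Type*} [NontriviallyNormedField L] [IsUltrametricDist L]
    {r : ℝ} (hr1 : r < 1) {x : L} (hx : ‖x - 1‖ ≤ r) : ‖x‖ = 1 := by
  have h1 : ‖x‖ ≤ 1 := by
    have := IsUltrametricDist.norm_add_le_max (x - 1) (1 : L)
    rw [sub_add_cancel, norm_one] at this
    exact this.trans (max_le (hx.trans hr1.le) le_rfl)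
  have h2 : (1 : ℝ) ≤ max ‖x‖ ‖x - 1‖ := by
    have := IsUltrametricDist.norm_add_le_max x (-(x - 1))
    rw [norm_neg] at this
    have e : x + -(x - 1) = 1 := by ring
    rw [e, norm_one] at this
    exact this
  rcases le_max_iff.1 h2 with h3 | h3
  · exact le_antisymm h1 h3
  · linarith

theorem ball_index (L : Type*) [NontriviallyNormedField L] [IsUltrametricDist L] (c ρ : L)
    (hρ : ρ ≠ 0) : (aball L (‖c‖ * ‖ρ‖) (by positivity)).relIndex (aball L ‖ρ‖ (norm_nonneg _)) =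
      (aball L ‖c‖ (norm_nonneg _)).relIndex (aball L 1 zero_le_one) := by
  have hρ' : 0 < ‖ρ‖ := norm_pos_iff.2 hρ
  have key : ∀ (t : ℝ) (ht : 0 ≤ t) (ht' : 0 ≤ t * ‖ρ‖),
      (aball L t ht).map (AddMonoidHom.mulLeft ρ) = aball L (t * ‖ρ‖) ht' := by
    intro t ht ht'
    ext x
    constructor
    · rintro ⟨y, hy, rfl⟩
      have hy' : ‖y‖ ≤ t := hy
      show ‖ρ * y‖ ≤ t * ‖ρ‖
      rw [norm_mul, mul_comm]
      gcongr
    · intro hx
      have hx' : ‖x‖ ≤ t * ‖ρ‖ := hx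
      refine ⟨ρ⁻¹ * x, ?_, ?_⟩
      · show ‖ρ⁻¹ * x‖ ≤ t
        rw [norm_mul, norm_inv, inv_mul_le_iff₀ hρ', mul_comm]
        exact hx'
      · show ρ * (ρ⁻¹ * x) = x
        rw [← mul_assoc, mul_inv_cancel₀ hρ, one_mul]
  have e1 := key ‖c‖ (norm_nonneg _) (by positivity)
  have e2 := key 1 zero_le_one (by positivity)
  have e3 : aball L (1 * ‖ρ‖) (by positivity) = aball L ‖ρ‖ (norm_nonneg _) := by
    ext x
    show ‖x‖ ≤ 1 * ‖ρ‖ ↔ ‖x‖ ≤ ‖ρ‖
    rw [one_mul]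
  rw [← e1, ← e3, ← e2]
  exact AddSubgroup.relIndex_map_map_of_injective _ _ (fun a b h => mul_left_cancel₀ hρ h)

theorem mTwo_ne_zero (L : Type*) [NontriviallyNormedField L] [IsUltrametricDist L] [NeZero (2 : L)]
    [ProperSpace L] : mTwo L ≠ 0 := by
  unfold mTwo
  have h2 : 0 < ‖(2 : L)‖ := norm_pos_iff.2 two_ne_zero
  have hcomp : IsCompact ((aball L 1 zero_le_one : AddSubgroup L) : Set L) := by
    have : ((aball L 1 zero_le_one : AddSubgroup L) : Set L) = Metric.closedBall 0 1 := by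
      ext x
      rw [mem_closedBall_zero_iff]
      rfl
    rw [this]
    exact isCompact_closedBall 0 1
  haveI : CompactSpace (aball L 1 zero_le_one) := isCompact_iff_compactSpace.1 hcomp
  have hopen : IsOpen (((aball L ‖(2 : L)‖ (norm_nonneg _)).addSubgroupOf
      (aball L 1 zero_le_one) : AddSubgroup (aball L 1 zero_le_one)) : Set (aball L 1 zero_le_one)) := by
    have e : (((aball L ‖(2 : L)‖ (norm_nonneg _)).addSubgroupOf
      (aball L 1 zero_le_one) : AddSubgroup (aball L 1 zero_le_one)) : Set (aball L 1 zero_le_one)) =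
      Subtype.val ⁻¹' (Metric.closedBall (0 : L) ‖(2 : L)‖) := by
      ext x
      rw [Set.mem_preimage, mem_closedBall_zero_iff]
      rfl
    rw [e]
    exact (IsUltrametricDist.isOpen_closedBall _ h2.ne').preimage continuous_subtype_val
  haveI := AddSubgroup.quotient_finite_of_isOpen _ hopen
  unfold AddSubgroup.relIndex
  exact AddSubgroup.index_ne_zero_of_finite

theorem uball_index (L : Type*) [NontriviallyNormedField L] [IsUltrametricDist L] (s r : ℝ)
    (hs : 0 < s) (hsr : s ≤ r) (hr1 : r < 1) :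
    (uball L s hs (lt_of_le_of_lt hsr hr1)).relIndex (uball L r (hs.trans_le hsr) hr1) =
      (aball L s hs.le).relIndex (aball L r (hs.trans_le hsr).le) := by
  have hr0 : 0 < r := hs.trans_le hsr
  let e : (uball L r hr0 hr1) ≃ (aball L r hr0.le) :=
    { toFun := fun x => ⟨((x : Lˣ) : L) - 1, x.2⟩
      invFun := fun y => ⟨Units.mk0 ((y : L) + 1) (by
        intro h0
        have hy : ‖(y : L)‖ ≤ r := y.2
        have : (y : L) = -1 := by linear_combination h0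
        rw [this, norm_neg, norm_one] at hy
        linarith), by
          show ‖((Units.mk0 ((y : L) + 1) _ : Lˣ) : L) - 1‖ ≤ r
          rw [Units.val_mk0, add_sub_cancel_right]
          exact y.2⟩
      left_inv := fun x => by
        apply Subtype.ext
        apply Units.ext
        simp
      right_inv := fun y => by
        apply Subtype.ext
        simp }
  unfold Subgroup.relIndex AddSubgroup.relIndex Subgroup.index AddSubgroup.index
  apply Nat.card_congr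
  refine Quotient.congr e ?_
  intro a b
  have ha : ‖((a : Lˣ) : L)‖ = 1 := nif_norm_one hr1 a.2
  rw [QuotientGroup.leftRel_apply, QuotientAddGroup.leftRel_apply]
  have h3 : (a⁻¹ * b ∈ (uball L s hs (lt_of_le_of_lt hsr hr1)).subgroupOf
      (uball L r hr0 hr1)) ↔ ‖(((a : Lˣ)⁻¹ * (b : Lˣ) : Lˣ) : L) - 1‖ ≤ s := Iff.rfl
  have h4 : (-(e a) + e b ∈ (aball L s hs.le).addSubgroupOf
      (aball L r hr0.le)) ↔ ‖-(((a : Lˣ) : L) - 1) + (((b : Lˣ) : L) - 1)‖ ≤ s := Iff.rfl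
  rw [h3, h4]
  have e5 : (((a : Lˣ)⁻¹ * (b : Lˣ) : Lˣ) : L) - 1 =
      ((a : Lˣ) : L)⁻¹ * (-(((a : Lˣ) : L) - 1) + (((b : Lˣ) : L) - 1)) := by
    rw [Units.val_mul, Units.val_inv_eq_inv_val]
    have h0 : ((a : Lˣ) : L) ≠ 0 := (a : Lˣ).ne_zero
    field_simp
    ring
  rw [e5, norm_mul, norm_inv, ha, inv_one, one_mul]

private theorem nif_finite (L : Type*) [NontriviallyNormedField L] [IsUltrametricDist L]
    [ProperSpace L] (r : ℝ) (hr : 0 < r) (hr1 : r < 1) (a : Lˣ) (ha : ‖(a : L)‖ < 1) :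
    (uball L r hr hr1 ⊔ Subgroup.zpowers (a ^ 2)).index ≠ 0 := by
  set H := uball L r hr hr1 ⊔ Subgroup.zpowers (a ^ 2) with hH
  have ha0 : 0 < ‖(a : L)‖ := norm_pos_iff.2 a.ne_zero
  have hCc : IsCompact {x : L | ‖(a : L)‖ ^ 2 ≤ ‖x‖ ∧ ‖x‖ ≤ 1} := by
    have h1 : IsClosed {x : L | ‖(a : L)‖ ^ 2 ≤ ‖x‖} := isClosed_le continuous_const continuous_norm
    have h2 := (isCompact_closedBall (0 : L) 1).inter_right h1
    convert h2 using 1
    ext x
    simp only [Set.mem_ofPred_eq, Set.mem_inter_iff, mem_closedBall_zero_iff]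
    tauto
  obtain ⟨t, ht⟩ := hCc.elim_nhds_subcover' (fun x _ => Metric.ball x (r * ‖(a : L)‖ ^ 2))
    (fun x _ => Metric.ball_mem_nhds x (by positivity))
  -- representatives
  let f : {x // x ∈ t} → Lˣ ⧸ H := fun x => ((Units.mk0 (x.1.1 : L) (by
    have h1 : ‖(a : L)‖ ^ 2 ≤ ‖(x.1.1 : L)‖ := x.1.2.1
    have h2 : 0 < ‖(x.1.1 : L)‖ := lt_of_lt_of_le (by positivity) h1
    exact norm_pos_iff.1 h2) : Lˣ) : Lˣ ⧸ H)
  have hf : Function.Surjective f := by
    intro q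
    obtain ⟨x, rfl⟩ := QuotientGroup.mk_surjective q
    have hx0 : 0 < ‖(x : L)‖ := norm_pos_iff.2 x.ne_zero
    have hy1 : 1 < (‖(a : L)‖ ^ 2)⁻¹ := by
      rw [one_lt_inv₀ (by positivity)]
      exact pow_lt_one₀ ha0.le ha (by norm_num)
    obtain ⟨n, hn1, hn2⟩ := exists_mem_Ioc_zpow hx0 hy1
    set y : Lˣ := x * (a ^ 2) ^ (n + 1) with hy
    have hyn : ‖(y : L)‖ = ‖(x : L)‖ * (‖(a : L)‖ ^ 2) ^ (n + 1) := by
      rw [hy, Units.val_mul, norm_mul, Units.val_zpow_eq_zpow_val, norm_zpow, Units.val_pow_eq_pow_val,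
        norm_pow]
    have hpos : 0 < (‖(a : L)‖ ^ 2) ^ (n + 1) := by positivity
    have hyle : ‖(y : L)‖ ≤ 1 := by
      rw [hyn]
      calc ‖(x : L)‖ * (‖(a : L)‖ ^ 2) ^ (n + 1)
          ≤ ((‖(a : L)‖ ^ 2)⁻¹) ^ (n + 1) * (‖(a : L)‖ ^ 2) ^ (n + 1) := by gcongr
        _ = 1 := by
            rw [← mul_zpow, inv_mul_cancel₀ (by positivity), one_zpow]
    have hyge : ‖(a : L)‖ ^ 2 ≤ ‖(y : L)‖ := by
      rw [hyn]
      have e1 : ((‖(a : L)‖ ^ 2)⁻¹) ^ n * (‖(a : L)‖ ^ 2) ^ (n + 1) = ‖(a : L)‖ ^ 2 := by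
        rw [zpow_add₀ (by positivity), zpow_one, ← mul_assoc, ← mul_zpow,
          inv_mul_cancel₀ (by positivity), one_zpow, one_mul]
      calc ‖(a : L)‖ ^ 2 = ((‖(a : L)‖ ^ 2)⁻¹) ^ n * (‖(a : L)‖ ^ 2) ^ (n + 1) := e1.symm
        _ ≤ ‖(x : L)‖ * (‖(a : L)‖ ^ 2) ^ (n + 1) := by gcongr
    have hyC := ht (show (y : L) ∈ _ from ⟨hyge, hyle⟩)
    rw [Set.mem_iUnion₂] at hyC
    obtain ⟨z, hz, hyz⟩ := hyC
    refine ⟨⟨z, hz⟩, ?_⟩
    rw [Metric.mem_ball, dist_eq_norm] at hyz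
    have hzn : ‖(a : L)‖ ^ 2 ≤ ‖(z.1 : L)‖ := z.2.1
    have hzpos : 0 < ‖(z.1 : L)‖ := lt_of_lt_of_le (by positivity) hzn
    have hz0 : (z.1 : L) ≠ 0 := norm_pos_iff.1 hzpos
    show ((Units.mk0 (z.1 : L) hz0 : Lˣ) : Lˣ ⧸ H) = (x : Lˣ ⧸ H)
    rw [QuotientGroup.eq]
    have e2 : (Units.mk0 (z.1 : L) hz0)⁻¹ * x =
        ((Units.mk0 (z.1 : L) hz0)⁻¹ * y) * ((a ^ 2) ^ (n + 1))⁻¹ := by
      rw [hy, ← mul_assoc, mul_inv_cancel_right]
    rw [e2]
    apply H.mul_mem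
    · apply (le_sup_left : uball L r hr hr1 ≤ H)
      show ‖(((Units.mk0 (z.1 : L) hz0)⁻¹ * y : Lˣ) : L) - 1‖ ≤ r
      rw [Units.val_mul, Units.val_inv_eq_inv_val, Units.val_mk0]
      have e3 : (z.1 : L)⁻¹ * (y : L) - 1 = (z.1 : L)⁻¹ * ((y : L) - z.1) := by
        field_simp
      rw [e3, norm_mul, norm_inv, inv_mul_le_iff₀ hzpos]
      calc ‖(y : L) - z.1‖ ≤ r * ‖(a : L)‖ ^ 2 := hyz.le
        _ ≤ r * ‖(z.1 : L)‖ := by gcongr
        _ = ‖(z.1 : L)‖ * r := mul_comm _ _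
    · apply H.inv_mem
      apply (le_sup_right : Subgroup.zpowers (a ^ 2) ≤ H)
      exact Subgroup.zpow_mem _ (Subgroup.mem_zpowers _) _
  haveI : Finite (Lˣ ⧸ H) := Finite.of_surjective f hf
  exact Subgroup.index_ne_zero_of_finite

private theorem nif_sq_uball (L : Type*) [NontriviallyNormedField L] [IsUltrametricDist L]
    [NeZero (2 : L)] [CompleteSpace L] (r : ℝ) (hr : 0 < r) (hr1 : r < 1) (hr2 : r < ‖(2 : L)‖)
    (h2 : 0 < ‖(2 : L)‖ * r) (h21 : ‖(2 : L)‖ * r < 1) :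
    sqSub (uball L r hr hr1) = uball L (‖(2 : L)‖ * r) h2 h21 := by
  ext y
  constructor
  · rintro ⟨x, hx, rfl⟩
    have hx' : ‖(x : L) - 1‖ ≤ r := hx
    show ‖((powMonoidHom 2 x : Lˣ) : L) - 1‖ ≤ ‖(2 : L)‖ * r
    rw [powMonoidHom_apply, Units.val_pow_eq_pow_val]
    exact sq_near hr hr2 hx'
  · intro hy
    have hy' : ‖(y : L) - 1‖ ≤ ‖(2 : L)‖ * r := hy
    obtain ⟨x, ⟨hx1, hx2⟩, -⟩ := sqrt_near hr hr2 hy'
    have hx0 : x ≠ 0 := by
      intro h0
      rw [h0] at hx2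
      apply y.ne_zero
      rw [← hx2]
      ring
    refine ⟨Units.mk0 x hx0, hx1, ?_⟩
    rw [powMonoidHom_apply]
    apply Units.ext
    rw [Units.val_pow_eq_pow_val, Units.val_mk0]
    exact hx2

private theorem nif_zpow_norm {L : Type*} [NontriviallyNormedField L] (a : Lˣ)
    (ha : ‖(a : L)‖ < 1) {k : ℤ} (h : ‖(a : L)‖ ^ k = 1) : k = 0 := by
  have ha0 : 0 < ‖(a : L)‖ := norm_pos_iff.2 a.ne_zero
  by_contra hk
  rcases lt_or_gt_of_ne hk with h1 | h1
  · have := one_lt_zpow_of_neg₀ ha0 ha h1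
    rw [h] at this
    exact lt_irrefl _ this
  · have := zpow_lt_one₀ ha0 ha h1
    rw [h] at this
    exact lt_irrefl _ this

private theorem nif_card_tors (L : Type*) [NontriviallyNormedField L] [NeZero (2 : L)] (a : Lˣ)
    (ha : ‖(a : L)‖ < 1) : Nat.card (twoTors (Lˣ ⧸ Subgroup.zpowers (a ^ 2))) = 4 := by
  set N := Subgroup.zpowers (a ^ 2) with hN
  have hmem : ∀ x : Lˣ, ((x : Lˣ ⧸ N) ∈ twoTors (Lˣ ⧸ N)) ↔ x ^ 2 ∈ N := by
    intro x
    have h1 : ((x : Lˣ ⧸ N) ∈ twoTors (Lˣ ⧸ N)) ↔ (x : Lˣ ⧸ N) ^ 2 = 1 := Iff.rfl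
    rw [h1, ← QuotientGroup.mk_pow, QuotientGroup.eq_one_iff]
  let g : Bool × Bool → Lˣ := fun b => (if b.1 then -1 else 1) * (if b.2 then a else 1)
  have hg2 : ∀ b, (g b) ^ 2 ∈ N := by
    intro b
    rcases b with ⟨b1, b2⟩
    have e1 : (if b1 then (-1 : Lˣ) else 1) ^ 2 = 1 := by cases b1 <;> simp
    have e2 : (g (b1, b2)) ^ 2 = (if b2 then a else 1) ^ 2 := by
      show ((if b1 then (-1 : Lˣ) else 1) * (if b2 then a else 1)) ^ 2 = _
      rw [mul_pow, e1, one_mul]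
    rw [e2]
    cases b2
    · simp
    · exact Subgroup.mem_zpowers _
  let f : Bool × Bool → twoTors (Lˣ ⧸ N) := fun b => ⟨(g b : Lˣ ⧸ N), (hmem _).2 (hg2 b)⟩
  have hnorm : ∀ b : Bool × Bool, ‖((g b : Lˣ) : L)‖ = ‖(a : L)‖ ^ ((if b.2 then 1 else 0 : ℤ)) := by
    rintro ⟨b1, b2⟩
    cases b1 <;> cases b2 <;> simp [g]
  have hbij : Function.Bijective f := by
    constructor
    · intro b b' hbb
      have h1 : (g b : Lˣ ⧸ N) = (g b' : Lˣ ⧸ N) := congrArg Subtype.val hbb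
      rw [QuotientGroup.eq, hN, Subgroup.mem_zpowers_iff] at h1
      obtain ⟨k, hk⟩ := h1
      have h2 : g b * (a ^ 2) ^ k = g b' := by rw [hk, mul_inv_cancel_left]
      have h3 := congrArg (fun u : Lˣ => ‖(u : L)‖) h2
      simp only [Units.val_mul, norm_mul, hnorm, Units.val_zpow_eq_zpow_val, norm_zpow,
        Units.val_pow_eq_pow_val, norm_pow] at h3
      have ha0 : ‖(a : L)‖ ≠ 0 := (norm_pos_iff.2 a.ne_zero).ne'
      have h4 : ‖(a : L)‖ ^ ((if b.2 then 1 else 0 : ℤ) + 2 * k - (if b'.2 then 1 else 0 : ℤ)) = 1 := by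
        rw [zpow_sub₀ ha0, zpow_add₀ ha0, zpow_mul]
        have : (‖(a : L)‖ ^ (2 : ℤ)) ^ k = (‖(a : L)‖ ^ (2 : ℕ)) ^ k := by norm_cast
        rw [this, h3, div_self (zpow_ne_zero _ ha0)]
      have h5 := nif_zpow_norm a ha h4
      have hb2 : b.2 = b'.2 := by
        cases h6 : b.2 <;> cases h7 : b'.2 <;> rw [h6, h7] at h5 <;> simp at h5 ⊢ <;> omega
      have hk0 : k = 0 := by
        rw [hb2] at h5
        omega
      rw [hk0, zpow_zero, mul_one] at h2
      rcases b with ⟨b1, b2⟩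
      rcases b' with ⟨b1', b2'⟩
      have hb2' : b2 = b2' := hb2
      subst hb2'
      have h8 : (if b1 then (-1 : Lˣ) else 1) = (if b1' then (-1 : Lˣ) else 1) := by
        have h9 : (if b1 then (-1 : Lˣ) else 1) * (if b2 then a else 1) =
            (if b1' then (-1 : Lˣ) else 1) * (if b2 then a else 1) := h2
        exact mul_right_cancel h9
      have hne : (-1 : Lˣ) ≠ 1 := by
        intro h9
        have h10 := congrArg (fun u : Lˣ => (u : L)) h9
        simp only [Units.val_neg, Units.val_one] at h10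
        have : (2 : L) = 0 := by linear_combination -h10
        exact two_ne_zero this
      have hb1 : b1 = b1' := by
        cases b1 <;> cases b1'
        · rfl
        · exact absurd h8.symm (by simpa using hne)
        · exact absurd h8 (by simpa using hne)
        · rfl
      rw [hb1]
    · rintro ⟨q, hq⟩
      obtain ⟨x, rfl⟩ := QuotientGroup.mk_surjective q
      have hx : x ^ 2 ∈ N := (hmem x).1 hq
      rw [hN, Subgroup.mem_zpowers_iff] at hx
      obtain ⟨k, hk⟩ := hx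
      -- x = ± a ^ k
      have h1 : ((x : L) - ((a ^ k : Lˣ) : L)) * ((x : L) + ((a ^ k : Lˣ) : L)) = 0 := by
        have h2 : (a ^ k) ^ 2 = x ^ 2 := by
          rw [← hk, ← zpow_natCast, ← zpow_mul, ← zpow_natCast, ← zpow_mul, mul_comm]
        have h3 := congrArg (fun u : Lˣ => (u : L)) h2
        simp only [Units.val_pow_eq_pow_val] at h3
        linear_combination -h3
      obtain ⟨b1, hb1⟩ : ∃ b1 : Bool, x = (if b1 then (-1 : Lˣ) else 1) * a ^ k := by
        rcases mul_eq_zero.1 h1 with h2 | h2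
        · refine ⟨false, ?_⟩
          apply Units.ext
          simp only [Bool.false_eq_true, if_false, one_mul]
          exact sub_eq_zero.1 h2
        · refine ⟨true, ?_⟩
          apply Units.ext
          simp only [if_true, Units.val_mul, Units.val_neg, Units.val_one]
          linear_combination h2
      obtain ⟨m, hm | hm⟩ := Int.even_or_odd' k
      · refine ⟨(b1, false), ?_⟩
        apply Subtype.ext
        show ((g (b1, false) : Lˣ) : Lˣ ⧸ N) = (x : Lˣ ⧸ N)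
        rw [QuotientGroup.eq, hN, Subgroup.mem_zpowers_iff]
        refine ⟨m, ?_⟩
        rw [hb1, hm]
        simp only [g, Bool.false_eq_true, if_false, mul_one, inv_mul_cancel_left]
        rw [← zpow_natCast, ← zpow_mul]
        rfl
      · refine ⟨(b1, true), ?_⟩
        apply Subtype.ext
        show ((g (b1, true) : Lˣ) : Lˣ ⧸ N) = (x : Lˣ ⧸ N)
        rw [QuotientGroup.eq, hN, Subgroup.mem_zpowers_iff]
        refine ⟨m, ?_⟩
        rw [hb1, hm]
        simp only [g, if_true, mul_inv_rev]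
        rw [mul_assoc, inv_mul_cancel_left, zpow_add, zpow_one, ← mul_assoc,
          mul_comm a⁻¹, mul_assoc, inv_mul_cancel, mul_one, ← zpow_natCast, ← zpow_mul]
        rfl
  rw [← Nat.card_congr (Equiv.ofBijective f hbij)]
  simp

theorem index_sq_field (L : Type*) [NontriviallyNormedField L] [IsUltrametricDist L] [NeZero (2 : L)]
    [ProperSpace L] : (sqSub (⊤ : Subgroup Lˣ)).index = 4 * mTwo L := by
  have h2 : 0 < ‖(2 : L)‖ := norm_pos_iff.2 two_ne_zero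
  have h2le : ‖(2 : L)‖ ≤ 1 := by
    have := IsUltrametricDist.norm_add_le_max (1 : L) 1
    rw [one_add_one_eq_two, norm_one, max_self] at this
    exact this
  obtain ⟨ρ, hρ0, hρ⟩ := NormedField.exists_norm_lt L h2
  have hρ1 : ‖ρ‖ < 1 := hρ.trans_le h2le
  have hρne : ρ ≠ 0 := norm_pos_iff.1 hρ0
  set a : Lˣ := Units.mk0 ρ hρne with ha
  have ha1 : ‖(a : L)‖ < 1 := hρ1
  set U := uball L ‖ρ‖ hρ0 hρ1 with hU
  set N := Subgroup.zpowers (a ^ 2) with hN
  have hUN : U ⊓ N = ⊥ := by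
    rw [eq_bot_iff]
    rintro x ⟨hx1, hx2⟩
    have hx1' : ‖(x : L)‖ = 1 := nif_norm_one hρ1 hx1
    obtain ⟨k, hk⟩ := Subgroup.mem_zpowers_iff.1 hx2
    have h3 := congrArg (fun u : Lˣ => ‖(u : L)‖) hk
    simp only [Units.val_zpow_eq_zpow_val, norm_zpow, Units.val_pow_eq_pow_val, norm_pow] at h3
    rw [hx1'] at h3
    have h4 : ‖(a : L)‖ ^ (2 * k) = 1 := by
      rw [zpow_mul]
      have : (‖(a : L)‖ ^ (2 : ℤ)) ^ k = (‖(a : L)‖ ^ (2 : ℕ)) ^ k := by norm_cast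
      rw [this]
      exact h3
    have h5 := nif_zpow_norm a ha1 h4
    have h6 : k = 0 := by omega
    rw [← hk, h6, zpow_zero]
    exact Subgroup.mem_bot.2 rfl
  have hUtor : ∀ u ∈ U, u ^ 2 = 1 → u = 1 := by
    intro u hu hu2
    have hu' : ‖(u : L) - 1‖ ≤ ‖ρ‖ := hu
    obtain ⟨z, -, huniq⟩ := sqrt_near (L := L) (y := 1) hρ0 hρ (by
      rw [sub_self, norm_zero]; positivity)
    have h3 := huniq (u : L) ⟨hu', by
      rw [← Units.val_pow_eq_pow_val, hu2, Units.val_one]⟩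
    have h4 := huniq 1 ⟨by rw [sub_self, norm_zero]; exact hρ0.le, by ring⟩
    apply Units.ext
    rw [h3, Units.val_one]
    exact h4.symm
  have hprod : 0 < ‖(2 : L)‖ * ‖ρ‖ := by positivity
  have hprod1 : ‖(2 : L)‖ * ‖ρ‖ ≤ ‖ρ‖ := by
    nlinarith
  have hS : sqSub U = uball L (‖(2 : L)‖ * ‖ρ‖) hprod (hprod1.trans_lt hρ1) :=
    nif_sq_uball L ‖ρ‖ hρ0 hρ1 hρ hprod _
  have hSU : (sqSub U).relIndex U = mTwo L := by
    rw [hS, hU, uball_index L (‖(2 : L)‖ * ‖ρ‖) ‖ρ‖ hprod hprod1 hρ1]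
    exact ball_index L 2 ρ hρne
  have hSle : sqSub U ≤ U := by
    rintro x ⟨u, hu, rfl⟩
    exact U.pow_mem hu 2
  -- pass to the quotient
  let π := QuotientGroup.mk' N
  have hker : π.ker = N := QuotientGroup.ker_mk' N
  have hfin : (U.map π).FiniteIndex := by
    refine ⟨?_⟩
    rw [Subgroup.index_map, hker]
    have hr : π.range = ⊤ := MonoidHom.range_eq_top.2 (QuotientGroup.mk'_surjective N)
    rw [hr, Subgroup.index_top, mul_one]
    exact nif_finite L ‖ρ‖ hρ0 hρ1 a ha1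
  have hmapsq : sqSub (A := Lˣ ⧸ N) (U.map π) = Subgroup.map (N := Lˣ ⧸ N) π (sqSub U) := by
    unfold sqSub
    rw [Subgroup.map_map, Subgroup.map_map]
    congr 1
  have hrel : (sqSub (A := Lˣ ⧸ N) (U.map π)).relIndex (U.map π) = (sqSub U).relIndex U := by
    rw [hmapsq, Subgroup.relIndex_map_map, hker]
    have e1 : U ⊔ N = U ⊔ (sqSub U ⊔ N) := by
      rw [← sup_assoc, sup_eq_left.2 hSle]
    rw [e1, Subgroup.relIndex_sup_right, ← Subgroup.inf_relIndex_right]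
    congr 1
    have e2 : (sqSub U ⊔ N) ⊓ U = sqSub U := by
      apply le_antisymm
      · rintro x ⟨hx1, hx2⟩
        obtain ⟨s, hs, n, hn, rfl⟩ := Subgroup.mem_sup.1 hx1
        have hn' : n ∈ U := by
          have := U.mul_mem (U.inv_mem (hSle hs)) hx2
          rwa [inv_mul_cancel_left] at this
        have hn1 : n ∈ U ⊓ N := ⟨hn', hn⟩
        rw [hUN, Subgroup.mem_bot] at hn1
        rw [hn1, mul_one]
        exact hs
      · exact le_inf le_sup_left hSle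
    exact e2
  have hmain := index_squares (A := Lˣ ⧸ N) (U.map π) hfin (by
    rintro q ⟨u, hu, rfl⟩ hq
    have h3 : u ^ 2 ∈ N := by
      rw [← QuotientGroup.eq_one_iff, QuotientGroup.mk_pow]
      exact hq
    have h4 : u ^ 2 ∈ U ⊓ N := ⟨U.pow_mem hu 2, h3⟩
    rw [hUN, Subgroup.mem_bot] at h4
    rw [hUtor u hu h4, map_one]) (by
    rw [hrel, hSU]
    exact mTwo_ne_zero L)
  rw [hrel, hSU, nif_card_tors L a ha1] at hmain
  rw [← hmain]
  have htop : sqSub (A := Lˣ ⧸ N) (⊤ : Subgroup (Lˣ ⧸ N)) =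
      (sqSub (⊤ : Subgroup Lˣ)).map π := by
    unfold sqSub
    rw [Subgroup.map_map]
    have e1 : (⊤ : Subgroup (Lˣ ⧸ N)) = (⊤ : Subgroup Lˣ).map π := by
      rw [← MonoidHom.range_eq_map]
      exact (MonoidHom.range_eq_top.2 (QuotientGroup.mk'_surjective N)).symm
    rw [e1, Subgroup.map_map]
    congr 1
  have hNle : N ≤ sqSub (⊤ : Subgroup Lˣ) := by
    rw [hN, Subgroup.zpowers_le]
    exact ⟨a, Subgroup.mem_top _, rfl⟩
  rw [htop, Subgroup.index_map, hker, sup_eq_left.2 hNle,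
    MonoidHom.range_eq_top.2 (QuotientGroup.mk'_surjective N), Subgroup.index_top, mul_one]

end

end Pool.Agent.Work.MP_dd0ddf_al.OC
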