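import Pool.Agent.Work.MP_dd0ddf_al.OC.FourSpan

/-!
# MP_dd0ddf_al, module MultAlg: the algebra of locally constant functions acts on a smooth representation of the dual group

`χ` a nondegenerate bicharacter on U, `π : U → End M` a smooth homomorphism.  For `m ∈ M` fixed by the open subgroup `L` the spectrum of m lies in the compact set `L^⊥ = {z : χ(a, z) = 1 for a ∈ L}` (perp).  Define `m(c) v = ∑ a_w π(w) v` where `c = ∑ a_w χ(w, ·)` on `L^⊥` (mod_span applied to χ.dual or to the
swapped bicharacter: here the characters of z are χ(w, ·); note mod_span is stated for characters χ(·, w): apply it to the bicharacter `χ'(v, w) = χ(w, v)`, with UnionCompact).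
Well defined: if `∑ a_w χ(w, z) = 0` for all z ∈ L^⊥ then `∑ a_w π(w) v = 0`: the distinct characters of the group L^⊥ are linearly independent (Dedekind), χ(w,·) = χ(w',·) on L^⊥ iff `w - w' ∈ L^⊥⊥ = closed... = L` (perp_perp; L may be taken compact open by shrinking), and then π(w) v = π(w') v.
Independent of L (shrinking L enlarges L^⊥).  Linear in v: use a common L.  Multiplicative: products of characters.  supp: K = L^⊥.
`multA_uniq`: a functional/operator identity checked on characters: two such structures with the same `π` agree.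
`multA_local`: given `v` and `a`; K as in supp for v; `c = χ(a,·) - 1` vanishes near 0.  Cover the compact set `K minus that neighbourhood` by finitely many disjoint compact open sets K_j on which `φ_{i_j} - 1` is a nonzero constant κ_j: `c = ∑_j (φ_{i_j} - 1) κ_j⁻¹ c 1_{K_j}` on K.  So `m(c) v = ∑ m(φ_{i_j} - 1) m(..) v` is killed by lam.
`multA_zero`: if P π(a) = P for all a then P m(c) = c(0) P: c = ∑ a_w χ(w,·) on K ∪ {0}.
-/

set_option linter.unusedSectionVars false
set_option linter.style.haveILetI false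

namespace Pool.Agent.Work.MP_dd0ddf_al.OC

noncomputable section

variable {U : Type*} [AddCommGroup U] [TopologicalSpace U] [IsTopologicalAddGroup U]
  [LocallyCompactSpace U] [T2Space U] [TotallyDisconnectedSpace U]
  {M : Type*} [AddCommGroup M] [Module ℂ M]

/-- multiplier algebra of a smooth representation -/
structure MultA (χ : BiChar U) (π : U → M →ₗ[ℂ] M) where
  m : (U → ℂ) → (M →ₗ[ℂ] M)
  add : ∀ c c', IsLocallyConstant c → IsLocallyConstant c' → m (c + c') = m c + m c'
  smul : ∀ (a : ℂ) (c), IsLocallyConstant c → m (a • c) = a • m c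
  mul : ∀ c c', IsLocallyConstant c → IsLocallyConstant c' → m (c * c') = m c ∘ₗ m c'
  char : ∀ a, m (fun z => χ.χ a z) = π a
  supp : ∀ v : M, ∃ K : Set U, IsCompact K ∧ ∀ c, IsLocallyConstant c →
    (∀ z ∈ K, c z = 0) → m c v = 0

/-- the swapped bicharacter -/
private def ma_swap (χ : BiChar U) : BiChar U where
  χ v w := χ.χ w v
  addl a b w := χ.addr w a b
  addr v a b := χ.addl a b v
  norm v w := χ.norm w v
  lc := χ.lc.comp_continuous continuous_swap
  nd v h := χ.nd' v h
  nd' w h := χ.nd w h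
  perp L hL := χ.perp' L hL
  perp' L hL := χ.perp L hL

private theorem ma_one_r (χ : BiChar U) (x : U) : χ.χ x 0 = 1 := by
  have h1 := χ.addr x 0 0
  rw [add_zero] at h1
  have hn : χ.χ x 0 ≠ 0 := by
    intro h0
    have := χ.norm x 0
    rw [h0, norm_zero] at this
    exact zero_ne_one this
  exact (mul_right_cancel₀ hn (by rw [one_mul]; exact h1)).symm

private theorem ma_one_l (χ : BiChar U) (x : U) : χ.χ 0 x = 1 := ma_one_r (ma_swap χ) x

private theorem ma_sub (χ : BiChar U) {w w' z : U} (h : χ.χ w z = χ.χ w' z) :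
    χ.χ (w - w') z = 1 := by
  have h1 := χ.addl (w - w') w' z
  rw [sub_add_cancel, h] at h1
  have hn : χ.χ w' z ≠ 0 := by
    intro h0
    have := χ.norm w' z
    rw [h0, norm_zero] at this
    exact zero_ne_one this
  exact (mul_right_cancel₀ hn (by rw [one_mul]; exact h1)).symm

/-- the annihilator -/
private def maP (χ : BiChar U) (L : AddSubgroup U) : AddSubgroup U where
  carrier := {z | ∀ x ∈ L, χ.χ x z = 1}
  add_mem' := fun {a b} ha hb x hx => by rw [χ.addr, ha x hx, hb x hx, one_mul]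
  zero_mem' := fun x _ => ma_one_r χ x
  neg_mem' := fun {a} ha x hx => by
    have h1 := χ.addr x a (-a)
    rw [add_neg_cancel, ma_one_r, ha x hx, one_mul] at h1
    exact h1.symm

/-- `w` as a character of the annihilator of `L` -/
private def maEv (χ : BiChar U) (L : AddSubgroup U) (w : U) :
    Multiplicative (maP χ L) →* ℂ where
  toFun z := χ.χ w (Multiplicative.toAdd z : maP χ L)
  map_one' := ma_one_r χ w
  map_mul' a b := χ.addr w _ _

private theorem ma_key (χ : BiChar U) (hU : UnionCompact U) (π : U → M →ₗ[ℂ] M)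
    (hadd : ∀ a b, π (a + b) = π a ∘ₗ π b) (L : AddSubgroup U) (hL : IsOpen (L : Set U))
    (hL' : IsCompact (L : Set U)) (v : M) (hv : ∀ x ∈ L, π x v = v) (f : U →₀ ℂ)
    (hf : ∀ z ∈ maP χ L, (f.sum fun w a => a * χ.χ w z) = 0) :
    (f.sum fun w a => a • π w v) = 0 := by
  classical
  have hwd : ∀ w w' : U, maEv χ L w = maEv χ L w' → π w v = π w' v := by
    intro w w' h
    have h1 : w - w' ∈ L := by
      refine perp_perp χ hU L hL hL' (w - w') fun z hz => ma_sub χ ?_
      exact congrArg (fun g : Multiplicative (maP χ L) →* ℂ =>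
        g (Multiplicative.ofAdd (⟨z, hz⟩ : maP χ L))) h
    have h2 : w = w' + (w - w') := by abel
    have h3 : π w v = π (w' + (w - w')) v := by rw [← h2]
    rw [h3, hadd]
    show π w' (π (w - w') v) = π w' v
    rw [hv _ h1]
  let Φ : (Multiplicative (maP χ L) →* ℂ) → M := fun g =>
    if h : ∃ w, maEv χ L w = g then π h.choose v else 0
  have hΦ : ∀ w, Φ (maEv χ L w) = π w v := by
    intro w
    have h : ∃ w', maEv χ L w' = maEv χ L w := ⟨w, rfl⟩
    show (if h : ∃ w', maEv χ L w' = maEv χ L w then π h.choose v else 0) = π w v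
    rw [dif_pos h]
    exact hwd _ _ h.choose_spec
  have hli := linearIndependent_monoidHom (Multiplicative (maP χ L)) ℂ
  rw [linearIndependent_iff] at hli
  have h0 : f.mapDomain (maEv χ L) = 0 := by
    apply hli
    rw [Finsupp.linearCombination_mapDomain]
    funext z
    rw [Finsupp.linearCombination_apply, Finsupp.sum, Finset.sum_apply]
    exact hf _ (Multiplicative.toAdd z).2
  have h1 : (f.sum fun w a => a • π w v) = Finsupp.linearCombination ℂ (Φ ∘ maEv χ L) f := by
    rw [Finsupp.linearCombination_apply, Finsupp.sum, Finsupp.sum]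
    refine Finset.sum_congr rfl fun w _ => ?_
    rw [Function.comp_apply, hΦ]
  rw [h1, ← Finsupp.linearCombination_mapDomain, h0, map_zero]

/-- the group algebra acting -/
private def maPi (π : U → M →ₗ[ℂ] M) (h0 : π 0 = LinearMap.id)
    (hadd : ∀ a b, π (a + b) = π a ∘ₗ π b) : AddMonoidAlgebra ℂ U →ₐ[ℂ] Module.End ℂ M :=
  AddMonoidAlgebra.lift ℂ (Module.End ℂ M) U
    { toFun := fun a => π (Multiplicative.toAdd a)
      map_one' := h0
      map_mul' := fun a b => hadd _ _ }

private def maX (χ : BiChar U) : AddMonoidAlgebra ℂ U →ₐ[ℂ] (U → ℂ) :=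
  AddMonoidAlgebra.lift ℂ (U → ℂ) U
    { toFun := fun a => fun z => χ.χ (Multiplicative.toAdd a) z
      map_one' := by
        funext z
        exact ma_one_l χ z
      map_mul' := fun a b => by
        funext z
        exact χ.addl _ _ z }

private theorem maPi_single (π : U → M →ₗ[ℂ] M) (h0 : π 0 = LinearMap.id)
    (hadd : ∀ a b, π (a + b) = π a ∘ₗ π b) (w : U) (a : ℂ) :
    maPi π h0 hadd (AddMonoidAlgebra.single w a) = a • π w :=
  AddMonoidAlgebra.lift_single _ _ _

private theorem maX_single (χ : BiChar U) (w : U) (a : ℂ) :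
    maX χ (AddMonoidAlgebra.single w a) = a • fun z => χ.χ w z :=
  AddMonoidAlgebra.lift_single _ _ _

private theorem ma_key2 (χ : BiChar U) (hU : UnionCompact U) (π : U → M →ₗ[ℂ] M)
    (h0 : π 0 = LinearMap.id)
    (hadd : ∀ a b, π (a + b) = π a ∘ₗ π b) (L : AddSubgroup U) (hL : IsOpen (L : Set U))
    (hL' : IsCompact (L : Set U)) (v : M) (hv : ∀ x ∈ L, π x v = v)
    (a b : AddMonoidAlgebra ℂ U) (hab : ∀ z ∈ maP χ L, maX χ a z = maX χ b z) :
    maPi π h0 hadd a v = maPi π h0 hadd b v := by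
  have h1 : maPi π h0 hadd (a - b) v = (a - b).coeff.sum fun w c => c • π w v := by
    rw [maPi, AddMonoidAlgebra.lift_apply, Finsupp.sum, Finsupp.sum, LinearMap.sum_apply]
    rfl
  have h2 : ∀ z, maX χ (a - b) z = (a - b).coeff.sum fun w c => c * χ.χ w z := by
    intro z
    rw [maX, AddMonoidAlgebra.lift_apply, Finsupp.sum, Finsupp.sum, Finset.sum_apply]
    rfl
  have h3 : ((a - b).coeff.sum fun w c => c • π w v) = 0 := by
    refine ma_key χ hU π hadd L hL hL' v hv _ fun z hz => ?_
    rw [← h2, map_sub]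
    show maX χ a z - maX χ b z = 0
    rw [hab z hz, sub_self]
  rw [← h1, map_sub] at h3
  exact sub_eq_zero.1 h3

private theorem ma_ex (χ : BiChar U) (hU : UnionCompact U) (c : U → ℂ)
    (hc : IsLocallyConstant c) (K : Set U) (hK : IsCompact K) :
    ∃ a : AddMonoidAlgebra ℂ U, ∀ z ∈ K, maX χ a z = c z := by
  obtain ⟨s, a, hs⟩ := mod_span (ma_swap χ) hU c hc K hK
  refine ⟨∑ w ∈ s, AddMonoidAlgebra.single w (a w), fun z hz => ?_⟩
  rw [hs z hz, map_sum, Finset.sum_apply]
  refine Finset.sum_congr rfl fun w _ => ?_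
  rw [maX_single]
  rfl

/-- compact open subgroups fixing a vector -/
private structure MaF (π : U → M →ₗ[ℂ] M) (v : M) (L : AddSubgroup U) : Prop where
  op : IsOpen (L : Set U)
  cp : IsCompact (L : Set U)
  fix : ∀ x ∈ L, π x v = v

private theorem ma_F_inf {π π' : U → M →ₗ[ℂ] M} {v v' : M} {L L' : AddSubgroup U}
    (h : MaF π v L) (h' : MaF π' v' L') : MaF π v (L ⊓ L') ∧ MaF π' v' (L ⊓ L') := by
  have h1 : IsOpen ((L ⊓ L' : AddSubgroup U) : Set U) := h.op.inter h'.op
  have h2 : IsCompact ((L ⊓ L' : AddSubgroup U) : Set U) := h.cp.inter_right h'.cp.isClosed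
  exact ⟨⟨h1, h2, fun x hx => h.fix x hx.1⟩, ⟨h1, h2, fun x hx => h'.fix x hx.2⟩⟩

private theorem ma_P_compact (χ : BiChar U) {L : AddSubgroup U} (hL : IsOpen (L : Set U)) :
    IsCompact (maP χ L : Set U) := χ.perp L hL

private theorem ma_P_anti (χ : BiChar U) {L L' : AddSubgroup U} (h : L ≤ L') :
    maP χ L' ≤ maP χ L := fun z hz x hx => hz x (h hx)

theorem exists_multA (χ : BiChar U) (hU : UnionCompact U) (π : U → M →ₗ[ℂ] M)
    (h0 : π 0 = LinearMap.id) (hadd : ∀ a b, π (a + b) = π a ∘ₗ π b)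
    (hsm : ∀ v, ∃ W : Set U, IsOpen W ∧ (0 : U) ∈ W ∧ ∀ a ∈ W, π a v = v) :
    Nonempty (MultA χ π) := by
  classical
  have hF : ∀ v, ∃ L, MaF π v L := by
    intro v
    obtain ⟨W, hW, hW0, hWv⟩ := hsm v
    obtain ⟨L, hL, hL', hLW⟩ := exists_co_addSubgroup W hW hW0
    exact ⟨L, hL, hL', fun x hx => hWv x (hLW hx)⟩
  choose Lv hLv using hF
  -- the value
  have hex : ∀ (c : U → ℂ) (v : M), ∃ x : M, IsLocallyConstant c →
      ∀ L, MaF π v L → ∀ a : AddMonoidAlgebra ℂ U, (∀ z ∈ maP χ L, maX χ a z = c z) →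
        maPi π h0 hadd a v = x := by
    intro c v
    by_cases hc : IsLocallyConstant c
    · obtain ⟨b, hb⟩ := ma_ex χ hU c hc _ (ma_P_compact χ (hLv v).op)
      refine ⟨maPi π h0 hadd b v, fun _ L hL a ha => ?_⟩
      obtain ⟨h1, h2⟩ := ma_F_inf hL (hLv v)
      obtain ⟨d, hd⟩ := ma_ex χ hU c hc _ (ma_P_compact χ h1.op)
      have h3 : maPi π h0 hadd a v = maPi π h0 hadd d v :=
        ma_key2 χ hU π h0 hadd L hL.op hL.cp v hL.fix a d fun z hz => by
          rw [ha z hz, hd z (ma_P_anti χ inf_le_left hz)]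
      have h4 : maPi π h0 hadd b v = maPi π h0 hadd d v :=
        ma_key2 χ hU π h0 hadd (Lv v) (hLv v).op (hLv v).cp v (hLv v).fix b d fun z hz => by
          rw [hb z hz, hd z (ma_P_anti χ inf_le_right hz)]
      rw [h3, h4]
    · exact ⟨0, fun h => absurd h hc⟩
  choose μ hμ using hex
  have hlin : ∀ c, ∃ f : M →ₗ[ℂ] M, IsLocallyConstant c → ∀ v, f v = μ c v := by
    intro c
    by_cases hc : IsLocallyConstant c
    · refine ⟨{ toFun := μ c, map_add' := fun v v' => ?_, map_smul' := fun t v => ?_ },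
        fun _ v => rfl⟩
      · obtain ⟨h1, h2⟩ := ma_F_inf (hLv v) (hLv v')
        have h3 : MaF π (v + v') (Lv v ⊓ Lv v') :=
          ⟨h1.op, h1.cp, fun x hx => by rw [map_add, h1.fix x hx, h2.fix x hx]⟩
        obtain ⟨d, hd⟩ := ma_ex χ hU c hc _ (ma_P_compact χ h1.op)
        rw [← hμ c _ hc _ h3 d hd, ← hμ c _ hc _ h1 d hd, ← hμ c _ hc _ h2 d hd, map_add]
      · have h3 : MaF π (t • v) (Lv v) :=
          ⟨(hLv v).op, (hLv v).cp, fun x hx => by rw [map_smul, (hLv v).fix x hx]⟩
        obtain ⟨d, hd⟩ := ma_ex χ hU c hc _ (ma_P_compact χ (hLv v).op)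
        rw [← hμ c _ hc _ h3 d hd, ← hμ c _ hc _ (hLv v) d hd, map_smul, RingHom.id_apply]
    · exact ⟨0, fun h => absurd h hc⟩
  choose m hm using hlin
  have hmain : ∀ c v L, IsLocallyConstant c → MaF π v L → ∀ a : AddMonoidAlgebra ℂ U,
      (∀ z ∈ maP χ L, maX χ a z = c z) → m c v = maPi π h0 hadd a v := by
    intro c v L hc hL a ha
    rw [hm c hc v]
    exact (hμ c v hc L hL a ha).symm
  refine ⟨⟨m, ?_, ?_, ?_, ?_, ?_⟩⟩
  · intro c c' hc hc'
    apply LinearMap.ext
    intro v
    obtain ⟨a, ha⟩ := ma_ex χ hU c hc _ (ma_P_compact χ (hLv v).op)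
    obtain ⟨b, hb⟩ := ma_ex χ hU c' hc' _ (ma_P_compact χ (hLv v).op)
    show m (c + c') v = m c v + m c' v
    rw [hmain c v _ hc (hLv v) a ha, hmain c' v _ hc' (hLv v) b hb,
      hmain (c + c') v _ (hc.comp₂ hc' (· + ·)) (hLv v) (a + b) (fun z hz => by
        rw [map_add]
        show maX χ a z + maX χ b z = c z + c' z
        rw [ha z hz, hb z hz]), map_add]
    rfl
  · intro t c hc
    apply LinearMap.ext
    intro v
    obtain ⟨a, ha⟩ := ma_ex χ hU c hc _ (ma_P_compact χ (hLv v).op)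
    show m (t • c) v = t • m c v
    have hc' : IsLocallyConstant (t • c) := hc.comp (fun x => t • x)
    rw [hmain c v _ hc (hLv v) a ha,
      hmain (t • c) v _ hc' (hLv v) (t • a) (fun z hz => by
        rw [map_smul]
        show t • maX χ a z = t • c z
        rw [ha z hz]), map_smul]
    rfl
  · intro c c' hc hc'
    apply LinearMap.ext
    intro v
    obtain ⟨a, ha⟩ := ma_ex χ hU c hc _ (ma_P_compact χ (hLv v).op)
    obtain ⟨b, hb⟩ := ma_ex χ hU c' hc' _ (ma_P_compact χ (hLv v).op)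
    show m (c * c') v = m c (m c' v)
    have hfix : MaF π (maPi π h0 hadd b v) (Lv v) := by
      refine ⟨(hLv v).op, (hLv v).cp, fun x hx => ?_⟩
      have h1 : maPi π h0 hadd (AddMonoidAlgebra.single x 1) = π x := by
        rw [maPi_single, one_smul]
      have h2 : π x * maPi π h0 hadd b = maPi π h0 hadd b * π x := by
        rw [← h1, ← map_mul, mul_comm, map_mul]
      have h3 : π x (maPi π h0 hadd b v) = maPi π h0 hadd b (π x v) :=
        congrArg (fun f : Module.End ℂ M => f v) h2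
      rw [h3, (hLv v).fix x hx]
    rw [hmain c' v _ hc' (hLv v) b hb, hmain c _ _ hc hfix a ha,
      hmain (c * c') v _ (hc.comp₂ hc' (· * ·)) (hLv v) (a * b) (fun z hz => by
        rw [map_mul]
        show maX χ a z * maX χ b z = c z * c' z
        rw [ha z hz, hb z hz]), map_mul]
    rfl
  · intro w
    apply LinearMap.ext
    intro v
    rw [hmain _ v _ (χ.lcr w) (hLv v) (AddMonoidAlgebra.single w 1) (fun z _ => by
      rw [maX_single, one_smul]), maPi_single, one_smul]
  · intro v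
    refine ⟨maP χ (Lv v), ma_P_compact χ (hLv v).op, fun c hc h => ?_⟩
    rw [hmain c v _ hc (hLv v) 0 (fun z hz => by
      rw [map_zero, h z hz]
      rfl), map_zero]
    rfl

private theorem ma_m_zero {χ : BiChar U} {π : U → M →ₗ[ℂ] M} (A : MultA χ π) : A.m 0 = 0 := by
  have h := A.smul 0 0 (IsLocallyConstant.const 0)
  rw [zero_smul, zero_smul] at h
  exact h

private theorem ma_sum {χ : BiChar U} {π : U → M →ₗ[ℂ] M} (A : MultA χ π) (s : Finset U)
    (a : U → ℂ) : IsLocallyConstant (∑ w ∈ s, a w • fun z => χ.χ w z) ∧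
      A.m (∑ w ∈ s, a w • fun z => χ.χ w z) = ∑ w ∈ s, a w • π w := by
  classical
  induction s using Finset.induction_on with
  | empty =>
    rw [Finset.sum_empty, Finset.sum_empty]
    exact ⟨IsLocallyConstant.const 0, ma_m_zero A⟩
  | insert w s hw ih =>
    have h1 : IsLocallyConstant (a w • fun z => χ.χ w z) := (χ.lcr w).comp (fun x => a w • x)
    rw [Finset.sum_insert hw, Finset.sum_insert hw]
    refine ⟨h1.comp₂ ih.1 (· + ·), ?_⟩
    rw [A.add _ _ h1 ih.1, ih.2, A.smul _ _ (χ.lcr w), A.char]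

private theorem ma_fin {χ : BiChar U} {π : U → M →ₗ[ℂ] M} (A : MultA χ π) {v : M} {K : Set U}
    (hK : ∀ c, IsLocallyConstant c → (∀ z ∈ K, c z = 0) → A.m c v = 0) (c : U → ℂ)
    (hc : IsLocallyConstant c) (s : Finset U) (a : U → ℂ)
    (h : ∀ z ∈ K, c z = ∑ w ∈ s, a w * χ.χ w z) : A.m c v = ∑ w ∈ s, a w • π w v := by
  obtain ⟨h1, h2⟩ := ma_sum A s a
  set c' : U → ℂ := ∑ w ∈ s, a w • fun z => χ.χ w z with hc'
  have h3 : ∀ z, c' z = ∑ w ∈ s, a w * χ.χ w z := by
    intro z
    rw [hc', Finset.sum_apply]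
    rfl
  have h4 : IsLocallyConstant (c - c') := hc.comp₂ h1 (· - ·)
  have h5 := hK (c - c') h4 fun z hz => by
    show c z - c' z = 0
    rw [h3, h z hz, sub_self]
  have h6 : c = (c - c') + c' := by abel
  have h7 : A.m c v = A.m ((c - c') + c') v := by rw [← h6]
  rw [h7, A.add _ _ h4 h1, LinearMap.add_apply, h5, zero_add, h2, LinearMap.sum_apply]
  rfl

/-- uniqueness, in the form of an intertwining criterion -/
theorem multA_uniq {χ : BiChar U} (hU : UnionCompact U) {π π' : U → M →ₗ[ℂ] M}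
    (A : MultA χ π) (A' : MultA χ π') (P : M →ₗ[ℂ] M) (b : U)
    (h : ∀ a, P ∘ₗ π a = χ.χ a b • (π' a ∘ₗ P)) (c : U → ℂ) (hc : IsLocallyConstant c) :
    P ∘ₗ A.m c = A'.m (fun z => c (z + b)) ∘ₗ P := by
  apply LinearMap.ext
  intro v
  obtain ⟨K, hK, hKv⟩ := A.supp v
  obtain ⟨K', hK', hKv'⟩ := A'.supp (P v)
  have hcomp : IsCompact (K ∪ (fun z => z + b) '' K') :=
    hK.union (hK'.image (continuous_id.add continuous_const))
  obtain ⟨s, a, hs⟩ := mod_span (ma_swap χ) hU c hc _ hcomp
  show P (A.m c v) = A'.m (fun z => c (z + b)) (P v)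
  have hc2 : IsLocallyConstant (fun z => c (z + b)) :=
    hc.comp_continuous (continuous_id.add continuous_const)
  rw [ma_fin A hKv c hc s a (fun z hz => hs z (Or.inl hz)),
    ma_fin A' hKv' _ hc2 s (fun w => a w * χ.χ w b) (fun z hz => by
      rw [hs _ (Or.inr ⟨z, hz, rfl⟩)]
      refine Finset.sum_congr rfl fun w _ => ?_
      show a w * χ.χ w (z + b) = a w * χ.χ w b * χ.χ w z
      rw [χ.addr]
      ring), map_sum]
  refine Finset.sum_congr rfl fun w _ => ?_
  have h1 : P (π w v) = χ.χ w b • π' w (P v) := congrArg (fun f : M →ₗ[ℂ] M => f v) (h w)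
  rw [map_smul, h1, smul_smul]

theorem multA_local {χ : BiChar U} (hU : UnionCompact U) {π : U → M →ₗ[ℂ] M} (A : MultA χ π)
    (h0 : π 0 = LinearMap.id)
    (lam : M →ₗ[ℂ] ℂ) {ι : Type*} (φ : ι → U → ℂ) (hφ : ∀ i, IsLocallyConstant (φ i))
    (h : ∀ i v, lam (A.m (φ i) v) = lam v) (hz : ∀ z, z ≠ 0 → ∃ i, φ i z ≠ 1) (a : U) (v : M) :
    lam (π a v) = lam v := by
  classical
  obtain ⟨K, hK, hKv⟩ := A.supp v
  obtain ⟨L, hL, hL', hKL⟩ := hU K hK
  have hLc : IsClosed (L : Set U) := hL'.isClosed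
  -- the functional on `SF U ℂ`
  let T : SF U ℂ →ₗ[ℂ] ℂ :=
    { toFun := fun f => lam (A.m f.1 v)
      map_add' := fun f g => by
        show lam (A.m (f.1 + g.1) v) = _
        rw [A.add _ _ f.2.1 g.2.1, LinearMap.add_apply, map_add]
      map_smul' := fun t f => by
        show lam (A.m (t • f.1) v) = _
        rw [A.smul _ _ f.2.1, LinearMap.smul_apply, map_smul]
        rfl }
  have hone : ∀ z, χ.χ 0 z = 1 := ma_one_l χ
  set c : U → ℂ := (fun z => χ.χ a z) + (-1 : ℂ) • (fun z => χ.χ 0 z) with hcdef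
  have hcc : IsLocallyConstant ((-1 : ℂ) • (fun z => χ.χ 0 z)) :=
    (χ.lcr 0).comp (fun x => (-1 : ℂ) • x)
  have hc : IsLocallyConstant c := (χ.lcr a).comp₂ hcc (· + ·)
  have hc0 : c 0 = 0 := by
    show χ.χ a 0 + (-1 : ℂ) * χ.χ 0 0 = 0
    rw [ma_one_r, ma_one_r]
    ring
  have hmem : (fun z => if z ∈ (L : Set U) then c z else 0) ∈ SF U ℂ := by
    constructor
    · rw [IsLocallyConstant.iff_eventually_eq]
      intro x
      by_cases hx : x ∈ (L : Set U)
      · filter_upwards [hL.mem_nhds hx, (IsLocallyConstant.iff_eventually_eq _).mp hc x]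
          with y hy hy'
        rw [if_pos hy, if_pos hx, hy']
      · filter_upwards [hLc.isOpen_compl.mem_nhds hx] with y hy
        rw [if_neg hy, if_neg hx]
    · refine HasCompactSupport.of_support_subset_isCompact hL' ?_
      intro x hx
      by_contra hxn
      apply hx
      show (if x ∈ (L : Set U) then c x else 0) = 0
      rw [if_neg hxn]
  have hT : T ⟨_, hmem⟩ = 0 := by
    apply vanish_local
    intro x hx
    have hx0 : x ≠ 0 := by
      rintro rfl
      apply hx
      show (if (0 : U) ∈ (L : Set U) then c 0 else 0) = 0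
      rw [hc0, ite_self]
    obtain ⟨i, hi⟩ := hz x hx0
    refine ⟨{y | φ i y = φ i x}, hφ i {φ i x}, rfl, fun g hg => ?_⟩
    have h1 : φ i * g.1 = φ i x • g.1 := by
      funext y
      show φ i y * g y = φ i x * g y
      by_cases hy : φ i y = φ i x
      · rw [hy]
      · rw [hg y hy, mul_zero, mul_zero]
    have h2 : lam (A.m (φ i * g.1) v) = lam (A.m g.1 v) := by
      rw [A.mul _ _ (hφ i) g.2.1]
      exact h i _
    rw [h1, A.smul _ _ g.2.1, LinearMap.smul_apply, map_smul] at h2
    show lam (A.m g.1 v) = 0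
    have h3 : (φ i x - 1) * lam (A.m g.1 v) = 0 := by
      rw [sub_mul, one_mul, ← smul_eq_mul, h2, sub_self]
    exact (mul_eq_zero.1 h3).resolve_left (sub_ne_zero.2 hi)
  have hT2 : lam (A.m c v) = 0 := by
    have h1 : IsLocallyConstant (fun z => if z ∈ (L : Set U) then c z else 0) := hmem.1
    have h2 : IsLocallyConstant (c - fun z => if z ∈ (L : Set U) then c z else 0) :=
      hc.comp₂ h1 (· - ·)
    have h3 := hKv _ h2 fun z hz => by
      show c z - (if z ∈ (L : Set U) then c z else 0) = 0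
      rw [if_pos (hKL hz), sub_self]
    have h4 : c = (c - fun z => if z ∈ (L : Set U) then c z else 0) +
        fun z => if z ∈ (L : Set U) then c z else 0 := by abel
    have h5 : A.m c v = A.m ((c - fun z => if z ∈ (L : Set U) then c z else 0) +
        fun z => if z ∈ (L : Set U) then c z else 0) v := by rw [← h4]
    rw [h5, A.add _ _ h2 h1, LinearMap.add_apply, h3, zero_add]
    exact hT
  rw [hcdef, A.add _ _ (χ.lcr a) hcc, A.smul _ _ (χ.lcr 0), A.char, A.char, h0,
    LinearMap.add_apply, LinearMap.smul_apply, LinearMap.id_apply, neg_smul, one_smul, map_add,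
    map_neg, ← sub_eq_add_neg, sub_eq_zero] at hT2
  exact hT2

theorem multA_zero {χ : BiChar U} (hU : UnionCompact U) {π : U → M →ₗ[ℂ] M} (A : MultA χ π)
    {M' : Type*} [AddCommGroup M'] [Module ℂ M'] (P : M →ₗ[ℂ] M') (h : ∀ a v, P (π a v) = P v)
    (c : U → ℂ) (hc : IsLocallyConstant c) (v : M) : P (A.m c v) = c 0 • P v := by
  obtain ⟨K, hK, hKv⟩ := A.supp v
  have hcomp : IsCompact (K ∪ {0}) := hK.union isCompact_singleton
  obtain ⟨s, a, hs⟩ := mod_span (ma_swap χ) hU c hc _ hcomp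
  rw [ma_fin A hKv c hc s a (fun z hz => hs z (Or.inl hz)), map_sum, hs 0 (Or.inr rfl),
    Finset.sum_smul]
  refine Finset.sum_congr rfl fun w _ => ?_
  show P (a w • π w v) = (a w * χ.χ w 0) • P v
  rw [map_smul, h, ma_one_r, mul_one]

end

end Pool.Agent.Work.MP_dd0ddf_al.OC
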