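import Pool.Agent.Work.MP_dd0ddf_al.OC.JChar
import Pool.Agent.Work.MP_dd0ddf_al.OC.MultAlg
import Pool.Agent.Work.MP_dd0ddf_al.OC.ExSkew

/-!
# MP_dd0ddf_al, module Chirp: unipotent elements trivial on Y^⊥ act as chirps

`n, n'` are 1 on `Y^⊥`; so `(n-1)V ⊆ (Y^⊥)^⊥ = Y` (n⁻¹ - 1 is the adjoint of n - 1).  `χ = omBi (BY.prod BY)`, `π(y,y') = L_y R_{y'}` a smooth homomorphism on SF V (Y isotropic: lop_lop, rop_rop; lop_smooth).
`om((n-1)x, v) = om((n-1)v, x)` (from om(nx,nv) = om(x,v) and (n-1)V isotropic).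
(1) `A.m Φ` intertwines: `A.m Φ ∘ L_v = L_{nv} ∘ A.m Φ`: `L_y L_v = ψ(om(y,v)) L_v L_y`, so `L_v⁻¹ π(a) L_v = χ(a, (ζ v, 0)) π(a)`; by `multA_uniq` (P = L_v...) `A.m Φ ∘ L_v = L_v ∘ A.m (Φ(· + (ζ v, 0)))`, and
`Φ(z + (ζ v, 0)) = Φ(z) ψ(½ om((n-1)v, v)) χ(((n-1)v, 0), z)`, so it equals `ψ(½om((n-1)v, v)) L_v L_{(n-1)v} A.m Φ = L_{nv} A.m Φ`.
(2) similarly `A.m Φ ∘ R_v = R_{n'v} ∘ A.m Φ`: `R_y R_v = ψ(-om(y,v)) R_v R_y`, shift by (0, -ζ v).
So `(W.l n ∘ W.r n')⁻¹ ∘ A.m Φ` commutes with all L_v, R_v: scalar θ (schur_lr); A.m Φ is invertible (Φ⁻¹).  Apply J: `J ∘ A.m Φ = Φ(0) J = J` (multA_zero, jMap_L, jMap_R), `J ∘ l(n) ∘ r(n') = C(n) C'(n') J` with indY n = 1 = indY n', and `C(n) = C(n') = 1`, (C(n') C'(n') > 0, more precisely C'(n') : `jMap_geo` for n'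
has c = 1 since n' is the identity on Y: or: C'(n') > 0 and θ has absolute value... to avoid this prove C'(n') = 1 directly: `J ∘ r(n') = J ∘ l(n')⁻¹ ∘ geo(n')`, and `J geo(n') f (w) = ∫ f(n'⁻¹(w + y)) dy = J f (w)` because n'⁻¹(w+y) = w + y).  Take W1 from weil_sub.
-/

set_option linter.unusedSectionVars false
set_option linter.style.haveILetI false

namespace Pool.Agent.Work.MP_dd0ddf_al.OC

noncomputable section

universe u

variable {F E : Type u} [NontriviallyNormedField F] [IsUltrametricDist F] [ProperSpace F]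
  [NeZero (2 : F)] [NontriviallyNormedField E] [NormedAlgebra F E] [ProperSpace E] [StarRing E]
  [QExt F E] [MeasurableSpace E] [BorelSpace E]
variable {V : Type u} [AddCommGroup V] [Module E V] [Module.Finite E V] [TopologicalSpace V]
  [IsTopologicalAddGroup V] [T2Space V] [ContinuousSMul E V]

private theorem chirp_psi0 (p : PChar F) : p.ψ 0 = 1 := by
  have h := p.add 0 0
  rw [add_zero] at h
  have hn : p.ψ 0 ≠ 0 := by
    intro h0
    have := p.norm_one 0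
    rw [h0, norm_zero] at this
    exact zero_ne_one this
  have h2 : p.ψ 0 * (p.ψ 0 - 1) = 0 := by linear_combination -h
  rcases mul_eq_zero.1 h2 with h3 | h3
  · exact absurd h3 hn
  · exact sub_eq_zero.1 h3

private theorem chirp_zl (B : SkewH E V) (x : V) : om F B 0 x = 0 := by
  have h := om_add_left (F := F) B 0 0 x
  rw [add_zero] at h
  linear_combination -h

private theorem chirp_zr (B : SkewH E V) (x : V) : om F B x 0 = 0 := by
  have h := om_add_right (F := F) B x 0 0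
  rw [add_zero] at h
  linear_combination -h

private theorem chirp_nl (B : SkewH E V) (x y : V) : om F B (-x) y = - om F B x y := by
  have h := om_add_left (F := F) B x (-x) y
  rw [add_neg_cancel, chirp_zl] at h
  linear_combination -h

private theorem chirp_nr (B : SkewH E V) (x y : V) : om F B x (-y) = - om F B x y := by
  have h := om_add_right (F := F) B x y (-y)
  rw [add_neg_cancel, chirp_zr] at h
  linear_combination -h

private theorem chirp_sl (B : SkewH E V) (x y z : V) :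
    om F B (x - y) z = om F B x z - om F B y z := by
  rw [sub_eq_add_neg, om_add_left, chirp_nl, ← sub_eq_add_neg]

private theorem chirp_sr (B : SkewH E V) (x y z : V) :
    om F B x (y - z) = om F B x y - om F B x z := by
  rw [sub_eq_add_neg, om_add_right, chirp_nr, ← sub_eq_add_neg]

private theorem chirp_iso {B : SkewH E V} (D : IsoD B) {y y' : V} (hy : y ∈ D.Y)
    (hy' : y' ∈ D.Y) : om F B y y' = 0 := by
  unfold om
  rw [D.iso y hy y' hy', map_zero]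

private theorem chirp_orth {B : SkewH E V} (D : IsoD B) {y w : V} (hy : y ∈ D.Y)
    (hw : w ∈ orth B D.Y) : om F B y w = 0 := by
  have h1 : B.ip w y = 0 := hw y hy
  rw [om_swap]
  unfold om
  rw [h1, map_zero, neg_zero]

private theorem chirp_Yorth {B : SkewH E V} (D : IsoD B) {y : V} (hy : y ∈ D.Y) :
    y ∈ orth B D.Y := by
  rw [D.dec]
  exact Submodule.mem_sup_left hy

private theorem chirp_LL (B : SkewH E V) (p : PChar F) (x y : V) (f : SF V ℂ) :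
    Lop B p x (Lop B p y f) = p.ψ (2⁻¹ * om F B x y) • Lop B p (x + y) f :=
  congrArg (fun T : SF V ℂ →ₗ[ℂ] SF V ℂ => T f) (lop_lop B p x y)

private theorem chirp_RR (B : SkewH E V) (p : PChar F) (x y : V) (f : SF V ℂ) :
    Rop B p x (Rop B p y f) = p.ψ (-(2⁻¹ * om F B x y)) • Rop B p (x + y) f :=
  congrArg (fun T : SF V ℂ →ₗ[ℂ] SF V ℂ => T f) (rop_rop B p x y)

private theorem chirp_LR (B : SkewH E V) (p : PChar F) (x y : V) (f : SF V ℂ) :
    Lop B p x (Rop B p y f) = Rop B p y (Lop B p x f) :=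
  congrArg (fun T : SF V ℂ →ₗ[ℂ] SF V ℂ => T f) (lop_rop B p x y)

private theorem chirp_L0 (B : SkewH E V) (p : PChar F) {x : V} (hx : x = 0) (f : SF V ℂ) :
    Lop B p x f = f := by
  rw [hx, lop_zero]
  rfl

private theorem chirp_R0 (B : SkewH E V) (p : PChar F) {x : V} (hx : x = 0) (f : SF V ℂ) :
    Rop B p x f = f := by
  rw [hx, rop_zero]
  rfl

theorem chirp_ran {B : SkewH E V} (D : IsoD B) (n : UU B) (hn : ∀ v ∈ orth B D.Y, n.1.1 v = v)
    (v : V) : n.1.1 v - v ∈ D.Y := by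
  rw [← orth_orth B D.Y]
  intro w hw
  have h1 := n.2 v w
  rw [hn w hw] at h1
  have h2 : B.ip (n.1.1 v) w = B.ip (n.1.1 v - v) w + B.ip v w := by
    rw [← B.add_left, sub_add_cancel]
  rw [h2] at h1
  linear_combination h1

variable (F) in
/-- `L_y R_{y'}` -/
def lrOp {B : SkewH E V} (D : IsoD B) (p : PChar F) (a : D.Y × D.Y) : SF V ℂ →ₗ[ℂ] SF V ℂ :=
  Lop B p (a.1 : V) ∘ₗ Rop B p (a.2 : V)

theorem exists_multLR {B : SkewH E V} (D : IsoD B) (p : PChar F) (BY : SkewH E D.Y) :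
    Nonempty (MultA (omBi (BY.prod BY) p) (lrOp F D p)) := by
  haveI := lc_V E D.Y
  haveI := td_V F E D.Y
  refine exists_multA (omBi (BY.prod BY) p) (uc_V F E (D.Y × D.Y)) (lrOp F D p) ?_ ?_ ?_
  · apply LinearMap.ext
    intro f
    show Lop B p (((0 : D.Y × D.Y).1 : D.Y) : V) (Rop B p (((0 : D.Y × D.Y).2 : D.Y) : V) f) = f
    rw [chirp_L0 B p (show (((0 : D.Y × D.Y).1 : D.Y) : V) = 0 from rfl),
      chirp_R0 B p (show (((0 : D.Y × D.Y).2 : D.Y) : V) = 0 from rfl)]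
  · intro a b
    apply LinearMap.ext
    intro f
    show Lop B p (((a.1 : D.Y) : V) + ((b.1 : D.Y) : V))
        (Rop B p (((a.2 : D.Y) : V) + ((b.2 : D.Y) : V)) f) =
      Lop B p ((a.1 : D.Y) : V) (Rop B p ((a.2 : D.Y) : V) (Lop B p ((b.1 : D.Y) : V)
        (Rop B p ((b.2 : D.Y) : V) f)))
    rw [← chirp_LR B p ((b.1 : D.Y) : V) ((a.2 : D.Y) : V), chirp_LL, chirp_RR,
      chirp_iso D a.1.2 b.1.2, chirp_iso D a.2.2 b.2.2, mul_zero, neg_zero, chirp_psi0, one_smul,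
      one_smul]
  · intro f
    obtain ⟨U, hU, hU0, hUf⟩ := lop_smooth B p f
    obtain ⟨U', hU', hU0', hUf'⟩ := rop_smooth B p f
    have c1 : Continuous (fun a : D.Y × D.Y => ((a.1 : D.Y) : V)) :=
      continuous_subtype_val.comp continuous_fst
    have c2 : Continuous (fun a : D.Y × D.Y => ((a.2 : D.Y) : V)) :=
      continuous_subtype_val.comp continuous_snd
    refine ⟨(fun a : D.Y × D.Y => ((a.1 : D.Y) : V)) ⁻¹' U ∩
      (fun a : D.Y × D.Y => ((a.2 : D.Y) : V)) ⁻¹' U', (hU.preimage c1).inter (hU'.preimage c2),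
      ⟨hU0, hU0'⟩, fun a ha => ?_⟩
    show Lop B p ((a.1 : D.Y) : V) (Rop B p ((a.2 : D.Y) : V) f) = f
    rw [hUf' _ ha.2, hUf _ ha.1]

private theorem chirp_om {B : SkewH E V} (D : IsoD B) (BY : SkewH E D.Y) (ζ : V →ₗ[E] D.Y)
    (hζ : ∀ (y : D.Y) (x : V), BY.ip y (ζ x) = B.ip (y : V) x) (y : D.Y) (x : V) :
    om F BY y (ζ x) = om F B (y : V) x := by
  unfold om
  rw [hζ]

private theorem chirp_LPi {B : SkewH E V} (p : PChar F) (D : IsoD B)
    (BY : SkewH E D.Y) (ζ : V →ₗ[E] D.Y)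
    (hζ : ∀ (y : D.Y) (x : V), BY.ip y (ζ x) = B.ip (y : V) x) (v : V) (a : D.Y × D.Y) :
    Lop B p v ∘ₗ lrOp F D p a = (omBi (BY.prod BY) p).χ a (-ζ v, 0) •
      (lrOp F D p a ∘ₗ Lop B p v) := by
  have e1 : (omBi (BY.prod BY) p).χ a (-ζ v, 0) = p.ψ (-om F B ((a.1 : D.Y) : V) v) := by
    rw [omBi_apply, om_prod, ← map_neg, chirp_om D BY ζ hζ, chirp_zr, add_zero, chirp_nr]
  rw [e1]
  apply LinearMap.ext
  intro f
  show Lop B p v (Lop B p ((a.1 : D.Y) : V) (Rop B p ((a.2 : D.Y) : V) f)) =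
    p.ψ (-om F B ((a.1 : D.Y) : V) v) •
      Lop B p ((a.1 : D.Y) : V) (Rop B p ((a.2 : D.Y) : V) (Lop B p v f))
  rw [← chirp_LR B p v, chirp_LL, chirp_LL, smul_smul, ← p.add, add_comm ((a.1 : D.Y) : V) v,
    om_swap B ((a.1 : D.Y) : V) v]
  congr 2
  have h2 : (2 : F) ≠ 0 := two_ne_zero
  field_simp
  ring

private theorem chirp_RPi {B : SkewH E V} (p : PChar F) (D : IsoD B)
    (BY : SkewH E D.Y) (ζ : V →ₗ[E] D.Y)
    (hζ : ∀ (y : D.Y) (x : V), BY.ip y (ζ x) = B.ip (y : V) x) (v : V) (a : D.Y × D.Y) :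
    Rop B p v ∘ₗ lrOp F D p a = (omBi (BY.prod BY) p).χ a (0, ζ v) •
      (lrOp F D p a ∘ₗ Rop B p v) := by
  have e1 : (omBi (BY.prod BY) p).χ a (0, ζ v) = p.ψ (om F B ((a.2 : D.Y) : V) v) := by
    rw [omBi_apply, om_prod, chirp_om D BY ζ hζ, chirp_zr, zero_add]
  rw [e1]
  apply LinearMap.ext
  intro f
  show Rop B p v (Lop B p ((a.1 : D.Y) : V) (Rop B p ((a.2 : D.Y) : V) f)) =
    p.ψ (om F B ((a.2 : D.Y) : V) v) •
      Lop B p ((a.1 : D.Y) : V) (Rop B p ((a.2 : D.Y) : V) (Rop B p v f))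
  rw [← chirp_LR B p _ v, chirp_RR, chirp_RR, map_smul, map_smul, smul_smul, ← p.add,
    add_comm ((a.2 : D.Y) : V) v, om_swap B ((a.2 : D.Y) : V) v]
  congr 2
  have h2 : (2 : F) ≠ 0 := two_ne_zero
  field_simp
  ring

/-- `om((n-1)x, v) = om((n-1)v, x)` -/
private theorem chirp_sym {B : SkewH E V} (D : IsoD B) (n : UU B)
    (hn : ∀ v ∈ orth B D.Y, n.1.1 v = v) (x v : V) :
    om F B (n.1.1 x - x) v = om F B (n.1.1 v - v) x := by
  have h1 := om_UU (F := F) B n x v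
  have hx := chirp_ran D n hn x
  have hv := chirp_ran D n hn v
  have e1 : n.1.1 x = x + (n.1.1 x - x) := by abel
  have e2 : n.1.1 v = v + (n.1.1 v - v) := by abel
  have h0 := chirp_iso (F := F) D hx hv
  obtain ⟨a, ha⟩ : ∃ a : V, a = n.1.1 x - x := ⟨_, rfl⟩
  obtain ⟨b, hb⟩ : ∃ b : V, b = n.1.1 v - v := ⟨_, rfl⟩
  rw [← ha] at e1 h0 ⊢
  rw [← hb] at e2 h0 ⊢
  rw [e1, e2, om_add_left, om_add_right, om_add_right, h0] at h1
  have h3 := om_swap (F := F) B x b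
  linear_combination h1 - h3

private theorem chirp_surj {B : SkewH E V} (D : IsoD B) (BY : SkewH E D.Y) (ζ : V →ₗ[E] D.Y)
    (hζ : ∀ (y : D.Y) (x : V), BY.ip y (ζ x) = B.ip (y : V) x) : Function.Surjective ζ := by
  have h1 : orth BY (LinearMap.range ζ) = ⊥ := by
    rw [eq_bot_iff]
    intro y hy
    have h2 : (y : V) = 0 := by
      apply B.nondeg
      intro x
      rw [← hζ]
      exact hy (ζ x) ⟨x, rfl⟩
    exact (Submodule.mem_bot E).2 (Subtype.ext h2)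
  have h2 : orth BY (⊥ : Submodule E D.Y) = ⊤ := by
    rw [eq_top_iff]
    intro y _ u hu
    rw [(Submodule.mem_bot E).1 hu]
    have h3 := BY.smul_right 0 y 0
    rw [zero_smul, star_zero, zero_mul] at h3
    exact h3
  rw [← LinearMap.range_eq_top, ← orth_orth BY (LinearMap.range ζ), h1, h2]

private theorem chirp_mulL {B : SkewH E V} {p : PChar F} (D : IsoD B)
    (BY : SkewH E D.Y) (ζ : V →ₗ[E] D.Y)
    (hζ : ∀ (y : D.Y) (x : V), BY.ip y (ζ x) = B.ip (y : V) x)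
    (A : MultA (omBi (BY.prod BY) p) (lrOp F D p)) (n n' : UU B)
    (hn : ∀ v ∈ orth B D.Y, n.1.1 v = v)
    (Φ : D.Y × D.Y → ℂ) (hlc : IsLocallyConstant Φ)
    (hΦ : ∀ x x' : V, Φ (ζ x, ζ x') =
      p.ψ (2⁻¹ * om F B (n.1.1 x - x) x - 2⁻¹ * om F B (n'.1.1 x' - x') x')) (v : V) :
    A.m Φ ∘ₗ Lop B p v = Lop B p (n.1.1 v) ∘ₗ A.m Φ := by
  haveI := lc_V E D.Y
  haveI := td_V F E D.Y
  have hw := chirp_ran D n hn v
  obtain ⟨a0, ha0⟩ : ∃ a0 : D.Y × D.Y, a0 = (⟨n.1.1 v - v, hw⟩, 0) := ⟨_, rfl⟩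
  have hsh : Continuous (fun z : D.Y × D.Y => z + (ζ v, 0)) :=
    continuous_id.add continuous_const
  have hlc' : IsLocallyConstant (fun z : D.Y × D.Y => Φ (z + (ζ v, 0))) :=
    hlc.comp_continuous hsh
  have h1 := multA_uniq (uc_V F E (D.Y × D.Y)) A A (Lop B p v) (-ζ v, 0)
    (fun a => chirp_LPi p D BY ζ hζ v a) (fun z => Φ (z + (ζ v, 0))) hlc'
  have h2 : (fun z : D.Y × D.Y => Φ (z + (-ζ v, 0) + (ζ v, 0))) = Φ := by
    funext z
    congr 1
    refine Prod.ext ?_ ?_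
    · show z.1 + -ζ v + ζ v = z.1
      abel
    · show z.2 + 0 + 0 = z.2
      rw [add_zero, add_zero]
  have h1' : Lop B p v ∘ₗ A.m (fun z => Φ (z + (ζ v, 0))) = A.m Φ ∘ₗ Lop B p v := by
    have h3 : Lop B p v ∘ₗ A.m (fun z => Φ (z + (ζ v, 0))) =
        A.m (fun z : D.Y × D.Y => Φ (z + (-ζ v, 0) + (ζ v, 0))) ∘ₗ Lop B p v := h1
    rw [h2] at h3
    exact h3
  have h4 : (fun z : D.Y × D.Y => Φ (z + (ζ v, 0))) =
      p.ψ (2⁻¹ * om F B (n.1.1 v - v) v) •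
        ((fun z => (omBi (BY.prod BY) p).χ a0 z) * Φ) := by
    funext z
    obtain ⟨x, hx⟩ := chirp_surj D BY ζ hζ z.1
    obtain ⟨x', hx'⟩ := chirp_surj D BY ζ hζ z.2
    have hz : z = (ζ x, ζ x') := by rw [hx, hx']
    show Φ (z + (ζ v, 0)) = p.ψ (2⁻¹ * om F B (n.1.1 v - v) v) *
      ((omBi (BY.prod BY) p).χ a0 z * Φ z)
    have e1 : z + (ζ v, 0) = (ζ (x + v), ζ x') := by
      rw [hz, Prod.mk_add_mk, map_add, add_zero]
    rw [e1, hz, hΦ, hΦ, omBi_apply, om_prod, ha0]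
    show p.ψ _ = p.ψ _ * (p.ψ (om F BY ⟨n.1.1 v - v, hw⟩ (ζ x) + om F BY 0 (ζ x')) * p.ψ _)
    rw [chirp_om D BY ζ hζ, chirp_zl, add_zero, ← p.add, ← p.add]
    congr 1
    have e2 : n.1.1 (x + v) - (x + v) = (n.1.1 x - x) + (n.1.1 v - v) := by
      rw [map_add]
      abel
    have e3 := chirp_sym (F := F) D n hn x v
    rw [e2, om_add_left, om_add_right, om_add_right, e3]
    have h2 : (2 : F) ≠ 0 := two_ne_zero
    show _ = 2⁻¹ * om F B (n.1.1 v - v) v + (om F B (n.1.1 v - v) x + _)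
    field_simp
    ring
  have h5 : A.m (fun z : D.Y × D.Y => Φ (z + (ζ v, 0))) =
      p.ψ (2⁻¹ * om F B (n.1.1 v - v) v) • (lrOp F D p a0 ∘ₗ A.m Φ) := by
    have l1 : IsLocallyConstant (fun z => (omBi (BY.prod BY) p).χ a0 z) :=
      (omBi (BY.prod BY) p).lcr a0
    rw [h4, A.smul _ _ (l1.mul hlc), A.mul _ _ l1 hlc, A.char]
  rw [← h1', h5]
  apply LinearMap.ext
  intro f
  show Lop B p v (p.ψ (2⁻¹ * om F B (n.1.1 v - v) v) •
    Lop B p ((a0.1 : D.Y) : V) (Rop B p ((a0.2 : D.Y) : V) (A.m Φ f))) =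
    Lop B p (n.1.1 v) (A.m Φ f)
  have e5 : ((a0.1 : D.Y) : V) = n.1.1 v - v := by rw [ha0]
  have e6 : ((a0.2 : D.Y) : V) = 0 := by
    rw [ha0]
    rfl
  rw [e5, chirp_R0 B p e6, map_smul, chirp_LL, smul_smul, ← p.add, add_sub_cancel,
    om_swap B (n.1.1 v - v) v]
  have e7 : 2⁻¹ * om F B (n.1.1 v - v) v + 2⁻¹ * -om F B (n.1.1 v - v) v = 0 := by ring
  rw [e7, chirp_psi0, one_smul]

private theorem chirp_mulR {B : SkewH E V} {p : PChar F} (D : IsoD B)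
    (BY : SkewH E D.Y) (ζ : V →ₗ[E] D.Y)
    (hζ : ∀ (y : D.Y) (x : V), BY.ip y (ζ x) = B.ip (y : V) x)
    (A : MultA (omBi (BY.prod BY) p) (lrOp F D p)) (n n' : UU B)
    (hn' : ∀ v ∈ orth B D.Y, n'.1.1 v = v)
    (Φ : D.Y × D.Y → ℂ) (hlc : IsLocallyConstant Φ)
    (hΦ : ∀ x x' : V, Φ (ζ x, ζ x') =
      p.ψ (2⁻¹ * om F B (n.1.1 x - x) x - 2⁻¹ * om F B (n'.1.1 x' - x') x')) (v : V) :
    A.m Φ ∘ₗ Rop B p v = Rop B p (n'.1.1 v) ∘ₗ A.m Φ := by
  haveI := lc_V E D.Y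
  haveI := td_V F E D.Y
  have hw := chirp_ran D n' hn' v
  obtain ⟨a0, ha0⟩ : ∃ a0 : D.Y × D.Y, a0 = (0, ⟨n'.1.1 v - v, hw⟩) := ⟨_, rfl⟩
  have hsh : Continuous (fun z : D.Y × D.Y => z + (0, -ζ v)) :=
    continuous_id.add continuous_const
  have hlc' : IsLocallyConstant (fun z : D.Y × D.Y => Φ (z + (0, -ζ v))) :=
    hlc.comp_continuous hsh
  have h1 := multA_uniq (uc_V F E (D.Y × D.Y)) A A (Rop B p v) (0, ζ v)
    (fun a => chirp_RPi p D BY ζ hζ v a) (fun z => Φ (z + (0, -ζ v))) hlc'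
  have h2 : (fun z : D.Y × D.Y => Φ (z + (0, ζ v) + (0, -ζ v))) = Φ := by
    funext z
    congr 1
    refine Prod.ext ?_ ?_
    · show z.1 + 0 + 0 = z.1
      rw [add_zero, add_zero]
    · show z.2 + ζ v + -ζ v = z.2
      abel
  have h1' : Rop B p v ∘ₗ A.m (fun z => Φ (z + (0, -ζ v))) = A.m Φ ∘ₗ Rop B p v := by
    have h3 : Rop B p v ∘ₗ A.m (fun z => Φ (z + (0, -ζ v))) =
        A.m (fun z : D.Y × D.Y => Φ (z + (0, ζ v) + (0, -ζ v))) ∘ₗ Rop B p v := h1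
    rw [h2] at h3
    exact h3
  have h4 : (fun z : D.Y × D.Y => Φ (z + (0, -ζ v))) =
      p.ψ (-(2⁻¹ * om F B (n'.1.1 v - v) v)) •
        ((fun z => (omBi (BY.prod BY) p).χ a0 z) * Φ) := by
    funext z
    obtain ⟨x, hx⟩ := chirp_surj D BY ζ hζ z.1
    obtain ⟨x', hx'⟩ := chirp_surj D BY ζ hζ z.2
    have hz : z = (ζ x, ζ x') := by rw [hx, hx']
    show Φ (z + (0, -ζ v)) = p.ψ (-(2⁻¹ * om F B (n'.1.1 v - v) v)) *
      ((omBi (BY.prod BY) p).χ a0 z * Φ z)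
    have e1 : z + (0, -ζ v) = (ζ x, ζ (x' - v)) := by
      rw [hz, Prod.mk_add_mk, map_sub, add_zero, sub_eq_add_neg]
    rw [e1, hz, hΦ, hΦ, omBi_apply, om_prod, ha0]
    show p.ψ _ = p.ψ _ * (p.ψ (om F BY 0 (ζ x) + om F BY ⟨n'.1.1 v - v, hw⟩ (ζ x')) * p.ψ _)
    rw [chirp_zl (F := F) BY (ζ x), zero_add, chirp_om D BY ζ hζ, ← p.add, ← p.add]
    congr 1
    have e2 : n'.1.1 (x' - v) - (x' - v) = (n'.1.1 x' - x') - (n'.1.1 v - v) := by
      rw [map_sub]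
      abel
    have e3 := chirp_sym (F := F) D n' hn' x' v
    have e4 : om F B (n'.1.1 (x' - v) - (x' - v)) (x' - v) =
        om F B (n'.1.1 x' - x') x' - 2 * om F B (n'.1.1 v - v) x' +
          om F B (n'.1.1 v - v) v := by
      rw [e2]
      obtain ⟨a, ha⟩ : ∃ a : V, a = n'.1.1 x' - x' := ⟨_, rfl⟩
      obtain ⟨b, hb⟩ : ∃ b : V, b = n'.1.1 v - v := ⟨_, rfl⟩
      rw [← ha, ← hb] at e3 ⊢
      rw [chirp_sr, chirp_sl, chirp_sl, e3]
      ring
    rw [e4]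
    have h2 : (2 : F) ≠ 0 := two_ne_zero
    show _ = -(2⁻¹ * om F B (n'.1.1 v - v) v) + (om F B (n'.1.1 v - v) x' + _)
    field_simp
    ring
  have h5 : A.m (fun z : D.Y × D.Y => Φ (z + (0, -ζ v))) =
      p.ψ (-(2⁻¹ * om F B (n'.1.1 v - v) v)) • (lrOp F D p a0 ∘ₗ A.m Φ) := by
    have l1 : IsLocallyConstant (fun z => (omBi (BY.prod BY) p).χ a0 z) :=
      (omBi (BY.prod BY) p).lcr a0
    rw [h4, A.smul _ _ (l1.mul hlc), A.mul _ _ l1 hlc, A.char]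
  rw [← h1', h5]
  apply LinearMap.ext
  intro f
  show Rop B p v (p.ψ (-(2⁻¹ * om F B (n'.1.1 v - v) v)) •
    Lop B p ((a0.1 : D.Y) : V) (Rop B p ((a0.2 : D.Y) : V) (A.m Φ f))) =
    Rop B p (n'.1.1 v) (A.m Φ f)
  have e5 : ((a0.2 : D.Y) : V) = n'.1.1 v - v := by rw [ha0]
  have e6 : ((a0.1 : D.Y) : V) = 0 := by
    rw [ha0]
    rfl
  rw [e5, chirp_L0 B p e6, map_smul, chirp_RR, smul_smul, ← p.add, add_sub_cancel,
    om_swap B (n'.1.1 v - v) v]
  have e7 : -(2⁻¹ * om F B (n'.1.1 v - v) v) + -(2⁻¹ * -om F B (n'.1.1 v - v) v) = 0 := by ring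
  rw [e7, chirp_psi0, one_smul]

private theorem chirp_f0 {B : SkewH E V} (D : IsoD B) : ∃ f : SF V ℂ, jMap F D f ≠ 0 := by
  haveI := lc_V E D.V1
  haveI := td_V F E D.V1
  obtain ⟨N, hNo, hNc, -⟩ := exists_co_addSubgroup (Set.univ : Set D.V1) isOpen_univ
    (Set.mem_univ _)
  obtain ⟨f, hf⟩ := jMap_surjective (F := F) D (SF.single (N : Set D.V1) hNc hNo (1 : ℂ))
  refine ⟨f, fun h => ?_⟩
  rw [hf] at h
  have h1 := congrArg (fun f : SF D.V1 ℂ => f 0) h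
  have h2 : SF.single (N : Set D.V1) hNc hNo (1 : ℂ) 0 = 1 :=
    SF.single_apply_mem _ _ _ _ _ N.zero_mem
  have h3 : SF.single (N : Set D.V1) hNc hNo (1 : ℂ) 0 = 0 := h1
  rw [h2] at h3
  exact one_ne_zero h3

private theorem chirp_eq1 {M : Type*} [AddCommGroup M] [Module ℂ M] {a : ℂ} {x : M}
    (hx : x ≠ 0) (h : x = a • x) : a = 1 :=
  smul_left_injective ℂ hx (h.symm.trans (one_smul ℂ x).symm)

/-- `J l(n) = J` for `n` trivial on the orthogonal space -/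
private theorem chirp_Jl {B : SkewH E V} {p : PChar F} (W : WeilRep B p) (D : IsoD B)
    (n : UU B) (hn : ∀ v ∈ orth B D.Y, n.1.1 v = v) (f : SF V ℂ) :
    jMap F D (W.l n f) = jMap F D f := by
  obtain ⟨W1, hW1, -⟩ := weil_sub W D.V1 D.nd
  obtain ⟨C, C', hC, -, -, hCC⟩ := jChar W D W1 hW1
  have hns : n ∈ stabY D := mem_stabY D n fun y hy => by
    rw [hn y (chirp_Yorth D hy)]
    exact hy
  have hl1 : ∀ g : SF D.V1 ℂ, W1.l 1 g = g := fun g => by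
    rw [map_one]
    rfl
  have hC1 : C 1 = 1 := by
    obtain ⟨f0, hf0⟩ := chirp_f0 (F := F) D
    have h1 := hC 1 f0
    have h2 : W.l (1 : stabY D).1 f0 = f0 := by
      show W.l 1 f0 = f0
      rw [map_one]
      rfl
    rw [h2, map_one (indY D), hl1] at h1
    exact chirp_eq1 hf0 h1
  have hCn : C ⟨n, hns⟩ = 1 := by
    rw [hCC ⟨n, hns⟩ 1 (fun y hy => hn y (chirp_Yorth D hy)), hC1]
  have hind : indY D ⟨n, hns⟩ = 1 := by
    apply Subtype.ext
    apply Units.ext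
    apply LinearMap.ext
    intro w
    apply Subtype.ext
    rw [indY_apply]
    show prO B D.V1 D.nd (n.1.1 (w : V)) = (w : V)
    rw [hn _ (D.V1_le w.2)]
    exact prO_of_mem B D.V1 D.nd w.2
  have h1 := hC ⟨n, hns⟩ f
  rw [hCn, hind, hl1, one_smul] at h1
  exact h1

private theorem chirp_Jgeo {B : SkewH E V} (D : IsoD B)
    (n : UU B) (hn : ∀ v ∈ orth B D.Y, n.1.1 v = v) (f : SF V ℂ) :
    jMap F D (geo n.1 f) = jMap F D f := by
  apply SF.ext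
  intro w
  rw [jMap_apply, jMap_apply]
  unfold jFun
  congr 1
  apply SF.ext
  intro y
  rw [SF.pull_apply, SF.pull_apply]
  show f (n.1⁻¹.1 ((w : V) + (y : V))) = f ((w : V) + (y : V))
  have h1 : (w : V) + (y : V) ∈ orth B D.Y :=
    Submodule.add_mem _ (D.V1_le w.2) (chirp_Yorth D y.2)
  have h2 : n.1⁻¹.1 (n.1.1 ((w : V) + (y : V))) = (w : V) + (y : V) :=
    congrArg (fun T : Module.End E V => T ((w : V) + (y : V))) n.1.inv_mul
  rw [hn _ h1] at h2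
  rw [h2]

private theorem chirp_ninv {B : SkewH E V} (D : IsoD B)
    (n : UU B) (hn : ∀ v ∈ orth B D.Y, n.1.1 v = v) :
    ∀ v ∈ orth B D.Y, (n⁻¹ : UU B).1.1 v = v := by
  intro v hv
  have h2 : (n⁻¹ : UU B).1.1 (n.1.1 v) = v :=
    congrArg (fun T : Module.End E V => T v) n.1.inv_mul
  rw [hn _ hv] at h2
  exact h2

theorem chirp_op {B : SkewH E V} {p : PChar F} (W : WeilRep B p) (D : IsoD B)
    (BY : SkewH E D.Y) (ζ : V →ₗ[E] D.Y)
    (hζ : ∀ (y : D.Y) (x : V), BY.ip y (ζ x) = B.ip (y : V) x)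
    (A : MultA (omBi (BY.prod BY) p) (lrOp F D p)) (n n' : UU B)
    (hn : ∀ v ∈ orth B D.Y, n.1.1 v = v) (hn' : ∀ v ∈ orth B D.Y, n'.1.1 v = v)
    (Φ : D.Y × D.Y → ℂ) (hlc : IsLocallyConstant Φ)
    (hΦ : ∀ x x' : V, Φ (ζ x, ζ x') =
      p.ψ (2⁻¹ * om F B (n.1.1 x - x) x - 2⁻¹ * om F B (n'.1.1 x' - x') x')) :
    W.l n ∘ₗ W.r n' = A.m Φ := by
  haveI := lc_V E D.Y
  haveI := td_V F E D.Y
  have hL := chirp_mulL D BY ζ hζ A n n' hn Φ hlc hΦ
  have hR := chirp_mulR D BY ζ hζ A n n' hn' Φ hlc hΦ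
  have hL' : ∀ v f, A.m Φ (Lop B p v f) = Lop B p (n.1.1 v) (A.m Φ f) := fun v f =>
    congrArg (fun T : SF V ℂ →ₗ[ℂ] SF V ℂ => T f) (hL v)
  have hR' : ∀ v f, A.m Φ (Rop B p v f) = Rop B p (n'.1.1 v) (A.m Φ f) := fun v f =>
    congrArg (fun T : SF V ℂ →ₗ[ℂ] SF V ℂ => T f) (hR v)
  have ll : ∀ (g h : UU B) (f : SF V ℂ), W.l g (W.l h f) = W.l (g * h) f := fun g h f => by
    rw [map_mul]
    rfl
  have l1 : ∀ f : SF V ℂ, W.l 1 f = f := fun f => by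
    rw [map_one]
    rfl
  have rr : ∀ (g h : UU B) (f : SF V ℂ), W.r g (W.r h f) = W.r (g * h) f := fun g h f =>
    congrArg (fun T : SF V ℂ →ₗ[ℂ] SF V ℂ => T f) (r_mul W g h).symm
  have r1 : ∀ f : SF V ℂ, W.r 1 f = f := fun f =>
    congrArg (fun T : SF V ℂ →ₗ[ℂ] SF V ℂ => T f) (r_one W)
  have lL : ∀ (g : UU B) x (f : SF V ℂ), W.l g (Lop B p x f) = Lop B p (g.1.1 x) (W.l g f) :=
    fun g x f => congrArg (fun T : SF V ℂ →ₗ[ℂ] SF V ℂ => T f) (W.L_comm g x)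
  have lR : ∀ (g : UU B) x (f : SF V ℂ), W.l g (Rop B p x f) = Rop B p x (W.l g f) :=
    fun g x f => congrArg (fun T : SF V ℂ →ₗ[ℂ] SF V ℂ => T f) (W.R_comm g x)
  have rL : ∀ (g : UU B) x (f : SF V ℂ), W.r g (Lop B p x f) = Lop B p x (W.r g f) :=
    fun g x f => congrArg (fun T : SF V ℂ →ₗ[ℂ] SF V ℂ => T f) (r_L W g x)
  have rR : ∀ (g : UU B) x (f : SF V ℂ), W.r g (Rop B p x f) = Rop B p (g.1.1 x) (W.r g f) :=
    fun g x f => congrArg (fun T : SF V ℂ →ₗ[ℂ] SF V ℂ => T f) (r_R W g x)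
  have hni : ∀ v, (n⁻¹ : UU B).1.1 (n.1.1 v) = v := fun v =>
    congrArg (fun T : Module.End E V => T v) n.1.inv_mul
  have hni' : ∀ v, (n'⁻¹ : UU B).1.1 (n'.1.1 v) = v := fun v =>
    congrArg (fun T : Module.End E V => T v) n'.1.inv_mul
  obtain ⟨c, hc⟩ := schur_lr B p ((W.r n'⁻¹ ∘ₗ (W.l n⁻¹ : SF V ℂ →ₗ[ℂ] SF V ℂ)) ∘ₗ A.m Φ)
    (fun x => by
      apply LinearMap.ext
      intro f
      show W.r n'⁻¹ (W.l n⁻¹ (A.m Φ (Lop B p x f))) =
        Lop B p x (W.r n'⁻¹ (W.l n⁻¹ (A.m Φ f)))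
      rw [hL', lL, hni, rL])
    (fun x => by
      apply LinearMap.ext
      intro f
      show W.r n'⁻¹ (W.l n⁻¹ (A.m Φ (Rop B p x f))) =
        Rop B p x (W.r n'⁻¹ (W.l n⁻¹ (A.m Φ f)))
      rw [hR', lR, rR, hni'])
  have hA : ∀ f, A.m Φ f = c • W.l n (W.r n' f) := by
    intro f
    have h1 : W.r n'⁻¹ (W.l n⁻¹ (A.m Φ f)) = c • f :=
      congrArg (fun T : SF V ℂ →ₗ[ℂ] SF V ℂ => T f) hc
    have h2 : W.l n (W.r n' (W.r n'⁻¹ (W.l n⁻¹ (A.m Φ f)))) = A.m Φ f := by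
      rw [rr, mul_inv_cancel, r1, ll, mul_inv_cancel, l1]
    rw [← h2, h1, map_smul, map_smul]
  -- apply J
  have hJr : ∀ f, jMap F D (W.r n' f) = jMap F D f := by
    intro f
    show jMap F D (W.l n'⁻¹ (geo n'.1 f)) = jMap F D f
    rw [chirp_Jl W D n'⁻¹ (chirp_ninv D n' hn'), chirp_Jgeo D n' hn']
  have hJA : ∀ f, jMap F D (A.m Φ f) = jMap F D f := by
    intro f
    have h1 := multA_zero (uc_V F E (D.Y × D.Y)) A (jMap F D) (fun a f => by
      show jMap F D (Lop B p ((a.1 : D.Y) : V) (Rop B p ((a.2 : D.Y) : V) f)) = jMap F D f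
      rw [jMap_L D p _ (chirp_Yorth D a.1.2), jMap_R D p _ (chirp_Yorth D a.2.2)]
      rw [chirp_L0 (B.restrict D.V1 D.nd) p (Subtype.ext (D.pr_Y a.1.2)),
        chirp_R0 (B.restrict D.V1 D.nd) p (Subtype.ext (D.pr_Y a.2.2))]) Φ hlc f
    have h2 : Φ 0 = 1 := by
      have h3 := hΦ 0 0
      rw [map_zero, map_zero, map_zero, sub_zero, chirp_zl, mul_zero, sub_zero,
        chirp_psi0] at h3
      exact h3
    rw [h2, one_smul] at h1
    exact h1
  have hc1 : c = 1 := by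
    obtain ⟨f0, hf0⟩ := chirp_f0 (F := F) D
    have h1 := hJA f0
    rw [hA, map_smul, chirp_Jl W D n hn, hJr] at h1
    exact chirp_eq1 hf0 h1.symm
  apply LinearMap.ext
  intro f
  rw [hA, hc1, one_smul]
  rfl

private theorem chirp_omc {X : Type*} [TopologicalSpace X] (B : SkewH E V) {a b : X → V}
    (ha : Continuous a) (hb : Continuous b) : Continuous (fun x => om F B (a x) (b x)) := by
  classical
  let β := Module.finBasis E V
  have h : (fun x => B.ip (a x) (b x)) =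
      fun x => ∑ i, β.repr (a x) i * B.ip (β i) (b x) := by
    funext x
    conv_lhs => rw [← β.sum_repr (a x)]
    have h1 : ∀ (s : Finset (Fin (Module.finrank E V))) (w : V),
        B.ip (∑ i ∈ s, β.repr (a x) i • β i) w = ∑ i ∈ s, β.repr (a x) i * B.ip (β i) w := by
      intro s w
      induction s using Finset.induction_on with
      | empty =>
        rw [Finset.sum_empty, Finset.sum_empty]
        have h2 := B.smul_left 0 0 w
        rw [zero_smul, zero_mul] at h2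
        exact h2
      | insert i s hi ih =>
        rw [Finset.sum_insert hi, Finset.sum_insert hi, B.add_left, B.smul_left, ih]
    exact h1 _ _
  have h2 : Continuous (fun x => B.ip (a x) (b x)) := by
    rw [h]
    refine continuous_finset_sum _ fun i _ => ?_
    have h3 : Continuous (fun v : V => β.repr v i) := by
      have h4 : (fun v : V => β.repr v i) = fun v => (β.coord i) v := rfl
      rw [h4]
      exact LinearMap.continuous_of_finiteDimensional _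
    exact (h3.comp ha).mul ((continuous_ip_right F B (β i)).comp hb)
  exact (continuous_trace F E).comp h2

/-- the function `Φ` exists -/
theorem chirp_fun {B : SkewH E V} (p : PChar F) (D : IsoD B) (ζ : V →ₗ[E] D.Y)
    (hs : Function.Surjective ζ) (hk : ∀ x, ζ x = 0 ↔ x ∈ orth B D.Y) (n n' : UU B)
    (hn : ∀ v ∈ orth B D.Y, n.1.1 v = v) (hn' : ∀ v ∈ orth B D.Y, n'.1.1 v = v) :
    ∃ Φ : D.Y × D.Y → ℂ, IsLocallyConstant Φ ∧ ∀ x x' : V, Φ (ζ x, ζ x') =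
      p.ψ (2⁻¹ * om F B (n.1.1 x - x) x - 2⁻¹ * om F B (n'.1.1 x' - x') x') := by
  obtain ⟨σ, hσ⟩ := ζ.exists_rightInverse_of_surjective (LinearMap.range_eq_top.2 hs)
  have hσ' : ∀ y, ζ (σ y) = y := fun y => congrArg (fun T : D.Y →ₗ[E] D.Y => T y) hσ
  have hcσ : Continuous σ := LinearMap.continuous_of_finiteDimensional _
  have hq : ∀ (m : UU B), Continuous (fun x : V => om F B (m.1.1 x - x) x) := by
    intro m
    have hm : Continuous (fun x : V => m.1.1 x) := LinearMap.continuous_of_finiteDimensional _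
    exact chirp_omc B (hm.sub continuous_id) continuous_id
  have key : ∀ (m : UU B), (∀ v ∈ orth B D.Y, m.1.1 v = v) → ∀ x,
      om F B (m.1.1 (σ (ζ x)) - σ (ζ x)) (σ (ζ x)) = om F B (m.1.1 x - x) x := by
    intro m hm x
    have h1 : x - σ (ζ x) ∈ orth B D.Y := by
      rw [← hk, map_sub, hσ', sub_self]
    obtain ⟨w, hw⟩ : ∃ w, w = x - σ (ζ x) := ⟨_, rfl⟩
    rw [← hw] at h1
    obtain ⟨x1, hx1⟩ : ∃ x1, x1 = σ (ζ x) := ⟨_, rfl⟩
    rw [← hx1] at hw ⊢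
    have e1 : x = x1 + w := by
      rw [hw]
      abel
    have e2 : m.1.1 x - x = m.1.1 x1 - x1 := by
      rw [e1, map_add, hm w h1]
      abel
    rw [e2, e1, om_add_right, chirp_orth D (chirp_ran D m hm x1) h1, add_zero]
  refine ⟨fun z => p.ψ (2⁻¹ * om F B (n.1.1 (σ z.1) - σ z.1) (σ z.1) -
    2⁻¹ * om F B (n'.1.1 (σ z.2) - σ z.2) (σ z.2)), ?_, fun x x' => ?_⟩
  · refine p.lc.comp_continuous ?_
    exact (continuous_const.mul ((hq n).comp (hcσ.comp continuous_fst))).sub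
      (continuous_const.mul ((hq n').comp (hcσ.comp continuous_snd)))
  · show p.ψ (2⁻¹ * om F B (n.1.1 (σ (ζ x)) - σ (ζ x)) (σ (ζ x)) -
      2⁻¹ * om F B (n'.1.1 (σ (ζ x')) - σ (ζ x')) (σ (ζ x'))) = _
    rw [key n hn, key n' hn']

end

end Pool.Agent.Work.MP_dd0ddf_al.OC
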