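import Pool.Agent.Work.MP_dd0ddf_al.OC.WrRep
import Pool.Agent.Work.MP_dd0ddf_al.OC.FdLoc
import Pool.Agent.Work.MP_dd0ddf_al.OC.LinChar
import Pool.Agent.Work.MP_dd0ddf_al.OC.WfWall

/-!
# MP_dd0ddf_al, module GrpLoc: localisation of the group level theorem along the characteristic polynomial of g g^*

`InG P T`: T invariant, antisymmetric, supported on `{g : charpoly(g g^*) = P}`, `P ∈ F[x]`.
`grp_loc`: `localise` with `π g = (coefficients of charpoly (g g^*)) : GV → (ℕ → E)` (ts_seqE; continuous_charcoef, continuous_sg), index type `Option (UU B × UU B)`: `act h₁ h₂` (scalar 1), `Θ` (scalar -1).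
π is invariant: `charpoly(h₁ s h₁⁻¹) = charpoly s`; `charpoly(θ(g)θ(g)^*) = charpoly(conjτ (g^* g)) = conj charpoly(g^* g) = conj charpoly(g g^*) = charpoly(g g^*)` (self-adjoint; charpoly_conjτ, charpoly_adj,
`charpoly (ab) = charpoly (ba)`).  A functional on a fibre gives by composition with `restr` a functional on `SF (GV E V) (SF V ℂ)` supported on the closed fibre; the polynomial has coefficients in F (fixed by star; exists_eta /
`star x = x → x ∈ F`), is monic of degree n; nonzero constant coefficient because g is invertible.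
-/

set_option linter.unusedSectionVars false
set_option linter.style.haveILetI false

namespace Pool.Agent.Work.MP_dd0ddf_al.OC

noncomputable section

universe u

variable {F E : Type u} [NontriviallyNormedField F] [IsUltrametricDist F] [ProperSpace F]
  [NeZero (2 : F)] [NontriviallyNormedField E] [NormedAlgebra F E] [ProperSpace E] [StarRing E]
  [QExt F E] [MeasurableSpace E] [BorelSpace E]
variable {V : Type u} [AddCommGroup V] [Module E V] [Module.Finite E V] [TopologicalSpace V]
  [IsTopologicalAddGroup V] [T2Space V] [ContinuousSMul E V]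

/-- invariant antisymmetric functionals supported on `{charpoly(g g^*) = P}` -/
structure InG {B : SkewH E V} {p : PChar F} (W : WeilRep B p) (τ : AntiU B) (P : Polynomial F)
    (T : SF (GV E V) (SF V ℂ) →ₗ[ℂ] ℂ) : Prop where
  inv : GInv W T
  anti : GAnti F τ T
  supp : ∀ G : SF (GV E V) (SF V ℂ),
    (∀ g, LinearMap.charpoly (sg B g).1 = P.map (algebraMap F E) → G g = 0) → T G = 0

private theorem grploc_comm (g h : Module.End E V) :
    LinearMap.charpoly (g * h) = LinearMap.charpoly (h * g) := by
  classical
  let b := Module.finBasis E V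
  rw [← LinearMap.charpoly_toMatrix (g * h) b, ← LinearMap.charpoly_toMatrix (h * g) b,
    LinearMap.toMatrix_mul, LinearMap.toMatrix_mul, Matrix.charpoly_mul_comm]

private theorem grploc_conj (h : GV E V) (X : Module.End E V) :
    LinearMap.charpoly (h.1 * X * h⁻¹.1) = LinearMap.charpoly X := by
  rw [grploc_comm]
  have h1 : h⁻¹.1 * h.1 = 1 := h.inv_mul
  rw [← mul_assoc, h1, one_mul]

private theorem grploc_star (B : SkewH E V) (g : GV E V) :
    (LinearMap.charpoly (sg B g).1).map (starRingEnd E) = LinearMap.charpoly (sg B g).1 := by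
  have h1 := charpoly_adj B (sg B g).1
  rw [sa_adj B (sg B g).2] at h1
  exact h1.symm

/-- invariance of the characteristic polynomial -/
private theorem grploc_pi (B : SkewH E V) (τ : AntiU B) (i : Option (UU B × UU B)) (g : GV E V) :
    LinearMap.charpoly (sg B ((i.elim (thHomeo F τ) fun γ => lrHomeo γ.1.1 γ.2.1) g)).1 =
      LinearMap.charpoly (sg B g).1 := by
  cases i with
  | none =>
    show LinearMap.charpoly (sg B (thG τ g)).1 = _
    rw [sg_theta, charpoly_conjτ, grploc_comm]
    exact grploc_star B g
  | some γ =>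
    show LinearMap.charpoly (sg B (γ.1.1⁻¹ * g * γ.2.1)).1 = _
    have h1 : sg B ((gC B).act (γ.1⁻¹, γ.2⁻¹) g) = saConj B γ.1⁻¹ (sg B g) :=
      sg_act B γ.1⁻¹ γ.2⁻¹ g
    have h2 : (gC B).act (γ.1⁻¹, γ.2⁻¹) g = γ.1.1⁻¹ * g * γ.2.1 := by
      show (γ.1⁻¹).1 * g * ((γ.2⁻¹).1)⁻¹ = _
      rw [Subgroup.coe_inv, Subgroup.coe_inv, inv_inv]
    rw [← h2, h1]
    show LinearMap.charpoly ((γ.1⁻¹).1.1 * (sg B g).1 * (γ.1⁻¹).1⁻¹.1) = _
    rw [grploc_conj]

/-- the characteristic polynomial of `g g^*` has coefficients in `F` -/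
private theorem grploc_poly (B : SkewH E V) (g : GV E V) : ∃ P : Polynomial F, P.Monic ∧
    P.natDegree = Module.finrank E V ∧ P.coeff 0 ≠ 0 ∧
    LinearMap.charpoly (sg B g).1 = P.map (algebraMap F E) := by
  obtain ⟨-, -, -, -, -, hfix⟩ := exists_eta F E
  have h1 : LinearMap.charpoly (sg B g).1 ∈ Polynomial.lifts (algebraMap F E) := by
    rw [Polynomial.lifts_iff_coeff_lifts]
    intro n
    have h2 : star ((LinearMap.charpoly (sg B g).1).coeff n) =
        (LinearMap.charpoly (sg B g).1).coeff n := by
      have h3 := congrArg (fun p => Polynomial.coeff p n) (grploc_star B g)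
      simp only [Polynomial.coeff_map, starRingEnd_apply] at h3
      exact h3
    obtain ⟨f, hf⟩ := hfix _ h2
    exact ⟨f, hf.symm⟩
  obtain ⟨P, hP⟩ := (Polynomial.mem_lifts _).1 h1
  refine ⟨P, ?_, ?_, ?_, hP.symm⟩
  · have h2 : (P.map (algebraMap F E)).Monic := by
      rw [hP]
      exact LinearMap.charpoly_monic _
    exact Polynomial.monic_of_injective (algebraMap F E).injective h2
  · rw [← Polynomial.natDegree_map (algebraMap F E) (p := P), hP, LinearMap.charpoly_natDegree]
  · intro h0
    have h2 : (LinearMap.charpoly (sg B g).1).coeff 0 = 0 := by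
      rw [← hP, Polynomial.coeff_map, h0, map_zero]
    have h3 : LinearMap.det (sg B g).1 = 0 := by
      rw [LinearMap.det_eq_sign_charpoly_coeff, h2, mul_zero]
    have h4 : IsUnit (sg B g).1 := by
      have h5 : IsUnit (adj B g.1) := by
        refine ⟨⟨adj B g.1, adj B g⁻¹.1, ?_, ?_⟩, rfl⟩
        · rw [← adj_mul]
          have : g⁻¹.1 * g.1 = 1 := g.inv_mul
          rw [this, adj_one]
        · rw [← adj_mul]
          have : g.1 * g⁻¹.1 = 1 := g.mul_inv
          rw [this, adj_one]
      exact g.isUnit.mul h5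
    have h6 := h4.map (LinearMap.det : Module.End E V →* E)
    rw [h3] at h6
    exact not_isUnit_zero h6

theorem grp_loc {B : SkewH E V} {p : PChar F} (W : WeilRep B p)
    (h : ∀ (τ : AntiU B) (P : Polynomial F) (T : SF (GV E V) (SF V ℂ) →ₗ[ℂ] ℂ), P.Monic →
      P.natDegree = Module.finrank E V → P.coeff 0 ≠ 0 → InG W τ P T → T = 0) :
    GrpGood W := by
  classical
  haveI := td_GV F E V
  haveI : TotallySeparatedSpace (ℕ → E) := ts_seqE F ℕ
  intro τ T hT hT'
  let π : GV E V → (ℕ → E) := fun g i => (LinearMap.charpoly (sg B g).1).coeff i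
  have hπ : Continuous π := continuous_pi fun i =>
    (continuous_charcoef i).comp (continuous_subtype_val.comp (continuous_sg F B))
  let a : Option (UU B × UU B) → GV E V ≃ₜ GV E V := fun i =>
    i.elim (thHomeo F τ) fun γ => lrHomeo γ.1.1 γ.2.1
  have ha : ∀ i x, π (a i x) = π x := by
    intro i x
    funext j
    show (LinearMap.charpoly (sg B (a i x)).1).coeff j = _
    rw [grploc_pi]
  refine localise π hπ a ha (fun i => i.elim (SF.comp (negτ F τ)) fun γ => W.l γ.1 ∘ₗ W.r γ.2)
    (fun i => i.elim (-1) fun _ => 1) ?_ T ?_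
  · intro y S hS
    by_cases hne : ∃ g0, π g0 = y
    · obtain ⟨g0, hg0⟩ := hne
      obtain ⟨P, hPm, hPd, hP0, hP⟩ := grploc_poly (F := F) B g0
      have hcl : IsClosed {x | π x = y} := isClosed_eq hπ continuous_const
      have hmem : ∀ g, π g = y ↔ LinearMap.charpoly (sg B g).1 = P.map (algebraMap F E) := by
        intro g
        rw [← hg0, ← hP]
        constructor
        · intro h1
          exact Polynomial.ext fun i => congrFun h1 i
        · intro h1
          funext i
          show (LinearMap.charpoly (sg B g).1).coeff i = _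
          rw [h1]
      have hT0 : S ∘ₗ (SF.restr {x | π x = y} hcl : SF (GV E V) (SF V ℂ) →ₗ[ℂ] _) = 0 := by
        refine h τ P _ hPm hPd hP0 ⟨fun h₁ h₂ G => ?_, fun G => ?_, fun G hG => ?_⟩
        · have h1 := hS (some (h₁, h₂)) (SF.restr {x | π x = y} hcl G)
          simp only [Option.elim_some, one_mul] at h1
          refine Eq.trans ?_ h1
          show S _ = S _
          congr 1
        · have h1 := hS none (SF.restr {x | π x = y} hcl G)
          simp only [Option.elim_none, neg_mul, one_mul] at h1
          refine Eq.trans ?_ h1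
          show S _ = S _
          congr 1
        · show S _ = 0
          have h1 : SF.restr {x | π x = y} hcl G = 0 := by
            apply SF.ext
            intro z
            exact hG z.1 ((hmem z.1).1 z.2)
          rw [h1, map_zero]
      refine LinearMap.ext fun g => ?_
      obtain ⟨f, hf⟩ := restr_surjective {x | π x = y} hcl g
      have h2 := congrArg (fun R : SF (GV E V) (SF V ℂ) →ₗ[ℂ] ℂ => R f) hT0
      have h3 : S (SF.restr {x | π x = y} hcl f) = 0 := h2
      rw [hf] at h3
      exact h3
    · refine LinearMap.ext fun g => ?_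
      have h1 : g = 0 := by
        apply SF.ext
        intro z
        exact absurd ⟨z.1, z.2⟩ hne
      rw [h1, map_zero, map_zero]
  · intro i f
    cases i with
    | none =>
      show T (Theta F τ f) = -1 * T f
      rw [hT' f]
      ring
    | some γ =>
      show T (W.act γ.1 γ.2 f) = 1 * T f
      rw [hT γ.1 γ.2 f, one_mul]

end

end Pool.Agent.Work.MP_dd0ddf_al.OC
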