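import Mathlib

/-!
# MP_dd0ddf_al, module FrTrace: trace of operators of finite rank

`ftr A` = trace of A restricted to its range.  `ftr_eq`: for a finite dimensional N containing the range, the trace of A on N is the trace on the range (Mathlib: LinearMap.trace_restrict_eq_of_forall_mem).
`ftr_comm`: N = range A, M = B(N) ∋ range (B A): `ftr (A B) = tr_N (A|_M ∘ B|_N)`, `ftr (B A) = tr_M (B|_N ∘ A|_M)`; trace_comp_comm'.
`ftr_rank_one`: the range of `w' ↦ ξ w' • w` is in the line of w (w = 0 trivial).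
`ftr_nondeg`: choose u with A u ≠ 0, a functional η with η (A u) = 1 and `B = w' ↦ η w' • u`: `B A = (η ∘ A) ⊗ u`, trace η (A u) = 1.
-/

set_option linter.unusedSectionVars false
set_option linter.style.haveILetI false

namespace Pool.Agent.Work.MP_dd0ddf_al.OC

noncomputable section

variable {P : Type*} [AddCommGroup P] [Module ℂ P]

/-- the trace of an operator of finite rank -/
def ftr (A : Module.End ℂ P) : ℂ :=
  LinearMap.trace ℂ (LinearMap.range A) (A.rangeRestrict ∘ₗ (LinearMap.range A).subtype)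

theorem ftr_eq (A : Module.End ℂ P) (N : Submodule ℂ P) [Module.Finite ℂ N]
    (h : ∀ w, A w ∈ N) : ftr A = LinearMap.trace ℂ N ((A.codRestrict N h) ∘ₗ N.subtype) := by
  have hR : LinearMap.range A ≤ N := by
    rintro _ ⟨w, rfl⟩
    exact h w
  haveI : Module.Finite ℂ (LinearMap.range A) := Submodule.finiteDimensional_of_le hR
  have hc := LinearMap.trace_comp_comm' (A.rangeRestrict ∘ₗ N.subtype) (Submodule.inclusion hR)
  have e1 : (Submodule.inclusion hR) ∘ₗ (A.rangeRestrict ∘ₗ N.subtype) =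
      (A.codRestrict N h) ∘ₗ N.subtype := by
    ext x
    rfl
  have e2 : (A.rangeRestrict ∘ₗ N.subtype) ∘ₗ (Submodule.inclusion hR) =
      A.rangeRestrict ∘ₗ (LinearMap.range A).subtype := by
    ext x
    rfl
  rw [e1, e2] at hc
  exact hc.symm

theorem ftr_add (A B : Module.End ℂ P) (hA : Module.Finite ℂ (LinearMap.range A))
    (hB : Module.Finite ℂ (LinearMap.range B)) : ftr (A + B) = ftr A + ftr B := by
  let N : Submodule ℂ P := LinearMap.range A ⊔ LinearMap.range B
  haveI : Module.Finite ℂ N := Submodule.finite_sup _ _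
  have hAN : ∀ w, A w ∈ N := fun w => (le_sup_left : LinearMap.range A ≤ N) ⟨w, rfl⟩
  have hBN : ∀ w, B w ∈ N := fun w => (le_sup_right : LinearMap.range B ≤ N) ⟨w, rfl⟩
  have hS : ∀ w, (A + B) w ∈ N := fun w => N.add_mem (hAN w) (hBN w)
  rw [ftr_eq A N hAN, ftr_eq B N hBN, ftr_eq (A + B) N hS, ← map_add]
  congr 1

theorem ftr_smul (c : ℂ) (A : Module.End ℂ P) (hA : Module.Finite ℂ (LinearMap.range A)) :
    ftr (c • A) = c * ftr A := by
  have hA' : ∀ w, A w ∈ LinearMap.range A := fun w => ⟨w, rfl⟩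
  have hS : ∀ w, (c • A) w ∈ LinearMap.range A := fun w => ⟨c • w, by simp⟩
  rw [ftr_eq A _ hA', ftr_eq (c • A) _ hS, ← smul_eq_mul, ← map_smul]
  congr 1

theorem ftr_comm (A B : Module.End ℂ P) (hA : Module.Finite ℂ (LinearMap.range A)) :
    ftr (A * B) = ftr (B * A) := by
  let N : Submodule ℂ P := LinearMap.range A
  let M : Submodule ℂ P := N.map B
  haveI : Module.Finite ℂ N := hA
  haveI : Module.Finite ℂ M := Module.Finite.map N B
  have hN : ∀ w, A w ∈ N := fun w => ⟨w, rfl⟩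
  have hM : ∀ w, (B * A) w ∈ M := fun w => ⟨A w, hN w, rfl⟩
  have hN' : ∀ w, (A * B) w ∈ N := fun w => ⟨B w, rfl⟩
  rw [ftr_eq (A * B) N hN', ftr_eq (B * A) M hM]
  let f : N →ₗ[ℂ] M := (B ∘ₗ N.subtype).codRestrict M (fun w => ⟨w, w.2, rfl⟩)
  let g : M →ₗ[ℂ] N := (A ∘ₗ M.subtype).codRestrict N (fun w => hN w)
  have hc := LinearMap.trace_comp_comm' f g
  have e1 : g ∘ₗ f = ((A * B).codRestrict N hN') ∘ₗ N.subtype := by
    ext x
    rfl
  have e2 : f ∘ₗ g = ((B * A).codRestrict M hM) ∘ₗ M.subtype := by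
    ext x
    rfl
  rw [e1, e2] at hc
  exact hc

theorem ftr_rank_one (w : P) (ξ : Module.Dual ℂ P) : ftr (ξ.smulRight w) = ξ w := by
  let N : Submodule ℂ P := ℂ ∙ w
  have h : ∀ v, (ξ.smulRight w) v ∈ N := fun v =>
    Submodule.mem_span_singleton.2 ⟨ξ v, rfl⟩
  rw [ftr_eq _ N h]
  have e : ((ξ.smulRight w).codRestrict N h) ∘ₗ N.subtype = ξ w • LinearMap.id := by
    ext ⟨x, hx⟩
    obtain ⟨a, rfl⟩ := Submodule.mem_span_singleton.1 hx
    simp [smul_smul, mul_comm]
  rw [e, map_smul, LinearMap.trace_id]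
  by_cases hw : w = 0
  · subst hw
    simp
  · rw [finrank_span_singleton hw]
    simp

theorem ftr_nondeg (A : Module.End ℂ P) (hA : A ≠ 0) :
    ∃ (u : P) (η : Module.Dual ℂ P), ftr ((η.smulRight u) * A) ≠ 0 := by
  obtain ⟨u, hu⟩ : ∃ u, A u ≠ 0 := by
    by_contra hcon
    exact hA (LinearMap.ext fun u => not_not.1 fun h => hcon ⟨u, h⟩)
  obtain ⟨η, hη⟩ : ∃ η : Module.Dual ℂ P, η (A u) ≠ 0 := by
    by_contra hcon
    exact hu ((Module.forall_dual_apply_eq_zero_iff ℂ (A u)).1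
      fun φ => not_not.1 fun h => hcon ⟨φ, h⟩)
  refine ⟨u, η, ?_⟩
  have e : (η.smulRight u) * A = (η ∘ₗ A).smulRight u := by
    ext x
    rfl
  rw [e, ftr_rank_one]
  exact hη

end

end Pool.Agent.Work.MP_dd0ddf_al.OC
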