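import Pool.Agent.Work.MP_dd0ddf_al.OC.HaarApi

/-!
# MP_dd0ddf_al, module CurAux: functions on a product as functions with values in functions

Auxiliary file: `SF A (SF R C) = SF (A × R) C`, and operators with a translation invariant functional.
-/

set_option linter.unusedSectionVars false
set_option linter.style.haveILetI false

namespace Pool.Agent.Work.MP_dd0ddf_al.OC

noncomputable section

section

variable {A R : Type*} [TopologicalSpace A] [TopologicalSpace R]

private theorem curaux_range {X B : Type*} [TopologicalSpace X] [AddCommGroup B] [Module ℂ B]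
    (f : SF X B) : Set.Finite (Set.range f.1) := by
  letI : TopologicalSpace B := ⊥
  haveI : DiscreteTopology B := ⟨rfl⟩
  have h4 : Continuous f.1 := f.2.1.continuous
  have h3 : Set.Finite (f.1 '' tsupport f.1) :=
    (f.2.2.image_of_continuousOn h4.continuousOn).finite_of_discrete
  refine (h3.union (Set.finite_singleton 0)).subset ?_
  rintro _ ⟨x, rfl⟩
  by_cases hx : x ∈ tsupport f.1
  · exact Or.inl ⟨x, hx, rfl⟩
  · exact Or.inr (image_eq_zero_of_notMem_tsupport hx)

/-- `(a, r) ↦ f a r` -/
def uncur [R1Space A] [R1Space R] : SF A (SF R ℂ) →ₗ[ℂ] SF (A × R) ℂ where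
  toFun f := ⟨fun q => (f q.1).1 q.2, by
    constructor
    · rw [IsLocallyConstant.iff_eventually_eq]
      rintro ⟨a, r⟩
      have h1 : ∀ᶠ q : A × R in nhds (a, r), f q.1 = f a :=
        (continuous_fst.tendsto (a, r)).eventually
          ((IsLocallyConstant.iff_eventually_eq _).mp f.2.1 a)
      have h2 : ∀ᶠ q : A × R in nhds (a, r), (f a).1 q.2 = (f a).1 r :=
        (continuous_snd.tendsto (a, r)).eventually
          ((IsLocallyConstant.iff_eventually_eq _).mp (f a).2.1 r)
      filter_upwards [h1, h2] with q e1 e2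
      show (f q.1).1 q.2 = (f a).1 r
      rw [e1, e2]
    · have hK : IsCompact (⋃ b ∈ Set.range f.1, tsupport b.1) :=
        (curaux_range f).isCompact_biUnion fun b _ => b.2.2.isCompact
      refine HasCompactSupport.of_support_subset_isCompact (f.2.2.isCompact.prod hK) ?_
      rintro ⟨a, r⟩ hq
      have hne : (f a).1 r ≠ 0 := hq
      refine ⟨subset_tsupport _ fun h0 => hne ?_, ?_⟩
      · have h1 : f a = 0 := h0
        rw [h1]
        rfl
      · exact Set.mem_biUnion ⟨a, rfl⟩ (subset_tsupport _ hne)⟩
  map_add' f g := by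
    apply SF.ext
    rintro ⟨a, r⟩
    rfl
  map_smul' c f := by
    apply SF.ext
    rintro ⟨a, r⟩
    rfl

theorem uncur_apply [R1Space A] [R1Space R] (f : SF A (SF R ℂ)) (a : A) (r : R) :
    uncur f (a, r) = (f a).1 r := rfl

theorem curaux_slice_ev [T2Space A] {B : Type*} [AddCommGroup B] [Module ℂ B]
    (f : SF (A × R) B) (x : A) : ∀ᶠ x' in nhds x, SF.slice x' f = SF.slice x f := by
  have hK : IsCompact (Prod.snd '' tsupport f.1) := f.2.2.image continuous_snd
  have hev : ∀ᶠ x' in nhds x, ∀ y ∈ Prod.snd '' tsupport f.1, f.1 (x', y) = f.1 (x, y) := by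
    refine hK.eventually_forall_of_forall_eventually ?_
    intro y _
    have h1 := (IsLocallyConstant.iff_eventually_eq _).mp f.2.1 (x, y)
    have c2 : Continuous fun z : A × R => ((x, z.2) : A × R) :=
      continuous_const.prodMk continuous_snd
    have h2 : ∀ᶠ z : A × R in nhds (x, y), f.1 (x, z.2) = f.1 (x, y) := by
      have : Filter.Tendsto (fun z : A × R => ((x, z.2) : A × R)) (nhds (x, y)) (nhds (x, y)) :=
        c2.tendsto (x, y)
      exact this.eventually h1
    filter_upwards [h1, h2] with z e1 e2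
    show f.1 (z.1, z.2) = f.1 (x, z.2)
    rw [e2]
    exact e1
  filter_upwards [hev] with x' hx'
  apply SF.ext
  intro y
  show f.1 (x', y) = f.1 (x, y)
  by_cases hy : y ∈ Prod.snd '' tsupport f.1
  · exact hx' y hy
  · have h0 : ∀ x'' : A, f.1 (x'', y) = 0 := by
      intro x''
      apply image_eq_zero_of_notMem_tsupport
      intro h
      exact hy ⟨(x'', y), h, rfl⟩
    rw [h0, h0]

/-- `a ↦ g (a, ·)` -/
def cur [T2Space A] (g : SF (A × R) ℂ) : SF A (SF R ℂ) :=
  ⟨fun a => SF.slice a g, by
    constructor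
    · rw [IsLocallyConstant.iff_eventually_eq]
      exact fun x => curaux_slice_ev g x
    · refine HasCompactSupport.of_support_subset_isCompact (g.2.2.image continuous_fst) ?_
      intro a ha
      by_contra hn
      apply ha
      apply SF.ext
      intro r
      show g.1 (a, r) = 0
      apply image_eq_zero_of_notMem_tsupport
      intro h
      exact hn ⟨(a, r), h, rfl⟩⟩

theorem cur_apply [T2Space A] (g : SF (A × R) ℂ) (a : A) : cur g a = SF.slice a g := rfl

theorem uncur_cur [T2Space A] [R1Space R] (g : SF (A × R) ℂ) : uncur (cur g) = g := by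
  apply SF.ext
  rintro ⟨a, r⟩
  rfl

theorem cur_uncur [T2Space A] [R1Space R] (f : SF A (SF R ℂ)) : cur (uncur f) = f := by
  apply SF.ext
  intro a
  rfl

end

/-- a functional on `SF (A × R) ℂ` which is invariant under translations in `A` is multiplied by the
modulus under automorphisms of `A` -/
theorem curaux_aut {A R : Type*} [AddCommGroup A] [TopologicalSpace A] [IsTopologicalAddGroup A]
    [LocallyCompactSpace A] [T2Space A] [TotallyDisconnectedSpace A] [TopologicalSpace R]
    [R1Space R] (T : SF (A × R) ℂ →ₗ[ℂ] ℂ)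
    (hT : ∀ (a : A) (f : SF (A × R) ℂ),
      T (SF.comp ((Homeomorph.addRight a).prodCongr (Homeomorph.refl R)) f) = T f)
    (α : TAut A) (f : SF (A × R) ℂ) :
    T (SF.comp (α.h.prodCongr (Homeomorph.refl R)) f) = (hmod α : ℂ) * T f := by
  obtain ⟨φ, hφ⟩ := hI_unique (T ∘ₗ (uncur : SF A (SF R ℂ) →ₗ[ℂ] SF (A × R) ℂ)) (fun a g => by
    have h := hT a (uncur g)
    show T (uncur (SF.comp (Homeomorph.addRight a) g)) = T (uncur g)
    rw [← h]
    rfl)
  have h1 : T f = φ (hI (cur f)) := by
    rw [← hφ]
    show T f = T (uncur (cur f))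
    rw [uncur_cur]
  have h2 : T (SF.comp (α.h.prodCongr (Homeomorph.refl R)) f) =
      φ (hI (SF.comp α.h (cur f))) := by
    rw [← hφ]
    rfl
  rw [h2, hI_comp_aut, map_smul, ← h1, smul_eq_mul]

end

end Pool.Agent.Work.MP_dd0ddf_al.OC
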