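import Pool.Agent.Work.MP_dd0ddf_al.OC.CycDec
import Pool.Agent.Work.MP_dd0ddf_al.OC.CycChar

/-!
# MP_dd0ddf_al, module CycCount: countably many U(V)-orbits of self-adjoint operators with given characteristic polynomial (9.3)

(1) To `X` and a cyclic decomposition `D` attach the discrete data `(m, q, k)`; for given characteristic polynomial there are countably many of them (the `q i` are among the finitely many monic irreducible
factors over `F`).  Operators with the same data are conjugate under `GL(V)`: `cyccount_conj`.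
(2) Fix `X0`.  For `g ∈ GL(V)` with `g X0 g⁻¹` self-adjoint put `A_g = g^* g`; it commutes with `X0`.  If `A_g` is close to `A_1 = A_{g1}` then `N = A_1⁻¹ A_g = C²` where `C` is a limit of polynomials in `N`
(`cyccount_sqrt`), so `C` commutes with `X0` and is self-adjoint for the form `⟨g1 v, g1 w⟩`; then `h = g C⁻¹ g1⁻¹` is unitary and conjugates `g1 X0 g1⁻¹` to `g X0 g⁻¹`.
(3) `End(V)` is second countable, so countably many `g` suffice (Lindelof).
-/

set_option linter.unusedSectionVars false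
set_option linter.style.haveILetI false

namespace Pool.Agent.Work.MP_dd0ddf_al.OC

noncomputable section

universe u

private theorem cyccount_sqrt {K R : Type*} [NontriviallyNormedField K] [NormedRing R]
    [NormedAlgebra K R] [CompleteSpace R] (h2 : (2 : K) ≠ 0) : ∃ δ : ℝ, 0 < δ ∧
      ∀ M : R, ‖M‖ < δ → ∀ S : Set R, IsClosed S → (0 : R) ∈ S →
        (∀ Z ∈ S, (2 : K)⁻¹ • (M - Z * Z) ∈ S) → ∃ Y ∈ S, (1 + Y) * (1 + Y) = 1 + M := by
  set c : ℝ := ‖(2 : K)⁻¹‖ with hc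
  have hc0 : 0 < c := norm_pos_iff.2 (inv_ne_zero h2)
  set r : ℝ := 1 / (4 * c) with hr
  have hr0 : 0 < r := by positivity
  have hcr : c * r = 1 / 4 := by rw [hr]; field_simp
  refine ⟨2 * r ^ 2, by positivity, fun M hM S hS h0 hstep => ?_⟩
  set f : R → R := fun Z => (2 : K)⁻¹ • (M - Z * Z) with hf
  set y : ℕ → R := fun n => f^[n] 0 with hy
  have hy1 : ∀ n, y (n + 1) = (2 : K)⁻¹ • (M - y n * y n) := fun n =>
    Function.iterate_succ_apply' f n 0
  have hyS : ∀ n, y n ∈ S := by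
    intro n
    induction n with
    | zero => exact h0
    | succ n ih => rw [hy1]; exact hstep _ ih
  have hyr : ∀ n, ‖y n‖ ≤ r := by
    intro n
    induction n with
    | zero => show ‖(0 : R)‖ ≤ r; rw [norm_zero]; exact hr0.le
    | succ n ih =>
      rw [hy1, norm_smul]
      have h3 : ‖M - y n * y n‖ ≤ 2 * r ^ 2 + r ^ 2 := by
        refine (norm_sub_le _ _).trans (add_le_add hM.le ((norm_mul_le _ _).trans ?_))
        rw [pow_two]
        exact mul_le_mul ih ih (norm_nonneg _) hr0.le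
      calc c * ‖M - y n * y n‖ ≤ c * (2 * r ^ 2 + r ^ 2) := mul_le_mul_of_nonneg_left h3 hc0.le
        _ = (3 * (c * r)) * r := by ring
        _ ≤ r := by rw [hcr]; nlinarith
  have hd : ∀ n, ‖y n - y (n + 1)‖ ≤ ‖y 0 - y 1‖ * (1 / 2) ^ n := by
    intro n
    induction n with
    | zero => rw [pow_zero, mul_one]
    | succ n ih =>
      have e1 : y (n + 1) - y (n + 1 + 1) =
          (2 : K)⁻¹ • (y (n + 1) * (y (n + 1) - y n) + (y (n + 1) - y n) * y n) := by
        rw [hy1 n, hy1 (n + 1), ← smul_sub]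
        congr 1
        rw [hy1 n]
        noncomm_ring
      rw [e1, norm_smul]
      have h4 : ‖y (n + 1) * (y (n + 1) - y n) + (y (n + 1) - y n) * y n‖ ≤
          2 * r * ‖y n - y (n + 1)‖ := by
        refine (norm_add_le _ _).trans ?_
        have h5 := norm_mul_le (y (n + 1)) (y (n + 1) - y n)
        have h6 := norm_mul_le (y (n + 1) - y n) (y n)
        rw [norm_sub_rev (y n)]
        have h7 := mul_le_mul_of_nonneg_right (hyr (n + 1)) (norm_nonneg (y (n + 1) - y n))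
        have h8 := mul_le_mul_of_nonneg_left (hyr n) (norm_nonneg (y (n + 1) - y n))
        linarith
      calc c * ‖y (n + 1) * (y (n + 1) - y n) + (y (n + 1) - y n) * y n‖
          ≤ c * (2 * r * ‖y n - y (n + 1)‖) := mul_le_mul_of_nonneg_left h4 hc0.le
        _ = (1 / 2) * ‖y n - y (n + 1)‖ := by
          rw [show c * (2 * r * ‖y n - y (n + 1)‖) = 2 * (c * r) * ‖y n - y (n + 1)‖ by ring, hcr]
          ring
        _ ≤ (1 / 2) * (‖y 0 - y 1‖ * (1 / 2) ^ n) := by linarith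
        _ = ‖y 0 - y 1‖ * (1 / 2) ^ (n + 1) := by ring
  have hcau : CauchySeq y := cauchySeq_of_le_geometric (1 / 2) ‖y 0 - y 1‖ (by norm_num)
    fun n => by rw [dist_eq_norm]; exact hd n
  obtain ⟨Y, hY⟩ := cauchySeq_tendsto_of_complete hcau
  have hYS : Y ∈ S := hS.mem_of_tendsto hY (Filter.Eventually.of_forall hyS)
  have hfc : Continuous f := (continuous_const.sub (continuous_id.mul continuous_id)).const_smul _
  have h9 : Filter.Tendsto (fun n => y (n + 1)) Filter.atTop (nhds (f Y)) := by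
    have := (hfc.tendsto Y).comp hY
    refine this.congr fun n => ?_
    rw [hy1]
    rfl
  have h10 : Y = f Y := tendsto_nhds_unique ((Filter.tendsto_add_atTop_iff_nat 1).2 hY) h9
  have h11 : (2 : K) • Y = M - Y * Y := by
    conv_lhs => rw [h10]
    rw [hf]
    simp only
    rw [smul_smul, mul_inv_cancel₀ h2, one_smul]
  rw [two_smul] at h11
  refine ⟨Y, hYS, ?_⟩
  have h12 : (1 + Y) * (1 + Y) = 1 + (Y + Y) + Y * Y := by noncomm_ring
  rw [h12, h11]
  noncomm_ring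

section Conj

variable {F E V : Type u} [Field F] [Field E] [Algebra F E] [StarRing E] [AddCommGroup V]
  [Module E V] [Module.Finite E V]

private def cyccountPsi (X : Module.End E V) {m : ℕ} (e : Fin m → V) :
    (Fin m → Polynomial E) →ₗ[E] V where
  toFun f := ∑ i, Polynomial.aeval X (f i) (e i)
  map_add' f g := by
    rw [← Finset.sum_add_distrib]
    refine Finset.sum_congr rfl fun i _ => ?_
    rw [Pi.add_apply, map_add, LinearMap.add_apply]
  map_smul' a f := by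
    rw [RingHom.id_apply, Finset.smul_sum]
    refine Finset.sum_congr rfl fun i _ => ?_
    rw [Pi.smul_apply, map_smul, LinearMap.smul_apply]

private theorem cyccountPsi_apply (X : Module.End E V) {m : ℕ} (e : Fin m → V)
    (f : Fin m → Polynomial E) :
    cyccountPsi X e f = ∑ i, Polynomial.aeval X (f i) (e i) := rfl

private theorem cyccountPsi_X (X : Module.End E V) {m : ℕ} (e : Fin m → V)
    (f : Fin m → Polynomial E) :
    X (cyccountPsi X e f) = cyccountPsi X e fun i => Polynomial.X * f i := by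
  rw [cyccountPsi_apply, cyccountPsi_apply, map_sum]
  refine Finset.sum_congr rfl fun i _ => ?_
  rw [map_mul, Polynomial.aeval_X]
  rfl

private theorem cyccountPsi_surj {B : SkewH E V} {X : Module.End E V} (D : CycD F B X) :
    Function.Surjective (cyccountPsi X D.e) := by
  classical
  rw [← LinearMap.range_eq_top, eq_top_iff, ← D.span]
  refine iSup_le fun i => ?_
  intro v hv
  obtain ⟨f, rfl⟩ := (mem_cyc X _ v).1 hv
  refine ⟨Pi.single i f, ?_⟩
  rw [cyccountPsi_apply, Finset.sum_eq_single i]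
  · rw [Pi.single_eq_same]
  · intro j _ hj
    rw [Pi.single_eq_of_ne hj, map_zero, LinearMap.zero_apply]
  · intro h
    exact absurd (Finset.mem_univ i) h

private theorem cyccount_sum_left (B : SkewH E V) {ι : Type*} (s : Finset ι) (g : ι → V) (v : V) :
    B.ip (∑ j ∈ s, g j) v = ∑ j ∈ s, B.ip (g j) v := map_sum (B.lin v) g s

private theorem cyccountPsi_ker {B : SkewH E V} {X : Module.End E V} (D : CycD F B X)
    (f : Fin D.m → Polynomial E) : cyccountPsi X D.e f = 0 ↔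
      ∀ i, ((D.q i).map (algebraMap F E)) ^ (D.k i) ∣ f i := by
  constructor
  · intro h i
    rw [← D.ann]
    apply D.nd i _ ((mem_cyc X _ _).2 ⟨f i, rfl⟩)
    intro w hw
    obtain ⟨g, rfl⟩ := (mem_cyc X _ w).1 hw
    have h1 : B.ip (cyccountPsi X D.e f) (Polynomial.aeval X g (D.e i)) = 0 := by
      rw [h]
      have h2 := B.smul_left 0 0 (Polynomial.aeval X g (D.e i))
      rw [zero_smul, zero_mul] at h2
      exact h2
    rw [cyccountPsi_apply, cyccount_sum_left, Finset.sum_eq_single i] at h1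
    · exact h1
    · intro j _ hj
      exact D.ortho j i hj _ _
    · intro h3
      exact absurd (Finset.mem_univ i) h3
  · intro h
    rw [cyccountPsi_apply]
    refine Finset.sum_eq_zero fun i _ => ?_
    rw [D.ann]
    exact h i

private theorem cyccount_conj {B : SkewH E V} {X X' : Module.End E V} (D : CycD F B X)
    (D' : CycD F B X')
    (h : (⟨D.m, D.q, D.k⟩ : Σ m : ℕ, (Fin m → Polynomial F) × (Fin m → ℕ)) =
      ⟨D'.m, D'.q, D'.k⟩) : ∃ g : GV E V, X' = g.1 * X * g⁻¹.1 := by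
  have hker := cyccountPsi_ker D
  have hker' := cyccountPsi_ker D'
  have hsurj := cyccountPsi_surj D
  have hsurj' := cyccountPsi_surj D'
  revert hker hker' hsurj hsurj' h
  obtain ⟨m, e, q, k, -, -, -, -, -, -, -⟩ := D
  obtain ⟨m', e', q', k', -, -, -, -, -, -, -⟩ := D'
  intro h
  obtain ⟨rfl, h2⟩ := Sigma.mk.inj h
  obtain ⟨rfl, rfl⟩ := Prod.mk.inj (eq_of_heq h2)
  intro hker hker' hsurj hsurj'
  have hk : LinearMap.ker (cyccountPsi X e) = LinearMap.ker (cyccountPsi X' e') := by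
    ext f
    rw [LinearMap.mem_ker, LinearMap.mem_ker, hker, hker']
  let G : V ≃ₗ[E] V :=
    ((cyccountPsi X e).quotKerEquivOfSurjective hsurj).symm ≪≫ₗ
      (Submodule.quotEquivOfEq _ _ hk) ≪≫ₗ (cyccountPsi X' e').quotKerEquivOfSurjective hsurj'
  have hG : ∀ f, G (cyccountPsi X e f) = cyccountPsi X' e' f := by
    intro f
    have h3 : (cyccountPsi X e).quotKerEquivOfSurjective hsurj
        (Submodule.Quotient.mk f) = cyccountPsi X e f := rfl
    have h4 : ((cyccountPsi X e).quotKerEquivOfSurjective hsurj).symm (cyccountPsi X e f) =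
        Submodule.Quotient.mk f := by
      rw [LinearEquiv.symm_apply_eq, h3]
    show (cyccountPsi X' e').quotKerEquivOfSurjective hsurj'
      (Submodule.quotEquivOfEq _ _ hk
        (((cyccountPsi X e).quotKerEquivOfSurjective hsurj).symm (cyccountPsi X e f))) = _
    rw [h4]
    rfl
  refine ⟨⟨G.toLinearMap, G.symm.toLinearMap, ?_, ?_⟩, ?_⟩
  · ext v
    exact G.apply_symm_apply v
  · ext v
    exact G.symm_apply_apply v
  · ext v
    show X' v = G (X (G.symm v))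
    obtain ⟨f, hf⟩ := hsurj (G.symm v)
    rw [← hf, cyccountPsi_X, hG]
    have h5 : v = cyccountPsi X' e' f := by
      rw [← hG, hf, G.apply_symm_apply]
    rw [h5, cyccountPsi_X]

end Conj

section Local

variable {F E : Type u} [NontriviallyNormedField F] [IsUltrametricDist F] [ProperSpace F]
  [NeZero (2 : F)] [NontriviallyNormedField E] [NormedAlgebra F E] [ProperSpace E] [StarRing E]
  [QExt F E]
variable {V : Type u} [AddCommGroup V] [Module E V] [Module.Finite E V]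

private theorem cyccount_inv (g : GV E V) (v : V) : g⁻¹.1 (g.1 v) = v :=
  congrArg (fun f : Module.End E V => f v) g.inv_mul

private theorem cyccount_inv' (g : GV E V) (v : V) : g.1 (g⁻¹.1 v) = v :=
  congrArg (fun f : Module.End E V => f v) g.mul_inv

private theorem cyccount_A (B : SkewH E V) (g : Module.End E V) (v w : V) :
    B.ip (adj B g (g v)) w = B.ip (g v) (g w) := by
  have h := adj_spec B (adj B g) (g v) w
  rw [adj_adj] at h
  exact h

private theorem cyccount_comm (B : SkewH E V) {X₀ : Module.End E V} (hX₀ : X₀ ∈ SA B)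
    (g : GV E V) (hg : g.1 * X₀ * g⁻¹.1 ∈ SA B) (v : V) :
    adj B g.1 (g.1 (X₀ v)) = X₀ (adj B g.1 (g.1 v)) := by
  apply ip_ext B
  intro w
  have h1 : ∀ a b : V, B.ip (g.1 (X₀ a)) (g.1 b) = B.ip (g.1 a) (g.1 (X₀ b)) := by
    intro a b
    have h2 := hg (g.1 a) (g.1 b)
    have h3 : ∀ c : V, (g.1 * X₀ * g⁻¹.1) (g.1 c) = g.1 (X₀ c) := by
      intro c
      show g.1 (X₀ (g⁻¹.1 (g.1 c))) = _
      rw [cyccount_inv]
    rw [h3, h3] at h2
    exact h2
  rw [← adj_spec, ← h1, adj_spec, ← hX₀]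

variable {R : Type*} [NormedRing R] [NormedAlgebra E R] [FiniteDimensional E R]

variable (F) in
include F in
private theorem cyccount_closed (B : SkewH E V) (Φ : Module.End E V ≃ₐ[E] R)
    (X₀ g₁ : Module.End E V) : IsClosed {Z : R | Φ.symm Z * X₀ = X₀ * Φ.symm Z ∧
      ∀ v w, B.ip (g₁ (Φ.symm Z v)) (g₁ w) = B.ip (g₁ v) (g₁ (Φ.symm Z w))} := by
  have hlin : ∀ v w : V, Continuous fun Z : R => B.ip (g₁ (Φ.symm Z v)) (g₁ w) := by
    intro v w
    let L : R →ₗ[E] E := ((B.lin (g₁ w)) ∘ₗ g₁) ∘ₗ (LinearMap.applyₗ v) ∘ₗ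
      Φ.symm.toLinearMap
    have hL : (fun Z : R => B.ip (g₁ (Φ.symm Z v)) (g₁ w)) = L := rfl
    rw [hL]
    exact LinearMap.continuous_of_finiteDimensional L
  have h1 : {Z : R | Φ.symm Z * X₀ = X₀ * Φ.symm Z ∧
      ∀ v w, B.ip (g₁ (Φ.symm Z v)) (g₁ w) = B.ip (g₁ v) (g₁ (Φ.symm Z w))} =
      {Z : R | Z * Φ X₀ = Φ X₀ * Z} ∩
      ⋂ (v : V) (w : V), {Z : R | B.ip (g₁ (Φ.symm Z v)) (g₁ w) =
        B.ip (g₁ v) (g₁ (Φ.symm Z w))} := by
    ext Z
    simp only [Set.mem_ofPred_eq, Set.mem_inter_iff, Set.mem_iInter]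
    refine and_congr ?_ Iff.rfl
    constructor
    · intro h
      have := congrArg Φ h
      rw [map_mul, map_mul, AlgEquiv.apply_symm_apply] at this
      exact this
    · intro h
      apply Φ.injective
      rw [map_mul, map_mul, AlgEquiv.apply_symm_apply]
      exact h
  rw [h1]
  refine IsClosed.inter (isClosed_eq (continuous_id.mul continuous_const)
    (continuous_const.mul continuous_id)) (isClosed_iInter fun v => isClosed_iInter fun w => ?_)
  refine isClosed_eq (hlin v w) ?_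
  have h2 : (fun Z : R => B.ip (g₁ v) (g₁ (Φ.symm Z w))) = fun Z : R =>
      - star (B.ip (g₁ (Φ.symm Z w)) (g₁ v)) := by
    ext Z
    rw [← B.skew]
  rw [h2]
  exact ((continuous_star_E F E).comp (hlin w v)).neg

variable (F) in
include F in
private theorem cyccount_local (B : SkewH E V) (Φ : Module.End E V ≃ₐ[E] R)
    {X₀ : Module.End E V} (hX₀ : X₀ ∈ SA B) (g₁ : GV E V) (h₁ : g₁.1 * X₀ * g₁⁻¹.1 ∈ SA B) :
    ∃ U : Set R, IsOpen U ∧ Φ (adj B g₁.1 * g₁.1) ∈ U ∧ ∀ g : GV E V,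
      g.1 * X₀ * g⁻¹.1 ∈ SA B → Φ (adj B g.1 * g.1) ∈ U →
      ∃ h : UU B, h.1.1 * (g₁.1 * X₀ * g₁⁻¹.1) * h.1⁻¹.1 = g.1 * X₀ * g⁻¹.1 := by
  haveI : NeZero (2 : E) := nz2_of_injective (algebraMap F E).injective
  haveI : CompleteSpace R := FiniteDimensional.complete E R
  have h2 : (2 : E) ≠ 0 := two_ne_zero
  obtain ⟨δ, hδ, hsq⟩ := cyccount_sqrt (K := E) (R := R) h2
  -- the inverse of `A₁`
  set Ai : Module.End E V := g₁⁻¹.1 * adj B g₁⁻¹.1 with hAi
  set A₁ : Module.End E V := adj B g₁.1 * g₁.1 with hA₁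
  have hAAi : A₁ * Ai = 1 := by
    have e1 : g₁.1 * g₁⁻¹.1 = 1 := g₁.mul_inv
    have e2 : adj B g₁.1 * adj B g₁⁻¹.1 = 1 := by
      have e3 : g₁⁻¹.1 * g₁.1 = 1 := g₁.inv_mul
      rw [← adj_mul, e3, adj_one]
    calc A₁ * Ai = adj B g₁.1 * (g₁.1 * g₁⁻¹.1) * adj B g₁⁻¹.1 := by
          rw [hA₁, hAi]; simp only [mul_assoc]
      _ = 1 := by rw [e1, mul_one, e2]
  have hAiA : Ai * A₁ = 1 := by
    have e1 : g₁⁻¹.1 * g₁.1 = 1 := g₁.inv_mul
    have e2 : adj B g₁⁻¹.1 * adj B g₁.1 = 1 := by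
      have e3 : g₁.1 * g₁⁻¹.1 = 1 := g₁.mul_inv
      rw [← adj_mul, e3, adj_one]
    calc Ai * A₁ = g₁⁻¹.1 * (adj B g₁⁻¹.1 * adj B g₁.1) * g₁.1 := by
          rw [hA₁, hAi]; simp only [mul_assoc]
      _ = 1 := by rw [e2, mul_one, e1]
  refine ⟨{A : R | ‖Φ Ai * A - 1‖ < δ}, ?_, ?_, ?_⟩
  · exact isOpen_lt ((continuous_const.mul continuous_id).sub continuous_const).norm
      continuous_const
  · show ‖Φ Ai * Φ A₁ - 1‖ < δ
    rw [← map_mul, hAiA, map_one, sub_self, norm_zero]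
    exact hδ
  · intro g hg hU
    set A : Module.End E V := adj B g.1 * g.1 with hA
    set N : Module.End E V := Ai * A with hN
    have hM : ‖Φ N - 1‖ < δ := by rw [hN, map_mul]; exact hU
    set S : Set R := {Z : R | Φ.symm Z * X₀ = X₀ * Φ.symm Z ∧
      ∀ v w, B.ip (g₁.1 (Φ.symm Z v)) (g₁.1 w) = B.ip (g₁.1 v) (g₁.1 (Φ.symm Z w))} with hS
    have hA₁f : ∀ v w, B.ip (A₁ v) w = B.ip (g₁.1 v) (g₁.1 w) := fun v w =>
      cyccount_A B g₁.1 v w
    have hAf : ∀ v w, B.ip (A v) w = B.ip (g.1 v) (g.1 w) := fun v w => cyccount_A B g.1 v w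
    have hA₁c : A₁ * X₀ = X₀ * A₁ := LinearMap.ext fun v => cyccount_comm B hX₀ g₁ h₁ v
    have hAc : A * X₀ = X₀ * A := LinearMap.ext fun v => cyccount_comm B hX₀ g hg v
    have hAic : Ai * X₀ = X₀ * Ai := by
      calc Ai * X₀ = Ai * X₀ * (A₁ * Ai) := by rw [hAAi, mul_one]
        _ = Ai * (X₀ * A₁) * Ai := by simp only [mul_assoc]
        _ = Ai * (A₁ * X₀) * Ai := by rw [hA₁c]
        _ = (Ai * A₁) * X₀ * Ai := by simp only [mul_assoc]
        _ = X₀ * Ai := by rw [hAiA, one_mul]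
    have hNc : N * X₀ = X₀ * N := by
      rw [hN, mul_assoc, hAc, ← mul_assoc, hAic, mul_assoc]
    have hA₁N : A₁ * N = A := by rw [hN, ← mul_assoc, hAAi, one_mul]
    have hNf : ∀ v w, B.ip (g₁.1 (N v)) (g₁.1 w) = B.ip (g.1 v) (g.1 w) := by
      intro v w
      rw [← hA₁f, ← hAf, ← hA₁N]
      rfl
    have hNf' : ∀ v w, B.ip (g₁.1 v) (g₁.1 (N w)) = B.ip (g.1 v) (g.1 w) := by
      intro v w
      rw [B.skew (g₁.1 (N w)), hNf, ← B.skew]
    have hMS : Φ N - 1 ∈ S := by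
      have e1 : Φ.symm (Φ N - 1) = N - 1 := by
        rw [map_sub, map_one, AlgEquiv.symm_apply_apply]
      refine ⟨?_, fun v w => ?_⟩
      · rw [e1, sub_mul, mul_sub, hNc, one_mul, mul_one]
      · rw [e1]
        have e2 : ∀ a : V, g₁.1 ((N - 1) a) = g₁.1 (N a) + (-1 : E) • g₁.1 a := by
          intro a
          rw [LinearMap.sub_apply, map_sub, neg_smul, one_smul, ← sub_eq_add_neg]
          rfl
        rw [e2, e2, B.add_left, B.add_right, B.smul_left, B.smul_right, hNf, hNf', star_neg,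
          star_one]
    have hstep : ∀ Z ∈ S, (2 : E)⁻¹ • ((Φ N - 1) - Z * Z) ∈ S := by
      intro Z hZ
      have e1 : Φ.symm ((2 : E)⁻¹ • ((Φ N - 1) - Z * Z)) =
          (2 : E)⁻¹ • (Φ.symm (Φ N - 1) - Φ.symm Z * Φ.symm Z) := by
        rw [map_smul, map_sub, map_mul Φ.symm Z Z]
      refine ⟨?_, fun v w => ?_⟩
      · rw [e1, smul_mul_assoc, mul_smul_comm, sub_mul, mul_sub, hMS.1, mul_assoc, hZ.1,
          ← mul_assoc, hZ.1, mul_assoc]
      · rw [e1]
        have e2 : ∀ a : V, g₁.1 (((2 : E)⁻¹ • (Φ.symm (Φ N - 1) - Φ.symm Z * Φ.symm Z)) a) =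
            (2 : E)⁻¹ • (g₁.1 (Φ.symm (Φ N - 1) a) + (-1 : E) • g₁.1 (Φ.symm Z (Φ.symm Z a))) := by
          intro a
          rw [LinearMap.smul_apply, map_smul, LinearMap.sub_apply, map_sub, neg_smul, one_smul,
            ← sub_eq_add_neg]
          rfl
        rw [e2, e2, B.smul_left, B.smul_right, B.add_left, B.add_right, B.smul_left,
          B.smul_right, hMS.2, hZ.2, hZ.2, star_neg, star_one, star_inv₀, star_ofNat]
    have h0S : (0 : R) ∈ S := by
      refine ⟨by rw [map_zero, zero_mul, mul_zero], fun v w => ?_⟩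
      have e1 := B.smul_left 0 0 (g₁.1 w)
      have e2 := B.smul_right 0 (g₁.1 v) 0
      rw [zero_smul, zero_mul] at e1
      rw [zero_smul, star_zero, zero_mul] at e2
      rw [map_zero, LinearMap.zero_apply, LinearMap.zero_apply, map_zero, e1, e2]
    obtain ⟨Y, hYS, hY⟩ := hsq (Φ N - 1) hM S (cyccount_closed F B Φ X₀ g₁.1) h0S hstep
    set C : Module.End E V := 1 + Φ.symm Y with hC
    have hCC : C * C = N := by
      apply Φ.injective
      rw [map_mul, hC, map_add, map_one, AlgEquiv.apply_symm_apply, hY]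
      abel
    have hCf : ∀ v w, B.ip (g₁.1 (C v)) (g₁.1 w) = B.ip (g₁.1 v) (g₁.1 (C w)) := by
      intro v w
      have e1 : ∀ a : V, g₁.1 (C a) = g₁.1 a + g₁.1 (Φ.symm Y a) := by
        intro a
        rw [hC, LinearMap.add_apply, map_add]
        rfl
      rw [e1, e1, B.add_left, B.add_right, hYS.2]
    have hCc : C * X₀ = X₀ * C := by
      rw [hC, add_mul, mul_add, hYS.1, one_mul, mul_one]
    have hNu : IsUnit N := by
      have hAu : IsUnit A := by
        refine ⟨⟨A, g⁻¹.1 * adj B g⁻¹.1, ?_, ?_⟩, rfl⟩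
        · have e1 : g.1 * g⁻¹.1 = 1 := g.mul_inv
          have e2 : adj B g.1 * adj B g⁻¹.1 = 1 := by
            have e3 : g⁻¹.1 * g.1 = 1 := g.inv_mul
            rw [← adj_mul, e3, adj_one]
          calc A * (g⁻¹.1 * adj B g⁻¹.1) = adj B g.1 * (g.1 * g⁻¹.1) * adj B g⁻¹.1 := by
                rw [hA]; simp only [mul_assoc]
            _ = 1 := by rw [e1, mul_one, e2]
        · have e1 : g⁻¹.1 * g.1 = 1 := g.inv_mul
          have e2 : adj B g⁻¹.1 * adj B g.1 = 1 := by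
            have e3 : g.1 * g⁻¹.1 = 1 := g.mul_inv
            rw [← adj_mul, e3, adj_one]
          calc (g⁻¹.1 * adj B g⁻¹.1) * A = g⁻¹.1 * (adj B g⁻¹.1 * adj B g.1) * g.1 := by
                rw [hA]; simp only [mul_assoc]
            _ = 1 := by rw [e2, mul_one, e1]
      have hAiu : IsUnit Ai := ⟨⟨Ai, A₁, hAiA, hAAi⟩, rfl⟩
      exact hAiu.mul hAu
    have hCu : IsUnit C := by
      rw [← isUnit_pow_iff (two_ne_zero), pow_two, hCC]
      exact hNu
    obtain ⟨c, hc⟩ := hCu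
    have hcX : c.1 * X₀ = X₀ * c.1 := by rw [hc]; exact hCc
    have huu : ∀ v w, B.ip ((g * (g₁ * c)⁻¹).1 v) ((g * (g₁ * c)⁻¹).1 w) = B.ip v w := by
      intro v w
      obtain ⟨v', rfl⟩ : ∃ v', v = (g₁ * c).1 v' := ⟨(g₁ * c)⁻¹.1 v, (cyccount_inv' _ _).symm⟩
      obtain ⟨w', rfl⟩ : ∃ w', w = (g₁ * c).1 w' := ⟨(g₁ * c)⁻¹.1 w, (cyccount_inv' _ _).symm⟩
      have e1 : ∀ a : V, (g * (g₁ * c)⁻¹).1 ((g₁ * c).1 a) = g.1 a := by
        intro a
        show g.1 ((g₁ * c)⁻¹.1 ((g₁ * c).1 a)) = g.1 a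
        rw [cyccount_inv]
      rw [e1, e1]
      show _ = B.ip (g₁.1 (c.1 v')) (g₁.1 (c.1 w'))
      rw [hc, ← hCf, ← hNf, ← hCC]
      rfl
    refine ⟨⟨g * (g₁ * c)⁻¹, huu⟩, ?_⟩
    have hg₁i : g₁⁻¹.1 * g₁.1 = 1 := g₁.inv_mul
    have hci : c⁻¹.1 * c.1 = 1 := c.inv_mul
    have e5 : (g * (g₁ * c)⁻¹)⁻¹ = g₁ * c * g⁻¹ := by group
    show (g * (g₁ * c)⁻¹).1 * (g₁.1 * X₀ * g₁⁻¹.1) * ((g * (g₁ * c)⁻¹)⁻¹).1 = _
    rw [e5, mul_inv_rev]
    show g.1 * (c⁻¹.1 * g₁⁻¹.1) * (g₁.1 * X₀ * g₁⁻¹.1) * (g₁.1 * c.1 * g⁻¹.1) = _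
    calc g.1 * (c⁻¹.1 * g₁⁻¹.1) * (g₁.1 * X₀ * g₁⁻¹.1) * (g₁.1 * c.1 * g⁻¹.1)
        = g.1 * c⁻¹.1 * (g₁⁻¹.1 * g₁.1) * X₀ * (g₁⁻¹.1 * g₁.1) * c.1 * g⁻¹.1 := by
          simp only [mul_assoc]
      _ = g.1 * c⁻¹.1 * (X₀ * c.1) * g⁻¹.1 := by
          rw [hg₁i]; simp only [mul_assoc, mul_one]
      _ = g.1 * (c⁻¹.1 * c.1) * X₀ * g⁻¹.1 := by rw [← hcX]; simp only [mul_assoc]
      _ = g.1 * X₀ * g⁻¹.1 := by rw [hci, mul_one]

end Local

variable {F E : Type u} [NontriviallyNormedField F] [IsUltrametricDist F] [ProperSpace F]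
  [NeZero (2 : F)] [NontriviallyNormedField E] [NormedAlgebra F E] [ProperSpace E] [StarRing E]
  [QExt F E]
variable {V : Type u} [AddCommGroup V] [Module E V] [Module.Finite E V] [TopologicalSpace V]
  [IsTopologicalAddGroup V] [T2Space V] [ContinuousSMul E V]

section Glue

attribute [local instance] Matrix.linftyOpNormedRing Matrix.linftyOpNormedAlgebra

variable (F) in
include F in
private theorem cyccount_gl (B : SkewH E V) {X₀ : Module.End E V} (hX₀ : X₀ ∈ SA B) :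
    ∃ s : Set (SA B), s.Countable ∧ (∀ Y ∈ s, ∃ g : GV E V, Y.1 = g.1 * X₀ * g⁻¹.1) ∧
      ∀ X : SA B, (∃ g : GV E V, X.1 = g.1 * X₀ * g⁻¹.1) →
      ∃ Y ∈ s, ∃ h : UU B, saConj B h Y = X := by
  classical
  let n := Module.finrank E V
  let Φ : Module.End E V ≃ₐ[E] Matrix (Fin n) (Fin n) E :=
    LinearMap.toMatrixAlgEquiv (Module.finBasis E V)
  haveI : ProperSpace (Matrix (Fin n) (Fin n) E) := FiniteDimensional.proper E _
  let ι := {g : GV E V // g.1 * X₀ * g⁻¹.1 ∈ SA B}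
  have hloc := fun g : ι => cyccount_local F B Φ hX₀ g.1 g.2
  choose U hUo hUm hU using hloc
  obtain ⟨T, hT, hTU⟩ := TopologicalSpace.isOpen_iUnion_countable U hUo
  refine ⟨(fun g : ι => (⟨g.1.1 * X₀ * g.1⁻¹.1, g.2⟩ : SA B)) '' T, hT.image _, ?_, ?_⟩
  · rintro _ ⟨g, -, rfl⟩
    exact ⟨g.1, rfl⟩
  · rintro X ⟨g, hg⟩
    have hg' : g.1 * X₀ * g⁻¹.1 ∈ SA B := hg ▸ X.2
    have h1 : Φ (adj B g.1 * g.1) ∈ ⋃ i ∈ T, U i := by
      rw [hTU]
      exact Set.mem_iUnion.2 ⟨⟨g, hg'⟩, hUm ⟨g, hg'⟩⟩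
    obtain ⟨g₁, hg₁, h2⟩ := Set.mem_iUnion₂.1 h1
    obtain ⟨h, hh⟩ := hU g₁ g hg' h2
    refine ⟨_, ⟨g₁, hg₁, rfl⟩, h, ?_⟩
    apply Subtype.ext
    show h.1.1 * (g₁.1.1 * X₀ * g₁.1⁻¹.1) * h.1⁻¹.1 = X.1
    rw [hh, hg]

end Glue

private theorem cyccount_charpoly (X : Module.End E V) (g : GV E V) :
    LinearMap.charpoly (g.1 * X * g⁻¹.1) = LinearMap.charpoly X := by
  let e : V ≃ₗ[E] V := LinearEquiv.ofLinearMap g.1 g⁻¹.1 g.mul_inv g.inv_mul
  have h2 : g.1 * X * g⁻¹.1 = e.conj X := by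
    ext v
    rfl
  rw [h2, LinearEquiv.charpoly_conj]

variable (F) in
include F in
theorem countable_orbits (B : SkewH E V) (P : Polynomial E) :
    ∃ s : Set (SA B), s.Countable ∧ ∀ X : SA B, LinearMap.charpoly X.1 = P →
      ∃ Y ∈ s, LinearMap.charpoly Y.1 = P ∧ ∃ h : UU B, saConj B h Y = X := by
  classical
  by_cases hex : ∃ X : SA B, LinearMap.charpoly X.1 = P
  swap
  · exact ⟨∅, Set.countable_empty, fun X hX => absurd ⟨X, hX⟩ hex⟩
  have hprod : ∀ {X : Module.End E V} (D : CycD F B X), LinearMap.charpoly X = P →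
      (∏ i, D.q i ^ D.k i).map (algebraMap F E) = P := by
    intro X D hX
    rw [← hX, cycD_charpoly D, Polynomial.map_prod]
    simp only [Polynomial.map_pow]
  obtain ⟨P0, hP0, hP0m⟩ : ∃ P0 : Polynomial F, P0.map (algebraMap F E) = P ∧ P0 ≠ 0 := by
    obtain ⟨X, hX⟩ := hex
    obtain ⟨D⟩ := exists_cycD F B X
    refine ⟨_, hprod D hX, ?_⟩
    exact Finset.prod_ne_zero_iff.2 fun i _ => pow_ne_zero _ (D.irr i).ne_zero
  let Q : Finset (Polynomial F) := (UniqueFactorizationMonoid.normalizedFactors P0).toFinset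
  have hQ : ∀ {X : Module.End E V} (D : CycD F B X), LinearMap.charpoly X = P →
      ∀ i, D.q i ∈ Q := by
    intro X D hX i
    rw [Multiset.mem_toFinset, Polynomial.mem_normalizedFactors_iff hP0m]
    refine ⟨D.irr i, D.monic i, ?_⟩
    have h1 : ∏ i, D.q i ^ D.k i = P0 := by
      apply Polynomial.map_injective (algebraMap F E) (algebraMap F E).injective
      rw [hprod D hX, hP0]
    rw [← h1]
    exact (dvd_pow_self _ (D.kpos i).ne').trans (Finset.dvd_prod_of_mem _ (Finset.mem_univ i))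
  let data : {X : SA B // LinearMap.charpoly X.1 = P} →
      Σ m : ℕ, (Fin m → Polynomial F) × (Fin m → ℕ) := fun X =>
    ⟨(exists_cycD F B X.1).some.m, (exists_cycD F B X.1).some.q, (exists_cycD F B X.1).some.k⟩
  have hcount : (Set.range data).Countable := by
    let ψ : (Σ m : ℕ, (Fin m → Q) × (Fin m → ℕ)) →
      Σ m : ℕ, (Fin m → Polynomial F) × (Fin m → ℕ) := fun x =>
        ⟨x.1, fun i => (x.2.1 i).1, x.2.2⟩
    refine (Set.countable_range ψ).mono ?_
    rintro _ ⟨X, rfl⟩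
    exact ⟨⟨(exists_cycD F B X.1).some.m,
      fun i => ⟨(exists_cycD F B X.1).some.q i, hQ _ X.2 i⟩,
      (exists_cycD F B X.1).some.k⟩, rfl⟩
  haveI : Countable (Set.range data) := hcount.to_subtype
  choose rep hrep using fun t : Set.range data => t.2
  choose s hs1 hs2 hs3 using fun t : Set.range data => cyccount_gl F B (rep t).1.2
  refine ⟨⋃ t, s t, Set.countable_iUnion hs1, fun X hX => ?_⟩
  set t : Set.range data := ⟨data ⟨X, hX⟩, ⟨_, rfl⟩⟩ with ht
  have h1 : data (rep t) = data ⟨X, hX⟩ := hrep t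
  obtain ⟨g, hg⟩ := cyccount_conj (exists_cycD F B (rep t).1).some (exists_cycD F B X).some h1
  obtain ⟨Y, hY, h, hh⟩ := hs3 t X ⟨g, hg⟩
  refine ⟨Y, Set.mem_iUnion.2 ⟨t, hY⟩, ?_, h, hh⟩
  obtain ⟨g', hg'⟩ := hs2 t Y hY
  rw [hg', cyccount_charpoly]
  exact (rep t).2

end

end Pool.Agent.Work.MP_dd0ddf_al.OC
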