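import Pool.Agent.Work.MP_dd0ddf_al.OC.CycDefs
import Pool.Agent.Work.MP_dd0ddf_al.OC.LinChar
import Pool.Agent.Work.MP_dd0ddf_al.OC.NiE1

/-!
# MP_dd0ddf_al, module CycDec: existence of cyclic decompositions (9.1)

`X` self-adjoint.  Induction on dim V.  Let `m` be the minimal polynomial of `X`; it has coefficients in `F`.  Let `q` be a monic irreducible factor over `F`, `m = q^(k+1) c`, `q ∤ c`.
By polarisation there is a `v` with `⟨q^k(X) c(X)^2 v, v⟩ ≠ 0` (otherwise `m ∣ q^k c^2`), and `e = c(X) v` satisfies `q^(k+1)(X) e = 0`, `⟨q^k(X) e, e⟩ ≠ 0`.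
`J = {h ∈ E[x] : ⟨(h g q^k)(X) e, e⟩ = 0 for all g}` is an ideal stable under conjugation, contains `q` and not `1`; so its monic generator has coefficients in `F` and is `q`.
If `f` satisfies `⟨f(X) e, g(X) e⟩ = 0` for all `g`, then `q^i ∣ f` for all `i ≤ k+1` by induction (`f = q^i h` gives `h ∈ J`).  This gives the annihilator `(q^(k+1))` and the nondegeneracy of the block.
Then apply the induction hypothesis to `U^⊥` (X-stable, nondegenerate, the restriction of X is self-adjoint), and add the block.
-/

set_option linter.unusedSectionVars false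
set_option linter.style.haveILetI false

namespace Pool.Agent.Work.MP_dd0ddf_al.OC

noncomputable section

universe u

section Alg

variable {F E : Type u} [Field F] [Field E] [Algebra F E] [StarRing E]

private theorem cycdec_descent (hfix : ∀ x : E, star x = x → ∃ f : F, x = algebraMap F E f)
    (P : Polynomial E) (h : P.map (starRingEnd E) = P) :
    ∃ P0 : Polynomial F, P0.map (algebraMap F E) = P := by
  have h1 : P ∈ Polynomial.lifts (algebraMap F E) := by
    rw [Polynomial.lifts_iff_coeff_lifts]
    intro n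
    have h2 : star (P.coeff n) = P.coeff n := by
      have h3 := congrArg (fun p => Polynomial.coeff p n) h
      simp only [Polynomial.coeff_map, starRingEnd_apply] at h3
      exact h3
    obtain ⟨f, hf⟩ := hfix _ h2
    exact ⟨f, hf.symm⟩
  exact (Polynomial.mem_lifts P).1 h1

private theorem cycdec_conj (hstar : ∀ x : F, star (algebraMap F E x) = algebraMap F E x)
    (p : Polynomial F) :
    (p.map (algebraMap F E)).map (starRingEnd E) = p.map (algebraMap F E) := by
  rw [Polynomial.map_map]
  congr 1
  ext x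
  exact hstar x

variable {V : Type u} [AddCommGroup V] [Module E V] [Module.Finite E V]

private theorem cycdec_mul (X : Module.End E V) (f g : Polynomial E) (e : V) :
    Polynomial.aeval X (f * g) e = Polynomial.aeval X f (Polynomial.aeval X g e) := by
  rw [map_mul]
  rfl

private theorem cycdec_zl (B : SkewH E V) (w : V) : B.ip 0 w = 0 := by
  have h := B.smul_left 0 0 w
  rw [zero_smul, zero_mul] at h
  exact h

private theorem cycdec_zr (B : SkewH E V) (w : V) : B.ip w 0 = 0 := by
  have h := B.smul_right 0 w 0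
  rw [zero_smul, star_zero, zero_mul] at h
  exact h

private theorem cycdec_symm (B : SkewH E V) {a b : V} (h : B.ip a b = 0) : B.ip b a = 0 := by
  rw [B.skew a b, h, star_zero, neg_zero]

private theorem cycdec_key (hfix : ∀ x : E, star x = x → ∃ f : F, x = algebraMap F E f)
    (hstar : ∀ x : F, star (algebraMap F E x) = algebraMap F E x)
    (B : SkewH E V) (X : Module.End E V) (hX : X ∈ SA B) (q : Polynomial F) (hq : q.Monic)
    (hirr : Irreducible q) (k : ℕ) (e : V)
    (h0 : Polynomial.aeval X ((q.map (algebraMap F E)) ^ (k + 1)) e = 0)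
    (h1 : B.ip (Polynomial.aeval X ((q.map (algebraMap F E)) ^ k) e) e ≠ 0) (f : Polynomial E)
    (hf : ∀ g : Polynomial E, B.ip (Polynomial.aeval X f e) (Polynomial.aeval X g e) = 0) :
    (q.map (algebraMap F E)) ^ (k + 1) ∣ f := by
  set Q : Polynomial E := q.map (algebraMap F E) with hQ
  have hQm : Q.Monic := hq.map _
  have hQc : Q.map (starRingEnd E) = Q := cycdec_conj hstar q
  let J : Ideal (Polynomial E) :=
    { carrier := {h | ∀ g, B.ip (Polynomial.aeval X (h * g * Q ^ k) e) e = 0}
      add_mem' := fun {a b} ha hb g => by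
        rw [add_mul, add_mul, map_add, LinearMap.add_apply, B.add_left, ha g, hb g, add_zero]
      zero_mem' := fun g => by
        rw [zero_mul, zero_mul, map_zero, LinearMap.zero_apply, cycdec_zl]
      smul_mem' := fun c a ha g => by
        have := ha (c * g)
        rw [show c • a * g * Q ^ k = a * (c * g) * Q ^ k by rw [smul_eq_mul]; ring]
        exact this }
  have hJ : ∀ h, h ∈ J ↔ ∀ g, B.ip (Polynomial.aeval X (h * g * Q ^ k) e) e = 0 :=
    fun h => Iff.rfl
  have hQJ : Q ∈ J := by
    rw [hJ]
    intro g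
    rw [show Q * g * Q ^ k = g * Q ^ (k + 1) by ring, cycdec_mul, h0, map_zero, cycdec_zl]
  have h1J : (1 : Polynomial E) ∉ J := by
    intro h
    have := (hJ 1).1 h 1
    rw [one_mul, one_mul] at this
    exact h1 this
  have hconj : ∀ h ∈ J, h.map (starRingEnd E) ∈ J := by
    intro h hh
    rw [hJ] at hh ⊢
    intro g
    rw [ip_aeval B hX, Polynomial.map_mul, Polynomial.map_mul, Polynomial.map_pow, hQc,
      Polynomial.map_map]
    have h2 : (starRingEnd E).comp (starRingEnd E) = RingHom.id E := by
      ext x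
      simp
    rw [h2, Polynomial.map_id]
    exact cycdec_symm B (hh _)
  -- the monic generator
  obtain ⟨j0, hj0⟩ : ∃ j0, J = Ideal.span {j0} :=
    ⟨_, (Ideal.span_singleton_generator J).symm⟩
  have hj00 : j0 ≠ 0 := by
    rintro rfl
    have := hQJ
    rw [hj0, Ideal.span_singleton_zero] at this
    exact hQm.ne_zero (by simpa using this)
  set j : Polynomial E := j0 * Polynomial.C (j0.leadingCoeff)⁻¹ with hj
  have hjm : j.Monic := Polynomial.monic_mul_leadingCoeff_inv hj00
  have hlc : j0.leadingCoeff ≠ 0 := Polynomial.leadingCoeff_ne_zero.2 hj00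
  have hmem : ∀ h, h ∈ J ↔ j ∣ h := by
    intro h
    rw [hj0, Ideal.mem_span_singleton]
    constructor
    · rintro ⟨c, rfl⟩
      refine ⟨Polynomial.C j0.leadingCoeff * c, ?_⟩
      rw [hj]
      have : Polynomial.C (j0.leadingCoeff)⁻¹ * Polynomial.C j0.leadingCoeff = 1 := by
        rw [← Polynomial.C_mul, inv_mul_cancel₀ hlc, Polynomial.C_1]
      linear_combination (-j0 * c) * this
    · rintro ⟨c, rfl⟩
      exact ⟨Polynomial.C (j0.leadingCoeff)⁻¹ * c, by rw [hj, mul_assoc]⟩
  have hjc : j.map (starRingEnd E) = j := by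
    have h2 : j ∣ j.map (starRingEnd E) := (hmem _).1 (hconj _ ((hmem _).2 dvd_rfl))
    exact Polynomial.eq_of_monic_of_dvd_of_natDegree_le hjm (hjm.map _) h2
      (by rw [Polynomial.natDegree_map])
  obtain ⟨i0, hi0⟩ := cycdec_descent hfix j hjc
  have hiq : i0 ∣ q := by
    rw [← Polynomial.map_dvd_map' (algebraMap F E), hi0]
    exact (hmem _).1 hQJ
  have hqi : q ∣ i0 := by
    obtain ⟨c, hc⟩ := hiq
    rcases hirr.isUnit_or_isUnit hc with hu | hu
    · exfalso
      apply h1J
      rw [hmem, ← hi0]
      exact (hu.map (Polynomial.mapRingHom (algebraMap F E))).dvd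
    · obtain ⟨d, hd⟩ := hu.exists_right_inv
      exact ⟨d, by rw [hc, mul_assoc, hd, mul_one]⟩
  have hQj : Q ∣ j := by
    rw [← hi0]
    exact Polynomial.map_dvd (algebraMap F E) hqi
  have hmain : ∀ i, i ≤ k + 1 → Q ^ i ∣ f := by
    intro i
    induction i with
    | zero => intro _; rw [pow_zero]; exact one_dvd _
    | succ i ih =>
      intro hi
      obtain ⟨h, hh⟩ := ih (by omega)
      have hhJ : h ∈ J := by
        rw [hJ]
        intro g
        have h3 : h * g * Q ^ k = (g * Q ^ (k - i)) * f := by
          have : Q ^ k = Q ^ (k - i) * Q ^ i := by rw [← pow_add]; congr 1; omega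
          rw [hh, this]
          ring
        rw [h3, cycdec_mul, ip_aeval B hX]
        exact hf _
      obtain ⟨c, hc⟩ := hQj.trans ((hmem _).1 hhJ)
      exact ⟨c, by rw [hh, hc, pow_succ]; ring⟩
  exact hmain _ le_rfl

private theorem cycdec_pol (hns : ∃ x : E, star x ≠ x) (B : SkewH E V) (A : Module.End E V)
    (hA : ∀ v w, B.ip (A v) w = B.ip v (A w)) (h : ∀ v, B.ip (A v) v = 0) : A = 0 := by
  have h1 : ∀ v w, star (B.ip (A v) w) = B.ip (A v) w := by
    intro v w
    have h2 := h (v + w)
    rw [map_add, B.add_left, B.add_right, B.add_right, h v, h w, zero_add, add_zero, hA w v,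
      B.skew (A v) w] at h2
    linear_combination -h2
  obtain ⟨x, hx⟩ := hns
  ext v
  apply B.nondeg
  intro w
  have h3 := h1 (x • v) w
  rw [map_smul, B.smul_left, star_mul', h1 v w] at h3
  have h4 : (star x - x) * B.ip (A v) w = 0 := by linear_combination h3
  exact (mul_eq_zero.1 h4).resolve_left (sub_ne_zero.2 hx)

private theorem cycdec_exists (hfix : ∀ x : E, star x = x → ∃ f : F, x = algebraMap F E f)
    (hstar : ∀ x : F, star (algebraMap F E x) = algebraMap F E x) (hns : ∃ x : E, star x ≠ x)
    (B : SkewH E V) (X : Module.End E V) (hX : X ∈ SA B) [Nontrivial V] :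
    ∃ (q : Polynomial F) (k : ℕ) (e : V), q.Monic ∧ Irreducible q ∧
      Polynomial.aeval X ((q.map (algebraMap F E)) ^ (k + 1)) e = 0 ∧
      B.ip (Polynomial.aeval X ((q.map (algebraMap F E)) ^ k) e) e ≠ 0 := by
  have hint : IsIntegral E X := Algebra.IsIntegral.isIntegral X
  set m := minpoly E X with hm
  have hmm : m.Monic := minpoly.monic hint
  have hmc : m.map (starRingEnd E) = m := by
    have h2 : m ∣ m.map (starRingEnd E) := by
      apply minpoly.dvd
      ext v
      apply B.nondeg_right
      intro w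
      rw [← ip_aeval B hX, hm, minpoly.aeval, LinearMap.zero_apply, cycdec_zl]
    exact Polynomial.eq_of_monic_of_dvd_of_natDegree_le hmm (hmm.map _) h2
      (by rw [Polynomial.natDegree_map])
  obtain ⟨m0, hm0⟩ := cycdec_descent hfix m hmc
  have hm0m : m0.Monic := Polynomial.monic_of_injective (algebraMap F E).injective
    (by rw [hm0]; exact hmm)
  have hm0u : ¬ IsUnit m0 := by
    intro hu
    have h3 : m0 = 1 := hm0m.eq_one_of_isUnit hu
    rw [h3, Polynomial.map_one] at hm0
    exact minpoly.ne_one E X (hm ▸ hm0.symm)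
  obtain ⟨q, hqm, hqi, hqd⟩ := Polynomial.exists_monic_irreducible_factor m0 hm0u
  have hfin : FiniteMultiplicity q m0 :=
    FiniteMultiplicity.of_prime_left hqi.prime hm0m.ne_zero
  obtain ⟨c, hc, hnc⟩ := hfin.exists_eq_pow_mul_and_not_dvd
  obtain ⟨k, hk⟩ : ∃ k, multiplicity q m0 = k + 1 := by
    refine ⟨multiplicity q m0 - 1, ?_⟩
    have : multiplicity q m0 ≠ 0 := by
      intro h4
      rw [h4, pow_zero, one_mul] at hc
      exact hnc (hc ▸ hqd)
    omega
  rw [hk] at hc
  have hex : ∃ v, B.ip (Polynomial.aeval X ((q ^ k * c ^ 2).map (algebraMap F E)) v) v ≠ 0 := by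
    by_contra hcon
    push Not at hcon
    have h5 := cycdec_pol hns B _ (fun v w => by
      rw [ip_aeval B hX, cycdec_conj hstar]) hcon
    have h6 : m ∣ (q ^ k * c ^ 2).map (algebraMap F E) := minpoly.dvd E X h5
    rw [← hm0, Polynomial.map_dvd_map'] at h6
    obtain ⟨d, hd⟩ := h6
    rw [hc] at hd
    have hc0 : c ≠ 0 := by
      rintro rfl
      exact hnc (dvd_zero _)
    have h7 : (q ^ k * c) * c = (q ^ k * c) * (q * d) := by
      linear_combination hd
    have h8 := mul_left_cancel₀ (mul_ne_zero (pow_ne_zero _ hqi.ne_zero) hc0) h7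
    exact hnc ⟨d, h8⟩
  obtain ⟨v, hv⟩ := hex
  refine ⟨q, k, Polynomial.aeval X (c.map (algebraMap F E)) v, hqm, hqi, ?_, ?_⟩
  · rw [← cycdec_mul, ← Polynomial.map_pow, ← Polynomial.map_mul, ← hc, hm0, hm, minpoly.aeval,
      LinearMap.zero_apply]
  · intro h9
    apply hv
    rw [← cycdec_mul] at h9
    have h10 : (q ^ k * c ^ 2).map (algebraMap F E) =
        c.map (algebraMap F E) * (q.map (algebraMap F E) ^ k * c.map (algebraMap F E)) := by
      rw [Polynomial.map_mul, Polynomial.map_pow, Polynomial.map_pow]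
      ring
    rw [h10, cycdec_mul, ip_aeval B hX, cycdec_conj hstar]
    exact h9

private theorem cycdec_aeval_restrict (X : Module.End E V) (U : Submodule E V)
    (hX : ∀ v ∈ U, X v ∈ U) (f : Polynomial E) (v : U) :
    ((Polynomial.aeval (X.restrict hX) f v : U) : V) = Polynomial.aeval X f (v : V) := by
  have hpow : ∀ n : ℕ, ((((X.restrict hX) ^ n) v : U) : V) = (X ^ n) (v : V) := by
    intro n
    induction n with
    | zero => rfl
    | succ n ih =>
      rw [pow_succ', pow_succ']
      show X ((((X.restrict hX) ^ n) v : U) : V) = X ((X ^ n) (v : V))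
      rw [ih]
  induction f using Polynomial.induction_on' with
  | add f g hf hg =>
    rw [map_add, map_add, LinearMap.add_apply, LinearMap.add_apply, Submodule.coe_add, hf, hg]
  | monomial n a =>
    rw [Polynomial.aeval_monomial, Polynomial.aeval_monomial]
    show a • ((((X.restrict hX) ^ n) v : U) : V) = a • (X ^ n) (v : V)
    rw [hpow]

private theorem cycdec_cyc_restrict (X : Module.End E V) (U : Submodule E V)
    (hX : ∀ v ∈ U, X v ∈ U) (v : U) :
    cyc X (v : V) = (cyc (X.restrict hX) v).map U.subtype := by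
  ext w
  rw [mem_cyc, Submodule.mem_map]
  constructor
  · rintro ⟨f, rfl⟩
    exact ⟨Polynomial.aeval (X.restrict hX) f v, (mem_cyc _ _ _).2 ⟨f, rfl⟩,
      cycdec_aeval_restrict X U hX f v⟩
  · rintro ⟨y, hy, rfl⟩
    obtain ⟨f, rfl⟩ := (mem_cyc _ _ _).1 hy
    exact ⟨f, cycdec_aeval_restrict X U hX f v⟩

private theorem cycdec_step (B : SkewH E V) (X : Module.End E V)
    (q : Polynomial F) (hq : q.Monic) (hirr : Irreducible q) (k : ℕ) (e : V)
    (hann : ∀ f : Polynomial E, Polynomial.aeval X f e = 0 ↔
      (q.map (algebraMap F E)) ^ (k + 1) ∣ f) (hnd : NDeg B (cyc X e))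
    (hXW : ∀ v ∈ orth B (cyc X e), X v ∈ orth B (cyc X e))
    (D : CycD F (B.restrict (orth B (cyc X e)) (ndeg_orth B _ hnd)) (X.restrict hXW)) :
    Nonempty (CycD F B X) := by
  have hW : ∀ (w : orth B (cyc X e)) (f g : Polynomial E),
      B.ip (Polynomial.aeval X f (w : V)) (Polynomial.aeval X g e) = 0 := by
    intro w f g
    rw [← cycdec_aeval_restrict X _ hXW f w]
    exact (Polynomial.aeval (X.restrict hXW) f w).2 _ ((mem_cyc _ _ _).2 ⟨g, rfl⟩)
  refine ⟨⟨D.m + 1, Fin.cons e fun i => (D.e i : V), Fin.cons q D.q, Fin.cons (k + 1) D.k,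
    ?_, ?_, ?_, ?_, ?_, ?_, ?_⟩⟩
  · intro i
    refine Fin.cases ?_ (fun i => ?_) i
    · exact hq
    · exact D.monic i
  · intro i
    refine Fin.cases ?_ (fun i => ?_) i
    · exact hirr
    · exact D.irr i
  · intro i
    refine Fin.cases ?_ (fun i => ?_) i
    · exact Nat.succ_pos k
    · exact D.kpos i
  · intro i f
    refine Fin.cases ?_ (fun i => ?_) i
    · exact hann f
    · rw [Fin.cons_succ, Fin.cons_succ, Fin.cons_succ, ← D.ann i f,
        ← cycdec_aeval_restrict X _ hXW f (D.e i), Submodule.coe_eq_zero]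
  · intro i j
    refine Fin.cases ?_ (fun i => ?_) i
    · refine Fin.cases ?_ (fun j => ?_) j
      · intro h
        exact absurd rfl h
      · intro _ f g
        rw [Fin.cons_zero, Fin.cons_succ]
        exact cycdec_symm B (hW _ _ _)
    · refine Fin.cases ?_ (fun j => ?_) j
      · intro _ f g
        rw [Fin.cons_zero, Fin.cons_succ]
        exact hW _ _ _
      · intro hij f g
        rw [Fin.cons_succ, Fin.cons_succ]
        have h1 := D.ortho i j (fun h => hij (by rw [h])) f g
        rw [← cycdec_aeval_restrict X _ hXW f (D.e i), ← cycdec_aeval_restrict X _ hXW g (D.e j)]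
        exact h1
  · intro i
    refine Fin.cases ?_ (fun i => ?_) i
    · exact hnd
    · rw [Fin.cons_succ, cycdec_cyc_restrict X _ hXW]
      rintro _ ⟨u, hu, rfl⟩ hw
      have h1 := D.nd i u hu fun w hw' => hw (w : V) ⟨w, hw', rfl⟩
      rw [h1, map_zero]
  · rw [eq_top_iff]
    intro v _
    have h1 : v = prO B _ hnd v + (v - prO B _ hnd v) := by abel
    rw [h1]
    refine Submodule.add_mem _ ?_ ?_
    · exact Submodule.mem_iSup_of_mem (0 : Fin (D.m + 1)) (prO_mem B _ hnd v)
    · have h2 : (⟨v - prO B _ hnd v, sub_prO_mem B _ hnd v⟩ : orth B (cyc X e)) ∈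
          ⨆ i, cyc (X.restrict hXW) (D.e i) := by
        rw [D.span]
        trivial
      have h3 := Submodule.mem_map_of_mem (f := (orth B (cyc X e)).subtype) h2
      rw [Submodule.map_iSup] at h3
      have h4 : (⨆ i, (cyc (X.restrict hXW) (D.e i)).map (orth B (cyc X e)).subtype) ≤
          ⨆ i, cyc X ((Fin.cons e fun i => (D.e i : V) : Fin (D.m + 1) → V) i) := by
        refine iSup_le fun i => ?_
        rw [← cycdec_cyc_restrict X _ hXW]
        exact le_iSup (fun i => cyc X ((Fin.cons e fun i => (D.e i : V) :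
          Fin (D.m + 1) → V) i)) i.succ
      exact h4 h3

private theorem cycdec_ind (hfix : ∀ x : E, star x = x → ∃ f : F, x = algebraMap F E f)
    (hstar : ∀ x : F, star (algebraMap F E x) = algebraMap F E x) (hns : ∃ x : E, star x ≠ x)
    (n : ℕ) : ∀ (V : Type u) [AddCommGroup V] [Module E V] [Module.Finite E V]
      (B : SkewH E V) (X : Module.End E V), X ∈ SA B → Module.finrank E V = n →
      Nonempty (CycD F B X) := by
  induction n using Nat.strong_induction_on with
  | _ n ih =>
    intro V _ _ _ B X hX hV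
    rcases Nat.eq_zero_or_pos n with rfl | hn
    · haveI : Subsingleton V := Module.finrank_zero_iff.1 hV
      refine ⟨⟨0, fun i => i.elim0, fun i => i.elim0, fun i => i.elim0, fun i => i.elim0,
        fun i => i.elim0, fun i => i.elim0, fun i => i.elim0, fun i => i.elim0,
        fun i => i.elim0, ?_⟩⟩
      exact Subsingleton.elim _ _
    · haveI : Nontrivial V := (Module.finrank_pos_iff (R := E)).1 (by omega)
      obtain ⟨q, k, e, hq, hirr, h0, h1⟩ := cycdec_exists hfix hstar hns B X hX
      have hkey := cycdec_key hfix hstar B X hX q hq hirr k e h0 h1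
      have hann : ∀ f : Polynomial E, Polynomial.aeval X f e = 0 ↔
          (q.map (algebraMap F E)) ^ (k + 1) ∣ f := by
        intro f
        constructor
        · intro hf
          refine hkey f fun g => ?_
          rw [hf, cycdec_zl]
        · rintro ⟨c, rfl⟩
          rw [mul_comm, cycdec_mul, h0, map_zero]
      have hnd : NDeg B (cyc X e) := by
        intro u hu hw
        obtain ⟨f, rfl⟩ := (mem_cyc X e u).1 hu
        rw [hann]
        exact hkey f fun g => hw _ ((mem_cyc X e _).2 ⟨g, rfl⟩)
      have hXW : ∀ v ∈ orth B (cyc X e), X v ∈ orth B (cyc X e) := by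
        intro v hv u hu
        obtain ⟨f, rfl⟩ := (mem_cyc X e u).1 hu
        rw [hX]
        apply hv
        refine (mem_cyc X e _).2 ⟨Polynomial.X * f, ?_⟩
        rw [map_mul, Polynomial.aeval_X]
        rfl
      have hlt : Module.finrank E (orth B (cyc X e)) < n := by
        rw [← hV]
        apply Submodule.finrank_lt
        intro h2
        have h3 : e ∈ orth B (cyc X e) := by rw [h2]; trivial
        exact h1 (cycdec_symm B (h3 _ ((mem_cyc X e _).2 ⟨_, rfl⟩)))
      obtain ⟨D⟩ := ih _ hlt (orth B (cyc X e)) (B.restrict _ (ndeg_orth B _ hnd))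
        (X.restrict hXW) (fun v w => hX (v : V) (w : V)) rfl
      exact cycdec_step B X q hq hirr k e hann hnd hXW D

end Alg

variable {F E : Type u} [NontriviallyNormedField F] [IsUltrametricDist F] [ProperSpace F]
  [NeZero (2 : F)] [NontriviallyNormedField E] [NormedAlgebra F E] [ProperSpace E] [StarRing E]
  [QExt F E]
variable {V : Type u} [AddCommGroup V] [Module E V] [Module.Finite E V] [TopologicalSpace V]
  [IsTopologicalAddGroup V] [T2Space V] [ContinuousSMul E V]

variable (F) in
theorem exists_cycD (B : SkewH E V) (X : SA B) : Nonempty (CycD F B X.1) := by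
  obtain ⟨-, -, -, -, -, hfix⟩ := exists_eta F E
  exact cycdec_ind hfix (QExt.star_alg (F := F) (E := E)) (QExt.nontriv (F := F) (E := E)) _ V B
    X.1 X.2 rfl

end

end Pool.Agent.Work.MP_dd0ddf_al.OC
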