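import Pool.Agent.Work.MP_dd0ddf_al.OC.Found

/-!
# MP_dd0ddf_al, module FdOrbit: open orbits

`exists_open_orbit`: `Γ` sigma-compact, `X` nonempty, locally compact Hausdorff (so Baire), countably many orbits.
Every orbit is a countable union of compact (closed) sets (images of compact sets of `Γ` under the continuous map `γ ↦ γ x`); by Baire
(`nonempty_interior_of_iUnion_of_closed`, countable index) one of these closed sets has nonempty interior; so some orbit
contains an interior point and, being homogeneous (translate by the homeomorphisms `A.homeo γ`), is open.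

`orbit_map_open`: Mathlib has `isOpenMap_smul_of_sigmaCompact` (MulAction, transitive (`IsPretransitive`), `ContinuousSMul`, Baire
target); make local instances `MulAction Γ O` from `C : CAct Γ O`.
-/

set_option linter.unusedSectionVars false
set_option linter.style.haveILetI false

namespace Pool.Agent.Work.MP_dd0ddf_al.OC

noncomputable section

theorem exists_open_orbit {Γ X : Type*} [Group Γ] [TopologicalSpace Γ] [SigmaCompactSpace Γ]
    [TopologicalSpace X] [T2Space X] [LocallyCompactSpace X] [Nonempty X] (A : CAct Γ X)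
    (s : Set X) (hs : s.Countable) (hcov : ∀ x, ∃ y ∈ s, ∃ γ, A.act γ y = x) :
    ∃ x, IsOpen {y | ∃ γ, A.act γ x = y} := by
  haveI : Countable s := hs.to_subtype
  have hcont : ∀ y : X, Continuous fun γ : Γ => A.act γ y := fun y =>
    A.cont.comp (continuous_id.prodMk continuous_const)
  have hcl : ∀ q : s × ℕ, IsClosed ((fun γ : Γ => A.act γ q.1.1) '' compactCovering Γ q.2) :=
    fun q => ((isCompact_compactCovering Γ q.2).image (hcont q.1.1)).isClosed
  have hun : ⋃ q : s × ℕ, ((fun γ : Γ => A.act γ q.1.1) '' compactCovering Γ q.2) = Set.univ := by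
    rw [Set.eq_univ_iff_forall]
    intro x
    obtain ⟨y, hy, γ, hγ⟩ := hcov x
    obtain ⟨n, hn⟩ := exists_mem_compactCovering γ
    exact Set.mem_iUnion.2 ⟨(⟨y, hy⟩, n), ⟨γ, hn, hγ⟩⟩
  obtain ⟨⟨y, n⟩, z0, hz0⟩ := nonempty_interior_of_iUnion_of_closed hcl hun
  refine ⟨y.1, ?_⟩
  rw [isOpen_iff_mem_nhds]
  rintro z ⟨g, rfl⟩
  have hsub : (fun γ : Γ => A.act γ y.1) '' compactCovering Γ n ⊆ {z | ∃ γ, A.act γ y.1 = z} := by
    rintro _ ⟨γ, _, rfl⟩
    exact ⟨γ, rfl⟩
  obtain ⟨g0, hg0⟩ := hsub (interior_subset hz0)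
  have hn0 : {z | ∃ γ, A.act γ y.1 = z} ∈ nhds z0 :=
    Filter.mem_of_superset (mem_interior_iff_mem_nhds.1 hz0) hsub
  -- translate by `g * g0⁻¹`
  have hc : Continuous fun z => A.act (g * g0⁻¹)⁻¹ z :=
    A.cont.comp (continuous_const.prodMk continuous_id)
  have he : A.act (g * g0⁻¹)⁻¹ (A.act g y.1) = z0 := by
    rw [← hg0, ← A.mul]
    congr 1
    group
  have ht : Filter.Tendsto (fun z => A.act (g * g0⁻¹)⁻¹ z) (nhds (A.act g y.1)) (nhds z0) := by
    have := hc.tendsto (A.act g y.1)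
    simpa only [he] using this
  have h1 : ∀ᶠ z in nhds (A.act g y.1),
      A.act (g * g0⁻¹)⁻¹ z ∈ {z | ∃ γ, A.act γ y.1 = z} := ht.eventually hn0
  filter_upwards [h1] with z hz
  obtain ⟨γ, hγ⟩ := hz
  refine ⟨g * g0⁻¹ * γ, ?_⟩
  rw [A.mul, hγ, A.act_inv]

theorem orbit_map_open {Γ O : Type*} [Group Γ] [TopologicalSpace Γ] [IsTopologicalGroup Γ]
    [LocallyCompactSpace Γ] [SigmaCompactSpace Γ]
    [TopologicalSpace O] [T2Space O] [LocallyCompactSpace O] (C : CAct Γ O) (o : O)
    (htr : ∀ y, ∃ γ, C.act γ o = y) : IsOpenMap (fun γ => C.act γ o) := by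
  letI : MulAction Γ O :=
    { smul := C.act
      one_smul := C.one
      mul_smul := C.mul }
  haveI : ContinuousSMul Γ O := ⟨C.cont⟩
  haveI : MulAction.IsPretransitive Γ O := ⟨fun x y => by
    obtain ⟨a, ha⟩ := htr x
    obtain ⟨b, hb⟩ := htr y
    refine ⟨b * a⁻¹, ?_⟩
    show C.act (b * a⁻¹) x = y
    rw [← ha, C.mul, C.inv_act, hb]⟩
  exact isOpenMap_smul_of_sigmaCompact o

end

end Pool.Agent.Work.MP_dd0ddf_al.OC
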