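import Pool.Agent.Work.MP_dd0ddf_al.OC.ExtU
import Pool.Agent.Work.MP_dd0ddf_al.OC.LinDefs

/-!
# MP_dd0ddf_al, module CycDefs: cyclic decompositions of a self-adjoint operator (definitions)
-/

set_option linter.unusedSectionVars false
set_option linter.style.haveILetI false

namespace Pool.Agent.Work.MP_dd0ddf_al.OC

noncomputable section

universe u

/-- the cyclic subspace generated by `e` -/
def cyc {E V : Type*} [Field E] [AddCommGroup V] [Module E V] (X : Module.End E V) (e : V) :
    Submodule E V := Submodule.span E (Set.range fun a : ℕ => (X ^ a) e)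

theorem mem_cyc {E V : Type*} [Field E] [AddCommGroup V] [Module E V] (X : Module.End E V)
    (e v : V) : v ∈ cyc X e ↔ ∃ f : Polynomial E, v = Polynomial.aeval X f e := by
  have key : cyc X e = LinearMap.range
      ({ toFun := fun f => Polynomial.aeval X f e
         map_add' := fun f g => by rw [map_add, LinearMap.add_apply]
         map_smul' := fun a f => by rw [map_smul, LinearMap.smul_apply, RingHom.id_apply] } :
        Polynomial E →ₗ[E] V) := by
    apply le_antisymm
    · refine Submodule.span_le.2 ?_
      rintro _ ⟨a, rfl⟩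
      refine ⟨Polynomial.X ^ a, ?_⟩
      show Polynomial.aeval X (Polynomial.X ^ a) e = (X ^ a) e
      rw [map_pow, Polynomial.aeval_X]
    · rintro _ ⟨f, rfl⟩
      show Polynomial.aeval X f e ∈ cyc X e
      rw [Polynomial.aeval_eq_sum_range, LinearMap.sum_apply]
      refine Submodule.sum_mem _ fun a _ => ?_
      rw [LinearMap.smul_apply]
      exact Submodule.smul_mem _ _ (Submodule.subset_span ⟨a, rfl⟩)
  rw [key]
  constructor
  · rintro ⟨f, hf⟩
    exact ⟨f, hf.symm⟩
  · rintro ⟨f, hf⟩
    exact ⟨f, hf.symm⟩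

/-- decomposition into orthogonal cyclic nondegenerate blocks -/
structure CycD (F : Type u) {E V : Type u} [Field F] [Field E] [Algebra F E] [StarRing E]
    [AddCommGroup V] [Module E V] (B : SkewH E V) (X : Module.End E V) where
  m : ℕ
  e : Fin m → V
  q : Fin m → Polynomial F
  k : Fin m → ℕ
  monic : ∀ i, (q i).Monic
  irr : ∀ i, Irreducible (q i)
  kpos : ∀ i, 0 < k i
  ann : ∀ i (f : Polynomial E), Polynomial.aeval X f (e i) = 0 ↔
    ((q i).map (algebraMap F E)) ^ (k i) ∣ f
  ortho : ∀ i j, i ≠ j → ∀ f g : Polynomial E,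
    B.ip (Polynomial.aeval X f (e i)) (Polynomial.aeval X g (e j)) = 0
  nd : ∀ i, NDeg B (cyc X (e i))
  span : ⨆ i, cyc X (e i) = ⊤

/-- `q(X)^j U`, `U` the cyclic subspace -/
def qSub (F : Type u) {E V : Type u} [Field F] [Field E] [Algebra F E]
    [AddCommGroup V] [Module E V] (X : Module.End E V) (e : V) (q : Polynomial F) (j : ℕ) :
    Submodule E V := (cyc X e).map (Polynomial.aeval X ((q.map (algebraMap F E)) ^ j))

/-- `f (X)` for self-adjoint `X`: `⟨f(X) v, w⟩ = ⟨v, f̄(X) w⟩` -/
theorem ip_aeval {E V : Type*} [Field E] [StarRing E] [AddCommGroup V] [Module E V]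
    [Module.Finite E V] (B : SkewH E V) {X : Module.End E V} (hX : X ∈ SA B) (f : Polynomial E)
    (v w : V) : B.ip (Polynomial.aeval X f v) w =
      B.ip v (Polynomial.aeval X (f.map (starRingEnd E)) w) := by
  have hpow : ∀ (n : ℕ) (v w : V), B.ip ((X ^ n) v) w = B.ip v ((X ^ n) w) := by
    intro n
    induction n with
    | zero => intro v w; rfl
    | succ n ih =>
      intro v w
      have h1 : (X ^ (n + 1)) v = (X ^ n) (X v) := by rw [pow_succ]; rfl
      have h2 : (X ^ (n + 1)) w = X ((X ^ n) w) := by rw [pow_succ']; rfl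
      rw [h1, h2, ih]
      exact hX v _
  induction f using Polynomial.induction_on' with
  | add f g hf hg =>
    rw [map_add, Polynomial.map_add, map_add, LinearMap.add_apply, LinearMap.add_apply,
      B.add_left, B.add_right, hf, hg]
  | monomial n a =>
    rw [Polynomial.map_monomial, Polynomial.aeval_monomial, Polynomial.aeval_monomial]
    show B.ip (a • ((X ^ n) v)) w = B.ip v ((starRingEnd E) a • ((X ^ n) w))
    rw [B.smul_left, B.smul_right, hpow, starRingEnd_apply, star_star]

end

end Pool.Agent.Work.MP_dd0ddf_al.OC
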