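import Pool.Agent.Work.MP_dd0ddf_al.OC.DescDefs
import Pool.Agent.Work.MP_dd0ddf_al.OC.FdBasis

/-!
# MP_dd0ddf_al, module DescEx: existence of the functions E_U f

`co_basis`: van Dantzig: every neighbourhood of 1 contains a compact open subgroup (Mathlib: look for
`TopologicalGroup` + `NonarchimedeanGroup`, `exists_openSubgroup_sub_clopen_nhds_of_one` or similar; intersect with a compact clopen nbhd).
`eu_small`: `f` has finitely many values and compact support; the map `(γ, x) ↦ β(γ) f(γ⁻¹ x)` is locally constant in γ near 1 uniformly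
on the compact support: for every `x` in the (compact open) support of `f` there are neighbourhoods `N_x` of 1 and `W_x` of `x` with
`f (γ⁻¹ y) = f y` and `β γ (f y) = f y` for `γ ∈ N_x, y ∈ W_x`; finite subcover; choose a compact open subgroup `U0` in the
intersection of the `N_x`; for `y` outside the support: `γ⁻¹ y` is outside the support for `γ ∈ U0` (otherwise `y = γ γ⁻¹ y` and
`f y = f (γ⁻¹ y)` by the first part applied to the point `γ⁻¹ y` and the element `γ⁻¹`).
`eu_exists`: let `U` be a compact open subgroup such that `f` is invariant under `U ⊓ stab`.  Put `F x = β(u) f(u⁻¹ x)` if there is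
`u ∈ U` with `u o = π x`, `F x = 0` otherwise (well defined: two such `u, u'` differ by an element of `U ⊓ stab`).
Locally constant: `{u o : u ∈ U}` is open (`D.opn`) and compact, hence closed in the T2 space `O`, so `F = 0` near every `x` with `π x`
not in it.  If `x = u x_0`, let `N` be an open neighbourhood of 1 in `Γ`, contained in `U`, and `W` a neighbourhood of `x_0` in `X` such that
`β(n) (f x_0) = f x_0`, `f` is constant on `W ∩ Fib`, and `(u n)⁻¹ x' ∈ W` for `n ∈ N`, `x'` near `x`; as `D.opn`, the set `u N o` is a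
neighbourhood of `π x`; for `x'` near `x` with `π x' = u n o` we get `F x' = β(u n) f((u n)⁻¹ x') = β(u) β(n) f(x_0) = β(u) f(x_0)`.
Compact support: contained in `{u x : u ∈ U, x ∈ tsupport f}`, compact.
-/

set_option linter.unusedSectionVars false
set_option linter.style.haveILetI false

namespace Pool.Agent.Work.MP_dd0ddf_al.OC

noncomputable section

variable {Γ X O B : Type*} [Group Γ] [TopologicalSpace Γ] [IsTopologicalGroup Γ]
  [LocallyCompactSpace Γ] [T2Space Γ] [TotallyDisconnectedSpace Γ] [SigmaCompactSpace Γ]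
  [TopologicalSpace X] [T2Space X] [LocallyCompactSpace X] [TotallyDisconnectedSpace X]
  [TopologicalSpace O] [T2Space O] [AddCommGroup B] [Module ℂ B]

private def descex_sub (K : Set Γ) : Subgroup Γ where
  carrier := {g | ∀ k ∈ K, k * g ∈ K ∧ k * g⁻¹ ∈ K}
  mul_mem' := by
    intro a b ha hb k hk
    refine ⟨?_, ?_⟩
    · rw [← mul_assoc]
      exact (hb _ (ha k hk).1).1
    · rw [mul_inv_rev, ← mul_assoc]
      exact (ha _ (hb k hk).2).2
  one_mem' := by
    intro k hk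
    simpa using hk
  inv_mem' := by
    intro a ha k hk
    rw [inv_inv]
    exact (ha k hk).symm

theorem co_basis (W : Set Γ) (hW : IsOpen W) (h1 : (1 : Γ) ∈ W) :
    ∃ U : Subgroup Γ, DescData.CO U ∧ (U : Set Γ) ⊆ W := by
  obtain ⟨K, hK, hKo, h1K, hKW⟩ := exists_compact_open (1 : Γ) W hW h1
  have hsub : ((descex_sub K : Subgroup Γ) : Set Γ) ⊆ K := by
    intro g hg
    have := (hg 1 h1K).1
    rwa [one_mul] at this
  have hev : ∀ᶠ g in nhds (1 : Γ), ∀ k ∈ K, k * g ∈ K ∧ k * g⁻¹ ∈ K := by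
    refine hK.eventually_forall_of_forall_eventually ?_
    intro y hy
    have c1 : Continuous fun z : Γ × Γ => z.2 * z.1 := continuous_snd.mul continuous_fst
    have c2 : Continuous fun z : Γ × Γ => z.2 * z.1⁻¹ := continuous_snd.mul continuous_fst.inv
    have e1 : ∀ᶠ z : Γ × Γ in nhds (1, y), z.2 * z.1 ∈ K := by
      refine c1.continuousAt.eventually (hKo.mem_nhds ?_)
      simpa using hy
    have e2 : ∀ᶠ z : Γ × Γ in nhds (1, y), z.2 * z.1⁻¹ ∈ K := by
      refine c2.continuousAt.eventually (hKo.mem_nhds ?_)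
      simpa using hy
    exact e1.and e2
  have hopen : IsOpen ((descex_sub K : Subgroup Γ) : Set Γ) :=
    Subgroup.isOpen_of_mem_nhds _ (g := 1) hev
  have hclosed : IsClosed ((descex_sub K : Subgroup Γ) : Set Γ) :=
    Subgroup.isClosed_of_isOpen _ hopen
  exact ⟨descex_sub K, ⟨hopen, hK.of_isClosed_subset hclosed hsub⟩, hsub.trans hKW⟩

private theorem descex_ev (D : DescData Γ X O B) (f : SF D.Fib B) :
    ∀ᶠ γ in nhds (1 : D.stab), ∀ x ∈ tsupport f.1,
      D.R.β γ.1 (f (D.fibAct.act γ⁻¹ x)) = f x := by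
  have hK : IsCompact (tsupport f.1) := f.2.2
  refine hK.eventually_forall_of_forall_eventually ?_
  intro x _
  have c1 : Continuous fun z : D.stab × D.Fib => D.fibAct.act z.1⁻¹ z.2 :=
    D.fibAct.cont.comp (continuous_fst.inv.prodMk continuous_snd)
  have hlc := (IsLocallyConstant.iff_eventually_eq _).mp f.2.1 x
  have e1 : ∀ᶠ z : D.stab × D.Fib in nhds (1, x), f.1 (D.fibAct.act z.1⁻¹ z.2) = f.1 x := by
    have : Filter.Tendsto (fun z : D.stab × D.Fib => D.fibAct.act z.1⁻¹ z.2)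
        (nhds (1, x)) (nhds x) := by
      have h := c1.continuousAt (x := ((1, x) : D.stab × D.Fib))
      unfold ContinuousAt at h
      simp only [inv_one, D.fibAct.one] at h
      exact h
    exact this.eventually hlc
  have e2 : ∀ᶠ z : D.stab × D.Fib in nhds (1, x), f.1 z.2 = f.1 x :=
    (continuous_snd.continuousAt (x := ((1, x) : D.stab × D.Fib))).eventually hlc
  obtain ⟨V, hV, hV1, hVb⟩ := D.R.smooth (f.1 x)
  have e3 : ∀ᶠ z : D.stab × D.Fib in nhds (1, x), z.1.1 ∈ V :=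
    ((continuous_subtype_val.comp continuous_fst).continuousAt
      (x := ((1, x) : D.stab × D.Fib))).eventually (hV.mem_nhds hV1)
  filter_upwards [e1, e2, e3] with z h1 h2 h3
  show D.R.β z.1.1 (f.1 (D.fibAct.act z.1⁻¹ z.2)) = f.1 z.2
  rw [h1, h2, hVb _ h3]

theorem eu_small (D : DescData Γ X O B) (f : SF D.Fib B) :
    ∃ U : Subgroup Γ, DescData.CO U ∧ ∀ γ : D.stab, γ.1 ∈ U → D.fop γ f = f := by
  have h := descex_ev D f
  rw [nhds_subtype_eq_comap, Filter.eventually_comap] at h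
  obtain ⟨V, hV, hVo, hV1⟩ := eventually_nhds_iff.1 h
  obtain ⟨U, hU, hUV⟩ := co_basis V hVo hV1
  have key : ∀ γ : D.stab, γ.1 ∈ U → ∀ x ∈ tsupport f.1,
      D.R.β γ.1 (f (D.fibAct.act γ⁻¹ x)) = f x := fun γ hγ => hV γ.1 (hUV hγ) γ rfl
  refine ⟨U, hU, fun γ hγ => SF.ext fun x => ?_⟩
  rw [D.fop_apply]
  by_cases hx : x ∈ tsupport f.1
  · exact key γ hγ x hx
  · have h0 : f x = 0 := image_eq_zero_of_notMem_tsupport hx
    have h1 : f (D.fibAct.act γ⁻¹ x) = 0 := by
      by_contra hne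
      have hy : D.fibAct.act γ⁻¹ x ∈ tsupport f.1 := subset_tsupport _ hne
      have h2 := key γ⁻¹ (U.inv_mem hγ) _ hy
      rw [inv_inv, D.fibAct.act_inv, h0, map_zero] at h2
      exact hne h2.symm
    rw [h1, map_zero, h0]

private theorem descex_mem (D : DescData Γ X O B) {u : Γ} {x : X} (h : D.C.act u D.o = D.π x) :
    D.π (D.A.act u⁻¹ x) = D.o := by
  rw [D.eqv, ← h, D.C.inv_act]

open Classical in
private def descex_F (D : DescData Γ X O B) (f : SF D.Fib B) (U : Subgroup Γ) (x : X) : B :=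
  if h : ∃ u ∈ U, D.C.act u D.o = D.π x then
    D.R.β h.choose (f ⟨D.A.act h.choose⁻¹ x, descex_mem D h.choose_spec.2⟩)
  else 0

private theorem descex_F_zero (D : DescData Γ X O B) (f : SF D.Fib B) (U : Subgroup Γ) (x : X)
    (h : ∀ u ∈ U, D.C.act u D.o ≠ D.π x) : descex_F D f U x = 0 := by
  unfold descex_F
  rw [dif_neg]
  rintro ⟨u, hu, h1⟩
  exact h u hu h1

private theorem descex_F_eq (D : DescData Γ X O B) (f : SF D.Fib B) (U : Subgroup Γ)
    (h : ∀ γ : D.stab, γ.1 ∈ U → D.fop γ f = f) (x : X) (u : Γ) (hu : u ∈ U)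
    (hx : D.C.act u D.o = D.π x) :
    descex_F D f U x = D.R.β u (f ⟨D.A.act u⁻¹ x, descex_mem D hx⟩) := by
  have hex : ∃ u ∈ U, D.C.act u D.o = D.π x := ⟨u, hu, hx⟩
  unfold descex_F
  rw [dif_pos hex]
  obtain ⟨h1, h2⟩ := hex.choose_spec
  set v := hex.choose with hv
  have hs : u⁻¹ * v ∈ D.stab := by
    rw [D.mem_stab, D.C.mul, h2, ← hx, D.C.inv_act]
  have hsU : u⁻¹ * v ∈ U := U.mul_mem (U.inv_mem hu) h1
  have h3 := h ⟨u⁻¹ * v, hs⟩ hsU
  have h4 : D.fop ⟨u⁻¹ * v, hs⟩ f ⟨D.A.act u⁻¹ x, descex_mem D hx⟩ =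
      f ⟨D.A.act u⁻¹ x, descex_mem D hx⟩ := by rw [h3]
  rw [D.fop_apply] at h4
  have h5 : D.fibAct.act (⟨u⁻¹ * v, hs⟩ : D.stab)⁻¹ ⟨D.A.act u⁻¹ x, descex_mem D hx⟩ =
      ⟨D.A.act v⁻¹ x, descex_mem D h2⟩ := by
    apply Subtype.ext
    show D.A.act (u⁻¹ * v)⁻¹ (D.A.act u⁻¹ x) = D.A.act v⁻¹ x
    rw [← D.A.mul]
    congr 1
    group
  rw [h5] at h4
  rw [← h4]
  have h6 : D.R.β v = D.R.β u * D.R.β (u⁻¹ * v) := by
    rw [← map_mul]
    congr 1
    group
  rw [h6]
  rfl

private theorem descex_lc (D : DescData Γ X O B) (f : SF D.Fib B) (U : Subgroup Γ)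
    (hU : DescData.CO U) (h : ∀ γ : D.stab, γ.1 ∈ U → D.fop γ f = f) :
    IsLocallyConstant (descex_F D f U) := by
  rw [IsLocallyConstant.iff_eventually_eq]
  intro x
  have hcont : Continuous fun γ : Γ => D.C.act γ D.o :=
    D.C.cont.comp (continuous_id.prodMk continuous_const)
  by_cases hx : ∃ u ∈ U, D.C.act u D.o = D.π x
  · obtain ⟨u, hu, hux⟩ := hx
    rw [descex_F_eq D f U h x u hu hux]
    set x0 : D.Fib := ⟨D.A.act u⁻¹ x, descex_mem D hux⟩ with hx0
    -- neighbourhoods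
    obtain ⟨V, hV, hV1, hVb⟩ := D.R.smooth (f.1 x0)
    have hlc := (IsLocallyConstant.iff_eventually_eq _).mp f.2.1 x0
    rw [nhds_subtype_eq_comap, Filter.eventually_comap] at hlc
    have c1 : Continuous fun z : Γ × X => D.A.act (u * z.1)⁻¹ z.2 :=
      D.A.cont.comp ((continuous_const.mul continuous_fst).inv.prodMk continuous_snd)
    have e1 : ∀ᶠ z : Γ × X in nhds (1, x), ∀ a : D.Fib, a.1 = D.A.act (u * z.1)⁻¹ z.2 →
        f.1 a = f.1 x0 := by
      have : Filter.Tendsto (fun z : Γ × X => D.A.act (u * z.1)⁻¹ z.2)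
          (nhds (1, x)) (nhds x0.1) := by
        have h := c1.continuousAt (x := ((1, x) : Γ × X))
        unfold ContinuousAt at h
        simp only [mul_one] at h
        exact h
      exact this.eventually hlc
    rw [nhds_prod_eq] at e1
    obtain ⟨p, hp, q, hq, hpq⟩ := Filter.eventually_prod_iff.1 e1
    obtain ⟨N, hN, hNo, hN1⟩ := eventually_nhds_iff.1 hp
    -- the open set of group elements
    have hNN : IsOpen (N ∩ V ∩ (U : Set Γ)) := (hNo.inter hV).inter hU.1
    have hNN1 : (1 : Γ) ∈ N ∩ V ∩ (U : Set Γ) := ⟨⟨hN1, hV1⟩, U.one_mem⟩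
    have hM : IsOpen ((fun n => u * n) '' (N ∩ V ∩ (U : Set Γ))) :=
      (isOpenMap_mul_left u) _ hNN
    have hMo := D.opn _ hM
    have hmem : D.π x ∈ (fun γ => D.C.act γ D.o) '' ((fun n => u * n) '' (N ∩ V ∩ (U : Set Γ))) :=
      ⟨u, ⟨1, hNN1, mul_one u⟩, hux⟩
    have e2 : ∀ᶠ x' in nhds x, D.π x' ∈
        (fun γ => D.C.act γ D.o) '' ((fun n => u * n) '' (N ∩ V ∩ (U : Set Γ))) :=
      D.hπ.continuousAt.eventually (hMo.mem_nhds hmem)
    filter_upwards [hq, e2] with x' hq' hx'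
    obtain ⟨_, ⟨n, ⟨⟨hn1, hn2⟩, hn3⟩, rfl⟩, hn⟩ := hx'
    have hn' : D.C.act (u * n) D.o = D.π x' := hn
    rw [descex_F_eq D f U h x' (u * n) (U.mul_mem hu hn3) hn']
    have h7 : f.1 ⟨D.A.act (u * n)⁻¹ x', descex_mem D hn'⟩ = f.1 x0 :=
      hpq (hN n hn1) hq' _ rfl
    show D.R.β (u * n) (f.1 ⟨D.A.act (u * n)⁻¹ x', descex_mem D hn'⟩) = D.R.β u (f.1 x0)
    rw [h7, map_mul]
    show D.R.β u (D.R.β n (f.1 x0)) = D.R.β u (f.1 x0)
    rw [hVb n hn2]
  · have hx' : D.π x ∉ (fun γ => D.C.act γ D.o) '' (U : Set Γ) := by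
      rintro ⟨u, hu, h1⟩
      exact hx ⟨u, hu, h1⟩
    have hcl : IsClosed ((fun γ => D.C.act γ D.o) '' (U : Set Γ)) := (hU.2.image hcont).isClosed
    have e1 : ∀ᶠ x' in nhds x, D.π x' ∉ (fun γ => D.C.act γ D.o) '' (U : Set Γ) :=
      D.hπ.continuousAt.eventually (hcl.isOpen_compl.mem_nhds hx')
    filter_upwards [e1] with x' hx''
    rw [descex_F_zero D f U x' (fun u hu h1 => hx'' ⟨u, hu, h1⟩),
      descex_F_zero D f U x (fun u hu h1 => hx' ⟨u, hu, h1⟩)]

theorem eu_exists (D : DescData Γ X O B) (f : SF D.Fib B) (U : Subgroup Γ) (hU : DescData.CO U)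
    (h : ∀ γ : D.stab, γ.1 ∈ U → D.fop γ f = f) : ∃ F : SF X B, D.IsEU U f F := by
  have hcs : HasCompactSupport (descex_F D f U) := by
    have hK : IsCompact ((fun z : Γ × D.Fib => D.A.act z.1 z.2.1) ''
        ((U : Set Γ) ×ˢ tsupport f.1)) := by
      refine (hU.2.prod f.2.2).image ?_
      exact D.A.cont.comp (continuous_fst.prodMk (continuous_subtype_val.comp continuous_snd))
    refine HasCompactSupport.of_support_subset_isCompact hK ?_
    intro x hx
    rw [Function.mem_support] at hx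
    by_cases hex : ∃ u ∈ U, D.C.act u D.o = D.π x
    · obtain ⟨u, hu, hux⟩ := hex
      rw [descex_F_eq D f U h x u hu hux] at hx
      refine ⟨(u, ⟨D.A.act u⁻¹ x, descex_mem D hux⟩), ⟨hu, ?_⟩, ?_⟩
      · apply subset_tsupport
        rw [Function.mem_support]
        intro h0
        apply hx
        show D.R.β u (f.1 ⟨D.A.act u⁻¹ x, descex_mem D hux⟩) = 0
        rw [h0, map_zero]
      · exact D.A.act_inv u x
    · exact absurd (descex_F_zero D f U x (fun u hu h1 => hex ⟨u, hu, h1⟩)) hx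
  refine ⟨⟨descex_F D f U, descex_lc D f U hU h, hcs⟩, ?_, ?_⟩
  · intro u hu x
    have hx : D.C.act u D.o = D.π (D.A.act u x.1) := by rw [D.eqv, x.2]
    show descex_F D f U (D.A.act u x.1) = D.R.β u (f x)
    rw [descex_F_eq D f U h _ u hu hx]
    congr 2
    exact congrArg _ (Subtype.ext (D.A.inv_act u x.1))
  · intro x hx
    exact descex_F_zero D f U x hx

theorem eu_unique (D : DescData Γ X O B) (f : SF D.Fib B) (U : Subgroup Γ) {F F' : SF X B}
    (h : D.IsEU U f F) (h' : D.IsEU U f F') : F = F' := by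
  apply SF.ext
  intro x
  by_cases hex : ∃ u ∈ U, D.C.act u D.o = D.π x
  · obtain ⟨u, hu, hux⟩ := hex
    have e1 := h.1 u hu ⟨D.A.act u⁻¹ x, descex_mem D hux⟩
    have e2 := h'.1 u hu ⟨D.A.act u⁻¹ x, descex_mem D hux⟩
    simp only [D.A.act_inv] at e1 e2
    rw [e1, e2]
  · have h0 : ∀ u ∈ U, D.C.act u D.o ≠ D.π x := fun u hu h1 => hex ⟨u, hu, h1⟩
    rw [h.2 x h0, h'.2 x h0]

theorem eu_inv (D : DescData Γ X O B) (f : SF D.Fib B) (U : Subgroup Γ) {F : SF X B}
    (h : D.IsEU U f F) (γ : D.stab) (hγ : γ.1 ∈ U) : D.fop γ f = f := by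
  apply SF.ext
  intro x
  rw [D.fop_apply]
  have e1 := h.1 γ.1 hγ (D.fibAct.act γ⁻¹ x)
  have e2 := h.1 1 U.one_mem x
  have e3 : D.A.act γ.1 (D.fibAct.act γ⁻¹ x).1 = x.1 := D.A.act_inv γ.1 x.1
  rw [e3] at e1
  rw [D.A.one, map_one] at e2
  rw [← e1, e2]
  rfl

end

end Pool.Agent.Work.MP_dd0ddf_al.OC
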