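import Pool.Agent.Work.MP_dd0ddf_al.OC.DescNorm

/-!
# MP_dd0ddf_al, module DescMod: existence of the modulus

Fix a compact open subgroup `U0` and put `m(U) = gidx U U0 / gidx (U ⊓ S) (U0 ⊓ S)`, `S = D.stab`.
Positivity: `gidx_pos`, `comm'_of_co`, `comm'_inf`.
Automorphism `φ` preserving `S`: `m(φ U)/m(U) = gidx (φU) U / gidx (φU ⊓ S) (U ⊓ S)` (cocycle property) and this does not depend on `U`:
`gidx (φU) U = gidx (φU) (φW) gidx (φW) W gidx W U = gidx (φW) W` by `gidx_map`; same for the intersections with `S`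
(`(U ⊓ S).map φ = U.map φ ⊓ S`).  (`d = m (φ U0) / m U0`.)
Functional: for `f : SF Fib B` choose by `eu_small, eu_exists` some `U` and `F` with `IsEU U f F`; put `S(f) = T F / m(U)`.
Independent of the choice: for two `U, U'` let `W = U ⊓ U'`; `N =` normal core of `W` in `U` is open of finite index, normalised by `U`, and by `W`;
`eu_norm` for `(U, N)` and `(W, N)` and the cocycle property give `T (E_U f)/m(U) = T (E_N f)/m(N) = T (E_W f)/m(W)`; same for `U'`.
(`E_N f`, `E_W f` exist by `eu_exists` because `f` is invariant under `U ⊓ S`, `eu_inv`.)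
Linearity: choose one `U` good for `f, g, f + g`: `E_U f + E_U g` is `E_U (f+g)`; similarly for scalars.
-/

set_option linter.unusedSectionVars false
set_option linter.style.haveILetI false

namespace Pool.Agent.Work.MP_dd0ddf_al.OC

noncomputable section

variable {Γ X O B : Type*} [Group Γ] [TopologicalSpace Γ] [IsTopologicalGroup Γ]
  [LocallyCompactSpace Γ] [T2Space Γ] [TotallyDisconnectedSpace Γ] [SigmaCompactSpace Γ]
  [TopologicalSpace X] [T2Space X] [LocallyCompactSpace X] [TotallyDisconnectedSpace X]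
  [TopologicalSpace O] [T2Space O] [AddCommGroup B] [Module ℂ B]

private def descmod_m (D : DescData Γ X O B) (U0 U : Subgroup Γ) : ℝ :=
  gidx U U0 / gidx (U ⊓ D.stab) (U0 ⊓ D.stab)

private theorem descmod_pos (D : DescData Γ X O B) {U0 U : Subgroup Γ} (h0 : DescData.CO U0)
    (h : DescData.CO U) : 0 < descmod_m D U0 U :=
  div_pos (gidx_pos (comm'_of_co h h0)) (gidx_pos (comm'_inf D.stab (comm'_of_co h h0)))

private theorem descmod_coc (D : DescData Γ X O B) {U0 U N : Subgroup Γ} (h0 : DescData.CO U0)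
    (h : DescData.CO U) (hN : DescData.CO N) :
    descmod_m D U0 U = gidx U N / gidx (U ⊓ D.stab) (N ⊓ D.stab) * descmod_m D U0 N := by
  unfold descmod_m
  rw [← gidx_mul (comm'_of_co h hN) (comm'_of_co hN h0),
    ← gidx_mul (comm'_inf D.stab (comm'_of_co h hN)) (comm'_inf D.stab (comm'_of_co hN h0))]
  have h1 := (gidx_pos (comm'_inf D.stab (comm'_of_co h hN))).ne'
  have h2 := (gidx_pos (comm'_inf D.stab (comm'_of_co hN h0))).ne'
  field_simp

private theorem descmod_core {U W : Subgroup Γ} (hU : DescData.CO U) (hW : DescData.CO W) :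
    ∃ N : Subgroup Γ, DescData.CO N ∧ N ≤ U ∧ N ≤ W ∧ ∀ u ∈ U, ∀ n ∈ N, u * n * u⁻¹ ∈ N := by
  haveI : CompactSpace U := isCompact_iff_compactSpace.1 hU.2
  have hWo : IsOpen ((W.subgroupOf U : Subgroup U) : Set U) := hW.1.preimage continuous_subtype_val
  haveI : Finite (U ⧸ W.subgroupOf U) := Subgroup.quotient_finite_of_isOpen _ hWo
  haveI : (W.subgroupOf U).FiniteIndex := Subgroup.finiteIndex_of_finite_quotient
  have hcl : IsClosed (((W.subgroupOf U).normalCore : Subgroup U) : Set U) :=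
    Subgroup.normalCore_isClosed _ (Subgroup.isClosed_of_isOpen _ hWo)
  have hop : IsOpen (((W.subgroupOf U).normalCore : Subgroup U) : Set U) :=
    Subgroup.isOpen_of_isClosed_of_finiteIndex _ hcl
  have hset : (((W.subgroupOf U).normalCore.map U.subtype : Subgroup Γ) : Set Γ) =
      Subtype.val '' (((W.subgroupOf U).normalCore : Subgroup U) : Set U) := rfl
  have hNo : IsOpen (((W.subgroupOf U).normalCore.map U.subtype : Subgroup Γ) : Set Γ) := by
    rw [hset]
    exact hU.1.isOpenEmbedding_subtypeVal.isOpenMap _ hop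
  have hNU : (W.subgroupOf U).normalCore.map U.subtype ≤ U := by
    rintro _ ⟨n, _, rfl⟩
    exact n.2
  refine ⟨(W.subgroupOf U).normalCore.map U.subtype, ⟨hNo, ?_⟩, hNU, ?_, ?_⟩
  · exact hU.2.of_isClosed_subset (Subgroup.isClosed_of_isOpen _ hNo) hNU
  · rintro _ ⟨n, hn, rfl⟩
    exact (W.subgroupOf U).normalCore_le hn
  · rintro u hu _ ⟨n, hn, rfl⟩
    exact ⟨⟨u, hu⟩ * n * ⟨u, hu⟩⁻¹,
      (W.subgroupOf U).normalCore_normal.conj_mem n hn ⟨u, hu⟩, rfl⟩

private theorem descmod_le (D : DescData Γ X O B) {U0 U W : Subgroup Γ} (h0 : DescData.CO U0)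
    (hU : DescData.CO U) (hW : DescData.CO W) (hWU : W ≤ U) {f : SF D.Fib B} {F F' : SF X B}
    (h : D.IsEU U f F) (h' : D.IsEU W f F')
    (T : SF X B →ₗ[ℂ] ℂ) (hT : ∀ γ f, T (D.A.op D.R γ f) = T f) :
    T F / (descmod_m D U0 U : ℂ) = T F' / (descmod_m D U0 W : ℂ) := by
  obtain ⟨N, hN, hNU, hNW, hn⟩ := descmod_core hU hW
  obtain ⟨G, hG⟩ := eu_exists D f N hN (fun γ hγ => eu_inv D f U h γ (hNU hγ))
  have key : ∀ {V : Subgroup Γ} {E : SF X B}, DescData.CO V → N ≤ V → V ≤ U → D.IsEU V f E →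
      T E / (descmod_m D U0 V : ℂ) = T G / (descmod_m D U0 N : ℂ) := by
    intro V E hV hNV hVU hE
    rw [eu_norm D f V N hV hN hNV (fun u hu n hn' => hn u (hVU hu) n hn') hE hG T hT,
      descmod_coc D h0 hV hN]
    have h1 : ((gidx V N / gidx (V ⊓ D.stab) (N ⊓ D.stab) : ℝ) : ℂ) ≠ 0 := by
      rw [Ne, Complex.ofReal_eq_zero]
      exact (div_pos (gidx_pos (comm'_of_co hV hN))
        (gidx_pos (comm'_inf D.stab (comm'_of_co hV hN)))).ne'
    have h2 : (descmod_m D U0 N : ℂ) ≠ 0 := by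
      rw [Ne, Complex.ofReal_eq_zero]
      exact (descmod_pos D h0 hN).ne'
    rw [Complex.ofReal_mul]
    field_simp
  rw [key hU hNU le_rfl h, key hW hNW hWU h']

private theorem descmod_inf {U W : Subgroup Γ} (hU : DescData.CO U) (hW : DescData.CO W) :
    DescData.CO (U ⊓ W) := by
  have h : IsOpen ((U ⊓ W : Subgroup Γ) : Set Γ) := hU.1.inter hW.1
  exact ⟨h, hU.2.of_isClosed_subset (Subgroup.isClosed_of_isOpen _ h) (fun x hx => hx.1)⟩

private theorem descmod_indep (D : DescData Γ X O B) {U0 U W : Subgroup Γ} (h0 : DescData.CO U0)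
    (hU : DescData.CO U) (hW : DescData.CO W) {f : SF D.Fib B} {F F' : SF X B}
    (h : D.IsEU U f F) (h' : D.IsEU W f F')
    (T : SF X B →ₗ[ℂ] ℂ) (hT : ∀ γ f, T (D.A.op D.R γ f) = T f) :
    T F / (descmod_m D U0 U : ℂ) = T F' / (descmod_m D U0 W : ℂ) := by
  have hI := descmod_inf hU hW
  obtain ⟨G, hG⟩ := eu_exists D f (U ⊓ W) hI (fun γ hγ => eu_inv D f U h γ hγ.1)
  rw [descmod_le D h0 hU hI inf_le_left h hG T hT, descmod_le D h0 hW hI inf_le_right h' hG T hT]

private theorem descmod_map {U : Subgroup Γ} (φ : Γ ≃* Γ) (h1 : Continuous φ)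
    (h2 : Continuous φ.symm) (hU : DescData.CO U) : DescData.CO (U.map φ.toMonoidHom) := by
  constructor
  · have : ((U.map φ.toMonoidHom : Subgroup Γ) : Set Γ) = φ.symm ⁻¹' (U : Set Γ) := by
      ext x
      constructor
      · rintro ⟨y, hy, rfl⟩
        show φ.symm (φ y) ∈ U
        rw [MulEquiv.symm_apply_apply]
        exact hy
      · intro hx
        exact ⟨φ.symm x, hx, φ.apply_symm_apply x⟩
    rw [this]
    exact hU.1.preimage h2
  · exact hU.2.image h1

theorem exists_mod (D : DescData Γ X O B) : ∃ m : Subgroup Γ → ℝ, D.IsMod m := by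
  classical
  obtain ⟨U0, h0, -⟩ := co_basis (Set.univ : Set Γ) isOpen_univ (Set.mem_univ _)
  refine ⟨descmod_m D U0, fun U hU => descmod_pos D h0 hU, ?_, ?_⟩
  · intro φ h1 h2 h3
    have hφ0 := descmod_map φ h1 h2 h0
    have hst : ∀ U : Subgroup Γ, U.map φ.toMonoidHom ⊓ D.stab =
        (U ⊓ D.stab).map φ.toMonoidHom := by
      intro U
      ext x
      constructor
      · rintro ⟨⟨y, hy, rfl⟩, hx⟩
        exact ⟨y, ⟨hy, (h3 y).2 hx⟩, rfl⟩
      · rintro ⟨y, ⟨hy1, hy2⟩, rfl⟩
        exact ⟨⟨y, hy1, rfl⟩, (h3 y).1 hy2⟩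
    refine ⟨descmod_m D U0 (U0.map φ.toMonoidHom), descmod_pos D h0 hφ0, fun U hU => ?_⟩
    have hφU := descmod_map φ h1 h2 hU
    rw [descmod_coc D h0 hφU hφ0, hst, hst, gidx_map, gidx_map, mul_comm]
    rfl
  · intro T hT
    have hex : ∀ f : SF D.Fib B, ∃ q : Subgroup Γ × SF X B, DescData.CO q.1 ∧ D.IsEU q.1 f q.2 := by
      intro f
      obtain ⟨U, hU, h⟩ := eu_small D f
      obtain ⟨F, hF⟩ := eu_exists D f U hU h
      exact ⟨(U, F), hU, hF⟩
    choose q hq1 hq2 using hex
    have hS : ∀ (U : Subgroup Γ) (f : SF D.Fib B) (F : SF X B), DescData.CO U → D.IsEU U f F →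
        T (q f).2 / (descmod_m D U0 (q f).1 : ℂ) = T F / (descmod_m D U0 U : ℂ) :=
      fun U f F hU hF => descmod_indep D h0 (hq1 f) hU (hq2 f) hF T hT
    refine ⟨{ toFun := fun f => T (q f).2 / (descmod_m D U0 (q f).1 : ℂ)
              map_add' := ?_
              map_smul' := ?_ }, ?_⟩
    · intro f g
      have hI := descmod_inf (hq1 f) (hq1 g)
      obtain ⟨F1, hF1⟩ := eu_exists D f ((q f).1 ⊓ (q g).1) hI
        (fun γ hγ => eu_inv D f (q f).1 (hq2 f) γ hγ.1)
      obtain ⟨F2, hF2⟩ := eu_exists D g ((q f).1 ⊓ (q g).1) hI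
        (fun γ hγ => eu_inv D g (q g).1 (hq2 g) γ hγ.2)
      have hF : D.IsEU ((q f).1 ⊓ (q g).1) (f + g) (F1 + F2) := by
        constructor
        · intro u hu x
          show F1 (D.A.act u x.1) + F2 (D.A.act u x.1) = D.R.β u (f x + g x)
          rw [hF1.1 u hu x, hF2.1 u hu x, map_add]
        · intro x hx
          show F1 x + F2 x = 0
          rw [hF1.2 x hx, hF2.2 x hx, add_zero]
      rw [hS _ _ _ hI hF, hS _ _ _ hI hF1, hS _ _ _ hI hF2, map_add, add_div]
    · intro c f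
      have hF : D.IsEU (q f).1 (c • f) (c • (q f).2) := by
        constructor
        · intro u hu x
          show c • (q f).2 (D.A.act u x.1) = D.R.β u (c • f x)
          rw [(hq2 f).1 u hu x, map_smul]
        · intro x hx
          show c • (q f).2 x = 0
          rw [(hq2 f).2 x hx, smul_zero]
      rw [hS _ _ _ (hq1 f) hF, map_smul, smul_eq_mul, RingHom.id_apply, smul_eq_mul, mul_div_assoc]
    · intro U f F hU hF
      show T F = _ * (T (q f).2 / (descmod_m D U0 (q f).1 : ℂ))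
      rw [hS U f F hU hF]
      have h2 : (descmod_m D U0 U : ℂ) ≠ 0 := by
        rw [Ne, Complex.ofReal_eq_zero]
        exact (descmod_pos D h0 hU).ne'
      field_simp

end

end Pool.Agent.Work.MP_dd0ddf_al.OC
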