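import Pool.Agent.Work.MP_dd0ddf_al.OC.GaussSL2
import Pool.Agent.Work.MP_dd0ddf_al.OC.GaussApi

/-!
# MP_dd0ddf_al, module Gauss71: Lemma W (7.1)

`S` and `S ∘ 𝓕` are supported on the null cone `{b(v,v) = 0}`.  Then `S (M_c f) = S f` and `S (𝓕 M_c h) = S (𝓕 h)` for all `c` (the differences are functions
vanishing on the cone).  Apply `S` to `sl2_identity c g`: the left side gives
`S(𝓕 M_c 𝓕* M_{1/c} g) = S(𝓕 𝓕* M_{1/c} g) = C S(M_{1/c} g) = C S(g)` (`four_inv'`, C = fourC).  So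
`C S(g) = κ(cβ) S((𝓕 g)(·/c))` for all `c ≠ 0`; comparing with `c = 1` and writing `f = 𝓕 g` (surjective): `κ(cβ) S(f(·/c)) = κ(β) S(f)`.
`lemma71_sq`: `c = t²`: `κ(t² β) = hmod(dil t) κ(β)`, `κ(β) ≠ 0`.
-/

set_option linter.unusedSectionVars false
set_option linter.style.haveILetI false

namespace Pool.Agent.Work.MP_dd0ddf_al.OC

noncomputable section

universe u

variable {F : Type u} [NontriviallyNormedField F] [IsUltrametricDist F] [ProperSpace F]
  [NeZero (2 : F)]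
variable {U : Type u} [AddCommGroup U] [Module F U] [Module.Finite F U] [TopologicalSpace U]
  [IsTopologicalAddGroup U] [T2Space U] [ContinuousSMul F U] [LocallyCompactSpace U]
  [TotallyDisconnectedSpace U]
variable {U' : Type u} [AddCommGroup U'] [Module F U'] [Module.Finite F U'] [TopologicalSpace U']
  [IsTopologicalAddGroup U'] [T2Space U'] [ContinuousSMul F U'] [LocallyCompactSpace U']
  [TotallyDisconnectedSpace U']

private theorem gauss71_chirp (β : SForm F U) (p : PChar F) (S : SF U ℂ →ₗ[ℂ] ℂ)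
    (h1 : SF.SuppOn S {v | β.b v v = 0}) (c : F) (hc : c ≠ 0) (g : SF U ℂ) :
    S (chirp (β.scale c hc) p g) = S g := by
  rw [← sub_eq_zero, ← map_sub]
  apply h1
  intro z hz
  have hz' : β.b z z = 0 := hz
  have e1 : (chirp (β.scale c hc) p g - g : SF U ℂ) z =
      p.ψ (2⁻¹ * (c * β.b z z)) * g z - g z := rfl
  rw [e1, hz', mul_zero, mul_zero, gaussdefs_psi_zero p, one_mul, sub_self]

private theorem gauss71_main (β : SForm F U) (p : PChar F) (S : SF U ℂ →ₗ[ℂ] ℂ)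
    (h1 : SF.SuppOn S {v | β.b v v = 0})
    (h2 : SF.SuppOn (S ∘ₗ four1 (β.bi p)) {v | β.b v v = 0}) (c : F) (hc : c ≠ 0)
    (g : SF U ℂ) :
    (fourC (β.bi p) (uc_U F U) : ℂ) * S g =
      kap (β.scale c hc) p * S (SF.comp (dil U c⁻¹ (inv_ne_zero hc)).h (four1 (β.bi p) g)) := by
  have h3 := congrArg S (sl2_identity β p c hc g)
  rw [gauss71_chirp β p S h1, map_smul, smul_eq_mul] at h3
  rw [← h3]
  have h4 := gauss71_chirp β p (S ∘ₗ four1 (β.bi p)) h2 c hc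
    (four1 (β.bi p).dual (chirp (β.scale c⁻¹ (inv_ne_zero hc)) p g))
  have h5 : S (four1 (β.bi p) (chirp (β.scale c hc) p (four1 (β.bi p).dual
      (chirp (β.scale c⁻¹ (inv_ne_zero hc)) p g)))) = S (four1 (β.bi p) (four1 (β.bi p).dual
      (chirp (β.scale c⁻¹ (inv_ne_zero hc)) p g))) := h4
  rw [h5, four_inv' (β.bi p) (uc_U F U), map_smul, gauss71_chirp β p S h1, smul_eq_mul]

theorem lemma71 (β : SForm F U) (p : PChar F) (S : SF U ℂ →ₗ[ℂ] ℂ)
    (h1 : SF.SuppOn S {v | β.b v v = 0})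
    (h2 : SF.SuppOn (S ∘ₗ four1 (β.bi p)) {v | β.b v v = 0}) (c : F) (hc : c ≠ 0)
    (f : SF U ℂ) :
    kap (β.scale c hc) p * S (SF.comp (dil U c⁻¹ (inv_ne_zero hc)).h f) = kap β p * S f := by
  set C : ℂ := (fourC (β.bi p) (uc_U F U) : ℂ) with hC
  have hC0 : C ≠ 0 := by
    rw [hC]
    exact_mod_cast (fourC_pos (β.bi p) (uc_U F U)).ne'
  set g : SF U ℂ := C⁻¹ • four1 (β.bi p).dual f with hg
  have hgf : four1 (β.bi p) g = f := by
    rw [hg, map_smul, four_inv' (β.bi p) (uc_U F U), ← hC, smul_smul, inv_mul_cancel₀ hC0,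
      one_smul]
  have e1 := gauss71_main β p S h1 h2 c hc g
  have e2 := gauss71_main β p S h1 h2 1 one_ne_zero g
  rw [hgf] at e1 e2
  rw [← e1, e2]
  have e3 : kap (β.scale 1 one_ne_zero) p = kap β p :=
    kap_ext _ _ p fun v w => one_mul _
  have e4 : SF.comp (dil U (1 : F)⁻¹ (inv_ne_zero one_ne_zero)).h f = f := by
    apply SF.ext
    intro v
    show f ((1 : F)⁻¹ • v) = f v
    rw [inv_one, one_smul]
  rw [e3, e4]

theorem lemma71_sq (β : SForm F U) (p : PChar F) (S : SF U ℂ →ₗ[ℂ] ℂ)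
    (h1 : SF.SuppOn S {v | β.b v v = 0})
    (h2 : SF.SuppOn (S ∘ₗ four1 (β.bi p)) {v | β.b v v = 0}) (t : F) (ht : t ≠ 0)
    (f : SF U ℂ) :
    (hmod (dil U t ht) : ℂ) *
      S (SF.comp (dil U (t ^ 2)⁻¹ (inv_ne_zero (pow_ne_zero 2 ht))).h f) = S f := by
  have h3 := lemma71 β p S h1 h2 (t ^ 2) (pow_ne_zero 2 ht) f
  have h4 := kap_scale_sq β p 1 t one_ne_zero ht
  have h5 : kap (β.scale (1 * t ^ 2) (mul_ne_zero one_ne_zero (pow_ne_zero 2 ht))) p =
      kap (β.scale (t ^ 2) (pow_ne_zero 2 ht)) p :=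
    kap_ext _ _ p fun v w => by
      show 1 * t ^ 2 * β.b v w = t ^ 2 * β.b v w
      rw [one_mul]
  have e3 : kap (β.scale 1 one_ne_zero) p = kap β p :=
    kap_ext _ _ p fun v w => one_mul _
  rw [h5, e3] at h4
  rw [h4] at h3
  have h6 := kap_ne_zero β p
  refine mul_left_cancel₀ h6 ?_
  rw [← h3]
  ring

end

end Pool.Agent.Work.MP_dd0ddf_al.OC
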