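import Pool.Agent.Work.MP_dd0ddf_al.OC.NiMain
import Pool.Agent.Work.MP_dd0ddf_al.OC.GaussApi
import Pool.Agent.Work.MP_dd0ddf_al.OC.GaussSL2

/-!
# MP_dd0ddf_al, module NiGauss: Gauss integrals of the norm form

`nform c` is the form `b(x, y) = c Tr(x star y)` on `E`; `½ b(x,x) = c N(x)`.  Let `|a|⁻¹ = hmod (dil F a)` (`∫_F φ(a r) dr = |a|⁻¹ ∫ φ`) .
`hmod_mulE`: `∫_E f(z x) dx = |N z|⁻¹ ∫ f`: let `m(z) = hmod (mulE z)`, multiplicative; `star` is an involutive automorphism of E, so `m(star z) = m(z)`;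
so `m(z)² = m(N z)` and for `a ∈ F`: `m(a) = |a|⁻²` because `E ≅ F²` (hvol of boxes, `exists_fubini`).
`kap_norm`: if `c' = N(z)`: substitution `x → z x` in `∫ ψ(c N(x)) dx`.
`kap_nonnorm`: `κ(nform (c c')) = - |c'|⁻¹ κ(nform c)` for `c'` not a norm.  Let `D(φ) = ∫_E φ(N x) dx` for `φ ∈ SF F` (φ ∘ N is locally constant with compact
support, because `‖N x‖ = ‖x‖²`).  `D(φ(a ·)) = |a|⁻¹ D(φ)` for `a ∈ N(E^×)` (hmod_mulE).  `D'(φ) = D(φ) + |c'| D(φ(c' ·))` satisfies `D'(φ(a·)) = |a|⁻¹ D'(φ)` for all `a ≠ 0`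
(true for norms, and for `c'` as c'² is a norm; index 2).  Claim `D' = C ∫_F` for a constant C: (i) on functions supported off 0: spanned by indicator functions of
`a (1 + B_r)`, `r` small; `D'(1_{a(1+B_r)}) = |a| D'(1_{1+B_r})` and for `s < r` : `1 + B_r` is a disjoint union of `[B_r : B_s]` cosets `u (1 + B_s)` with |u| = 1: so
`D'(1_{1+B_r}) = C hvol(B_r)`, C independent of r.  (ii) `D'' = D' - C ∫` is supported at `0`, `D''(φ) = C' φ(0)` and `D''(φ(a·)) = |a|⁻¹ D''(φ)` forces `C' = 0`.
Apply to `φ_R(r) = ψ(c r)` for `‖r‖ ≤ R²`, 0 otherwise: `∫_F φ_R = 0` for R large (nontrivial character of the ball), `D(φ_R) = ∫_{‖x‖ ≤ R} ψ(c N x) dx = κ(nform c)` for R large and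
`D(φ_R(c'·)) = κ(nform (c c'))` for `R` large (the region {‖c'‖ ‖x‖² ≤ R²} is a ball, a compact open subgroup; kap_spec with K = {0}).
-/

set_option linter.unusedSectionVars false
set_option linter.style.haveILetI false

namespace Pool.Agent.Work.MP_dd0ddf_al.OC

noncomputable section

universe u

variable {F E : Type u} [NontriviallyNormedField F] [IsUltrametricDist F] [ProperSpace F]
  [NeZero (2 : F)] [NontriviallyNormedField E] [NormedAlgebra F E] [ProperSpace E] [StarRing E]
  [QExt F E] [FiniteDimensional F E]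

private theorem nigauss_trace_star {F E : Type u} [Field F] [Field E] [Algebra F E] [StarRing E]
    [QExt F E] (x : E) : Algebra.trace F E (star x) = Algebra.trace F E x :=
  Algebra.trace_eq_of_algEquiv
    ({ toFun := star
       invFun := star
       left_inv := star_star
       right_inv := star_star
       map_mul' := fun x y => by rw [star_mul']
       map_add' := fun x y => star_add x y
       commutes' := fun a => QExt.star_alg a } : E ≃ₐ[F] E) x

private theorem nigauss_trace_nd {F E : Type u} [Field F] [NeZero (2 : F)] [Field E] [Algebra F E]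
    [StarRing E] [QExt F E] (x : E) (h : ∀ y : E, Algebra.trace F E (x * star y) = 0) :
    x = 0 := by
  haveI : FiniteDimensional F E := qext_findim F E
  haveI : Algebra.IsSeparable F E := qext_sep F E
  have hnd := traceForm_nondegenerate F E
  refine hnd.1 x fun y => ?_
  rw [Algebra.traceForm_apply]
  have := h (star y)
  rwa [star_star] at this

variable (F) in
/-- the form `c Tr(x star y)` on `E` -/
def nform (E : Type u) [NontriviallyNormedField E] [NormedAlgebra F E] [StarRing E] [QExt F E]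
    (c : F) (hc : c ≠ 0) : SForm F E where
  b x y := c * Algebra.trace F E (x * star y)
  add_left u v w := by rw [add_mul, map_add, mul_add]
  smul_left a v w := by
    rw [Algebra.smul_mul_assoc, map_smul, smul_eq_mul]
    ring
  symm x y := by
    rw [← nigauss_trace_star (x * star y), star_mul', star_star, mul_comm (star x) y]
  nondeg x h := nigauss_trace_nd x fun y => (mul_eq_zero.1 (h y)).resolve_left hc

/-- multiplication by `z ≠ 0` on a field -/
def mulT (L : Type*) [NontriviallyNormedField L] (z : L) (hz : z ≠ 0) : TAut L where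
  h := Homeomorph.mulLeft₀ z hz
  add x y := mul_add z x y

private theorem nigauss_mulT_apply (L : Type*) [NontriviallyNormedField L] (z : L) (hz : z ≠ 0)
    (x : L) : (mulT L z hz).h x = z * x := rfl

section gen

variable {G G' : Type*} [AddCommGroup G] [TopologicalSpace G] [IsTopologicalAddGroup G]
  [LocallyCompactSpace G] [T2Space G] [TotallyDisconnectedSpace G]
  [AddCommGroup G'] [TopologicalSpace G'] [IsTopologicalAddGroup G']
  [LocallyCompactSpace G'] [T2Space G'] [TotallyDisconnectedSpace G']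

private theorem nigauss_hmod_id (α : TAut G) (h : ∀ x, α.h x = x) : hmod α = 1 := by
  have h1 := hmod_mul α α α (fun x => by rw [h (α.h x)])
  have h2 := hmod_pos α
  have h3 : hmod α * hmod α = hmod α * 1 := by rw [← h1, mul_one]
  exact mul_left_cancel₀ h2.ne' h3

private theorem nigauss_hmod_congr (α β : TAut G) (h : ∀ x, α.h x = β.h x) :
    hmod α = hmod β := by
  have h1 := hmod_mul β ⟨Homeomorph.refl G, fun _ _ => rfl⟩ α (fun x => h x)
  rw [nigauss_hmod_id ⟨Homeomorph.refl G, fun _ _ => rfl⟩ (fun _ => rfl), mul_one] at h1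
  exact h1

/-- conjugate of an automorphism under an isomorphism -/
private def nigauss_conj (e : G ≃ₜ G') (he : ∀ x y, e (x + y) = e x + e y) (α : TAut G) :
    TAut G' where
  h := (e.symm.trans α.h).trans e
  add x y := by
    have h1 : e.symm (x + y) = e.symm x + e.symm y := by
      apply e.injective
      rw [he, e.apply_symm_apply, e.apply_symm_apply, e.apply_symm_apply]
    show e (α.h (e.symm (x + y))) = e (α.h (e.symm x)) + e (α.h (e.symm y))
    rw [h1, α.add, he]

private theorem nigauss_hI_e (e : G ≃ₜ G') (he : ∀ x y, e (x + y) = e x + e y) :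
    ∃ m : ℂ, m ≠ 0 ∧ ∀ f : SF G' ℂ, hI (SF.comp e f) = m * hI f := by
  have h0 : e 0 = 0 := by
    have := he 0 0
    rw [add_zero] at this
    exact left_eq_add.1 this
  obtain ⟨φ, hφ⟩ := hI_unique (hI ∘ₗ SF.comp e : SF G' ℂ →ₗ[ℂ] ℂ) (by
    intro a f
    show hI (SF.comp e (SF.comp (Homeomorph.addRight a) f)) = hI (SF.comp e f)
    rw [← hI_trans (e.symm a) (SF.comp e f)]
    congr 1
    apply SF.ext
    intro v
    show f (e v + a) = f (e (v + e.symm a))
    rw [he, e.apply_symm_apply])
  have hφ' : ∀ f : SF G' ℂ, hI (SF.comp e f) = φ 1 * hI f := by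
    intro f
    have h1 : hI (SF.comp e f) = φ (hI f) := hφ f
    rw [h1, show hI f = hI f • (1 : ℂ) by rw [smul_eq_mul, mul_one], map_smul, smul_eq_mul,
      smul_eq_mul, mul_one, mul_comm]
  refine ⟨φ 1, ?_, hφ'⟩
  intro hm
  obtain ⟨N, hNo, hNc, -⟩ := exists_co_addSubgroup (Set.univ : Set G') isOpen_univ
    (Set.mem_univ 0)
  have hKo : IsOpen (e ⁻¹' (N : Set G')) := hNo.preimage e.continuous
  have hKc : IsCompact (e ⁻¹' (N : Set G')) := e.isCompact_preimage.2 hNc
  have e1 : SF.comp e (SF.single (N : Set G') hNc hNo (1 : ℂ)) =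
      SF.single (e ⁻¹' (N : Set G')) hKc hKo (1 : ℂ) := by
    apply SF.ext
    intro v
    show SF.single (N : Set G') hNc hNo (1 : ℂ) (e v) = _
    by_cases hv : e v ∈ N
    · rw [SF.single_apply_mem _ _ _ _ _ hv, SF.single_apply_mem]
      exact hv
    · rw [SF.single_apply_not_mem _ _ _ _ _ hv, SF.single_apply_not_mem]
      exact hv
  have h1 := hφ' (SF.single (N : Set G') hNc hNo (1 : ℂ))
  rw [e1, hI_single, hm, zero_mul, smul_eq_mul, mul_one] at h1
  have hv2 := hvol_pos _ hKc hKo ⟨0, by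
    show e 0 ∈ N
    rw [h0]
    exact N.zero_mem⟩
  have h3 : hvol (e ⁻¹' (N : Set G')) = 0 := by exact_mod_cast h1
  exact hv2.ne' h3

private theorem nigauss_exists_one (G : Type*) [AddCommGroup G] [TopologicalSpace G]
    [IsTopologicalAddGroup G] [LocallyCompactSpace G] [T2Space G] [TotallyDisconnectedSpace G] :
    ∃ f : SF G ℂ, hI f ≠ 0 := by
  obtain ⟨N, hNo, hNc, -⟩ := exists_co_addSubgroup (Set.univ : Set G) isOpen_univ
    (Set.mem_univ 0)
  refine ⟨SF.single (N : Set G) hNc hNo (1 : ℂ), ?_⟩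
  rw [hI_single, smul_eq_mul, mul_one]
  have hv2 := hvol_pos _ hNc hNo ⟨0, N.zero_mem⟩
  exact_mod_cast hv2.ne'

private theorem nigauss_hmod_conj (e : G ≃ₜ G') (he : ∀ x y, e (x + y) = e x + e y)
    (α : TAut G) (β : TAut G') (h : ∀ x, e (α.h x) = β.h (e x)) : hmod α = hmod β := by
  obtain ⟨m, hm0, hm⟩ := nigauss_hI_e e he
  obtain ⟨f, hf⟩ := nigauss_exists_one G'
  have h1 : hI (SF.comp α.h (SF.comp e f)) = hI (SF.comp e (SF.comp β.h f)) := by
    congr 1
    apply SF.ext
    intro x
    show f (e (α.h x)) = f (β.h (e x))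
    rw [h]
  rw [hI_comp_aut, hm, hm, hI_comp_aut, smul_eq_mul, smul_eq_mul] at h1
  have h2 : (m * hI f) * ((hmod α : ℂ) - (hmod β : ℂ)) = 0 := by linear_combination h1
  rcases mul_eq_zero.1 h2 with h3 | h3
  · exact absurd h3 (mul_ne_zero hm0 hf)
  · exact_mod_cast sub_eq_zero.1 h3

private theorem nigauss_hvol_pre (δ : TAut G) (K : Set G) (hK : IsCompact K) (hK' : IsOpen K) :
    hvol (δ.h ⁻¹' K) = hmod δ * hvol K := (exists_hmod δ).choose_spec.2 K hK hK'

private theorem nigauss_hmod_prod (α : TAut G) (β : TAut G') (γ : TAut (G × G'))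
    (h : ∀ x, γ.h x = (α.h x.1, β.h x.2)) : hmod γ = hmod α * hmod β := by
  obtain ⟨c, hc, hvp, -⟩ := exists_fubini (G := G) (G' := G')
  obtain ⟨N, hNo, hNc, -⟩ := exists_co_addSubgroup (Set.univ : Set G) isOpen_univ
    (Set.mem_univ 0)
  obtain ⟨N', hN'o, hN'c, -⟩ := exists_co_addSubgroup (Set.univ : Set G') isOpen_univ
    (Set.mem_univ 0)
  have hv := hvol_pos _ hNc hNo ⟨0, N.zero_mem⟩
  have hv' := hvol_pos _ hN'c hN'o ⟨0, N'.zero_mem⟩
  have h1 := nigauss_hvol_pre γ ((N : Set G) ×ˢ (N' : Set G')) (hNc.prod hN'c) (hNo.prod hN'o)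
  have h2 : γ.h ⁻¹' ((N : Set G) ×ˢ (N' : Set G')) =
      (α.h ⁻¹' (N : Set G)) ×ˢ (β.h ⁻¹' (N' : Set G')) := by
    ext x
    show γ.h x ∈ (N : Set G) ×ˢ (N' : Set G') ↔ _
    rw [h]
    rfl
  rw [h2, hvp _ _ (α.h.isCompact_preimage.2 hNc) (β.h.isCompact_preimage.2 hN'c)
    (hNo.preimage α.h.continuous) (hN'o.preimage β.h.continuous), hvp _ _ hNc hN'c hNo hN'o,
    nigauss_hvol_pre α _ hNc hNo, nigauss_hvol_pre β _ hN'c hN'o] at h1
  have h3 : (c * hvol (N : Set G) * hvol (N' : Set G')) * (hmod γ) =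
      (c * hvol (N : Set G) * hvol (N' : Set G')) * (hmod α * hmod β) := by
    linear_combination -h1
  exact mul_left_cancel₀ (mul_ne_zero (mul_ne_zero hc.ne' hv.ne') hv'.ne') h3

end gen

variable (F E) in
private theorem nigauss_e : ∃ e : F × F ≃ₜ E, (∀ x y, e (x + y) = e x + e y) ∧
    ∀ (n : F) (x : F × F), e (n * x.1, n * x.2) = algebraMap F E n * e x := by
  obtain ⟨η, hη0, hηs, -, hη1, hη2⟩ := exists_eta F E
  haveI : NeZero (2 : E) := nz2_of_injective (algebraMap F E).injective
  set l : F × F →ₗ[F] E :=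
    { toFun := fun x => algebraMap F E x.1 + algebraMap F E x.2 * η
      map_add' := fun x y => by
        show algebraMap F E (x.1 + y.1) + algebraMap F E (x.2 + y.2) * η = _
        rw [map_add, map_add]
        ring
      map_smul' := fun a x => by
        show algebraMap F E (a * x.1) + algebraMap F E (a * x.2) * η = a • _
        rw [map_mul, map_mul, Algebra.smul_def]
        ring } with hl
  have hlx : ∀ x : F × F, l x = algebraMap F E x.1 + algebraMap F E x.2 * η := fun x => rfl
  have hinj : Function.Injective l := by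
    rw [← LinearMap.ker_eq_bot, LinearMap.ker_eq_bot']
    intro x hx
    rw [hlx] at hx
    have h1 := congrArg star hx
    rw [star_add, star_mul', QExt.star_alg, QExt.star_alg, hηs, star_zero] at h1
    have h2 : (2 : E) * algebraMap F E x.1 = 0 := by linear_combination hx + h1
    have h3 : (2 : E) * (algebraMap F E x.2 * η) = 0 := by linear_combination hx - h1
    have h4 := (mul_eq_zero.1 h2).resolve_left two_ne_zero
    have h5 := (mul_eq_zero.1 ((mul_eq_zero.1 h3).resolve_left two_ne_zero)).resolve_right hη0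
    exact Prod.ext ((map_eq_zero _).1 h4) ((map_eq_zero _).1 h5)
  have hsurj : Function.Surjective l := by
    intro x
    obtain ⟨f, hf⟩ := hη2 (2⁻¹ * (x + star x)) (by
      rw [star_mul', star_add, star_star, star_inv₀, add_comm]
      congr 2
      have := QExt.star_alg (F := F) (E := E) 2
      rwa [map_ofNat] at this)
    obtain ⟨g, hg⟩ := hη1 (2⁻¹ * (x - star x)) (by
      rw [star_mul', star_sub, star_star, star_inv₀]
      have h2 : star (2 : E) = 2 := by
        have := QExt.star_alg (F := F) (E := E) 2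
        rwa [map_ofNat] at this
      rw [h2]
      ring)
    refine ⟨(f, g), ?_⟩
    rw [hlx]
    show algebraMap F E f + algebraMap F E g * η = x
    rw [← hf, ← hg]
    have h2 : (2 : E) ≠ 0 := two_ne_zero
    field_simp
    ring
  refine ⟨((LinearEquiv.ofBijective l ⟨hinj, hsurj⟩).toContinuousLinearEquiv).toHomeomorph,
    fun x y => map_add l x y, fun n x => ?_⟩
  show l (n * x.1, n * x.2) = algebraMap F E n * l x
  rw [hlx, hlx, map_mul, map_mul]
  ring

variable (F E) in
theorem hmod_mulE [LocallyCompactSpace E] [TotallyDisconnectedSpace E] [LocallyCompactSpace F]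
    [TotallyDisconnectedSpace F] (z : E) (hz : z ≠ 0) (n : F) (hn : n ≠ 0)
    (h : z * star z = algebraMap F E n) : hmod (mulT E z hz) = hmod (mulT F n hn) := by
  have hsz : star z ≠ 0 := by
    intro h0
    apply hz
    rw [← star_star z, h0, star_zero]
  have hna : algebraMap F E n ≠ 0 := (map_ne_zero _).2 hn
  -- m(star z) = m(z)
  have h1 : hmod (mulT E z hz) = hmod (mulT E (star z) hsz) := by
    refine nigauss_hmod_conj
      (⟨⟨star, star, star_star, star_star⟩, continuous_star_E F E, continuous_star_E F E⟩ :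
        E ≃ₜ E) (fun x y => star_add x y) _ _ (fun x => ?_)
    show star (z * x) = star z * star x
    rw [star_mul']
  have h2 : hmod (mulT E (algebraMap F E n) hna) = hmod (mulT E z hz) ^ 2 := by
    rw [hmod_mul (mulT E z hz) (mulT E (star z) hsz) (mulT E (algebraMap F E n) hna)
      (fun x => by
        show algebraMap F E n * x = z * (star z * x)
        rw [← h, mul_assoc]), ← h1, sq]
  have h3 : hmod (mulT E (algebraMap F E n) hna) = hmod (mulT F n hn) ^ 2 := by
    obtain ⟨e, he, hen⟩ := nigauss_e F E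
    set γ : TAut (F × F) := ⟨(mulT F n hn).h.prodCongr (mulT F n hn).h, fun x y =>
      Prod.ext (mul_add n x.1 y.1) (mul_add n x.2 y.2)⟩ with hγ
    rw [← nigauss_hmod_conj e he γ (mulT E (algebraMap F E n) hna) (fun x => hen n x),
      nigauss_hmod_prod (mulT F n hn) (mulT F n hn) γ (fun x => rfl), sq]
  rw [h3] at h2
  have h4 := hmod_pos (mulT E z hz)
  have h5 := hmod_pos (mulT F n hn)
  nlinarith [h2, h4, h5, sq_nonneg (hmod (mulT E z hz) - hmod (mulT F n hn))]

section dist

private theorem nigauss_cosets {G : Type*} [AddCommGroup G] [TopologicalSpace G]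
    [IsTopologicalAddGroup G] (K : Set G) (hK : IsCompact K) (V : AddSubgroup G)
    (hV : IsOpen (V : Set G)) (h : ∀ x ∈ K, ∀ v ∈ V, x + v ∈ K) :
    ∃ s : Finset (G ⧸ V), ∀ x : G, x ∈ K ↔ (x : G ⧸ V) ∈ s := by
  haveI : DiscreteTopology (G ⧸ V) := QuotientAddGroup.discreteTopology hV
  have hf : ((fun x : G => (x : G ⧸ V)) '' K).Finite :=
    (hK.image continuous_quotient_mk').finite_of_discrete
  refine ⟨hf.toFinset, fun x => ?_⟩
  rw [Set.Finite.mem_toFinset]
  constructor
  · intro hx
    exact ⟨x, hx, rfl⟩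
  · rintro ⟨y, hy, hxy⟩
    have h1 : -y + x ∈ V := QuotientAddGroup.eq.1 hxy
    have h2 := h y hy _ h1
    rwa [add_neg_cancel_left] at h2

private theorem nigauss_decomp {G : Type*} [AddCommGroup G] [TopologicalSpace G]
    [IsTopologicalAddGroup G] [T2Space G] (K : Set G) (hK : IsCompact K) (hK' : IsOpen K)
    (V : AddSubgroup G) (hV : IsOpen (V : Set G)) (hVc : IsCompact (V : Set G))
    (s : Finset (G ⧸ V)) (hs : ∀ x : G, x ∈ K ↔ (x : G ⧸ V) ∈ s) (b : ℂ) :
    SF.single K hK hK' b = ∑ q ∈ s, SF.comp (Homeomorph.addRight (-(q.out : G)))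
      (SF.single (V : Set G) hVc hV b) := by
  classical
  apply SF.ext
  intro x
  have hev : (∑ q ∈ s, SF.comp (Homeomorph.addRight (-(q.out : G)))
      (SF.single (V : Set G) hVc hV b)).1 x =
      ∑ q ∈ s, (if q = (x : G ⧸ V) then b else 0) := by
    rw [Submodule.coe_sum, Finset.sum_apply]
    refine Finset.sum_congr rfl fun q _ => ?_
    show SF.single (V : Set G) hVc hV b (x + -(q.out : G)) = _
    have hiff : x + -(q.out : G) ∈ (V : Set G) ↔ q = (x : G ⧸ V) := by
      rw [add_comm, SetLike.mem_coe, ← QuotientAddGroup.eq, QuotientAddGroup.out_eq']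
    by_cases hq : q = (x : G ⧸ V)
    · rw [if_pos hq]
      exact SF.single_apply_mem _ _ _ _ _ (hiff.2 hq)
    · rw [if_neg hq]
      exact SF.single_apply_not_mem _ _ _ _ _ (fun h => hq (hiff.1 h))
  rw [hev]
  by_cases hx : x ∈ K
  · rw [Finset.sum_ite_eq' s (x : G ⧸ V), if_pos ((hs x).1 hx)]
    exact SF.single_apply_mem _ _ _ _ _ hx
  · rw [Finset.sum_ite_eq' s (x : G ⧸ V), if_neg (fun h => hx ((hs x).2 h))]
    exact SF.single_apply_not_mem _ _ _ _ _ hx

private theorem nigauss_aball_open {L : Type*} [NontriviallyNormedField L] [IsUltrametricDist L]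
    (r : ℝ) (hr : 0 < r) : IsOpen (aball L r hr.le : Set L) := by
  have h : (aball L r hr.le : Set L) = Metric.closedBall 0 r := by
    ext x
    rw [mem_closedBall_zero_iff]
    rfl
  rw [h]
  exact IsUltrametricDist.isOpen_closedBall _ hr.ne'

private theorem nigauss_aball_compact {L : Type*} [NontriviallyNormedField L]
    [IsUltrametricDist L] [ProperSpace L] (r : ℝ) (hr : 0 ≤ r) :
    IsCompact (aball L r hr : Set L) := by
  have h : (aball L r hr : Set L) = Metric.closedBall 0 r := by
    ext x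
    rw [mem_closedBall_zero_iff]
    rfl
  rw [h]
  exact isCompact_closedBall _ _

/-- indicator function of the ball of radius `r` -/
private def nigauss_bs {L : Type*} [NontriviallyNormedField L]
    [IsUltrametricDist L] [ProperSpace L] (r : ℝ) (hr : 0 < r) : SF L ℂ :=
  SF.single (aball L r hr.le : Set L) (nigauss_aball_compact r hr.le) (nigauss_aball_open r hr) 1

open Classical in
private theorem nigauss_bs_apply {L : Type*} [NontriviallyNormedField L]
    [IsUltrametricDist L] [ProperSpace L] (r : ℝ) (hr : 0 < r) (x : L) :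
    nigauss_bs r hr x = if ‖x‖ ≤ r then 1 else 0 := by
  split_ifs with h
  · exact SF.single_apply_mem _ _ _ _ _ h
  · exact SF.single_apply_not_mem _ _ _ _ _ h

variable {L : Type*} [NontriviallyNormedField L] [IsUltrametricDist L] [ProperSpace L]
  [LocallyCompactSpace L] [TotallyDisconnectedSpace L]

private theorem nigauss_hI_bs (r : ℝ) (hr : 0 < r) : hI (nigauss_bs (L := L) r hr) ≠ 0 := by
  unfold nigauss_bs
  rw [hI_single, smul_eq_mul, mul_one]
  have := hvol_pos (aball L r hr.le : Set L) (nigauss_aball_compact r hr.le)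
    (nigauss_aball_open r hr) ⟨0, AddSubgroup.zero_mem _⟩
  exact_mod_cast this.ne'

private theorem nigauss_hmod_unit (u : L) (hu : u ≠ 0) (h : ‖u‖ = 1) : hmod (mulT L u hu) = 1 := by
  have h1 : SF.comp (mulT L u hu).h (nigauss_bs 1 zero_lt_one) = nigauss_bs 1 zero_lt_one := by
    apply SF.ext
    intro x
    show nigauss_bs 1 zero_lt_one (u * x) = nigauss_bs 1 zero_lt_one x
    rw [nigauss_bs_apply, nigauss_bs_apply, norm_mul, h, one_mul]
  have h2 := hI_comp_aut (mulT L u hu) (nigauss_bs (L := L) 1 zero_lt_one)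
  rw [h1, smul_eq_mul] at h2
  have h3 := nigauss_hI_bs (L := L) 1 zero_lt_one
  have h4 : (1 : ℂ) = (hmod (mulT L u hu) : ℂ) := mul_right_cancel₀ h3 (by rw [one_mul]; exact h2)
  exact_mod_cast h4.symm

/-- a homogeneous functional is a multiple of the Haar functional -/
private theorem nigauss_homog (T : SF L ℂ →ₗ[ℂ] ℂ)
    (hT : ∀ (a : L) (ha : a ≠ 0) (f : SF L ℂ),
      T (SF.comp (mulT L a ha).h f) = (hmod (mulT L a ha) : ℂ) * T f)
    (h1 : T (nigauss_bs 1 zero_lt_one) = 0) : T = 0 := by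
  classical
  -- balls around 0
  have hb : ∀ (a : L) (ha : a ≠ 0), T (nigauss_bs ‖a‖ (norm_pos_iff.2 ha)) = 0 := by
    intro a ha
    have e1 : SF.comp (mulT L a ha).h (nigauss_bs ‖a‖ (norm_pos_iff.2 ha)) =
        nigauss_bs 1 zero_lt_one := by
      apply SF.ext
      intro x
      show nigauss_bs ‖a‖ (norm_pos_iff.2 ha) (a * x) = nigauss_bs 1 zero_lt_one x
      rw [nigauss_bs_apply, nigauss_bs_apply, norm_mul]
      have hpos := norm_pos_iff.2 ha
      have hiff : ‖a‖ * ‖x‖ ≤ ‖a‖ ↔ ‖x‖ ≤ 1 := by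
        constructor
        · intro h
          exact le_of_mul_le_mul_left (by rw [mul_one]; exact h) hpos
        · intro h
          calc ‖a‖ * ‖x‖ ≤ ‖a‖ * 1 := mul_le_mul_of_nonneg_left h hpos.le
            _ = ‖a‖ := mul_one _
      by_cases h : ‖x‖ ≤ 1
      · rw [if_pos h, if_pos (hiff.2 h)]
      · rw [if_neg h, if_neg (fun h' => h (hiff.1 h'))]
    have e2 := hT a ha (nigauss_bs ‖a‖ (norm_pos_iff.2 ha))
    rw [e1, h1] at e2
    rcases mul_eq_zero.1 e2.symm with h | h
    · exact absurd (by exact_mod_cast h) (hmod_pos (mulT L a ha)).ne'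
    · exact h
  -- balls not containing 0
  have hc : ∀ (x r : L) (hr : r ≠ 0), ‖r‖ < ‖x‖ →
      T (SF.comp (Homeomorph.addRight (-x)) (nigauss_bs ‖r‖ (norm_pos_iff.2 hr))) = 0 := by
    intro x r hr hrx
    have hx : x ≠ 0 := norm_pos_iff.1 ((norm_nonneg r).trans_lt hrx)
    -- the largest norm below
    have hcomp : IsCompact {y : L | ‖y‖ < ‖x‖} := by
      have h : {y : L | ‖y‖ < ‖x‖} = Metric.ball 0 ‖x‖ := by
        ext y
        rw [mem_ball_zero_iff]
        rfl
      rw [h]
      exact Metric.isCompact_of_isClosed_isBounded (IsUltrametricDist.isClosed_ball _ _)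
        Metric.isBounded_ball
    obtain ⟨w, hw, hwm⟩ := hcomp.exists_isMaxOn ⟨r, hrx⟩ (continuous_norm.continuousOn)
    have hw0 : w ≠ 0 := by
      intro h0
      have : ‖r‖ ≤ ‖w‖ := hwm hrx
      rw [h0, norm_zero] at this
      exact hr (norm_le_zero_iff.1 this)
    -- the sphere
    set S : Set L := {y | ‖y‖ = ‖x‖} with hS
    have hSc : IsCompact S := by
      refine Metric.isCompact_of_isClosed_isBounded (isClosed_eq continuous_norm continuous_const) ?_
      refine (Metric.isBounded_closedBall (x := (0 : L)) (r := ‖x‖)).subset ?_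
      intro y hy
      rw [mem_closedBall_zero_iff]
      exact le_of_eq hy
    have hSadd : ∀ y ∈ S, ∀ v : L, ‖v‖ ≤ ‖r‖ → y + v ∈ S := by
      intro y hy v hv
      have hy' : ‖y‖ = ‖x‖ := hy
      show ‖y + v‖ = ‖x‖
      rw [IsUltrametricDist.norm_add_eq_max_of_norm_ne_norm (by
        rw [hy']
        exact (hv.trans_lt hrx).ne'), hy', max_eq_left (hv.trans hrx.le)]
    have hSo : IsOpen S := by
      rw [Metric.isOpen_iff]
      intro y hy
      refine ⟨‖r‖, norm_pos_iff.2 hr, fun z hz => ?_⟩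
      rw [Metric.mem_ball, dist_eq_norm] at hz
      have := hSadd y hy (z - y) hz.le
      rwa [add_sub_cancel] at this
    have eS : SF.single S hSc hSo (1 : ℂ) = nigauss_bs ‖x‖ (norm_pos_iff.2 hx) -
        nigauss_bs ‖w‖ (norm_pos_iff.2 hw0) := by
      apply SF.ext
      intro y
      show SF.single S hSc hSo (1 : ℂ) y = nigauss_bs ‖x‖ (norm_pos_iff.2 hx) y -
        nigauss_bs ‖w‖ (norm_pos_iff.2 hw0) y
      rw [nigauss_bs_apply, nigauss_bs_apply]
      rcases lt_trichotomy ‖y‖ ‖x‖ with h | h | h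
      · have h2 : ‖y‖ ≤ ‖w‖ := hwm h
        rw [SF.single_apply_not_mem _ _ _ _ _ (fun h3 : y ∈ S => h.ne h3), if_pos h.le, if_pos h2,
          sub_self]
      · have h2 : ¬ ‖y‖ ≤ ‖w‖ := by
          rw [h]
          exact not_le.2 hw
        rw [SF.single_apply_mem _ _ _ _ _ (show y ∈ S from h), if_pos h.le, if_neg h2, sub_zero]
      · have h2 : ¬ ‖y‖ ≤ ‖w‖ := not_le.2 ((show ‖w‖ < ‖x‖ from hw).trans h)
        rw [SF.single_apply_not_mem _ _ _ _ _ (fun h3 : y ∈ S => h.ne' h3), if_neg (not_le.2 h),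
          if_neg h2, sub_self]
    have hTS : T (SF.single S hSc hSo (1 : ℂ)) = 0 := by
      rw [eS, map_sub, hb x hx, hb w hw0, sub_self]
    have hro := nigauss_aball_open (L := L) ‖r‖ (norm_pos_iff.2 hr)
    have hrc := nigauss_aball_compact (L := L) ‖r‖ (norm_nonneg r)
    obtain ⟨s, hs⟩ := nigauss_cosets S hSc (aball L ‖r‖ (norm_nonneg r)) hro
      (fun y hy v hv => hSadd y hy v hv)
    rw [nigauss_decomp S hSc hSo _ hro hrc s hs, map_sum] at hTS
    have hterm : ∀ q ∈ s, T (SF.comp (Homeomorph.addRight (-(q.out : L)))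
        (SF.single (aball L ‖r‖ (norm_nonneg r) : Set L) hrc hro (1 : ℂ))) =
        T (SF.comp (Homeomorph.addRight (-x)) (nigauss_bs ‖r‖ (norm_pos_iff.2 hr))) := by
      intro q hq
      have hqS : (q.out : L) ∈ S := by
        rw [hs, QuotientAddGroup.out_eq']
        exact hq
      have hqn : ‖(q.out : L)‖ = ‖x‖ := hqS
      have hq0 : (q.out : L) ≠ 0 := by
        intro h0
        rw [h0, norm_zero] at hqn
        exact hx (norm_eq_zero.1 hqn.symm)
      have hu0 : (q.out : L) / x ≠ 0 := div_ne_zero hq0 hx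
      have hu1 : ‖(q.out : L) / x‖ = 1 := by
        rw [norm_div, hqn, div_self (norm_ne_zero_iff.2 hx)]
      have e3 : SF.comp (mulT L _ hu0).h (SF.comp (Homeomorph.addRight (-(q.out : L)))
          (nigauss_bs ‖r‖ (norm_pos_iff.2 hr))) =
          SF.comp (Homeomorph.addRight (-x)) (nigauss_bs ‖r‖ (norm_pos_iff.2 hr)) := by
        apply SF.ext
        intro y
        show nigauss_bs ‖r‖ (norm_pos_iff.2 hr) ((q.out : L) / x * y + -(q.out : L)) =
          nigauss_bs ‖r‖ (norm_pos_iff.2 hr) (y + -x)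
        rw [nigauss_bs_apply, nigauss_bs_apply]
        have e4 : (q.out : L) / x * y + -(q.out : L) = (q.out : L) / x * (y + -x) := by
          field_simp
        rw [e4, norm_mul, hu1, one_mul]
      have e5 := hT _ hu0 (SF.comp (Homeomorph.addRight (-(q.out : L)))
          (nigauss_bs ‖r‖ (norm_pos_iff.2 hr)))
      rw [e3, nigauss_hmod_unit _ hu0 hu1, Complex.ofReal_one, one_mul] at e5
      exact e5.symm
    rw [Finset.sum_congr rfl hterm, Finset.sum_const, nsmul_eq_mul] at hTS
    rcases mul_eq_zero.1 hTS with h | h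
    · exfalso
      have h2 : s.card = 0 := by exact_mod_cast h
      rw [Finset.card_eq_zero] at h2
      have h3 := (hs x).1 (show x ∈ S from rfl)
      rw [h2] at h3
      exact absurd h3 (Finset.notMem_empty _)
    · exact h
  -- all compact open sets
  have hK : ∀ (K : Set L) (hK : IsCompact K) (hK' : IsOpen K) (b : ℂ),
      T (SF.single K hK hK' b) = 0 := by
    intro K hK hK' b
    have e0 : SF.single K hK hK' b = b • SF.single K hK hK' (1 : ℂ) := by
      apply SF.ext
      intro y
      show SF.single K hK hK' b y = b * SF.single K hK hK' (1 : ℂ) y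
      by_cases hy : y ∈ K
      · rw [SF.single_apply_mem _ _ _ _ _ hy, SF.single_apply_mem _ _ _ _ _ hy, mul_one]
      · rw [SF.single_apply_not_mem _ _ _ _ _ hy, SF.single_apply_not_mem _ _ _ _ _ hy, mul_zero]
    have hev : ∀ᶠ g in nhds (0 : L), ∀ k ∈ K, k + g ∈ K := by
      refine hK.eventually_forall_of_forall_eventually ?_
      intro y hy
      have c1 : Continuous fun z : L × L => z.2 + z.1 := continuous_snd.add continuous_fst
      refine c1.continuousAt.eventually (hK'.mem_nhds ?_)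
      simpa using hy
    obtain ⟨ε, hε, hεK⟩ := Metric.eventually_nhds_iff.1 hev
    obtain ⟨r, hr0, hrε⟩ := NormedField.exists_norm_lt L hε
    have hr : r ≠ 0 := norm_pos_iff.1 hr0
    have hro := nigauss_aball_open (L := L) ‖r‖ hr0
    have hrc := nigauss_aball_compact (L := L) ‖r‖ (norm_nonneg r)
    obtain ⟨s, hs⟩ := nigauss_cosets K hK (aball L ‖r‖ (norm_nonneg r)) hro
      (fun y hy v hv => hεK (by
        rw [dist_zero_right]
        exact (show ‖v‖ ≤ ‖r‖ from hv).trans_lt hrε) y hy)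
    rw [e0, map_smul, nigauss_decomp K hK hK' _ hro hrc s hs, map_sum, Finset.sum_eq_zero,
      smul_zero]
    intro q _
    by_cases hq : ‖(q.out : L)‖ ≤ ‖r‖
    · have e1 : SF.comp (Homeomorph.addRight (-(q.out : L)))
          (SF.single (aball L ‖r‖ (norm_nonneg r) : Set L) hrc hro (1 : ℂ)) =
          nigauss_bs ‖r‖ hr0 := by
        apply SF.ext
        intro y
        show nigauss_bs ‖r‖ hr0 (y + -(q.out : L)) = nigauss_bs ‖r‖ hr0 y
        rw [nigauss_bs_apply, nigauss_bs_apply]
        have hiff : ‖y + -(q.out : L)‖ ≤ ‖r‖ ↔ ‖y‖ ≤ ‖r‖ := by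
          constructor
          · intro h
            have := IsUltrametricDist.norm_add_le_max (y + -(q.out : L)) (q.out : L)
            rw [neg_add_cancel_right] at this
            exact this.trans (max_le h hq)
          · intro h
            refine (IsUltrametricDist.norm_add_le_max _ _).trans (max_le h ?_)
            rw [norm_neg]
            exact hq
        by_cases h : ‖y‖ ≤ ‖r‖
        · rw [if_pos h, if_pos (hiff.2 h)]
        · rw [if_neg h, if_neg (fun h' => h (hiff.1 h'))]
      rw [e1]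
      exact hb r hr
    · exact hc _ r hr (not_le.1 hq)
  apply LinearMap.ext
  intro f
  refine sf_induction (fun f => T f = (0 : SF L ℂ →ₗ[ℂ] ℂ) f) ?_ ?_ ?_ f
  · simp only [map_zero]
  · intro f g hf hg
    simp only [map_add]
    rw [hf, hg]
  · intro x
    exact ⟨Set.univ, isOpen_univ, Set.mem_univ _, fun K hK1 hK' b _ => hK K hK1 hK' b⟩

end dist

variable (F E) in
private theorem nigauss_N : ∃ N : E → F, Continuous N ∧
    (∀ x, algebraMap F E (N x) = x * star x) ∧ (∀ x, ‖N x‖ = ‖x‖ ^ 2) := by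
  obtain ⟨-, -, -, -, -, hfix⟩ := exists_eta F E
  have h1 : ∀ x : E, ∃ f : F, x * star x = algebraMap F E f := fun x =>
    hfix (x * star x) (by rw [star_mul', star_star, mul_comm])
  choose N hN using h1
  refine ⟨N, ?_, fun x => (hN x).symm, fun x => ?_⟩
  · have hiso : Isometry (algebraMap F E) := algebraMap_isometry F E
    rw [hiso.isEmbedding.continuous_iff]
    have h2 : (algebraMap F E) ∘ N = fun x => x * star x := by
      funext x
      exact (hN x).symm
    rw [h2]
    exact continuous_id.mul (continuous_star_E F E)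
  · rw [← norm_algebraMap' E (N x), ← hN, norm_mul, norm_star_eq F E, sq]

private theorem nigauss_form (c : F) (hc : c ≠ 0) (N : E → F)
    (hN : ∀ x, algebraMap F E (N x) = x * star x) (x : E) :
    (nform F E c hc).b x x = c * (2 * N x) := by
  show c * Algebra.trace F E (x * star x) = c * (2 * N x)
  rw [← hN, Algebra.trace_algebraMap, QExt.finrank_two (F := F) (E := E), nsmul_eq_mul,
    Nat.cast_ofNat]

variable (F E) in
theorem kap_norm [LocallyCompactSpace E] [TotallyDisconnectedSpace E] [LocallyCompactSpace F]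
    [TotallyDisconnectedSpace F] [ContinuousSMul F E] (p : PChar F) (c c' : F) (hc : c ≠ 0)
    (hc' : c' ≠ 0) (h : IsNorm F E c') :
    kap (nform F E (c * c') (mul_ne_zero hc hc')) p =
      (hmod (mulT F c' hc') : ℂ) * kap (nform F E c hc) p := by
  obtain ⟨z, hz, hzc⟩ := h
  rw [← hmod_mulE F E z hz c' hc' hzc]
  refine gaussapi_transport (mulT E z hz).h (mulT E z hz).add _ (fun f => ?_) _ _ p (fun v => ?_)
  · rw [hI_comp_aut, smul_eq_mul]
  · show c * Algebra.trace F E (z * v * star (z * v)) = c * c' * Algebra.trace F E (v * star v)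
    have e1 : z * v * star (z * v) = c' • (v * star v) := by
      rw [star_mul', Algebra.smul_def, ← hzc]
      ring
    rw [e1, map_smul, smul_eq_mul]
    ring

variable (F E) in
theorem kap_nonnorm [LocallyCompactSpace E] [TotallyDisconnectedSpace E] [LocallyCompactSpace F]
    [TotallyDisconnectedSpace F] [ContinuousSMul F E] (p : PChar F) (c c' : F) (hc : c ≠ 0)
    (hc' : c' ≠ 0) (h : ¬ IsNorm F E c') :
    kap (nform F E (c * c') (mul_ne_zero hc hc')) p =
      -(hmod (mulT F c' hc') : ℂ) * kap (nform F E c hc) p := by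
  classical
  haveI : IsUltrametricDist E := ult_E F
  obtain ⟨N, hNc, hN, hNn⟩ := nigauss_N F E
  -- composition with the norm
  have hcs : ∀ f : SF F ℂ, HasCompactSupport (fun x => f (N x)) := by
    intro f
    obtain ⟨R, hR⟩ := (f.2.2.isBounded).exists_norm_le
    refine HasCompactSupport.of_support_subset_isCompact (isCompact_closedBall (0 : E) (|R| + 1))
      (fun x hx => ?_)
    have h1 : N x ∈ tsupport f.1 := subset_tsupport _ hx
    have h2 := hR _ h1
    rw [hNn] at h2
    rw [mem_closedBall_zero_iff]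
    have h3 := le_abs_self R
    nlinarith [norm_nonneg x, abs_nonneg R]
  set P : SF F ℂ →ₗ[ℂ] SF E ℂ :=
    { toFun := fun f => ⟨fun x => f (N x), f.2.1.comp_continuous hNc, hcs f⟩
      map_add' := fun _ _ => rfl
      map_smul' := fun _ _ => rfl } with hP
  have hPx : ∀ f x, P f x = f (N x) := fun _ _ => rfl
  set D : SF F ℂ →ₗ[ℂ] ℂ := hI ∘ₗ P with hD
  have hDf : ∀ f, D f = hI (P f) := fun _ => rfl
  have hDn : ∀ (a : F) (ha : a ≠ 0) (_ : IsNorm F E a) (f : SF F ℂ),
      D (SF.comp (mulT F a ha).h f) = (hmod (mulT F a ha) : ℂ) * D f := by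
    rintro a ha ⟨z, hz, hza⟩ f
    rw [← hmod_mulE F E z hz a ha hza, hDf, hDf, ← smul_eq_mul, ← hI_comp_aut (mulT E z hz)]
    congr 1
    apply SF.ext
    intro x
    show f (a * N x) = f (N (z * x))
    have e1 : a * N x = N (z * x) := by
      apply (algebraMap F E).injective
      rw [map_mul, hN, hN, ← hza, star_mul']
      ring
    rw [e1]
  set μ : ℂ := (hmod (mulT F c' hc') : ℂ) with hμ
  have hμ0 : μ ≠ 0 := by
    rw [hμ]
    exact_mod_cast (hmod_pos (mulT F c' hc')).ne'
  set T : SF F ℂ →ₗ[ℂ] ℂ := D + μ⁻¹ • (D ∘ₗ SF.comp (mulT F c' hc').h) with hT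
  have hTf : ∀ f, T f = D f + μ⁻¹ * D (SF.comp (mulT F c' hc').h f) := fun _ => rfl
  have hTn : ∀ (a : F) (ha : a ≠ 0) (_ : IsNorm F E a) (f : SF F ℂ),
      T (SF.comp (mulT F a ha).h f) = (hmod (mulT F a ha) : ℂ) * T f := by
    intro a ha hna f
    have e1 : SF.comp (mulT F c' hc').h (SF.comp (mulT F a ha).h f) =
        SF.comp (mulT F a ha).h (SF.comp (mulT F c' hc').h f) := by
      apply SF.ext
      intro x
      show f (a * (c' * x)) = f (c' * (a * x))
      rw [mul_left_comm]
    rw [hTf, hTf, e1, hDn a ha hna, hDn a ha hna]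
    ring
  have hTc : ∀ f : SF F ℂ, T (SF.comp (mulT F c' hc').h f) = μ * T f := by
    intro f
    have hcc : c' * c' ≠ 0 := mul_ne_zero hc' hc'
    have e1 : SF.comp (mulT F c' hc').h (SF.comp (mulT F c' hc').h f) =
        SF.comp (mulT F (c' * c') hcc).h f := by
      apply SF.ext
      intro x
      show f (c' * (c' * x)) = f (c' * c' * x)
      rw [mul_assoc]
    have e2 : hmod (mulT F (c' * c') hcc) = hmod (mulT F c' hc') * hmod (mulT F c' hc') :=
      hmod_mul _ _ _ (fun x => mul_assoc c' c' x)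
    rw [hTf, hTf, e1, hDn _ hcc (nonnorm_mul F E hc' hc' h h), e2, Complex.ofReal_mul, ← hμ]
    field_simp
    ring
  have hTa : ∀ (a : F) (ha : a ≠ 0) (f : SF F ℂ),
      T (SF.comp (mulT F a ha).h f) = (hmod (mulT F a ha) : ℂ) * T f := by
    intro a ha f
    by_cases hna : IsNorm F E a
    · exact hTn a ha hna f
    · have hq0 : a / c' ≠ 0 := div_ne_zero ha hc'
      have hq : IsNorm F E (a / c') := by
        have h1 := nonnorm_mul F E ha hc' hna h
        have h2 := nonnorm_mul F E hc' hc' h h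
        have h3 := norm_mul_iff F E (mul_ne_zero hc' hc') hq0 h2
        rw [← h3]
        have e : c' * c' * (a / c') = a * c' := by field_simp
        rw [e]
        exact h1
      have e1 : SF.comp (mulT F a ha).h f =
          SF.comp (mulT F (a / c') hq0).h (SF.comp (mulT F c' hc').h f) := by
        apply SF.ext
        intro x
        show f (a * x) = f (c' * (a / c' * x))
        field_simp
      have e2 : hmod (mulT F a ha) = hmod (mulT F (a / c') hq0) * hmod (mulT F c' hc') :=
        hmod_mul _ _ _ (fun x => by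
          show a * x = a / c' * (c' * x)
          field_simp)
      rw [e1, hTn _ hq0 hq, hTc, e2, Complex.ofReal_mul, ← hμ]
      ring
  -- `T` is a multiple of the Haar functional
  set C : ℂ := T (nigauss_bs 1 zero_lt_one) / hI (nigauss_bs (L := F) 1 zero_lt_one) with hC
  have hTC : T - C • (hI : SF F ℂ →ₗ[ℂ] ℂ) = 0 := by
    apply nigauss_homog
    · intro a ha f
      show T (SF.comp (mulT F a ha).h f) - C * hI (SF.comp (mulT F a ha).h f) =
        (hmod (mulT F a ha) : ℂ) * (T f - C * hI f)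
      rw [hTa, hI_comp_aut, smul_eq_mul]
      ring
    · show T (nigauss_bs 1 zero_lt_one) - C * hI (nigauss_bs 1 zero_lt_one) = 0
      rw [hC, div_mul_cancel₀ _ (nigauss_hI_bs (L := F) 1 zero_lt_one), sub_self]
  have hTh : ∀ f, T f = C * hI f := by
    intro f
    have h1 : T f - C * hI f = 0 := LinearMap.congr_fun hTC f
    exact sub_eq_zero.1 h1
  -- the test function
  obtain ⟨L1, hL1o, hL1c, hL1⟩ := gaussapi_kap (nform F E c hc) p
  obtain ⟨L2, hL2o, hL2c, hL2⟩ := gaussapi_kap (nform F E (c * c') (mul_ne_zero hc hc')) p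
  obtain ⟨R0, hR0⟩ := ((hL1c.union hL2c).isBounded).exists_norm_le
  obtain ⟨x0, hx0⟩ := p.nontriv
  obtain ⟨R, hR1, hR2, hR3, hR4⟩ : ∃ R : ℝ, 0 < R ∧ R0 ≤ R ∧ ‖c⁻¹ * x0‖ ≤ R ^ 2 ∧
      R0 ≤ R / Real.sqrt ‖c'‖ := by
    have hs : 0 < Real.sqrt ‖c'‖ := Real.sqrt_pos.2 (norm_pos_iff.2 hc')
    refine ⟨1 + |R0| + ‖c⁻¹ * x0‖ + |R0| * Real.sqrt ‖c'‖, by positivity, ?_, ?_, ?_⟩
    · have := le_abs_self R0
      have h2 : 0 ≤ |R0| * Real.sqrt ‖c'‖ := by positivity
      have h3 := norm_nonneg (c⁻¹ * x0)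
      linarith
    · have h1 := abs_nonneg R0
      have h2 : 0 ≤ |R0| * Real.sqrt ‖c'‖ := by positivity
      have h3 := norm_nonneg (c⁻¹ * x0)
      nlinarith
    · rw [le_div_iff₀ hs]
      have := le_abs_self R0
      have h1 := abs_nonneg R0
      have h3 := norm_nonneg (c⁻¹ * x0)
      have h4 : R0 * Real.sqrt ‖c'‖ ≤ |R0| * Real.sqrt ‖c'‖ :=
        mul_le_mul_of_nonneg_right this hs.le
      linarith
  have hR2pos : 0 < R ^ 2 := by positivity
  have hlc : IsLocallyConstant (fun r : F => p.ψ (c * r)) :=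
    p.lc.comp_continuous (continuous_const.mul continuous_id)
  set φ : SF F ℂ := SF.mulc (fun r => p.ψ (c * r)) hlc (nigauss_bs (R ^ 2) hR2pos) with hφ
  have hφx : ∀ r, φ r = p.ψ (c * r) * (if ‖r‖ ≤ R ^ 2 then 1 else 0) := by
    intro r
    rw [hφ, SF.mulc_apply, nigauss_bs_apply, smul_eq_mul]
  -- its integral vanishes
  have hφ0 : hI φ = 0 := by
    have e1 : SF.comp (Homeomorph.addRight (c⁻¹ * x0)) φ = p.ψ x0 • φ := by
      apply SF.ext
      intro r
      show φ (r + c⁻¹ * x0) = p.ψ x0 * φ r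
      rw [hφx, hφx, mul_add, mul_inv_cancel_left₀ hc, p.add]
      have hiff : ‖r + c⁻¹ * x0‖ ≤ R ^ 2 ↔ ‖r‖ ≤ R ^ 2 := by
        constructor
        · intro h
          have := IsUltrametricDist.norm_add_le_max (r + c⁻¹ * x0) (-(c⁻¹ * x0))
          rw [add_neg_cancel_right, norm_neg] at this
          exact this.trans (max_le h hR3)
        · intro h
          exact (IsUltrametricDist.norm_add_le_max _ _).trans (max_le h hR3)
      by_cases h : ‖r‖ ≤ R ^ 2
      · rw [if_pos h, if_pos (hiff.2 h)]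
        ring
      · rw [if_neg h, if_neg (fun h' => h (hiff.1 h'))]
        ring
    have e2 := hI_trans (c⁻¹ * x0) φ
    rw [e1, map_smul, smul_eq_mul] at e2
    have e3 : (p.ψ x0 - 1) * hI φ = 0 := by linear_combination e2
    exact (mul_eq_zero.1 e3).resolve_left (sub_ne_zero.2 hx0)
  have hTφ := hTh φ
  rw [hφ0, mul_zero, hTf] at hTφ
  -- identification with the Gauss integrals
  have hD1 : D φ = kap (nform F E c hc) p := by
    rw [← hL1 (aball E R hR1.le) (nigauss_aball_open R hR1) (nigauss_aball_compact R hR1.le)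
      (fun x hx => (hR0 x (Or.inl hx)).trans hR2), hDf]
    congr 1
    apply SF.ext
    intro x
    rw [hPx, hφx, gaussapi_gfun0, nigauss_form c hc N hN]
    have h2 : (2 : F) ≠ 0 := two_ne_zero
    have e1 : 2⁻¹ * (c * (2 * N x)) = c * N x := by field_simp
    rw [e1]
    congr 1
    have e2 : SF.single (aball E R hR1.le : Set E) (nigauss_aball_compact R hR1.le)
        (nigauss_aball_open R hR1) (1 : ℂ) x = nigauss_bs R hR1 x := rfl
    rw [e2, nigauss_bs_apply, hNn]
    have hiff : ‖x‖ ^ 2 ≤ R ^ 2 ↔ ‖x‖ ≤ R := by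
      rw [sq_le_sq₀ (norm_nonneg x) hR1.le]
    by_cases h : ‖x‖ ≤ R
    · rw [if_pos h, if_pos (hiff.2 h)]
    · rw [if_neg h, if_neg (fun h' => h (hiff.1 h'))]
  have hs : 0 < Real.sqrt ‖c'‖ := Real.sqrt_pos.2 (norm_pos_iff.2 hc')
  have hR5 : 0 < R / Real.sqrt ‖c'‖ := by positivity
  have hD2 : D (SF.comp (mulT F c' hc').h φ) =
      kap (nform F E (c * c') (mul_ne_zero hc hc')) p := by
    rw [← hL2 (aball E (R / Real.sqrt ‖c'‖) hR5.le) (nigauss_aball_open _ hR5)
      (nigauss_aball_compact _ hR5.le) (fun x hx => (hR0 x (Or.inr hx)).trans hR4), hDf]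
    congr 1
    apply SF.ext
    intro x
    have e0 : P (SF.comp (mulT F c' hc').h φ) x = φ (c' * N x) := rfl
    rw [e0, hφx, gaussapi_gfun0, nigauss_form (c * c') (mul_ne_zero hc hc') N hN]
    have h2 : (2 : F) ≠ 0 := two_ne_zero
    have e1 : 2⁻¹ * (c * c' * (2 * N x)) = c * (c' * N x) := by field_simp
    rw [e1]
    congr 1
    have e2 : SF.single (aball E (R / Real.sqrt ‖c'‖) hR5.le : Set E)
        (nigauss_aball_compact _ hR5.le) (nigauss_aball_open _ hR5) (1 : ℂ) x =
        nigauss_bs (R / Real.sqrt ‖c'‖) hR5 x := rfl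
    rw [e2, nigauss_bs_apply, norm_mul, hNn]
    have hiff : ‖c'‖ * ‖x‖ ^ 2 ≤ R ^ 2 ↔ ‖x‖ ≤ R / Real.sqrt ‖c'‖ := by
      rw [le_div_iff₀ hs, ← sq_le_sq₀ (by positivity) hR1.le, mul_pow,
        Real.sq_sqrt (norm_nonneg c'), mul_comm]
    by_cases h : ‖x‖ ≤ R / Real.sqrt ‖c'‖
    · rw [if_pos h, if_pos (hiff.2 h)]
    · rw [if_neg h, if_neg (fun h' => h (hiff.1 h'))]
  rw [hD1, hD2] at hTφ
  have e3 : μ * kap (nform F E c hc) p + kap (nform F E (c * c') (mul_ne_zero hc hc')) p = 0 := by
    have : μ * (kap (nform F E c hc) p +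
        μ⁻¹ * kap (nform F E (c * c') (mul_ne_zero hc hc')) p) = 0 := by rw [hTφ, mul_zero]
    rw [mul_add, mul_inv_cancel_left₀ hμ0] at this
    exact this
  linear_combination e3

end

end Pool.Agent.Work.MP_dd0ddf_al.OC
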