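import Pool.Agent.Work.MP_dd0ddf_al.OC.DpAlg
import Pool.Agent.Work.MP_dd0ddf_al.OC.Witt

/-!
# MP_dd0ddf_al, auxiliary file for DpSpec and DpInd: identities for `s = g g^*`
-/

set_option linter.unusedSectionVars false
set_option linter.style.haveILetI false

namespace Pool.Agent.Work.MP_dd0ddf_al.OC

noncomputable section

universe u

variable {F E : Type u} [NontriviallyNormedField F] [IsUltrametricDist F] [ProperSpace F]
  [NeZero (2 : F)] [NontriviallyNormedField E] [NormedAlgebra F E] [ProperSpace E] [StarRing E]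
  [QExt F E] [MeasurableSpace E] [BorelSpace E]
variable {V : Type u} [AddCommGroup V] [Module E V] [Module.Finite E V] [TopologicalSpace V]
  [IsTopologicalAddGroup V] [T2Space V] [ContinuousSMul E V]

theorem dpx_gi (g : GV E V) (v : V) : g.1 (g⁻¹.1 v) = v :=
  congrArg (fun f : Module.End E V => f v) g.mul_inv

theorem dpx_ig (g : GV E V) (v : V) : g⁻¹.1 (g.1 v) = v :=
  congrArg (fun f : Module.End E V => f v) g.inv_mul

theorem dpx_mul (X : Module.End E V) (f g : Polynomial E) (e : V) :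
    Polynomial.aeval X (f * g) e = Polynomial.aeval X f (Polynomial.aeval X g e) := by
  rw [map_mul]
  rfl

theorem dpx_X (X : Module.End E V) (v : V) :
    Polynomial.aeval X (Polynomial.X : Polynomial E) v = X v := by
  rw [Polynomial.aeval_X]

theorem dpx_comm (X : Module.End E V) (f : Polynomial E) (v : V) :
    Polynomial.aeval X f (X v) = X (Polynomial.aeval X f v) := by
  rw [← dpx_X X v, ← dpx_mul, mul_comm, dpx_mul, dpx_X]

theorem dpx_adj1 (B : SkewH E V) (g : GV E V) (v : V) :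
    adj B g⁻¹.1 (adj B g.1 v) = v := by
  have h1 : adj B g⁻¹.1 * adj B g.1 = 1 := by
    rw [← adj_mul]
    have h2 : g.1 * g⁻¹.1 = 1 := g.mul_inv
    rw [h2, adj_one]
  exact congrArg (fun f : Module.End E V => f v) h1

theorem dpx_adj2 (B : SkewH E V) (g : GV E V) (v : V) :
    adj B g.1 (adj B g⁻¹.1 v) = v := by
  have h1 : adj B g.1 * adj B g⁻¹.1 = 1 := by
    rw [← adj_mul]
    have h2 : g⁻¹.1 * g.1 = 1 := g.inv_mul
    rw [h2, adj_one]
  exact congrArg (fun f : Module.End E V => f v) h1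

theorem dpx_s (B : SkewH E V) (g : GV E V) (v : V) :
    (sg B g).1 v = g.1 (adj B g.1 v) := rfl

theorem dpx_is (B : SkewH E V) (g : GV E V) (v : V) :
    g⁻¹.1 ((sg B g).1 v) = adj B g.1 v := dpx_ig g _

theorem dpx_inj (B : SkewH E V) (g : GV E V) : Function.Injective (sg B g).1 := by
  intro v w hvw
  have h1 : g.1 (adj B g.1 v) = g.1 (adj B g.1 w) := hvw
  have h2 := congrArg (fun x => adj B g⁻¹.1 (g⁻¹.1 x)) h1
  simp only [dpx_ig, dpx_adj1] at h2
  exact h2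

theorem dpx_surj (B : SkewH E V) (g : GV E V) (v : V) : ∃ w, (sg B g).1 w = v :=
  ⟨adj B g⁻¹.1 (g⁻¹.1 v), by rw [dpx_s, dpx_adj2, dpx_gi]⟩

theorem dpx_form (B : SkewH E V) (g : GV E V) (v w : V) :
    B.ip (g⁻¹.1 ((sg B g).1 v)) (g⁻¹.1 w) = B.ip v w := by
  rw [dpx_is]
  have h7 := adj_spec B (adj B g.1) v (g⁻¹.1 w)
  rw [adj_adj, dpx_gi] at h7
  exact h7

theorem dpx_stab (B : SkewH E V) (g : GV E V) (Y : Submodule E V)
    (h : ∀ y ∈ Y, (sg B g).1 y ∈ Y) (y : V) (hy : y ∈ Y) : ∃ z ∈ Y, (sg B g).1 z = y := by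
  let T : Y →ₗ[E] Y := (sg B g).1.restrict h
  have hT : Function.Injective T := by
    intro u w huw
    have h1 : (sg B g).1 (u : V) = (sg B g).1 (w : V) := congrArg (fun x : Y => (x : V)) huw
    exact Subtype.ext (dpx_inj B g h1)
  obtain ⟨z, hz⟩ := (LinearMap.injective_iff_surjective.1 hT) ⟨y, hy⟩
  exact ⟨z, z.2, congrArg (fun x : Y => (x : V)) hz⟩

theorem dpx_formf (B : SkewH E V) (g : GV E V) (f : Polynomial E) (v w : V) :
    B.ip (g⁻¹.1 (Polynomial.aeval (sg B g).1 f v)) (g⁻¹.1 w) =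
      B.ip (g⁻¹.1 v) (g⁻¹.1 (Polynomial.aeval (sg B g).1 (f.map (starRingEnd E)) w)) := by
  obtain ⟨u, rfl⟩ := dpx_surj B g v
  rw [dpx_comm, dpx_form, dpx_form, ip_aeval B (sg B g).2]

theorem dpx_unit (B : SkewH E V) (g : GV E V) (c : UU B)
    (hc : c.1.1 * (sg B g).1 = (sg B g).1 * c.1.1) : g⁻¹ * c.1 * g ∈ UU B := by
  intro v w
  show B.ip (g⁻¹.1 (c.1.1 (g.1 v))) (g⁻¹.1 (c.1.1 (g.1 w))) = B.ip v w
  obtain ⟨u, hu⟩ := dpx_surj B g (g.1 v)
  have h1 : c.1.1 ((sg B g).1 u) = (sg B g).1 (c.1.1 u) :=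
    congrArg (fun f : Module.End E V => f u) hc
  rw [← hu, h1, dpx_form, c.2, ← dpx_form B g u (g.1 w), hu, dpx_ig, dpx_ig]

theorem dpx_mem_q (X : Module.End E V) (e : V) (q : Polynomial F) (j : ℕ) (v : V) :
    v ∈ qSub F X e q j ↔ ∃ g : Polynomial E,
      v = Polynomial.aeval X ((q.map (algebraMap F E)) ^ j * g) e := by
  constructor
  · rintro ⟨w, hw, rfl⟩
    obtain ⟨g, rfl⟩ := (mem_cyc X e w).1 hw
    exact ⟨g, (dpx_mul X _ g e).symm⟩
  · rintro ⟨g, rfl⟩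
    exact ⟨Polynomial.aeval X g e, (mem_cyc X e _).2 ⟨g, rfl⟩, (dpx_mul X _ g e).symm⟩

theorem dpx_q_le (X : Module.End E V) (e : V) (q : Polynomial F) (j : ℕ) {v : V}
    (hv : v ∈ qSub F X e q j) : v ∈ cyc X e := by
  obtain ⟨g, rfl⟩ := (dpx_mem_q X e q j v).1 hv
  exact (mem_cyc X e _).2 ⟨_, rfl⟩

theorem dpx_q_stab (X : Module.End E V) (e : V) (q : Polynomial F) (j : ℕ) (f : Polynomial E)
    {v : V} (hv : v ∈ qSub F X e q j) : Polynomial.aeval X f v ∈ qSub F X e q j := by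
  obtain ⟨g, rfl⟩ := (dpx_mem_q X e q j v).1 hv
  refine (dpx_mem_q X e q j _).2 ⟨f * g, ?_⟩
  rw [← dpx_mul]
  congr 1
  ring_nf

theorem dpx_q_stabX (X : Module.End E V) (e : V) (q : Polynomial F) (j : ℕ)
    {v : V} (hv : v ∈ qSub F X e q j) : X v ∈ qSub F X e q j := by
  have h := dpx_q_stab X e q j Polynomial.X hv
  rwa [dpx_X] at h

theorem dpx_cyc_stab (X : Module.End E V) (e : V) (f : Polynomial E)
    {v : V} (hv : v ∈ cyc X e) : Polynomial.aeval X f v ∈ cyc X e := by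
  obtain ⟨g, rfl⟩ := (mem_cyc X e v).1 hv
  exact (mem_cyc X e _).2 ⟨f * g, (dpx_mul X f g e).symm⟩

theorem dpx_orth_stab (B : SkewH E V) (X : SA B) (e : V) (f : Polynomial E)
    {w : V} (hw : w ∈ orth B (cyc X.1 e)) : Polynomial.aeval X.1 f w ∈ orth B (cyc X.1 e) := by
  intro u hu
  rw [ip_aeval B X.2]
  exact hw _ (dpx_cyc_stab X.1 e _ hu)

theorem dpx_pr (B : SkewH E V) (X : SA B) (e : V) (hnd : NDeg B (cyc X.1 e))
    (f : Polynomial E) (v : V) :
    prO B (cyc X.1 e) hnd (Polynomial.aeval X.1 f v) =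
      Polynomial.aeval X.1 f (prO B (cyc X.1 e) hnd v) := by
  set P := prO B (cyc X.1 e) hnd with hP
  have h1 : v = P v + (v - P v) := by abel
  have h2 : P (Polynomial.aeval X.1 f (P v)) = Polynomial.aeval X.1 f (P v) :=
    prO_of_mem B _ hnd (dpx_cyc_stab X.1 e f (prO_mem B _ hnd v))
  have h3 : P (Polynomial.aeval X.1 f (v - P v)) = 0 :=
    prO_of_orth B _ hnd (dpx_orth_stab B X e f (sub_prO_mem B _ hnd v))
  calc P (Polynomial.aeval X.1 f v) = P (Polynomial.aeval X.1 f (P v + (v - P v))) := by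
        rw [← h1]
    _ = Polynomial.aeval X.1 f (P v) := by rw [map_add, map_add, h2, h3, add_zero]

theorem dpx_symm (B : SkewH E V) {a b : V} (h : B.ip a b = 0) : B.ip b a = 0 := by
  rw [B.skew a b, h, star_zero, neg_zero]

/-! ## the case `g = 1` on `Y` -/

theorem dpx_adj_Y (B : SkewH E V) (g : GV E V) (Y : Submodule E V)
    (h : ∀ y ∈ Y, (sg B g).1 y ∈ Y) (hg : ∀ y ∈ Y, g.1 y = y) (y : V) (hy : y ∈ Y) :
    adj B g.1 y = (sg B g).1 y := by
  have h1 := hg _ (h y hy)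
  rw [← dpx_is]
  conv_lhs => rw [← h1]
  rw [dpx_ig]

theorem dpx_inv_Y (g : GV E V) (Y : Submodule E V) (hg : ∀ y ∈ Y, g.1 y = y) (y : V)
    (hy : y ∈ Y) : g⁻¹.1 y = y := by
  conv_lhs => rw [← hg y hy]
  rw [dpx_ig]

theorem dpx_orth (B : SkewH E V) (g : GV E V) (Y : Submodule E V)
    (h : ∀ y ∈ Y, (sg B g).1 y ∈ Y) (hg : ∀ y ∈ Y, g.1 y = y) {v : V}
    (hv : v ∈ orth B Y) : g.1 v ∈ orth B Y := by
  intro y hy
  rw [adj_spec, dpx_adj_Y B g Y h hg y hy]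
  exact hv _ (h y hy)

theorem dpx_orth_inv (B : SkewH E V) (g : GV E V) (Y : Submodule E V)
    (h : ∀ y ∈ Y, (sg B g).1 y ∈ Y) (hg : ∀ y ∈ Y, g.1 y = y) {v : V}
    (hv : v ∈ orth B Y) : g⁻¹.1 v ∈ orth B Y := by
  intro y hy
  obtain ⟨z, hz, rfl⟩ := dpx_stab B g Y h y hy
  have h1 := adj_spec B g.1 (g⁻¹.1 v) z
  rw [dpx_gi, dpx_adj_Y B g Y h hg z hz] at h1
  rw [← h1]
  exact hv z hz

/-- elements of `Y^⊥`: the projection to the cyclic space is in `q(s) U` -/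
theorem dpx_prq (B : SkewH E V) (X : SA B) (e : V) (q : Polynomial F) (k : ℕ) (hk : 1 ≤ k)
    (hq0 : q ≠ 0) (hann : ∀ f : Polynomial E, Polynomial.aeval X.1 f e = 0 ↔
      (q.map (algebraMap F E)) ^ k ∣ f) (hnd : NDeg B (cyc X.1 e)) (v : V) :
    v ∈ orth B (qSub F X.1 e q (k - 1)) ↔
      prO B (cyc X.1 e) hnd v ∈ qSub F X.1 e q 1 := by
  have h1 : k - (k - 1) = 1 := by omega
  have h2 := qs_orth B X e q k (k - 1) (Nat.sub_le k 1) hq0 hann hnd
    (prO B (cyc X.1 e) hnd v) (prO_mem B _ hnd v)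
  rw [h1] at h2
  rw [← h2]
  constructor
  · intro h y hy
    rw [ip_prO B _ hnd v (dpx_q_le X.1 e q _ hy)]
    exact h y hy
  · intro h y hy
    rw [← ip_prO B _ hnd v (dpx_q_le X.1 e q _ hy)]
    exact h y hy

/-- `q^{k-1}(s)` kills `q(s) U` -/
theorem dpx_kill (B : SkewH E V) (X : SA B) (e : V) (q : Polynomial F) (k : ℕ) (hk : 1 ≤ k)
    (hann : ∀ f : Polynomial E, Polynomial.aeval X.1 f e = 0 ↔
      (q.map (algebraMap F E)) ^ k ∣ f) (r : Polynomial F) {u : V}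
    (hu : u ∈ qSub F X.1 e q 1) :
    Polynomial.aeval X.1 ((r * q ^ (k - 1)).map (algebraMap F E)) u = 0 := by
  obtain ⟨g, rfl⟩ := (dpx_mem_q X.1 e q 1 u).1 hu
  rw [← dpx_mul, hann, Polynomial.map_mul, Polynomial.map_pow]
  obtain ⟨j, rfl⟩ : ∃ j, k = j + 1 := ⟨k - 1, by omega⟩
  rw [Nat.add_sub_cancel, pow_one, pow_succ]
  exact ⟨r.map (algebraMap F E) * g, by ring⟩

end

end Pool.Agent.Work.MP_dd0ddf_al.OC
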