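import Pool.Agent.Work.MP_dd0ddf_al.OC.DpAlg
import Pool.Agent.Work.MP_dd0ddf_al.OC.DpAux
import Pool.Agent.Work.MP_dd0ddf_al.OC.Witt
import Pool.Agent.Work.MP_dd0ddf_al.OC.FdPoly

/-!
# MP_dd0ddf_al, module DpInd: the induced data on V1 ≅ Y^⊥/Y

`g y = y` on Y = q^{k-1}(s)U; g, g^* preserve Y and Y^⊥ (see DpSpec).  `g1 w = pr(g w)`: invertible with inverse `pr(g⁻¹ w)`.  `adj B1 g1 = (w ↦ pr(g^* w))`, so `s1 = g1 g1^* = (w ↦ pr(s w))`, `f(s1) pr v = pr(f(s) v)` for v ∈ Y^⊥, f ∈ E[x].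
`e1 = pr(q(s)e)` (q(s) e ∈ Y^⊥ by qs_orth, k ≥ 2).  `f(s1) e1 = pr(f(s)q(s)e) = 0` iff `f q (s) e ∈ Y` iff `q^{k-1} ∣ f q` iff `q^{k-2} ∣ f`.  `U1 = cyc s1 e1 = pr(q(s)U) ⊆ q(s)U` (Y ⊆ q(s) U), nondegenerate: if `w = pr(qu)` is orthogonal to U1, it is orthogonal to q(s)U, so w ∈ q^{k-1}(s)U = Y (qs_orth), w ∈ V1 ∩ Y = 0.
Lifting: `c1 ∈ CU B1 s1 U1`: `c1 = f(s1)` on U1 with `f fbar ≡ 1 mod q^{k-2}`.  Write `f fbar ≡ w` with w ∈ F[x] mod q^k (f fbar is self-conjugate), `w ≡ 1 mod q^{k-2}`, k - 2 ≥ 1; `sqrt_mod`: `u² ≡ w mod q^k`, `u ≡ 1 mod q`; then `u ≡ 1 mod q^{k-2}` ((u-1)(u+1) ≡ 0, u+1 invertible mod q), and `f' = f u⁻¹` (inverse mod q^k)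
satisfies `f' f'bar ≡ 1 mod q^k`, `f' ≡ f mod q^{k-2}`.  `c = f'(s)` on U, 1 on U^⊥, in CU B s U; preserves Y.  `indY c = c1`: on U1 ⊆ q(s)U: pr(f'(s)w) = f'(s1) w = f(s1) w; if w ∈ V1 is orthogonal to U1 then it is orthogonal to q(s)U so `pr_U w ∈ Y`, `c w = f'(s) pr_U w + (w - pr_U w)`, projection w.
`c' = g⁻¹ c g` unitary (c commutes with s), preserves Y, `indY c' = g1⁻¹ c1 g1`; on Y: `c' y = g⁻¹ c y = c y`.
-/

set_option linter.unusedSectionVars false
set_option linter.style.haveILetI false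

namespace Pool.Agent.Work.MP_dd0ddf_al.OC

noncomputable section

universe u

variable {F E : Type u} [NontriviallyNormedField F] [IsUltrametricDist F] [ProperSpace F]
  [NeZero (2 : F)] [NontriviallyNormedField E] [NormedAlgebra F E] [ProperSpace E] [StarRing E]
  [QExt F E] [MeasurableSpace E] [BorelSpace E]
variable {V : Type u} [AddCommGroup V] [Module E V] [Module.Finite E V] [TopologicalSpace V]
  [IsTopologicalAddGroup V] [T2Space V] [ContinuousSMul E V]

section Ind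

variable {B : SkewH E V} (D : IsoD B)

/-- the operator induced on `V1` -/
private def indT (T : Module.End E V) : Module.End E D.V1 :=
  (prO B D.V1 D.nd ∘ₗ T ∘ₗ D.V1.subtype).codRestrict D.V1 (fun _ => prO_mem B D.V1 D.nd _)

private theorem indT_apply (T : Module.End E V) (w : D.V1) :
    ((indT D T w : D.V1) : V) = prO B D.V1 D.nd (T (w : V)) := rfl

private theorem ind_pr (T : Module.End E V) (hT : ∀ y ∈ D.Y, T y ∈ D.Y) {v : V}
    (hv : v ∈ orth B D.Y) : prO B D.V1 D.nd (T (prO B D.V1 D.nd v)) =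
      prO B D.V1 D.nd (T v) := by
  have h1 : v = prO B D.V1 D.nd v + (v - prO B D.V1 D.nd v) := by abel
  have h2 : prO B D.V1 D.nd (T (v - prO B D.V1 D.nd v)) = 0 := D.pr_Y (hT _ (D.sub_pr hv))
  conv_rhs => rw [h1, map_add, map_add, h2, add_zero]

private theorem indT_mul (T T' : Module.End E V) (hT : ∀ y ∈ D.Y, T y ∈ D.Y)
    (hT' : ∀ v ∈ orth B D.Y, T' v ∈ orth B D.Y) : indT D T * indT D T' = indT D (T * T') := by
  apply LinearMap.ext
  intro w
  apply Subtype.ext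
  show prO B D.V1 D.nd (T (prO B D.V1 D.nd (T' (w : V)))) = prO B D.V1 D.nd (T (T' (w : V)))
  exact ind_pr D T hT (hT' _ (D.V1_le w.2))

private theorem indT_one : indT D 1 = 1 := by
  apply LinearMap.ext
  intro w
  apply Subtype.ext
  show prO B D.V1 D.nd (w : V) = w
  exact prO_of_mem B D.V1 D.nd w.2

private theorem indT_adj (T : Module.End E V) :
    adj (B.restrict D.V1 D.nd) (indT D T) = indT D (adj B T) := by
  symm
  apply adj_unique
  intro v w
  show B.ip (prO B D.V1 D.nd (T (v : V))) (w : V) =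
    B.ip (v : V) (prO B D.V1 D.nd (adj B T (w : V)))
  rw [ip_prO B D.V1 D.nd _ w.2, adj_spec, B.skew (prO B D.V1 D.nd (adj B T (w : V))) (v : V),
    ip_prO B D.V1 D.nd _ v.2, ← B.skew]

private theorem ind_pow (T : Module.End E V) (hT : ∀ y ∈ D.Y, T y ∈ D.Y)
    (hT' : ∀ v ∈ orth B D.Y, T v ∈ orth B D.Y) (n : ℕ) {v : V} (hv : v ∈ orth B D.Y) :
    (T ^ n) v ∈ orth B D.Y ∧ ((((indT D T) ^ n) ⟨prO B D.V1 D.nd v, prO_mem B D.V1 D.nd v⟩ :
      D.V1) : V) = prO B D.V1 D.nd ((T ^ n) v) := by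
  induction n with
  | zero => exact ⟨hv, rfl⟩
  | succ n ih =>
    have e1 : (T ^ (n + 1)) v = T ((T ^ n) v) := by
      rw [pow_succ']
      rfl
    have e2 : ((indT D T) ^ (n + 1)) ⟨prO B D.V1 D.nd v, prO_mem B D.V1 D.nd v⟩ =
        indT D T (((indT D T) ^ n) ⟨prO B D.V1 D.nd v, prO_mem B D.V1 D.nd v⟩) := by
      rw [pow_succ']
      rfl
    refine ⟨?_, ?_⟩
    · rw [e1]
      exact hT' _ ih.1
    · rw [e2, indT_apply, ih.2, e1]
      exact ind_pr D T hT ih.1

private theorem ind_aeval (T : Module.End E V) (hT : ∀ y ∈ D.Y, T y ∈ D.Y)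
    (hT' : ∀ v ∈ orth B D.Y, T v ∈ orth B D.Y) (f : Polynomial E) {v : V}
    (hv : v ∈ orth B D.Y) :
    ((Polynomial.aeval (indT D T) f ⟨prO B D.V1 D.nd v, prO_mem B D.V1 D.nd v⟩ : D.V1) : V) =
      prO B D.V1 D.nd (Polynomial.aeval T f v) := by
  induction f using Polynomial.induction_on' with
  | add f g hf hg =>
    rw [map_add, map_add, LinearMap.add_apply, LinearMap.add_apply, Submodule.coe_add, hf, hg,
      map_add]
  | monomial n a =>
    rw [Polynomial.aeval_monomial, Polynomial.aeval_monomial]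
    show ((a • (((indT D T) ^ n) ⟨prO B D.V1 D.nd v, prO_mem B D.V1 D.nd v⟩) : D.V1) : V) =
      prO B D.V1 D.nd (a • (T ^ n) v)
    rw [Submodule.coe_smul, (ind_pow D T hT hT' n hv).2, map_smul]

private theorem ind_ip {v w : V} (hv : v ∈ orth B D.Y) (hw : w ∈ orth B D.Y) :
    B.ip (prO B D.V1 D.nd v) (prO B D.V1 D.nd w) = B.ip v w := by
  have h1 : v = prO B D.V1 D.nd v + (v - prO B D.V1 D.nd v) := by abel
  have h2 : w = prO B D.V1 D.nd w + (w - prO B D.V1 D.nd w) := by abel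
  have h3 : B.ip (v - prO B D.V1 D.nd v) w = 0 := by
    apply dpx_symm
    exact hw _ (D.sub_pr hv)
  have h4 : B.ip (prO B D.V1 D.nd v) (w - prO B D.V1 D.nd w) = 0 :=
    D.V1_le (prO_mem B D.V1 D.nd v) _ (D.sub_pr hw)
  calc B.ip (prO B D.V1 D.nd v) (prO B D.V1 D.nd w)
      = B.ip (prO B D.V1 D.nd v) (prO B D.V1 D.nd w + (w - prO B D.V1 D.nd w)) := by
        rw [B.add_right, h4, add_zero]
    _ = B.ip (prO B D.V1 D.nd v) w := by rw [← h2]
    _ = B.ip (prO B D.V1 D.nd v + (v - prO B D.V1 D.nd v)) w := by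
        rw [B.add_left, h3, add_zero]
    _ = B.ip v w := by rw [← h1]

end Ind

/-- a polynomial fixed by conjugation has coefficients in `F` -/
private theorem dpind_fix (w : Polynomial E) (h : w.map (starRingEnd E) = w) :
    ∃ w0 : Polynomial F, w0.map (algebraMap F E) = w := by
  obtain ⟨η, hη0, hη, -, -, hfix⟩ := exists_eta F E
  have h1 : ∀ n, ∃ f : F, algebraMap F E f = w.coeff n := by
    intro n
    have h2 : star (w.coeff n) = w.coeff n := by
      conv_rhs => rw [← h]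
      rw [Polynomial.coeff_map]
      rfl
    obtain ⟨f, hf⟩ := hfix _ h2
    exact ⟨f, hf.symm⟩
  have h2 : w ∈ Polynomial.lifts (algebraMap F E) := by
    rw [Polynomial.lifts_iff_coeff_lifts]
    exact h1
  exact (Polynomial.mem_lifts w).1 h2

/-- correction of `f`: an isometry modulo `q^k` congruent to `f` modulo `q^(k-2)` -/
private theorem dpind_lift (q : Polynomial F) (k : ℕ) (hk : 3 ≤ k) (hqi : Irreducible q)
    (f : Polynomial E)
    (hf : (q.map (algebraMap F E)) ^ (k - 2) ∣ f * f.map (starRingEnd E) - 1) :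
    ∃ f' : Polynomial E, (q.map (algebraMap F E)) ^ k ∣ f' * f'.map (starRingEnd E) - 1 ∧
      (q.map (algebraMap F E)) ^ (k - 2) ∣ f' - f := by
  have hstst : (starRingEnd E).comp (starRingEnd E) = RingHom.id E := by
    ext x
    exact star_star x
  have hstF : (starRingEnd E).comp (algebraMap F E) = algebraMap F E := by
    ext x
    exact QExt.star_alg x
  obtain ⟨w0, hw0⟩ := dpind_fix (F := F) (f * f.map (starRingEnd E)) (by
    rw [Polynomial.map_mul, Polynomial.map_map, hstst, Polynomial.map_id, mul_comm])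
  have h1 : q ^ (k - 2) ∣ w0 - 1 := by
    rw [← hw0] at hf
    have h2 : (q.map (algebraMap F E)) ^ (k - 2) = (q ^ (k - 2)).map (algebraMap F E) := by
      rw [Polynomial.map_pow]
    have h3 : w0.map (algebraMap F E) - 1 = (w0 - 1).map (algebraMap F E) := by
      rw [Polynomial.map_sub, Polynomial.map_one]
    rw [h2, h3] at hf
    exact (Polynomial.map_dvd_map' (algebraMap F E)).1 hf
  have h2 : q ∣ w0 - 1 := (dvd_pow_self q (by omega)).trans h1
  obtain ⟨u, hu1, hu2⟩ := sqrt_mod (two_ne_zero : (2 : F) ≠ 0) q w0 hqi h2 k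
  have hcop1 : IsCoprime q (u + 1) := by
    rw [hqi.coprime_iff_not_dvd]
    intro h3
    have h4 : q ∣ 2 := by
      have h5 := dvd_sub h3 hu2
      have h6 : u + 1 - (u - 1) = 2 := by ring
      rwa [h6] at h5
    have h7 : IsUnit (2 : Polynomial F) := by
      have h8 : (2 : Polynomial F) = Polynomial.C (2 : F) := (map_ofNat Polynomial.C 2).symm
      rw [h8]
      exact Polynomial.isUnit_C.2 (isUnit_iff_ne_zero.2 two_ne_zero)
    exact hqi.not_isUnit (isUnit_of_dvd_unit h4 h7)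
  have hcop2 : IsCoprime u q := by
    obtain ⟨c, hc⟩ := hu2
    exact ⟨1, -c, by linear_combination hc⟩
  have hu3 : q ^ (k - 2) ∣ u - 1 := by
    have h3 : q ^ (k - 2) ∣ (u - 1) * (u + 1) := by
      have h4 : (u - 1) * (u + 1) = (u ^ 2 - w0) + (w0 - 1) := by ring
      rw [h4]
      exact dvd_add ((pow_dvd_pow q (Nat.sub_le k 2)).trans hu1) h1
    exact (hcop1.pow_left).dvd_of_dvd_mul_right h3
  obtain ⟨a, b, hab⟩ := (hcop2.pow_right (n := k) : IsCoprime u (q ^ k))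
  have ha1 : q ^ (k - 2) ∣ a - 1 := by
    have h3 : a - 1 = -(a * (u - 1)) + (a * u + b * q ^ k - 1) - b * q ^ k := by ring
    rw [h3, hab, sub_self, add_zero]
    exact dvd_sub (dvd_neg.2 (hu3.mul_left a)) ((pow_dvd_pow q (Nat.sub_le k 2)).mul_left b)
  have ha2 : q ^ k ∣ w0 * a ^ 2 - 1 := by
    have h3 : w0 * a ^ 2 - 1 = -((u ^ 2 - w0) * a ^ 2) + (a * u - 1) * (a * u + 1) := by ring
    have h4 : a * u - 1 = -(b * q ^ k) := by linear_combination hab
    rw [h3, h4]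
    refine dvd_add (dvd_neg.2 (hu1.mul_right _)) (Dvd.dvd.mul_right ?_ _)
    exact dvd_neg.2 (dvd_mul_left _ _)
  refine ⟨f * a.map (algebraMap F E), ?_, ?_⟩
  · have h3 : f * a.map (algebraMap F E) * (f * a.map (algebraMap F E)).map (starRingEnd E) - 1 =
        (w0 * a ^ 2 - 1).map (algebraMap F E) := by
      rw [Polynomial.map_mul, Polynomial.map_map, hstF, Polynomial.map_sub, Polynomial.map_mul,
        hw0, Polynomial.map_pow, Polynomial.map_one]
      ring
    rw [h3, ← Polynomial.map_pow]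
    exact Polynomial.map_dvd _ ha2
  · have h3 : f * a.map (algebraMap F E) - f = f * (a - 1).map (algebraMap F E) := by
      rw [Polynomial.map_sub, Polynomial.map_one]
      ring
    rw [h3, ← Polynomial.map_pow]
    exact (Polynomial.map_dvd _ ha1).mul_left _

/-- the isometry `f(X)` on the cyclic space, `1` on its complement -/
private theorem dpind_iso (B : SkewH E V) (X : SA B) (e : V) (q : Polynomial F) (k : ℕ)
    (hann : ∀ f : Polynomial E, Polynomial.aeval X.1 f e = 0 ↔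
      (q.map (algebraMap F E)) ^ k ∣ f) (hnd : NDeg B (cyc X.1 e)) (f : Polynomial E)
    (hf : (q.map (algebraMap F E)) ^ k ∣ f * f.map (starRingEnd E) - 1) :
    ∃ c ∈ CU B X (cyc X.1 e), ∀ v : V,
      c.1.1 v = Polynomial.aeval X.1 f (prO B (cyc X.1 e) hnd v) +
        (v - prO B (cyc X.1 e) hnd v) := by
  set P := prO B (cyc X.1 e) hnd with hP
  have hstst : (starRingEnd E).comp (starRingEnd E) = RingHom.id E := by
    ext x
    exact star_star x
  have hPP : ∀ v, P (P v) = P v := fun v => prO_of_mem B _ hnd (prO_mem B _ hnd v)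
  have hff : ∀ v, Polynomial.aeval X.1 f (Polynomial.aeval X.1 (f.map (starRingEnd E)) (P v)) =
      P v := by
    intro v
    obtain ⟨g, hg⟩ := (mem_cyc X.1 e _).1 (prO_mem B _ hnd v)
    rw [hg, ← dpx_mul, ← dpx_mul, ← sub_eq_zero, ← LinearMap.sub_apply, ← map_sub, hann]
    have h1 : f * f.map (starRingEnd E) * g - g = (f * f.map (starRingEnd E) - 1) * g := by
      ring
    rw [h1]
    exact hf.mul_right g
  have hff' : ∀ v, Polynomial.aeval X.1 (f.map (starRingEnd E)) (Polynomial.aeval X.1 f (P v)) =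
      P v := by
    intro v
    rw [← dpx_mul, mul_comm, dpx_mul, hff]
  let M : Polynomial E → Module.End E V := fun f => Polynomial.aeval X.1 f * P + (1 - P)
  have hM : ∀ f v, M f v = Polynomial.aeval X.1 f (P v) + (v - P v) := fun f v => rfl
  have hPM : ∀ f v, P (M f v) = Polynomial.aeval X.1 f (P v) := by
    intro f v
    rw [hM, map_add, map_sub, hPP, sub_self, add_zero, hP, dpx_pr, ← hP, hPP]
  have hsub : ∀ f v, M f v - P (M f v) = v - P v := by
    intro f v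
    rw [hPM, hM]
    abel
  let c : GV E V := ⟨M f, M (f.map (starRingEnd E)), by
    ext v
    show M f (M (f.map (starRingEnd E)) v) = v
    rw [hM f, hsub, hPM, hff]
    abel, by
    ext v
    show M (f.map (starRingEnd E)) (M f v) = v
    rw [hM (f.map (starRingEnd E)), hsub, hPM, hff']
    abel⟩
  have hc : c ∈ UU B := by
    intro v w
    show B.ip (M f v) (M f w) = B.ip v w
    have hvw : B.ip v w = B.ip (P v) (P w) + B.ip (v - P v) (w - P w) := by
      have h1 : v = P v + (v - P v) := by abel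
      have h2 : w = P w + (w - P w) := by abel
      have h3 : B.ip (v - P v) (P w) = 0 := sub_prO_mem B _ hnd v _ (prO_mem B _ hnd w)
      have h4 : B.ip (P v) (w - P w) = 0 :=
        dpx_symm B (sub_prO_mem B _ hnd w _ (prO_mem B _ hnd v))
      calc B.ip v w = B.ip (P v + (v - P v)) (P w + (w - P w)) := by rw [← h1, ← h2]
        _ = B.ip (P v) (P w) + B.ip (v - P v) (w - P w) := by
          rw [B.add_left, B.add_right, B.add_right, h3, h4]
          ring
    have h5 : B.ip (Polynomial.aeval X.1 f (P v)) (Polynomial.aeval X.1 f (P w)) =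
        B.ip (P v) (P w) := by
      rw [ip_aeval B X.2, hff']
    have h6 : B.ip (v - P v) (Polynomial.aeval X.1 f (P w)) = 0 :=
      sub_prO_mem B _ hnd v _ (dpx_cyc_stab X.1 e f (prO_mem B _ hnd w))
    have h7 : B.ip (Polynomial.aeval X.1 f (P v)) (w - P w) = 0 :=
      dpx_symm B (sub_prO_mem B _ hnd w _ (dpx_cyc_stab X.1 e f (prO_mem B _ hnd v)))
    rw [hM, hM, B.add_left, B.add_right, B.add_right, h5, h6, h7, hvw]
    ring
  refine ⟨⟨c, hc⟩, ⟨?_, ?_⟩, fun v => rfl⟩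
  · ext v
    show M f (X.1 v) = X.1 (M f v)
    have h1 : P (X.1 v) = X.1 (P v) := by
      rw [← dpx_X X.1 v, hP, dpx_pr, dpx_X]
    rw [hM, hM, h1, map_add, map_sub, dpx_comm]
  · intro v hv
    show M f v = v
    have h1 : P v = 0 := prO_of_orth B _ hnd hv
    rw [hM, h1, map_zero, sub_zero, zero_add]

/-- elements of `CU` act on the cyclic space by a polynomial -/
private theorem dpind_poly {V : Type u} [AddCommGroup V] [Module E V] [Module.Finite E V]
    (B : SkewH E V) (X : SA B) (e : V)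
    (hnd : NDeg B (cyc X.1 e)) (c : UU B) (hc : c ∈ CU B X (cyc X.1 e)) :
    ∃ f : Polynomial E, (∀ u ∈ cyc X.1 e, c.1.1 u = Polynomial.aeval X.1 f u) ∧
      Polynomial.aeval X.1 (f * f.map (starRingEnd E) - 1) e = 0 := by
  have hmul : ∀ (f g : Polynomial E) (v : V), Polynomial.aeval X.1 (f * g) v =
      Polynomial.aeval X.1 f (Polynomial.aeval X.1 g v) := fun f g v => by
    rw [map_mul]
    rfl
  have he : e ∈ cyc X.1 e := Submodule.subset_span ⟨0, rfl⟩
  have hce : c.1.1 e ∈ cyc X.1 e := by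
    refine (orth_orth B (cyc X.1 e)).le ?_
    intro w hw
    have h1 := c.2 e w
    rw [hc.2 w hw] at h1
    rw [h1, B.skew w e, hw e he, star_zero, neg_zero]
  obtain ⟨f, hf⟩ := (mem_cyc X.1 e _).1 hce
  have hcomm : ∀ (g : Polynomial E) (v : V), c.1.1 (Polynomial.aeval X.1 g v) =
      Polynomial.aeval X.1 g (c.1.1 v) := by
    intro g v
    have h1 : Commute c.1.1 X.1 := hc.1
    have h2 : Commute c.1.1 (Polynomial.aeval X.1 g) := by
      induction g using Polynomial.induction_on' with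
      | add f g hf hg => rw [map_add]; exact hf.add_right hg
      | monomial n b =>
        rw [Polynomial.aeval_monomial]
        exact (Algebra.commute_algebraMap_right b _).mul_right (h1.pow_right n)
    exact LinearMap.congr_fun h2 v
  have hcu : ∀ u ∈ cyc X.1 e, c.1.1 u = Polynomial.aeval X.1 f u := by
    intro u hu
    obtain ⟨g, rfl⟩ := (mem_cyc X.1 e u).1 hu
    rw [hcomm, hf, ← hmul, ← hmul, mul_comm]
  refine ⟨f, hcu, ?_⟩
  refine hnd _ ((mem_cyc X.1 e _).2 ⟨_, rfl⟩) fun w hw => ?_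
  have h1 := c.2 e w
  rw [hcu e he, hcu w hw] at h1
  have hstst : (starRingEnd E).comp (starRingEnd E) = RingHom.id E := by
    ext x
    exact star_star x
  have h2 : B.ip (Polynomial.aeval X.1 (f.map (starRingEnd E)) (Polynomial.aeval X.1 f e)) w =
      B.ip (Polynomial.aeval X.1 f e) (Polynomial.aeval X.1 f w) := by
    rw [ip_aeval B X.2 (f.map (starRingEnd E)), Polynomial.map_map, hstst, Polynomial.map_id]
  have h3 : Polynomial.aeval X.1 (f * f.map (starRingEnd E) - 1) e =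
      Polynomial.aeval X.1 (f.map (starRingEnd E)) (Polynomial.aeval X.1 f e) - e := by
    rw [map_sub, LinearMap.sub_apply, mul_comm, hmul, map_one]
    rfl
  have h4 : ∀ a b w : V, B.ip (a - b) w = B.ip a w - B.ip b w := fun a b w =>
    map_sub (B.lin w) a b
  rw [h3, h4, h2, h1, sub_self]

theorem dp_ind {B : SkewH E V} (q : Polynomial F) (k : ℕ) (hk : 3 ≤ k) (hq : Bad F E q)
    (g : GV E V) (e : V) (hann : ∀ f : Polynomial E, Polynomial.aeval (sg B g).1 f e = 0 ↔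
      (q.map (algebraMap F E)) ^ k ∣ f) (hnd : NDeg B (cyc (sg B g).1 e))
    (D : IsoD B) (hD : D.Y = qSub F (sg B g).1 e q (k - 1)) (hg : ∀ y ∈ D.Y, g.1 y = y) :
    ∃ (g1 : GV E D.V1) (e1 : D.V1),
      (∀ f : Polynomial E, Polynomial.aeval (sg (B.restrict D.V1 D.nd) g1).1 f e1 = 0 ↔
        (q.map (algebraMap F E)) ^ (k - 2) ∣ f) ∧
      NDeg (B.restrict D.V1 D.nd) (cyc (sg (B.restrict D.V1 D.nd) g1).1 e1) ∧
      ∀ c1 ∈ CU (B.restrict D.V1 D.nd) (sg (B.restrict D.V1 D.nd) g1)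
        (cyc (sg (B.restrict D.V1 D.nd) g1).1 e1), ∀ c1' : UU (B.restrict D.V1 D.nd),
        c1'.1 = g1⁻¹ * c1.1 * g1 → ∃ c ∈ CU B (sg B g) (cyc (sg B g).1 e), ∃ c' : UU B,
          c'.1 = g⁻¹ * c.1 * g ∧ ∃ (hc : c ∈ stabY D) (hc' : c' ∈ stabY D),
            indY D ⟨c, hc⟩ = c1 ∧ indY D ⟨c', hc'⟩ = c1' ∧
            ∀ y ∈ D.Y, c.1.1 y = c'.1.1 y := by
  classical
  obtain ⟨hqm, hqiE, hq00, hqn⟩ := hq
  have hq0 : q ≠ 0 := hqm.ne_zero
  have hqi : Irreducible q := hqm.irreducible_of_irreducible_map _ _ hqiE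
  have hQ0 : q.map (algebraMap F E) ≠ 0 :=
    (Polynomial.map_ne_zero_iff (algebraMap F E).injective).2 hq0
  have hst : ∀ y ∈ D.Y, (sg B g).1 y ∈ D.Y := by
    rw [hD]
    exact fun y hy => dpx_q_stabX (sg B g).1 e q _ hy
  have hsto : ∀ v ∈ orth B D.Y, (sg B g).1 v ∈ orth B D.Y := by
    intro v hv y hy
    rw [(sg B g).2 v y]
    exact hv _ (hst y hy)
  have hgY : ∀ y ∈ D.Y, g.1 y ∈ D.Y := fun y hy => by
    rw [hg y hy]
    exact hy
  have hgiY : ∀ y ∈ D.Y, g⁻¹.1 y = y := fun y hy => dpx_inv_Y g D.Y hg y hy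
  have hgiY' : ∀ y ∈ D.Y, g⁻¹.1 y ∈ D.Y := fun y hy => by
    rw [hgiY y hy]
    exact hy
  have hgO : ∀ v ∈ orth B D.Y, g.1 v ∈ orth B D.Y := fun v hv => dpx_orth B g D.Y hst hg hv
  have hgiO : ∀ v ∈ orth B D.Y, g⁻¹.1 v ∈ orth B D.Y := fun v hv =>
    dpx_orth_inv B g D.Y hst hg hv
  have hgaO : ∀ v ∈ orth B D.Y, adj B g.1 v ∈ orth B D.Y := by
    intro v hv y hy
    have h1 := adj_spec B (adj B g.1) v y
    rw [adj_adj] at h1
    rw [h1, hg y hy]
    exact hv y hy
  let g1 : GV E D.V1 := ⟨indT D g.1, indT D g⁻¹.1, by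
    rw [indT_mul D _ _ hgY hgiO]
    have h1 : g.1 * g⁻¹.1 = 1 := g.mul_inv
    rw [h1, indT_one], by
    rw [indT_mul D _ _ hgiY' hgO]
    have h1 : g⁻¹.1 * g.1 = 1 := g.inv_mul
    rw [h1, indT_one]⟩
  have hs1 : (sg (B.restrict D.V1 D.nd) g1).1 = indT D (sg B g).1 := by
    show indT D g.1 * adj (B.restrict D.V1 D.nd) (indT D g.1) = indT D (g.1 * adj B g.1)
    rw [indT_adj, indT_mul D _ _ hgY hgaO]
  have hQe : Polynomial.aeval (sg B g).1 (q.map (algebraMap F E)) e ∈ qSub F (sg B g).1 e q 1 :=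
    (dpx_mem_q _ e q 1 _).2 ⟨1, by rw [pow_one, mul_one]⟩
  have hq1O : ∀ v ∈ qSub F (sg B g).1 e q 1, v ∈ orth B D.Y := by
    intro v hv
    rw [hD, dpx_prq B (sg B g) e q k (by omega) hq0 hann hnd v,
      prO_of_mem B _ hnd (dpx_q_le _ e q 1 hv)]
    exact hv
  obtain ⟨e1, he1⟩ : ∃ e1 : D.V1, e1 = ⟨prO B D.V1 D.nd
    (Polynomial.aeval (sg B g).1 (q.map (algebraMap F E)) e), prO_mem B D.V1 D.nd _⟩ :=
    ⟨_, rfl⟩
  have hae : ∀ f : Polynomial E, ((Polynomial.aeval (sg (B.restrict D.V1 D.nd) g1).1 f e1 :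
      D.V1) : V) = prO B D.V1 D.nd (Polynomial.aeval (sg B g).1
        (q.map (algebraMap F E) * f) e) := by
    intro f
    rw [hs1, he1, ind_aeval D _ hst hsto f (hq1O _ hQe), ← dpx_mul, mul_comm]
  have hmem1 : ∀ f : Polynomial E, Polynomial.aeval (sg B g).1 (q.map (algebraMap F E) * f) e ∈
      qSub F (sg B g).1 e q 1 := fun f => (dpx_mem_q _ e q 1 _).2 ⟨f, by rw [pow_one]⟩
  have hpr0 : ∀ v ∈ orth B D.Y, (prO B D.V1 D.nd v = 0 ↔ v ∈ D.Y) := by
    intro v hv
    constructor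
    · intro h
      have h1 := D.sub_pr hv
      rwa [h, sub_zero] at h1
    · exact fun h => D.pr_Y h
  have hann1 : ∀ f : Polynomial E,
      Polynomial.aeval (sg (B.restrict D.V1 D.nd) g1).1 f e1 = 0 ↔
        (q.map (algebraMap F E)) ^ (k - 2) ∣ f := by
    intro f
    have h1 : Polynomial.aeval (sg (B.restrict D.V1 D.nd) g1).1 f e1 = 0 ↔
        ((Polynomial.aeval (sg (B.restrict D.V1 D.nd) g1).1 f e1 : D.V1) : V) = 0 := by
      rw [Submodule.coe_eq_zero]
    rw [h1, hae, hpr0 _ (hq1O _ (hmem1 f)), hD,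
      qs_mem B (sg B g) e q k (k - 1) (Nat.sub_le k 1) hann]
    have h2 : k - 1 = (k - 2) + 1 := by omega
    rw [h2, pow_succ', mul_dvd_mul_iff_left hQ0]
  have hnd1 : NDeg (B.restrict D.V1 D.nd) (cyc (sg (B.restrict D.V1 D.nd) g1).1 e1) := by
    intro u hu hw
    obtain ⟨f, rfl⟩ := (mem_cyc _ e1 u).1 hu
    apply Subtype.ext
    rw [hae, Submodule.coe_zero, hpr0 _ (hq1O _ (hmem1 f)), hD]
    have h1 : k - 1 = k - 1 := rfl
    rw [← qs_orth B (sg B g) e q k 1 (by omega) hq0 hann hnd _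
      ((mem_cyc _ e _).2 ⟨_, rfl⟩)]
    intro v hv
    obtain ⟨h, rfl⟩ := (dpx_mem_q _ e q 1 v).1 hv
    rw [pow_one]
    have h2 := hw _ ((mem_cyc _ e1 _).2 ⟨h, rfl⟩)
    have h3 : B.ip ((Polynomial.aeval (sg (B.restrict D.V1 D.nd) g1).1 f e1 : D.V1) : V)
      ((Polynomial.aeval (sg (B.restrict D.V1 D.nd) g1).1 h e1 : D.V1) : V) = 0 := h2
    rw [hae, hae, ind_ip D (hq1O _ (hmem1 f)) (hq1O _ (hmem1 h))] at h3
    exact h3
  refine ⟨g1, e1, hann1, hnd1, fun c1 hc1 c1' hc1' => ?_⟩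
  obtain ⟨f, hfu, hff⟩ := dpind_poly (B.restrict D.V1 D.nd) (sg (B.restrict D.V1 D.nd) g1) e1
    hnd1 c1 hc1
  rw [hann1] at hff
  obtain ⟨f', hf'1, hf'2⟩ := dpind_lift q k hk hqi f hff
  obtain ⟨c, hc, hcv⟩ := dpind_iso B (sg B g) e q k hann hnd f' hf'1
  have hYU : ∀ y ∈ D.Y, y ∈ cyc (sg B g).1 e := by
    rw [hD]
    exact fun y hy => dpx_q_le _ e q _ hy
  have hfY : ∀ (h : Polynomial E), ∀ y ∈ D.Y, Polynomial.aeval (sg B g).1 h y ∈ D.Y := by
    rw [hD]
    exact fun h y hy => dpx_q_stab _ e q _ h hy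
  have hcY0 : ∀ y ∈ D.Y, c.1.1 y = Polynomial.aeval (sg B g).1 f' y := by
    intro y hy
    rw [hcv, prO_of_mem B _ hnd (hYU y hy), sub_self, add_zero]
  have hcY : ∀ y ∈ D.Y, c.1.1 y ∈ D.Y := by
    intro y hy
    rw [hcY0 y hy]
    exact hfY f' y hy
  have hcS : c ∈ stabY D := mem_stabY D c hcY
  have hcO : ∀ v ∈ orth B D.Y, c.1.1 v ∈ orth B D.Y := fun v hv => stabY_orth D ⟨c, hcS⟩ hv
  let c' : UU B := ⟨g⁻¹ * c.1 * g, dpx_unit B g c hc.1⟩
  have hc'ap : ∀ v, c'.1.1 v = g⁻¹.1 (c.1.1 (g.1 v)) := fun v => rfl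
  have hc'Y : ∀ y ∈ D.Y, c'.1.1 y = c.1.1 y := by
    intro y hy
    rw [hc'ap, hg y hy, hgiY _ (hcY y hy)]
  have hc'S : c' ∈ stabY D := mem_stabY D c' fun y hy => by
    rw [hc'Y y hy]
    exact hcY y hy
  -- the induced isometry
  have hind : indT D c.1.1 = c1.1.1 := by
    apply LinearMap.ext
    intro w
    have hdec : w = prO (B.restrict D.V1 D.nd) _ hnd1 w +
        (w - prO (B.restrict D.V1 D.nd) _ hnd1 w) := by abel
    have hA : ∀ u ∈ cyc (sg (B.restrict D.V1 D.nd) g1).1 e1, indT D c.1.1 u = c1.1.1 u := by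
      intro u hu
      rw [hfu u hu]
      obtain ⟨h, rfl⟩ := (mem_cyc _ e1 u).1 hu
      have h0 : Polynomial.aeval (sg (B.restrict D.V1 D.nd) g1).1 f
          (Polynomial.aeval (sg (B.restrict D.V1 D.nd) g1).1 h e1) =
          Polynomial.aeval (sg (B.restrict D.V1 D.nd) g1).1 (f' * h) e1 := by
        rw [← dpx_mul, eq_comm, ← sub_eq_zero, ← LinearMap.sub_apply, ← map_sub, hann1,
          ← sub_mul]
        exact hf'2.mul_right h
      rw [h0]
      apply Subtype.ext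
      have h2 : ((Polynomial.aeval (sg (B.restrict D.V1 D.nd) g1).1 h e1 : D.V1) : V) ∈
          cyc (sg B g).1 e := by
        rw [hae]
        have h3 := D.sub_pr (hq1O _ (hmem1 h))
        have h4 := Submodule.sub_mem _ (dpx_q_le _ e q 1 (hmem1 h)) (hYU _ h3)
        rwa [sub_sub_cancel] at h4
      rw [indT_apply, hcv, prO_of_mem B _ hnd h2, sub_self, add_zero, hae, hae,
        ind_pr D (Polynomial.aeval (sg B g).1 f') (hfY f') (hq1O _ (hmem1 h)), ← dpx_mul]
      congr 3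
      ring
    have hB : ∀ u ∈ orth (B.restrict D.V1 D.nd) (cyc (sg (B.restrict D.V1 D.nd) g1).1 e1),
        indT D c.1.1 u = c1.1.1 u := by
      intro u hu
      rw [hc1.2 u hu]
      apply Subtype.ext
      have h1 : prO B (cyc (sg B g).1 e) hnd (u : V) ∈ D.Y := by
        rw [hD, ← qs_orth B (sg B g) e q k 1 (by omega) hq0 hann hnd _ (prO_mem B _ hnd _)]
        intro v hv
        rw [ip_prO B _ hnd _ (dpx_q_le _ e q 1 hv)]
        obtain ⟨h, rfl⟩ := (dpx_mem_q _ e q 1 v).1 hv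
        rw [pow_one] at hv ⊢
        have h2 : B.ip (u : V) ((Polynomial.aeval (sg (B.restrict D.V1 D.nd) g1).1 h e1 :
          D.V1) : V) = 0 := hu _ ((mem_cyc _ e1 _).2 ⟨h, rfl⟩)
        rw [hae] at h2
        have h3 := D.sub_pr (hq1O _ hv)
        have h4 : B.ip (u : V) (Polynomial.aeval (sg B g).1 (q.map (algebraMap F E) * h) e -
          prO B D.V1 D.nd (Polynomial.aeval (sg B g).1 (q.map (algebraMap F E) * h) e)) = 0 :=
          D.V1_le u.2 _ h3
        have h5 := B.add_right (u : V) (prO B D.V1 D.nd (Polynomial.aeval (sg B g).1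
          (q.map (algebraMap F E) * h) e)) (Polynomial.aeval (sg B g).1
          (q.map (algebraMap F E) * h) e - prO B D.V1 D.nd (Polynomial.aeval (sg B g).1
          (q.map (algebraMap F E) * h) e))
        rw [add_sub_cancel, h2, h4, add_zero] at h5
        exact h5
      have h6 : c.1.1 (u : V) - u ∈ D.Y := by
        rw [hcv]
        have h7 := Submodule.sub_mem _ (hfY f' _ h1) h1
        have h8 : Polynomial.aeval (sg B g).1 f' (prO B (cyc (sg B g).1 e) hnd (u : V)) +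
          ((u : V) - prO B (cyc (sg B g).1 e) hnd (u : V)) - u =
          Polynomial.aeval (sg B g).1 f' (prO B (cyc (sg B g).1 e) hnd (u : V)) -
            prO B (cyc (sg B g).1 e) hnd (u : V) := by abel
        rw [h8]
        exact h7
      rw [indT_apply]
      have h9 : c.1.1 (u : V) = u + (c.1.1 (u : V) - u) := by abel
      rw [h9, map_add, D.pr_Y h6, add_zero]
      exact prO_of_mem B D.V1 D.nd u.2
    rw [hdec, map_add, map_add, hA _ (prO_mem _ _ hnd1 w), hB _ (sub_prO_mem _ _ hnd1 w)]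
  refine ⟨c, hc, c', rfl, hcS, hc'S, ?_, ?_, fun y hy => (hc'Y y hy).symm⟩
  · apply Subtype.ext
    apply Units.ext
    exact hind
  · apply Subtype.ext
    rw [hc1']
    apply Units.ext
    show indT D (g⁻¹.1 * c.1.1 * g.1) = g1⁻¹.1 * c1.1.1 * g1.1
    have h1 : g1⁻¹.1 = indT D g⁻¹.1 := rfl
    have h2 : g1.1 = indT D g.1 := rfl
    have h3 : ∀ y ∈ D.Y, (g⁻¹.1 * c.1.1) y ∈ D.Y := fun y hy => hgiY' _ (hcY y hy)
    rw [h1, h2, ← hind, indT_mul D _ _ hgiY' hcO, indT_mul D _ _ h3 hgO]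

end

end Pool.Agent.Work.MP_dd0ddf_al.OC
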