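import Pool.Agent.Work.MP_dd0ddf_al.OC.NiDefs
import Pool.Agent.Work.MP_dd0ddf_al.OC.Topo
import Pool.Agent.Work.MP_dd0ddf_al.OC.ExtU
import Pool.Agent.Work.MP_dd0ddf_al.OC.NoPos

/-!
# MP_dd0ddf_al, module ScU: norm one scalars as isometries

`scU B z`: v ↦ z v for `z star z = 1`.  Continuity; E1 is compact (isCompact_norm_one; topology of units: inverse = star).
-/

set_option linter.unusedSectionVars false
set_option linter.style.haveILetI false

namespace Pool.Agent.Work.MP_dd0ddf_al.OC

noncomputable section

universe u

variable {F E : Type u} [NontriviallyNormedField F] [IsUltrametricDist F] [ProperSpace F]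
  [NeZero (2 : F)] [NontriviallyNormedField E] [NormedAlgebra F E] [ProperSpace E] [StarRing E]
  [QExt F E]
variable {V : Type u} [AddCommGroup V] [Module E V] [Module.Finite E V] [TopologicalSpace V]
  [IsTopologicalAddGroup V] [T2Space V] [ContinuousSMul E V]

private theorem scu_smul (a b : E) : (a • (1 : Module.End E V)) * (b • (1 : Module.End E V)) =
    (a * b) • (1 : Module.End E V) := by
  ext v
  show a • b • v = (a * b) • v
  rw [smul_smul]

private theorem scu_isom (B : SkewH E V) (z : E1 E) (v w : V) :
    B.ip (((z.1 : Eˣ) : E) • v) (((z.1 : Eˣ) : E) • w) = B.ip v w := by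
  have hz : ((z.1 : Eˣ) : E) * star ((z.1 : Eˣ) : E) = 1 := z.2
  rw [B.smul_left, B.smul_right, ← mul_assoc, hz, one_mul]

/-- `z ↦ (v ↦ z v)` -/
def scU (B : SkewH E V) : E1 E →* UU B where
  toFun z := ⟨{ val := ((z.1 : Eˣ) : E) • (1 : Module.End E V)
                inv := ((z.1⁻¹ : Eˣ) : E) • (1 : Module.End E V)
                val_inv := by rw [scu_smul, Units.mul_inv, one_smul]
                inv_val := by rw [scu_smul, Units.inv_mul, one_smul] }, scu_isom B z⟩
  map_one' := by
    apply Subtype.ext
    apply Units.ext
    exact one_smul E (1 : Module.End E V)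
  map_mul' := fun z z' => by
    apply Subtype.ext
    apply Units.ext
    exact (scu_smul ((z.1 : Eˣ) : E) ((z'.1 : Eˣ) : E)).symm

theorem scU_apply (B : SkewH E V) (z : E1 E) (v : V) :
    (scU B z).1.1 v = ((z.1 : Eˣ) : E) • v := rfl

variable (F) in
include F in
theorem continuous_scU (B : SkewH E V) : Continuous (scU B) := by
  refine Continuous.subtype_mk (Units.continuous_iff.2 ⟨?_, ?_⟩) _
  · refine continuous_induced_rng.mpr (continuous_pi fun v => ?_)
    show Continuous fun z : E1 E => ((z.1 : Eˣ) : E) • v
    exact (Units.continuous_val.comp continuous_subtype_val).smul continuous_const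
  · refine continuous_induced_rng.mpr (continuous_pi fun v => ?_)
    show Continuous fun z : E1 E => ((z.1⁻¹ : Eˣ) : E) • v
    exact (Units.continuous_val.comp (continuous_inv.comp continuous_subtype_val)).smul
      continuous_const

variable (F) in
include F in
theorem compact_E1 : CompactSpace (E1 E) := by
  haveI : CompactSpace {z : E | z * star z = 1} :=
    isCompact_iff_compactSpace.1 (isCompact_norm_one (E := E) F)
  let φ : {z : E | z * star z = 1} → E1 E := fun z =>
    ⟨⟨z.1, star z.1, z.2, (mul_comm _ _).trans z.2⟩, z.2⟩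
  have hφ : Continuous φ := by
    refine Continuous.subtype_mk (Units.continuous_iff.2 ⟨?_, ?_⟩) _
    · exact continuous_subtype_val
    · exact (continuous_star_E F E).comp continuous_subtype_val
  have hs : Function.Surjective φ := fun y => ⟨⟨((y.1 : Eˣ) : E), y.2⟩,
    Subtype.ext (Units.ext rfl)⟩
  exact hs.compactSpace hφ

end

end Pool.Agent.Work.MP_dd0ddf_al.OC
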