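import Pool.Agent.Work.MP_dd0ddf_al.OC.WrForm
import Pool.Agent.Work.MP_dd0ddf_al.OC.ScU

/-!
# MP_dd0ddf_al, module DpOneA: the formula in dimension one

`V = E e`, `a0 = ⟨e, e⟩` (star a0 = -a0, a0 ≠ 0).  For `β ∈ F` put `z = (β + a0/2)/(β - a0/2)`, `z star z = 1` (β - a0/2 ≠ 0 since a0/2 ∉ F); `z ≠ 1`, `(z - 1)⁻¹ a0 = β - a0/2`, `(z⁻¹-1)⁻¹ a0 = -β - a0/2`.
(L): formula for h = scU z, r = 1, b = e: `wall = (z-1)⁻¹ a0 = β - a0/2`, `½ Tr_{E/F}(x star x (β - a0/2)) = β N(x)` where `algebraMap (N x) = x star x`; integral over Fin 1 → E = integral over E.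
(R): r_formula for h = scU z⁻¹: `W_{h⁻¹}(e,e) = (z - 1)⁻¹ a0`.
-/

set_option linter.unusedSectionVars false
set_option linter.style.haveILetI false

namespace Pool.Agent.Work.MP_dd0ddf_al.OC

noncomputable section

universe u

variable {F E : Type u} [NontriviallyNormedField F] [IsUltrametricDist F] [ProperSpace F]
  [NeZero (2 : F)] [NontriviallyNormedField E] [NormedAlgebra F E] [ProperSpace E] [StarRing E]
  [QExt F E] [MeasurableSpace E] [BorelSpace E]
variable {V : Type u} [AddCommGroup V] [Module E V] [Module.Finite E V] [TopologicalSpace V]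
  [IsTopologicalAddGroup V] [T2Space V] [ContinuousSMul E V]

private theorem doa_trace_star {F E : Type u} [Field F] [Field E] [Algebra F E] [StarRing E]
    [QExt F E] (x : E) : Algebra.trace F E (star x) = Algebra.trace F E x :=
  Algebra.trace_eq_of_algEquiv
    ({ toFun := star
       invFun := star
       left_inv := star_star
       right_inv := star_star
       map_mul' := fun x y => by rw [star_mul']
       map_add' := fun x y => star_add x y
       commutes' := fun a => QExt.star_alg a } : E ≃ₐ[F] E) x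

variable (F) in
/-- the norm `N x ∈ F`, `x star x = N x` -/
def nmF (x : E) : F := 2⁻¹ * Algebra.trace F E (x * star x)

private theorem doa_trace_alg (c : F) : Algebra.trace F E (algebraMap F E c) = 2 * c := by
  rw [Algebra.trace_algebraMap, QExt.finrank_two (F := F) (E := E), nsmul_eq_mul, Nat.cast_ofNat]

theorem nmF_spec (x : E) : algebraMap F E (nmF F x) = x * star x := by
  obtain ⟨η, -, -, -, -, hfix⟩ := exists_eta F E
  have h1 : star (x * star x) = x * star x := by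
    rw [star_mul', star_star, mul_comm]
  obtain ⟨c, hc⟩ := hfix _ h1
  unfold nmF
  rw [hc, doa_trace_alg, inv_mul_cancel_left₀ two_ne_zero]

/-- `z_β = (β + a/2)/(β - a/2)` -/
theorem exists_zb (a : E) (ha : star a = -a) (ha0 : a ≠ 0) (β : F) :
    ∃ (z : E1 E) (d : Eˣ), (d : E) = algebraMap F E β - 2⁻¹ * a ∧
      ((z.1 : Eˣ) : E) * (algebraMap F E β - 2⁻¹ * a) = algebraMap F E β + 2⁻¹ * a := by
  haveI : NeZero (2 : E) := nz2_of_injective (algebraMap F E).injective
  have h2 : star (2⁻¹ : E) = 2⁻¹ := by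
    have h3 : (2⁻¹ : E) = algebraMap F E 2⁻¹ := by rw [map_inv₀, map_ofNat]
    rw [h3, QExt.star_alg]
  set d : E := algebraMap F E β - 2⁻¹ * a with hd
  set n : E := algebraMap F E β + 2⁻¹ * a with hn
  have hsd : star d = n := by
    rw [hd, hn, star_sub, star_mul', QExt.star_alg, ha, h2]
    ring
  have hsn : star n = d := by rw [← hsd, star_star]
  have hd0 : d ≠ 0 := by
    intro h0
    have h4 : n = 0 := by rw [← hsd, h0, star_zero]
    apply ha0
    have h5 : n - d = a := by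
      rw [hn, hd]
      have h6 : (2⁻¹ : E) + 2⁻¹ = 1 := by rw [← two_mul, mul_inv_cancel₀ two_ne_zero]
      linear_combination a * h6
    rw [← h5, h4, h0, sub_zero]
  have hn0 : n ≠ 0 := by
    intro h0
    apply hd0
    rw [← hsn, h0, star_zero]
  refine ⟨⟨Units.mk0 (n / d) (div_ne_zero hn0 hd0), ?_⟩, Units.mk0 d hd0, rfl, ?_⟩
  · show (n / d) * star (n / d) = 1
    rw [star_div₀, hsd, hsn]
    field_simp
  · show n / d * d = n
    exact div_mul_cancel₀ _ hd0

private theorem doa_star {B : SkewH E V} (e : V) : star (B.ip e e) = - B.ip e e := by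
  have := B.skew e e
  rw [← neg_eq_iff_eq_neg, ← this]

variable (F) in
include F in
private theorem doa_two : (2⁻¹ : E) + 2⁻¹ = 1 := by
  have h0 : (2 : F) ≠ 0 := two_ne_zero
  have h3 : (2⁻¹ : E) = algebraMap F E 2⁻¹ := by rw [map_inv₀, map_ofNat]
  rw [h3, ← map_add, ← map_one (algebraMap F E)]
  congr 1
  field_simp
  norm_num

variable (F) in
include F in
private theorem doa_sub (B : SkewH E V) (e : V) (b : E) (z : E1 E)
    (hz : ((z.1 : Eˣ) : E) * (b - 2⁻¹ * B.ip e e) = b + 2⁻¹ * B.ip e e) :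
    (((z.1 : Eˣ) : E) - 1) * (b - 2⁻¹ * B.ip e e) = B.ip e e := by
  have h6 : (2⁻¹ : E) + 2⁻¹ = 1 := doa_two F
  linear_combination hz + B.ip e e * h6

private theorem doa_ip_ne (B : SkewH E V) (e : V) (he : e ≠ 0)
    (hdim : Module.finrank E V = 1) : B.ip e e ≠ 0 := by
  intro h0
  apply he
  apply B.nondeg
  intro w
  obtain ⟨c, rfl⟩ := (finrank_eq_one_iff_of_nonzero' e he).1 hdim w
  rw [B.smul_right, h0, mul_zero]

private theorem doa_basis (B : SkewH E V) (e : V) (he : e ≠ 0)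
    (hdim : Module.finrank E V = 1) (z : E1 E) (hz1 : ((z.1 : Eˣ) : E) ≠ 1) :
    IsRBasis (scU B z).1 (fun _ : Fin 1 => e) := by
  refine ⟨?_, ?_⟩
  · rw [linearIndependent_unique_iff]
    exact he
  · apply le_antisymm
    · rw [Submodule.span_le]
      rintro x ⟨i, rfl⟩
      refine ⟨(((z.1 : Eˣ) : E) - 1)⁻¹ • e, ?_⟩
      show ((z.1 : Eˣ) : E) • ((((z.1 : Eˣ) : E) - 1)⁻¹ • e) - (((z.1 : Eˣ) : E) - 1)⁻¹ • e = e
      rw [smul_smul, ← sub_smul, ← sub_one_mul, mul_inv_cancel₀ (sub_ne_zero.2 hz1), one_smul]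
    · intro x _
      obtain ⟨c, rfl⟩ := (finrank_eq_one_iff_of_nonzero' e he).1 hdim x
      exact Submodule.smul_mem _ c (Submodule.subset_span ⟨0, rfl⟩)

private theorem doa_wall (B : SkewH E V) (e : V) (z : E1 E) (d : E)
    (hd : (((z.1 : Eˣ) : E) - 1) * d = B.ip e e) (hz1 : ((z.1 : Eˣ) : E) ≠ 1) :
    wall B (scU B z).1 e e = d := by
  have h0 : (((z.1 : Eˣ) : E) - 1) ≠ 0 := sub_ne_zero.2 hz1
  have h1 : (scU B z).1.1 ((((z.1 : Eˣ) : E) - 1)⁻¹ • e) - (((z.1 : Eˣ) : E) - 1)⁻¹ • e = e := by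
    rw [scU_apply, smul_smul, ← sub_smul, ← sub_one_mul, mul_inv_cancel₀ h0, one_smul]
  rw [wall_eq (scU B z) h1 ⟨(((z.1 : Eˣ) : E) - 1)⁻¹ • e, h1⟩, B.smul_left, ← hd,
    inv_mul_cancel_left₀ h0]

private theorem doa_phase (B : SkewH E V) (e : V) (β : F) (x : E) :
    2⁻¹ * Algebra.trace F E (x * star x * (algebraMap F E β - 2⁻¹ * B.ip e e)) =
      β * nmF F x := by
  have h1 : Algebra.trace F E (2⁻¹ * B.ip e e) = 0 := by
    have h2 : star (2⁻¹ * B.ip e e) = -(2⁻¹ * B.ip e e) := by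
      have h3 : (2⁻¹ : E) = algebraMap F E 2⁻¹ := by rw [map_inv₀, map_ofNat]
      rw [star_mul', doa_star, h3, QExt.star_alg]
      ring
    have h4 := doa_trace_star (F := F) (2⁻¹ * B.ip e e)
    rw [h2, map_neg, neg_eq_iff_add_eq_zero, ← two_mul] at h4
    exact (mul_eq_zero.1 h4).resolve_left two_ne_zero
  have h5 : x * star x * (algebraMap F E β - 2⁻¹ * B.ip e e) =
      nmF F x • (algebraMap F E β - 2⁻¹ * B.ip e e) := by
    rw [Algebra.smul_def, nmF_spec]
  rw [h5, map_smul, map_sub, h1, sub_zero, doa_trace_alg, smul_eq_mul]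
  have h6 : (2 : F) ≠ 0 := two_ne_zero
  field_simp

private theorem doa_int (G : E → ℂ) :
    ∫ x : Fin 1 → E, G (x 0) ∂(MeasureTheory.Measure.pi fun _ =>
      (MeasureTheory.Measure.addHaar : MeasureTheory.Measure E)) =
    ∫ x : E, G x ∂(MeasureTheory.Measure.addHaar : MeasureTheory.Measure E) :=
  (MeasureTheory.measurePreserving_funUnique
    (MeasureTheory.Measure.addHaar : MeasureTheory.Measure E) (Fin 1)).integral_comp' G

theorem oneL {B : SkewH E V} {p : PChar F} (W : WeilRep B p) (e : V) (he : e ≠ 0)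
    (hdim : Module.finrank E V = 1) (β : F) (z : E1 E) (d : Eˣ)
    (hd : (d : E) = algebraMap F E β - 2⁻¹ * B.ip e e)
    (hz : ((z.1 : Eˣ) : E) * (algebraMap F E β - 2⁻¹ * B.ip e e) =
      algebraMap F E β + 2⁻¹ * B.ip e e) (f : SF V ℂ) (v : V) :
    W.l (scU B z) f v = W.A * ((W.μ d : ℂˣ) : ℂ) *
      ∫ x : E, p.ψ (β * nmF F x) * Lop B p (x • e) f v
        ∂(MeasureTheory.Measure.addHaar : MeasureTheory.Measure E) := by
  have hs := doa_sub F B e _ z hz
  have hz1 : ((z.1 : Eˣ) : E) ≠ 1 := by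
    intro h1
    rw [h1, sub_self, zero_mul] at hs
    exact doa_ip_ne B e he hdim hs.symm
  have hw := doa_wall B e z _ hs hz1
  obtain ⟨d', hd', hf⟩ := W.formula (scU B z) 1 (fun _ => e) (doa_basis B e he hdim z hz1)
  have hdd : d' = d := by
    apply Units.ext
    rw [hd', hd, Matrix.det_unique]
    exact hw
  rw [hf f v, hdd, pow_one, ← doa_int]
  congr 1
  refine MeasureTheory.integral_congr_ae (Filter.Eventually.of_forall fun x => ?_)
  show p.ψ (2⁻¹ * Algebra.trace F E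
      (∑ i : Fin 1, ∑ j : Fin 1, x i * star (x j) * wall B (scU B z).1 e e)) *
    Lop B p (∑ i : Fin 1, x i • e) f v = p.ψ (β * nmF F (x 0)) * Lop B p (x 0 • e) f v
  rw [Fin.sum_univ_one, Fin.sum_univ_one, Fin.sum_univ_one, hw, doa_phase]

theorem oneR {B : SkewH E V} {p : PChar F} (W : WeilRep B p) (e : V) (he : e ≠ 0)
    (hdim : Module.finrank E V = 1) (β : F) (z : E1 E) (d : Eˣ)
    (hd : (d : E) = algebraMap F E β - 2⁻¹ * B.ip e e)
    (hz : ((z.1 : Eˣ) : E) * (algebraMap F E β - 2⁻¹ * B.ip e e) =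
      algebraMap F E β + 2⁻¹ * B.ip e e) (f : SF V ℂ) (v : V) :
    W.r (scU B z⁻¹) f v = W.A * ((W.μ d : ℂˣ) : ℂ) *
      ∫ x : E, p.ψ (β * nmF F x) * Rop B p (x • e) f v
        ∂(MeasureTheory.Measure.addHaar : MeasureTheory.Measure E) := by
  have hs := doa_sub F B e _ z hz
  have hz1 : ((z.1 : Eˣ) : E) ≠ 1 := by
    intro h1
    rw [h1, sub_self, zero_mul] at hs
    exact doa_ip_ne B e he hdim hs.symm
  have hz1' : (((z⁻¹ : E1 E).1 : Eˣ) : E) ≠ 1 := by
    intro h1
    apply hz1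
    have h2 : ((z⁻¹ : E1 E).1 : Eˣ) = 1 := Units.ext h1
    have h3 : (z.1 : Eˣ) = 1 := by
      have h4 : (z.1 : Eˣ)⁻¹ = 1 := h2
      exact inv_eq_one.1 h4
    rw [h3, Units.val_one]
  have hw := doa_wall B e z _ hs hz1
  have hinv : (scU B z⁻¹)⁻¹ = scU B z := by rw [map_inv, inv_inv]
  obtain ⟨d', hd', hf⟩ := r_formula W (scU B z⁻¹) 1 (fun _ => e)
    (doa_basis B e he hdim z⁻¹ hz1')
  rw [hinv] at hd'
  have hdd : d' = d := by
    apply Units.ext
    rw [hd', hd, Matrix.det_unique]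
    exact hw
  rw [hf f v, hdd, pow_one, ← doa_int, hinv]
  congr 1
  refine MeasureTheory.integral_congr_ae (Filter.Eventually.of_forall fun x => ?_)
  show p.ψ (2⁻¹ * Algebra.trace F E
      (∑ i : Fin 1, ∑ j : Fin 1, x i * star (x j) * wall B (scU B z).1 e e)) *
    Rop B p (∑ i : Fin 1, x i • e) f v = p.ψ (β * nmF F (x 0)) * Rop B p (x 0 • e) f v
  rw [Fin.sum_univ_one, Fin.sum_univ_one, Fin.sum_univ_one, hw, doa_phase]

end

end Pool.Agent.Work.MP_dd0ddf_al.OC
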