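import Pool.Agent.Work.MP_dd0ddf_al.OC.HaarDefs
import Pool.Agent.Work.MP_dd0ddf_al.OC.FdBasis

/-!
# MP_dd0ddf_al, module HaarApi: properties of the Haar functional

`hI_map`: by `eq_of_functionals` and `SF.vint_spec`.  `hI_trans`: reduce to ℂ-valued functions by functionals, then
translation invariance of the integral (`integral_add_right_eq_self`).  `hI_single`: integral of an indicator function.
`hvol_pos`: a nonempty open set has positive, a compact set finite Haar measure.
`hI_unique`: let `U` be a small compact open subgroup; every `f` is a finite sum of translates of `single U b` with `U` small depending on `f`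
(f is invariant under a compact open subgroup `U`, and its support is a finite union of cosets).  For `U' ⊆ U` of index `N`:
`single U b = ∑ translates of single U' b`, so `T (single U b) = N T (single U' b)` and `hvol U = N hvol U'`.
So `φ b := T (single U b)/hvol U` does not depend on `U`; it is linear in `b`.
(compact open subgroups: Mathlib / `NonarchimedeanAddGroup`; a locally compact totally disconnected T2 group has a basis of
compact open subgroups at 0, theorem of van Dantzig.)
`exists_hmod`: `f ↦ hI (comp α f)` on `SF G ℂ` is translation invariant, use `hI_unique` for B = ℂ and positivity on `single K 1`.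
`hI_comp_aut`: general `B` by functionals or by `sf_induction`.
`hvol_prod`: `(K, K')`-boxes: the functional `f ↦ hI (x ↦ hI (slice x f))` on `SF (G × G') ℂ` is translation invariant (first show that
`x ↦ hI (slice x f)` is in `SF G`: `hI_slice`, by induction on boxes); compare with `hI_unique` for `G × G'`.
-/

set_option linter.unusedSectionVars false
set_option linter.style.haveILetI false

namespace Pool.Agent.Work.MP_dd0ddf_al.OC

noncomputable section

variable {G G' : Type*} [AddCommGroup G] [TopologicalSpace G] [IsTopologicalAddGroup G]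
  [LocallyCompactSpace G] [T2Space G] [TotallyDisconnectedSpace G]
  [AddCommGroup G'] [TopologicalSpace G'] [IsTopologicalAddGroup G']
  [LocallyCompactSpace G'] [T2Space G'] [TotallyDisconnectedSpace G']
  {X : Type*} [TopologicalSpace X] [T2Space X] [LocallyCompactSpace X]
  [TotallyDisconnectedSpace X]
  {B B' : Type*} [AddCommGroup B] [Module ℂ B] [AddCommGroup B'] [Module ℂ B']

private theorem haarapi_spec (f : SF G B) (l : B →ₗ[ℂ] ℂ) :
    l (hI f) = @MeasureTheory.integral G ℂ _ _ (borel G) (hmu G) (fun x => l (f x)) := by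
  letI : MeasurableSpace G := borel G
  haveI : BorelSpace G := ⟨rfl⟩
  exact SF.vint_spec (MeasureTheory.Measure.addHaar : MeasureTheory.Measure G) f l

theorem hI_map (φ : B →ₗ[ℂ] B') (f : SF G B) : hI (SF.map φ f) = φ (hI f) := by
  apply eq_of_functionals
  intro l
  rw [haarapi_spec]
  exact (haarapi_spec f (l ∘ₗ φ)).symm

theorem hI_trans (a : G) (f : SF G B) : hI (SF.comp (Homeomorph.addRight a) f) = hI f := by
  apply eq_of_functionals
  intro l
  rw [haarapi_spec, haarapi_spec]
  letI : MeasurableSpace G := borel G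
  haveI : BorelSpace G := ⟨rfl⟩
  have h := MeasureTheory.integral_add_left_eq_self
    (μ := (MeasureTheory.Measure.addHaar : MeasureTheory.Measure G)) (fun x => l (f x)) a
  refine Eq.trans ?_ h
  refine MeasureTheory.integral_congr_ae (Filter.Eventually.of_forall fun x => ?_)
  show l (f (x + a)) = l (f (a + x))
  rw [add_comm]

theorem hI_single (K : Set G) (hK : IsCompact K) (hK' : IsOpen K) (b : B) :
    hI (SF.single K hK hK' b) = (hvol K : ℂ) • b := by
  classical
  apply eq_of_functionals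
  intro l
  rw [haarapi_spec]
  letI : MeasurableSpace G := borel G
  haveI : BorelSpace G := ⟨rfl⟩
  have h : (fun x => l (SF.single K hK hK' b x)) = K.indicator (fun _ => l b) := by
    funext x
    by_cases hx : x ∈ K
    · rw [SF.single_apply_mem _ _ _ _ _ hx, Set.indicator_of_mem hx]
    · rw [SF.single_apply_not_mem _ _ _ _ _ hx, map_zero, Set.indicator_of_notMem hx]
  rw [h, MeasureTheory.integral_indicator hK'.measurableSet, MeasureTheory.setIntegral_const,
    map_smul]
  rfl

theorem hvol_pos (K : Set G) (hK : IsCompact K) (hK' : IsOpen K) (h : K.Nonempty) :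
    0 < hvol K := by
  letI : MeasurableSpace G := borel G
  haveI : BorelSpace G := ⟨rfl⟩
  exact ENNReal.toReal_pos
    (hK'.measure_pos (MeasureTheory.Measure.addHaar : MeasureTheory.Measure G) h).ne'
    hK.measure_lt_top.ne

theorem hvol_union (K K' : Set G) (hK : IsCompact K) (hK' : IsCompact K') (ho : IsOpen K)
    (ho' : IsOpen K') (h : Disjoint K K') : hvol (K ∪ K') = hvol K + hvol K' := by
  letI : MeasurableSpace G := borel G
  haveI : BorelSpace G := ⟨rfl⟩
  exact MeasureTheory.measureReal_union h ho'.measurableSet hK.measure_lt_top.ne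
    hK'.measure_lt_top.ne

theorem exists_co_addSubgroup (W : Set G) (hW : IsOpen W) (h0 : (0 : G) ∈ W) :
    ∃ U : AddSubgroup G, IsOpen (U : Set G) ∧ IsCompact (U : Set G) ∧ (U : Set G) ⊆ W := by
  obtain ⟨K, hK, hKo, h1K, hKW⟩ := exists_compact_open (0 : G) W hW h0
  let S : AddSubgroup G :=
    { carrier := {g | ∀ k ∈ K, k + g ∈ K ∧ k + -g ∈ K}
      add_mem' := by
        intro a b ha hb k hk
        refine ⟨?_, ?_⟩
        · rw [← add_assoc]
          exact (hb _ (ha k hk).1).1
        · rw [neg_add_rev, ← add_assoc]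
          exact (ha _ (hb k hk).2).2
      zero_mem' := by
        intro k hk
        simpa using hk
      neg_mem' := by
        intro a ha k hk
        rw [neg_neg]
        exact (ha k hk).symm }
  have hsub : (S : Set G) ⊆ K := by
    intro g hg
    have := (hg 0 h1K).1
    rwa [zero_add] at this
  have hev : ∀ᶠ g in nhds (0 : G), ∀ k ∈ K, k + g ∈ K ∧ k + -g ∈ K := by
    refine hK.eventually_forall_of_forall_eventually ?_
    intro y hy
    have c1 : Continuous fun z : G × G => z.2 + z.1 := continuous_snd.add continuous_fst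
    have c2 : Continuous fun z : G × G => z.2 + -z.1 := continuous_snd.add continuous_fst.neg
    have e1 : ∀ᶠ z : G × G in nhds (0, y), z.2 + z.1 ∈ K := by
      refine c1.continuousAt.eventually (hKo.mem_nhds ?_)
      simpa using hy
    have e2 : ∀ᶠ z : G × G in nhds (0, y), z.2 + -z.1 ∈ K := by
      refine c2.continuousAt.eventually (hKo.mem_nhds ?_)
      simpa using hy
    exact e1.and e2
  have hopen : IsOpen (S : Set G) := AddSubgroup.isOpen_of_mem_nhds _ (g := 0) hev
  have hclosed : IsClosed (S : Set G) := AddSubgroup.isClosed_of_isOpen _ hopen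
  exact ⟨S, hopen, hK.of_isClosed_subset hclosed hsub, hsub.trans hKW⟩

private theorem haarapi_small (K : Set G) (hK : IsCompact K) (hK' : IsOpen K) (W : Set G)
    (hW : IsOpen W) (h0 : (0 : G) ∈ W) :
    ∃ V : AddSubgroup G, IsOpen (V : Set G) ∧ IsCompact (V : Set G) ∧ (V : Set G) ⊆ W ∧
      ∀ x ∈ K, ∀ v ∈ V, x + v ∈ K := by
  have hev : ∀ᶠ g in nhds (0 : G), ∀ k ∈ K, k + g ∈ K := by
    refine hK.eventually_forall_of_forall_eventually ?_
    intro y hy
    have c1 : Continuous fun z : G × G => z.2 + z.1 := continuous_snd.add continuous_fst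
    refine c1.continuousAt.eventually (hK'.mem_nhds ?_)
    simpa using hy
  obtain ⟨N, hN, hNo, hN0⟩ := eventually_nhds_iff.1 hev
  obtain ⟨V, h1, h2, h3⟩ := exists_co_addSubgroup (N ∩ W) (hNo.inter hW) ⟨hN0, h0⟩
  exact ⟨V, h1, h2, fun x hx => (h3 hx).2, fun x hx v hv => hN v (h3 hv).1 x hx⟩

/-- the set of cosets in `K` is finite -/
private theorem haarapi_cosets (K : Set G) (hK : IsCompact K) (V : AddSubgroup G)
    (hV : IsOpen (V : Set G)) (h : ∀ x ∈ K, ∀ v ∈ V, x + v ∈ K) :
    ∃ s : Finset (G ⧸ V), ∀ x : G, x ∈ K ↔ (x : G ⧸ V) ∈ s := by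
  haveI : DiscreteTopology (G ⧸ V) := QuotientAddGroup.discreteTopology hV
  have hf : ((fun x : G => (x : G ⧸ V)) '' K).Finite :=
    (hK.image continuous_quotient_mk').finite_of_discrete
  refine ⟨hf.toFinset, fun x => ?_⟩
  rw [Set.Finite.mem_toFinset]
  constructor
  · intro hx
    exact ⟨x, hx, rfl⟩
  · rintro ⟨y, hy, hxy⟩
    have h1 : -y + x ∈ V := QuotientAddGroup.eq.1 hxy
    have h2 := h y hy _ h1
    rwa [add_neg_cancel_left] at h2

private theorem haarapi_decomp (K : Set G) (hK : IsCompact K) (hK' : IsOpen K)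
    (V : AddSubgroup G) (hV : IsOpen (V : Set G)) (hVc : IsCompact (V : Set G))
    (s : Finset (G ⧸ V)) (hs : ∀ x : G, x ∈ K ↔ (x : G ⧸ V) ∈ s) (b : B) :
    SF.single K hK hK' b = ∑ q ∈ s, SF.comp (Homeomorph.addRight (-(q.out : G)))
      (SF.single (V : Set G) hVc hV b) := by
  classical
  apply SF.ext
  intro x
  have hev : (∑ q ∈ s, SF.comp (Homeomorph.addRight (-(q.out : G)))
      (SF.single (V : Set G) hVc hV b)).1 x =
      ∑ q ∈ s, (if q = (x : G ⧸ V) then b else 0) := by
    rw [Submodule.coe_sum, Finset.sum_apply]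
    refine Finset.sum_congr rfl fun q _ => ?_
    show SF.single (V : Set G) hVc hV b (x + -(q.out : G)) = _
    have hiff : x + -(q.out : G) ∈ (V : Set G) ↔ q = (x : G ⧸ V) := by
      rw [add_comm, SetLike.mem_coe, ← QuotientAddGroup.eq, QuotientAddGroup.out_eq']
    by_cases hq : q = (x : G ⧸ V)
    · rw [if_pos hq]
      exact SF.single_apply_mem _ _ _ _ _ (hiff.2 hq)
    · rw [if_neg hq]
      exact SF.single_apply_not_mem _ _ _ _ _ (fun h => hq (hiff.1 h))
  rw [hev]
  by_cases hx : x ∈ K
  · rw [Finset.sum_ite_eq' s (x : G ⧸ V), if_pos ((hs x).1 hx)]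
    exact SF.single_apply_mem _ _ _ _ _ hx
  · rw [Finset.sum_ite_eq' s (x : G ⧸ V), if_neg (fun h => hx ((hs x).2 h))]
    exact SF.single_apply_not_mem _ _ _ _ _ hx

private theorem haarapi_T (K : Set G) (hK : IsCompact K) (hK' : IsOpen K)
    (V : AddSubgroup G) (hV : IsOpen (V : Set G)) (hVc : IsCompact (V : Set G))
    (s : Finset (G ⧸ V)) (hs : ∀ x : G, x ∈ K ↔ (x : G ⧸ V) ∈ s) (b : B)
    (T : SF G B →ₗ[ℂ] B')
    (hT : ∀ (a : G) (f : SF G B), T (SF.comp (Homeomorph.addRight a) f) = T f) :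
    T (SF.single K hK hK' b) = (s.card : ℂ) • T (SF.single (V : Set G) hVc hV b) := by
  rw [haarapi_decomp K hK hK' V hV hVc s hs b, map_sum]
  simp only [hT]
  rw [Finset.sum_const]
  norm_cast

private theorem haarapi_vol (K : Set G) (hK : IsCompact K) (hK' : IsOpen K)
    (V : AddSubgroup G) (hV : IsOpen (V : Set G)) (hVc : IsCompact (V : Set G))
    (s : Finset (G ⧸ V)) (hs : ∀ x : G, x ∈ K ↔ (x : G ⧸ V) ∈ s) :
    hvol K = s.card * hvol (V : Set G) := by
  have h := haarapi_T K hK hK' V hV hVc s hs (1 : ℂ) hI hI_trans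
  rw [hI_single, hI_single, smul_eq_mul, smul_eq_mul, smul_eq_mul, mul_one, mul_one] at h
  exact_mod_cast h

private theorem haarapi_single_add (K : Set G) (hK : IsCompact K) (hK' : IsOpen K) (b b' : B) :
    SF.single K hK hK' (b + b') = SF.single K hK hK' b + SF.single K hK hK' b' := by
  apply SF.ext
  intro x
  show SF.single K hK hK' (b + b') x = SF.single K hK hK' b x + SF.single K hK hK' b' x
  by_cases hx : x ∈ K
  · rw [SF.single_apply_mem _ _ _ _ _ hx, SF.single_apply_mem _ _ _ _ _ hx,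
      SF.single_apply_mem _ _ _ _ _ hx]
  · rw [SF.single_apply_not_mem _ _ _ _ _ hx, SF.single_apply_not_mem _ _ _ _ _ hx,
      SF.single_apply_not_mem _ _ _ _ _ hx, add_zero]

private theorem haarapi_single_smul (K : Set G) (hK : IsCompact K) (hK' : IsOpen K) (c : ℂ)
    (b : B) : SF.single K hK hK' (c • b) = c • SF.single K hK hK' b := by
  apply SF.ext
  intro x
  show SF.single K hK hK' (c • b) x = c • SF.single K hK hK' b x
  by_cases hx : x ∈ K
  · rw [SF.single_apply_mem _ _ _ _ _ hx, SF.single_apply_mem _ _ _ _ _ hx]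
  · rw [SF.single_apply_not_mem _ _ _ _ _ hx, SF.single_apply_not_mem _ _ _ _ _ hx, smul_zero]

/-- uniqueness of the Haar functional -/
theorem hI_unique (T : SF G B →ₗ[ℂ] B')
    (hT : ∀ (a : G) (f : SF G B), T (SF.comp (Homeomorph.addRight a) f) = T f) :
    ∃ φ : B →ₗ[ℂ] B', ∀ f, T f = φ (hI f) := by
  obtain ⟨U0, hU, hUc, -⟩ := exists_co_addSubgroup (Set.univ : Set G) isOpen_univ (Set.mem_univ _)
  have hpos : 0 < hvol (U0 : Set G) := hvol_pos _ hUc hU ⟨0, U0.zero_mem⟩
  have hne : (hvol (U0 : Set G) : ℂ) ≠ 0 := by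
    rw [Ne, Complex.ofReal_eq_zero]
    exact hpos.ne'
  let φ : B →ₗ[ℂ] B' :=
    { toFun := fun b => (hvol (U0 : Set G) : ℂ)⁻¹ • T (SF.single (U0 : Set G) hUc hU b)
      map_add' := fun b b' => by rw [haarapi_single_add, map_add, smul_add]
      map_smul' := fun c b => by
        rw [haarapi_single_smul, map_smul, RingHom.id_apply, smul_comm] }
  have key : ∀ (K : Set G) (hK : IsCompact K) (hK' : IsOpen K) (b : B),
      T (SF.single K hK hK' b) = (hvol K : ℂ) • φ b := by
    intro K hK hK' b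
    obtain ⟨V, hV, hVc, hVU, hVK⟩ := haarapi_small K hK hK' (U0 : Set G) hU U0.zero_mem
    obtain ⟨s, hs⟩ := haarapi_cosets K hK V hV hVK
    obtain ⟨s0, hs0⟩ := haarapi_cosets (U0 : Set G) hUc V hV
      (fun x hx v hv => U0.add_mem hx (hVU hv))
    have e1 := haarapi_T K hK hK' V hV hVc s hs b T hT
    have e2 := haarapi_T (U0 : Set G) hUc hU V hV hVc s0 hs0 b T hT
    have v1 := haarapi_vol K hK hK' V hV hVc s hs
    have v2 := haarapi_vol (U0 : Set G) hUc hU V hV hVc s0 hs0
    have hVpos : 0 < hvol (V : Set G) := hvol_pos _ hVc hV ⟨0, V.zero_mem⟩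
    have hVne : (hvol (V : Set G) : ℂ) ≠ 0 := by
      rw [Ne, Complex.ofReal_eq_zero]
      exact hVpos.ne'
    show T (SF.single K hK hK' b) = (hvol K : ℂ) • ((hvol (U0 : Set G) : ℂ)⁻¹ •
      T (SF.single (U0 : Set G) hUc hU b))
    have hs0ne : (s0.card : ℂ) ≠ 0 := by
      intro h0
      apply hne
      rw [v2]
      push_cast
      rw [h0, zero_mul]
    rw [e1, e2, smul_smul, smul_smul, v1, v2]
    congr 1
    push_cast
    field_simp
  refine ⟨φ, fun f => ?_⟩
  refine sf_induction (fun f => T f = φ (hI f)) ?_ ?_ ?_ f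
  · simp only [map_zero]
  · intro f g hf hg
    simp only [map_add]
    rw [hf, hg]
  · intro x
    refine ⟨Set.univ, isOpen_univ, Set.mem_univ _, fun K hK hK' b _ => ?_⟩
    show T (SF.single K hK hK' b) = φ (hI (SF.single K hK hK' b))
    rw [key, hI_single, map_smul]

private theorem haarapi_comp_single (α : TAut G) (K : Set G) (hK : IsCompact K) (hK' : IsOpen K)
    (b : B) : SF.comp α.h (SF.single K hK hK' b) =
      SF.single (α.h ⁻¹' K) (α.h.isCompact_preimage.2 hK) (hK'.preimage α.h.continuous) b := by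
  apply SF.ext
  intro x
  show SF.single K hK hK' b (α.h x) = _
  by_cases hx : α.h x ∈ K
  · rw [SF.single_apply_mem _ _ _ _ _ hx]
    exact (SF.single_apply_mem (α.h ⁻¹' K) _ _ _ _ hx).symm
  · rw [SF.single_apply_not_mem _ _ _ _ _ hx]
    exact (SF.single_apply_not_mem (α.h ⁻¹' K) _ _ _ _ hx).symm

theorem exists_hmod (α : TAut G) : ∃ c : ℝ, 0 < c ∧
    ∀ K : Set G, IsCompact K → IsOpen K → hvol (α.h ⁻¹' K) = c * hvol K := by
  have hT : ∀ (a : G) (f : SF G ℂ), (hI ∘ₗ SF.comp α.h) (SF.comp (Homeomorph.addRight a) f) =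
      (hI ∘ₗ SF.comp α.h) f := by
    intro a f
    have e : SF.comp α.h (SF.comp (Homeomorph.addRight a) f) =
        SF.comp (Homeomorph.addRight (α.h.symm a)) (SF.comp α.h f) := by
      apply SF.ext
      intro x
      show f (α.h x + a) = f (α.h (x + α.h.symm a))
      rw [α.add, α.h.apply_symm_apply]
    rw [LinearMap.comp_apply, e, hI_trans]
    rfl
  obtain ⟨φ, hφ⟩ := hI_unique (hI ∘ₗ SF.comp α.h) hT
  have key : ∀ K : Set G, IsCompact K → IsOpen K →
      ((hvol (α.h ⁻¹' K) : ℝ) : ℂ) = (hvol K : ℂ) * φ 1 := by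
    intro K hK hK'
    have h := hφ (SF.single K hK hK' 1)
    rw [LinearMap.comp_apply, haarapi_comp_single, hI_single, hI_single, map_smul, smul_eq_mul,
      smul_eq_mul, mul_one] at h
    exact h
  obtain ⟨U0, hU, hUc, -⟩ := exists_co_addSubgroup (Set.univ : Set G) isOpen_univ (Set.mem_univ _)
  have hpos : 0 < hvol (U0 : Set G) := hvol_pos _ hUc hU ⟨0, U0.zero_mem⟩
  have hpos2 : 0 < hvol (α.h ⁻¹' (U0 : Set G)) :=
    hvol_pos _ (α.h.isCompact_preimage.2 hUc) (hU.preimage α.h.continuous)
      ⟨α.h.symm 0, by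
        show α.h (α.h.symm 0) ∈ (U0 : Set G)
        rw [α.h.apply_symm_apply]
        exact U0.zero_mem⟩
  have hne : (hvol (U0 : Set G) : ℂ) ≠ 0 := by
    rw [Ne, Complex.ofReal_eq_zero]
    exact hpos.ne'
  refine ⟨hvol (α.h ⁻¹' (U0 : Set G)) / hvol (U0 : Set G), div_pos hpos2 hpos, fun K hK hK' => ?_⟩
  have h1 := key (U0 : Set G) hUc hU
  have h2 := key K hK hK'
  have h3 : φ 1 = ((hvol (α.h ⁻¹' (U0 : Set G)) / hvol (U0 : Set G) : ℝ) : ℂ) := by
    rw [Complex.ofReal_div, h1]
    field_simp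
  rw [h3, ← Complex.ofReal_mul] at h2
  rw [mul_comm]
  exact_mod_cast h2

/-- the modulus of an automorphism: `∫ f(α x) dx = hmod α ∫ f(x) dx` -/
def hmod (α : TAut G) : ℝ := (exists_hmod α).choose

theorem hmod_pos (α : TAut G) : 0 < hmod α := (exists_hmod α).choose_spec.1

theorem hI_comp_aut (α : TAut G) (f : SF G B) :
    hI (SF.comp α.h f) = (hmod α : ℂ) • hI f := by
  refine sf_induction (fun f => hI (SF.comp α.h f) = (hmod α : ℂ) • hI f) ?_ ?_ ?_ f
  · simp only [map_zero, smul_zero]
  · intro f g hf hg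
    simp only [map_add, smul_add]
    rw [hf, hg]
  · intro x
    refine ⟨Set.univ, isOpen_univ, Set.mem_univ _, fun K hK hK' b _ => ?_⟩
    show hI (SF.comp α.h (SF.single K hK hK' b)) = (hmod α : ℂ) • hI (SF.single K hK hK' b)
    rw [haarapi_comp_single, hI_single, hI_single, smul_smul, ← Complex.ofReal_mul]
    congr 2
    exact (exists_hmod α).choose_spec.2 K hK hK'

theorem hmod_mul (α β γ : TAut G) (h : ∀ x, γ.h x = α.h (β.h x)) :
    hmod γ = hmod α * hmod β := by
  obtain ⟨U0, hU, hUc, -⟩ := exists_co_addSubgroup (Set.univ : Set G) isOpen_univ (Set.mem_univ _)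
  have hpos : 0 < hvol (U0 : Set G) := hvol_pos _ hUc hU ⟨0, U0.zero_mem⟩
  have e1 : hvol (γ.h ⁻¹' (U0 : Set G)) = hmod γ * hvol (U0 : Set G) :=
    (exists_hmod γ).choose_spec.2 _ hUc hU
  have e2 : hvol (α.h ⁻¹' (U0 : Set G)) = hmod α * hvol (U0 : Set G) :=
    (exists_hmod α).choose_spec.2 _ hUc hU
  have e3 : hvol (β.h ⁻¹' (α.h ⁻¹' (U0 : Set G))) = hmod β * hvol (α.h ⁻¹' (U0 : Set G)) :=
    (exists_hmod β).choose_spec.2 _ (α.h.isCompact_preimage.2 hUc) (hU.preimage α.h.continuous)
  have e4 : γ.h ⁻¹' (U0 : Set G) = β.h ⁻¹' (α.h ⁻¹' (U0 : Set G)) := by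
    ext x
    show γ.h x ∈ (U0 : Set G) ↔ α.h (β.h x) ∈ (U0 : Set G)
    rw [h]
  rw [e4, e3, e2] at e1
  have e5 : hmod γ * hvol (U0 : Set G) = hmod α * hmod β * hvol (U0 : Set G) := by
    rw [← e1]
    ring
  exact mul_right_cancel₀ hpos.ne' e5

private theorem haarapi_slice_ev (f : SF (X × G) B) (x : X) :
    ∀ᶠ x' in nhds x, SF.slice x' f = SF.slice x f := by
  have hK : IsCompact (Prod.snd '' tsupport f.1) := f.2.2.image continuous_snd
  have hev : ∀ᶠ x' in nhds x, ∀ y ∈ Prod.snd '' tsupport f.1, f.1 (x', y) = f.1 (x, y) := by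
    refine hK.eventually_forall_of_forall_eventually ?_
    intro y _
    have h1 := (IsLocallyConstant.iff_eventually_eq _).mp f.2.1 (x, y)
    have c2 : Continuous fun z : X × G => ((x, z.2) : X × G) :=
      continuous_const.prodMk continuous_snd
    have h2 : ∀ᶠ z : X × G in nhds (x, y), f.1 (x, z.2) = f.1 (x, y) := by
      have : Filter.Tendsto (fun z : X × G => ((x, z.2) : X × G)) (nhds (x, y)) (nhds (x, y)) :=
        c2.tendsto (x, y)
      exact this.eventually h1
    filter_upwards [h1, h2] with z e1 e2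
    show f.1 (z.1, z.2) = f.1 (x, z.2)
    rw [e2]
    exact e1
  filter_upwards [hev] with x' hx'
  apply SF.ext
  intro y
  show f.1 (x', y) = f.1 (x, y)
  by_cases hy : y ∈ Prod.snd '' tsupport f.1
  · exact hx' y hy
  · have h0 : ∀ x'' : X, f.1 (x'', y) = 0 := by
      intro x''
      apply image_eq_zero_of_notMem_tsupport
      intro h
      exact hy ⟨(x'', y), h, rfl⟩
    rw [h0, h0]

/-- integration over the second variable -/
theorem hI_slice (f : SF (X × G) B) : ∃ g : SF X B, ∀ x, g x = hI (SF.slice x f) := by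
  refine ⟨⟨fun x => hI (SF.slice x f), ?_, ?_⟩, fun x => rfl⟩
  · rw [IsLocallyConstant.iff_eventually_eq]
    intro x
    filter_upwards [haarapi_slice_ev f x] with x' hx'
    rw [hx']
  · have hK : IsCompact (Prod.fst '' tsupport f.1) := f.2.2.image continuous_fst
    refine HasCompactSupport.of_support_subset_isCompact hK ?_
    intro x hx
    by_contra hn
    apply hx
    have h0 : SF.slice x f = 0 := by
      apply SF.ext
      intro y
      show f.1 (x, y) = 0
      apply image_eq_zero_of_notMem_tsupport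
      intro h
      exact hn ⟨(x, y), h, rfl⟩
    show hI (SF.slice x f) = 0
    rw [h0, map_zero]

theorem exists_fubini : ∃ c : ℝ, 0 < c ∧
    (∀ (K : Set G) (K' : Set G'), IsCompact K → IsCompact K' → IsOpen K → IsOpen K' →
      hvol (K ×ˢ K') = c * (hvol K * hvol K')) ∧
    ∀ (f : SF (G × G') ℂ) (g : SF G ℂ), (∀ x, g x = hI (SF.slice x f)) →
      hI f = (c : ℂ) * hI g := by
  classical
  choose g hg using fun f : SF (G × G') ℂ => hI_slice (X := G) (G := G') f
  have hT : ∀ f f' : SF (G × G') ℂ, g (f + f') = g f + g f' := by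
    intro f f'
    apply SF.ext
    intro x
    show g (f + f') x = g f x + g f' x
    rw [hg, hg, hg, map_add, map_add]
  have hT' : ∀ (c : ℂ) (f : SF (G × G') ℂ), g (c • f) = c • g f := by
    intro c f
    apply SF.ext
    intro x
    show g (c • f) x = c • g f x
    rw [hg, hg, map_smul, map_smul]
  let T : SF (G × G') ℂ →ₗ[ℂ] ℂ :=
    { toFun := fun f => hI (g f)
      map_add' := fun f f' => by rw [hT, map_add]
      map_smul' := fun c f => by rw [hT', map_smul, RingHom.id_apply] }
  have hinv : ∀ (a : G × G') (f : SF (G × G') ℂ),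
      T (SF.comp (Homeomorph.addRight a) f) = T f := by
    intro a f
    show hI (g (SF.comp (Homeomorph.addRight a) f)) = hI (g f)
    rw [← hI_trans a.1 (g f)]
    congr 1
    apply SF.ext
    intro x
    show g (SF.comp (Homeomorph.addRight a) f) x = g f (x + a.1)
    rw [hg, hg, ← hI_trans a.2 (SF.slice (x + a.1) f)]
    rfl
  obtain ⟨φ, hφ⟩ := hI_unique T hinv
  have key : ∀ (K : Set G) (K' : Set G'), IsCompact K → IsCompact K' → IsOpen K → IsOpen K' →
      (hvol K : ℂ) * (hvol K' : ℂ) = (hvol (K ×ˢ K') : ℂ) * φ 1 := by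
    intro K K' hK hK' ho ho'
    have h := hφ (SF.single (K ×ˢ K') (hK.prod hK') (ho.prod ho') 1)
    rw [hI_single, map_smul, smul_eq_mul] at h
    rw [← h]
    show (hvol K : ℂ) * (hvol K' : ℂ) =
      hI (g (SF.single (K ×ˢ K') (hK.prod hK') (ho.prod ho') 1))
    have e : g (SF.single (K ×ˢ K') (hK.prod hK') (ho.prod ho') 1) =
        SF.single K hK ho (hvol K' : ℂ) := by
      apply SF.ext
      intro x
      rw [hg]
      by_cases hx : x ∈ K
      · rw [SF.single_apply_mem _ _ _ _ _ hx]
        have e2 : SF.slice x (SF.single (K ×ˢ K') (hK.prod hK') (ho.prod ho') (1 : ℂ)) =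
            SF.single K' hK' ho' (1 : ℂ) := by
          apply SF.ext
          intro y
          rw [SF.slice_apply]
          by_cases hy : y ∈ K'
          · rw [SF.single_apply_mem _ _ _ _ _ hy,
              SF.single_apply_mem _ _ _ _ _ (show (x, y) ∈ K ×ˢ K' from ⟨hx, hy⟩)]
          · rw [SF.single_apply_not_mem _ _ _ _ _ hy,
              SF.single_apply_not_mem _ _ _ _ _ (fun h : (x, y) ∈ K ×ˢ K' => hy h.2)]
        rw [e2, hI_single, smul_eq_mul, mul_one]
      · rw [SF.single_apply_not_mem _ _ _ _ _ hx]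
        have e2 : SF.slice x (SF.single (K ×ˢ K') (hK.prod hK') (ho.prod ho') (1 : ℂ)) = 0 := by
          apply SF.ext
          intro y
          rw [SF.slice_apply, SF.single_apply_not_mem _ _ _ _ _
            (fun h : (x, y) ∈ K ×ˢ K' => hx h.1)]
          rfl
        rw [e2, map_zero]
    rw [e, hI_single, smul_eq_mul]
  obtain ⟨U0, hU, hUc, -⟩ := exists_co_addSubgroup (Set.univ : Set G) isOpen_univ (Set.mem_univ _)
  obtain ⟨U1, hU1, hUc1, -⟩ :=
    exists_co_addSubgroup (Set.univ : Set G') isOpen_univ (Set.mem_univ _)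
  have p0 : 0 < hvol (U0 : Set G) := hvol_pos _ hUc hU ⟨0, U0.zero_mem⟩
  have p1 : 0 < hvol (U1 : Set G') := hvol_pos _ hUc1 hU1 ⟨0, U1.zero_mem⟩
  have p2 : 0 < hvol ((U0 : Set G) ×ˢ (U1 : Set G')) :=
    hvol_pos _ (hUc.prod hUc1) (hU.prod hU1) ⟨(0, 0), U0.zero_mem, U1.zero_mem⟩
  have hφ1 : φ 1 = ((hvol (U0 : Set G) * hvol (U1 : Set G') /
      hvol ((U0 : Set G) ×ˢ (U1 : Set G')) : ℝ) : ℂ) := by
    have h := key _ _ hUc hUc1 hU hU1
    have hne : (hvol ((U0 : Set G) ×ˢ (U1 : Set G')) : ℂ) ≠ 0 := by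
      rw [Ne, Complex.ofReal_eq_zero]
      exact p2.ne'
    rw [Complex.ofReal_div, Complex.ofReal_mul, h]
    field_simp
  set d : ℝ := hvol (U0 : Set G) * hvol (U1 : Set G') /
      hvol ((U0 : Set G) ×ˢ (U1 : Set G')) with hd
  have hdpos : 0 < d := div_pos (mul_pos p0 p1) p2
  refine ⟨d⁻¹, inv_pos.2 hdpos, ?_, ?_⟩
  · intro K K' hK hK' ho ho'
    have h := key K K' hK hK' ho ho'
    rw [hφ1] at h
    have h2 : hvol K * hvol K' = hvol (K ×ˢ K') * d := by exact_mod_cast h
    rw [h2]
    field_simp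
  · intro f g' hg'
    have e : g' = g f := by
      apply SF.ext
      intro x
      rw [hg', hg]
    have h := hφ f
    have h1 : φ (hI f) = hI f * φ 1 := by
      have : hI f = hI f • (1 : ℂ) := by rw [smul_eq_mul, mul_one]
      conv_lhs => rw [this]
      rw [map_smul, smul_eq_mul]
    have h2 : T f = hI g' := by rw [e]; rfl
    rw [h2, h1, hφ1] at h
    have hne : (d : ℂ) ≠ 0 := by
      rw [Ne, Complex.ofReal_eq_zero]
      exact hdpos.ne'
    rw [h, Complex.ofReal_inv]
    field_simp

end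

end Pool.Agent.Work.MP_dd0ddf_al.OC
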