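import Pool.Agent.Work.MP_dd0ddf_al.OC.HaarApi

/-!
# MP_dd0ddf_al, module HmodAux: moduli of automorphisms, products and transfer

Auxiliary file for `HmodDil` and others.
-/

set_option linter.unusedSectionVars false
set_option linter.style.haveILetI false

namespace Pool.Agent.Work.MP_dd0ddf_al.OC

noncomputable section

variable {G G' : Type*} [AddCommGroup G] [TopologicalSpace G] [IsTopologicalAddGroup G]
  [LocallyCompactSpace G] [T2Space G] [TotallyDisconnectedSpace G]
  [AddCommGroup G'] [TopologicalSpace G'] [IsTopologicalAddGroup G']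
  [LocallyCompactSpace G'] [T2Space G'] [TotallyDisconnectedSpace G']

theorem hvol_preim (α : TAut G) (K : Set G) (hK : IsCompact K) (hK' : IsOpen K) :
    hvol (α.h ⁻¹' K) = hmod α * hvol K := (exists_hmod α).choose_spec.2 K hK hK'

theorem hmod_id (α : TAut G) (h : ∀ x, α.h x = x) : hmod α = 1 := by
  have h1 := hmod_mul α α α (fun x => by rw [h (α.h x)])
  have h2 := (hmod_pos α).ne'
  exact (mul_right_cancel₀ h2 (by rw [one_mul]; exact h1)).symm

/-- an additive homeomorphism `e : G ≃ G'` transports the Haar functional -/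
theorem hI_transfer (e : G ≃ₜ G') (he : ∀ x y, e (x + y) = e x + e y) :
    ∃ c : ℝ, 0 < c ∧ ∀ {B : Type*} [AddCommGroup B] [Module ℂ B] (f : SF G' B),
      hI (SF.comp e f) = (c : ℂ) • hI f := by
  have hT : ∀ (a : G') (f : SF G' ℂ), (hI ∘ₗ SF.comp e) (SF.comp (Homeomorph.addRight a) f) =
      (hI ∘ₗ SF.comp e) f := by
    intro a f
    have e1 : SF.comp e (SF.comp (Homeomorph.addRight a) f) =
        SF.comp (Homeomorph.addRight (e.symm a)) (SF.comp e f) := by
      apply SF.ext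
      intro x
      show f (e x + a) = f (e (x + e.symm a))
      rw [he, e.apply_symm_apply]
    rw [LinearMap.comp_apply, e1, hI_trans]
    rfl
  obtain ⟨φ, hφ⟩ := hI_unique (hI ∘ₗ SF.comp e) hT
  obtain ⟨U0, hU, hUc, -⟩ :=
    exists_co_addSubgroup (Set.univ : Set G') isOpen_univ (Set.mem_univ _)
  have p0 : 0 < hvol (U0 : Set G') := hvol_pos _ hUc hU ⟨0, U0.zero_mem⟩
  have hcs : ∀ {B : Type _} [AddCommGroup B] [Module ℂ B] (K : Set G') (hK : IsCompact K)
      (hK' : IsOpen K) (b : B), SF.comp e (SF.single K hK hK' b) =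
        SF.single (e ⁻¹' K) (e.isCompact_preimage.2 hK) (hK'.preimage e.continuous) b := by
    intro B _ _ K hK hK' b
    apply SF.ext
    intro x
    show SF.single K hK hK' b (e x) = _
    by_cases hx : e x ∈ K
    · rw [SF.single_apply_mem _ _ _ _ _ hx,
        SF.single_apply_mem _ _ _ _ _ (show x ∈ e ⁻¹' K from hx)]
    · rw [SF.single_apply_not_mem _ _ _ _ _ hx,
        SF.single_apply_not_mem _ _ _ _ _ (show x ∉ e ⁻¹' K from hx)]
  have hvol1 : ∀ K : Set G', IsCompact K → IsOpen K → (hvol (e ⁻¹' K) : ℂ) = φ 1 * hvol K := by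
    intro K hK hK'
    have h := hφ (SF.single K hK hK' 1)
    rw [LinearMap.comp_apply, hcs, hI_single, hI_single, map_smul, smul_eq_mul, smul_eq_mul,
      mul_one] at h
    rw [h, mul_comm]
  have p1 : 0 < hvol (e ⁻¹' (U0 : Set G')) :=
    hvol_pos _ (e.isCompact_preimage.2 hUc) (hU.preimage e.continuous)
      ⟨e.symm 0, by
        show e (e.symm 0) ∈ (U0 : Set G')
        rw [e.apply_symm_apply]
        exact U0.zero_mem⟩
  have hne : (hvol (U0 : Set G') : ℂ) ≠ 0 := by
    rw [Ne, Complex.ofReal_eq_zero]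
    exact p0.ne'
  have hφ1 : φ 1 = ((hvol (e ⁻¹' (U0 : Set G')) / hvol (U0 : Set G') : ℝ) : ℂ) := by
    rw [Complex.ofReal_div, hvol1 _ hUc hU, mul_div_cancel_right₀ _ hne]
  refine ⟨hvol (e ⁻¹' (U0 : Set G')) / hvol (U0 : Set G'), div_pos p1 p0, ?_⟩
  intro B _ _ f
  refine sf_induction (fun f => hI (SF.comp e f) =
    ((hvol (e ⁻¹' (U0 : Set G')) / hvol (U0 : Set G') : ℝ) : ℂ) • hI f) ?_ ?_ ?_ f
  · simp only [map_zero, smul_zero]
  · intro f g hf hg
    simp only [map_add, smul_add]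
    rw [hf, hg]
  · intro x
    refine ⟨Set.univ, isOpen_univ, Set.mem_univ _, fun K hK hK' b _ => ?_⟩
    have e2 : SF.comp e (SF.single K hK hK' b) =
        SF.single (e ⁻¹' K) (e.isCompact_preimage.2 hK) (hK'.preimage e.continuous) b := by
      apply SF.ext
      intro x
      show SF.single K hK hK' b (e x) = _
      by_cases hx : e x ∈ K
      · rw [SF.single_apply_mem _ _ _ _ _ hx,
          SF.single_apply_mem _ _ _ _ _ (show x ∈ e ⁻¹' K from hx)]
      · rw [SF.single_apply_not_mem _ _ _ _ _ hx,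
          SF.single_apply_not_mem _ _ _ _ _ (show x ∉ e ⁻¹' K from hx)]
    show hI (SF.comp e (SF.single K hK hK' b)) = _ • hI (SF.single K hK hK' b)
    rw [e2, hI_single, hI_single, smul_smul, hvol1 K hK hK', hφ1]

/-- transport of moduli -/
theorem hmod_transfer (e : G ≃ₜ G') (he : ∀ x y, e (x + y) = e x + e y) (α : TAut G)
    (α' : TAut G') (h : ∀ x, e (α.h x) = α'.h (e x)) : hmod α = hmod α' := by
  obtain ⟨c, hc, hc1⟩ := hI_transfer e he
  obtain ⟨U0, hU, hUc, -⟩ :=
    exists_co_addSubgroup (Set.univ : Set G') isOpen_univ (Set.mem_univ _)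
  have p0 : 0 < hvol (U0 : Set G') := hvol_pos _ hUc hU ⟨0, U0.zero_mem⟩
  have e1 : SF.comp e (SF.comp α'.h (SF.single (U0 : Set G') hUc hU (1 : ℂ))) =
      SF.comp α.h (SF.comp e (SF.single (U0 : Set G') hUc hU (1 : ℂ))) := by
    apply SF.ext
    intro x
    show SF.single (U0 : Set G') hUc hU (1 : ℂ) (α'.h (e x)) =
      SF.single (U0 : Set G') hUc hU (1 : ℂ) (e (α.h x))
    rw [h]
  have e2 := congrArg hI e1
  rw [hc1, hI_comp_aut, hI_comp_aut, hc1, hI_single, smul_smul, smul_smul, smul_smul, smul_smul,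
    smul_eq_mul, smul_eq_mul, mul_one, mul_one] at e2
  have e3 : c * hmod α' * hvol (U0 : Set G') = hmod α * c * hvol (U0 : Set G') := by
    exact_mod_cast e2
  have e4 := mul_right_cancel₀ p0.ne' e3
  rw [mul_comm] at e4
  exact (mul_right_cancel₀ hc.ne' e4).symm

/-- product automorphism -/
def TAut.prodAut (α : TAut G) (α' : TAut G') : TAut (G × G') where
  h := α.h.prodCongr α'.h
  add x y := Prod.ext (α.add _ _) (α'.add _ _)

theorem hmod_prod (α : TAut G) (α' : TAut G') :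
    hmod (α.prodAut α') = hmod α * hmod α' := by
  obtain ⟨c, hc, hc1, -⟩ := exists_fubini (G := G) (G' := G')
  obtain ⟨U0, hU, hUc, -⟩ :=
    exists_co_addSubgroup (Set.univ : Set G) isOpen_univ (Set.mem_univ _)
  obtain ⟨U1, hU1, hUc1, -⟩ :=
    exists_co_addSubgroup (Set.univ : Set G') isOpen_univ (Set.mem_univ _)
  have p0 : 0 < hvol (U0 : Set G) := hvol_pos _ hUc hU ⟨0, U0.zero_mem⟩
  have p1 : 0 < hvol (U1 : Set G') := hvol_pos _ hUc1 hU1 ⟨0, U1.zero_mem⟩
  have e1 := hvol_preim (α.prodAut α') _ (hUc.prod hUc1) (hU.prod hU1)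
  have e2 : (α.prodAut α').h ⁻¹' ((U0 : Set G) ×ˢ (U1 : Set G')) =
      (α.h ⁻¹' (U0 : Set G)) ×ˢ (α'.h ⁻¹' (U1 : Set G')) := rfl
  rw [e2, hc1 _ _ (α.h.isCompact_preimage.2 hUc) (α'.h.isCompact_preimage.2 hUc1)
    (hU.preimage α.h.continuous) (hU1.preimage α'.h.continuous), hc1 _ _ hUc hUc1 hU hU1,
    hvol_preim _ _ hUc hU, hvol_preim _ _ hUc1 hU1] at e1
  have hne : c * (hvol (U0 : Set G) * hvol (U1 : Set G')) ≠ 0 :=
    (mul_pos hc (mul_pos p0 p1)).ne'
  refine mul_right_cancel₀ hne ?_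
  linear_combination -e1

end

end Pool.Agent.Work.MP_dd0ddf_al.OC
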