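import Pool.Agent.Work.MP_dd0ddf_al.OC.FourDefs
import Pool.Agent.Work.MP_dd0ddf_al.OC.FourSpan
import Pool.Agent.Work.MP_dd0ddf_al.OC.BiAux

/-!
# MP_dd0ddf_al, module SFormDefs: symmetric bilinear forms over F (definitions; the sorries are topological facts, see module BiOm for the method)

`lc_U, td_U, uc_U`: `U` is linearly homeomorphic to `F^m`.
`SForm.bi`: `χ(v, w) = ψ(b v w)`: same proof as for `omBi`: if `ψ(b v w) = 1` for all `v` in a ball then `|b v w| < |x0|` there.
-/

set_option linter.unusedSectionVars false
set_option linter.style.haveILetI false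

namespace Pool.Agent.Work.MP_dd0ddf_al.OC

noncomputable section

universe u

variable {F : Type u} [NontriviallyNormedField F] [IsUltrametricDist F] [ProperSpace F]
  [NeZero (2 : F)]
variable {U : Type u} [AddCommGroup U] [Module F U] [Module.Finite F U] [TopologicalSpace U]
  [IsTopologicalAddGroup U] [T2Space U] [ContinuousSMul F U]

/-- a nondegenerate symmetric bilinear form -/
structure SForm (F U : Type*) [Field F] [AddCommGroup U] [Module F U] where
  b : U → U → F
  add_left : ∀ u v w, b (u + v) w = b u w + b v w
  smul_left : ∀ (a : F) v w, b (a • v) w = a * b v w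
  symm : ∀ v w, b v w = b w v
  nondeg : ∀ v, (∀ w, b v w = 0) → v = 0

theorem SForm.add_right {F U : Type*} [Field F] [AddCommGroup U] [Module F U] (β : SForm F U)
    (u v w : U) : β.b u (v + w) = β.b u v + β.b u w := by
  rw [β.symm, β.add_left, β.symm v, β.symm w]

theorem SForm.smul_right {F U : Type*} [Field F] [AddCommGroup U] [Module F U] (β : SForm F U)
    (a : F) (v w : U) : β.b v (a • w) = a * β.b v w := by
  rw [β.symm, β.smul_left, β.symm]

/-- the form `c b`, `c ≠ 0` -/
def SForm.scale {F U : Type*} [Field F] [AddCommGroup U] [Module F U] (β : SForm F U) (c : F)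
    (hc : c ≠ 0) : SForm F U where
  b v w := c * β.b v w
  add_left u v w := by rw [β.add_left, mul_add]
  smul_left a v w := by rw [β.smul_left]; ring
  symm v w := by rw [β.symm]
  nondeg v h := β.nondeg v fun w => by
    have := h w
    exact (mul_eq_zero.mp this).resolve_left hc

/-- orthogonal sum -/
def SForm.prod {F U U' : Type*} [Field F] [AddCommGroup U] [Module F U] [AddCommGroup U']
    [Module F U'] (β : SForm F U) (β' : SForm F U') : SForm F (U × U') where
  b v w := β.b v.1 w.1 + β'.b v.2 w.2
  add_left u v w := by
    rw [Prod.fst_add, Prod.snd_add, β.add_left, β'.add_left]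
    ring
  smul_left a v w := by
    rw [Prod.smul_fst, Prod.smul_snd, β.smul_left, β'.smul_left]
    ring
  symm v w := by rw [β.symm, β'.symm]
  nondeg v h := by
    apply Prod.ext
    · apply β.nondeg
      intro w
      have h1 := h (w, 0)
      have h2 := β'.smul_right 0 v.2 0
      rw [zero_smul, zero_mul] at h2
      have h3 : β.b v.1 w + β'.b v.2 0 = 0 := h1
      rw [h2, add_zero] at h3
      exact h3
    · apply β'.nondeg
      intro w
      have h1 := h (0, w)
      have h2 := β.smul_right 0 v.1 0
      rw [zero_smul, zero_mul] at h2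
      have h3 : β.b v.1 0 + β'.b v.2 w = 0 := h1
      rw [h2, zero_add] at h3
      exact h3

variable (F U) in
include F in
theorem lc_U : LocallyCompactSpace U := biaux_lc F U

variable (F U) in
include F in
theorem td_U : TotallyDisconnectedSpace U := biaux_td F U

variable (F U) in
include F in
theorem uc_U : UnionCompact U := biaux_uc F U

private def sformdefs_lin (β : SForm F U) : U →ₗ[F] U →ₗ[F] F :=
  LinearMap.mk₂ F β.b β.add_left β.smul_left β.add_right (fun a v w => β.smul_right a v w)

theorem SForm.continuous (β : SForm F U) : Continuous (fun q : U × U => β.b q.1 q.2) :=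
  biaux_continuous (sformdefs_lin β)

private theorem sformdefs_nd (β : SForm F U) (w : U) (h : ∀ v, sformdefs_lin β v w = 0) :
    w = 0 := β.nondeg w fun v => by
  rw [β.symm]
  exact h v

private theorem sformdefs_nd' (β : SForm F U) (w : U)
    (h : ∀ v, (sformdefs_lin β).flip v w = 0) : w = 0 := β.nondeg w fun v => h v

/-- the bicharacter `ψ(b(v, w))` -/
def SForm.bi (β : SForm F U) (p : PChar F) : BiChar U where
  χ v w := p.ψ (β.b v w)
  addl a b w := by rw [β.add_left, p.add]
  addr v a b := by rw [β.add_right, p.add]
  norm v w := p.norm_one _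
  lc := biaux_lcc (sformdefs_lin β) p
  nd v h := biaux_nd (sformdefs_lin β).flip (sformdefs_nd' β) p v h
  nd' w h := biaux_nd (sformdefs_lin β) (sformdefs_nd β) p w h
  perp L hL := biaux_perp (sformdefs_lin β) (sformdefs_nd β) p L hL
  perp' L hL := biaux_perp (sformdefs_lin β).flip (sformdefs_nd' β) p L hL

theorem SForm.bi_apply (β : SForm F U) (p : PChar F) (v w : U) :
    (β.bi p).χ v w = p.ψ (β.b v w) := rfl

/-- `ψ(½ b(v,v))` is locally constant -/
theorem SForm.lcq (β : SForm F U) (p : PChar F) :
    IsLocallyConstant (fun v => p.ψ (2⁻¹ * β.b v v)) :=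
  p.lc.comp_continuous (continuous_const.mul (β.continuous.comp
    (continuous_id.prodMk continuous_id)))

/-- dilation by `t ≠ 0` -/
def dil (U : Type*) {F : Type*} [Field F] [TopologicalSpace F] [AddCommGroup U] [Module F U]
    [TopologicalSpace U] [ContinuousSMul F U] (t : F) (ht : t ≠ 0) : TAut U where
  h := Homeomorph.smulOfNeZero t ht
  add x y := smul_add t x y

end

end Pool.Agent.Work.MP_dd0ddf_al.OC
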