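import Pool.Agent.Work.MP_dd0ddf_al.OC.LinFour
import Pool.Agent.Work.MP_dd0ddf_al.OC.SFormDefs
import Pool.Agent.Work.MP_dd0ddf_al.OC.HmodAux
import Pool.Agent.Work.MP_dd0ddf_al.OC.BiAux

/-!
# MP_dd0ddf_al, module HmodDil: moduli of dilations

`∫_U f(t u) du = (∫_F f(t r) dr)^{dim_F U}` scale factor: `U ≅ F^m` linearly; volume of boxes (`exists_fubini`) by induction on m, or: the modulus of the automorphism `t` of `F^m` is the product of the
moduli.  For `V` over `E`: `dim_F V = 2 dim_E V`, V is an F-vector space via `Module.compHom`.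
`hmod_dil_small`: for `t` with `0 < ‖t‖ < 1` the modulus `hmod (dil F t)` is `> 1` (t B ⊊ B for the unit ball B: `hvol(t⁻¹ B) > hvol(B)`).
-/

set_option linter.unusedSectionVars false
set_option linter.style.haveILetI false

namespace Pool.Agent.Work.MP_dd0ddf_al.OC

noncomputable section

universe u

private theorem hmoddil_pi {F : Type u} [NontriviallyNormedField F] [IsUltrametricDist F]
    [ProperSpace F] [LocallyCompactSpace F]
    [TotallyDisconnectedSpace F] (t : F) (ht : t ≠ 0) (n : ℕ) :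
    hmod (dil (Fin n → F) t ht) = hmod (dil F t ht) ^ n := by
  induction n with
  | zero =>
    rw [pow_zero]
    exact hmod_id _ fun x => Subsingleton.elim _ _
  | succ n ih =>
    rw [pow_succ', ← ih, ← hmod_prod]
    symm
    refine hmod_transfer (Fin.consEquivL F (fun _ : Fin (n + 1) => F)).toHomeomorph
      (fun x y => map_add (Fin.consEquivL F (fun _ : Fin (n + 1) => F)) x y) _ _ (fun x => ?_)
    exact map_smul (Fin.consEquivL F (fun _ : Fin (n + 1) => F)) t x

theorem hmod_dil {F : Type u} [NontriviallyNormedField F] [IsUltrametricDist F] [ProperSpace F]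
    [NeZero (2 : F)] {U : Type u} [AddCommGroup U] [Module F U] [Module.Finite F U]
    [TopologicalSpace U] [IsTopologicalAddGroup U] [T2Space U] [ContinuousSMul F U]
    [LocallyCompactSpace U] [TotallyDisconnectedSpace U] [LocallyCompactSpace F]
    [TotallyDisconnectedSpace F] (t : F) (ht : t ≠ 0) :
    hmod (dil U t ht) = hmod (dil F t ht) ^ (Module.finrank F U) := by
  rw [← hmoddil_pi]
  refine hmod_transfer (biaux_e F U).toHomeomorph (fun x y => map_add (biaux_e F U) x y) _ _
    (fun x => ?_)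
  exact map_smul (biaux_e F U) t x

theorem hmod_dil_small {F : Type u} [NontriviallyNormedField F] [IsUltrametricDist F]
    [ProperSpace F] [NeZero (2 : F)] [LocallyCompactSpace F] [TotallyDisconnectedSpace F] (t : F)
    (ht : t ≠ 0) (h1 : ‖t‖ < 1) : 1 < hmod (dil F t ht) := by
  have hK : IsCompact (Metric.closedBall (0 : F) 1) := isCompact_closedBall _ _
  have hK' : IsOpen (Metric.closedBall (0 : F) 1) :=
    IsUltrametricDist.isOpen_closedBall _ one_ne_zero
  have hL : IsCompact ((dil F t ht).h ⁻¹' (Metric.closedBall (0 : F) 1)) :=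
    (dil F t ht).h.isCompact_preimage.2 hK
  have hL' : IsOpen ((dil F t ht).h ⁻¹' (Metric.closedBall (0 : F) 1)) :=
    hK'.preimage (dil F t ht).h.continuous
  have hmem : ∀ x : F, x ∈ (dil F t ht).h ⁻¹' (Metric.closedBall (0 : F) 1) ↔ ‖t * x‖ ≤ 1 := by
    intro x
    show dist (t * x) 0 ≤ 1 ↔ _
    rw [dist_zero_right]
  have hmem' : ∀ x : F, x ∈ Metric.closedBall (0 : F) 1 ↔ ‖x‖ ≤ 1 := by
    intro x
    rw [Metric.mem_closedBall, dist_zero_right]
  have hsub : Metric.closedBall (0 : F) 1 ⊆ (dil F t ht).h ⁻¹' (Metric.closedBall (0 : F) 1) := by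
    intro x hx
    rw [hmem]
    rw [hmem'] at hx
    rw [norm_mul]
    calc ‖t‖ * ‖x‖ ≤ 1 * 1 := mul_le_mul h1.le hx (norm_nonneg _) zero_le_one
      _ = 1 := one_mul 1
  have hdo : IsOpen ((dil F t ht).h ⁻¹' (Metric.closedBall (0 : F) 1) \ Metric.closedBall 0 1) :=
    hL'.sdiff Metric.isClosed_closedBall
  have hdc : IsCompact ((dil F t ht).h ⁻¹' (Metric.closedBall (0 : F) 1) \
      Metric.closedBall 0 1) := hL.diff hK'
  have hne : ((dil F t ht).h ⁻¹' (Metric.closedBall (0 : F) 1) \
      Metric.closedBall 0 1).Nonempty := by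
    refine ⟨t⁻¹, (hmem _).2 ?_, fun hx => ?_⟩
    · rw [mul_inv_cancel₀ ht, norm_one]
    · rw [hmem', norm_inv] at hx
      have h2 : 0 < ‖t‖ := norm_pos_iff.2 ht
      have h3 : 1 < ‖t‖⁻¹ := (one_lt_inv₀ h2).2 h1
      exact absurd hx (not_le.2 h3)
  have e1 := hvol_union (Metric.closedBall (0 : F) 1) _ hK hdc hK' hdo Set.disjoint_sdiff_right
  rw [Set.union_sdiff_cancel hsub, hvol_preim _ _ hK hK'] at e1
  have p0 : 0 < hvol (Metric.closedBall (0 : F) 1) :=
    hvol_pos _ hK hK' ⟨0, (hmem' 0).2 (by rw [norm_zero]; exact zero_le_one)⟩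
  have p1 := hvol_pos _ hdc hdo hne
  by_contra hcon
  push Not at hcon
  have h5 : hmod (dil F t ht) * hvol (Metric.closedBall (0 : F) 1) ≤
      1 * hvol (Metric.closedBall (0 : F) 1) := mul_le_mul_of_nonneg_right hcon p0.le
  linarith

end

end Pool.Agent.Work.MP_dd0ddf_al.OC
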