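import Pool.Agent.Work.MP_dd0ddf_al.OC.WfLR
import Pool.Agent.Work.MP_dd0ddf_al.OC.WfWall
import Pool.Agent.Work.MP_dd0ddf_al.OC.WfVI
import Pool.Agent.Work.MP_dd0ddf_al.OC.LinTau
import Pool.Agent.Work.MP_dd0ddf_al.OC.WfM

/-!
# MP_dd0ddf_al, module WrBasic: consequences of the formula for a Weil representation

`geo_l`: `geo g (l h f) = l (g h g⁻¹) (geo g f)`: pointwise from `formula` with the basis `g b` of `R_{ghg⁻¹}` (wall_conjugate, rbasis_conjugate) and
`(L_x f)(g⁻¹ v) = (L_{gx} (geo g f))(v)` (geo_lop); every `h` has a basis of `R_h` (rbasis_exists).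
`r h = l h⁻¹ ∘ geo h`.  `r_mul`: `r g r h = l(g)⁻¹ geo g l(h)⁻¹ geo h = l(g)⁻¹ l(g h⁻¹ g⁻¹) geo (gh) = l((gh)⁻¹) geo(gh)`.  `l_r_comm`: similar.
`r_L`, `r_R`: from L_comm, R_comm, geo_lop, geo_rop.  `geo_eq`: `geo h = l h ∘ r h`.
`tauU τ h = τ h τ`.  `tneg f (v) = f(-τ v)`.
`tneg_l`: `tneg (l h f) = r (τhτ) (tneg f)`.  Pointwise: with `k = (τhτ)⁻¹`, `R_k = τ R_h`, basis `τ b_i`: `W_k(τu, τw) = W_h(w, u)` [(h⁻¹-1)c = u for c = -(u + a), (h-1)a = u; so `W_k(τu,τw) = ⟨τc, τw⟩ = ⟨w, c⟩ = -⟨w,u⟩ - ⟨w,a⟩ = W_h(w,u)`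
since `⟨w,u⟩ = ⟨(h-1)a1,(h-1)a⟩ = -⟨w,a⟩ - ⟨a1,u⟩`, (h-1)a1 = w].  So the Gram matrices are transposed, same determinant, and
`r(τhτ)(tneg f)(v) = l(k)(geo(τhτ) tneg f)(v) = A^r μ(d) ∫_{u ∈ R_h} ψ(½Tr W_h(u,u)) ψ(-½ om(u,z)) f(h⁻¹(u - z)) du`, `z = τv` (substituting x → conj x, vI_star: preserves the measure), while
`tneg (l h f)(v) = (l h f)(-z) = A^r μ(d) ∫ ψ(½Tr W_h(u,u)) ψ(-½ om(u,z)) f(-z-u) du`.  Substitute in the second integral... `u = -(h u' + (h-1) z)`, `u' ∈ R_h`: then `h⁻¹(u - z) = -z - u'` and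
`½Tr W(u,u) - ½om(u,z) = ½Tr W(u',u') - ½om(u',z)` (using W(hx,hy) = W(x,y), W((h-1)z,y) = ⟨z,y⟩, W(hu',(h-1)z) = -⟨u',z⟩); the substitution preserves the measure: translation and the E-linear map `-h` of `R_h`, whose
determinant `D` satisfies `D star D = 1` (h preserves the nondegenerate form W), so its modulus is 1 (norm_one_of_unit: ‖D‖ = 1).
`tneg_r`: from `tneg_l` and `tneg tneg = 1`, `τ(τhτ)τ = h`.
`l_of_formula`: two Weil representations with the same `A` and `μ` have the same `l`.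
-/

set_option linter.unusedSectionVars false
set_option linter.style.haveILetI false

namespace Pool.Agent.Work.MP_dd0ddf_al.OC

noncomputable section

universe u

variable {F E : Type u} [NontriviallyNormedField F] [IsUltrametricDist F] [ProperSpace F]
  [NeZero (2 : F)] [NontriviallyNormedField E] [NormedAlgebra F E] [ProperSpace E] [StarRing E]
  [QExt F E] [MeasurableSpace E] [BorelSpace E]
variable {V : Type u} [AddCommGroup V] [Module E V] [Module.Finite E V] [TopologicalSpace V]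
  [IsTopologicalAddGroup V] [T2Space V] [ContinuousSMul E V]

/-- `τ h τ` -/
def tauU {B : SkewH E V} (τ : AntiU B) (h : UU B) : UU B :=
  ⟨⟨conjτ τ h.1.1, conjτ τ h.1⁻¹.1, by
      rw [← conjτ_mul]
      have : h.1.1 * h.1⁻¹.1 = 1 := h.1.mul_inv
      rw [this, conjτ_one], by
      rw [← conjτ_mul]
      have : h.1⁻¹.1 * h.1.1 = 1 := h.1.inv_mul
      rw [this, conjτ_one]⟩, fun v w => by
    show B.ip (τ.t (h.1.1 (τ.t v))) (τ.t (h.1.1 (τ.t w))) = B.ip v w
    rw [τ.ip, h.2, τ.ip]⟩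

theorem tauU_apply {B : SkewH E V} (τ : AntiU B) (h : UU B) (v : V) :
    (tauU τ h).1.1 v = τ.t (h.1.1 (τ.t v)) := rfl

theorem tauU_mul {B : SkewH E V} (τ : AntiU B) (g h : UU B) :
    tauU τ (g * h) = tauU τ g * tauU τ h := by
  apply Subtype.ext
  apply Units.ext
  exact conjτ_mul τ g.1.1 h.1.1

theorem tauU_tauU {B : SkewH E V} (τ : AntiU B) (h : UU B) : tauU τ (tauU τ h) = h := by
  apply Subtype.ext
  apply Units.ext
  exact conjτ_conjτ τ h.1.1

variable (F) in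
include F in
theorem continuous_tauU {B : SkewH E V} (τ : AntiU B) : Continuous (tauU τ) := by
  refine Continuous.subtype_mk ?_ _
  rw [Units.continuous_iff]
  constructor
  · exact (continuous_conjτ F τ).comp (Units.continuous_val.comp continuous_subtype_val)
  · exact (continuous_conjτ F τ).comp
      (Units.continuous_val.comp (continuous_inv.comp continuous_subtype_val))

variable (F) in
/-- `tneg f (v) = f(-τ v)` -/
def tneg {B : SkewH E V} (τ : AntiU B) : SF V ℂ →ₗ[ℂ] SF V ℂ := SF.comp (negτ F τ)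

theorem tneg_tneg {B : SkewH E V} (τ : AntiU B) (f : SF V ℂ) : tneg F τ (tneg F τ f) = f := by
  apply SF.ext
  intro v
  exact congrArg f.1 ((negτ F τ).left_inv v)

/-- the operator `l h` is a multiple of `M_{h,b}` -/
theorem wrbasic_l {B : SkewH E V} {p : PChar F} (W : WeilRep B p) (h : UU B) {r : ℕ}
    (b : Fin r → V) (hb : IsRBasis h.1 b) : ∃ d : Eˣ, (d : E) = (wallM B h.1 b).det ∧
      ∀ f, W.l h f = (W.A ^ r * ((W.μ d : ℂˣ) : ℂ)) • Mop B p h b hb f := by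
  obtain ⟨d, hd, hf⟩ := W.formula h r b hb
  refine ⟨d, hd, fun f => ?_⟩
  apply SF.ext
  intro v
  rw [hf]
  show _ = (W.A ^ r * ((W.μ d : ℂˣ) : ℂ)) * Mop B p h b hb f v
  rw [Mop_apply]

private theorem wrbasic_mul {B : SkewH E V} {p : PChar F} (W : WeilRep B p) (g h : UU B)
    (f : SF V ℂ) : W.l g (W.l h f) = W.l (g * h) f := by
  rw [map_mul]
  rfl

private theorem wrbasic_one {B : SkewH E V} {p : PChar F} (W : WeilRep B p)
    (f : SF V ℂ) : W.l 1 f = f := by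
  rw [map_one]
  rfl

theorem geo_l {B : SkewH E V} {p : PChar F} (W : WeilRep B p) (g h : UU B) :
    geo g.1 ∘ₗ W.l h = W.l (g * h * g⁻¹) ∘ₗ geo g.1 := by
  obtain ⟨r, b, hb⟩ := rbasis_exists h
  have hb' := rbasis_conjugate g h b hb
  obtain ⟨d, hd, hl⟩ := wrbasic_l W h b hb
  obtain ⟨d', hd', hl'⟩ := wrbasic_l W (g * h * g⁻¹) _ hb'
  have hdd : d = d' := by
    apply Units.ext
    rw [hd, hd']
    congr 1
    ext i j
    show wall B h.1 (b i) (b j) = wall B (g * h * g⁻¹).1 (g.1.1 (b i)) (g.1.1 (b j))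
    have hmem : ∀ i, b i ∈ LinearMap.range (h.1.1 - 1) := fun i => by
      rw [← hb.2]
      exact Submodule.subset_span ⟨i, rfl⟩
    rw [wall_conjugate g h (hmem i) (hmem j)]
  apply LinearMap.ext
  intro f
  show geo g.1 (W.l h f) = W.l (g * h * g⁻¹) (geo g.1 f)
  have h1 : geo g.1 (Mop B p h b hb f) =
      Mop B p (g * h * g⁻¹) (fun i => g.1.1 (b i)) hb' (geo g.1 f) :=
    congrArg (fun T : SF V ℂ →ₗ[ℂ] SF V ℂ => T f)
      (Mop_conj B p g h b hb hb' (geo g.1) (fun x => geo_lop B p g x))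
  rw [hl, hl', map_smul, h1, hdd]

private theorem wrbasic_geo_l {B : SkewH E V} {p : PChar F} (W : WeilRep B p) (g h : UU B)
    (f : SF V ℂ) : geo g.1 (W.l h f) = W.l (g * h * g⁻¹) (geo g.1 f) :=
  congrArg (fun T : SF V ℂ →ₗ[ℂ] SF V ℂ => T f) (geo_l W g h)

private theorem wrbasic_r {B : SkewH E V} {p : PChar F} (W : WeilRep B p) (h : UU B)
    (f : SF V ℂ) : W.r h f = W.l h⁻¹ (geo h.1 f) := rfl

theorem geo_eq {B : SkewH E V} {p : PChar F} (W : WeilRep B p) (h : UU B) :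
    geo h.1 = W.l h ∘ₗ W.r h := by
  apply LinearMap.ext
  intro f
  show geo h.1 f = W.l h (W.r h f)
  rw [wrbasic_r, wrbasic_mul, mul_inv_cancel, wrbasic_one]

theorem r_one {B : SkewH E V} {p : PChar F} (W : WeilRep B p) : W.r 1 = LinearMap.id := by
  apply LinearMap.ext
  intro f
  show W.r 1 f = f
  rw [wrbasic_r, inv_one, wrbasic_one]
  exact congrArg (fun T : SF V ℂ →ₗ[ℂ] SF V ℂ => T f) geo_one

theorem r_mul {B : SkewH E V} {p : PChar F} (W : WeilRep B p) (g h : UU B) :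
    W.r (g * h) = W.r g ∘ₗ W.r h := by
  apply LinearMap.ext
  intro f
  show W.r (g * h) f = W.r g (W.r h f)
  have h1 : geo (g * h).1 f = geo g.1 (geo h.1 f) :=
    congrArg (fun T : SF V ℂ →ₗ[ℂ] SF V ℂ => T f) (geo_mul g.1 h.1)
  rw [wrbasic_r, wrbasic_r, wrbasic_r, wrbasic_geo_l, wrbasic_mul, h1]
  congr 2
  rw [mul_inv_rev, ← mul_assoc, ← mul_assoc, inv_mul_cancel, one_mul]

theorem l_r_comm {B : SkewH E V} {p : PChar F} (W : WeilRep B p) (g h : UU B) :
    W.l g ∘ₗ W.r h = W.r h ∘ₗ W.l g := by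
  apply LinearMap.ext
  intro f
  show W.l g (W.r h f) = W.r h (W.l g f)
  rw [wrbasic_r, wrbasic_r, wrbasic_geo_l, wrbasic_mul, wrbasic_mul]
  congr 2
  rw [← mul_assoc, ← mul_assoc, inv_mul_cancel, one_mul]

theorem r_L {B : SkewH E V} {p : PChar F} (W : WeilRep B p) (h : UU B) (x : V) :
    W.r h ∘ₗ Lop B p x = Lop B p x ∘ₗ W.r h := by
  apply LinearMap.ext
  intro f
  show W.r h (Lop B p x f) = Lop B p x (W.r h f)
  have h1 : geo h.1 (Lop B p x f) = Lop B p (h.1.1 x) (geo h.1 f) :=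
    congrArg (fun T : SF V ℂ →ₗ[ℂ] SF V ℂ => T f) (geo_lop B p h x)
  have h2 : W.l h⁻¹ (Lop B p (h.1.1 x) (geo h.1 f)) =
      Lop B p (h⁻¹.1.1 (h.1.1 x)) (W.l h⁻¹ (geo h.1 f)) :=
    congrArg (fun T : SF V ℂ →ₗ[ℂ] SF V ℂ => T (geo h.1 f)) (W.L_comm h⁻¹ (h.1.1 x))
  have h3 : h⁻¹.1.1 (h.1.1 x) = x := congrArg (fun f : Module.End E V => f x) h.1.inv_mul
  rw [wrbasic_r, wrbasic_r, h1, h2, h3]

theorem r_R {B : SkewH E V} {p : PChar F} (W : WeilRep B p) (h : UU B) (x : V) :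
    W.r h ∘ₗ Rop B p x = Rop B p (h.1.1 x) ∘ₗ W.r h := by
  apply LinearMap.ext
  intro f
  show W.r h (Rop B p x f) = Rop B p (h.1.1 x) (W.r h f)
  have h1 : geo h.1 (Rop B p x f) = Rop B p (h.1.1 x) (geo h.1 f) :=
    congrArg (fun T : SF V ℂ →ₗ[ℂ] SF V ℂ => T f) (geo_rop B p h x)
  have h2 : W.l h⁻¹ (Rop B p (h.1.1 x) (geo h.1 f)) =
      Rop B p (h.1.1 x) (W.l h⁻¹ (geo h.1 f)) :=
    congrArg (fun T : SF V ℂ →ₗ[ℂ] SF V ℂ => T (geo h.1 f)) (W.R_comm h⁻¹ (h.1.1 x))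
  rw [wrbasic_r, wrbasic_r, h1, h2]

/-- smoothness of the geometric action -/
theorem wrbasic_geo_smooth (B : SkewH E V) (f : SF V ℂ) :
    ∃ U : Set (UU B), IsOpen U ∧ (1 : UU B) ∈ U ∧ ∀ h ∈ U, geo h.1 f = f := by
  have hc1 : Continuous (fun q : UU B × V => q.1.1.1 q.2) :=
    continuous_end_eval.comp ((Units.continuous_val.comp
      (continuous_subtype_val.comp continuous_fst)).prodMk continuous_snd)
  have hc2 : Continuous (fun q : UU B × V => q.1.1⁻¹.1 q.2) :=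
    continuous_end_eval.comp ((Units.continuous_val.comp
      (continuous_inv.comp (continuous_subtype_val.comp continuous_fst))).prodMk continuous_snd)
  have hev : ∀ (Φ : UU B × V → V), Continuous Φ → (∀ v, Φ (1, v) = v) →
      ∀ᶠ h in nhds (1 : UU B), ∀ v ∈ tsupport f.1, f (Φ (h, v)) = f v := by
    intro Φ hΦ hΦ1
    refine f.2.2.isCompact.eventually_forall_of_forall_eventually ?_
    intro v _
    have h1 := (IsLocallyConstant.iff_eventually_eq _).mp (f.2.1.comp_continuous hΦ) (1, v)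
    have h2 := (IsLocallyConstant.iff_eventually_eq _).mp
      (f.2.1.comp_continuous (continuous_snd (X := UU B) (Y := V))) (1, v)
    filter_upwards [h1, h2] with q hq1 hq2
    have e1 : f (Φ q) = f (Φ (1, v)) := hq1
    have e2 : f q.2 = f v := hq2
    rw [e2]
    show f (Φ q) = f v
    rw [e1, hΦ1]
  have h1 := hev _ hc1 (fun v => rfl)
  have h2 := hev _ hc2 (fun v => by
    show (1 : GV E V)⁻¹.1 v = v
    rw [inv_one]
    rfl)
  obtain ⟨U, hU, hUo, hU1⟩ := eventually_nhds_iff.1 (h1.and h2)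
  refine ⟨U, hUo, hU1, fun h hh => ?_⟩
  apply SF.ext
  intro v
  show f (h.1⁻¹.1 v) = f v
  by_cases hv : v ∈ tsupport f.1
  · exact (hU h hh).2 v hv
  · have h0 : f v = 0 := image_eq_zero_of_notMem_tsupport hv
    by_cases hw : h.1⁻¹.1 v ∈ tsupport f.1
    · have h3 := (hU h hh).1 _ hw
      have h4 : h.1.1 (h.1⁻¹.1 v) = v := congrArg (fun f : Module.End E V => f v) h.1.mul_inv
      have h5 : f (h.1.1 (h.1⁻¹.1 v)) = f (h.1⁻¹.1 v) := h3
      rw [h4] at h5
      exact h5.symm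
    · rw [h0]
      exact image_eq_zero_of_notMem_tsupport hw

theorem r_smooth {B : SkewH E V} {p : PChar F} (W : WeilRep B p) (f : SF V ℂ) :
    ∃ U : Set (UU B), IsOpen U ∧ (1 : UU B) ∈ U ∧ ∀ h ∈ U, W.r h f = f := by
  obtain ⟨U1, hU1o, hU11, hU1⟩ := wrbasic_geo_smooth B f
  obtain ⟨U2, hU2o, hU21, hU2⟩ := W.smooth f
  refine ⟨U1 ∩ {h | h.1⁻¹.1 ∈ U2}, hU1o.inter (hU2o.preimage (Units.continuous_val.comp
    (continuous_inv.comp continuous_subtype_val))), ⟨hU11, ?_⟩, ?_⟩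
  · show (1 : GV E V)⁻¹.1 ∈ U2
    rw [inv_one]
    exact hU21
  · rintro h ⟨h1, h2⟩
    rw [wrbasic_r, hU1 h h1]
    exact hU2 h⁻¹ h2

theorem l_smooth {B : SkewH E V} {p : PChar F} (W : WeilRep B p) (f : SF V ℂ) :
    ∃ U : Set (UU B), IsOpen U ∧ (1 : UU B) ∈ U ∧ ∀ h ∈ U, W.l h f = f := by
  obtain ⟨U2, hU2o, hU21, hU2⟩ := W.smooth f
  exact ⟨{h | h.1.1 ∈ U2}, hU2o.preimage (Units.continuous_val.comp continuous_subtype_val),
    hU21, fun h hh => hU2 h hh⟩

private theorem wrbasic_tau_neg {B : SkewH E V} (τ : AntiU B) (v : V) :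
    τ.t (-v) = -τ.t v := by
  have := τ.smul (-1) v
  simpa only [neg_smul, one_smul, star_neg, star_one] using this

private theorem wrbasic_tau_zero {B : SkewH E V} (τ : AntiU B) : τ.t 0 = 0 := by
  have := τ.smul 0 0
  rwa [zero_smul, star_zero, zero_smul] at this

private theorem wrbasic_tau_sub {B : SkewH E V} (τ : AntiU B) (v w : V) :
    τ.t (v - w) = τ.t v - τ.t w := by
  rw [sub_eq_add_neg, τ.add, wrbasic_tau_neg, sub_eq_add_neg]

private theorem wrbasic_om_neg_right (B : SkewH E V) (x y : V) :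
    om F B x (-y) = - om F B x y := by
  have h0 : om F B x 0 = 0 := by
    have := om_add_right (F := F) B x 0 0
    rw [add_zero] at this
    exact left_eq_add.1 this
  have h := om_add_right (F := F) B x y (-y)
  rw [add_neg_cancel, h0] at h
  linear_combination -h

private theorem wrbasic_om_neg_left (B : SkewH E V) (x y : V) :
    om F B (-x) y = - om F B x y := by
  rw [om_swap B y (-x), wrbasic_om_neg_right, om_swap B x y, neg_neg]

private theorem wrbasic_om_tau {B : SkewH E V} (τ : AntiU B) (x v : V) :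
    om F B x (τ.t v) = om F B v (τ.t x) := by
  unfold om
  have h := τ.ip (τ.t x) v
  rw [τ.inv] at h
  rw [h]

private theorem wrbasic_tneg_L {B : SkewH E V} (τ : AntiU B) (p : PChar F) (x : V)
    (f : SF V ℂ) : tneg F τ (Lop B p x f) = Rop B p (-τ.t x) (tneg F τ f) := by
  apply SF.ext
  intro v
  show p.ψ (2⁻¹ * om F B x (-τ.t v)) * f (-τ.t v - x) =
    p.ψ (2⁻¹ * om F B v (-τ.t x)) * f (-τ.t (v - -τ.t x))
  rw [wrbasic_om_neg_right, wrbasic_om_neg_right, wrbasic_om_tau, wrbasic_tau_sub,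
    wrbasic_tau_neg, τ.inv]
  congr 2
  abel_nf

private theorem wrbasic_tneg_R {B : SkewH E V} (τ : AntiU B) (p : PChar F) (x : V)
    (f : SF V ℂ) : tneg F τ (Rop B p x f) = Lop B p (-τ.t x) (tneg F τ f) := by
  apply SF.ext
  intro v
  show p.ψ (2⁻¹ * om F B (-τ.t v) x) * f (-τ.t v - x) =
    p.ψ (2⁻¹ * om F B (-τ.t x) v) * f (-τ.t (v - -τ.t x))
  rw [wrbasic_om_neg_left, wrbasic_om_neg_left, om_swap B x (τ.t v), wrbasic_om_tau,
    om_swap B (τ.t x) v, wrbasic_tau_sub, wrbasic_tau_neg, τ.inv]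
  congr 2
  · ring
  · abel_nf

/-- `tneg l(h)` and `r(τhτ) tneg` are proportional -/
private theorem wrbasic_prop {B : SkewH E V} {p : PChar F} (W : WeilRep B p) (τ : AntiU B)
    (h : UU B) : ∃ c : ℂ, ∀ f, tneg F τ (W.l h f) = c • W.r (tauU τ h) (tneg F τ f) := by
  have lL : ∀ (h : UU B) x f, W.l h (Lop B p x f) = Lop B p (h.1.1 x) (W.l h f) := fun h x f =>
    congrArg (fun T : SF V ℂ →ₗ[ℂ] SF V ℂ => T f) (W.L_comm h x)
  have lR : ∀ (h : UU B) x f, W.l h (Rop B p x f) = Rop B p x (W.l h f) := fun h x f =>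
    congrArg (fun T : SF V ℂ →ₗ[ℂ] SF V ℂ => T f) (W.R_comm h x)
  have rL : ∀ (h : UU B) x f, W.r h (Lop B p x f) = Lop B p x (W.r h f) := fun h x f =>
    congrArg (fun T : SF V ℂ →ₗ[ℂ] SF V ℂ => T f) (r_L W h x)
  have rR : ∀ (h : UU B) x f, W.r h (Rop B p x f) = Rop B p (h.1.1 x) (W.r h f) := fun h x f =>
    congrArg (fun T : SF V ℂ →ₗ[ℂ] SF V ℂ => T f) (r_R W h x)
  set k := tauU τ h with hk
  have hkinv : ∀ v, k⁻¹.1.1 v = τ.t (h.1⁻¹.1 (τ.t v)) := fun v => rfl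
  have him : ∀ x, h.1⁻¹.1 (h.1.1 x) = x := fun x =>
    congrArg (fun f : Module.End E V => f x) h.1.inv_mul
  have e1 : ∀ x, -τ.t (k⁻¹.1.1 (-τ.t (h.1.1 x))) = x := by
    intro x
    simp only [hkinv, wrbasic_tau_neg, τ.inv, map_neg, him, neg_neg]
  have e2 : ∀ x, -τ.t (-τ.t x) = x := by
    intro x
    rw [wrbasic_tau_neg, τ.inv, neg_neg]
  obtain ⟨c, hc⟩ := schur_lr B p
    (tneg F τ ∘ₗ W.r k⁻¹ ∘ₗ tneg F τ ∘ₗ (W.l h : SF V ℂ →ₗ[ℂ] SF V ℂ))
    (fun x => LinearMap.ext fun f => by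
      show tneg F τ (W.r k⁻¹ (tneg F τ (W.l h (Lop B p x f)))) =
        Lop B p x (tneg F τ (W.r k⁻¹ (tneg F τ (W.l h f))))
      rw [lL, wrbasic_tneg_L, rR, wrbasic_tneg_R, e1])
    (fun x => LinearMap.ext fun f => by
      show tneg F τ (W.r k⁻¹ (tneg F τ (W.l h (Rop B p x f)))) =
        Rop B p x (tneg F τ (W.r k⁻¹ (tneg F τ (W.l h f))))
      rw [lR, wrbasic_tneg_R, rL, wrbasic_tneg_L, e2])
  refine ⟨c, fun f => ?_⟩
  have h1 : tneg F τ (W.r k⁻¹ (tneg F τ (W.l h f))) = c • f :=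
    congrArg (fun T : SF V ℂ →ₗ[ℂ] SF V ℂ => T f) hc
  have h2 : ∀ g, W.r k (W.r k⁻¹ g) = g := by
    intro g
    have h3 : W.r (k * k⁻¹) g = W.r k (W.r k⁻¹ g) :=
      congrArg (fun T : SF V ℂ →ₗ[ℂ] SF V ℂ => T g) (r_mul W k k⁻¹)
    rw [← h3, mul_inv_cancel, r_one]
    rfl
  rw [← map_smul, ← map_smul, ← h1, tneg_tneg, h2]

/-- the value at 0 -/
private theorem wrbasic_mop0 (B : SkewH E V) (p : PChar F) (h : UU B) {r : ℕ} (b : Fin r → V)
    (hb : IsRBasis h.1 b) : ∃ W : Set V, IsOpen W ∧ (0 : V) ∈ W ∧ ∀ (K : Set V)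
      (hK : IsCompact K) (hK' : IsOpen K), K ⊆ W → (∀ x, -x ∈ K ↔ x ∈ K) →
      ∀ (K' : Set (Fin r → E)) (hc : IsCompact K') (ho : IsOpen K'),
      (∀ x, x ∈ K' ↔ ∑ i, x i • b i ∈ K) →
      Mop B p h b hb (SF.single K hK hK' 1) 0 = vI r (SF.single K' hc ho (1 : ℂ)) := by
  classical
  haveI : FiniteDimensional F E := qext_findim F E
  have hcl : Topology.IsClosedEmbedding (fun x : Fin r → E => ∑ i, x i • b i) := by
    have h1 : Topology.IsClosedEmbedding (Fintype.linearCombination E b) :=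
      LinearMap.isClosedEmbedding_of_injective
        (by
          rw [LinearMap.ker_eq_bot']
          intro x hx
          rw [Fintype.linearCombination_apply] at hx
          exact funext fun i => Fintype.linearIndependent_iff.1 hb.1 x hx i)
    have h2 : (fun x : Fin r → E => ∑ i, x i • b i) = Fintype.linearCombination E b := by
      funext x
      rw [Fintype.linearCombination_apply]
    rw [h2]
    exact h1
  have hWo : IsOpen {x : Fin r → E | wphase p (wallM B h.1 b) x = 1} :=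
    (wfmdefs_wphase_lc p _).isOpen_fiber 1
  have h00 : ∑ i, (0 : Fin r → E) i • b i = 0 :=
    Finset.sum_eq_zero fun i _ => by rw [Pi.zero_apply, zero_smul]
  obtain ⟨W, hW1, hW2⟩ := hcl.isInducing.isOpen_iff.1 hWo
  have h0W : (0 : V) ∈ W := by
    have h1 : (0 : Fin r → E) ∈ (fun x : Fin r → E => ∑ i, x i • b i) ⁻¹' W := by
      rw [hW2]
      show wphase p (wallM B h.1 b) 0 = 1
      have h3 := wfmdefs_ses_smul_left (wallM B h.1 b) 0 (0 : Fin r → E) 0
      rw [zero_smul, zero_mul] at h3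
      rw [wfmdefs_wphase, h3, map_zero, mul_zero, wfmdefs_psi_zero]
    have h2 : ∑ i, (0 : Fin r → E) i • b i ∈ W := h1
    rwa [h00] at h2
  refine ⟨W, hW1, h0W, fun K hK hK' hKW hsymm K' hc ho hiff => ?_⟩
  obtain ⟨L0, hL0o, hL0c, hL0⟩ := Mop_spec B p h b hb (SF.single K hK hK' (1 : ℂ))
  obtain ⟨L, hL, hL', hLs⟩ := biaux_uc F (Fin r → E) _ (hL0c.union hc)
  rw [hL0 L hL hL' (fun x hx => hLs (Or.inl hx))]
  set ev : SF V ℂ →ₗ[ℂ] ℂ :=
    { toFun := fun f => f 0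
      map_add' := fun _ _ => rfl
      map_smul' := fun _ _ => rfl } with hev
  have e1 : (vI r (trf B p (wallM B h.1 b) b L hL hL' (SF.single K hK hK' (1 : ℂ)))) 0 =
      ev (vI r (trf B p (wallM B h.1 b) b L hL hL' (SF.single K hK hK' (1 : ℂ)))) := rfl
  rw [e1, ← vI_map]
  congr 1
  apply SF.ext
  intro x
  show trf B p (wallM B h.1 b) b L hL hL' (SF.single K hK hK' (1 : ℂ)) x 0 = _
  rw [wfmdefs_trf_apply]
  have h1 : om F B (∑ i, x i • b i) 0 = 0 := by
    have := om_add_right (F := F) B (∑ i, x i • b i) 0 0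
    rw [add_zero] at this
    exact left_eq_add.1 this
  by_cases hx : x ∈ L
  · rw [if_pos hx]
    show wphase p (wallM B h.1 b) x * (p.ψ (2⁻¹ * om F B (∑ i, x i • b i) 0) *
      SF.single K hK hK' (1 : ℂ) (0 - ∑ i, x i • b i)) = _
    rw [h1, mul_zero, wfmdefs_psi_zero, one_mul, zero_sub]
    by_cases hxK : x ∈ K'
    · have h2 : x ∈ (fun x : Fin r → E => ∑ i, x i • b i) ⁻¹' W := hKW ((hiff x).1 hxK)
      rw [hW2] at h2
      have h3 : wphase p (wallM B h.1 b) x = 1 := h2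
      rw [h3, one_mul, SF.single_apply_mem _ _ _ _ _ ((hsymm _).2 ((hiff x).1 hxK)),
        SF.single_apply_mem _ _ _ _ _ hxK]
    · rw [SF.single_apply_not_mem _ _ _ _ _ (fun h4 => hxK ((hiff x).2 ((hsymm _).1 h4))),
        SF.single_apply_not_mem _ _ _ _ _ hxK, mul_zero]
  · rw [if_neg hx, SF.single_apply_not_mem _ _ _ _ _ (fun h4 => hx (hLs (Or.inr h4)))]
    rfl

private theorem wrbasic_sum_tau {B : SkewH E V} (τ : AntiU B) {r : ℕ} (b : Fin r → V)
    (y : Fin r → E) : ∑ i, y i • τ.t (b i) = τ.t (∑ i, star (y i) • b i) := by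
  classical
  have h1 : ∀ s : Finset (Fin r), τ.t (∑ i ∈ s, star (y i) • b i) = ∑ i ∈ s, y i • τ.t (b i) := by
    intro s
    induction s using Finset.induction_on with
    | empty => rw [Finset.sum_empty, Finset.sum_empty, wrbasic_tau_zero]
    | insert a s ha ih =>
      rw [Finset.sum_insert ha, Finset.sum_insert ha, τ.add, τ.smul, star_star, ih]
  exact (h1 _).symm

private theorem wrbasic_ip_sub_left (B : SkewH E V) (a b w : V) :
    B.ip (a - b) w = B.ip a w - B.ip b w := by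
  have h := B.smul_left (-1) b w
  rw [neg_smul, one_smul] at h
  rw [sub_eq_add_neg, B.add_left, h]
  ring

private theorem wrbasic_ip_sub_right (B : SkewH E V) (a b w : V) :
    B.ip w (a - b) = B.ip w a - B.ip w b := by
  have h := B.smul_right (-1) w b
  rw [neg_smul, one_smul, star_neg, star_one] at h
  rw [sub_eq_add_neg, B.add_right, h]
  ring

/-- the Wall form of `τ h⁻¹ τ` -/
private theorem wrbasic_basis {B : SkewH E V} (τ : AntiU B) (h : UU B) {r : ℕ} (b : Fin r → V)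
    (hb : IsRBasis h.1 b) : IsRBasis (tauU τ h)⁻¹.1 (fun i => τ.t (b i)) ∧
      (wallM B (tauU τ h)⁻¹.1 (fun i => τ.t (b i))).det = (wallM B h.1 b).det := by
  classical
  have him : ∀ x, h.1⁻¹.1 (h.1.1 x) = x := fun x =>
    congrArg (fun f : Module.End E V => f x) h.1.inv_mul
  have hmi : ∀ x, h.1.1 (h.1⁻¹.1 x) = x := fun x =>
    congrArg (fun f : Module.End E V => f x) h.1.mul_inv
  have hkinv : ∀ v, (tauU τ h)⁻¹.1.1 v = τ.t (h.1⁻¹.1 (τ.t v)) := fun v => rfl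
  have hmem : ∀ i, b i ∈ LinearMap.range (h.1.1 - 1) := fun i => by
    rw [← hb.2]
    exact Submodule.subset_span ⟨i, rfl⟩
  choose a ha using fun i => (show ∃ a, h.1.1 a - a = b i from hmem i)
  have key : ∀ u a : V, h.1.1 a - a = u →
      (tauU τ h)⁻¹.1.1 (τ.t (-(h.1.1 a))) - τ.t (-(h.1.1 a)) = τ.t u := by
    intro u a hu
    rw [hkinv, τ.inv, map_neg, him, ← wrbasic_tau_sub, ← hu]
    congr 1
    abel
  have hrange : ∀ y, y ∈ LinearMap.range ((tauU τ h)⁻¹.1.1 - 1) ↔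
      τ.t y ∈ LinearMap.range (h.1.1 - 1) := by
    intro y
    constructor
    · rintro ⟨c, rfl⟩
      refine ⟨-(h.1⁻¹.1 (τ.t c)), ?_⟩
      show h.1.1 (-(h.1⁻¹.1 (τ.t c))) - -(h.1⁻¹.1 (τ.t c)) =
        τ.t ((tauU τ h)⁻¹.1.1 c - c)
      rw [hkinv, wrbasic_tau_sub, τ.inv, map_neg, hmi]
      abel
    · rintro ⟨c, hc⟩
      have h1 := key (τ.t y) c hc
      rw [τ.inv] at h1
      exact ⟨_, h1⟩
  refine ⟨⟨?_, ?_⟩, ?_⟩
  · rw [Fintype.linearIndependent_iff]
    intro y hy i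
    rw [wrbasic_sum_tau] at hy
    have h1 : ∑ i, star (y i) • b i = 0 := by
      rw [← τ.inv (∑ i, star (y i) • b i), hy, wrbasic_tau_zero]
    have h2 := Fintype.linearIndependent_iff.1 hb.1 (fun i => star (y i)) h1 i
    rw [← star_star (y i)]
    have h3 : star (y i) = 0 := h2
    rw [h3, star_zero]
  · ext y
    rw [hrange, ← hb.2, Submodule.mem_span_range_iff_exists_fun,
      Submodule.mem_span_range_iff_exists_fun]
    constructor
    · rintro ⟨c, hc⟩
      refine ⟨fun i => star (c i), ?_⟩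
      rw [← hc, wrbasic_sum_tau, τ.inv]
    · rintro ⟨c, hc⟩
      refine ⟨fun i => star (c i), ?_⟩
      rw [wrbasic_sum_tau]
      simp only [star_star]
      rw [hc, τ.inv]
  · have hM : wallM B (tauU τ h)⁻¹.1 (fun i => τ.t (b i)) = (wallM B h.1 b).transpose := by
      ext i j
      show wall B (tauU τ h)⁻¹.1 (τ.t (b i)) (τ.t (b j)) = wall B h.1 (b j) (b i)
      rw [wall_eq (tauU τ h)⁻¹ (key (b i) (a i) (ha i)) ((hrange _).2 (by
        rw [τ.inv]
        exact hmem j)), wall_eq h (ha j) (hmem i), τ.ip, ← ha i, ← ha j]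
      have h1 := h.2 (a j) (a i)
      have h2 : B.ip (h.1.1 (a j) - a j) (-(h.1.1 (a i))) =
          -(B.ip (h.1.1 (a j) - a j) (h.1.1 (a i))) := by
        have := B.smul_right (-1) (h.1.1 (a j) - a j) (h.1.1 (a i))
        rw [neg_smul, one_smul, star_neg, star_one] at this
        rw [this]
        ring
      rw [h2, wrbasic_ip_sub_left, wrbasic_ip_sub_right, h1]
      ring
    rw [hM, Matrix.det_transpose]

private theorem wrbasic_const {B : SkewH E V} {p : PChar F} (W : WeilRep B p) (τ : AntiU B)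
    (h : UU B) (c : ℂ) (hc : ∀ f, tneg F τ (W.l h f) = c • W.r (tauU τ h) (tneg F τ f)) :
    c = 1 := by
  classical
  haveI := lc_V E V
  haveI := td_V F E V
  haveI : TotallyDisconnectedSpace E := td_E F
  haveI : FiniteDimensional F E := qext_findim F E
  obtain ⟨r, b, hb⟩ := rbasis_exists h
  obtain ⟨hb', hdet⟩ := wrbasic_basis τ h b hb
  obtain ⟨d, hd, hl⟩ := wrbasic_l W h b hb
  obtain ⟨d', hd', hl'⟩ := wrbasic_l W (tauU τ h)⁻¹ _ hb'
  have hdd : d' = d := Units.ext (by rw [hd', hd, hdet])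
  subst hdd
  obtain ⟨W1, hW1o, hW10, hW1⟩ := wrbasic_mop0 B p h b hb
  obtain ⟨W2, hW2o, hW20, hW2⟩ := wrbasic_mop0 B p (tauU τ h)⁻¹ _ hb'
  have him : ∀ x, h.1⁻¹.1 (h.1.1 x) = x := fun x =>
    congrArg (fun f : Module.End E V => f x) h.1.inv_mul
  have hmi : ∀ x, h.1.1 (h.1⁻¹.1 x) = x := fun x =>
    congrArg (fun f : Module.End E V => f x) h.1.mul_inv
  have hcth : Continuous (fun v : V => τ.t (h.1.1 v)) :=
    (continuous_tau F τ).comp (LinearMap.continuous_of_finiteDimensional h.1.1)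
  obtain ⟨N, hNo, hNc, hNs⟩ := exists_co_addSubgroup (W1 ∩ (fun v : V => τ.t (h.1.1 v)) ⁻¹' W2)
    (hW1o.inter (hW2o.preimage hcth)) ⟨hW10, by
      show τ.t (h.1.1 0) ∈ W2
      rw [map_zero, wrbasic_tau_zero]
      exact hW20⟩
  -- the homeomorphism `v ↦ h⁻¹ τ v`
  have hcht : Continuous (fun v : V => h.1⁻¹.1 (τ.t v)) :=
    (LinearMap.continuous_of_finiteDimensional h.1⁻¹.1).comp (continuous_tau F τ)
  set σ : V ≃ₜ V :=
    { toFun := fun v => h.1⁻¹.1 (τ.t v)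
      invFun := fun v => τ.t (h.1.1 v)
      left_inv := fun v => by
        show τ.t (h.1.1 (h.1⁻¹.1 (τ.t v))) = v
        rw [hmi, τ.inv]
      right_inv := fun v => by
        show h.1⁻¹.1 (τ.t (τ.t (h.1.1 v))) = v
        rw [τ.inv, him]
      continuous_toFun := hcht
      continuous_invFun := hcth } with hσ
  have hσx : ∀ v, σ v = h.1⁻¹.1 (τ.t v) := fun v => rfl
  have hK2c : IsCompact (σ ⁻¹' (N : Set V)) := σ.isCompact_preimage.2 hNc
  have hK2o : IsOpen (σ ⁻¹' (N : Set V)) := hNo.preimage σ.continuous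
  have hσneg : ∀ v, σ (-v) = -σ v := by
    intro v
    rw [hσx, hσx, wrbasic_tau_neg, map_neg]
  set f : SF V ℂ := SF.single (N : Set V) hNc hNo (1 : ℂ) with hf
  -- left side
  have hcomb : ∀ b : Fin r → V, Continuous (fun x : Fin r → E => ∑ i, x i • b i) := fun b =>
    wfmdefs_comb b
  have hcl : ∀ {k : UU B} {b : Fin r → V}, IsRBasis k.1 b →
      Topology.IsClosedEmbedding (fun x : Fin r → E => ∑ i, x i • b i) := by
    intro k b hb
    have h1 : Topology.IsClosedEmbedding (Fintype.linearCombination E b) :=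
      LinearMap.isClosedEmbedding_of_injective
        (by
          rw [LinearMap.ker_eq_bot']
          intro x hx
          rw [Fintype.linearCombination_apply] at hx
          exact funext fun i => Fintype.linearIndependent_iff.1 hb.1 x hx i)
    have h2 : (fun x : Fin r → E => ∑ i, x i • b i) = Fintype.linearCombination E b := by
      funext x
      rw [Fintype.linearCombination_apply]
    rw [h2]
    exact h1
  set S1 : Set (Fin r → E) := (fun x : Fin r → E => ∑ i, x i • b i) ⁻¹' (N : Set V) with hS1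
  have hS1c : IsCompact S1 := (hcl hb).isCompact_preimage hNc
  have hS1o : IsOpen S1 := hNo.preimage (hcomb b)
  set S2 : Set (Fin r → E) := (fun x : Fin r → E => ∑ i, x i • τ.t (b i)) ⁻¹'
    (σ ⁻¹' (N : Set V)) with hS2
  have hS2c : IsCompact S2 := (hcl hb').isCompact_preimage hK2c
  have hS2o : IsOpen S2 := hK2o.preimage (hcomb _)
  have m1 : Mop B p h b hb f 0 = vI r (SF.single S1 hS1c hS1o (1 : ℂ)) :=
    hW1 (N : Set V) hNc hNo (fun x hx => (hNs hx).1) (fun x => N.neg_mem_iff) S1 hS1c hS1o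
      (fun x => Iff.rfl)
  have m2 : Mop B p (tauU τ h)⁻¹ _ hb' (SF.single (σ ⁻¹' (N : Set V)) hK2c hK2o (1 : ℂ)) 0 =
      vI r (SF.single S2 hS2c hS2o (1 : ℂ)) := by
    refine hW2 _ hK2c hK2o (fun x hx => ?_) (fun x => ?_) S2 hS2c hS2o (fun x => Iff.rfl)
    · have h1 : τ.t (h.1.1 (σ x)) ∈ W2 := (hNs hx).2
      rw [hσx, hmi, τ.inv] at h1
      exact h1
    · show σ (-x) ∈ (N : Set V) ↔ σ x ∈ (N : Set V)
      rw [hσneg]
      exact N.neg_mem_iff
  -- the volumes agree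
  have hvol : vI r (SF.single S2 hS2c hS2o (1 : ℂ)) = vI r (SF.single S1 hS1c hS1o (1 : ℂ)) := by
    -- the matrix of `h⁻¹`
    have hbi : IsRBasis h.1 (fun i => h⁻¹.1.1 (b i)) := by
      have h1 := rbasis_conjugate h⁻¹ h b hb
      have h2 : h⁻¹ * h * h⁻¹⁻¹ = h := by rw [inv_mul_cancel, one_mul, inv_inv]
      rw [h2] at h1
      exact h1
    obtain ⟨P, hP, hPb⟩ := rbasis_mat h b (fun i => h⁻¹.1.1 (b i)) hb hbi
    have hPu : IsUnit P := (Matrix.isUnit_iff_isUnit_det P).2 (isUnit_iff_ne_zero.2 hP)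
    have hdetP : P.det * star P.det = 1 := by
      have h1 := wall_det_change h b (fun i => h⁻¹.1.1 (b i)) hb P hPb
      have h2 : wallM B h.1 (fun i => h⁻¹.1.1 (b i)) = wallM B h.1 b := by
        ext i j
        show wall B h.1 (h⁻¹.1.1 (b i)) (h⁻¹.1.1 (b j)) = wall B h.1 (b i) (b j)
        have hmem : ∀ i, b i ∈ LinearMap.range (h.1.1 - 1) := fun i => by
          rw [← hb.2]
          exact Submodule.subset_span ⟨i, rfl⟩
        have h3 := wall_conjugate h⁻¹ h (hmem i) (hmem j)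
        have h4 : h⁻¹ * h * h⁻¹⁻¹ = h := by rw [inv_mul_cancel, one_mul, inv_inv]
        rw [h4] at h3
        exact h3
      rw [h2] at h1
      have h3 := wall_det h b hb
      have h4 : (P.det * star P.det) * (wallM B h.1 b).det = 1 * (wallM B h.1 b).det := by
        rw [← h1, one_mul]
      exact mul_right_cancel₀ h3 h4
    have hmod1 : hmod (mulT E P.det hP) = 1 := by
      rw [hmod_mulE F E P.det hP 1 one_ne_zero (by rw [map_one]; exact hdetP)]
      have h1 := hmod_mul (mulT F 1 one_ne_zero) (mulT F 1 one_ne_zero) (mulT F 1 one_ne_zero)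
        (fun x => by
          show (1 : F) * x = 1 * (1 * x)
          rw [one_mul, one_mul])
      have h2 := hmod_pos (mulT F 1 one_ne_zero)
      exact mul_left_cancel₀ h2.ne' (by rw [← h1, mul_one])
    have h1 : vI r (SF.comp (matH P hPu) (SF.single S1 hS1c hS1o (1 : ℂ))) =
        vI r (SF.single S1 hS1c hS1o (1 : ℂ)) := by
      rw [vI_mat F P hPu hP, hmod1, Complex.ofReal_one, one_smul]
    rw [← h1]
    refine vI_star F r _ _ (fun y => ?_)
    show SF.single S2 hS2c hS2o (1 : ℂ) y =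
      SF.single S1 hS1c hS1o (1 : ℂ) (Matrix.vecMul (fun i => star (y i)) P)
    have hiff : y ∈ S2 ↔ Matrix.vecMul (fun i => star (y i)) P ∈ S1 := by
      show σ (∑ i, y i • τ.t (b i)) ∈ (N : Set V) ↔
        ∑ j, (Matrix.vecMul (fun i => star (y i)) P) j • b j ∈ (N : Set V)
      have e1 : ∑ j, (Matrix.vecMul (fun i => star (y i)) P) j • b j =
          h.1⁻¹.1 (∑ i, star (y i) • b i) := by
        have e2 : ∀ j, (Matrix.vecMul (fun i => star (y i)) P) j • b j =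
            ∑ i, (star (y i) * P i j) • b j := by
          intro j
          rw [← Finset.sum_smul]
          rfl
        have e3 : ∀ i, h.1⁻¹.1 (b i) = ∑ j, P i j • b j := hPb
        simp_rw [e2, map_sum, map_smul, e3, Finset.smul_sum, smul_smul]
        rw [Finset.sum_comm]
      rw [e1, wrbasic_sum_tau, hσx, τ.inv]
    by_cases hy : y ∈ S2
    · rw [SF.single_apply_mem _ _ _ _ _ hy, SF.single_apply_mem _ _ _ _ _ (hiff.1 hy)]
    · rw [SF.single_apply_not_mem _ _ _ _ _ hy,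
        SF.single_apply_not_mem _ _ _ _ _ (fun h' => hy (hiff.2 h'))]
  -- evaluation at 0
  have h0 : (tneg F τ (W.l h f)) 0 = W.l h f 0 := by
    show W.l h f (-τ.t 0) = W.l h f 0
    rw [wrbasic_tau_zero, neg_zero]
  have h1 : W.r (tauU τ h) (tneg F τ f) =
      W.l (tauU τ h)⁻¹ (SF.single (σ ⁻¹' (N : Set V)) hK2c hK2o (1 : ℂ)) := by
    rw [wrbasic_r]
    congr 1
    apply SF.ext
    intro v
    show f (-τ.t ((tauU τ h).1⁻¹.1 v)) = _
    have e1 : (tauU τ h).1⁻¹.1 v = τ.t (h.1⁻¹.1 (τ.t v)) := rfl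
    rw [e1, τ.inv, ← hσx]
    by_cases hv : σ v ∈ N
    · rw [hf, SF.single_apply_mem _ _ _ _ _ (N.neg_mem hv)]
      exact (SF.single_apply_mem (σ ⁻¹' (N : Set V)) _ _ _ v hv).symm
    · rw [hf, SF.single_apply_not_mem _ _ _ _ _ (fun h' => hv (N.neg_mem_iff.1 h'))]
      exact (SF.single_apply_not_mem (σ ⁻¹' (N : Set V)) _ _ _ v hv).symm
  have h2 : (tneg F τ (W.l h f)) 0 = (c • W.r (tauU τ h) (tneg F τ f) : SF V ℂ) 0 :=
    congrArg (fun g : SF V ℂ => g 0) (hc f)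
  rw [h0, hl, h1, hl'] at h2
  have h3 : (W.A ^ r * ((W.μ d' : ℂˣ) : ℂ)) * Mop B p h b hb f 0 =
      c * ((W.A ^ r * ((W.μ d' : ℂˣ) : ℂ)) * Mop B p (tauU τ h)⁻¹ _ hb'
        (SF.single (σ ⁻¹' (N : Set V)) hK2c hK2o (1 : ℂ)) 0) := h2
  rw [m1, m2, hvol] at h3
  obtain ⟨m, hm, hv⟩ := vI_pos F r S1 hS1c hS1o ⟨0, by
    show ∑ i, (0 : Fin r → E) i • b i ∈ (N : Set V)
    rw [Finset.sum_eq_zero fun i _ => by rw [Pi.zero_apply, zero_smul]]
    exact N.zero_mem⟩ (W := ℂ)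
  have hm' : (m : ℂ) ≠ 0 := by exact_mod_cast hm.ne'
  rw [hv, smul_eq_mul, mul_one] at h3
  have hA : W.A ^ r * ((W.μ d' : ℂˣ) : ℂ) ≠ 0 :=
    mul_ne_zero (pow_ne_zero r W.A0) (W.μ d').ne_zero
  have h4 : ((W.A ^ r * ((W.μ d' : ℂˣ) : ℂ)) * m) * c =
      ((W.A ^ r * ((W.μ d' : ℂˣ) : ℂ)) * m) * 1 := by
    rw [mul_one, mul_comm _ c]
    exact h3.symm
  exact mul_left_cancel₀ (mul_ne_zero hA hm') h4

theorem tneg_l {B : SkewH E V} {p : PChar F} (W : WeilRep B p) (τ : AntiU B) (h : UU B) :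
    tneg F τ ∘ₗ W.l h = W.r (tauU τ h) ∘ₗ tneg F τ := by
  obtain ⟨c, hc⟩ := wrbasic_prop W τ h
  have hc1 := wrbasic_const W τ h c hc
  apply LinearMap.ext
  intro f
  show tneg F τ (W.l h f) = W.r (tauU τ h) (tneg F τ f)
  rw [hc f, hc1, one_smul]

theorem tneg_r {B : SkewH E V} {p : PChar F} (W : WeilRep B p) (τ : AntiU B) (h : UU B) :
    tneg F τ ∘ₗ W.r h = W.l (tauU τ h) ∘ₗ tneg F τ := by
  apply LinearMap.ext
  intro f
  show tneg F τ (W.r h f) = W.l (tauU τ h) (tneg F τ f)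
  have h1 : tneg F τ (W.l (tauU τ h) (tneg F τ f)) =
      W.r (tauU τ (tauU τ h)) (tneg F τ (tneg F τ f)) :=
    congrArg (fun T : SF V ℂ →ₗ[ℂ] SF V ℂ => T (tneg F τ f)) (tneg_l W τ (tauU τ h))
  rw [tauU_tauU, tneg_tneg] at h1
  rw [← h1, tneg_tneg]

theorem l_of_formula {B : SkewH E V} {p : PChar F} (W W' : WeilRep B p) (hA : W.A = W'.A)
    (hμ : W.μ = W'.μ) : W.l = W'.l := by
  apply MonoidHom.ext
  intro h
  obtain ⟨r, b, hb⟩ := rbasis_exists h
  obtain ⟨d, hd, hl⟩ := wrbasic_l W h b hb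
  obtain ⟨d', hd', hl'⟩ := wrbasic_l W' h b hb
  have hdd : d = d' := Units.ext (hd.trans hd'.symm)
  apply LinearMap.ext
  intro f
  rw [hl, hl', hdd, hA, hμ]

end

end Pool.Agent.Work.MP_dd0ddf_al.OC
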