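import Pool.Agent.Work.MP_dd0ddf_al.OC.K64
import Pool.Agent.Work.MP_dd0ddf_al.OC.WrBasic
import Pool.Agent.Work.MP_dd0ddf_al.OC.HmodDil

/-!
# MP_dd0ddf_al, module KWeil: restriction of the Weil representation to L-linear isometries (6.5)

`resG g`: an L-linear automorphism regarded as E-linear.  `resU`: L-linear isometries for `BL` are isometries of `B` (trace).
`weil_K`: define `WL.l h = W.l (resU h)`, `WL.A = W.A^d μ(D) m`, `WL.μ = W.μ ∘ N_{L/E}` (d = [L:E], D ∈ F^× and m > 0 below).
`om K BL v w = Tr_{L/K} BL.ip v w`, and `(p.ext K).ψ (2⁻¹ om K BL v w) = p.ψ (2⁻¹ Tr_{K/F} Tr_{L/K} BL.ip v w) = p.ψ(2⁻¹ om F B v w)` (kc_trace): so the Weyl operators coincide: L_comm, R_comm.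
formula: `h : UU BL`, `b` an L-basis of `R_h` (r elements); E-basis `c'_j b_i` (kc_basis, d r elements); `W_h = Tr_{L/E} W^L_h` (⟨a,y⟩ = Tr BL.ip a y); so the E-Gram determinant is `N_{L/E}(det wallM^L) D^r`
(as in disc_transfer, for sesquilinear forms) and the integral over `E^{dr}` is `m^r` times the integral over `L^r` (Haar measures on L ≅ E^d).
`l h = A^{dr} μ(N(det) D^r) ∫_{E^{dr}} = (A^d μ(D) m)^r μ_K(det) ∫_{L^r}`.
`A4`: `μ(D)` is real (μ_norm, μ_non).  `μ_norm, μ_non`: for `c ∈ K^×`: `μ(N_{L/E} c) = μ(N_{K/F} c)`, sign by `norm64`.  `μ_lc`: norm is continuous.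
-/

set_option linter.unusedSectionVars false
set_option linter.style.haveILetI false

namespace Pool.Agent.Work.MP_dd0ddf_al.OC

noncomputable section

universe u

variable {F E : Type u} [NontriviallyNormedField F] [IsUltrametricDist F] [ProperSpace F]
  [NeZero (2 : F)] [NontriviallyNormedField E] [NormedAlgebra F E] [ProperSpace E] [StarRing E]
  [QExt F E] [MeasurableSpace E] [BorelSpace E]
variable {K L : Type u} [NontriviallyNormedField K] [IsUltrametricDist K] [ProperSpace K]
  [NeZero (2 : K)] [NontriviallyNormedField L] [NormedAlgebra K L] [ProperSpace L] [StarRing L]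
  [QExt K L] [MeasurableSpace L] [BorelSpace L] [NormedAlgebra F K] [NormedAlgebra E L]
  [Algebra F L] [KCompat F E K L]
variable {V : Type u} [AddCommGroup V] [Module E V] [Module L V] [IsScalarTower E L V]
  [Module.Finite E V] [Module.Finite L V] [TopologicalSpace V]
  [IsTopologicalAddGroup V] [T2Space V] [ContinuousSMul E V] [ContinuousSMul L V]

/-- an `L`-linear automorphism as an `E`-linear one -/
def resG (E : Type u) {L V : Type u} [Field E] [Field L] [Algebra E L] [AddCommGroup V]
    [Module E V] [Module L V] [IsScalarTower E L V] : GV L V →* GV E V :=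
  Units.map
    { toFun := fun f : Module.End L V => (f.restrictScalars E : Module.End E V)
      map_one' := rfl
      map_mul' := fun _ _ => rfl }

theorem resG_apply {E L V : Type u} [Field E] [Field L] [Algebra E L] [AddCommGroup V]
    [Module E V] [Module L V] [IsScalarTower E L V] (g : GV L V) (v : V) :
    (resG E g).1 v = g.1 v := rfl

/-- isometries of `BL` as isometries of `B` -/
def resU {B : SkewH E V} {BL : SkewH L V}
    (h : ∀ v w, tl F E K L (BL.ip v w) = B.ip v w) : UU BL →* UU B where
  toFun g := ⟨resG E g.1, fun v w => by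
    show B.ip (g.1.1 v) (g.1.1 w) = B.ip v w
    rw [← h, ← h, g.2]⟩
  map_one' := rfl
  map_mul' _ _ := rfl

variable (F E K L) in
include F K in
private theorem kweil_fdE : FiniteDimensional E L := by
  haveI : FiniteDimensional F K := KCompat.fd (F := F) (E := E) (K := K) (L := L)
  apply FiniteDimensional.of_finrank_pos
  rw [← KCompat.deg (F := F) (E := E) (K := K) (L := L)]
  exact Module.finrank_pos

/-! ### measures -/

section meas

open MeasureTheory

variable {E L : Type u} [NontriviallyNormedField E] [ProperSpace E] [MeasurableSpace E]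
  [BorelSpace E] [NontriviallyNormedField L] [ProperSpace L] [MeasurableSpace L] [BorelSpace L]
  [NormedAlgebra E L] [FiniteDimensional E L] {d : ℕ}

/-- coordinates on `L^r` -/
private def kweilPhi (c : Module.Basis (Fin d) E L) (r : ℕ) :
    (Fin r → L) ≃ₗ[E] (Fin (r * d) → E) where
  toFun x I := c.repr (x (finProdFinEquiv.symm I).1) (finProdFinEquiv.symm I).2
  invFun y i := ∑ j, y (finProdFinEquiv (i, j)) • c j
  map_add' x y := by
    funext I
    show c.repr (x _ + y _) _ = _
    rw [map_add]
    rfl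
  map_smul' a x := by
    funext I
    show c.repr (a • x _) _ = _
    rw [map_smul]
    rfl
  left_inv x := by
    funext i
    show ∑ j, c.repr (x (finProdFinEquiv.symm (finProdFinEquiv (i, j))).1)
      (finProdFinEquiv.symm (finProdFinEquiv (i, j))).2 • c j = x i
    simp only [Equiv.symm_apply_apply]
    exact c.sum_repr (x i)
  right_inv y := by
    funext I
    show c.repr (∑ j, y (finProdFinEquiv ((finProdFinEquiv.symm I).1, j)) • c j)
      (finProdFinEquiv.symm I).2 = y I
    rw [c.repr_sum_self]
    show y (finProdFinEquiv ((finProdFinEquiv.symm I).1, (finProdFinEquiv.symm I).2)) = y I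
    rw [Prod.mk.eta, Equiv.apply_symm_apply]

private theorem kweil_phi_apply (c : Module.Basis (Fin d) E L) (r : ℕ) (x : Fin r → L)
    (i : Fin r) (j : Fin d) : kweilPhi c r x (finProdFinEquiv (i, j)) = c.repr (x i) j := by
  show c.repr (x (finProdFinEquiv.symm (finProdFinEquiv (i, j))).1)
      (finProdFinEquiv.symm (finProdFinEquiv (i, j))).2 = _
  rw [Equiv.symm_apply_apply]

private theorem kweil_meas (c : Module.Basis (Fin d) E L) : ∃ m : ℝ, 0 < m ∧
    ∀ (r : ℕ) (g : (Fin (r * d) → E) → ℂ),
      ∫ y, g y ∂(Measure.pi fun _ => (Measure.addHaar : Measure E)) =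
        (m : ℂ) ^ r * ∫ x, g (kweilPhi c r x)
          ∂(Measure.pi fun _ : Fin r => (Measure.addHaar : Measure L)) := by
  set K0 : Set E := Metric.closedBall 0 1 with hK0
  have hK0c : IsCompact K0 := isCompact_closedBall _ _
  let e : L ≃L[E] (Fin d → E) := c.equivFun.toContinuousLinearEquiv
  set K : Set L := e ⁻¹' (Set.pi Set.univ fun _ => K0) with hK
  have hKc : IsCompact K := e.toHomeomorph.isCompact_preimage.2 (isCompact_univ_pi fun _ => hK0c)
  have hball : Metric.ball (0 : E) 1 ⊆ K0 := Metric.ball_subset_closedBall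
  have a0pos : 0 < (Measure.addHaar : Measure E) K0 :=
    lt_of_lt_of_le (Metric.measure_ball_pos _ _ one_pos) (measure_mono hball)
  have a0fin : (Measure.addHaar : Measure E) K0 < ⊤ := hK0c.measure_lt_top
  have a1fin : (Measure.addHaar : Measure L) K < ⊤ := hKc.measure_lt_top
  have a1pos : 0 < (Measure.addHaar : Measure L) K := by
    have h1 : IsOpen (e ⁻¹' (Set.pi Set.univ fun _ => Metric.ball (0 : E) 1)) :=
      (isOpen_set_pi Set.finite_univ fun _ _ => Metric.isOpen_ball).preimage e.continuous
    refine lt_of_lt_of_le (h1.measure_pos _ ⟨0, ?_⟩) (measure_mono ?_)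
    · intro j _
      rw [map_zero]
      exact Metric.mem_ball_self one_pos
    · intro x hx j hj
      exact hball (hx j hj)
  set a0 : ℝ := ((Measure.addHaar : Measure E) K0).toReal with ha0
  set a1 : ℝ := ((Measure.addHaar : Measure L) K).toReal with ha1
  have ha0p : 0 < a0 := ENNReal.toReal_pos a0pos.ne' a0fin.ne
  have ha1p : 0 < a1 := ENNReal.toReal_pos a1pos.ne' a1fin.ne
  refine ⟨a0 ^ d / a1, div_pos (pow_pos ha0p d) ha1p, fun r g => ?_⟩
  let φ : (Fin r → L) ≃L[E] (Fin (r * d) → E) := (kweilPhi c r).toContinuousLinearEquiv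
  set μL : Measure (Fin r → L) := Measure.pi fun _ : Fin r => (Measure.addHaar : Measure L)
    with hμL
  set μE : Measure (Fin (r * d) → E) := Measure.pi fun _ => (Measure.addHaar : Measure E)
    with hμE
  obtain ⟨t, ht⟩ : ∃ t : NNReal, μL.map φ = t • μE :=
    ⟨_, Measure.isAddLeftInvariant_eq_smul (μL.map φ) μE⟩
  have hemb : MeasurableEmbedding φ := φ.toHomeomorph.measurableEmbedding
  have e1 : ∫ x, g (φ x) ∂μL = ((t : ℝ) : ℂ) * ∫ y, g y ∂μE := by
    rw [← hemb.integral_map, ht, integral_smul_nnreal_measure]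
    rfl
  -- the constant
  have e2 : (μL.map φ) (Set.pi Set.univ fun _ => K0) = (Measure.addHaar : Measure L) K ^ r := by
    rw [hemb.map_apply]
    have h1 : φ ⁻¹' (Set.pi Set.univ fun _ => K0) = Set.pi Set.univ fun _ : Fin r => K := by
      ext x
      constructor
      · intro hx i _ j _
        have h2 := hx (finProdFinEquiv (i, j)) (Set.mem_univ _)
        have h3 : φ x (finProdFinEquiv (i, j)) = c.repr (x i) j := kweil_phi_apply c r x i j
        rw [h3] at h2
        exact h2
      · intro hx I _
        have h2 := hx (finProdFinEquiv.symm I).1 (Set.mem_univ _) (finProdFinEquiv.symm I).2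
          (Set.mem_univ _)
        exact h2
    rw [h1, hμL, Measure.pi_pi, Finset.prod_const, Finset.card_univ, Fintype.card_fin]
  have e3 : μE (Set.pi Set.univ fun _ => K0) = (Measure.addHaar : Measure E) K0 ^ (r * d) := by
    rw [hμE, Measure.pi_pi, Finset.prod_const, Finset.card_univ, Fintype.card_fin]
  have e4 : a1 ^ r = (t : ℝ) * a0 ^ (r * d) := by
    have h1 := congrArg ENNReal.toReal e2
    rw [ht, Measure.smul_apply, e3, ENNReal.smul_def, smul_eq_mul, ENNReal.toReal_mul,
      ENNReal.toReal_pow, ENNReal.toReal_pow] at h1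
    exact h1.symm
  have e5 : ((a0 ^ d / a1 : ℝ) : ℂ) ^ r * ((t : ℝ) : ℂ) = 1 := by
    rw [← Complex.ofReal_pow, ← Complex.ofReal_mul]
    have h1 : (a0 ^ d / a1) ^ r * (t : ℝ) = 1 := by
      rw [div_pow, ← pow_mul, mul_comm d r]
      rw [div_mul_eq_mul_div, div_eq_one_iff_eq (pow_pos ha1p r).ne', e4]
      ring
    rw [h1, Complex.ofReal_one]
  show _ = ((a0 ^ d / a1 : ℝ) : ℂ) ^ r * ∫ x, g (φ x) ∂μL
  rw [e1, ← mul_assoc, e5, one_mul]

end meas

variable (F E K L) in
private theorem kweil_alg (f : F) : algebraMap E L (algebraMap F E f) =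
    algebraMap K L (algebraMap F K f) := by
  haveI := KCompat.tower1 (F := F) (E := E) (K := K) (L := L)
  haveI := KCompat.tower2 (F := F) (E := E) (K := K) (L := L)
  rw [← IsScalarTower.algebraMap_apply F E L, ← IsScalarTower.algebraMap_apply F K L]

/-- the determinant of the matrix `Tr(M_{ik} c_j c_l)` -/
private theorem kweil_det [FiniteDimensional F K] (c : Module.Basis (Fin (Module.finrank F K)) F K)
    (c' : Module.Basis (Fin (Module.finrank F K)) E L) (hc' : ∀ i, c' i = algebraMap K L (c i))
    {r : ℕ} (M : Matrix (Fin r) (Fin r) L)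
    (N : Matrix (Fin (r * Module.finrank F K)) (Fin (r * Module.finrank F K)) E)
    (hN : ∀ i j k l, N (finProdFinEquiv (i, j)) (finProdFinEquiv (k, l)) =
      tl F E K L (c' j * c' l * M i k)) :
    N.det = algebraMap F E ((tkMatrix F c).det) ^ r * Algebra.norm E M.det := by
  classical
  set T0 : Matrix (Fin (Module.finrank F K)) (Fin (Module.finrank F K)) E :=
    (tkMatrix F c).map (algebraMap F E) with hT0
  set f : L →+* Matrix (Fin (Module.finrank F K)) (Fin (Module.finrank F K)) E :=
    (Algebra.leftMulMatrix c').toRingHom with hf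
  have h2 : N.submatrix finProdFinEquiv finProdFinEquiv =
      Matrix.kroneckerMap (· * ·) (1 : Matrix (Fin r) (Fin r) E) T0 *
      (M.map f).comp (Fin r) (Fin r) (Fin (Module.finrank F K))
        (Fin (Module.finrank F K)) E := by
    ext ⟨i, j⟩ ⟨k, l⟩
    rw [Matrix.mul_apply, Fintype.sum_prod_type, Finset.sum_eq_single i]
    · show N (finProdFinEquiv (i, j)) (finProdFinEquiv (k, l)) =
        ∑ m, (1 : Matrix (Fin r) (Fin r) E) i i * T0 j m *
        (Algebra.leftMulMatrix c' (M i k)) m l
      rw [hN]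
      have h3 : M i k * c' l = ∑ m, (Algebra.leftMulMatrix c' (M i k)) m l • c' m := by
        conv_lhs => rw [← c'.sum_repr (M i k * c' l)]
        refine Finset.sum_congr rfl fun m _ => ?_
        rw [Algebra.leftMulMatrix_eq_repr_mul]
      rw [mul_assoc, mul_comm (c' l), h3, Finset.mul_sum, map_sum]
      refine Finset.sum_congr rfl fun m _ => ?_
      rw [mul_smul_comm, map_smul, Matrix.one_apply_eq, one_mul, smul_eq_mul, mul_comm (T0 j m)]
      congr 1
      rw [hc', hc', ← map_mul, tl_K]
      rfl
    · intro i' _ hi'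
      refine Finset.sum_eq_zero fun m _ => ?_
      rw [Matrix.kroneckerMap_apply, Matrix.one_apply_ne (Ne.symm hi'), zero_mul, zero_mul]
    · intro hi
      exact absurd (Finset.mem_univ i) hi
  rw [← Matrix.det_submatrix_equiv_self finProdFinEquiv N, h2, Matrix.det_mul,
    Matrix.det_kronecker, Matrix.det_one, one_pow, one_mul, ← Matrix.det_det]
  congr 1
  · rw [hT0, Fintype.card_fin, RingHom.map_det]
    rfl
  · rw [Algebra.norm_eq_matrix_det c']
    rfl

/-- the Wall form of `resU h` -/
private theorem kweil_wall {B : SkewH E V} {BL : SkewH L V}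
    (h : ∀ v w, tl F E K L (BL.ip v w) = B.ip v w) (g : UU BL) {x y : V}
    (hx : x ∈ LinearMap.range (g.1.1 - 1)) (hy : y ∈ LinearMap.range (g.1.1 - 1)) :
    wall B (resU h g).1 x y = tl F E K L (wall BL g.1 x y) := by
  obtain ⟨a, ha⟩ := hx
  have ha' : g.1.1 a - a = x := ha
  rw [wall_eq g ha' hy, h]
  refine wall_eq (resU h g) ha' ?_
  obtain ⟨b, hb⟩ := hy
  exact ⟨b, hb⟩

variable (K) in
private theorem kweil_half [FiniteDimensional F K] (y : K) :
    tk F K (2⁻¹ * y) = 2⁻¹ * tk F K y := by
  have h1 : (2⁻¹ : K) * y = (2⁻¹ : F) • y := by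
    rw [Algebra.smul_def, map_inv₀, map_ofNat]
  rw [h1, map_smul, smul_eq_mul]

private theorem kweil_psi [FiniteDimensional F K] (p : PChar F) (t : L) :
    (p.ext K).ψ (2⁻¹ * Algebra.trace K L t) =
      p.ψ (2⁻¹ * Algebra.trace F E (tl F E K L t)) := by
  show p.ψ (tk F K (2⁻¹ * Algebra.trace K L t)) = _
  rw [kweil_half, kc_trace (F := F) (E := E)]

private theorem kweil_L [FiniteDimensional F K] {B : SkewH E V} (p : PChar F) {BL : SkewH L V}
    (h : ∀ v w, tl F E K L (BL.ip v w) = B.ip v w) (x : V) :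
    Lop BL (p.ext K) x = Lop B p x := by
  apply LinearMap.ext
  intro f
  apply SF.ext
  intro v
  show (p.ext K).ψ (2⁻¹ * Algebra.trace K L (BL.ip x v)) * f (v - x) =
    p.ψ (2⁻¹ * Algebra.trace F E (B.ip x v)) * f (v - x)
  rw [kweil_psi (E := E), h]

private theorem kweil_R [FiniteDimensional F K] {B : SkewH E V} (p : PChar F) {BL : SkewH L V}
    (h : ∀ v w, tl F E K L (BL.ip v w) = B.ip v w) (x : V) :
    Rop BL (p.ext K) x = Rop B p x := by
  apply LinearMap.ext
  intro f
  apply SF.ext
  intro v
  show (p.ext K).ψ (2⁻¹ * Algebra.trace K L (BL.ip v x)) * f (v - x) =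
    p.ψ (2⁻¹ * Algebra.trace F E (B.ip v x)) * f (v - x)
  rw [kweil_psi (E := E), h]

/-- the basis over `E` -/
private def kweilB {d r : ℕ} (c' : Module.Basis (Fin d) E L) (b : Fin r → V) :
    Fin (r * d) → V :=
  fun I => c' (finProdFinEquiv.symm I).2 • b (finProdFinEquiv.symm I).1

private theorem kweil_sum {d r : ℕ} (c' : Module.Basis (Fin d) E L) (b : Fin r → V)
    (x : Fin r → L) : ∑ I, kweilPhi c' r x I • kweilB c' b I = ∑ i, x i • b i := by
  haveI : FiniteDimensional E L := Module.Finite.of_basis c'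
  rw [← finProdFinEquiv.sum_comp, Fintype.sum_prod_type]
  refine Finset.sum_congr rfl fun i _ => ?_
  have h1 : ∀ j, kweilPhi c' r x (finProdFinEquiv (i, j)) • kweilB c' b (finProdFinEquiv (i, j)) =
      (c'.repr (x i) j • c' j) • b i := by
    intro j
    rw [kweil_phi_apply, smul_assoc]
    unfold kweilB
    rw [Equiv.symm_apply_apply]
  rw [Finset.sum_congr rfl fun j _ => h1 j, ← Finset.sum_smul, c'.sum_repr]

private theorem kweil_basis {d r : ℕ} {B : SkewH E V} {BL : SkewH L V}
    (h : ∀ v w, tl F E K L (BL.ip v w) = B.ip v w)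
    (c' : Module.Basis (Fin d) E L) (g : UU BL) (b : Fin r → V) (hb : IsRBasis g.1 b) :
    IsRBasis (resU h g).1 (kweilB c' b) := by
  constructor
  · rw [Fintype.linearIndependent_iff]
    intro y hy I
    have h1 : y = kweilPhi c' r ((kweilPhi c' r).symm y) := ((kweilPhi c' r).apply_symm_apply y).symm
    have h2 : ∑ i, (kweilPhi c' r).symm y i • b i = 0 := by
      rw [← kweil_sum c' b, ← h1]
      exact hy
    have h3 := Fintype.linearIndependent_iff.1 hb.1 _ h2
    have h4 : (kweilPhi c' r).symm y = 0 := funext h3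
    rw [h1, h4, map_zero]
    rfl
  · apply le_antisymm
    · rw [Submodule.span_le]
      rintro _ ⟨I, rfl⟩
      have h1 : b (finProdFinEquiv.symm I).1 ∈ LinearMap.range (g.1.1 - 1) := by
        rw [← hb.2]
        exact Submodule.subset_span ⟨_, rfl⟩
      obtain ⟨a, ha⟩ := h1
      refine ⟨c' (finProdFinEquiv.symm I).2 • a, ?_⟩
      show (g.1.1 - 1) (c' (finProdFinEquiv.symm I).2 • a) = _
      rw [map_smul, ha]
      rfl
    · rintro _ ⟨a, rfl⟩
      have h1 : (g.1.1 - 1) a ∈ Submodule.span L (Set.range b) := by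
        rw [hb.2]
        exact ⟨a, rfl⟩
      obtain ⟨x, hx⟩ := (Submodule.mem_span_range_iff_exists_fun L).1 h1
      rw [← kweil_sum c' b] at hx
      show (g.1.1 - 1) a ∈ _
      rw [← hx]
      exact Submodule.sum_mem _ fun I _ => Submodule.smul_mem _ _ (Submodule.subset_span ⟨I, rfl⟩)

variable (K L) in
/-- the constants of the restricted Weil representation depend only on the fields and on the
constants of the given one -/
theorem weil_K_const (p : PChar F) [FiniteDimensional F K] (A : ℂ) (μ : Eˣ →* ℂˣ) :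
    ∃ A1 : ℂ, ∀ (V : Type u) [AddCommGroup V] [Module E V] [Module L V] [IsScalarTower E L V]
      [Module.Finite E V] [Module.Finite L V] [TopologicalSpace V] [IsTopologicalAddGroup V]
      [T2Space V] [ContinuousSMul E V] [ContinuousSMul L V] (B : SkewH E V) (W : WeilRep B p)
      (BL : SkewH L V) (h : ∀ v w, tl F E K L (BL.ip v w) = B.ip v w),
      W.A = A → W.μ = μ → ∃ WL : WeilRep BL (p.ext K), WL.A = A1 ∧
        (∀ x : Lˣ, WL.μ x = μ (Units.map (Algebra.norm E : L →* E) x)) ∧
        (∀ g : UU BL, WL.l g = W.l (resU h g)) ∧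
        ∀ g : UU BL, WL.r g = W.r (resU h g) := by
  classical
  haveI := kweil_fdE F E K L
  let c := Module.finBasis F K
  obtain ⟨c', hc'⟩ := kc_basis (E := E) (L := L) c
  have hstar : ∀ i, star (c' i) = c' i := fun i => by
    rw [hc', QExt.star_alg (F := K) (E := L)]
  obtain ⟨m, hm, hmeas⟩ := kweil_meas c'
  have hD : (tkMatrix F c).det ≠ 0 := tkMatrix_det_ne c
  let D : Fˣ := Units.mk0 _ hD
  let DE : Eˣ := Units.map (algebraMap F E).toMonoidHom D
  refine ⟨A ^ Module.finrank F K * ((μ DE : ℂˣ) : ℂ) * m, ?_⟩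
  intro V _ _ _ _ _ _ _ _ _ _ _ B W BL h hWA hWμ
  subst hWA
  subst hWμ
  obtain ⟨ρ, hρ0, hρ⟩ : ∃ ρ : ℝ, ρ ≠ 0 ∧ ((W.μ DE : ℂˣ) : ℂ) = ρ := by
    by_cases hDn : IsNorm F E (D : F)
    · obtain ⟨r, hr, h1⟩ := W.μ_norm D hDn
      exact ⟨r, hr.ne', h1⟩
    · obtain ⟨r, hr, h1⟩ := W.μ_non D hDn
      exact ⟨-r, neg_ne_zero.2 hr.ne', by rw [h1, Complex.ofReal_neg]⟩
  have hmC : (m : ℂ) ≠ 0 := by
    rw [Ne, Complex.ofReal_eq_zero]
    exact hm.ne'
  have hνK : ∀ x : Kˣ, Units.map (Algebra.norm E : L →* E)
      (Units.map (algebraMap K L).toMonoidHom x) = Units.map (algebraMap F E).toMonoidHom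
        (Units.map (Algebra.norm F : K →* F) x) := fun x =>
    Units.ext (kc_norm_K (F := F) (E := E) (L := L) (x : K))
  have hcn : Continuous (Algebra.norm E : L → E) := by
    have h1 : (Algebra.norm E : L → E) = fun x => (Algebra.leftMulMatrix c' x).det := by
      funext x
      exact Algebra.norm_eq_matrix_det c' x
    rw [h1]
    exact ((Algebra.leftMulMatrix c').toLinearMap.continuous_of_finiteDimensional).matrix_det
  let WL : WeilRep BL (p.ext K) :=
    { l := W.l.comp (resU h)
      A := W.A ^ Module.finrank F K * ((W.μ DE : ℂˣ) : ℂ) * m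
      A0 := mul_ne_zero (mul_ne_zero (pow_ne_zero _ W.A0) (Units.ne_zero _)) hmC
      A4 := by
        obtain ⟨a, ha, ha4⟩ := W.A4
        refine ⟨a ^ Module.finrank F K * ρ ^ 4 * m ^ 4, by positivity, ?_⟩
        rw [hρ, mul_pow, mul_pow, ← pow_mul, mul_comm (Module.finrank F K) 4, pow_mul, ha4]
        push_cast
        ring
      μ := W.μ.comp (Units.map (Algebra.norm E : L →* E))
      μ_norm := by
        intro x hx
        rw [MonoidHom.comp_apply, hνK]
        exact W.μ_norm _ ((norm64 (F := F) (E := E) (L := L) (x : K) x.ne_zero).1 hx)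
      μ_non := by
        intro x hx
        rw [MonoidHom.comp_apply, hνK]
        exact W.μ_non _ fun h1 => hx
          ((norm64 (F := F) (E := E) (L := L) (x : K) x.ne_zero).2 h1)
      μ_lc := W.μ_lc.comp_continuous (Continuous.units_map _ hcn)
      smooth := by
        intro f
        obtain ⟨U, hU, hU1, hUf⟩ := W.smooth f
        have hc : Continuous (fun g : Module.End L V => (g.restrictScalars E : Module.End E V)) :=
          continuous_induced_rng.mpr continuous_induced_dom
        exact ⟨_, hU.preimage hc, hU1, fun g hg => hUf (resU h g) hg⟩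
      L_comm := by
        intro g x
        rw [kweil_L p h, kweil_L p h]
        exact W.L_comm (resU h g) x
      R_comm := by
        intro g x
        rw [kweil_R p h]
        exact W.R_comm (resU h g) x
      formula := by
        intro g r b hb
        have hb1 := kweil_basis h c' g b hb
        obtain ⟨dd, hdd, hform⟩ := W.formula (resU h g) _ _ hb1
        have hmem : ∀ i, b i ∈ LinearMap.range (g.1.1 - 1) := fun i => by
          rw [← hb.2]
          exact Submodule.subset_span ⟨i, rfl⟩
        have hdet : (wallM B (resU h g).1 (kweilB c' b)).det =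
            algebraMap F E ((tkMatrix F c).det) ^ r *
              Algebra.norm E (wallM BL g.1 b).det := by
          refine kweil_det c c' hc' _ _ fun i j k l => ?_
          show wall B (resU h g).1 (kweilB c' b (finProdFinEquiv (i, j)))
            (kweilB c' b (finProdFinEquiv (k, l))) = _
          unfold kweilB
          rw [Equiv.symm_apply_apply, Equiv.symm_apply_apply,
            kweil_wall h g (Submodule.smul_mem _ _ (hmem i)) (Submodule.smul_mem _ _ (hmem k)),
            wall_smul_left g _ (hmem i) (Submodule.smul_mem _ _ (hmem k)),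
            wall_smul_right g _ (hmem i) (hmem k), hstar, mul_assoc]
          rfl
        refine ⟨Units.mk0 (wallM BL g.1 b).det (wall_det g b hb), rfl, fun f v => ?_⟩
        have hdd' : dd = DE ^ r * Units.map (Algebra.norm E : L →* E)
            (Units.mk0 (wallM BL g.1 b).det (wall_det g b hb)) := by
          apply Units.ext
          rw [hdd, hdet]
          rfl
        have hint : ∀ x : Fin r → L, p.ψ (2⁻¹ * Algebra.trace F E
            (∑ I, ∑ J, kweilPhi c' r x I * star (kweilPhi c' r x J) *
              wall B (resU h g).1 (kweilB c' b I) (kweilB c' b J))) *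
            Lop B p (∑ I, kweilPhi c' r x I • kweilB c' b I) f v =
            (p.ext K).ψ (2⁻¹ * Algebra.trace K L
              (∑ i, ∑ j, x i * star (x j) * wall BL g.1 (b i) (b j))) *
              Lop BL (p.ext K) (∑ i, x i • b i) f v := by
          intro x
          rw [kweil_psi (E := E), kweil_L p h, kweil_sum]
          congr 4
          have h1 := wfmdefs_wall (resU h g) _ hb1 (kweilPhi c' r x) (kweilPhi c' r x)
          have h2 := wfmdefs_wall g b hb x x
          rw [kweil_sum, kweil_wall h g ?_ ?_, h2] at h1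
          · exact h1.symm
          · exact Submodule.sum_mem _ fun i _ => Submodule.smul_mem _ _ (hmem i)
          · exact Submodule.sum_mem _ fun i _ => Submodule.smul_mem _ _ (hmem i)
        show W.l (resU h g) f v = _
        rw [hform f v, hmeas r, hdd', map_mul, map_pow]
        simp only [hint]
        rw [Units.val_mul, Units.val_pow_eq_pow_val, mul_pow, mul_pow, ← pow_mul,
          mul_comm r (Module.finrank F K)]
        show _ = W.A ^ (Module.finrank F K * r) * _ ^ r * (m : ℂ) ^ r *
          ((W.μ (Units.map (Algebra.norm E : L →* E) _) : ℂˣ) : ℂ) * _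
        ring }
  refine ⟨WL, rfl, fun x => rfl, fun g => rfl, fun g => ?_⟩
  show WL.l g⁻¹ ∘ₗ geo g.1 = W.l (resU h g)⁻¹ ∘ₗ geo (resU h g).1
  rw [← map_inv]
  rfl

theorem weil_K {B : SkewH E V} {p : PChar F} (W : WeilRep B p) {BL : SkewH L V}
    [FiniteDimensional F K]
    (h : ∀ v w, tl F E K L (BL.ip v w) = B.ip v w) :
    ∃ WL : WeilRep BL (p.ext K), (∀ g : UU BL, WL.l g = W.l (resU h g)) ∧
      ∀ g : UU BL, WL.r g = W.r (resU h g) := by
  obtain ⟨A1, h1⟩ := weil_K_const K L p W.A W.μ
  obtain ⟨WL, -, -, h2, h3⟩ := h1 V B W BL h rfl rfl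
  exact ⟨WL, h2, h3⟩

end

end Pool.Agent.Work.MP_dd0ddf_al.OC
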