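import Pool.Agent.Work.MP_dd0ddf_al.OC.KEx
import Pool.Agent.Work.MP_dd0ddf_al.OC.ExtU
import Pool.Agent.Work.MP_dd0ddf_al.OC.CycDefs

/-!
# MP_dd0ddf_al, module LMod: the L-vector space structure given by a root of q in End(V)

`L = E[x]/q` (minL, genL): `x = f(s) ∈ L` acts by `f(X)`: well defined ring homomorphism `L → End_E V` (if `f(s) = 0` then `q ∣ f`, `f(X) = 0`); `Module.compHom`.  Continuity: `L` is finite dimensional over `E`; `(x, v) ↦ x • v` is E-bilinear.
`B.ip (f(X) v) w = B.ip v (fbar(X) w)` (ip_aeval), and `star (f(s)) = fbar(s)` in L (star s = s for s ∈ K, star_comm).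
`finrank_L`: `[V:E] = [V:L] [L:E]`, `[L:E] = [K:F] = deg q`.
-/

set_option linter.unusedSectionVars false
set_option linter.style.haveILetI false

namespace Pool.Agent.Work.MP_dd0ddf_al.OC

noncomputable section

universe u

variable {F E : Type u} [NontriviallyNormedField F] [IsUltrametricDist F] [ProperSpace F]
  [NeZero (2 : F)] [NontriviallyNormedField E] [NormedAlgebra F E] [ProperSpace E] [StarRing E]
  [QExt F E]
variable {V : Type u} [AddCommGroup V] [Module E V] [Module.Finite E V] [TopologicalSpace V]
  [IsTopologicalAddGroup V] [T2Space V] [ContinuousSMul E V]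

private theorem lmod_fd {q : Polynomial F} (D : KData F E q) : FiniteDimensional E D.L := by
  haveI : FiniteDimensional F D.K := KCompat.fd (F := F) (E := E) (K := D.K) (L := D.L)
  apply FiniteDimensional.of_finrank_pos
  rw [← KCompat.deg (F := F) (E := E) (K := D.K) (L := D.L)]
  exact Module.finrank_pos

private theorem lmod_star {q : Polynomial F} (D : KData F E q) (f : Polynomial E) :
    star (Polynomial.aeval (algebraMap D.K D.L D.s) f) =
      Polynomial.aeval (algebraMap D.K D.L D.s) (f.map (starRingEnd E)) := by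
  have hs : star (algebraMap D.K D.L D.s) = algebraMap D.K D.L D.s :=
    QExt.star_alg (F := D.K) (E := D.L) D.s
  induction f using Polynomial.induction_on' with
  | add f g hf hg => rw [map_add, star_add, hf, hg, Polynomial.map_add, map_add]
  | monomial n a =>
    rw [Polynomial.map_monomial, Polynomial.aeval_monomial, Polynomial.aeval_monomial,
      star_mul', star_pow, hs, KCompat.star_comm (F := F) (E := E) (K := D.K) (L := D.L)]
    rfl

private theorem lmod_hom {q : Polynomial F} (D : KData F E q) (B : SkewH E V) (X : SA B)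
    (hX : Polynomial.aeval X.1 (q.map (algebraMap F E)) = 0) :
    ∃ φ : D.L →+* Module.End E V, ∀ f : Polynomial E,
      φ (Polynomial.aeval (algebraMap D.K D.L D.s) f) = Polynomial.aeval X.1 f := by
  set ρ : Polynomial E →+* D.L :=
    (Polynomial.aeval (algebraMap D.K D.L D.s) : Polynomial E →ₐ[E] D.L).toRingHom with hρ
  have hsur : Function.Surjective ρ := fun x => by
    obtain ⟨f, hf⟩ := D.genL x
    exact ⟨f, hf.symm⟩
  set g : Polynomial E →+* Module.End E V :=
    (Polynomial.aeval X.1 : Polynomial E →ₐ[E] Module.End E V).toRingHom with hg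
  have hker : RingHom.ker ρ ≤ RingHom.ker g := by
    intro f hf
    rw [RingHom.mem_ker] at hf ⊢
    have h1 : Polynomial.aeval (algebraMap D.K D.L D.s) f = 0 := hf
    rw [D.minL] at h1
    obtain ⟨c, rfl⟩ := h1
    show Polynomial.aeval X.1 (q.map (algebraMap F E) * c) = 0
    rw [map_mul, hX, zero_mul]
  refine ⟨RingHom.liftOfSurjective ρ hsur ⟨g, hker⟩, fun f => ?_⟩
  exact RingHom.liftOfRightInverse_comp_apply ρ _ _ ⟨g, hker⟩ f

theorem exists_LMod {q : Polynomial F} (D : KData F E q) (B : SkewH E V) (X : SA B)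
    (hX : Polynomial.aeval X.1 (q.map (algebraMap F E)) = 0) :
    ∃ _ : Module D.L V, IsScalarTower E D.L V ∧ ContinuousSMul D.L V ∧ Module.Finite D.L V ∧
      (∀ v : V, (algebraMap D.K D.L D.s) • v = X.1 v) ∧
      ∀ (x : D.L) (v w : V), B.ip (x • v) w = B.ip v (star x • w) := by
  classical
  haveI := lmod_fd D
  obtain ⟨φ, hφ⟩ := lmod_hom D B X hX
  letI M : Module D.L V := Module.compHom V φ
  have hsm : ∀ (x : D.L) (v : V), x • v = φ x v := fun _ _ => rfl
  have hE : ∀ (a : E) (x : D.L) (v : V), (a • x) • v = a • (x • v) := by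
    intro a x v
    have h1 : φ (algebraMap E D.L a) = a • (1 : Module.End E V) := by
      have h2 := hφ (Polynomial.C a)
      rw [Polynomial.aeval_C, Polynomial.aeval_C] at h2
      rw [h2, Algebra.algebraMap_eq_smul_one]
    rw [hsm, hsm, Algebra.smul_def, map_mul, h1]
    rfl
  have hT : IsScalarTower E D.L V := ⟨hE⟩
  refine ⟨M, hT, ⟨?_⟩, Module.Finite.of_restrictScalars_finite E D.L V, ?_, ?_⟩
  · let c := Module.finBasis E D.L
    have h : (fun p : D.L × V => p.1 • p.2) =
        fun p => ∑ j, c.coord j p.1 • φ (c j) p.2 := by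
      funext p
      conv_lhs => rw [← c.sum_repr p.1]
      rw [Finset.sum_smul]
      refine Finset.sum_congr rfl fun j _ => ?_
      rw [hE, hsm]
      rfl
    rw [h]
    refine continuous_finsetSum _ fun j _ => ?_
    exact ((c.coord j).continuous_of_finiteDimensional.comp continuous_fst).smul
      ((φ (c j)).continuous_of_finiteDimensional.comp continuous_snd)
  · intro v
    rw [hsm]
    have h1 := hφ Polynomial.X
    rw [Polynomial.aeval_X, Polynomial.aeval_X] at h1
    rw [h1]
  · intro x v w
    obtain ⟨f, rfl⟩ := D.genL x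
    rw [lmod_star, hsm, hsm, hφ, hφ]
    exact ip_aeval B X.2 f v w

theorem finrank_L {q : Polynomial F} (D : KData F E q) [Module D.L V] [IsScalarTower E D.L V]
    [Module.Finite D.L V] :
    Module.finrank E V = q.natDegree * Module.finrank D.L V := by
  haveI := lmod_fd D
  rw [← D.degK, KCompat.deg (F := F) (E := E) (K := D.K) (L := D.L),
    Module.finrank_mul_finrank]

end

end Pool.Agent.Work.MP_dd0ddf_al.OC
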