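import Pool.Agent.Work.MP_dd0ddf_al.OC.DpDefs
import Pool.Agent.Work.MP_dd0ddf_al.OC.DpOneB
import Pool.Agent.Work.MP_dd0ddf_al.OC.Isotyp
import Pool.Agent.Work.MP_dd0ddf_al.OC.KWeil
import Pool.Agent.Work.MP_dd0ddf_al.OC.LMod
import Pool.Agent.Work.MP_dd0ddf_al.OC.WrSub
import Pool.Agent.Work.MP_dd0ddf_al.OC.SFPull
import Pool.Agent.Work.MP_dd0ddf_al.OC.K64

/-!
# MP_dd0ddf_al, module DpOneC: the case k = 1

`U = cyc s e`, `U' = g⁻¹ U = cyc s' e'`, `s' = g^* g = g⁻¹ s g`, `e' = g⁻¹ e`: nondegenerate (`⟨g⁻¹a, g⁻¹b⟩ = ⟨s⁻¹a, b⟩`).  KData D for q (K, L, root κ = D.s).  L-structures on U and U' (exists_LMod for `B.restrict U`, `s|_U`, resp. U', s'|_{U'}; q(s|_U) = 0 since ann(e) = q) with `κ • u = s u`, `κ • u' = s' u'`; one-dimensional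
(U = E[s] e = L e).  `BL, BL'` (exists_BL): `Tr_{L/E} BL = B|_U`.  `x • (g⁻¹ u) = g⁻¹ (x • u)`; `BL'.ip e' e' = κ⁻¹ BL.ip e e` since `Tr(x BL'.ip e' e') = ⟨x g⁻¹e, g⁻¹e⟩ = ⟨s⁻¹ x e, e⟩ = Tr (κ⁻¹ x BL.ip e e)` for all x ∈ L.
Weil representations: `weil_subA` for U and U' (same A, μ), then `weil_K_const` (same μ_L = μ ∘ N): WL on U, WL' on U'.
`j z = extU (resU (scU BL z))`, `j' z = extU (resU' (scU BL' z))` for z ∈ E1 L; `j' z = g⁻¹ (j z) g`; `j z ∈ CU B s U`.  R z = W.l (j z), R' z = W.r (j' z): commuting (l_r_comm) smooth (l_smooth, r_smooth, continuity of j) representations of E1 D.L (compact, compact_E1), `lam (R z (R' z m)) = lam m` (DpHyp.inv).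
If lam ≠ 0: isotyp gives χ, m ≠ 0.  Slices: for w ∈ U^⊥ let `m_w(u) = m(u + w)`; `(W.l (extU k) m)_w = W_U.l k m_w` (true on tens f1 f2, tens_span), so `WL.l (scU z) m_w = χ(z) m_w`; choose w with m_w ≠ 0.  Similarly `f' = m'_w` on U' for r.  `κ` is not a norm from L (Bad, norm_s, norm64).  Then dpOneB over (K, L): contradiction.
-/

set_option linter.unusedSectionVars false
set_option linter.style.haveILetI false

namespace Pool.Agent.Work.MP_dd0ddf_al.OC

noncomputable section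

universe u

variable {F E : Type u} [NontriviallyNormedField F] [IsUltrametricDist F] [ProperSpace F]
  [NeZero (2 : F)] [NontriviallyNormedField E] [NormedAlgebra F E] [ProperSpace E] [StarRing E]
  [QExt F E] [MeasurableSpace E] [BorelSpace E]
variable {V : Type u} [AddCommGroup V] [Module E V] [Module.Finite E V] [TopologicalSpace V]
  [IsTopologicalAddGroup V] [T2Space V] [ContinuousSMul E V]

/-- slices of functions along a nondegenerate subspace -/
def sliceU (B : SkewH E V) (U : Submodule E V) (hU : NDeg B U) (w : orth B U) :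
    SF V ℂ →ₗ[ℂ] SF U ℂ :=
  SF.pull (fun u : U => (u : V) + (w : V)) (by
    have hY : IsClosed (U : Set V) := U.closed_of_finiteDimensional
    exact (Homeomorph.addRight (w : V)).isClosedEmbedding.comp hY.isClosedEmbedding_subtypeVal)

private theorem dpc_slice_tens (B : SkewH E V) (U : Submodule E V) (hU : NDeg B U)
    (w : orth B U) (f1 : SF U ℂ) (f2 : SF (orth B U) ℂ) :
    sliceU B U hU w (tens B U hU f1 f2) = f2 w • f1 := by
  apply SF.ext
  intro u
  show tens B U hU f1 f2 ((u : V) + (w : V)) = f2 w * f1 u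
  have h1 : prO B U hU ((u : V) + (w : V)) = (u : V) := by
    rw [map_add, prO_of_mem B U hU u.2, prO_of_orth B U hU w.2, add_zero]
  have h2 : (⟨prO B U hU ((u : V) + (w : V)), prO_mem B U hU _⟩ : U) = u := Subtype.ext h1
  have h3 : (⟨(u : V) + (w : V) - prO B U hU ((u : V) + (w : V)),
      sub_prO_mem B U hU _⟩ : orth B U) = w := by
    apply Subtype.ext
    show (u : V) + (w : V) - prO B U hU ((u : V) + (w : V)) = (w : V)
    rw [h1, add_sub_cancel_left]
  rw [wrsub_tens, h2, h3, mul_comm]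

variable (F) in
include F in
private theorem dpc_ext (B : SkewH E V) (U : Submodule E V) (hU : NDeg B U)
    (S T : SF V ℂ →ₗ[ℂ] SF U ℂ)
    (h : ∀ f1 f2, S (tens B U hU f1 f2) = T (tens B U hU f1 f2)) : S = T := by
  apply LinearMap.ext_on (tens_span F B U hU)
  rintro _ ⟨f1, f2, rfl⟩
  exact h f1 f2

theorem slice_l {B : SkewH E V} {p : PChar F} (W : WeilRep B p) (U : Submodule E V)
    (hU : NDeg B U) (W1 : WeilRep (B.restrict U hU) p)
    (h : ∀ (k : UU (B.restrict U hU)) (f1 : SF U ℂ) (f2 : SF (orth B U) ℂ),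
        W.l (extU B U hU k) (tens B U hU f1 f2) = tens B U hU (W1.l k f1) f2)
    (w : orth B U) (k : UU (B.restrict U hU)) (f : SF V ℂ) :
    sliceU B U hU w (W.l (extU B U hU k) f) = W1.l k (sliceU B U hU w f) := by
  have h1 : sliceU B U hU w ∘ₗ (W.l (extU B U hU k) : SF V ℂ →ₗ[ℂ] SF V ℂ) =
      (W1.l k : SF U ℂ →ₗ[ℂ] SF U ℂ) ∘ₗ sliceU B U hU w := by
    apply dpc_ext F B U hU
    intro f1 f2
    show sliceU B U hU w (W.l (extU B U hU k) (tens B U hU f1 f2)) =
      W1.l k (sliceU B U hU w (tens B U hU f1 f2))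
    rw [h, dpc_slice_tens, dpc_slice_tens, map_smul]
  exact congrArg (fun T : SF V ℂ →ₗ[ℂ] SF U ℂ => T f) h1

theorem slice_r {B : SkewH E V} {p : PChar F} (W : WeilRep B p) (U : Submodule E V)
    (hU : NDeg B U) (W1 : WeilRep (B.restrict U hU) p)
    (h : ∀ (k : UU (B.restrict U hU)) (f1 : SF U ℂ) (f2 : SF (orth B U) ℂ),
        W.r (extU B U hU k) (tens B U hU f1 f2) = tens B U hU (W1.r k f1) f2)
    (w : orth B U) (k : UU (B.restrict U hU)) (f : SF V ℂ) :
    sliceU B U hU w (W.r (extU B U hU k) f) = W1.r k (sliceU B U hU w f) := by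
  have h1 : sliceU B U hU w ∘ₗ (W.r (extU B U hU k) : SF V ℂ →ₗ[ℂ] SF V ℂ) =
      (W1.r k : SF U ℂ →ₗ[ℂ] SF U ℂ) ∘ₗ sliceU B U hU w := by
    apply dpc_ext F B U hU
    intro f1 f2
    show sliceU B U hU w (W.r (extU B U hU k) (tens B U hU f1 f2)) =
      W1.r k (sliceU B U hU w (tens B U hU f1 f2))
    rw [h, dpc_slice_tens, dpc_slice_tens, map_smul]
  exact congrArg (fun T : SF V ℂ →ₗ[ℂ] SF U ℂ => T f) h1

end

noncomputable section

universe v

variable {F E : Type v} [NontriviallyNormedField F] [IsUltrametricDist F] [ProperSpace F]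
  [NeZero (2 : F)] [NontriviallyNormedField E] [NormedAlgebra F E] [ProperSpace E] [StarRing E]
  [QExt F E] [MeasurableSpace E] [BorelSpace E]

section Core

variable {U U' : Type v} [AddCommGroup U] [Module E U] [Module.Finite E U] [TopologicalSpace U]
  [IsTopologicalAddGroup U] [T2Space U] [ContinuousSMul E U]
  [AddCommGroup U'] [Module E U'] [Module.Finite E U'] [TopologicalSpace U']
  [IsTopologicalAddGroup U'] [T2Space U'] [ContinuousSMul E U']

private theorem dpc_smul {L : Type v} [Field L] [Algebra E L] [Module L U]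
    [IsScalarTower E L U] (s : L) (X : Module.End E U) (hX : ∀ v : U, s • v = X v)
    (f : Polynomial E) (v : U) : Polynomial.aeval s f • v = Polynomial.aeval X f v := by
  have hpow : ∀ (n : ℕ) (v : U), (X ^ n) v = s ^ n • v := by
    intro n
    induction n with
    | zero => intro v; rw [pow_zero, pow_zero, one_smul]; rfl
    | succ n ih =>
      intro v
      rw [pow_succ, pow_succ]
      show (X ^ n) (X v) = _
      rw [ih, ← hX, smul_smul]
  induction f using Polynomial.induction_on' with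
  | add f g hf hg => rw [map_add, map_add, add_smul, hf, hg, LinearMap.add_apply]
  | monomial n b =>
    rw [Polynomial.aeval_monomial, Polynomial.aeval_monomial, mul_smul, ← hpow,
      algebraMap_smul]
    rfl

private theorem dpc_gamma (γ : U ≃ₗ[E] U') (X : Module.End E U) (X' : Module.End E U')
    (h : ∀ u, γ (X u) = X' (γ u)) (f : Polynomial E) (u : U) :
    γ (Polynomial.aeval X f u) = Polynomial.aeval X' f (γ u) := by
  have hpow : ∀ (n : ℕ) (u : U), γ ((X ^ n) u) = (X' ^ n) (γ u) := by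
    intro n
    induction n with
    | zero => intro u; rfl
    | succ n ih =>
      intro u
      rw [pow_succ, pow_succ]
      show γ ((X ^ n) (X u)) = (X' ^ n) (X' (γ u))
      rw [ih, h]
  induction f using Polynomial.induction_on' with
  | add f g hf hg => rw [map_add, map_add, LinearMap.add_apply, LinearMap.add_apply, map_add,
      hf, hg]
  | monomial n b =>
    rw [Polynomial.aeval_monomial, Polynomial.aeval_monomial]
    show γ (b • (X ^ n) u) = b • (X' ^ n) (γ u)
    rw [map_smul, hpow]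

private theorem dpc_cont_resU {q : Polynomial F} (D : KData F E q)
    [Module D.L U] [IsScalarTower E D.L U] [Module.Finite D.L U]
    [ContinuousSMul D.L U] {B : SkewH E U} {BL : SkewH D.L U}
    (h : ∀ v w, tl F E D.K D.L (BL.ip v w) = B.ip v w) : Continuous (resU h) := by
  have hi : Continuous (fun f : Module.End D.L U => (f.restrictScalars E : Module.End E U)) := by
    refine continuous_induced_rng.mpr ?_
    exact continuous_induced_dom
  refine Continuous.subtype_mk ?_ _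
  rw [Units.continuous_iff]
  exact ⟨hi.comp (Units.continuous_val.comp continuous_subtype_val),
    hi.comp (Units.continuous_val.comp (continuous_inv.comp continuous_subtype_val))⟩

private theorem dpc_trace {q : Polynomial F} (D : KData F E q) (a b : D.L)
    (h : ∀ x : D.L, tl F E D.K D.L (x * a) = tl F E D.K D.L (x * b)) :
    a = b := by
  rw [← sub_eq_zero]
  apply tl_nondeg F E D.K D.L
  intro z
  rw [mul_sub, map_sub, h, sub_self]

private theorem dpc_core {q : Polynomial F} (hq : Bad F E q) (D : KData F E q)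
    {B : SkewH E U} {B' : SkewH E U'} {p : PChar F} (W : WeilRep B p) (W' : WeilRep B' p)
    (hA : W.A = W'.A) (hμ : W.μ = W'.μ) (X : SA B) (X' : SA B')
    (hX : Polynomial.aeval X.1 (q.map (algebraMap F E)) = 0)
    (hX' : Polynomial.aeval X'.1 (q.map (algebraMap F E)) = 0)
    (γ : U ≃ₗ[E] U') (hγX : ∀ u, γ (X.1 u) = X'.1 (γ u))
    (hγB : ∀ a b, B'.ip (γ (X.1 a)) (γ b) = B.ip a b) (e : U) (he : e ≠ 0)
    (hgen : ∀ u : U, ∃ f : Polynomial E, u = Polynomial.aeval X.1 f e) :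
    ∃ (j : E1 D.L →* UU B) (j' : E1 D.L →* UU B'), Continuous j ∧ Continuous j' ∧
      (∀ z u, (j z).1.1 (X.1 u) = X.1 ((j z).1.1 u)) ∧
      (∀ z u, (j' z).1.1 (γ u) = γ ((j z).1.1 u)) ∧
      ∀ (χ : E1 D.L →* ℂˣ), (∃ N : Set (E1 D.L), IsOpen N ∧ (1 : E1 D.L) ∈ N ∧
        ∀ z ∈ N, χ z = 1) → ∀ (f : SF U ℂ) (f' : SF U' ℂ), f ≠ 0 → f' ≠ 0 →
        (∀ z, W.l (j z) f = ((χ z : ℂˣ) : ℂ) • f) →
        (∀ z, W'.r (j' z) f' = (((χ z)⁻¹ : ℂˣ) : ℂ) • f') → False := by
  classical
  haveI : FiniteDimensional F D.K := KCompat.fd (F := F) (E := E) (K := D.K) (L := D.L)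
  haveI : FiniteDimensional E D.L := by
    apply FiniteDimensional.of_finrank_pos
    rw [← KCompat.deg (F := F) (E := E) (K := D.K) (L := D.L)]
    exact Module.finrank_pos
  haveI : NeZero (2 : E) := nz2_of_injective (algebraMap F E).injective
  letI : MeasurableSpace D.L := borel D.L
  haveI : BorelSpace D.L := ⟨rfl⟩
  obtain ⟨mU, t1, c1, fi1, hs1, ha1⟩ := exists_LMod D B X hX
  obtain ⟨mU', t2, c2, fi2, hs2, ha2⟩ := exists_LMod D B' X' hX'
  obtain ⟨BL, hBL⟩ := exists_BL F D.K B ha1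
  obtain ⟨BL', hBL'⟩ := exists_BL F D.K B' ha2
  -- the constant
  have hs0 : D.s ≠ 0 := by
    intro h0
    have h1 := D.root
    rw [h0, Polynomial.aeval_def, Polynomial.eval₂_at_zero] at h1
    exact hq.2.2.1 ((map_eq_zero _).1 h1)
  have hsn : ¬ IsNorm D.K D.L D.s := by
    rw [norm64 (F := F) (E := E) (L := D.L) D.s hs0, KData.norm_s hq.1 D]
    exact hq.2.2.2
  set κ : D.L := algebraMap D.K D.L D.s with hκ
  have hκ0 : κ ≠ 0 := by
    rw [hκ, Ne, map_eq_zero]
    exact hs0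
  -- `γ` is `L`-linear
  have hγL : ∀ (x : D.L) (u : U), γ (x • u) = x • γ u := by
    intro x u
    obtain ⟨f, rfl⟩ := D.genL x
    rw [dpc_smul _ X.1 hs1, dpc_smul _ X'.1 hs2]
    exact dpc_gamma γ X.1 X'.1 hγX f u
  have hdim : Module.finrank D.L U = 1 := by
    refine finrank_eq_one e he fun w => ?_
    obtain ⟨f, hf⟩ := hgen w
    refine ⟨Polynomial.aeval κ f, ?_⟩
    rw [hf]
    exact dpc_smul _ X.1 hs1 f e
  have hdim' : Module.finrank D.L U' = 1 := by
    refine finrank_eq_one (γ e) (fun h => he ?_) fun w => ?_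
    · rw [← γ.symm_apply_apply e, h, map_zero]
    · obtain ⟨f, hf⟩ := hgen (γ.symm w)
      refine ⟨Polynomial.aeval κ f, ?_⟩
      rw [← hγL, dpc_smul _ X.1 hs1 f e, ← hf, LinearEquiv.apply_symm_apply]
  have he' : γ e ≠ 0 := fun h => he (by rw [← γ.symm_apply_apply e, h, map_zero])
  have hB : BL'.ip (γ e) (γ e) = algebraMap D.K D.L D.s⁻¹ * BL.ip e e := by
    apply dpc_trace D
    intro x
    have h1 : x * BL'.ip (γ e) (γ e) = BL'.ip (x • γ e) (γ e) := (BL'.smul_left x _ _).symm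
    have h2 : x * (algebraMap D.K D.L D.s⁻¹ * BL.ip e e) = BL.ip ((κ⁻¹ * x) • e) e := by
      rw [BL.smul_left, map_inv₀]
      ring
    rw [h1, h2, hBL, hBL', ← hγL, ← hγB]
    congr 2
    rw [← hs1, smul_smul, mul_inv_cancel_left₀ hκ0]
  obtain ⟨A1, hA1⟩ := weil_K_const D.K D.L p W.A W.μ
  obtain ⟨WL, -, hWLμ, hWLl, -⟩ := hA1 U B W BL hBL rfl rfl
  obtain ⟨WL', -, hWLμ', -, hWLr'⟩ := hA1 U' B' W' BL' hBL' hA.symm hμ.symm
  refine ⟨(resU hBL).comp (scU BL), (resU hBL').comp (scU BL'), ?_, ?_, ?_, ?_, ?_⟩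
  · exact (dpc_cont_resU D hBL).comp (continuous_scU D.K BL)
  · exact (dpc_cont_resU D hBL').comp (continuous_scU D.K BL')
  · intro z u
    show (z.1 : D.L) • X.1 u = X.1 ((z.1 : D.L) • u)
    rw [← hs1, ← hs1, smul_smul, smul_smul, mul_comm]
  · intro z u
    show (z.1 : D.L) • γ u = γ ((z.1 : D.L) • u)
    rw [hγL]
  · intro χ hχ f f' hf0 hf0' hf hf'
    refine dpOneB (F := D.K) (E := D.L) WL WL' (fun x => ?_) e he (γ e) he' hdim hdim' D.s hs0
      hsn hB χ hχ f hf0 (fun z => ?_) f' hf0' (fun z => ?_)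
    · rw [hWLμ, hWLμ']
    · rw [hWLl]
      exact hf z
    · rw [hWLr']
      exact hf' z

end Core

theorem dp_one (q : Polynomial F) : DpGood F E q 1 := by
  classical
  intro V _ _ _ _ _ _ _ B p W g e lam h
  by_contra hlam
  obtain ⟨D⟩ := exists_KData q h.bad.1 h.bad.2.1
  haveI := compact_E1 D.K (E := D.L)
  have hann : ∀ f : Polynomial E, Polynomial.aeval (sg B g).1 f e = 0 ↔
      q.map (algebraMap F E) ∣ f := by
    intro f
    rw [h.ann, pow_one]
  have hgg : ∀ x, g.1 (g⁻¹.1 x) = x := fun x =>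
    congrArg (fun f : Module.End E V => f x) g.mul_inv
  have hgg' : ∀ x, g⁻¹.1 (g.1 x) = x := fun x =>
    congrArg (fun f : Module.End E V => f x) g.inv_mul
  have hsg : ∀ x, (sg B g).1 x = g.1 (adj B g.1 x) := fun x => rfl
  have hsinv : ∀ a b, B.ip (g⁻¹.1 ((sg B g).1 a)) (g⁻¹.1 b) = B.ip a b := by
    intro a b
    rw [hsg, hgg', ← ip_adj_right, hgg]
  -- the cyclic subspaces
  obtain ⟨U, hUd⟩ : ∃ U, U = cyc (sg B g).1 e := ⟨_, rfl⟩
  have hnd : NDeg B U := by
    rw [hUd]
    exact h.nd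
  have hUst : ∀ u ∈ U, (sg B g).1 u ∈ U := by
    intro u hu
    rw [hUd, mem_cyc] at hu ⊢
    obtain ⟨f, rfl⟩ := hu
    refine ⟨Polynomial.X * f, ?_⟩
    rw [map_mul, Polynomial.aeval_X]
    rfl
  have heU : e ∈ U := by
    rw [hUd, mem_cyc]
    exact ⟨1, by rw [map_one]; rfl⟩
  obtain ⟨U', hU'⟩ : ∃ U' : Submodule E V, U' = U.map g⁻¹.1 := ⟨_, rfl⟩
  have hmem' : ∀ u ∈ U, g⁻¹.1 u ∈ U' := by
    intro u hu
    rw [hU']
    exact Submodule.mem_map_of_mem hu
  have hmem'' : ∀ u ∈ U', g.1 u ∈ U := by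
    intro u hu
    rw [hU'] at hu
    obtain ⟨w, hw, rfl⟩ := Submodule.mem_map.1 hu
    rw [hgg]
    exact hw
  let X : SA (B.restrict U hnd) := ⟨(sg B g).1.restrict hUst, fun v w => (sg B g).2 v.1 w.1⟩
  have hXa : ∀ (f : Polynomial E) (u : U), ((Polynomial.aeval X.1 f u : U) : V) =
      Polynomial.aeval (sg B g).1 f (u : V) := by
    intro f u
    have hpow : ∀ (n : ℕ) (u : U), (((X.1 ^ n) u : U) : V) = ((sg B g).1 ^ n) (u : V) := by
      intro n
      induction n with
      | zero => intro u; rfl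
      | succ n ih =>
        intro u
        rw [pow_succ, pow_succ]
        show (((X.1 ^ n) (X.1 u) : U) : V) = ((sg B g).1 ^ n) ((sg B g).1 (u : V))
        rw [ih]
        rfl
    induction f using Polynomial.induction_on' with
    | add f g hf hg =>
      rw [map_add, map_add, LinearMap.add_apply, LinearMap.add_apply, Submodule.coe_add, hf, hg]
    | monomial n b =>
      rw [Polynomial.aeval_monomial, Polynomial.aeval_monomial]
      show (((b • (X.1 ^ n) u) : U) : V) = b • ((sg B g).1 ^ n) (u : V)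
      rw [Submodule.coe_smul, hpow]
  have hgen : ∀ u : U, ∃ f : Polynomial E, u = Polynomial.aeval X.1 f (⟨e, heU⟩ : U) := by
    intro u
    have hu : (u : V) ∈ cyc (sg B g).1 e := hUd.le u.2
    rw [mem_cyc] at hu
    obtain ⟨f, hf⟩ := hu
    exact ⟨f, Subtype.ext (hf.trans (hXa f ⟨e, heU⟩).symm)⟩
  have hX : Polynomial.aeval X.1 (q.map (algebraMap F E)) = 0 := by
    apply LinearMap.ext
    intro u
    apply Subtype.ext
    rw [hXa]
    obtain ⟨f, hf⟩ := hgen u
    rw [hf, hXa]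
    show Polynomial.aeval (sg B g).1 (q.map (algebraMap F E))
      (Polynomial.aeval (sg B g).1 f e) = 0
    have h1 : Polynomial.aeval (sg B g).1 (q.map (algebraMap F E))
        (Polynomial.aeval (sg B g).1 f e) =
        Polynomial.aeval (sg B g).1 (q.map (algebraMap F E) * f) e := by
      rw [map_mul]
      rfl
    rw [h1, hann]
    exact dvd_mul_right _ _
  -- s is injective
  have hsinj : ∀ a, (sg B g).1 a = 0 → a = 0 := by
    intro a ha
    apply B.nondeg
    intro b
    have h1 := hsinv a (g.1 (g⁻¹.1 b))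
    rw [ha, map_zero, hgg] at h1
    rw [← h1]
    have h2 := B.smul_left 0 0 (g⁻¹.1 b)
    rw [zero_smul, zero_mul] at h2
    exact h2
  have hsurj : ∀ u ∈ U, ∃ a ∈ U, (sg B g).1 a = u := by
    intro u hu
    have hinj : Function.Injective X.1 := by
      intro a b hab
      have h1 : (sg B g).1 ((a : V) - (b : V)) = 0 := by
        rw [map_sub, sub_eq_zero]
        exact congrArg Subtype.val hab
      exact Subtype.ext (sub_eq_zero.1 (hsinj _ h1))
    obtain ⟨a, ha⟩ := (LinearMap.injective_iff_surjective.1 hinj) ⟨u, hu⟩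
    exact ⟨a.1, a.2, congrArg Subtype.val ha⟩
  have hnd' : NDeg B U' := by
    intro u hu hw
    have h1 := hmem'' u hu
    obtain ⟨a, ha, hau⟩ := hsurj _ h1
    have h2 : a = 0 := by
      apply hnd a ha
      intro b hb
      rw [← hsinv, hau, hgg']
      exact hw _ (hmem' b hb)
    rw [← hgg' u, ← hau, h2, map_zero, map_zero]
  -- the other operator
  let s' : SA B := ⟨adj B g.1 * g.1, by
    apply sa_of_adj
    rw [adj_mul, adj_adj]⟩
  have hs' : ∀ x, s'.1 (g⁻¹.1 x) = g⁻¹.1 ((sg B g).1 x) := by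
    intro x
    rw [hsg, hgg']
    show adj B g.1 (g.1 (g⁻¹.1 x)) = adj B g.1 x
    rw [hgg]
  have hUst' : ∀ u ∈ U', s'.1 u ∈ U' := by
    intro u hu
    rw [← hgg' u, hs']
    exact hmem' _ (hUst _ (hmem'' u hu))
  let X' : SA (B.restrict U' hnd') := ⟨s'.1.restrict hUst', fun v w => s'.2 v.1 w.1⟩
  let γ : U ≃ₗ[E] U' :=
    { toFun := fun u => ⟨g⁻¹.1 u.1, hmem' _ u.2⟩
      invFun := fun u => ⟨g.1 u.1, hmem'' _ u.2⟩
      left_inv := fun u => Subtype.ext (hgg u.1)
      right_inv := fun u => Subtype.ext (hgg' u.1)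
      map_add' := fun u w => Subtype.ext (map_add g⁻¹.1 u.1 w.1)
      map_smul' := fun c u => Subtype.ext (map_smul g⁻¹.1 c u.1) }
  have hγX : ∀ u, γ (X.1 u) = X'.1 (γ u) := fun u => Subtype.ext (hs' u.1).symm
  have hX' : Polynomial.aeval X'.1 (q.map (algebraMap F E)) = 0 := by
    apply LinearMap.ext
    intro u
    have h1 := dpc_gamma γ X.1 X'.1 hγX (q.map (algebraMap F E)) (γ.symm u)
    rw [hX, LinearEquiv.apply_symm_apply] at h1
    rw [← h1, LinearMap.zero_apply, map_zero]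
    rfl
  have he0 : (⟨e, heU⟩ : U) ≠ 0 := by
    intro h0
    have h1 : e = 0 := congrArg Subtype.val h0
    have h2 : q.map (algebraMap F E) ∣ 1 := by
      rw [← hann, h1, map_zero]
    exact h.bad.2.1.not_isUnit (isUnit_of_dvd_one h2)
  obtain ⟨W1, hA1, hμ1, hl1, -⟩ := weil_subA W U hnd
  obtain ⟨W1', hA1', hμ1', -, hr1'⟩ := weil_subA W U' hnd'
  obtain ⟨j, j', hj, hj', hjX, hjj, hfin⟩ := dpc_core h.bad D W1 W1' (hA1.trans hA1'.symm)
    (hμ1.trans hμ1'.symm) X X' hX hX' γ hγX (fun a b => hsinv a.1 b.1) ⟨e, heU⟩ he0 hgen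
  -- the operators
  have hJc : Continuous (fun z => extU B U hnd (j z)) := (continuous_extU B U hnd).comp hj
  have hJc' : Continuous (fun z => extU B U' hnd' (j' z)) :=
    (continuous_extU B U' hnd').comp hj'
  have hrone : W.r 1 = 1 := r_one W
  let R : SRep (E1 D.L) (SF V ℂ) :=
    { β := W.l.comp ((extU B U hnd).comp j)
      smooth := fun f => by
        obtain ⟨N, hN, hN1, hNf⟩ := l_smooth W f
        refine ⟨(fun z => extU B U hnd (j z)) ⁻¹' N, hN.preimage hJc, ?_, fun z hz => hNf _ hz⟩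
        show extU B U hnd (j 1) ∈ N
        rw [map_one, map_one]
        exact hN1 }
  let R' : SRep (E1 D.L) (SF V ℂ) :=
    { β :=
        { toFun := fun z => W.r (extU B U' hnd' (j' z))
          map_one' := by
            rw [map_one, map_one]
            exact hrone
          map_mul' := fun z z' => by
            rw [map_mul, map_mul]
            exact r_mul W _ _ }
      smooth := fun f => by
        obtain ⟨N, hN, hN1, hNf⟩ := r_smooth W f
        refine ⟨(fun z => extU B U' hnd' (j' z)) ⁻¹' N, hN.preimage hJc', ?_,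
          fun z hz => hNf _ hz⟩
        show extU B U' hnd' (j' 1) ∈ N
        rw [map_one, map_one]
        exact hN1 }
  have hsorth : ∀ v ∈ orth B U, (sg B g).1 v ∈ orth B U := by
    intro v hv u hu
    rw [(sg B g).2]
    exact hv _ (hUst u hu)
  have hgorth : ∀ v ∈ orth B U', g.1 v ∈ orth B U := by
    intro v hv u hu
    rw [adj_spec]
    have h1 : adj B g.1 u = g⁻¹.1 ((sg B g).1 u) := by rw [hsg, hgg']
    rw [h1]
    exact hv _ (hmem' _ (hUst u hu))
  have hCU : ∀ z, extU B U hnd (j z) ∈ CU B (sg B g) (cyc (sg B g).1 e) := by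
    intro z
    rw [← hUd]
    refine ⟨?_, fun v hv => extU_orth B U hnd (j z) hv⟩
    apply LinearMap.ext
    intro v
    show (extU B U hnd (j z)).1.1 ((sg B g).1 v) = (sg B g).1 ((extU B U hnd (j z)).1.1 v)
    have hv : v = prO B U hnd v + (v - prO B U hnd v) := by abel
    have e1 : (extU B U hnd (j z)).1.1 ((sg B g).1 (prO B U hnd v)) =
        (sg B g).1 ((extU B U hnd (j z)).1.1 (prO B U hnd v)) := by
      have h1 := extU_mem B U hnd (j z) (X.1 ⟨prO B U hnd v, prO_mem B U hnd v⟩)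
      have h2 := extU_mem B U hnd (j z) ⟨prO B U hnd v, prO_mem B U hnd v⟩
      have h3 := congrArg Subtype.val (hjX z ⟨prO B U hnd v, prO_mem B U hnd v⟩)
      have h1' : (extU B U hnd (j z)).1.1 ((sg B g).1 (prO B U hnd v)) = _ := h1
      have h2' : (extU B U hnd (j z)).1.1 (prO B U hnd v) = _ := h2
      rw [h1', h2', h3]
      rfl
    have e2 : (extU B U hnd (j z)).1.1 ((sg B g).1 (v - prO B U hnd v)) =
        (sg B g).1 ((extU B U hnd (j z)).1.1 (v - prO B U hnd v)) := by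
      rw [extU_orth B U hnd (j z) (hsorth _ (sub_prO_mem B U hnd v)),
        extU_orth B U hnd (j z) (sub_prO_mem B U hnd v)]
    rw [hv, map_add, map_add, map_add, map_add, e1, e2]
  have hconj : ∀ z, (extU B U' hnd' (j' z)).1 = g⁻¹ * (extU B U hnd (j z)).1 * g := by
    intro z
    apply Units.ext
    apply LinearMap.ext
    intro v
    show (extU B U' hnd' (j' z)).1.1 v = g⁻¹.1 ((extU B U hnd (j z)).1.1 (g.1 v))
    have hv : v = prO B U' hnd' v + (v - prO B U' hnd' v) := by abel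
    have e1 : (extU B U' hnd' (j' z)).1.1 (prO B U' hnd' v) =
        g⁻¹.1 ((extU B U hnd (j z)).1.1 (g.1 (prO B U' hnd' v))) := by
      have h1 := extU_mem B U' hnd' (j' z) ⟨prO B U' hnd' v, prO_mem B U' hnd' v⟩
      have h2 := extU_mem B U hnd (j z) ⟨g.1 (prO B U' hnd' v),
        hmem'' _ (prO_mem B U' hnd' v)⟩
      have h3 := congrArg Subtype.val (hjj z ⟨g.1 (prO B U' hnd' v),
        hmem'' _ (prO_mem B U' hnd' v)⟩)
      have h4 : γ ⟨g.1 (prO B U' hnd' v), hmem'' _ (prO_mem B U' hnd' v)⟩ =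
          ⟨prO B U' hnd' v, prO_mem B U' hnd' v⟩ := Subtype.ext (hgg' _)
      rw [h4] at h3
      have h1' : (extU B U' hnd' (j' z)).1.1 (prO B U' hnd' v) = _ := h1
      have h2' : (extU B U hnd (j z)).1.1 (g.1 (prO B U' hnd' v)) = _ := h2
      rw [h1', h2', h3]
      rfl
    have e2 : (extU B U' hnd' (j' z)).1.1 (v - prO B U' hnd' v) =
        g⁻¹.1 ((extU B U hnd (j z)).1.1 (g.1 (v - prO B U' hnd' v))) := by
      rw [extU_orth B U' hnd' (j' z) (sub_prO_mem B U' hnd' v),
        extU_orth B U hnd (j z) (hgorth _ (sub_prO_mem B U' hnd' v)), hgg']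
    rw [hv, map_add, map_add, map_add, map_add, e1, e2]
  obtain ⟨χ, m, hm, hχ, hRm, hRm'⟩ := isotyp R R'
    (fun z z' => l_r_comm W (extU B U hnd (j z)) (extU B U' hnd' (j' z'))) lam hlam
    (fun z φ => h.inv _ (hCU z) _ (hconj z) φ)
  obtain ⟨v, hv⟩ : ∃ v, m v ≠ 0 := by
    by_contra hcon
    push Not at hcon
    exact hm (SF.ext hcon)
  refine hfin χ hχ (sliceU B U hnd ⟨v - prO B U hnd v, sub_prO_mem B U hnd v⟩ m)
    (sliceU B U' hnd' ⟨v - prO B U' hnd' v, sub_prO_mem B U' hnd' v⟩ m) ?_ ?_ ?_ ?_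
  · intro h0
    apply hv
    have h1 := congrArg (fun f : SF U ℂ => f ⟨prO B U hnd v, prO_mem B U hnd v⟩) h0
    have h2 : m (prO B U hnd v + (v - prO B U hnd v)) = 0 := h1
    rwa [add_sub_cancel] at h2
  · intro h0
    apply hv
    have h1 := congrArg (fun f : SF U' ℂ => f ⟨prO B U' hnd' v, prO_mem B U' hnd' v⟩) h0
    have h2 : m (prO B U' hnd' v + (v - prO B U' hnd' v)) = 0 := h1
    rwa [add_sub_cancel] at h2
  · intro z
    rw [← slice_l W U hnd W1 hl1]
    have h1 : W.l (extU B U hnd (j z)) m = ((χ z : ℂˣ) : ℂ) • m := hRm z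
    rw [h1, map_smul]
  · intro z
    rw [← slice_r W U' hnd' W1' hr1']
    have h1 : W.r (extU B U' hnd' (j' z)) m = (((χ z)⁻¹ : ℂˣ) : ℂ) • m := hRm' z
    rw [h1, map_smul]

end

end Pool.Agent.Work.MP_dd0ddf_al.OC
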