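import Pool.Agent.Work.MP_dd0ddf_al.OC.JMap
import Pool.Agent.Work.MP_dd0ddf_al.OC.JContr
import Pool.Agent.Work.MP_dd0ddf_al.OC.WrBasic
import Pool.Agent.Work.MP_dd0ddf_al.OC.NoPos

/-!
# MP_dd0ddf_al, module JChar: the scalars C(h) with J l(h) = C(h) l1(h1) J

Let `h ∈ stabY`, `h1 = indY D h`.  `P = J ∘ l(h)` satisfies `P L_y = J L_{hy} l(h) = P`, `P R_y = P` (y ∈ Y; jMap_L, jMap_R with projection 0), so `P = P1 ∘ J` (jMap_factor, M = SF V1).  `P1 L_{v1} = L_{h1 v1} P1`, `P1 R_{v1} = R_{v1} P1` on SF V1 (v1 ∈ V1; jMap_L for h v1 ∈ Y^⊥, indY_pr; J surjective).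
`l1(h1)⁻¹ P1` commutes with all L, R of V1: scalar `C(h)` (schur_lr).  Multiplicative: `C(h h') = C(h) C(h')` (J ≠ 0), so C(h) ≠ 0.  `r(h) = l(h)⁻¹ geo(h)`: `C'(h) = C(h)⁻¹ c`, `c > 0` from jMap_geo.
Locally trivial: take f with J f ≠ 0; for h near 1: l(h) f = f, l1(h1) J f = J f (continuous_indY, smoothness), so C(h) = 1 on an open neighbourhood W of 1 in stabY.
`C(extU k) = 1` for `k ∈ U(V1)` (extU k ∈ stabY, ind = k): hW1 and jMap_tens: `J (l(extU k) tens f1 f2) = I2(f2) l1(k) f1` (I2 ≠ 0 since J is surjective).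
Last clause: n = h'⁻¹ h is 1 on Y; `k = indY n`, `n' = (extU k)⁻¹ n`: 1 on Y, and `n' w - w ∈ Y` for w ∈ V1; `exists_contr`: `C(n') = C(m n' m⁻¹) = 1`.  So C(n) = C(extU k) C(n') = 1.
-/

set_option linter.unusedSectionVars false
set_option linter.style.haveILetI false

namespace Pool.Agent.Work.MP_dd0ddf_al.OC

noncomputable section

universe u

variable {F E : Type u} [NontriviallyNormedField F] [IsUltrametricDist F] [ProperSpace F]
  [NeZero (2 : F)] [NontriviallyNormedField E] [NormedAlgebra F E] [ProperSpace E] [StarRing E]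
  [QExt F E] [MeasurableSpace E] [BorelSpace E]
variable {V : Type u} [AddCommGroup V] [Module E V] [Module.Finite E V] [TopologicalSpace V]
  [IsTopologicalAddGroup V] [T2Space V] [ContinuousSMul E V]

variable (F) in
include F in
private theorem jchar_f0 (U : Submodule E V) : ∃ f : SF U ℂ, f ≠ 0 := by
  haveI := lc_V E U
  haveI := td_V F E U
  obtain ⟨N, hNo, hNc, -⟩ := exists_co_addSubgroup (Set.univ : Set U) isOpen_univ
    (Set.mem_univ _)
  refine ⟨SF.single (N : Set U) hNc hNo 1, fun h => ?_⟩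
  have h1 := congrArg (fun f : SF U ℂ => f 0) h
  have h2 : SF.single (N : Set U) hNc hNo (1 : ℂ) 0 = 1 :=
    SF.single_apply_mem _ _ _ _ _ N.zero_mem
  have h3 : SF.single (N : Set U) hNc hNo (1 : ℂ) 0 = 0 := h1
  rw [h2] at h3
  exact one_ne_zero h3

private theorem jchar_eq {M : Type*} [AddCommGroup M] [Module ℂ M] {a b : ℂ} {x : M}
    (hx : x ≠ 0) (h : a • x = b • x) : a = b := smul_left_injective ℂ hx h

private theorem jchar_eq1 {M : Type*} [AddCommGroup M] [Module ℂ M] {a : ℂ} {x : M}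
    (hx : x ≠ 0) (h : x = a • x) : a = 1 :=
  jchar_eq hx (h.symm.trans (one_smul ℂ x).symm)

private theorem jchar_lmul {B : SkewH E V} {p : PChar F} (W : WeilRep B p) (g h : UU B)
    (f : SF V ℂ) : W.l g (W.l h f) = W.l (g * h) f := by
  rw [map_mul]
  rfl

private theorem jchar_lone {B : SkewH E V} {p : PChar F} (W : WeilRep B p)
    (f : SF V ℂ) : W.l 1 f = f := by
  rw [map_one]
  rfl

private theorem jchar_linj {B : SkewH E V} {p : PChar F} (W : WeilRep B p) (g : UU B)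
    {f : SF V ℂ} (hf : f ≠ 0) : W.l g f ≠ 0 := by
  intro h
  apply hf
  have h1 : W.l g⁻¹ (W.l g f) = f := by
    rw [jchar_lmul, inv_mul_cancel, jchar_lone]
  rw [← h1, h, map_zero]

private theorem jchar_L {B : SkewH E V} {p : PChar F} (W : WeilRep B p) (h : UU B) (x : V)
    (f : SF V ℂ) : W.l h (Lop B p x f) = Lop B p (h.1.1 x) (W.l h f) :=
  congrArg (fun T : SF V ℂ →ₗ[ℂ] SF V ℂ => T f) (W.L_comm h x)

private theorem jchar_R {B : SkewH E V} {p : PChar F} (W : WeilRep B p) (h : UU B) (x : V)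
    (f : SF V ℂ) : W.l h (Rop B p x f) = Rop B p x (W.l h f) :=
  congrArg (fun T : SF V ℂ →ₗ[ℂ] SF V ℂ => T f) (W.R_comm h x)

private theorem jchar_lop0 {B : SkewH E V} {p : PChar F} {x : V} (hx : x = 0) (f : SF V ℂ) :
    Lop B p x f = f := by
  rw [hx, lop_zero]
  rfl

private theorem jchar_rop0 {B : SkewH E V} {p : PChar F} {x : V} (hx : x = 0) (f : SF V ℂ) :
    Rop B p x f = f := by
  rw [hx, rop_zero]
  rfl

private theorem jchar_Yorth {B : SkewH E V} (D : IsoD B) {y : V} (hy : y ∈ D.Y) :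
    y ∈ orth B D.Y := by
  rw [D.dec]
  exact Submodule.mem_sup_left hy

private theorem jchar_YV1 {B : SkewH E V} (D : IsoD B) {y : V} (hy : y ∈ D.Y) :
    y ∈ orth B D.V1 := by
  have h1 := sub_prO_mem B D.V1 D.nd y
  rw [D.pr_Y hy, sub_zero] at h1
  exact h1

/-- the scalar of one element -/
private theorem jchar_ex {B : SkewH E V} {p : PChar F} (W : WeilRep B p) (D : IsoD B)
    (W1 : WeilRep (B.restrict D.V1 D.nd) p) (h : stabY D) :
    ∃ c : ℂ, ∀ f, jMap F D (W.l h.1 f) = c • W1.l (indY D h) (jMap F D f) := by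
  have hmem : ∀ y ∈ D.Y, h.1.1.1 y ∈ D.Y := fun y hy => (h.2 y).2 hy
  obtain ⟨P1, hP1⟩ := jMap_factor D p ((jMap F D) ∘ₗ (W.l h.1 : SF V ℂ →ₗ[ℂ] SF V ℂ))
    (fun y hy f => by
      show jMap F D (W.l h.1 (Lop B p y f)) = jMap F D (W.l h.1 f)
      rw [jchar_L, jMap_L D p _ (jchar_Yorth D (hmem y hy))]
      exact jchar_lop0 (Subtype.ext (D.pr_Y (hmem y hy))) _)
    (fun y hy f => by
      show jMap F D (W.l h.1 (Rop B p y f)) = jMap F D (W.l h.1 f)
      rw [jchar_R, jMap_R D p _ (jchar_Yorth D hy)]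
      exact jchar_rop0 (Subtype.ext (D.pr_Y hy)) _)
  have hP1' : ∀ f, P1 (jMap F D f) = jMap F D (W.l h.1 f) := fun f => (hP1 f).symm
  have hpr : ∀ x : D.V1, (⟨prO B D.V1 D.nd (x : V), prO_mem B D.V1 D.nd x⟩ : D.V1) = x :=
    fun x => Subtype.ext (prO_of_mem B D.V1 D.nd x.2)
  have hkx : ∀ x : D.V1, (⟨prO B D.V1 D.nd (h.1.1.1 (x : V)), prO_mem B D.V1 D.nd _⟩ : D.V1) =
      (indY D h).1.1 x := fun x => Subtype.ext (indY_apply D h x).symm
  have hkk : ∀ x : D.V1, (indY D h)⁻¹.1.1 ((indY D h).1.1 x) = x := fun x =>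
    congrArg (fun T : Module.End E D.V1 => T x) (indY D h).1.inv_mul
  obtain ⟨c, hc⟩ := schur_lr (B.restrict D.V1 D.nd) p
    ((W1.l (indY D h)⁻¹ : SF D.V1 ℂ →ₗ[ℂ] SF D.V1 ℂ) ∘ₗ P1)
    (fun x => by
      apply LinearMap.ext
      intro g
      obtain ⟨f, rfl⟩ := jMap_surjective (F := F) D g
      have h1 : Lop (B.restrict D.V1 D.nd) p x (jMap F D f) = jMap F D (Lop B p (x : V) f) := by
        rw [jMap_L D p (x : V) (D.V1_le x.2), hpr]
      have h2 : P1 (Lop (B.restrict D.V1 D.nd) p x (jMap F D f)) =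
          Lop (B.restrict D.V1 D.nd) p ((indY D h).1.1 x) (P1 (jMap F D f)) := by
        rw [h1, hP1', hP1', jchar_L, jMap_L D p _ (stabY_orth D h (D.V1_le x.2)), hkx]
      show W1.l (indY D h)⁻¹ (P1 (Lop (B.restrict D.V1 D.nd) p x (jMap F D f))) =
        Lop (B.restrict D.V1 D.nd) p x (W1.l (indY D h)⁻¹ (P1 (jMap F D f)))
      rw [h2, jchar_L, hkk])
    (fun x => by
      apply LinearMap.ext
      intro g
      obtain ⟨f, rfl⟩ := jMap_surjective (F := F) D g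
      have h1 : Rop (B.restrict D.V1 D.nd) p x (jMap F D f) = jMap F D (Rop B p (x : V) f) := by
        rw [jMap_R D p (x : V) (D.V1_le x.2), hpr]
      have h2 : P1 (Rop (B.restrict D.V1 D.nd) p x (jMap F D f)) =
          Rop (B.restrict D.V1 D.nd) p x (P1 (jMap F D f)) := by
        rw [h1, hP1', hP1', jchar_R, jMap_R D p _ (D.V1_le x.2), hpr]
      show W1.l (indY D h)⁻¹ (P1 (Rop (B.restrict D.V1 D.nd) p x (jMap F D f))) =
        Rop (B.restrict D.V1 D.nd) p x (W1.l (indY D h)⁻¹ (P1 (jMap F D f)))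
      rw [h2, jchar_R])
  refine ⟨c, fun f => ?_⟩
  have h3 : W1.l (indY D h)⁻¹ (P1 (jMap F D f)) = c • jMap F D f :=
    congrArg (fun T : SF D.V1 ℂ →ₗ[ℂ] SF D.V1 ℂ => T (jMap F D f)) hc
  have h4 : W1.l (indY D h) (W1.l (indY D h)⁻¹ (P1 (jMap F D f))) = P1 (jMap F D f) := by
    rw [jchar_lmul, mul_inv_cancel, jchar_lone]
  rw [← hP1', ← h4, h3, map_smul]

/-- properties of a scalar function -/
private theorem jchar_mul {B : SkewH E V} {p : PChar F} (W : WeilRep B p) (D : IsoD B)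
    (W1 : WeilRep (B.restrict D.V1 D.nd) p) (C : stabY D → ℂ)
    (hC : ∀ h f, jMap F D (W.l h.1 f) = C h • W1.l (indY D h) (jMap F D f))
    (h h' : stabY D) : C (h * h') = C h * C h' := by
  obtain ⟨g0, hg0⟩ := jchar_f0 F D.V1
  obtain ⟨f0, rfl⟩ := jMap_surjective (F := F) D g0
  have h1 : jMap F D (W.l (h * h').1 f0) =
      (C h * C h') • W1.l (indY D (h * h')) (jMap F D f0) := by
    have e1 : W.l (h * h').1 f0 = W.l h.1 (W.l h'.1 f0) := (jchar_lmul W h.1 h'.1 f0).symm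
    rw [e1, hC, hC, map_smul, jchar_lmul, smul_smul, map_mul (indY D)]
  rw [hC] at h1
  exact jchar_eq (jchar_linj W1 _ hg0) h1

private theorem jchar_one {B : SkewH E V} {p : PChar F} (W : WeilRep B p) (D : IsoD B)
    (W1 : WeilRep (B.restrict D.V1 D.nd) p) (C : stabY D → ℂ)
    (hC : ∀ h f, jMap F D (W.l h.1 f) = C h • W1.l (indY D h) (jMap F D f))
    (h : stabY D) {g : SF V ℂ} (hg : jMap F D g ≠ 0) (h1 : W.l h.1 g = g)
    (h2 : W1.l (indY D h) (jMap F D g) = jMap F D g) : C h = 1 := by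
  have h3 := hC h g
  rw [h1, h2] at h3
  exact jchar_eq1 hg h3

/-- local triviality -/
private theorem jchar_loc {B : SkewH E V} {p : PChar F} (W : WeilRep B p) (D : IsoD B)
    (W1 : WeilRep (B.restrict D.V1 D.nd) p) (C : stabY D → ℂ)
    (hC : ∀ h f, jMap F D (W.l h.1 f) = C h • W1.l (indY D h) (jMap F D f)) :
    ∃ N : Set (UU B), IsOpen N ∧ (1 : UU B) ∈ N ∧ ∀ h : stabY D, h.1 ∈ N → C h = 1 := by
  obtain ⟨g0, hg0⟩ := jchar_f0 F D.V1
  obtain ⟨f0, rfl⟩ := jMap_surjective (F := F) D g0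
  obtain ⟨U, hU, hU1, hUf⟩ := W.smooth f0
  obtain ⟨U', hU', hU1', hUf'⟩ := W1.smooth (jMap F D f0)
  have hind : Continuous (fun h : stabY D => ((indY D h).1.1 : Module.End E D.V1)) :=
    Units.continuous_val.comp (continuous_subtype_val.comp (continuous_indY D))
  have hop : IsOpen ((fun h : stabY D => ((indY D h).1.1 : Module.End E D.V1)) ⁻¹' U') :=
    hU'.preimage hind
  obtain ⟨N, hN, hNe⟩ := isOpen_induced_iff.1 hop
  have hv : Continuous (fun h : UU B => (h.1.1 : Module.End E V)) :=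
    Units.continuous_val.comp continuous_subtype_val
  refine ⟨N ∩ (fun h : UU B => (h.1.1 : Module.End E V)) ⁻¹' U, hN.inter (hU.preimage hv),
    ⟨?_, hU1⟩, fun h hh => ?_⟩
  · have h1 : (1 : stabY D) ∈ (Subtype.val ⁻¹' N : Set (stabY D)) := by
      rw [hNe]
      show ((indY D 1).1.1 : Module.End E D.V1) ∈ U'
      rw [map_one]
      exact hU1'
    exact h1
  · have h1 : h ∈ (Subtype.val ⁻¹' N : Set (stabY D)) := hh.1
    rw [hNe] at h1
    exact jchar_one W D W1 C hC h hg0 (hUf h.1 hh.2) (hUf' _ h1)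

theorem jChar {B : SkewH E V} {p : PChar F} (W : WeilRep B p) (D : IsoD B)
    (W1 : WeilRep (B.restrict D.V1 D.nd) p)
    (hW1 : ∀ (k : UU (B.restrict D.V1 D.nd)) (f1 : SF D.V1 ℂ) (f2 : SF (orth B D.V1) ℂ),
      W.l (extU B D.V1 D.nd k) (tens B D.V1 D.nd f1 f2) = tens B D.V1 D.nd (W1.l k f1) f2) :
    ∃ C C' : stabY D → ℂ,
      (∀ h f, jMap F D (W.l h.1 f) = C h • W1.l (indY D h) (jMap F D f)) ∧
      (∀ h f, jMap F D (W.r h.1 f) = C' h • W1.r (indY D h) (jMap F D f)) ∧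
      (∀ h, ∃ r : ℝ, 0 < r ∧ C h * C' h = r) ∧
      (∀ h h' : stabY D, (∀ y ∈ D.Y, h.1.1.1 y = h'.1.1.1 y) → C h = C h') := by
  choose C hC using jchar_ex W D W1
  have hmul := jchar_mul W D W1 C hC
  obtain ⟨N, hN, hN1, hNC⟩ := jchar_loc W D W1 C hC
  have hC1 : C 1 = 1 := hNC 1 hN1
  have hgeo := jMap_geo (F := F) D
  choose c hc0 hc using hgeo
  refine ⟨C, fun h => C h⁻¹ * c h, hC, fun h f => ?_, fun h => ⟨c h, hc0 h, ?_⟩,
    fun h h' hhh => ?_⟩
  · show jMap F D (W.l h.1⁻¹ (geo h.1.1 f)) =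
      (C h⁻¹ * c h) • W1.l (indY D h)⁻¹ (geo (indY D h).1 (jMap F D f))
    have h1 := hC h⁻¹ (geo h.1.1 f)
    rw [map_inv] at h1
    have h2 : jMap F D (W.l h.1⁻¹ (geo h.1.1 f)) =
      C h⁻¹ • W1.l (indY D h)⁻¹ (jMap F D (geo h.1.1 f)) := h1
    rw [h2, hc, map_smul, smul_smul]
  · show C h * (C h⁻¹ * c h) = c h
    rw [← mul_assoc, ← hmul, mul_inv_cancel, hC1, one_mul]
  · -- the last clause
    have hYV : ∀ (k : UU (B.restrict D.V1 D.nd)) (y : V), y ∈ D.Y →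
        (extU B D.V1 D.nd k).1.1 y = y := fun k y hy => extU_orth B D.V1 D.nd k (jchar_YV1 D hy)
    -- `C` on the extensions
    have hext : ∀ (k : UU (B.restrict D.V1 D.nd)) (hk : extU B D.V1 D.nd k ∈ stabY D),
        C ⟨extU B D.V1 D.nd k, hk⟩ = 1 := by
      intro k hk
      obtain ⟨I2, hI2⟩ := jMap_tens (F := F) D
      have hne : ∃ (f1 : SF D.V1 ℂ) (f2 : SF (orth B D.V1) ℂ),
          jMap F D (tens B D.V1 D.nd f1 f2) ≠ 0 := by
        by_contra hcon
        push Not at hcon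
        obtain ⟨g0, hg0⟩ := jchar_f0 F D.V1
        obtain ⟨f0, rfl⟩ := jMap_surjective (F := F) D g0
        apply hg0
        have h1 : Submodule.span ℂ {f : SF V ℂ | ∃ f1 f2, f = tens B D.V1 D.nd f1 f2} ≤
            LinearMap.ker (jMap F D) := by
          rw [Submodule.span_le]
          rintro f ⟨f1, f2, rfl⟩
          exact hcon f1 f2
        rw [tens_span F B D.V1 D.nd] at h1
        exact h1 (Submodule.mem_top (x := f0))
      obtain ⟨f1, f2, hf⟩ := hne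
      have hind : indY D ⟨extU B D.V1 D.nd k, hk⟩ = k := by
        apply Subtype.ext
        apply Units.ext
        apply LinearMap.ext
        intro w
        apply Subtype.ext
        rw [indY_apply]
        show prO B D.V1 D.nd ((extU B D.V1 D.nd k).1.1 (w : V)) = _
        rw [extU_mem]
        exact prO_of_mem B D.V1 D.nd (k.1.1 w).2
      have h1 := hC ⟨extU B D.V1 D.nd k, hk⟩ (tens B D.V1 D.nd f1 f2)
      have h2 : jMap F D (W.l (extU B D.V1 D.nd k) (tens B D.V1 D.nd f1 f2)) =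
          W1.l k (jMap F D (tens B D.V1 D.nd f1 f2)) := by
        rw [hW1, hI2, hI2, map_smul]
      rw [hind] at h1
      have h3 : W1.l k (jMap F D (tens B D.V1 D.nd f1 f2)) =
          C ⟨extU B D.V1 D.nd k, hk⟩ • W1.l k (jMap F D (tens B D.V1 D.nd f1 f2)) :=
        h2.symm.trans h1
      exact jchar_eq1 (jchar_linj W1 k hf) h3
    -- unipotent elements
    have huni : ∀ n : stabY D, (∀ y ∈ D.Y, n.1.1.1 y = y) →
        (∀ w ∈ D.V1, n.1.1.1 w - w ∈ D.Y) → C n = 1 := by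
      intro n hn hn1
      obtain ⟨m, hmY, hmV, hmn⟩ := exists_contr F D n.1 hn hn1 N hN hN1
      have hms : m ∈ stabY D := mem_stabY D m hmY
      have h1 : C ((⟨m, hms⟩ : stabY D) * n * (⟨m, hms⟩ : stabY D)⁻¹) = 1 := hNC _ hmn
      rw [hmul, hmul] at h1
      have h2 : C (⟨m, hms⟩ : stabY D) * C (⟨m, hms⟩ : stabY D)⁻¹ = 1 := by
        rw [← hmul, mul_inv_cancel, hC1]
      calc C n = C n * (C (⟨m, hms⟩ : stabY D) * C (⟨m, hms⟩ : stabY D)⁻¹) := by
            rw [h2, mul_one]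
        _ = C (⟨m, hms⟩ : stabY D) * C n * C (⟨m, hms⟩ : stabY D)⁻¹ := by ring
        _ = 1 := h1
    -- the element
    have hn : ∀ y ∈ D.Y, (h'⁻¹ * h).1.1.1 y = y := by
      intro y hy
      show (h'⁻¹ : stabY D).1.1.1 (h.1.1.1 y) = y
      rw [hhh y hy]
      exact congrArg (fun T : Module.End E V => T y) h'.1.1.inv_mul
    have hes : extU B D.V1 D.nd (indY D (h'⁻¹ * h)) ∈ stabY D :=
      mem_stabY D _ (fun y hy => by
        rw [hYV _ y hy]
        exact hy)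
    have h5 : C ((⟨extU B D.V1 D.nd (indY D (h'⁻¹ * h)), hes⟩ : stabY D)⁻¹ * (h'⁻¹ * h)) = 1 := by
      have hinv : ∀ v, (⟨extU B D.V1 D.nd (indY D (h'⁻¹ * h)), hes⟩ : stabY D)⁻¹.1.1.1
          ((extU B D.V1 D.nd (indY D (h'⁻¹ * h))).1.1 v) = v := fun v =>
        congrArg (fun T : Module.End E V => T v)
          (extU B D.V1 D.nd (indY D (h'⁻¹ * h))).1.inv_mul
      apply huni
      · intro y hy
        show (⟨extU B D.V1 D.nd (indY D (h'⁻¹ * h)), hes⟩ : stabY D)⁻¹.1.1.1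
          ((h'⁻¹ * h).1.1.1 y) = y
        rw [hn y hy]
        have h6 := hinv y
        rw [hYV _ y hy] at h6
        exact h6
      · intro w hw
        show (⟨extU B D.V1 D.nd (indY D (h'⁻¹ * h)), hes⟩ : stabY D)⁻¹.1.1.1
          ((h'⁻¹ * h).1.1.1 w) - w ∈ D.Y
        have h6 : (h'⁻¹ * h).1.1.1 w ∈ orth B D.Y := stabY_orth D (h'⁻¹ * h) (D.V1_le hw)
        have h7 := D.sub_pr h6
        have h8 : ((indY D (h'⁻¹ * h)).1.1 ⟨w, hw⟩ : V) =
            prO B D.V1 D.nd ((h'⁻¹ * h).1.1.1 w) := indY_apply D (h'⁻¹ * h) ⟨w, hw⟩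
        have h9 : (extU B D.V1 D.nd (indY D (h'⁻¹ * h))).1.1 w =
            prO B D.V1 D.nd ((h'⁻¹ * h).1.1.1 w) := by
          rw [← h8]
          exact extU_mem B D.V1 D.nd (indY D (h'⁻¹ * h)) ⟨w, hw⟩
        have h10 := hinv w
        rw [h9] at h10
        have h11 : (h'⁻¹ * h).1.1.1 w = prO B D.V1 D.nd ((h'⁻¹ * h).1.1.1 w) +
            ((h'⁻¹ * h).1.1.1 w - prO B D.V1 D.nd ((h'⁻¹ * h).1.1.1 w)) := by abel
        rw [h11, map_add, h10, add_sub_cancel_left]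
        have h12 := hinv ((h'⁻¹ * h).1.1.1 w - prO B D.V1 D.nd ((h'⁻¹ * h).1.1.1 w))
        rw [hYV _ _ h7] at h12
        rw [h12]
        exact h7
    rw [hmul] at h5
    have h6 : C (⟨extU B D.V1 D.nd (indY D (h'⁻¹ * h)), hes⟩ : stabY D)⁻¹ = 1 := by
      have h7 : C (⟨extU B D.V1 D.nd (indY D (h'⁻¹ * h)), hes⟩ : stabY D) *
          C (⟨extU B D.V1 D.nd (indY D (h'⁻¹ * h)), hes⟩ : stabY D)⁻¹ = 1 := by
        rw [← hmul, mul_inv_cancel, hC1]
      rw [hext, one_mul] at h7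
      exact h7
    rw [h6, one_mul] at h5
    calc C h = C (h' * (h'⁻¹ * h)) := by rw [mul_inv_cancel_left]
      _ = C h' := by rw [hmul, h5, mul_one]

end

end Pool.Agent.Work.MP_dd0ddf_al.OC
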