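import Pool.Agent.Work.MP_dd0ddf_al.OC.FdPoly
import Pool.Agent.Work.MP_dd0ddf_al.OC.KEx
import Pool.Agent.Work.MP_dd0ddf_al.OC.K64
import Pool.Agent.Work.MP_dd0ddf_al.OC.NiE1

/-!
# MP_dd0ddf_al, module PolyB: a polynomial b with b bbar = x mod P, if no bad q divides P

`exists_b_pow`: `q ∈ F[x]` monic irreducible over F, `q(0) ≠ 0`, not bad, `m : ℕ`.
 If `q` is irreducible over E: KData `D`; `D.s` has norm `(-1)^d q(0)` (norm_s), a norm from E, so by `norm64` `s = z star z`, `z ∈ L`, `z = f(s)` with `f ∈ E[x]` (genL), so `q ∣ f fbar - x` (minL).  `f fbar ∈ F[x]` (self-conjugate).  It is invertible modulo q^m (q(0) ≠ 0, so q does not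
 divide x), so there is `w ∈ F[x]`, `w f fbar ≡ x mod q^m`, `w ≡ 1 mod q`; `w ≡ u²` (sqrt_mod), `b = f u`.
 If `q` is reducible over E then `q = r rbar` with `r` irreducible in E[x], `r`, `rbar` coprime (q is separable): take `b ≡ x mod r^m`, `b ≡ 1 mod rbar^m` (CRT in E[x]); then `bbar ≡ x mod rbar^m`, `bbar ≡ 1 mod r^m`.
 (q monic irreducible over F and reducible over E: let r be a monic irreducible factor over E, r ∣ q; rbar ∣ q; if r ≠ rbar they are coprime, r rbar ∈ F[x] divides q so equals q; if r = rbar then r ∈ F[x] divides q, r = q irreducible over E, excluded.)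
`exists_b_mul`: if `b1` works for `P1`, `b2` for `P2`, `P1, P2 ∈ F[x]` coprime: `b ≡ b1 mod P1`, `b ≡ b2 mod P2`.
`exists_b`: induction over the factorisation of P (Mathlib: `induction_on_coprime` or similar).
-/

set_option linter.unusedSectionVars false
set_option linter.style.haveILetI false

namespace Pool.Agent.Work.MP_dd0ddf_al.OC

noncomputable section

universe u

section Alg

open Polynomial

variable {F E : Type u} [Field F] [Field E] [Algebra F E] [StarRing E]

private theorem polyb_descent (hfix : ∀ x : E, star x = x → ∃ f : F, x = algebraMap F E f)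
    (P : E[X]) (h : P.map (starRingEnd E) = P) : ∃ P0 : F[X], P0.map (algebraMap F E) = P := by
  have h1 : P ∈ Polynomial.lifts (algebraMap F E) := by
    rw [Polynomial.lifts_iff_coeff_lifts]
    intro n
    have h2 : star (P.coeff n) = P.coeff n := by
      have h3 := congrArg (fun p => Polynomial.coeff p n) h
      simp only [Polynomial.coeff_map, starRingEnd_apply] at h3
      exact h3
    obtain ⟨f, hf⟩ := hfix _ h2
    exact ⟨f, hf.symm⟩
  exact (Polynomial.mem_lifts P).1 h1

private theorem polyb_conj (hstar : ∀ x : F, star (algebraMap F E x) = algebraMap F E x)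
    (p : F[X]) : (p.map (algebraMap F E)).map (starRingEnd E) = p.map (algebraMap F E) := by
  rw [Polynomial.map_map]
  congr 1
  ext x
  exact hstar x

private theorem polyb_conj2 (p : E[X]) : (p.map (starRingEnd E)).map (starRingEnd E) = p := by
  rw [Polynomial.map_map]
  have h2 : (starRingEnd E).comp (starRingEnd E) = RingHom.id E := by
    ext x
    simp
  rw [h2, Polynomial.map_id]

private theorem polyb_mul (hstar : ∀ x : F, star (algebraMap F E x) = algebraMap F E x)
    (P₁ P₂ : F[X]) (hco : IsCoprime P₁ P₂)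
    (h₁ : ∃ b : E[X], P₁.map (algebraMap F E) ∣ b * b.map (starRingEnd E) - X)
    (h₂ : ∃ b : E[X], P₂.map (algebraMap F E) ∣ b * b.map (starRingEnd E) - X) :
    ∃ b : E[X], (P₁ * P₂).map (algebraMap F E) ∣ b * b.map (starRingEnd E) - X := by
  obtain ⟨b₁, c₁, hc₁⟩ := h₁
  obtain ⟨b₂, c₂, hc₂⟩ := h₂
  have hco' : IsCoprime (P₁.map (algebraMap F E)) (P₂.map (algebraMap F E)) :=
    hco.map (Polynomial.mapRingHom (algebraMap F E))
  obtain ⟨u, v, huv⟩ := hco
  have huv' : u.map (algebraMap F E) * P₁.map (algebraMap F E) +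
      v.map (algebraMap F E) * P₂.map (algebraMap F E) = 1 := by
    rw [← Polynomial.map_mul, ← Polynomial.map_mul, ← Polynomial.map_add, huv,
      Polynomial.map_one]
  set u' := u.map (algebraMap F E) with hu'
  set v' := v.map (algebraMap F E) with hv'
  set Q₁ := P₁.map (algebraMap F E) with hQ₁
  set Q₂ := P₂.map (algebraMap F E) with hQ₂
  have hcu : u'.map (starRingEnd E) = u' := polyb_conj hstar u
  have hcv : v'.map (starRingEnd E) = v' := polyb_conj hstar v
  have hcQ₁ : Q₁.map (starRingEnd E) = Q₁ := polyb_conj hstar P₁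
  have hcQ₂ : Q₂.map (starRingEnd E) = Q₂ := polyb_conj hstar P₂
  refine ⟨b₁ * (v' * Q₂) + b₂ * (u' * Q₁), ?_⟩
  rw [Polynomial.map_mul, ← hQ₁, ← hQ₂]
  simp only [Polynomial.map_add, Polynomial.map_mul, hcu, hcv, hcQ₁, hcQ₂]
  set d₁ := b₁.map (starRingEnd E) with hd₁
  set d₂ := b₂.map (starRingEnd E) with hd₂
  have e1 : v' * Q₂ = 1 - u' * Q₁ := by linear_combination huv'
  have e2 : u' * Q₁ = 1 - v' * Q₂ := by linear_combination huv'
  refine hco'.mul_dvd ?_ ?_
  · rw [e1]
    refine ⟨c₁ + (b₂ - b₁) * u' * d₁ + (d₂ - d₁) * u' * b₁ +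
      (b₂ - b₁) * (d₂ - d₁) * u' * u' * Q₁, ?_⟩
    linear_combination hc₁
  · rw [e2]
    refine ⟨c₂ + (b₁ - b₂) * v' * d₂ + (d₁ - d₂) * v' * b₂ +
      (b₁ - b₂) * (d₁ - d₂) * v' * v' * Q₂, ?_⟩
    linear_combination hc₂

private theorem polyb_irr_conj {r : E[X]} (hr : Irreducible r) :
    Irreducible (r.map (starRingEnd E)) := by
  let e : E[X] ≃+* E[X] :=
    { toFun := fun p => p.map (starRingEnd E)
      invFun := fun p => p.map (starRingEnd E)
      left_inv := fun p => polyb_conj2 p
      right_inv := fun p => polyb_conj2 p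
      map_mul' := fun p q => Polynomial.map_mul _
      map_add' := fun p q => Polynomial.map_add _ }
  exact (MulEquiv.irreducible_iff (e : E[X] ≃* E[X])).2 hr

private theorem polyb_split (hfix : ∀ x : E, star x = x → ∃ f : F, x = algebraMap F E f)
    (hstar : ∀ x : F, star (algebraMap F E x) = algebraMap F E x)
    (q : F[X]) (hq : q.Monic) (hirr : Irreducible q)
    (hni : ¬ Irreducible (q.map (algebraMap F E))) :
    ∃ r : E[X], IsCoprime r (r.map (starRingEnd E)) ∧
      q.map (algebraMap F E) ∣ r * r.map (starRingEnd E) := by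
  set Q := q.map (algebraMap F E) with hQ
  have hQm : Q.Monic := hq.map _
  have hQc : Q.map (starRingEnd E) = Q := polyb_conj hstar q
  have hQu : ¬ IsUnit Q := by
    intro hu
    have h1 := hQm.eq_one_of_isUnit hu
    have h2 : q = 1 := by
      apply Polynomial.map_injective (algebraMap F E) (algebraMap F E).injective
      rw [← hQ, h1, Polynomial.map_one]
    exact hirr.not_isUnit (h2 ▸ isUnit_one)
  obtain ⟨r, hrm, hri, hrd⟩ := Polynomial.exists_monic_irreducible_factor Q hQu
  have hrcm : (r.map (starRingEnd E)).Monic := hrm.map _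
  have hrci : Irreducible (r.map (starRingEnd E)) := polyb_irr_conj hri
  have hrcd : r.map (starRingEnd E) ∣ Q := by
    rw [← hQc]
    exact Polynomial.map_dvd _ hrd
  have hkey : ∀ s : E[X], s.map (starRingEnd E) = s → s ∣ Q → ¬ IsUnit s → Q ∣ s := by
    intro s hs hsd hsu
    obtain ⟨s0, hs0⟩ := polyb_descent hfix s hs
    rw [← hs0, hQ, Polynomial.map_dvd_map'] at hsd
    obtain ⟨c, hc⟩ := hsd
    rcases hirr.isUnit_or_isUnit hc with hu | hu
    · exfalso
      apply hsu
      rw [← hs0]
      exact hu.map (Polynomial.mapRingHom (algebraMap F E))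
    · obtain ⟨d, hd⟩ := hu.exists_right_inv
      rw [← hs0]
      exact Polynomial.map_dvd (algebraMap F E) ⟨d, by rw [hc, mul_assoc, hd, mul_one]⟩
  have hne : r.map (starRingEnd E) ≠ r := by
    intro h
    have h1 := hkey r h hrd hri.not_isUnit
    have h2 : Q = r := Polynomial.eq_of_monic_of_associated hQm hrm
      (associated_of_dvd_dvd h1 hrd)
    exact hni (h2 ▸ hri)
  have hco : IsCoprime r (r.map (starRingEnd E)) := by
    by_contra hnc
    · have h : r ∣ r.map (starRingEnd E) := by
        by_contra h'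
        exact hnc (hri.coprime_iff_not_dvd.2 h')
      exact hne (Polynomial.eq_of_monic_of_associated hrcm hrm
        (hri.associated_of_dvd hrci h).symm)
  refine ⟨r, hco, hkey _ ?_ (hco.mul_dvd hrd hrcd) ?_⟩
  · rw [Polynomial.map_mul, polyb_conj2, mul_comm]
  · intro hu
    exact hri.not_isUnit (isUnit_of_mul_isUnit_left hu)

private theorem polyb_split_pow (hfix : ∀ x : E, star x = x → ∃ f : F, x = algebraMap F E f)
    (hstar : ∀ x : F, star (algebraMap F E x) = algebraMap F E x)
    (q : F[X]) (hq : q.Monic) (hirr : Irreducible q)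
    (hni : ¬ Irreducible (q.map (algebraMap F E))) (m : ℕ) :
    ∃ b : E[X], (q ^ m).map (algebraMap F E) ∣ b * b.map (starRingEnd E) - X := by
  obtain ⟨r, hco, hd⟩ := polyb_split hfix hstar q hq hirr hni
  have hco' : IsCoprime (r ^ m) (r.map (starRingEnd E) ^ m) := hco.pow
  obtain ⟨a, c, hac⟩ := hco'
  have hac' := congrArg (Polynomial.map (starRingEnd E)) hac
  simp only [Polynomial.map_add, Polynomial.map_mul, Polynomial.map_pow, Polynomial.map_one,
    polyb_conj2] at hac'
  set R := r ^ m with hR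
  set S := r.map (starRingEnd E) ^ m with hS
  have hSR : S.map (starRingEnd E) = R := by
    rw [hS, Polynomial.map_pow, polyb_conj2]
  have hRS : R.map (starRingEnd E) = S := by
    rw [hR, Polynomial.map_pow]
  refine ⟨X * (c * S) + a * R, ?_⟩
  have h1 : (q ^ m).map (algebraMap F E) ∣ R * S := by
    rw [Polynomial.map_pow, hR, hS, ← mul_pow]
    exact pow_dvd_pow_of_dvd hd m
  refine h1.trans ?_
  simp only [Polynomial.map_add, Polynomial.map_mul, hSR, hRS, Polynomial.map_X]
  set a' := a.map (starRingEnd E) with ha'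
  set c' := c.map (starRingEnd E) with hc'
  -- hac : a * R + c * S = 1 ; hac' : a' * S + c' * R = 1
  have hco2 : IsCoprime R S := ⟨a, c, hac⟩
  refine hco2.mul_dvd ?_ ?_
  · have e1 : c * S = 1 - a * R := by linear_combination hac
    have e2 : a' * S = 1 - c' * R := by linear_combination hac'
    rw [e1, e2]
    exact ⟨X * (X * c' - c') + (a - X * a) * (X * (c' * R) + (1 - c' * R)), by ring⟩
  · have e1 : a * R = 1 - c * S := by linear_combination hac
    have e2 : c' * R = 1 - a' * S := by linear_combination hac'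
    rw [e1, e2]
    exact ⟨X * (X * c - c) + (a' - X * a') * (X * (c * S) + (1 - c * S)), by ring⟩

private theorem polyb_inert_pow (h2 : (2 : F) ≠ 0)
    (hfix : ∀ x : E, star x = x → ∃ f : F, x = algebraMap F E f)
    (hstar : ∀ x : F, star (algebraMap F E x) = algebraMap F E x)
    (q : F[X]) (hirr : Irreducible q) (h0 : q.coeff 0 ≠ 0) (f : E[X])
    (hf : q.map (algebraMap F E) ∣ f * f.map (starRingEnd E) - X) (m : ℕ) :
    ∃ b : E[X], (q ^ m).map (algebraMap F E) ∣ b * b.map (starRingEnd E) - X := by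
  rcases Nat.eq_zero_or_pos m with rfl | hm
  · exact ⟨0, by rw [pow_zero, Polynomial.map_one]; exact one_dvd _⟩
  have hqX : ¬ q ∣ X := by
    rintro ⟨c, hc⟩
    have h3 : q.coeff 0 * c.coeff 0 = 0 := by
      rw [← Polynomial.mul_coeff_zero, ← hc, Polynomial.coeff_X_zero]
    have h4 : X ∣ c := Polynomial.X_dvd_iff.2 ((mul_eq_zero.1 h3).resolve_left h0)
    obtain ⟨d, rfl⟩ := h4
    have h5 : (X : F[X]) * 1 = X * (q * d) := by linear_combination hc
    have h6 := mul_left_cancel₀ Polynomial.X_ne_zero h5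
    exact hirr.not_isUnit (IsUnit.of_mul_eq_one d h6.symm)
  have hself : (f * f.map (starRingEnd E)).map (starRingEnd E) = f * f.map (starRingEnd E) := by
    rw [Polynomial.map_mul, polyb_conj2, mul_comm]
  obtain ⟨g, hg⟩ := polyb_descent hfix _ hself
  have hqg : q ∣ g - X := by
    rw [← Polynomial.map_dvd_map' (algebraMap F E), Polynomial.map_sub, hg, Polynomial.map_X]
    exact hf
  have hng : ¬ q ∣ g := by
    intro h
    apply hqX
    have := dvd_sub h hqg
    rwa [sub_sub_cancel] at this
  have hco : IsCoprime (q ^ m) g := (hirr.coprime_iff_not_dvd.2 hng).pow_left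
  obtain ⟨a, b, hab⟩ := hco
  have hw1 : q ∣ b * X - 1 := by
    have h7 : q ∣ (b * X - 1) * X := by
      obtain ⟨c, hc⟩ := hqg
      obtain ⟨n, rfl⟩ : ∃ n, m = n + 1 := ⟨m - 1, by omega⟩
      refine ⟨-(a * q ^ n * X) - b * X * c, ?_⟩
      rw [pow_succ] at hab
      linear_combination X * hab - b * X * hc
    exact (hirr.prime.dvd_or_dvd h7).resolve_right hqX
  obtain ⟨u, ⟨c, hc⟩, -⟩ := sqrt_mod h2 q (b * X) hirr hw1 m
  refine ⟨f * u.map (algebraMap F E), ?_⟩
  rw [Polynomial.map_mul, polyb_conj hstar]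
  have h8 : f * u.map (algebraMap F E) * (f.map (starRingEnd E) * u.map (algebraMap F E)) - X =
      (g * u ^ 2 - X).map (algebraMap F E) := by
    rw [Polynomial.map_sub, Polynomial.map_mul, hg, Polynomial.map_pow, Polynomial.map_X]
    ring
  rw [h8]
  apply Polynomial.map_dvd
  exact ⟨g * c - a * X, by linear_combination g * hc + X * hab⟩

end Alg

variable {F E : Type u} [NontriviallyNormedField F] [IsUltrametricDist F] [ProperSpace F]
  [NeZero (2 : F)] [NontriviallyNormedField E] [NormedAlgebra F E] [ProperSpace E] [StarRing E]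
  [QExt F E]

open Polynomial

private theorem polyb_star_aeval {K L : Type u} [NontriviallyNormedField K]
    [NontriviallyNormedField L] [NormedAlgebra K L] [StarRing L] [QExt K L]
    [NormedAlgebra F K] [NormedAlgebra E L] [Algebra F L] [KCompat F E K L] (s : K) (f : E[X]) :
    star (aeval (algebraMap K L s) f) = aeval (algebraMap K L s) (f.map (starRingEnd E)) := by
  induction f using Polynomial.induction_on' with
  | add f g hf hg => rw [map_add, star_add, hf, hg, Polynomial.map_add, map_add]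
  | monomial n a =>
    rw [Polynomial.map_monomial, Polynomial.aeval_monomial, Polynomial.aeval_monomial,
      star_mul', star_pow, QExt.star_alg (F := K) (E := L),
      KCompat.star_comm (F := F) (E := E) (K := K) (L := L)]
    rfl

theorem exists_b_pow (q : F[X]) (hq : q.Monic) (hirr : Irreducible q) (h0 : q.coeff 0 ≠ 0)
    (hbad : ¬ Bad F E q) (m : ℕ) :
    ∃ b : E[X], (q ^ m).map (algebraMap F E) ∣ b * b.map (starRingEnd E) - X := by
  obtain ⟨-, -, -, -, -, hfix⟩ := exists_eta F E
  have hstar := QExt.star_alg (F := F) (E := E)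
  by_cases hi : Irreducible (q.map (algebraMap F E))
  · obtain ⟨D⟩ := exists_KData q hq hi
    have hnorm : IsNorm F E ((-1) ^ q.natDegree * q.coeff 0) := by
      by_contra hn
      exact hbad ⟨hq, hi, h0, hn⟩
    rw [← D.norm_s hq] at hnorm
    have hs0 : D.s ≠ 0 := by
      intro h
      have h1 := D.root
      rw [h, Polynomial.aeval_def, Polynomial.eval₂_at_zero] at h1
      exact h0 ((map_eq_zero _).1 h1)
    obtain ⟨z, -, hz⟩ := (norm64 (F := F) (E := E) (K := D.K) (L := D.L) D.s hs0).2 hnorm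
    obtain ⟨f, hf⟩ := D.genL z
    have hdvd : q.map (algebraMap F E) ∣ f * f.map (starRingEnd E) - X := by
      rw [← D.minL, map_sub, map_mul, ← polyb_star_aeval (F := F) (K := D.K), ← hf, hz,
        Polynomial.aeval_X, sub_self]
    exact polyb_inert_pow two_ne_zero hfix hstar q hirr h0 f hdvd m
  · exact polyb_split_pow hfix hstar q hq hirr hi m

theorem exists_b_mul (P₁ P₂ : F[X]) (hco : IsCoprime P₁ P₂)
    (h₁ : ∃ b : E[X], P₁.map (algebraMap F E) ∣ b * b.map (starRingEnd E) - X)
    (h₂ : ∃ b : E[X], P₂.map (algebraMap F E) ∣ b * b.map (starRingEnd E) - X) :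
    ∃ b : E[X], (P₁ * P₂).map (algebraMap F E) ∣ b * b.map (starRingEnd E) - X :=
  polyb_mul (QExt.star_alg (F := F) (E := E)) P₁ P₂ hco h₁ h₂

private theorem polyb_all (P : F[X]) : P.coeff 0 ≠ 0 → (∀ q : F[X], Bad F E q → ¬ q ∣ P) →
    ∃ b : E[X], P.map (algebraMap F E) ∣ b * b.map (starRingEnd E) - X := by
  induction P using UniqueFactorizationMonoid.induction_on_coprime with
  | h0 => 
    intro h
    exact absurd (Polynomial.coeff_zero 0) h
  | h1 hu =>
    intro _ _
    exact ⟨0, (hu.map (Polynomial.mapRingHom (algebraMap F E))).dvd⟩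
  | @hpr p i hp =>
    intro h0 hbad
    rcases Nat.eq_zero_or_pos i with rfl | hi
    · exact ⟨0, by rw [pow_zero, Polynomial.map_one]; exact one_dvd _⟩
    have hp0 : p ≠ 0 := hp.ne_zero
    have hlc : p.leadingCoeff ≠ 0 := Polynomial.leadingCoeff_ne_zero.2 hp0
    set q : F[X] := p * C (p.leadingCoeff)⁻¹ with hq
    have hqm : q.Monic := Polynomial.monic_mul_leadingCoeff_inv hp0
    have hcu : IsUnit (C (p.leadingCoeff)⁻¹ : F[X]) :=
      (isUnit_iff_ne_zero.2 (inv_ne_zero hlc)).map C
    have hqp : Associated p q := (associated_mul_unit_right p _ hcu)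
    have hqi : Irreducible q := hqp.irreducible hp.irreducible
    have hp00 : p.coeff 0 ≠ 0 := by
      intro h
      apply h0
      rw [Polynomial.coeff_zero_eq_eval_zero] at h ⊢
      rw [Polynomial.eval_pow, h, zero_pow hi.ne']
    have hq00 : q.coeff 0 ≠ 0 := by
      rw [hq, Polynomial.coeff_mul_C]
      exact mul_ne_zero hp00 (inv_ne_zero hlc)
    have hqb : ¬ Bad F E q := fun h => hbad q h (hqp.symm.dvd.trans (dvd_pow_self p hi.ne'))
    obtain ⟨b, hb⟩ := exists_b_pow q hqm hqi hq00 hqb i
    exact ⟨b, (Polynomial.map_dvd _ (pow_dvd_pow_of_dvd hqp.dvd i)).trans hb⟩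
  | @hcp x y hxy hx hy =>
    intro h0 hbad
    rw [Polynomial.mul_coeff_zero] at h0
    have h1 := hx (left_ne_zero_of_mul h0) fun q hq h => hbad q hq (h.mul_right _)
    have h2 := hy (right_ne_zero_of_mul h0) fun q hq h => hbad q hq (h.mul_left _)
    exact exists_b_mul x y hxy.isCoprime h1 h2

theorem exists_b (P : F[X]) (hP : P.Monic) (h0 : P.coeff 0 ≠ 0)
    (hbad : ∀ q : F[X], Bad F E q → ¬ q ∣ P) :
    ∃ b : E[X], P.map (algebraMap F E) ∣ b * b.map (starRingEnd E) - X :=
  polyb_all P h0 hbad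

end

end Pool.Agent.Work.MP_dd0ddf_al.OC
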