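import Pool.Agent.Work.MP_dd0ddf_al.OC.SimDefs
import Pool.Agent.Work.MP_dd0ddf_al.OC.NiClass
import Pool.Agent.Work.MP_dd0ddf_al.OC.PolyB

/-!
# MP_dd0ddf_al (all characteristics /= 2), module ExSimA: similitudes and square roots of `x/c0` modulo `P`

`exists_simA`: if `dim V` is even then for every `c ≠ 0` in F there is a similitude of factor `c`: the form `c B` has discriminant `c^n disc B`, the same class as `disc B`.
`exists_bc`: `q = x^e - c`, `e` odd, bad, `c0` not a norm: there is `b ∈ E[x]` with `b bbar = x / c0 mod q^m`: substitute `x = c0 y`: `q'(y) = y^e - c / c0^e` is not bad since `c / c0^e` is a norm.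
-/

set_option linter.unusedSectionVars false
set_option linter.style.haveILetI false

namespace Pool.Agent.Work.MP_dd0ddf_al.OC

noncomputable section

universe u

variable {F E : Type u} [NontriviallyNormedField F] [IsUltrametricDist F] [ProperSpace F]
  [NeZero (2 : F)] [NontriviallyNormedField E] [NormedAlgebra F E] [ProperSpace E] [StarRing E]
  [QExt F E]
variable {V : Type u} [AddCommGroup V] [Module E V] [Module.Finite E V]

theorem exists_simA (B : SkewH E V) (hn : Even (Module.finrank E V)) (c : F) (hc : c ≠ 0) :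
    ∃ g₀ : GV E V, IsSim B c g₀ := by
  classical
  have hcE : algebraMap F E c ≠ 0 := fun h => hc ((algebraMap F E).injective (by rw [h, map_zero]))
  let B' : SkewH E V :=
    { ip := fun v w => algebraMap F E c * B.ip v w
      add_left := fun u v w => by rw [B.add_left, mul_add]
      smul_left := fun a v w => by rw [B.smul_left]; ring
      skew := fun v w => by rw [B.skew v w, star_mul', QExt.star_alg]; ring
      nondeg := fun v h => B.nondeg v fun w => (mul_eq_zero.1 (h w)).resolve_left hcE }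
  obtain ⟨j, hj⟩ := hn
  let b := Module.finBasis E V
  have hg : gram B' b = algebraMap F E c • gram B b := by
    ext i k
    rfl
  have hdet : (gram B' b).det = algebraMap F E c ^ Module.finrank E V * (gram B b).det := by
    rw [hg, Matrix.det_smul, Fintype.card_fin]
  have hpow : algebraMap F E c ^ Module.finrank E V =
      algebraMap F E c ^ j * algebraMap F E c ^ j := by
    rw [hj, pow_add]
  have h1 : algebraMap F E c ^ j ≠ 0 := pow_ne_zero _ hcE
  obtain ⟨φ, hφ⟩ := isometric_of_disc F B' B b b ((algebraMap F E c ^ j)⁻¹)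
    (inv_ne_zero h1) (by
      rw [hdet, star_inv₀, star_pow, QExt.star_alg, hpow]
      field_simp)
  refine ⟨⟨φ.toLinearMap, φ.symm.toLinearMap, ?_, ?_⟩, hc, fun v w => hφ v w⟩
  · ext v
    exact φ.apply_symm_apply v
  · ext v
    exact φ.symm_apply_apply v

open Polynomial

private theorem exsima_irr {R : Type*} [Field R] (a : R) (ha : a ≠ 0) (q q' : R[X]) (u : R)
    (hu : u ≠ 0) (h : q.comp (C a * X) = C u * q') (hq : Irreducible q) : Irreducible q' := by
  letI : Invertible a := invertibleOfNonzero ha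
  have h1 : Irreducible (Polynomial.algEquivCMulXAddC a 0 q) :=
    (MulEquiv.irreducible_iff (Polynomial.algEquivCMulXAddC a 0)).2 hq
  have h2 : Polynomial.algEquivCMulXAddC a 0 q = C u * q' := by
    rw [← h, Polynomial.algEquivCMulXAddC_apply, C_0, add_zero]
    rfl
  rw [h2] at h1
  exact (irreducible_isUnit_mul (Polynomial.isUnit_C.2 (isUnit_iff_ne_zero.2 hu))).1 h1

theorem exists_bc (q : F[X]) (e : ℕ) (he : Odd e) (c c0 : F) (hq : q = X ^ e - C c)
    (hbad : Bad F E q) (hc0 : c0 ≠ 0) (hc0n : ¬ IsNorm F E c0) (m : ℕ) :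
    ∃ b : E[X], (q ^ m).map (algebraMap F E) ∣
      b * b.map (starRingEnd E) - C (algebraMap F E c0⁻¹) * X := by
  have hepos : 0 < e := he.pos
  have hdeg : q.natDegree = e := by rw [hq, natDegree_X_pow_sub_C]
  have hcoef : q.coeff 0 = -c := by
    rw [hq, coeff_sub, coeff_X_pow, if_neg (by omega), coeff_C_zero, zero_sub]
  have hc : c ≠ 0 := by
    intro h
    exact hbad.2.2.1 (by rw [hcoef, h, neg_zero])
  have hcn : ¬ IsNorm F E c := by
    have h1 := hbad.2.2.2
    rw [hdeg, hcoef, he.neg_one_pow, neg_one_mul, neg_neg] at h1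
    exact h1
  have hirr : Irreducible q := hbad.1.irreducible_of_irreducible_map _ _ hbad.2.1
  set c' : F := c * (c0 ^ e)⁻¹ with hc'
  set q' : F[X] := X ^ e - C c' with hq'
  have hmon : q'.Monic := monic_X_pow_sub_C _ (by omega)
  have hcomp : q.comp (C c0 * X) = C (c0 ^ e) * q' := by
    rw [hq, hq', sub_comp, pow_comp, X_comp, C_comp, mul_pow, mul_sub, ← C_pow, ← C_mul, hc',
      mul_comm c, mul_inv_cancel_left₀ (pow_ne_zero _ hc0)]
  have hirr' : Irreducible q' := exsima_irr c0 hc0 q q' (c0 ^ e) (pow_ne_zero _ hc0) hcomp hirr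
  have hc'0 : c' ≠ 0 := mul_ne_zero hc (inv_ne_zero (pow_ne_zero _ hc0))
  have hcoef' : q'.coeff 0 = -c' := by
    rw [hq', coeff_sub, coeff_X_pow, if_neg (by omega), coeff_C_zero, zero_sub]
  have hnorm' : IsNorm F E c' := by
    -- `c' = (c * c0) * (c0 ^ ((e + 1) / 2))⁻¹ ^ 2`
    obtain ⟨j, hj⟩ := he
    have h1 : IsNorm F E (c * c0) := nonnorm_mul F E hc hc0 hcn hc0n
    obtain ⟨x, hx0, hx⟩ := h1
    have hcE : algebraMap F E c0 ≠ 0 := fun h =>
      hc0 ((algebraMap F E).injective (by rw [h, map_zero]))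
    refine ⟨x * algebraMap F E ((c0 ^ (j + 1))⁻¹), mul_ne_zero hx0 ?_, ?_⟩
    · rw [map_inv₀, map_pow]
      exact inv_ne_zero (pow_ne_zero _ hcE)
    · rw [star_mul', QExt.star_alg]
      have h2 : x * algebraMap F E ((c0 ^ (j + 1))⁻¹) * (star x * algebraMap F E ((c0 ^ (j + 1))⁻¹)) =
          (x * star x) * algebraMap F E ((c0 ^ (j + 1))⁻¹ * (c0 ^ (j + 1))⁻¹) := by
        rw [map_mul]
        ring
      rw [h2, hx, ← map_mul, hc', hj]
      congr 1
      field_simp
      ring
  have hnb : ¬ Bad F E q' := by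
    intro h
    apply h.2.2.2
    rw [hq', natDegree_X_pow_sub_C, ← hq', hcoef', he.neg_one_pow, neg_one_mul, neg_neg]
    exact hnorm'
  obtain ⟨b, hb⟩ := exists_b_pow (F := F) (E := E) q' hmon hirr' (by
    rw [hcoef']
    exact neg_ne_zero.2 hc'0) hnb m
  -- substitute
  set l : E[X] := C (algebraMap F E c0⁻¹) * X with hl
  have hstar : l.map (starRingEnd E) = l := by
    rw [hl, Polynomial.map_mul, map_C, map_X]
    congr 2
    exact QExt.star_alg _
  refine ⟨b.comp l, ?_⟩
  have h1 : (b.comp l).map (starRingEnd E) = (b.map (starRingEnd E)).comp l := by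
    rw [map_comp, hstar]
  have h2 : b.comp l * (b.map (starRingEnd E)).comp l - l =
      (b * b.map (starRingEnd E) - X).comp l := by
    rw [sub_comp, mul_comp, X_comp]
  rw [h1, h2]
  obtain ⟨a, ha⟩ := hb
  rw [ha, mul_comp]
  refine Dvd.dvd.mul_right ?_ _
  -- `q'(x / c0) = c0^-e q(x)`
  have h3 : (q'.map (algebraMap F E)).comp l =
      C (algebraMap F E (c0 ^ e)⁻¹) * q.map (algebraMap F E) := by
    rw [hq', hq, Polynomial.map_sub, Polynomial.map_pow, map_X, map_C, sub_comp, pow_comp, X_comp,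
      C_comp, Polynomial.map_sub, Polynomial.map_pow, map_X, map_C, hl, mul_pow, mul_sub, ← C_pow,
      ← C_mul, ← map_pow, ← map_mul, hc', inv_pow, mul_comm c]
  rw [Polynomial.map_pow, Polynomial.map_pow, pow_comp, h3, mul_pow]
  exact Dvd.intro_left _ rfl

end

end Pool.Agent.Work.MP_dd0ddf_al.OC
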