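import Pool.Agent.Work.MP_dd0ddf_al.OC.HaarApi

/-!
# MP_dd0ddf_al, module FourDefs: bicharacters and the Fourier transform (definitions; `four1_exists`, `four2_exists` are proved in module FourEx)
-/

set_option linter.unusedSectionVars false
set_option linter.style.haveILetI false

namespace Pool.Agent.Work.MP_dd0ddf_al.OC

noncomputable section

/-- a nondegenerate unitary bicharacter on a locally profinite abelian group -/
structure BiChar (U : Type*) [AddCommGroup U] [TopologicalSpace U] where
  χ : U → U → ℂ
  addl : ∀ a b w, χ (a + b) w = χ a w * χ b w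
  addr : ∀ v a b, χ v (a + b) = χ v a * χ v b
  norm : ∀ v w, ‖χ v w‖ = 1
  lc : IsLocallyConstant (fun q : U × U => χ q.1 q.2)
  nd : ∀ v, (∀ w, χ v w = 1) → v = 0
  nd' : ∀ w, (∀ v, χ v w = 1) → w = 0
  perp : ∀ L : AddSubgroup U, IsOpen (L : Set U) → IsCompact {w | ∀ v ∈ L, χ v w = 1}
  perp' : ∀ L : AddSubgroup U, IsOpen (L : Set U) → IsCompact {v | ∀ w ∈ L, χ v w = 1}

variable {U : Type*} [AddCommGroup U] [TopologicalSpace U]

theorem BiChar.lcl (χ : BiChar U) (w : U) : IsLocallyConstant (fun v => χ.χ v w) :=
  χ.lc.comp_continuous (Continuous.prodMk_left w)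

theorem BiChar.lcr (χ : BiChar U) (v : U) : IsLocallyConstant (fun w => χ.χ v w) :=
  χ.lc.comp_continuous (Continuous.prodMk_right v)

/-- the bicharacter `(w, v) ↦ conj χ(v, w)` -/
def BiChar.dual (χ : BiChar U) : BiChar U where
  χ w v := star (χ.χ v w)
  addl a b w := by rw [χ.addr, star_mul, mul_comm]
  addr v a b := by rw [χ.addl, star_mul, mul_comm]
  norm v w := by rw [norm_star, χ.norm]
  lc := (χ.lc.comp_continuous continuous_swap).comp star
  nd v h := χ.nd' v fun w => by
    have := congrArg star (h w)
    simpa using this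
  nd' w h := χ.nd w fun v => by
    have := congrArg star (h v)
    simpa using this
  perp L hL := by
    refine (χ.perp' L hL).of_isClosed_subset ?_ ?_
    · have h : {w | ∀ v ∈ L, star (χ.χ w v) = 1} = ⋂ v ∈ L, {w | star (χ.χ w v) = 1} := by
        ext w
        simp
      rw [h]
      refine isClosed_biInter fun v _ => ?_
      exact isClosed_eq (((χ.lcl v).comp star).continuous) continuous_const
    · intro w hw v hv
      have := congrArg star (hw v hv)
      simpa using this
  perp' L hL := by
    refine (χ.perp L hL).of_isClosed_subset ?_ ?_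
    · have h : {w | ∀ v ∈ L, star (χ.χ v w) = 1} = ⋂ v ∈ L, {w | star (χ.χ v w) = 1} := by
        ext w
        simp
      rw [h]
      refine isClosed_biInter fun v _ => ?_
      exact isClosed_eq (((χ.lcr v).comp star).continuous) continuous_const
    · intro w hw v hv
      have := congrArg star (hw v hv)
      simpa using this

variable [IsTopologicalAddGroup U] [LocallyCompactSpace U]
  {B : Type*} [AddCommGroup B] [Module ℂ B]

/-- the Fourier transform as a function: `w ↦ ∫ χ(v, w) f(v) dv` -/
def fourFun (χ : BiChar U) (f : SF U B) (w : U) : B :=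
  hI (SF.mulc (fun v => χ.χ v w) (χ.lcl w) f)

end

end Pool.Agent.Work.MP_dd0ddf_al.OC
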