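import Pool.Agent.Work.MP_dd0ddf_al.OC.FxSplA
import Pool.Agent.Work.MP_dd0ddf_al.OC.Fx71
import Pool.Agent.Work.MP_dd0ddf_al.OC.SplAux
import Pool.Agent.Work.MP_dd0ddf_al.OC.LinNu

/-!
# MP_dd0ddf_al, module FxSplit: one block, q reducible over E

`q = r rbar` over `E`, `r` irreducible, `r, rbar` coprime (q irreducible over F, reducible over E; factor over E, the Galois group permutes the factors; char 0).
`U = cyc X e = W ⊕ W'`, `W = rbar^k(X) U` (annihilated by r^k), `W' = r^k(X) U`; both isotropic, `dim_E W = dim_E W' = k deg r`.  The projections `P, P'` of V onto `W`, `W'`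
along the rest are `prO` composed with polynomials in `X` (CRT: `a ≡ 1 mod r^k, ≡ 0 mod rbar^k`).
Claim by induction on `j ≤ ⌈k/2⌉`: for every S' with `BlkHyp`, `S'` is supported on `{pr v ∈ q^j(X) U}`.  (Applied to S and S ∘ fourV, `blkHyp_four`.)
j = 0 trivial.  Step: `2j < k`.  By the claim for `S ∘ fourV` and `four_trans`: `S` is invariant under translations by `q^{k-j}(X) U` (`⟨q^j U, q^{k-j}U⟩ = 0`).
Let `v` be in the supports, `pr v = w + φ`, `w = P v ∈ r^j(X)W`, `φ ∈ rbar^j(X) W'`.  `⟨X^n pr v, pr v⟩ = 0` for all `n` iff (as for the inert case) `q^k | f f̄`, `pr v = f(X) e`; with `a = v_r(f)`,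
`b = v_rbar(f)` (so `w ∈ r^a W \ r^{a+1} W` …): iff `a + b ≥ k`.  So with `A1 = r^{j+1}(X) W`, `A' = rbar^{k-j}(X) W'`: supported on `{P v ∉ A1 → P' v ∈ A'}` (suppOn_inter).
`dim_E A' = j deg r`, `2j < k`.  hc: `c_t` = `t²` on W, `t⁻²` on W', 1 on U^⊥ is in `U(V)` and acts on `U` by a polynomial in X: b3.  hD: `fx71` (`dim_E U = 2 k deg r`; `dilOn = dil2` with s = s').
`fx_spl_abs` gives support in `{P v ∈ r^{j+1}W}`; exchanging the roles of `r` and `rbar`: `{P' v ∈ rbar^{j+1} W'}`; together `{pr v ∈ q^{j+1} U}`.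
At `j = ⌈k/2⌉ = (k+1)/2`: c1; c2 from the claim for `S ∘ fourV` and `four_trans` (`k - (k+1)/2 = k/2`).
-/

set_option linter.unusedSectionVars false
set_option linter.style.haveILetI false

namespace Pool.Agent.Work.MP_dd0ddf_al.OC

noncomputable section

universe u

variable {F E : Type u} [NontriviallyNormedField F] [IsUltrametricDist F] [ProperSpace F]
  [NeZero (2 : F)] [NontriviallyNormedField E] [NormedAlgebra F E] [ProperSpace E] [StarRing E]
  [QExt F E]
variable {V : Type u} [AddCommGroup V] [Module E V] [Module.Finite E V] [TopologicalSpace V]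
  [IsTopologicalAddGroup V] [T2Space V] [ContinuousSMul E V]

open Polynomial

/-- the data of the split case -/
private structure SplD {B : SkewH E V} (X : SA B) (e : V) (Q : Polynomial E) (k : ℕ)
    (r a : Polynomial E) : Prop where
  irr : Irreducible r
  fac : Q = r * bar r
  cop : IsCoprime r (bar r)
  ann : ∀ f : Polynomial E, aeval X.1 f e = 0 ↔ Q ^ k ∣ f
  a1 : r ^ k ∣ a - 1
  a0 : (bar r) ^ k ∣ a

private theorem SplD.swap {B : SkewH E V} {X : SA B} {e : V} {Q : Polynomial E} {k : ℕ}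
    {r a : Polynomial E} (h : SplD X e Q k r a) : SplD X e Q k (bar r) (bar a) where
  irr := bar_irr h.irr
  fac := by rw [bar_bar, mul_comm, ← h.fac]
  cop := by
    rw [bar_bar]
    exact h.cop.symm
  ann := h.ann
  a1 := by
    have h1 := bar_dvd h.a1
    rwa [bar_pow, bar_sub, bar_one] at h1
  a0 := by
    have h1 := bar_dvd h.a0
    rwa [bar_pow] at h1

private theorem SplD.Qk {B : SkewH E V} {X : SA B} {e : V} {Q : Polynomial E} {k : ℕ}
    {r a : Polynomial E} (h : SplD X e Q k r a) : Q ^ k = r ^ k * (bar r) ^ k := by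
  rw [h.fac, mul_pow]

/-- divisibility by `Q^k` -/
private theorem SplD.dvd {B : SkewH E V} {X : SA B} {e : V} {Q : Polynomial E} {k : ℕ}
    {r a : Polynomial E} (h : SplD X e Q k r a) {f : Polynomial E} (h1 : r ^ k ∣ f)
    (h2 : (bar r) ^ k ∣ f) : Q ^ k ∣ f := by
  rw [h.Qk]
  exact (h.cop.pow).mul_dvd h1 h2

/-- the projection -/
private def splP {B : SkewH E V} (X : SA B) (e : V) (hU : NDeg B (cyc X.1 e))
    (a : Polynomial E) : Module.End E V := aeval X.1 a * prO B _ hU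

private theorem splP_apply {B : SkewH E V} (X : SA B) (e : V) (hU : NDeg B (cyc X.1 e))
    (a f : Polynomial E) (v : V) (hv : prO B _ hU v = aeval X.1 f e) :
    splP X e hU a v = aeval X.1 (a * f) e := by
  show aeval X.1 a (prO B _ hU v) = _
  rw [hv, aeval_mul']

private theorem splP_eq {B : SkewH E V} (X : SA B) (e : V) (hU : NDeg B (cyc X.1 e))
    (Q : Polynomial E) (k : ℕ) (hann : ∀ f : Polynomial E, aeval X.1 f e = 0 ↔ Q ^ k ∣ f)
    (a b c : Polynomial E) (h : Q ^ k ∣ a * b - c) :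
    splP X e hU a * splP X e hU b = splP X e hU c := by
  apply LinearMap.ext
  intro v
  obtain ⟨f, hf⟩ := (mem_cyc X.1 e _).1 (prO_mem B _ hU v)
  have h1 : prO B _ hU (splP X e hU b v) = aeval X.1 (b * f) e := by
    rw [splP_apply X e hU b f v hf]
    exact prO_of_mem B _ hU ((mem_cyc X.1 e _).2 ⟨_, rfl⟩)
  show splP X e hU a (splP X e hU b v) = splP X e hU c v
  rw [splP_apply X e hU a _ _ h1, splP_apply X e hU c f v hf, ← sub_eq_zero]
  have h2 : aeval X.1 (a * (b * f)) e - aeval X.1 (c * f) e =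
      aeval X.1 ((a * b - c) * f) e := by
    have h3 : (a * b - c) * f = a * (b * f) - c * f := by ring
    rw [h3, map_sub]
    rfl
  rw [h2, hann]
  exact h.mul_right f

private theorem spl_idem {B : SkewH E V} {X : SA B} {e : V} {Q : Polynomial E} {k : ℕ}
    {r a : Polynomial E} (h : SplD X e Q k r a) (hU : NDeg B (cyc X.1 e)) :
    splP X e hU a * splP X e hU a = splP X e hU a := by
  refine splP_eq X e hU Q k h.ann a a a ?_
  have h1 : a * a - a = a * (a - 1) := by ring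
  rw [h1]
  exact h.dvd (h.a1.mul_left a) (h.a0.mul_right _)

private theorem spl_mul {B : SkewH E V} {X : SA B} {e : V} {Q : Polynomial E} {k : ℕ}
    {r a : Polynomial E} (h : SplD X e Q k r a) (hU : NDeg B (cyc X.1 e)) :
    splP X e hU a * splP X e hU (bar a) = 0 := by
  have h1 := splP_eq X e hU Q k h.ann a (bar a) 0 (by
    rw [sub_zero]
    refine h.dvd ?_ (h.a0.mul_right _)
    have h2 := h.swap.a0
    rw [bar_bar] at h2
    exact h2.mul_left _)
  rw [h1]
  unfold splP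
  rw [map_zero, zero_mul]

private theorem spl_one {B : SkewH E V} {X : SA B} {e : V} {Q : Polynomial E} {k : ℕ}
    {r a : Polynomial E} (h : SplD X e Q k r a) : Q ^ k ∣ a + bar a - 1 := by
  refine h.dvd ?_ ?_
  · have h2 := h.swap.a0
    rw [bar_bar] at h2
    have h3 : a + bar a - 1 = (a - 1) + bar a := by ring
    rw [h3]
    exact dvd_add h.a1 h2
  · have h3 : a + bar a - 1 = a + (bar a - 1) := by ring
    rw [h3]
    exact dvd_add h.a0 h.swap.a1

private theorem spl_add {B : SkewH E V} {X : SA B} {e : V} {Q : Polynomial E} {k : ℕ}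
    {r a : Polynomial E} (h : SplD X e Q k r a) (hU : NDeg B (cyc X.1 e)) (v : V) :
    splP X e hU a v + splP X e hU (bar a) v = prO B _ hU v := by
  obtain ⟨f, hf⟩ := (mem_cyc X.1 e _).1 (prO_mem B _ hU v)
  rw [splP_apply X e hU a f v hf, splP_apply X e hU (bar a) f v hf, hf, ← sub_eq_zero]
  have h2 : aeval X.1 (a * f) e + aeval X.1 (bar a * f) e - aeval X.1 f e =
      aeval X.1 ((a + bar a - 1) * f) e := by
    have h3 : (a + bar a - 1) * f = a * f + bar a * f - f := by ring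
    rw [h3, map_sub, map_add]
    rfl
  rw [h2, h.ann]
  exact (spl_one h).mul_right f

private theorem spl_comm {B : SkewH E V} (X : SA B) (e : V) (hU : NDeg B (cyc X.1 e))
    (a : Polynomial E) : aeval X.1 a * prO B _ hU = prO B _ hU * aeval X.1 a := by
  apply LinearMap.ext
  intro v
  show aeval X.1 a (prO B _ hU v) = prO B _ hU (aeval X.1 a v)
  obtain ⟨f, hf⟩ := (mem_cyc X.1 e _).1 (prO_mem B _ hU v)
  have h1 : v = prO B _ hU v + (v - prO B _ hU v) := (add_sub_cancel _ _).symm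
  have h2 : aeval X.1 a (v - prO B _ hU v) ∈ orth B (cyc X.1 e) := by
    intro u hu
    obtain ⟨g, rfl⟩ := (mem_cyc X.1 e u).1 hu
    rw [ip_bar, ← aeval_mul']
    exact sub_prO_mem B _ hU v _ ((mem_cyc X.1 e _).2 ⟨_, rfl⟩)
  have h3 : aeval X.1 a (prO B _ hU v) ∈ cyc X.1 e := by
    rw [hf, ← aeval_mul']
    exact (mem_cyc X.1 e _).2 ⟨_, rfl⟩
  conv_rhs => rw [h1]
  rw [map_add, map_add, prO_of_mem B _ hU h3, prO_of_orth B _ hU h2, add_zero]

private theorem spl_adj {B : SkewH E V} (X : SA B) (e : V) (hU : NDeg B (cyc X.1 e))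
    (a : Polynomial E) (v w : V) :
    B.ip (splP X e hU a v) w = B.ip v (splP X e hU (bar a) w) := by
  show B.ip (aeval X.1 a (prO B _ hU v)) w = _
  rw [ip_bar]
  have h1 := prO_SA B _ hU v (aeval X.1 (bar a) w)
  rw [h1]
  have h2 := congrArg (fun f : Module.End E V => f w) (spl_comm X e hU (bar a))
  have h3 : aeval X.1 (bar a) (prO B _ hU w) = prO B _ hU (aeval X.1 (bar a) w) := h2
  rw [← h3]
  rfl

private theorem spl_range {B : SkewH E V} {X : SA B} {e : V} {Q : Polynomial E} {k : ℕ}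
    {r a : Polynomial E} (h : SplD X e Q k r a) (hU : NDeg B (cyc X.1 e)) :
    LinearMap.range (splP X e hU a) = blkL X.1 e ((bar r) ^ k) := by
  ext v
  rw [mem_blkL]
  constructor
  · rintro ⟨w, rfl⟩
    obtain ⟨f, hf⟩ := (mem_cyc X.1 e _).1 (prO_mem B _ hU w)
    obtain ⟨c, hc⟩ := h.a0
    refine ⟨c * f, ?_⟩
    rw [splP_apply X e hU a f w hf, hc, mul_assoc]
  · rintro ⟨g, rfl⟩
    refine ⟨aeval X.1 ((bar r) ^ k * g) e, ?_⟩
    have h1 : prO B _ hU (aeval X.1 ((bar r) ^ k * g) e) = aeval X.1 ((bar r) ^ k * g) e :=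
      prO_of_mem B _ hU ((mem_cyc X.1 e _).2 ⟨_, rfl⟩)
    rw [splP_apply X e hU a _ _ h1, ← sub_eq_zero]
    have h2 : aeval X.1 (a * ((bar r) ^ k * g)) e - aeval X.1 ((bar r) ^ k * g) e =
        aeval X.1 ((a - 1) * ((bar r) ^ k * g)) e := by
      have h3 : (a - 1) * ((bar r) ^ k * g) = a * ((bar r) ^ k * g) - (bar r) ^ k * g := by ring
      rw [h3, map_sub]
      rfl
    rw [h2, h.ann]
    exact h.dvd (h.a1.mul_right _) ((Dvd.intro g rfl : (bar r) ^ k ∣ _).mul_left _)

private theorem spl_mem {B : SkewH E V} {X : SA B} {e : V} {Q : Polynomial E} {k : ℕ}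
    {r a : Polynomial E} (h : SplD X e Q k r a) (hU : NDeg B (cyc X.1 e)) (n : ℕ) (hn : n ≤ k)
    (v : V) (f : Polynomial E) (hf : prO B _ hU v = aeval X.1 f e) :
    splP X e hU a v ∈ blkL X.1 e (r ^ n * (bar r) ^ k) ↔ r ^ n ∣ f := by
  rw [splP_apply X e hU a f v hf, aeval_mem_blkL X.1 e (Q ^ k) h.ann]
  · constructor
    · intro h1
      have h2 : r ^ n ∣ a * f := (Dvd.intro _ rfl : r ^ n ∣ r ^ n * (bar r) ^ k).trans h1
      have h3 : r ^ n ∣ (a - 1) * f := ((pow_dvd_pow r hn).trans h.a1).mul_right f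
      have h4 := dvd_sub h2 h3
      have h5 : a * f - (a - 1) * f = f := by ring
      rwa [h5] at h4
    · intro h1
      exact (h.cop.pow).mul_dvd (h1.mul_left a) (h.a0.mul_right f)
  · rw [h.Qk]
    exact mul_dvd_mul_right (pow_dvd_pow r hn) _

/-- TAIL -/
private theorem spl_val {r x y : Polynomial E} (hr : Irreducible r) (k j : ℕ)
    (h : r ^ k ∣ x * y) (hn : ¬ r ^ (j + 1) ∣ x) : r ^ (k - j) ∣ y := by
  have hp : Prime r := hr.prime
  have hx : x ≠ 0 := by
    rintro rfl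
    exact hn (dvd_zero _)
  obtain ⟨m, x1, hnd, hx1⟩ := WfDvdMonoid.max_power_factor hx hr
  have hm : m ≤ j := by
    by_contra hlt
    push Not at hlt
    exact hn ((pow_dvd_pow r hlt).trans (hx1 ▸ Dvd.intro x1 rfl))
  by_cases hmk : k ≤ m
  · have h1 : k - j = 0 := by omega
    rw [h1, pow_zero]
    exact one_dvd _
  push Not at hmk
  have h2 : r ^ m * r ^ (k - m) ∣ r ^ m * (x1 * y) := by
    rw [← pow_add, Nat.add_sub_cancel' hmk.le, ← mul_assoc, ← hx1]
    exact h
  have h3 := (mul_dvd_mul_iff_left (pow_ne_zero m hp.ne_zero)).1 h2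
  have h4 := hp.pow_dvd_of_dvd_mul_left (k - m) hnd h3
  exact (pow_dvd_pow r (by omega)).trans h4

private theorem spl_mul' {B : SkewH E V} {X : SA B} {e : V} {Q : Polynomial E} {k : ℕ}
    {r a : Polynomial E} (h : SplD X e Q k r a) (hU : NDeg B (cyc X.1 e)) :
    splP X e hU (bar a) * splP X e hU a = 0 := by
  have h1 := spl_mul h.swap hU
  rwa [bar_bar] at h1

/-- invariance under the unitary elements `s` on W, `s⁻¹` on `W'` -/
private theorem spl_unit {B : SkewH E V} (p : PChar F) {X : SA B} {e : V} {Q : Polynomial E}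
    {k : ℕ} {r a : Polynomial E} (h : SplD X e Q k r a) (hU : NDeg B (cyc X.1 e))
    (S : SF V ℂ →ₗ[ℂ] ℂ) (hS : BlkHyp p X e hU S) (s : F) (hs : s ≠ 0) (φ : SF V ℂ) :
    S (SF.comp (dil2 (splP X e hU a) (splP X e hU (bar a)) (spl_idem h hU)
      (spl_idem h.swap hU) (spl_mul h hU) (spl_mul' h hU) s s⁻¹ hs (inv_ne_zero hs)) φ) =
      S φ := by
  let P := splP X e hU a
  let P' := splP X e hU (bar a)
  let D := dil2 P P' (spl_idem h hU) (spl_idem h.swap hU) (spl_mul h hU) (spl_mul' h hU) s s⁻¹ hs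
    (inv_ne_zero hs)
  let c0 : Module.End E V := 1 + (algebraMap F E (s - 1)) • P + (algebraMap F E (s⁻¹ - 1)) • P'
  let c1 : Module.End E V := 1 + (algebraMap F E (s⁻¹ - 1)) • P +
    (algebraMap F E (s⁻¹⁻¹ - 1)) • P'
  have e1 : c0 * c1 = 1 := LinearMap.ext fun v => D.right_inv v
  have e2 : c1 * c0 = 1 := LinearMap.ext fun v => D.left_inv v
  have had : ∀ v w, B.ip (c0 v) w = B.ip v (c1 w) := by
    intro v w
    have h1 : B.ip (P v) w = B.ip v (P' w) := spl_adj X e hU a v w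
    have h2 : B.ip (P' v) w = B.ip v (P w) := by
      have h3 := spl_adj X e hU (bar a) v w
      rw [bar_bar] at h3
      exact h3
    show B.ip (v + (algebraMap F E (s - 1)) • P v + (algebraMap F E (s⁻¹ - 1)) • P' v) w =
      B.ip v (w + (algebraMap F E (s⁻¹ - 1)) • P w + (algebraMap F E (s⁻¹⁻¹ - 1)) • P' w)
    rw [B.add_left, B.add_left, B.smul_left, B.smul_left, B.add_right, B.add_right,
      B.smul_right, B.smul_right, h1, h2, QExt.star_alg, QExt.star_alg, inv_inv]
    ring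
  let u : GV E V := ⟨c0, c1, e1, e2⟩
  have hu : u ∈ UU B := by
    intro v w
    show B.ip (c0 v) (c0 w) = B.ip v w
    rw [had]
    have h3 : c1 (c0 w) = w := congrArg (fun f : Module.End E V => f w) e2
    rw [h3]
  have h4 := hS.b3 ⟨u, hu⟩ (1 + C (algebraMap F E (s - 1)) * a +
    C (algebraMap F E (s⁻¹ - 1)) * bar a) (by
      intro v hv
      have h5 : prO B _ hU v = v := prO_of_mem B _ hU hv
      show v + (algebraMap F E (s - 1)) • (aeval X.1 a (prO B _ hU v)) +
        (algebraMap F E (s⁻¹ - 1)) • (aeval X.1 (bar a) (prO B _ hU v)) = _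
      rw [h5, map_add, map_add, map_one, map_mul, map_mul, aeval_C, aeval_C]
      rfl) (by
      intro w hw
      have h5 : prO B _ hU w = 0 := prO_of_orth B _ hU hw
      show w + (algebraMap F E (s - 1)) • (aeval X.1 a (prO B _ hU w)) +
        (algebraMap F E (s⁻¹ - 1)) • (aeval X.1 (bar a) (prO B _ hU w)) = w
      rw [h5, map_zero, map_zero, smul_zero, smul_zero, add_zero, add_zero]) φ
  rw [← h4]
  congr 1

private theorem spl_step {B : SkewH E V} (p : PChar F) (X : SA B) (e : V)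
    (hU : NDeg B (cyc X.1 e)) (q : Polynomial F) (k : ℕ) (r a : Polynomial E)
    (h : SplD X e (q.map (algebraMap F E)) k r a) (S : SF V ℂ →ₗ[ℂ] ℂ)
    (hS : BlkHyp p X e hU S) (j : ℕ) (hj : 2 * j < k)
    (hF : SF.SuppOn (S ∘ₗ fourV B p) {v | prO B _ hU v ∈ qSub F X.1 e q j}) :
    SF.SuppOn S {v | splP X e hU a v ∈ blkL X.1 e (r ^ (j + 1) * (bar r) ^ k)} := by
  haveI : LocallyCompactSpace F := inferInstance
  haveI : TotallyDisconnectedSpace F := inferInstance
  have hr0 : r ≠ 0 := h.irr.ne_zero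
  have hb0 : bar r ≠ 0 := h.swap.irr.ne_zero
  have hQ0 : (q.map (algebraMap F E)) ^ k ≠ 0 := by
    rw [h.Qk]
    exact mul_ne_zero (pow_ne_zero _ hr0) (pow_ne_zero _ hb0)
  have hd : 0 < r.natDegree := Polynomial.natDegree_pos_iff_degree_pos.2
    (Polynomial.degree_pos_of_irreducible h.irr)
  have f1 : Module.finrank E (LinearMap.range (splP X e hU a)) = k * r.natDegree := by
    rw [spl_range h hU, finrank_blkL X.1 e _ h.ann hQ0 ((bar r) ^ k) (r ^ k)
      (by rw [h.Qk, mul_comm]), Polynomial.natDegree_pow]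
  have f2 : Module.finrank E (LinearMap.range (splP X e hU (bar a))) = k * r.natDegree := by
    rw [spl_range h.swap hU, bar_bar, finrank_blkL X.1 e _ h.ann hQ0 (r ^ k) ((bar r) ^ k)
      h.Qk.symm, Polynomial.natDegree_pow, bar_natDegree]
  have f3 : Module.finrank E (blkL X.1 e ((bar r) ^ (k - j) * r ^ k)) = j * r.natDegree := by
    rw [finrank_blkL X.1 e _ h.ann hQ0 ((bar r) ^ (k - j) * r ^ k) ((bar r) ^ j)
      (by rw [h.Qk, mul_right_comm, ← pow_add, Nat.sub_add_cancel (by omega), mul_comm]),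
      Polynomial.natDegree_pow, bar_natDegree]
  have f4 : Module.finrank E (cyc X.1 e) = 2 * (k * r.natDegree) := by
    have h1 : blkL X.1 e 1 = cyc X.1 e := by
      unfold blkL
      rw [map_one]
      exact Submodule.map_id _
    rw [← h1, finrank_blkL X.1 e _ h.ann hQ0 1 ((q.map (algebraMap F E)) ^ k) (one_mul _), h.Qk,
      Polynomial.natDegree_mul (pow_ne_zero _ hr0) (pow_ne_zero _ hb0),
      Polynomial.natDegree_pow, Polynomial.natDegree_pow, bar_natDegree]
    ring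
  refine fx_spl_abs (F := F) (splP X e hU a) (splP X e hU (bar a)) (spl_idem h hU)
    (spl_idem h.swap hU) (spl_mul h hU) (spl_mul' h hU)
    (blkL X.1 e (r ^ (j + 1) * (bar r) ^ k)) (blkL X.1 e ((bar r) ^ (k - j) * r ^ k))
    ?_ ?_ (by rw [f1, f2]) ?_ S ?_ ?_ ?_ ?_
  · rw [spl_range h hU]
    intro v hv
    obtain ⟨g, rfl⟩ := (mem_blkL _ _ _ _).1 hv
    refine (mem_blkL _ _ _ _).2 ⟨r ^ (j + 1) * g, ?_⟩
    congr 2
    ring
  · rw [spl_range h.swap hU, bar_bar]
    intro v hv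
    obtain ⟨g, rfl⟩ := (mem_blkL _ _ _ _).1 hv
    refine (mem_blkL _ _ _ _).2 ⟨(bar r) ^ (k - j) * g, ?_⟩
    congr 2
    ring
  · rw [f2, f3, ← mul_assoc]
    exact Nat.mul_lt_mul_of_pos_right hj hd
  · intro φ hφ
    refine hS.b1 φ fun z hz => hφ z ?_
    intro hz1
    obtain ⟨f, hf⟩ := (mem_cyc X.1 e _).1 (prO_mem B _ hU z)
    have h1 : ∀ n : ℕ, B.ip ((X.1 ^ n) (aeval X.1 f e)) (aeval X.1 f e) = 0 := by
      rw [← hf]
      exact hz
    have h2 := blkaux_cone X e hU _ h.ann f h1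
    have h3 : ¬ r ^ (j + 1) ∣ f := fun h4 =>
      hz1 ((spl_mem h hU (j + 1) (by omega) z f hf).2 h4)
    rw [h.Qk] at h2
    have h4 : r ^ (k - j) ∣ bar f := spl_val h.irr k j ((Dvd.intro _ rfl).trans h2) h3
    have h5 : (bar r) ^ (k - j) ∣ f := by
      have h6 := bar_dvd h4
      rwa [bar_pow, bar_bar] at h6
    have h6 := (spl_mem h.swap hU (k - j) (by omega) z f hf).2 h5
    rwa [bar_bar] at h6
  · intro y hy φ
    refine blkaux_c2 p X e hU q k h.ann S j (k - j) (by omega) hF y ?_ φ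
    obtain ⟨g, rfl⟩ := (mem_blkL _ _ _ _).1 hy
    refine (mem_blkL _ _ _ _).2 ⟨r ^ j * g, ?_⟩
    congr 2
    have h1 : (q.map (algebraMap F E)) ^ (k - j) = r ^ (k - j) * (bar r) ^ (k - j) := by
      rw [h.fac, mul_pow]
    have h2 : r ^ k = r ^ (k - j) * r ^ j := by
      rw [← pow_add, Nat.sub_add_cancel (by omega)]
    rw [h1, h2]
    ring
  · intro t ht φ
    exact spl_unit p h hU S hS (t ^ 2) (pow_ne_zero 2 ht) φ
  · intro t ht φ
    have h1 := fx71 p (cyc X.1 e) hU S (fun f hf => hS.b1 f fun z hz => hf z (hz 0))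
      (fun f hf => hS.b2 f fun z hz => hf z (hz 0)) t ht φ
    rw [f4] at h1
    rw [f2]
    have e1 : 2 * (2 * (k * r.natDegree)) = 4 * (k * r.natDegree) := by ring
    rw [e1] at h1
    have e2 : SF.comp (dil2 (splP X e hU a) (splP X e hU (bar a)) (spl_idem h hU)
        (spl_idem h.swap hU) (spl_mul h hU) (spl_mul' h hU) (t ^ 2)⁻¹ (t ^ 2)⁻¹
        (inv_ne_zero (pow_ne_zero 2 ht)) (inv_ne_zero (pow_ne_zero 2 ht))) φ =
        SF.comp (dilOn B (cyc X.1 e) hU (t ^ 2)⁻¹ (inv_ne_zero (pow_ne_zero 2 ht))) φ := by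
      apply SF.ext
      intro v
      show φ (v + (algebraMap F E ((t ^ 2)⁻¹ - 1)) • splP X e hU a v +
        (algebraMap F E ((t ^ 2)⁻¹ - 1)) • splP X e hU (bar a) v) =
        φ (v + (algebraMap F E ((t ^ 2)⁻¹ - 1)) • prO B _ hU v)
      rw [add_assoc, ← smul_add, spl_add h hU]
    rw [e2]
    exact h1

private theorem spl_closed {B : SkewH E V} (X : SA B) (e : V) (hU : NDeg B (cyc X.1 e))
    (a s : Polynomial E) : IsClosed {v | splP X e hU a v ∈ blkL X.1 e s} :=
  (blkL X.1 e s).closed_of_finiteDimensional.preimage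
    (splP X e hU a).continuous_of_finiteDimensional

private theorem spl_ind {B : SkewH E V} (p : PChar F) (X : SA B) (e : V)
    (hU : NDeg B (cyc X.1 e)) (q : Polynomial F) (k : ℕ) (r a : Polynomial E)
    (h : SplD X e (q.map (algebraMap F E)) k r a) (j : ℕ) :
    ∀ (S : SF V ℂ →ₗ[ℂ] ℂ), BlkHyp p X e hU S → 2 * j ≤ k + 1 →
      SF.SuppOn S {v | prO B _ hU v ∈ qSub F X.1 e q j} := by
  haveI := lc_V E V
  haveI := td_V F E V
  induction j with
  | zero =>
    intro S hS _ f hf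
    refine hS.b1 f fun z hz => hf z ?_
    show prO B _ hU z ∈ blkL X.1 e ((q.map (algebraMap F E)) ^ 0)
    obtain ⟨g, hg⟩ := (mem_cyc X.1 e _).1 (prO_mem B _ hU z)
    rw [hg, mem_blkL]
    exact ⟨g, by rw [pow_zero, one_mul]⟩
  | succ j ih =>
    intro S hS hj
    have hj' : 2 * j < k := by omega
    have hF := ih (S ∘ₗ fourV B p) (blkHyp_four p X e hU S hS) (by omega)
    have h1 := spl_step p X e hU q k r a h S hS j hj' hF
    have h2 := spl_step p X e hU q k (bar r) (bar a) h.swap S hS j hj' hF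
    have h3 := suppOn_inter S _ _ (spl_closed X e hU _ _) (spl_closed X e hU _ _) h1 h2
    intro f hf
    refine h3 f fun z hz => hf z ?_
    obtain ⟨g, hg⟩ := (mem_cyc X.1 e _).1 (prO_mem B _ hU z)
    have h4 := (spl_mem h hU (j + 1) (by omega) z g hg).1 hz.1
    have h5 := (spl_mem h.swap hU (j + 1) (by omega) z g hg).1 hz.2
    show prO B _ hU z ∈ blkL X.1 e ((q.map (algebraMap F E)) ^ (j + 1))
    have h6 : (q.map (algebraMap F E)) ^ (j + 1) ∣ g := by
      rw [h.fac, mul_pow]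
      exact (h.cop.pow).mul_dvd h4 h5
    obtain ⟨c, hc⟩ := h6
    rw [hg, mem_blkL]
    exact ⟨c, by rw [hc]⟩

theorem blk_split {B : SkewH E V} (p : PChar F) (X : SA B) (e : V)
    (hU : NDeg B (cyc X.1 e)) (q : Polynomial F) (k : ℕ) (hq : q.Monic) (hirr : Irreducible q)
    (hred : ¬ Irreducible (q.map (algebraMap F E)))
    (hann : ∀ f : Polynomial E, Polynomial.aeval X.1 f e = 0 ↔ (q.map (algebraMap F E)) ^ k ∣ f)
    (S : SF V ℂ →ₗ[ℂ] ℂ) (h : BlkHyp p X e hU S) : BlkConc X e hU q k S := by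
  obtain ⟨r, hr, hfac, hcop⟩ := split_factor q hq hirr hred
  obtain ⟨x, y, hxy⟩ := hcop.pow (m := k) (n := k)
  have hD : SplD X e (q.map (algebraMap F E)) k r (y * (bar r) ^ k) :=
    { irr := hr
      fac := hfac
      cop := hcop
      ann := hann
      a1 := by
        have h1 : y * (bar r) ^ k - 1 = r ^ k * (-x) := by
          linear_combination hxy
        rw [h1]
        exact Dvd.intro _ rfl
      a0 := Dvd.intro_left _ rfl }
  refine ⟨spl_ind p X e hU q k r _ hD ((k + 1) / 2) S h (by omega), fun y hy φ => ?_⟩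
  exact blkaux_c2 p X e hU q k hann S ((k + 1) / 2) (k / 2) (by omega)
    (spl_ind p X e hU q k r _ hD ((k + 1) / 2) _ (blkHyp_four p X e hU S h) (by omega)) y hy φ

end

end Pool.Agent.Work.MP_dd0ddf_al.OC
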