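import Pool.Agent.Work.MP_dd0ddf_al.OC.FxTau
import Pool.Agent.Work.MP_dd0ddf_al.OC.FxInert
import Pool.Agent.Work.MP_dd0ddf_al.OC.FxSplit
import Pool.Agent.Work.MP_dd0ddf_al.OC.CycDec
import Pool.Agent.Work.MP_dd0ddf_al.OC.LinNu
import Pool.Agent.Work.MP_dd0ddf_al.OC.BlkAux

/-!
# MP_dd0ddf_al, module FxComb: combination of the blocks: the functional at a fixed X vanishes

Take a cyclic decomposition `D` (exists_cycD) and `τ` from `fx_tau`.  For every block `BlkConc` (blk_inert / blk_split) with `fx_blkHyp`.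
`L1 = {v : pr_i v ∈ q_i^{⌈k_i/2⌉}U_i for all i}`, `L2 = ⊕ q_i^{⌊k_i/2⌋} U_i`: `S` is supported on `L1` (finite intersection of closed sets, suppOn_inter) and invariant under `L2`.
If some `k_i` is odd there is `y ∈ q_i^{⌊k_i/2⌋}U_i`, `y ∉ q_i^{⌈k_i/2⌉}U_i` (ann).  For any `φ`: `S φ = S(φ 1_N)` where `N` is a small clopen neighbourhood of `L1 ∩ supp φ`; translate by `y`:
`S(φ 1_N) = S((φ 1_N)(· + y))`, supported in `N - y`, which does not meet `L1` if `N` is small (L1 - y and L1 are disjoint closed sets, compactness): so `S φ = 0`.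
If all `k_i` are even, `L1 = L2 = L`, a subspace with `τ L = L`.  `S φ = S_L(φ|_L)` (supp_on_factor), `S_L` translation invariant on `SF L`, so `S_L = c hI` (hI_unique).
`S(φ ∘ τ) = c hI(φ|_L ∘ τ|_L) = c m hI(φ|_L)`, `m > 0` (hmod), and `= -a S(φ)`, `a > 0` (s4).  So `c = 0`, `S = 0`.
-/

set_option linter.unusedSectionVars false
set_option linter.style.haveILetI false

namespace Pool.Agent.Work.MP_dd0ddf_al.OC

noncomputable section

universe u

variable {F E : Type u} [NontriviallyNormedField F] [IsUltrametricDist F] [ProperSpace F]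
  [NeZero (2 : F)] [NontriviallyNormedField E] [NormedAlgebra F E] [ProperSpace E] [StarRing E]
  [QExt F E]
variable {V : Type u} [AddCommGroup V] [Module E V] [Module.Finite E V] [TopologicalSpace V]
  [IsTopologicalAddGroup V] [T2Space V] [ContinuousSMul E V]

private theorem fxcomb_orth {B : SkewH E V} {X : SA B} (D : CycD F B X.1) (i j : Fin D.m)
    (hij : j ≠ i) {v : V} (hv : v ∈ cyc X.1 (D.e j)) : prO B _ (D.nd i) v = 0 := by
  refine prO_of_orth B _ (D.nd i) fun u hu => ?_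
  obtain ⟨f, rfl⟩ := (mem_cyc X.1 _ v).1 hv
  obtain ⟨g, rfl⟩ := (mem_cyc X.1 _ u).1 hu
  exact D.ortho j i hij _ _

private theorem fxcomb_sum {B : SkewH E V} {X : SA B} (D : CycD F B X.1) (v : V) :
    v = ∑ i, prO B _ (D.nd i) v := by
  have hv : v ∈ ⨆ i, cyc X.1 (D.e i) := by
    rw [D.span]
    exact Submodule.mem_top
  refine Submodule.iSup_induction _ (motive := fun v => v = ∑ i, prO B _ (D.nd i) v) hv ?_ ?_ ?_
  · intro i u hu
    rw [Finset.sum_eq_single i (fun j _ hj => fxcomb_orth D j i (Ne.symm hj) hu) (fun h =>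
      absurd (Finset.mem_univ i) h)]
    exact (prO_of_mem B _ (D.nd i) hu).symm
  · symm
    exact Finset.sum_eq_zero fun i _ => map_zero _
  · intro u w hu hw
    conv_lhs => rw [hu, hw]
    rw [← Finset.sum_add_distrib]
    exact Finset.sum_congr rfl fun i _ => (map_add _ _ _).symm

private theorem fxcomb_tau0 {B : SkewH E V} (τ : AntiU B) : τ.t 0 = 0 := by
  have h := τ.smul 0 0
  rwa [zero_smul, star_zero, zero_smul] at h

private theorem fxcomb_tau {B : SkewH E V} {X : SA B} (D : CycD F B X.1) (τ : AntiU B)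
    (hτ : ∀ i (f : Polynomial E), τ.t (Polynomial.aeval X.1 f (D.e i)) =
        Polynomial.aeval X.1 (f.map (starRingEnd E)) (D.e i)) (i : Fin D.m) (v : V) :
    prO B _ (D.nd i) (τ.t v) = τ.t (prO B _ (D.nd i) v) := by
  have hv : v ∈ ⨆ i, cyc X.1 (D.e i) := by
    rw [D.span]
    exact Submodule.mem_top
  refine Submodule.iSup_induction _ (motive := fun v => prO B _ (D.nd i) (τ.t v) =
    τ.t (prO B _ (D.nd i) v)) hv ?_ ?_ ?_
  · intro j u hu
    have hu' : τ.t u ∈ cyc X.1 (D.e j) := by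
      obtain ⟨f, rfl⟩ := (mem_cyc X.1 _ u).1 hu
      rw [hτ]
      exact (mem_cyc X.1 _ _).2 ⟨_, rfl⟩
    by_cases hij : j = i
    · subst hij
      rw [prO_of_mem B _ _ hu', prO_of_mem B _ _ hu]
    · rw [fxcomb_orth D i j hij hu', fxcomb_orth D i j hij hu, fxcomb_tau0]
  · rw [fxcomb_tau0, map_zero, fxcomb_tau0]
  · intro u w hu hw
    rw [τ.add, map_add, map_add, τ.add, hu, hw]

private theorem fxcomb_tauq {B : SkewH E V} {X : SA B} (D : CycD F B X.1) (τ : AntiU B)
    (hτ : ∀ i (f : Polynomial E), τ.t (Polynomial.aeval X.1 f (D.e i)) =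
        Polynomial.aeval X.1 (f.map (starRingEnd E)) (D.e i)) (i : Fin D.m) (l : ℕ) {v : V}
    (hv : v ∈ qSub F X.1 (D.e i) (D.q i) l) : τ.t v ∈ qSub F X.1 (D.e i) (D.q i) l := by
  obtain ⟨w, hw, rfl⟩ := hv
  obtain ⟨g, rfl⟩ := (mem_cyc X.1 _ w).1 hw
  have h1 : τ.t (Polynomial.aeval X.1 (((D.q i).map (algebraMap F E)) ^ l)
      (Polynomial.aeval X.1 g (D.e i))) =
      Polynomial.aeval X.1 (bar (((D.q i).map (algebraMap F E)) ^ l * g)) (D.e i) := by
    rw [← aeval_mul']
    exact hτ i _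
  rw [h1, bar_mul, bar_pow, bar_base, aeval_mul']
  exact ⟨Polynomial.aeval X.1 (bar g) (D.e i), (mem_cyc X.1 _ _).2 ⟨_, rfl⟩, rfl⟩

private theorem fxcomb_closed {B : SkewH E V} (X : SA B) (e : V) (hU : NDeg B (cyc X.1 e))
    (q : Polynomial F) (l : ℕ) : IsClosed {v | prO B _ hU v ∈ qSub F X.1 e q l} :=
  (Submodule.closed_of_finiteDimensional (qSub F X.1 e q l)).preimage
    (prO B _ hU).continuous_of_finiteDimensional

private theorem fxcomb_fin {X : Type*} [TopologicalSpace X] [T2Space X] [LocallyCompactSpace X]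
    [TotallyDisconnectedSpace X] (T : SF X ℂ →ₗ[ℂ] ℂ) {ι : Type*} [DecidableEq ι] (s : Finset ι)
    (Z : ι → Set X) (hZ : ∀ i, IsClosed (Z i)) (h : ∀ i, SF.SuppOn T (Z i)) :
    SF.SuppOn T {x | ∀ i ∈ s, x ∈ Z i} := by
  induction s using Finset.induction_on with
  | empty =>
    intro f hf
    have h0 : f = 0 := SF.ext fun x => hf x fun i hi => absurd hi (Finset.notMem_empty i)
    rw [h0, map_zero]
  | insert a s ha ih =>
    have hc : IsClosed {x | ∀ i ∈ s, x ∈ Z i} := by
      have h1 : {x | ∀ i ∈ s, x ∈ Z i} = ⋂ i ∈ s, Z i := by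
        ext x
        simp
      rw [h1]
      exact isClosed_biInter fun i _ => hZ i
    have h2 := suppOn_inter T _ _ (hZ a) hc (h a) ih
    have h3 : {x | ∀ i ∈ insert a s, x ∈ Z i} = Z a ∩ {x | ∀ i ∈ s, x ∈ Z i} := by
      ext x
      simp
    rw [h3]
    exact h2

/-- the odd case: one block -/
private theorem fxcomb_odd {B : SkewH E V} (X : SA B) (e : V) (hU : NDeg B (cyc X.1 e))
    (q : Polynomial F) (k : ℕ) (hirr : Irreducible q) (hk : k % 2 = 1)
    (hann : ∀ f : Polynomial E, Polynomial.aeval X.1 f e = 0 ↔ (q.map (algebraMap F E)) ^ k ∣ f)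
    (S : SF V ℂ →ₗ[ℂ] ℂ) (h : BlkConc X e hU q k S) : S = 0 := by
  haveI := lc_V E V
  haveI := td_V F E V
  set Q := q.map (algebraMap F E) with hQ
  have hQ0 : Q ≠ 0 := by
    rw [hQ, Ne, Polynomial.map_eq_zero]
    exact hirr.ne_zero
  have hQu : ¬ IsUnit Q := by
    intro hu
    have h1 := Polynomial.natDegree_eq_zero_of_isUnit hu
    rw [hQ, Polynomial.natDegree_map] at h1
    have h2 := Polynomial.natDegree_pos_iff_degree_pos.2
      (Polynomial.degree_pos_of_irreducible hirr)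
    omega
  obtain ⟨l, hl⟩ : ∃ l, k = 2 * l + 1 := ⟨k / 2, by omega⟩
  have hk2 : k / 2 = l := by omega
  have hk3 : (k + 1) / 2 = l + 1 := by omega
  have he : e ∈ cyc X.1 e := (mem_cyc X.1 e e).2 ⟨1, by rw [map_one]; rfl⟩
  set y := Polynomial.aeval X.1 (Q ^ l) e with hy
  have hy1 : y ∈ qSub F X.1 e q (k / 2) := by
    rw [hk2]
    exact ⟨e, he, rfl⟩
  have hy2 : y ∉ qSub F X.1 e q ((k + 1) / 2) := by
    rw [hk3]
    rintro ⟨w, hw, h1⟩
    obtain ⟨g, rfl⟩ := (mem_cyc X.1 e w).1 hw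
    have h2 : Polynomial.aeval X.1 (Q ^ (l + 1) * g - Q ^ l) e = 0 := by
      have h3 : Polynomial.aeval X.1 (Q ^ (l + 1) * g - Q ^ l) e =
          Polynomial.aeval X.1 (Q ^ (l + 1) * g) e - Polynomial.aeval X.1 (Q ^ l) e := by
        rw [map_sub]
        rfl
      rw [h3, aeval_mul', ← hy]
      exact sub_eq_zero.2 h1
    rw [hann] at h2
    have h3 : Q ^ l * Q ∣ Q ^ l * (Q * g - 1) := by
      have h4 : Q ^ l * (Q * g - 1) = Q ^ (l + 1) * g - Q ^ l := by ring
      rw [h4, ← pow_succ]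
      exact (pow_dvd_pow Q (by omega)).trans h2
    have h5 := (mul_dvd_mul_iff_left (pow_ne_zero l hQ0)).1 h3
    have h6 : Q ∣ 1 := by
      have h7 : Q ∣ Q * g := Dvd.intro _ rfl
      have h8 := dvd_sub h7 h5
      rwa [sub_sub_cancel] at h8
    exact hQu (isUnit_of_dvd_one h6)
  have hyU : y ∈ cyc X.1 e := (mem_cyc X.1 e y).2 ⟨_, rfl⟩
  have hny : -y ∈ qSub F X.1 e q (k / 2) := Submodule.neg_mem _ hy1
  have hZ := fxcomb_closed X e hU q ((k + 1) / 2)
  have hc : Continuous fun v : V => v + y := continuous_id.add continuous_const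
  have h2 : SF.SuppOn S ((fun v : V => v + y) ⁻¹'
      {v | prO B _ hU v ∈ qSub F X.1 e q ((k + 1) / 2)}) := by
    intro f hf
    have h3 := h.c2 (-y) hny f
    rw [← h3]
    refine h.c1 _ fun z hz => ?_
    refine hf (z + -y) ?_
    show z + -y + y ∈ {v | prO B _ hU v ∈ qSub F X.1 e q ((k + 1) / 2)}
    rw [neg_add_cancel_right]
    exact hz
  have h4 := suppOn_inter S _ _ hZ (hZ.preimage hc) h.c1 h2
  apply LinearMap.ext
  intro f
  refine h4 f fun z hz => ?_
  exfalso
  apply hy2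
  have h5 : prO B _ hU z ∈ qSub F X.1 e q ((k + 1) / 2) := hz.1
  have h6 : prO B _ hU (z + y) ∈ qSub F X.1 e q ((k + 1) / 2) := hz.2
  rw [map_add, prO_of_mem B _ hU hyU] at h6
  have h7 := Submodule.sub_mem _ h6 h5
  rwa [add_sub_cancel_left] at h7

/-- the subspace supporting `S` in the even case -/
private def fxcomb_L {B : SkewH E V} {X : SA B} (D : CycD F B X.1) : Submodule E V :=
  ⨅ i, (qSub F X.1 (D.e i) (D.q i) (D.k i / 2)).comap (prO B _ (D.nd i))

private theorem fxcomb_mem {B : SkewH E V} {X : SA B} (D : CycD F B X.1) (v : V) :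
    v ∈ fxcomb_L D ↔ ∀ i, prO B _ (D.nd i) v ∈ qSub F X.1 (D.e i) (D.q i) (D.k i / 2) := by
  unfold fxcomb_L
  rw [Submodule.mem_iInf]
  rfl

theorem lin_fix {B : SkewH E V} (p : PChar F) (X : SA B) (S : SF V ℂ →ₗ[ℂ] ℂ)
    (hS : FixHyp p X S) : S = 0 := by
  classical
  haveI := lc_V E V
  haveI := td_V F E V
  obtain ⟨D⟩ := exists_cycD F B X
  have hblk : ∀ i, BlkConc X (D.e i) (D.nd i) (D.q i) (D.k i) S := by
    intro i
    have h1 := fx_blkHyp p X S hS D i
    by_cases hirr : Irreducible ((D.q i).map (algebraMap F E))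
    · exact blk_inert p X (D.e i) (D.nd i) (D.q i) (D.k i) (D.monic i) hirr (D.ann i) S h1
    · exact blk_split p X (D.e i) (D.nd i) (D.q i) (D.k i) (D.monic i) (D.irr i) hirr (D.ann i)
        S h1
  by_cases hodd : ∃ i, D.k i % 2 = 1
  · obtain ⟨i, hi⟩ := hodd
    exact fxcomb_odd X (D.e i) (D.nd i) (D.q i) (D.k i) (D.irr i) hi (D.ann i) S (hblk i)
  · push Not at hodd
    have hk : ∀ i, (D.k i + 1) / 2 = D.k i / 2 := fun i => by
      have := hodd i
      omega
    have hsupp : SF.SuppOn S (fxcomb_L D : Set V) := by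
      have h1 := fxcomb_fin S Finset.univ
        (fun i => {v | prO B _ (D.nd i) v ∈ qSub F X.1 (D.e i) (D.q i) ((D.k i + 1) / 2)})
        (fun i => fxcomb_closed X (D.e i) (D.nd i) (D.q i) _) (fun i => (hblk i).c1)
      intro f hf
      refine h1 f fun z hz => hf z ((fxcomb_mem D z).2 fun i => ?_)
      have h2 : prO B _ (D.nd i) z ∈ qSub F X.1 (D.e i) (D.q i) ((D.k i + 1) / 2) :=
        hz i (Finset.mem_univ i)
      rwa [hk] at h2
    have hinv : ∀ y ∈ fxcomb_L D, ∀ φ : SF V ℂ,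
        S (SF.comp (Homeomorph.addRight y) φ) = S φ := by
      intro y hy
      have h1 : ∀ (s : Finset (Fin D.m)) (g : Fin D.m → V),
          (∀ i, ∀ φ : SF V ℂ, S (SF.comp (Homeomorph.addRight (g i)) φ) = S φ) →
          ∀ φ : SF V ℂ, S (SF.comp (Homeomorph.addRight (∑ i ∈ s, g i)) φ) = S φ := by
        intro s g hg
        induction s using Finset.induction_on with
        | empty =>
          intro φ
          have h0 : SF.comp (Homeomorph.addRight (∑ i ∈ (∅ : Finset (Fin D.m)), g i)) φ = φ := by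
            apply SF.ext
            intro v
            show φ (v + ∑ i ∈ (∅ : Finset (Fin D.m)), g i) = φ v
            rw [Finset.sum_empty, add_zero]
          rw [h0]
        | insert a s ha ih =>
          intro φ
          have h0 : SF.comp (Homeomorph.addRight (∑ i ∈ insert a s, g i)) φ =
              SF.comp (Homeomorph.addRight (g a))
                (SF.comp (Homeomorph.addRight (∑ i ∈ s, g i)) φ) := by
            apply SF.ext
            intro v
            show φ (v + ∑ i ∈ insert a s, g i) = φ (v + g a + ∑ i ∈ s, g i)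
            rw [Finset.sum_insert ha, add_assoc]
          rw [h0, hg, ih]
      rw [fxcomb_sum D y]
      exact h1 _ _ fun i => (hblk i).c2 _ ((fxcomb_mem D y).1 hy i)
    obtain ⟨τ, hτ1, hτ2⟩ := fx_tau X D
    obtain ⟨a, ha, h4⟩ := hS.s4 τ hτ1
    have hτL : ∀ y ∈ fxcomb_L D, τ.t y ∈ fxcomb_L D := by
      intro y hy
      rw [fxcomb_mem] at hy ⊢
      intro i
      rw [fxcomb_tau D τ hτ2]
      exact fxcomb_tauq D τ hτ2 i _ (hy i)
    have hcl : IsClosed (fxcomb_L D : Set V) :=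
      Submodule.closed_of_finiteDimensional (fxcomb_L D)
    obtain ⟨S', hS'⟩ := supp_on_factor (fxcomb_L D : Set V) hcl S hsupp
    haveI : LocallyCompactSpace (fxcomb_L D) := lc_V E (fxcomb_L D)
    haveI : TotallyDisconnectedSpace (fxcomb_L D) := td_V F E (fxcomb_L D)
    let SL : SF (fxcomb_L D) ℂ →ₗ[ℂ] ℂ := S'
    have hSL : ∀ (y : fxcomb_L D) (f : SF (fxcomb_L D) ℂ),
        SL (SF.comp (Homeomorph.addRight y) f) = SL f := by
      intro y f
      obtain ⟨φ, hφ⟩ := restr_surjective (B := ℂ) (fxcomb_L D : Set V) hcl f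
      have h1 := hinv y.1 y.2 φ
      rw [hS', hS', hφ] at h1
      rw [← h1]
      show S' _ = S' _
      congr 1
      apply SF.ext
      intro z
      have h2 := congrArg (fun k : SF (fxcomb_L D : Set V) ℂ =>
        k ⟨z.1 + y.1, (fxcomb_L D).add_mem z.2 y.2⟩) hφ
      exact h2.symm
    obtain ⟨φ0, hφ0⟩ := hI_unique SL hSL
    let α : TAut (fxcomb_L D) :=
      { h := (tauH F τ).subtype fun x => ⟨fun hx => hτL x hx, fun hx => by
          have h1 := hτL _ hx
          have h2 : τ.t (τ.t x) ∈ fxcomb_L D := h1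
          rwa [τ.inv] at h2⟩
        add := fun x y => Subtype.ext (τ.add x.1 y.1) }
    apply LinearMap.ext
    intro φ
    have e1 : S (SF.comp (tauH F τ) φ) = (hmod α : ℂ) * S φ := by
      let r : SF (fxcomb_L D) ℂ := SF.restr (fxcomb_L D : Set V) hcl φ
      have e2 : SF.restr (fxcomb_L D : Set V) hcl (SF.comp (tauH F τ) φ) =
          SF.comp α.h r := SF.ext fun z => rfl
      have e7 : S (SF.comp (tauH F τ) φ) = SL (SF.comp α.h r) := (hS' _).trans (congrArg S' e2)
      have e8 : S φ = SL r := hS' φ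
      rw [e7, e8, hφ0, hφ0, hI_comp_aut, map_smul, smul_eq_mul]
    rw [h4] at e1
    have e2 : ((hmod α + a : ℝ) : ℂ) * S φ = 0 := by
      rw [Complex.ofReal_add, add_mul, ← e1]
      ring
    have hpos : (0 : ℝ) < hmod α + a := add_pos (hmod_pos α) ha
    have e3 : ((hmod α + a : ℝ) : ℂ) ≠ 0 := by exact_mod_cast hpos.ne'
    exact (mul_eq_zero.1 e2).resolve_left e3

end

end Pool.Agent.Work.MP_dd0ddf_al.OC
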