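import Pool.Agent.Work.MP_dd0ddf_al.OC.CycDefs
import Pool.Agent.Work.MP_dd0ddf_al.OC.LinFour
import Pool.Agent.Work.MP_dd0ddf_al.OC.LinTau

/-!
# MP_dd0ddf_al, module FxDefs: hypotheses and conclusions for one cyclic block (definitions)
-/

set_option linter.unusedSectionVars false
set_option linter.style.haveILetI false

namespace Pool.Agent.Work.MP_dd0ddf_al.OC

noncomputable section

universe u

variable {F E : Type u} [NontriviallyNormedField F] [IsUltrametricDist F] [ProperSpace F]
  [NeZero (2 : F)] [NontriviallyNormedField E] [NormedAlgebra F E] [ProperSpace E] [StarRing E]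
  [QExt F E]
variable {V : Type u} [AddCommGroup V] [Module E V] [Module.Finite E V] [TopologicalSpace V]
  [IsTopologicalAddGroup V] [T2Space V] [ContinuousSMul E V]

/-- hypotheses for one block -/
structure BlkHyp {B : SkewH E V} (p : PChar F) (X : SA B) (e : V) (hU : NDeg B (cyc X.1 e))
    (S : SF V ℂ →ₗ[ℂ] ℂ) : Prop where
  b1 : SF.SuppOn S {v | ∀ n : ℕ, B.ip ((X.1 ^ n) (prO B _ hU v)) (prO B _ hU v) = 0}
  b2 : SF.SuppOn (S ∘ₗ fourV B p)
    {v | ∀ n : ℕ, B.ip ((X.1 ^ n) (prO B _ hU v)) (prO B _ hU v) = 0}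
  b3 : ∀ (c : UU B) (f : Polynomial E), (∀ v ∈ cyc X.1 e, c.1.1 v = Polynomial.aeval X.1 f v) →
    (∀ w ∈ orth B (cyc X.1 e), c.1.1 w = w) →
    ∀ φ : SF V ℂ, S (SF.comp (gvHomeo c.1) φ) = S φ

/-- conclusion for one block: support in `q^⌈k/2⌉ U`, invariance under `q^⌊k/2⌋ U` -/
structure BlkConc {B : SkewH E V} (X : SA B) (e : V) (hU : NDeg B (cyc X.1 e))
    (q : Polynomial F) (k : ℕ) (S : SF V ℂ →ₗ[ℂ] ℂ) : Prop where
  c1 : SF.SuppOn S {v | prO B _ hU v ∈ qSub F X.1 e q ((k + 1) / 2)}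
  c2 : ∀ y ∈ qSub F X.1 e q (k / 2), ∀ φ : SF V ℂ, S (SF.comp (Homeomorph.addRight y) φ) = S φ

private theorem fxdefs_dil (B : SkewH E V) (U : Submodule E V) (hU : NDeg B U) (s s' : F)
    (hs : s' * s = 1) (v : V) :
    (v + (algebraMap F E (s - 1)) • prO B U hU v) + (algebraMap F E (s' - 1)) •
      prO B U hU (v + (algebraMap F E (s - 1)) • prO B U hU v) = v := by
  have h1 : prO B U hU (prO B U hU v) = prO B U hU v := prO_of_mem B U hU (prO_mem B U hU v)
  rw [map_add, map_smul, h1]
  have h2 : (algebraMap F E s') * (algebraMap F E s) = 1 := by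
    rw [← map_mul, hs, map_one]
  rw [smul_add, smul_smul, ← add_assoc, add_assoc v, add_assoc v, ← add_smul, ← add_smul]
  have h3 : algebraMap F E (s - 1) + algebraMap F E (s' - 1) +
      algebraMap F E (s' - 1) * algebraMap F E (s - 1) = 0 := by
    rw [map_sub, map_sub, map_one]
    linear_combination h2
  rw [h3, zero_smul, add_zero]

private theorem fxdefs_cont (B : SkewH E V) (U : Submodule E V) (hU : NDeg B U) (s : F) :
    Continuous fun v : V => v + (algebraMap F E (s - 1)) • prO B U hU v :=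
  continuous_id.add (continuous_const.smul (prO B U hU).continuous_of_finiteDimensional)

/-- `v ↦ v + (s - 1) pr_U v`: dilation by `s ∈ F^×` on `U` -/
def dilOn (B : SkewH E V) (U : Submodule E V) (hU : NDeg B U) (s : F) (hs : s ≠ 0) : V ≃ₜ V where
  toFun v := v + (algebraMap F E (s - 1)) • prO B U hU v
  invFun v := v + (algebraMap F E (s⁻¹ - 1)) • prO B U hU v
  left_inv := fxdefs_dil B U hU s s⁻¹ (inv_mul_cancel₀ hs)
  right_inv := fxdefs_dil B U hU s⁻¹ s (mul_inv_cancel₀ hs)
  continuous_toFun := fxdefs_cont B U hU s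
  continuous_invFun := fxdefs_cont B U hU s⁻¹

private theorem fxdefs_psi0 (p : PChar F) : p.ψ 0 = 1 := by
  have h := p.add 0 0
  rw [add_zero] at h
  have hn : p.ψ 0 ≠ 0 := by
    intro h0
    have := p.norm_one 0
    rw [h0, norm_zero] at this
    exact zero_ne_one this
  exact (mul_right_cancel₀ hn (by rw [one_mul]; exact h)).symm

private theorem fxdefs_star (p : PChar F) (x : F) : star (p.ψ x) = p.ψ (-x) := by
  have h1 : p.ψ x * p.ψ (-x) = 1 := by rw [← p.add, add_neg_cancel, fxdefs_psi0]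
  have h2 : p.ψ x * star (p.ψ x) = 1 := by
    have h3 : p.ψ x * (starRingEnd ℂ) (p.ψ x) = ((‖p.ψ x‖ ^ 2 : ℝ) : ℂ) := by
      rw [Complex.mul_conj, Complex.normSq_eq_norm_sq]
    rw [p.norm_one, one_pow, Complex.ofReal_one] at h3
    exact h3
  have hn : p.ψ x ≠ 0 := left_ne_zero_of_mul_eq_one h1
  exact mul_left_cancel₀ hn (h2.trans h1.symm)

private theorem fxdefs_tr (x : E) : Algebra.trace F E (star x) = Algebra.trace F E x := by
  let e : E ≃ₐ[F] E :=
    { toFun := fun x => star x
      invFun := fun x => star x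
      left_inv := star_star
      right_inv := star_star
      map_mul' := star_mul'
      map_add' := star_add
      commutes' := QExt.star_alg }
  exact Algebra.trace_eq_of_algEquiv e x

private theorem fxdefs_dual [LocallyCompactSpace V] [TotallyDisconnectedSpace V]
    (B : SkewH E V) (p : PChar F) (f : SF V ℂ) :
    four1 (omBi B p).dual f = four1 (omBi B p) f := by
  apply SF.ext
  intro w
  rw [four1_apply, four1_apply]
  unfold fourFun
  congr 1
  apply SF.ext
  intro v
  show star (p.ψ (om F B w v)) • f v = p.ψ (om F B v w) • f v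
  rw [fxdefs_star]
  have h : - om F B w v = om F B v w := by
    unfold om
    rw [B.skew v w, map_neg, fxdefs_tr, neg_neg]
  rw [h]

theorem fourV_fourV (B : SkewH E V) (p : PChar F) : ∃ c : ℂ, c ≠ 0 ∧
    ∀ f : SF V ℂ, fourV B p (fourV B p f) = c • f := by
  haveI := lc_V E V
  haveI := td_V F E V
  refine ⟨(fourC (omBi B p) (uc_V F E V) : ℂ), ?_, fun f => ?_⟩
  · rw [Ne, Complex.ofReal_eq_zero]
    exact (fourC_pos _ _).ne'
  · have h := four_inv (omBi B p) (uc_V F E V) f
    rw [fxdefs_dual] at h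
    exact h

theorem blkHyp_four {B : SkewH E V} (p : PChar F) (X : SA B) (e : V)
    (hU : NDeg B (cyc X.1 e)) (S : SF V ℂ →ₗ[ℂ] ℂ) (h : BlkHyp p X e hU S) :
    BlkHyp p X e hU (S ∘ₗ fourV B p) := by
  refine ⟨h.b2, ?_, ?_⟩
  · intro f hf
    obtain ⟨c, hc, h1⟩ := fourV_fourV B p
    show S (fourV B p (fourV B p f)) = 0
    rw [h1, map_smul, h.b1 f hf, smul_zero]
  · intro c f hc hc' φ
    show S (fourV B p (SF.comp (gvHomeo c.1) φ)) = S (fourV B p φ)
    rw [fourV_UU, h.b3 c f hc hc']

/-- support of the transform gives translation invariance -/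
theorem four_trans (B : SkewH E V) (p : PChar F) (S : SF V ℂ →ₗ[ℂ] ℂ) (Z : Set V)
    (h : SF.SuppOn (S ∘ₗ fourV B p) Z) (y : V) (hy : ∀ v ∈ Z, om F B v y = 0) (φ : SF V ℂ) :
    S (SF.comp (Homeomorph.addRight y) φ) = S φ := by
  haveI := lc_V E V
  haveI := td_V F E V
  obtain ⟨c, hc, h1⟩ := fourV_fourV B p
  have e1 : φ = fourV B p (c⁻¹ • fourV B p φ) := by
    rw [map_smul, h1, smul_smul, inv_mul_cancel₀ hc, one_smul]
  have key : ∀ g : SF V ℂ, S (SF.comp (Homeomorph.addRight y) (fourV B p g)) =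
      S (fourV B p g) := by
    intro g
    have e2 : SF.comp (Homeomorph.addRight y) (fourV B p g) =
        fourV B p (SF.mulc (fun v => (omBi B p).χ v y) ((omBi B p).lcl y) g) := by
      apply SF.ext
      intro w
      exact (four1_mod (omBi B p) y g w).symm
    have e3 := h (SF.mulc (fun v => (omBi B p).χ v y) ((omBi B p).lcl y) g - g) (by
      intro z hz
      show p.ψ (om F B z y) • g z - g z = 0
      rw [hy z hz, fxdefs_psi0, one_smul, sub_self])
    rw [map_sub, sub_eq_zero] at e3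
    rw [e2]
    exact e3
  rw [e1]
  exact key _

end

end Pool.Agent.Work.MP_dd0ddf_al.OC
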