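import Pool.Agent.Work.MP_dd0ddf_al.OC.FxDefs
import Pool.Agent.Work.MP_dd0ddf_al.OC.BlkAux

/-!
# MP_dd0ddf_al, module FxTau: the anti-unitary involution attached to a cyclic decomposition

`fx_tau`: `τ (∑ f_i(X) e_i) = ∑ f̄_i(X) e_i`: well defined since the annihilators `q_i^{k_i}` have coefficients in `F` (`ann`), V is the direct sum of the cyclic subspaces
(orthogonal + nondegenerate blocks are independent).  Anti-unitary: `⟨τ u, τ w⟩` for `u = f(X)e_i`, `w = g(X)e_i`: `⟨f̄(X)e, ḡ(X)e⟩ = ⟨g(X) f̄(X) e, e⟩ = ⟨g(X)e, f(X)e⟩` by `ip_aeval`.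
`fx_delta`: `τ c τ = c⁻¹`: on block i: `τ f_i(X) τ = f̄_i(X)` and `c` unitary means `f_i f̄_i = 1` on the block.  By (s3), (s4):
`S((φ ∘ c) ∘ τ) = -a S(φ ∘ c) = -a δ(c) S(φ)`, while `φ ∘ c ∘ τ = (φ ∘ τ) ∘ c⁻¹`, so it is also `δ(c⁻¹) (-a) S(φ)`.  Hence `(δ(c) - δ(c)⁻¹) S(φ) = 0`,
so `δ(c) = 1` or `S = 0`.
-/

set_option linter.unusedSectionVars false
set_option linter.style.haveILetI false

namespace Pool.Agent.Work.MP_dd0ddf_al.OC

noncomputable section

universe u

variable {F E : Type u} [NontriviallyNormedField F] [IsUltrametricDist F] [ProperSpace F]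
  [NeZero (2 : F)] [NontriviallyNormedField E] [NormedAlgebra F E] [ProperSpace E] [StarRing E]
  [QExt F E]
variable {V : Type u} [AddCommGroup V] [Module E V] [Module.Finite E V] [TopologicalSpace V]
  [IsTopologicalAddGroup V] [T2Space V] [ContinuousSMul E V]

private theorem fxtau_zero_left (B : SkewH E V) (w : V) : B.ip 0 w = 0 := by
  have h := B.smul_left 0 0 w
  rwa [zero_smul, zero_mul] at h

private theorem fxtau_sum_left (B : SkewH E V) {ι : Type*} (s : Finset ι) (g : ι → V) (w : V) :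
    B.ip (∑ i ∈ s, g i) w = ∑ i ∈ s, B.ip (g i) w := map_sum (B.lin w) g s

private theorem fxtau_sum_right (B : SkewH E V) {ι : Type*} (s : Finset ι) (g : ι → V) (w : V) :
    B.ip w (∑ i ∈ s, g i) = ∑ i ∈ s, B.ip w (g i) := by
  rw [B.skew, fxtau_sum_left, star_sum, ← Finset.sum_neg_distrib]
  exact Finset.sum_congr rfl fun i _ => (B.skew (g i) w).symm

private theorem fxtau_rep {B : SkewH E V} {X : SA B} (D : CycD F B X.1) (v : V) :
    ∃ f : Fin D.m → Polynomial E, v = ∑ i, Polynomial.aeval X.1 (f i) (D.e i) := by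
  classical
  have hv : v ∈ ⨆ i, cyc X.1 (D.e i) := by
    rw [D.span]
    exact Submodule.mem_top
  refine Submodule.iSup_induction _ (motive := fun v => ∃ f : Fin D.m → Polynomial E,
    v = ∑ i, Polynomial.aeval X.1 (f i) (D.e i)) hv ?_ ?_ ?_
  · intro i u hu
    obtain ⟨g, rfl⟩ := (mem_cyc X.1 (D.e i) u).1 hu
    refine ⟨fun j => if j = i then g else 0, ?_⟩
    rw [Finset.sum_eq_single i]
    · beta_reduce
      rw [if_pos rfl]
    · intro j _ hj
      beta_reduce
      rw [if_neg hj, map_zero]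
      rfl
    · intro h
      exact absurd (Finset.mem_univ i) h
  · refine ⟨fun _ => 0, ?_⟩
    symm
    refine Finset.sum_eq_zero fun i _ => ?_
    rw [map_zero]
    rfl
  · rintro u w ⟨f, rfl⟩ ⟨g, rfl⟩
    refine ⟨fun i => f i + g i, ?_⟩
    rw [← Finset.sum_add_distrib]
    refine Finset.sum_congr rfl fun i _ => ?_
    rw [map_add]
    rfl

private theorem fxtau_ip {B : SkewH E V} {X : SA B} (D : CycD F B X.1)
    (f g : Fin D.m → Polynomial E) :
    B.ip (∑ i, Polynomial.aeval X.1 (f i) (D.e i)) (∑ i, Polynomial.aeval X.1 (g i) (D.e i)) =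
      ∑ i, B.ip (Polynomial.aeval X.1 (f i) (D.e i)) (Polynomial.aeval X.1 (g i) (D.e i)) := by
  rw [fxtau_sum_left]
  refine Finset.sum_congr rfl fun i _ => ?_
  rw [fxtau_sum_right]
  refine Finset.sum_eq_single i (fun j _ hj => D.ortho i j (Ne.symm hj) _ _) ?_
  intro h
  exact absurd (Finset.mem_univ i) h

private theorem fxtau_indep {B : SkewH E V} {X : SA B} (D : CycD F B X.1)
    (f : Fin D.m → Polynomial E) (h : ∑ i, Polynomial.aeval X.1 (f i) (D.e i) = 0)
    (i : Fin D.m) : Polynomial.aeval X.1 (f i) (D.e i) = 0 := by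
  refine D.nd i _ ((mem_cyc X.1 (D.e i) _).2 ⟨_, rfl⟩) fun w hw => ?_
  obtain ⟨g, rfl⟩ := (mem_cyc X.1 (D.e i) w).1 hw
  have h1 : B.ip (∑ j, Polynomial.aeval X.1 (f j) (D.e j)) (Polynomial.aeval X.1 g (D.e i)) =
      B.ip (Polynomial.aeval X.1 (f i) (D.e i)) (Polynomial.aeval X.1 g (D.e i)) := by
    rw [fxtau_sum_left]
    refine Finset.sum_eq_single i (fun j _ hj => D.ortho j i hj _ _) ?_
    intro h
    exact absurd (Finset.mem_univ i) h
  rw [← h1, h, fxtau_zero_left]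

/-- well defined -/
private theorem fxtau_wd {B : SkewH E V} {X : SA B} (D : CycD F B X.1)
    (f g : Fin D.m → Polynomial E) (h : ∑ i, Polynomial.aeval X.1 (f i) (D.e i) =
      ∑ i, Polynomial.aeval X.1 (g i) (D.e i)) :
    ∑ i, Polynomial.aeval X.1 (bar (f i)) (D.e i) =
      ∑ i, Polynomial.aeval X.1 (bar (g i)) (D.e i) := by
  refine Finset.sum_congr rfl fun i _ => ?_
  have h1 : ∑ i, Polynomial.aeval X.1 (f i - g i) (D.e i) = 0 := by
    have h2 : ∀ i, Polynomial.aeval X.1 (f i - g i) (D.e i) =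
        Polynomial.aeval X.1 (f i) (D.e i) - Polynomial.aeval X.1 (g i) (D.e i) := by
      intro i
      rw [map_sub]
      rfl
    simp only [h2]
    rw [Finset.sum_sub_distrib, h, sub_self]
  have h3 := (D.ann i _).1 (fxtau_indep D _ h1 i)
  have h4 := bar_dvd h3
  rw [bar_pow, bar_base, bar_sub] at h4
  have h5 := (D.ann i _).2 h4
  have h6 : Polynomial.aeval X.1 (bar (f i) - bar (g i)) (D.e i) =
      Polynomial.aeval X.1 (bar (f i)) (D.e i) - Polynomial.aeval X.1 (bar (g i)) (D.e i) := by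
    rw [map_sub]
    rfl
  rw [h6] at h5
  exact sub_eq_zero.1 h5

private def fxtau_t {B : SkewH E V} {X : SA B} (D : CycD F B X.1) (v : V) : V :=
  ∑ i, Polynomial.aeval X.1 (bar ((fxtau_rep D v).choose i)) (D.e i)

private theorem fxtau_spec {B : SkewH E V} {X : SA B} (D : CycD F B X.1)
    (f : Fin D.m → Polynomial E) :
    fxtau_t D (∑ i, Polynomial.aeval X.1 (f i) (D.e i)) =
      ∑ i, Polynomial.aeval X.1 (bar (f i)) (D.e i) :=
  fxtau_wd D _ _ (fxtau_rep D (∑ i, Polynomial.aeval X.1 (f i) (D.e i))).choose_spec.symm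

private def fxtau_def {B : SkewH E V} {X : SA B} (D : CycD F B X.1) : AntiU B where
  t := fxtau_t D
  add v w := by
    obtain ⟨f, rfl⟩ := fxtau_rep D v
    obtain ⟨g, rfl⟩ := fxtau_rep D w
    have h : ∀ f g : Fin D.m → Polynomial E, ∑ i, Polynomial.aeval X.1 (f i) (D.e i) +
        ∑ i, Polynomial.aeval X.1 (g i) (D.e i) =
        ∑ i, Polynomial.aeval X.1 (f i + g i) (D.e i) := by
      intro f g
      rw [← Finset.sum_add_distrib]
      refine Finset.sum_congr rfl fun i _ => ?_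
      rw [map_add]
      rfl
    rw [h, fxtau_spec, fxtau_spec, fxtau_spec, h]
    refine Finset.sum_congr rfl fun i _ => ?_
    rw [bar_add]
  smul a v := by
    obtain ⟨f, rfl⟩ := fxtau_rep D v
    have h : ∀ (a : E) (f : Fin D.m → Polynomial E),
        a • ∑ i, Polynomial.aeval X.1 (f i) (D.e i) =
        ∑ i, Polynomial.aeval X.1 (Polynomial.C a * f i) (D.e i) := by
      intro a f
      rw [Finset.smul_sum]
      refine Finset.sum_congr rfl fun i _ => ?_
      rw [aeval_mul', Polynomial.aeval_C]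
      rfl
    rw [h, fxtau_spec, fxtau_spec, h]
    refine Finset.sum_congr rfl fun i _ => ?_
    rw [bar_mul]
    have h2 : bar (Polynomial.C a) = Polynomial.C (star a) := Polynomial.map_C _
    rw [h2]
  ip v w := by
    obtain ⟨f, rfl⟩ := fxtau_rep D v
    obtain ⟨g, rfl⟩ := fxtau_rep D w
    rw [fxtau_spec, fxtau_spec, fxtau_ip, fxtau_ip]
    refine Finset.sum_congr rfl fun i _ => ?_
    rw [ip_bar' B X (bar (g i)), bar_bar, ip_bar' B X (f i), ← aeval_mul', ← aeval_mul',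
      mul_comm]
  inv v := by
    obtain ⟨f, rfl⟩ := fxtau_rep D v
    rw [fxtau_spec, fxtau_spec]
    refine Finset.sum_congr rfl fun i _ => ?_
    rw [bar_bar]

private theorem fxtau_one {B : SkewH E V} {X : SA B} (D : CycD F B X.1) (i : Fin D.m)
    (f : Polynomial E) : ∃ g : Fin D.m → Polynomial E, Polynomial.aeval X.1 f (D.e i) =
      ∑ j, Polynomial.aeval X.1 (g j) (D.e j) ∧ Polynomial.aeval X.1 (bar f) (D.e i) =
      ∑ j, Polynomial.aeval X.1 (bar (g j)) (D.e j) := by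
  classical
  refine ⟨fun j => if j = i then f else 0, ?_, ?_⟩
  · rw [Finset.sum_eq_single i]
    · beta_reduce
      rw [if_pos rfl]
    · intro j _ hj
      beta_reduce
      rw [if_neg hj, map_zero]
      rfl
    · intro h
      exact absurd (Finset.mem_univ i) h
  · rw [Finset.sum_eq_single i]
    · beta_reduce
      rw [if_pos rfl]
    · intro j _ hj
      beta_reduce
      rw [if_neg hj]
      have h2 : bar (0 : Polynomial E) = 0 := Polynomial.map_zero _
      rw [h2, map_zero]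
      rfl
    · intro h
      exact absurd (Finset.mem_univ i) h

theorem fx_tau {B : SkewH E V} (X : SA B) (D : CycD F B X.1) :
    ∃ τ : AntiU B, conjτ τ X.1 = X.1 ∧ ∀ i (f : Polynomial E),
      τ.t (Polynomial.aeval X.1 f (D.e i)) =
        Polynomial.aeval X.1 (f.map (starRingEnd E)) (D.e i) := by
  refine ⟨fxtau_def D, ?_, ?_⟩
  · apply LinearMap.ext
    intro v
    obtain ⟨f, rfl⟩ := fxtau_rep D v
    show fxtau_t D (X.1 (fxtau_t D _)) = X.1 _
    have hX : ∀ f : Fin D.m → Polynomial E, X.1 (∑ i, Polynomial.aeval X.1 (f i) (D.e i)) =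
        ∑ i, Polynomial.aeval X.1 (Polynomial.X * f i) (D.e i) := by
      intro f
      rw [map_sum]
      refine Finset.sum_congr rfl fun i _ => ?_
      rw [aeval_mul', Polynomial.aeval_X]
    rw [fxtau_spec, hX, fxtau_spec, hX]
    refine Finset.sum_congr rfl fun i _ => ?_
    have h2 : bar (Polynomial.X : Polynomial E) = Polynomial.X := Polynomial.map_X _
    rw [bar_mul, bar_bar, h2]
  · intro i f
    obtain ⟨g, h1, h2⟩ := fxtau_one D i f
    show fxtau_t D _ = Polynomial.aeval X.1 (bar f) (D.e i)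
    rw [h1, h2, fxtau_spec]

theorem fx_delta {B : SkewH E V} (p : PChar F) (X : SA B) (S : SF V ℂ →ₗ[ℂ] ℂ)
    (hS : FixHyp p X S) (D : CycD F B X.1) (c : UU B) (f : Fin D.m → Polynomial E)
    (hc : ∀ i (g : Polynomial E), c.1.1 (Polynomial.aeval X.1 g (D.e i)) =
      Polynomial.aeval X.1 (f i * g) (D.e i)) (φ : SF V ℂ) :
    S (SF.comp (gvHomeo c.1) φ) = S φ := by
  obtain ⟨τ, hτ, hτ2⟩ := fx_tau X D
  obtain ⟨a, ha, h4⟩ := hS.s4 τ hτ
  obtain ⟨δ, h3⟩ := hS.s3
  have hcc : c ∈ centX B X := by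
    show c.1.1 * X.1 = X.1 * c.1.1
    apply LinearMap.ext
    intro v
    obtain ⟨g, rfl⟩ := fxtau_rep D v
    show c.1.1 (X.1 (∑ i, Polynomial.aeval X.1 (g i) (D.e i))) =
      X.1 (c.1.1 (∑ i, Polynomial.aeval X.1 (g i) (D.e i)))
    rw [map_sum, map_sum, map_sum, map_sum]
    refine Finset.sum_congr rfl fun i _ => ?_
    have h1 : X.1 (Polynomial.aeval X.1 (g i) (D.e i)) =
        Polynomial.aeval X.1 (Polynomial.X * g i) (D.e i) := by
      rw [aeval_mul', Polynomial.aeval_X]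
    have h2 : X.1 (Polynomial.aeval X.1 (f i * g i) (D.e i)) =
        Polynomial.aeval X.1 (Polynomial.X * (f i * g i)) (D.e i) := by
      rw [aeval_mul' X.1 Polynomial.X, Polynomial.aeval_X]
    rw [h1, hc, hc, h2]
    congr 2
    ring
  -- the unitarity
  have hun : ∀ i (g : Polynomial E), Polynomial.aeval X.1 (bar (f i) * f i * g) (D.e i) =
      Polynomial.aeval X.1 g (D.e i) := by
    intro i g
    have h1 : Polynomial.aeval X.1 (bar (f i) * f i * g - g) (D.e i) = 0 := by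
      refine D.nd i _ ((mem_cyc X.1 (D.e i) _).2 ⟨_, rfl⟩) fun w hw => ?_
      obtain ⟨h, rfl⟩ := (mem_cyc X.1 (D.e i) w).1 hw
      have h2 := c.2 (Polynomial.aeval X.1 g (D.e i)) (Polynomial.aeval X.1 h (D.e i))
      rw [hc, hc, aeval_mul' X.1 (f i) h, ip_bar' B X (f i), ← aeval_mul'] at h2
      have h3 : Polynomial.aeval X.1 (bar (f i) * f i * g - g) (D.e i) =
          Polynomial.aeval X.1 (bar (f i) * (f i * g)) (D.e i) -
            Polynomial.aeval X.1 g (D.e i) := by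
        rw [map_sub, mul_assoc]
        rfl
      rw [h3]
      have h4 : B.lin (Polynomial.aeval X.1 h (D.e i))
          (Polynomial.aeval X.1 (bar (f i) * (f i * g)) (D.e i) -
            Polynomial.aeval X.1 g (D.e i)) = 0 := by
        rw [map_sub]
        exact sub_eq_zero.2 h2
      exact h4
    rw [map_sub] at h1
    exact sub_eq_zero.1 h1
  have hτc : ∀ v, τ.t (c.1.1 (τ.t (c.1.1 v))) = v := by
    intro v
    obtain ⟨g, rfl⟩ := fxtau_rep D v
    have hτs : ∀ (s : Finset (Fin D.m)) (h : Fin D.m → V),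
        τ.t (∑ i ∈ s, h i) = ∑ i ∈ s, τ.t (h i) := by
      classical
      intro s h
      induction s using Finset.induction_on with
      | empty =>
        have := τ.smul 0 0
        rw [zero_smul, star_zero, zero_smul] at this
        simpa using this
      | insert a s ha ih => rw [Finset.sum_insert ha, Finset.sum_insert ha, τ.add, ih]
    rw [map_sum, hτs, map_sum, hτs]
    refine Finset.sum_congr rfl fun i _ => ?_
    have e1 : τ.t (Polynomial.aeval X.1 (f i * g i) (D.e i)) =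
      Polynomial.aeval X.1 (bar (f i * g i)) (D.e i) := hτ2 i _
    have e2 : τ.t (Polynomial.aeval X.1 (f i * bar (f i * g i)) (D.e i)) =
      Polynomial.aeval X.1 (bar (f i * bar (f i * g i))) (D.e i) := hτ2 i _
    rw [hc, e1, hc, e2, bar_mul, bar_bar, ← mul_assoc, hun]
  have hcomm : ∀ v, c.1.1 (τ.t v) = τ.t (c⁻¹.1.1 v) := by
    intro v
    have h1 := hτc (c⁻¹.1.1 v)
    have h2 : c.1.1 (c⁻¹.1.1 v) = v := congrArg (fun f : Module.End E V => f v) c.1.mul_inv
    rw [h2] at h1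
    have h3 := congrArg τ.t h1
    rw [τ.inv] at h3
    exact h3
  have e1 : SF.comp (tauH F τ) (SF.comp (gvHomeo c.1) φ) =
      SF.comp (gvHomeo c⁻¹.1) (SF.comp (tauH F τ) φ) := by
    apply SF.ext
    intro v
    show φ (c.1.1 (τ.t v)) = φ (τ.t (c⁻¹.1.1 v))
    rw [hcomm]
  have e2 := congrArg S e1
  have e3 := h3 ⟨c, hcc⟩ φ
  have e4 := h3 ⟨c, hcc⟩⁻¹ (SF.comp (tauH F τ) φ)
  have e3' : S (SF.comp (gvHomeo c.1) φ) = δ.δ ⟨c, hcc⟩ * S φ := e3
  have e4' : S (SF.comp (gvHomeo c⁻¹.1) (SF.comp (tauH F τ) φ)) =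
    δ.δ ⟨c, hcc⟩⁻¹ * S (SF.comp (tauH F τ) φ) := e4
  rw [h4, e3', e4', h4] at e2
  have hd1 : δ.δ (1 : centX B X) = 1 := by
    have h1 := δ.mul 1 1
    rw [one_mul] at h1
    have h2 := (δ.pos 1).ne'
    exact (mul_right_cancel₀ h2 (by rw [one_mul]; exact h1)).symm
  have hd2 : δ.δ ⟨c, hcc⟩ * δ.δ (⟨c, hcc⟩ : centX B X)⁻¹ = 1 := by
    rw [← δ.mul, mul_inv_cancel, hd1]
  have hpos := δ.pos ⟨c, hcc⟩
  rw [e3']
  by_cases h0 : S φ = 0
  · rw [h0, mul_zero]
  · have hac : (a : ℂ) ≠ 0 := by exact_mod_cast ha.ne'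
    have e5 : (δ.δ ⟨c, hcc⟩ : ℂ) = δ.δ (⟨c, hcc⟩ : centX B X)⁻¹ := by
      have h5 : ((a : ℂ) * S φ) * (δ.δ ⟨c, hcc⟩ : ℂ) =
          ((a : ℂ) * S φ) * δ.δ (⟨c, hcc⟩ : centX B X)⁻¹ := by linear_combination -e2
      exact mul_left_cancel₀ (mul_ne_zero hac h0) h5
    have e6 : δ.δ ⟨c, hcc⟩ = δ.δ (⟨c, hcc⟩ : centX B X)⁻¹ := by exact_mod_cast e5
    rw [← e6] at hd2
    have e7 : δ.δ ⟨c, hcc⟩ = 1 := by nlinarith
    rw [e7, Complex.ofReal_one, one_mul]

private theorem fxtau_stab {B : SkewH E V} (X : SA B) (e : V) (u : V) (hu : u ∈ cyc X.1 e) :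
    X.1 u ∈ cyc X.1 e := by
  obtain ⟨g, rfl⟩ := (mem_cyc X.1 e u).1 hu
  exact (mem_cyc X.1 e _).2 ⟨Polynomial.X * g, by rw [aeval_mul', Polynomial.aeval_X]⟩

private theorem fxtau_comm {B : SkewH E V} (X : SA B) (e : V) (hU : NDeg B (cyc X.1 e)) :
    prO B _ hU * X.1 = X.1 * prO B _ hU := by
  apply LinearMap.ext
  intro v
  show prO B _ hU (X.1 v) = X.1 (prO B _ hU v)
  have h1 : v = prO B _ hU v + (v - prO B _ hU v) := (add_sub_cancel _ _).symm
  have h2 : X.1 (v - prO B _ hU v) ∈ orth B (cyc X.1 e) := by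
    intro u hu
    rw [X.2]
    exact sub_prO_mem B _ hU v _ (fxtau_stab X e u hu)
  conv_lhs => rw [h1]
  rw [map_add, map_add, prO_of_mem B _ hU (fxtau_stab X e _ (prO_mem B _ hU v)),
    prO_of_orth B _ hU h2, add_zero]

private theorem fxtau_pow {B : SkewH E V} (X : SA B) (P : Module.End E V) (h : P * X.1 = X.1 * P)
    (n : ℕ) : P * X.1 ^ n = X.1 ^ n * P := (Commute.pow_right h n).eq

private theorem fxtau_sub {B : SkewH E V} (X : SA B) (e : V) (hU : NDeg B (cyc X.1 e)) (v : V)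
    (hv : v ∈ Cset B X) (n : ℕ) : B.ip ((X.1 ^ n) (prO B _ hU v)) (prO B _ hU v) = 0 := by
  have h1 := hv (prO B _ hU * X.1 ^ n * prO B _ hU) (by
    have h2 := fxtau_comm X e hU
    have h3 : X.1 ^ n * X.1 = X.1 * X.1 ^ n := (pow_succ _ _).symm.trans (pow_succ' _ _)
    calc prO B _ hU * X.1 ^ n * prO B _ hU * X.1
        = prO B _ hU * X.1 ^ n * (prO B _ hU * X.1) := by rw [mul_assoc]
      _ = prO B _ hU * (X.1 ^ n * X.1) * prO B _ hU := by rw [h2]; simp only [mul_assoc]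
      _ = (prO B _ hU * X.1) * X.1 ^ n * prO B _ hU := by rw [h3]; simp only [mul_assoc]
      _ = X.1 * (prO B _ hU * X.1 ^ n * prO B _ hU) := by rw [h2]; simp only [mul_assoc])
  have h4 : B.ip (prO B _ hU ((X.1 ^ n) (prO B _ hU v))) v = 0 := h1
  have h5 := prO_SA B _ hU ((X.1 ^ n) (prO B _ hU v)) v
  rw [h4] at h5
  exact h5.symm

/-- the block hypotheses hold at every block -/
theorem fx_blkHyp {B : SkewH E V} (p : PChar F) (X : SA B) (S : SF V ℂ →ₗ[ℂ] ℂ)
    (hS : FixHyp p X S) (D : CycD F B X.1) (i : Fin D.m) :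
    BlkHyp p X (D.e i) (D.nd i) S := by
  classical
  refine ⟨?_, ?_, ?_⟩
  · intro f hf
    exact hS.s1 f fun z hz => hf z fun n => fxtau_sub X _ (D.nd i) z hz n
  · intro f hf
    exact hS.s2 f fun z hz => hf z fun n => fxtau_sub X _ (D.nd i) z hz n
  · intro c f hc hc' φ
    refine fx_delta p X S hS D c (fun j => if j = i then f else 1) ?_ φ
    intro j g
    by_cases hj : j = i
    · subst hj
      rw [if_pos rfl, hc _ ((mem_cyc X.1 _ _).2 ⟨g, rfl⟩), aeval_mul']
    · rw [if_neg hj, one_mul]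
      refine hc' _ fun u hu => ?_
      obtain ⟨h, rfl⟩ := (mem_cyc X.1 _ u).1 hu
      exact D.ortho j i hj _ _

end

end Pool.Agent.Work.MP_dd0ddf_al.OC
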