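import Pool.Agent.Work.MP_dd0ddf_al.OC.GrpLoc

/-!
# MP_dd0ddf_al, module GHyp: the induction hypothesis of the group level theorem (definition only)
-/

set_option linter.unusedSectionVars false
set_option linter.style.haveILetI false

namespace Pool.Agent.Work.MP_dd0ddf_al.OC

noncomputable section

universe u

/-- the group level theorem for all spaces of dimension at most `n` over all pairs of fields -/
def GrpHyp (n : ℕ) : Prop :=
  ∀ (F E : Type u) [NontriviallyNormedField F] [IsUltrametricDist F] [ProperSpace F]
    [NeZero (2 : F)] [NontriviallyNormedField E] [NormedAlgebra F E] [ProperSpace E] [StarRing E]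
    [QExt F E] [MeasurableSpace E] [BorelSpace E] (V : Type u) [AddCommGroup V] [Module E V]
    [Module.Finite E V] [TopologicalSpace V] [IsTopologicalAddGroup V] [T2Space V]
    [ContinuousSMul E V] (B : SkewH E V) (p : PChar F) (W : WeilRep B p),
    Module.finrank E V ≤ n → GrpGood W

end

end Pool.Agent.Work.MP_dd0ddf_al.OC
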