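import Pool.Agent.Work.MP_dd0ddf_al.OC.SFormDefs
import Pool.Agent.Work.MP_dd0ddf_al.OC.LinChar
import Pool.Agent.Work.MP_dd0ddf_al.OC.HaarDefs
import Pool.Agent.Work.MP_dd0ddf_al.OC.NiE1

/-!
# MP_dd0ddf_al, module SA0Defs: trace zero self-adjoint operators as a quadratic space over F (definitions)

`SA0 B = {X ∈ SA B : tr X = 0}`; F acts by `(a, X) ↦ algebraMap F E a • X` (self-adjoint since star fixes F).  `trS`: `b(X, Y) = Tr_{E/F} tr(XY)`.  Symmetric: `tr(XY) = tr(YX)`.  Nondegenerate: `tr(XY) ∈ F` for X, Y self-adjoint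
(`star tr(XY) = tr((XY)^*) = tr(YX)`; charpoly_adj or trace of the adjoint), so `b(X,Y) = 2 tr(XY)`; if `tr(XY) = 0` for all Y ∈ SA0 then also for `Y = 1`, hence for all Y ∈ SA B (Y = Y0 + (tr Y/n)·1, char 0, tr Y ∈ F; if n = 0 trivial); every operator is `Y1 + ζ Y2` with Y1, Y2 self-adjoint,
`star ζ = -ζ ≠ 0` (exists_eta), so `tr(XZ) = 0` for all Z and X = 0.
Dimension: `End_E V` has F-dimension 2 n², `= SA ⊕ ζ SA`, so `dim_F SA = n²`, and `SA = SA0 ⊕ F·1` if n > 0.
Topology: closed subset of End_E V.
-/

set_option linter.unusedSectionVars false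
set_option linter.style.haveILetI false

namespace Pool.Agent.Work.MP_dd0ddf_al.OC

noncomputable section

universe u

variable {F E : Type u} [NontriviallyNormedField F] [IsUltrametricDist F] [ProperSpace F]
  [NeZero (2 : F)] [NontriviallyNormedField E] [NormedAlgebra F E] [ProperSpace E] [StarRing E]
  [QExt F E]
variable {V : Type u} [AddCommGroup V] [Module E V] [Module.Finite E V] [TopologicalSpace V]
  [IsTopologicalAddGroup V] [T2Space V] [ContinuousSMul E V]

/-! auxiliary -/

theorem sa0_trace_eq (X : Module.End E V) :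
    LinearMap.trace E V X = - (LinearMap.charpoly X).nextCoeff := by
  classical
  rw [LinearMap.trace_eq_matrix_trace E (Module.finBasis E V),
    Matrix.trace_eq_neg_charpoly_nextCoeff, LinearMap.charpoly_toMatrix]

theorem sa0_trace_adj (B : SkewH E V) (X : Module.End E V) :
    LinearMap.trace E V (adj B X) = star (LinearMap.trace E V X) := by
  rw [sa0_trace_eq, sa0_trace_eq, charpoly_adj,
    Polynomial.nextCoeff_map (starRingEnd E).injective, star_neg]
  rfl

theorem sa0_trace_conjτ {B : SkewH E V} (τ : AntiU B) (X : Module.End E V) :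
    LinearMap.trace E V (conjτ τ X) = star (LinearMap.trace E V X) := by
  rw [sa0_trace_eq, sa0_trace_eq, charpoly_conjτ,
    Polynomial.nextCoeff_map (starRingEnd E).injective, star_neg]
  rfl

theorem sa0_adj_add (B : SkewH E V) (X Y : Module.End E V) :
    adj B (X + Y) = adj B X + adj B Y := by
  symm
  apply adj_unique
  intro v w
  show B.ip (X v + Y v) w = B.ip v (adj B X w + adj B Y w)
  rw [B.add_left, B.add_right, adj_spec, adj_spec]

theorem sa0_adj_smul (B : SkewH E V) (a : E) (X : Module.End E V) :
    adj B (a • X) = star a • adj B X := by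
  symm
  apply adj_unique
  intro v w
  show B.ip (a • X v) w = B.ip v (star a • adj B X w)
  rw [B.smul_left, B.smul_right, adj_spec, star_star]

variable (F) in
include F in
theorem sa0_smul_mem (B : SkewH E V) (a : F) {X : Module.End E V} (hX : X ∈ SA B) :
    algebraMap F E a • X ∈ SA B := by
  apply sa_of_adj
  rw [sa0_adj_smul, QExt.star_alg, sa_adj B hX]

/-- trace zero self-adjoint operators -/
def SA0 (B : SkewH E V) : AddSubgroup (Module.End E V) where
  carrier := {X | X ∈ SA B ∧ LinearMap.trace E V X = 0}
  add_mem' := fun {a b} ha hb => ⟨(SA B).add_mem ha.1 hb.1, by rw [map_add, ha.2, hb.2, add_zero]⟩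
  zero_mem' := ⟨(SA B).zero_mem, map_zero _⟩
  neg_mem' := fun {a} ha => ⟨(SA B).neg_mem ha.1, by rw [map_neg, ha.2, neg_zero]⟩

/-- the underlying self-adjoint operator -/
def sa0SA (B : SkewH E V) (X : SA0 B) : SA B := ⟨X.1, X.2.1⟩

instance modSA0 (B : SkewH E V) : Module F (SA0 B) where
  smul a X := ⟨algebraMap F E a • X.1, sa0_smul_mem F B a X.2.1, by rw [map_smul, X.2.2, smul_zero]⟩
  one_smul X := Subtype.ext (by
    show algebraMap F E 1 • X.1 = X.1
    rw [map_one, one_smul])
  mul_smul a b X := Subtype.ext (by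
    show algebraMap F E (a * b) • X.1 = algebraMap F E a • (algebraMap F E b • X.1)
    rw [map_mul, mul_smul])
  smul_zero a := Subtype.ext (by
    show algebraMap F E a • (0 : Module.End E V) = 0
    rw [smul_zero])
  smul_add a X Y := Subtype.ext (by
    show algebraMap F E a • (X.1 + Y.1) = algebraMap F E a • X.1 + algebraMap F E a • Y.1
    rw [smul_add])
  add_smul a b X := Subtype.ext (by
    show algebraMap F E (a + b) • X.1 = algebraMap F E a • X.1 + algebraMap F E b • X.1
    rw [map_add, add_smul])
  zero_smul X := Subtype.ext (by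
    show algebraMap F E 0 • X.1 = 0
    rw [map_zero, zero_smul])

theorem sa0_smul (B : SkewH E V) (a : F) (X : SA0 B) : (a • X).1 = algebraMap F E a • X.1 := rfl

instance finSA0 (B : SkewH E V) : Module.Finite F (SA0 B) := by
  haveI : FiniteDimensional F E := qext_findim F E
  letI : Module F (Module.End E V) := Module.compHom _ (algebraMap F E)
  haveI : IsScalarTower F E (Module.End E V) := ⟨fun a b X => by
    show (a • b) • X = algebraMap F E a • (b • X)
    rw [Algebra.smul_def a b, mul_smul]⟩
  haveI : Module.Finite F (Module.End E V) := Module.Finite.trans E _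
  let f : SA0 B →ₗ[F] Module.End E V :=
    { toFun := fun X => X.1
      map_add' := fun _ _ => rfl
      map_smul' := fun _ _ => rfl }
  exact Module.Finite.of_injective f Subtype.val_injective

instance csSA0 (B : SkewH E V) : ContinuousSMul F (SA0 B) := by
  refine ⟨Continuous.subtype_mk ?_ _⟩
  refine continuous_induced_rng.mpr (continuous_pi fun v => ?_)
  show Continuous (fun q : F × SA0 B => algebraMap F E q.1 • q.2.1 v)
  exact ((continuous_algebraMap F E).comp continuous_fst).smul
    ((continuous_end_apply v).comp (continuous_subtype_val.comp continuous_snd))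

omit [StarRing E] in
theorem sa0_cont_trace : Continuous (fun X : Module.End E V => LinearMap.trace E V X) := by
  classical
  have h : (fun X : Module.End E V => LinearMap.trace E V X) =
      fun X => ∑ i, (Module.finBasis E V).repr (X (Module.finBasis E V i)) i := by
    funext X
    rw [LinearMap.trace_eq_matrix_trace E (Module.finBasis E V)]
    refine Finset.sum_congr rfl fun i _ => ?_
    rw [Matrix.diag_apply, LinearMap.toMatrix_apply]
  rw [h]
  refine continuous_finsetSum _ fun i _ => ?_
  have h2 : Continuous (fun v : V => (Module.finBasis E V).repr v i) :=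
    ((Module.finBasis E V).coord i).continuous_of_finiteDimensional
  exact h2.comp (continuous_end_apply _)

variable (F) in
include F in
theorem isClosed_SA0 (B : SkewH E V) : IsClosed (SA0 B : Set (Module.End E V)) := by
  have h : (SA0 B : Set (Module.End E V)) =
      (SA B : Set (Module.End E V)) ∩ {X | LinearMap.trace E V X = 0} := rfl
  rw [h]
  exact (isClosed_SA F B).inter (isClosed_eq sa0_cont_trace continuous_const)

variable (F) in
include F in
theorem lc_SA0 (B : SkewH E V) : LocallyCompactSpace (SA0 B) :=
  (isClosed_SA0 F B).isClosedEmbedding_subtypeVal.locallyCompactSpace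

variable (F) in
include F in
theorem td_SA0 (B : SkewH E V) : TotallyDisconnectedSpace (SA0 B) := by
  haveI := td_End F E V
  exact inferInstance

variable (F) in
include F in
theorem sa0_trace_mem (B : SkewH E V) {X Y : Module.End E V} (hX : X ∈ SA B) (hY : Y ∈ SA B) :
    ∃ f : F, LinearMap.trace E V (X * Y) = algebraMap F E f := by
  obtain ⟨-, -, -, -, -, hfix⟩ := exists_eta F E
  apply hfix
  rw [← sa0_trace_adj B, adj_mul, sa_adj B hX, sa_adj B hY, LinearMap.trace_mul_comm]

variable (F) in
include F in
theorem sa0_one_mem (B : SkewH E V) : (1 : Module.End E V) ∈ SA B :=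
  sa_of_adj B (adj_one B)

/-- decomposition of an operator -/
theorem sa0_decomp (B : SkewH E V) [NeZero (2 : E)] {η : E} (hη0 : η ≠ 0) (hη : star η = -η)
    (Z : Module.End E V) : ∃ X ∈ SA B, ∃ Y ∈ SA B, Z = X + η • Y := by
  have h2 : (2 : E) ≠ 0 := two_ne_zero
  refine ⟨(2 : E)⁻¹ • (Z + adj B Z), ?_, (2 * η)⁻¹ • (Z + (-1 : E) • adj B Z), ?_, ?_⟩
  · apply sa_of_adj
    rw [sa0_adj_smul, sa0_adj_add, adj_adj, star_inv₀, star_ofNat, add_comm]
  · apply sa_of_adj
    rw [sa0_adj_smul, sa0_adj_add, sa0_adj_smul, adj_adj, star_inv₀, star_mul', hη, star_ofNat, star_neg,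
      star_one, mul_neg, inv_neg, neg_smul, ← smul_neg]
    congr 1
    simp only [neg_smul, one_smul, neg_add_rev, neg_neg]
  · rw [smul_smul, mul_inv, mul_left_comm, mul_inv_cancel₀ hη0, mul_one, ← smul_add]
    simp only [neg_smul, one_smul]
    rw [show Z + adj B Z + (Z + -adj B Z) = (2 : E) • Z by rw [two_smul]; abel,
      smul_smul, inv_mul_cancel₀ h2, one_smul]

omit [TopologicalSpace V] [IsTopologicalAddGroup V] [T2Space V] [ContinuousSMul E V]
  [ProperSpace E] [StarRing E] in
/-- nondegeneracy of the trace pairing -/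
theorem sa0_trace_nondeg (X : Module.End E V) (h : ∀ Z, LinearMap.trace E V (X * Z) = 0) : X = 0 := by
  classical
  ext v
  by_contra hv
  have hv' : X v ≠ 0 := hv
  obtain ⟨l, hl⟩ := (Module.forall_dual_apply_eq_zero_iff E (X v)).not.mpr hv' |> not_forall.mp
  have h1 := h (l.smulRight v)
  have h2 : X * l.smulRight v = l.smulRight (X v) := by
    ext w
    show X (l w • v) = l w • X v
    rw [map_smul]
  rw [h2, LinearMap.trace_smulRight] at h1
  exact hl h1

variable (F) in
/-- the trace form; the dimension is assumed to be nonzero in `F` -/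
def trS (B : SkewH E V) [hnF : NeZero ((Module.finrank E V : ℕ) : F)] : SForm F (SA0 B) where
  b X Y := Algebra.trace F E (LinearMap.trace E V (X.1 * Y.1))
  add_left X Y Z := by
    rw [← map_add, ← map_add, ← add_mul]
    rfl
  smul_left a X Y := by
    rw [sa0_smul, smul_mul_assoc, map_smul, smul_eq_mul, ← Algebra.smul_def, map_smul, smul_eq_mul]
  symm X Y := by rw [LinearMap.trace_mul_comm]
  nondeg X h := by
    haveI : FiniteDimensional F E := qext_findim F E
    haveI : NeZero (2 : E) := nz2_of_injective (algebraMap F E).injective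
    have h2 : (2 : F) ≠ 0 := two_ne_zero
    -- tr (X Y) = 0 for Y ∈ SA0
    have h3 : ∀ Y ∈ SA0 B, LinearMap.trace E V (X.1 * Y) = 0 := by
      intro Y hY
      obtain ⟨f, hf⟩ := sa0_trace_mem F B X.2.1 hY.1
      have h4 := h ⟨Y, hY⟩
      change Algebra.trace F E (LinearMap.trace E V (X.1 * Y)) = 0 at h4
      rw [hf, Algebra.trace_algebraMap, QExt.finrank_two (F := F) (E := E)] at h4
      rw [hf]
      have h5 : f = 0 := by
        rw [nsmul_eq_mul] at h4
        rcases mul_eq_zero.mp h4 with h6 | h6
        · exact absurd h6 (by exact_mod_cast h2)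
        · exact h6
      rw [h5, map_zero]
    obtain ⟨η, hη0, hη, -, -, hfix⟩ := exists_eta F E
    have hnE : (Module.finrank E V : E) ≠ 0 := by
      rw [← map_natCast (algebraMap F E), Ne, map_eq_zero]
      exact hnF.ne
    have h4 : ∀ Y ∈ SA B, LinearMap.trace E V (X.1 * Y) = 0 := by
      intro Y hY
      obtain ⟨f, hf⟩ := sa0_trace_mem F B (sa0_one_mem F B) hY
      rw [one_mul] at hf
      have hc : star (LinearMap.trace E V Y * (Module.finrank E V : E)⁻¹) =
          LinearMap.trace E V Y * (Module.finrank E V : E)⁻¹ := by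
        rw [star_mul', hf, QExt.star_alg, star_inv₀, star_natCast]
      obtain ⟨c, hc'⟩ := hfix _ hc
      have hY0 : Y + (-algebraMap F E c) • (1 : Module.End E V) ∈ SA0 B := by
        refine ⟨(SA B).add_mem hY ?_, ?_⟩
        · rw [← map_neg]
          exact sa0_smul_mem F B (-c) (sa0_one_mem F B)
        · rw [map_add, map_smul, LinearMap.trace_one, ← hc', smul_eq_mul, neg_mul,
            inv_mul_cancel_right₀ hnE, add_neg_cancel]
      have h5 := h3 _ hY0
      rw [mul_add, map_add, mul_smul_comm, mul_one, map_smul, X.2.2, smul_zero, add_zero] at h5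
      exact h5
    apply Subtype.ext
    refine sa0_trace_nondeg X.1 fun Z => ?_
    obtain ⟨Y1, hY1, Y2, hY2, rfl⟩ := sa0_decomp B hη0 hη Z
    rw [mul_add, map_add, mul_smul_comm, map_smul, h4 Y1 hY1, h4 Y2 hY2, smul_zero, add_zero]

theorem finrank_SA0 (B : SkewH E V) [hnF : NeZero ((Module.finrank E V : ℕ) : F)] :
    Module.finrank F (SA0 B) + 1 = Module.finrank E V ^ 2 := by
  haveI : FiniteDimensional F E := qext_findim F E
  haveI : NeZero (2 : E) := nz2_of_injective (algebraMap F E).injective
  letI : Module F (Module.End E V) := Module.compHom _ (algebraMap F E)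
  haveI : IsScalarTower F E (Module.End E V) := ⟨fun a b X => by
    show (a • b) • X = algebraMap F E a • (b • X)
    rw [Algebra.smul_def a b, mul_smul]⟩
  haveI : Module.Finite F (Module.End E V) := Module.Finite.trans E _
  have hnE : (Module.finrank E V : E) ≠ 0 := by
    rw [← map_natCast (algebraMap F E), Ne, map_eq_zero]
    exact hnF.ne
  obtain ⟨η, hη0, hη, -, -, hfix⟩ := exists_eta F E
  have hsm : ∀ (a : F) (Z : Module.End E V), a • Z = algebraMap F E a • Z := fun _ _ => rfl
  let f : (SA0 B × F) × (SA0 B × F) →ₗ[F] Module.End E V :=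
    { toFun := fun q => (q.1.1.1 + algebraMap F E q.1.2 • (1 : Module.End E V)) +
        η • (q.2.1.1 + algebraMap F E q.2.2 • (1 : Module.End E V))
      map_add' := fun p q => by
        show (p.1.1.1 + q.1.1.1 + algebraMap F E (p.1.2 + q.1.2) • (1 : Module.End E V)) +
            η • (p.2.1.1 + q.2.1.1 + algebraMap F E (p.2.2 + q.2.2) • (1 : Module.End E V)) = _
        rw [map_add, map_add, add_smul, add_smul]
        simp only [smul_add]
        abel
      map_smul' := fun a q => by
        show (algebraMap F E a • q.1.1.1 + algebraMap F E (a * q.1.2) • (1 : Module.End E V)) +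
            η • (algebraMap F E a • q.2.1.1 +
              algebraMap F E (a * q.2.2) • (1 : Module.End E V)) =
            algebraMap F E a • ((q.1.1.1 + algebraMap F E q.1.2 • (1 : Module.End E V)) +
              η • (q.2.1.1 + algebraMap F E q.2.2 • (1 : Module.End E V)))
        rw [map_mul, map_mul]
        simp only [smul_add, smul_smul, mul_left_comm η, mul_comm η] }
  have hsa : ∀ p : SA0 B × F, p.1.1 + algebraMap F E p.2 • (1 : Module.End E V) ∈ SA B :=
    fun p => (SA B).add_mem p.1.2.1 (sa0_smul_mem F B p.2 (sa0_one_mem F B))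
  have hinj1 : ∀ p : SA0 B × F, p.1.1 + algebraMap F E p.2 • (1 : Module.End E V) = 0 → p = 0 := by
    intro p hp
    have h1 := congrArg (LinearMap.trace E V) hp
    rw [map_add, map_smul, p.1.2.2, LinearMap.trace_one, zero_add, map_zero, smul_eq_mul] at h1
    have h2 : algebraMap F E p.2 = 0 := (mul_eq_zero.mp h1).resolve_right hnE
    have h3 : p.2 = 0 := (algebraMap F E).injective (by rw [h2, map_zero])
    rw [h2, zero_smul, add_zero] at hp
    exact Prod.ext (Subtype.ext hp) h3
  have hf : Function.Bijective f := by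
    constructor
    · rw [injective_iff_map_eq_zero]
      intro q hq
      set X := q.1.1.1 + algebraMap F E q.1.2 • (1 : Module.End E V) with hX
      set Y := q.2.1.1 + algebraMap F E q.2.2 • (1 : Module.End E V) with hY
      have h1 : X + η • Y = 0 := hq
      have h2 : X + (-η) • Y = 0 := by
        have h3 := congrArg (adj B) h1
        rw [sa0_adj_add, sa0_adj_smul, sa_adj B (hsa q.1), sa_adj B (hsa q.2), hη] at h3
        rw [h3]
        symm
        apply adj_unique
        intro v w
        show B.ip 0 w = B.ip v 0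
        have h4 := B.smul_left 0 0 w
        have h5 := B.smul_right 0 v 0
        simp only [zero_smul, zero_mul, star_zero] at h4 h5
        rw [h4, h5]
      have h3 : (2 : E) • X = 0 := by
        have h4 : (X + η • Y) + (X + (-η) • Y) = 0 := by rw [h1, h2, add_zero]
        rw [neg_smul] at h4
        rw [two_smul, ← h4]
        abel
      have h4 : X = 0 := (smul_eq_zero.mp h3).resolve_left two_ne_zero
      have h5 : Y = 0 := by
        rw [h4, zero_add] at h1
        exact (smul_eq_zero.mp h1).resolve_left hη0
      exact Prod.ext (hinj1 q.1 h4) (hinj1 q.2 h5)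
    · intro Z
      have hs : ∀ Y ∈ SA B, ∃ p : SA0 B × F, p.1.1 + algebraMap F E p.2 • (1 : Module.End E V) = Y := by
        intro Y hY
        obtain ⟨f, hf⟩ := sa0_trace_mem F B (sa0_one_mem F B) hY
        rw [one_mul] at hf
        have hc : star (LinearMap.trace E V Y * (Module.finrank E V : E)⁻¹) =
            LinearMap.trace E V Y * (Module.finrank E V : E)⁻¹ := by
          rw [star_mul', hf, QExt.star_alg, star_inv₀, star_natCast]
        obtain ⟨c, hc'⟩ := hfix _ hc
        have hY0 : Y + (-algebraMap F E c) • (1 : Module.End E V) ∈ SA0 B := by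
          refine ⟨(SA B).add_mem hY ?_, ?_⟩
          · rw [← map_neg]
            exact sa0_smul_mem F B (-c) (sa0_one_mem F B)
          · rw [map_add, map_smul, LinearMap.trace_one, ← hc', smul_eq_mul, neg_mul,
              inv_mul_cancel_right₀ hnE, add_neg_cancel]
        refine ⟨(⟨_, hY0⟩, c), ?_⟩
        show Y + (-algebraMap F E c) • (1 : Module.End E V) + algebraMap F E c • 1 = Y
        rw [neg_smul, neg_add_cancel_right]
      obtain ⟨Y1, hY1, Y2, hY2, rfl⟩ := sa0_decomp B hη0 hη Z
      obtain ⟨p1, hp1⟩ := hs Y1 hY1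
      obtain ⟨p2, hp2⟩ := hs Y2 hY2
      refine ⟨(p1, p2), ?_⟩
      show (p1.1.1 + algebraMap F E p1.2 • (1 : Module.End E V)) +
        η • (p2.1.1 + algebraMap F E p2.2 • (1 : Module.End E V)) = _
      rw [hp1, hp2]
  have h1 := (LinearEquiv.ofBijective f hf).finrank_eq
  rw [Module.finrank_prod, Module.finrank_prod, Module.finrank_self] at h1
  have h2 : Module.finrank F (Module.End E V) = 2 * Module.finrank E V ^ 2 := by
    rw [← Module.finrank_mul_finrank F E (Module.End E V), QExt.finrank_two (F := F) (E := E)]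
    congr 1
    show Module.finrank E (V →ₗ[E] V) = _
    rw [Module.finrank_linearMap, sq]
  rw [h2] at h1
  omega

/-- nilpotent operators are isotropic -/
theorem trS_nil (B : SkewH E V) [NeZero ((Module.finrank E V : ℕ) : F)] (X : SA0 B) (n : ℕ) (h : X.1 ^ n = 0) :
    (trS F B).b X X = 0 := by
  show Algebra.trace F E (LinearMap.trace E V (X.1 * X.1)) = 0
  have h1 : IsNilpotent (X.1 * X.1) := by
    refine ⟨n, ?_⟩
    rw [← sq, ← pow_mul, mul_comm, pow_mul, h]
    rcases Nat.eq_zero_or_pos n with hn | hn
    · subst hn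
      rw [pow_zero] at h
      haveI : Subsingleton (Module.End E V) := subsingleton_of_zero_eq_one h.symm
      exact Subsingleton.elim _ _
    · exact zero_pow two_ne_zero
  have h2 : LinearMap.trace E V (X.1 * X.1) = 0 :=
    (LinearMap.isNilpotent_trace_of_isNilpotent h1).eq_zero
  rw [h2, map_zero]

end

end Pool.Agent.Work.MP_dd0ddf_al.OC
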