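import Pool.Agent.Work.MP_dd0ddf_al.OC.GrpDesc
import Pool.Agent.Work.MP_dd0ddf_al.OC.SimDefs
import Pool.Agent.Work.MP_dd0ddf_al.OC.TPoly
import Pool.Agent.Work.MP_dd0ddf_al.OC.HaarU
import Pool.Agent.Work.MP_dd0ddf_al.OC.SFCurry
import Pool.Agent.Work.MP_dd0ddf_al.OC.CycDefs

/-!
# MP_dd0ddf_al, module GrpE3: case P = (x - c)^n: vanishing off the nilpotent cone, one characteristic polynomial

`D` satisfies EInv and is supported on `Ω = {X ∈ SA0 : charpoly X = P'}`, `P' ≠ x^n`.  If Ω is empty, D = 0.  Otherwise P' (the charpoly of a self-adjoint operator of trace 0) comes from F[x], monic of degree n, its coefficient of x^{n-1} is 0.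
`exists_t P'`: `w, t` with `P' ∣ t² - (1 + w x)`.  For `X ∈ Ω`: `t(X)² = 1 + w X`, `t(X)` is self-adjoint and invertible.  Let `P''` = charpoly of `c (1 + w X)`, X ∈ Ω (depends only on P'; in F[x], monic, degree n, P''(0) ≠ 0); it is not `(x - c')^n`: otherwise P' = (x - a)^n with n a = 0, P' = x^n.
The map `(X, k) ↦ t(X) g0 k` is a homeomorphism `Ω × UU B → G_{P''}`, inverse `g ↦ (X, g0⁻¹ t(X)⁻¹ g)`, `X = (g g^*/c - 1)/w`.
For `G ∈ SF (G_{P''}) (SF V)` let `Ψ(G)(X, k) = r(k) G(t(X) g0 k)`, in `SF (Ω × UU B) (SF V)` (W.r is smooth, G takes finitely many values), and `D'(G) = I (k ↦ D_Ω (Ψ(G)(·, k)))`, `I` from exists_haarU, `D = D_Ω ∘ restr`.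
(a) `D' (act (1, h2) G) = D' G`: Ψ(act(1,h2) G)(X,k) = r(k h2) G(t(X) g0 k h2): right invariance of I.
(b) `D' (act (h1, 1) G) = D' G`: Ψ(act(h1,1)G)(X,k) = r(k) l(h1) G(h1⁻¹ t(X) g0 k) = l(h1) r(k) G(t(h1⁻¹Xh1) g0 (simC h1)⁻¹ k) = l(h1) r(simC h1) [Ψ(G)(h1⁻¹Xh1, (simC h1)⁻¹ k)]: EInv.inv and left invariance.
(c) `D' (Θ (act (1,k0⁻¹) G)) = -d D' G` for some d > 0, k0 = simK: Ψ(Θ act(1,k0⁻¹) G)(X,k) = r(k) t r(k0⁻¹) G(θ(t(X)g0k) k0⁻¹), θ(t(X) g0 k) k0⁻¹ = m⁻¹ t(X') g0, m = τkτ, X' = sa0Sim X; r(k) t = t l(m); so it is the operator `opr (sa0Sim) (t ∘ r(k0⁻¹))` applied to `Y ↦ l(m) G(m⁻¹ t(Y) g0)`,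
 whose D-value is minus that of `Y ↦ l(m) G(t(m⁻¹Ym) g0 (simC m)⁻¹)`, which by EInv.inv (for m) equals D of `Y ↦ r(simC m)⁻¹ G(t(Y) g0 (simC m)⁻¹)` = `Ψ(G)(·, (simC m)⁻¹)`; and `k ↦ (simC (τkτ))⁻¹` is an automorphism followed by inversion: changes I by a positive factor d.
 So `D'(Θ G) = -d D'(G)` for all G ((a)); Θ² = 1 gives `d = 1` or D' = 0.  So `D'` is InGP and D' = 0 by `hgood`.
(d) D' = 0 implies D = 0: for `f ∈ SF Ω (SF V)` take a compact open subgroup `K` of UU B with `r(k) f(X) = f(X)` for k ∈ K and all X (finitely many values) and `G(t(X) g0 k) = r(k⁻¹) f(X) 1_K(k)`; `D' G = vol(K) D_Ω(f)`.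
-/

set_option linter.unusedSectionVars false
set_option linter.style.haveILetI false

namespace Pool.Agent.Work.MP_dd0ddf_al.OC

noncomputable section

universe u

variable {F E : Type u} [NontriviallyNormedField F] [IsUltrametricDist F] [ProperSpace F]
  [NeZero (2 : F)] [NontriviallyNormedField E] [NormedAlgebra F E] [ProperSpace E] [StarRing E]
  [QExt F E] [MeasurableSpace E] [BorelSpace E]
variable {V : Type u} [AddCommGroup V] [Module E V] [Module.Finite E V] [TopologicalSpace V]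
  [IsTopologicalAddGroup V] [T2Space V] [ContinuousSMul E V]

/-! ### general lemmas -/

section Gen

variable {Γ Z M : Type*} [Group Γ] [TopologicalSpace Γ] [IsTopologicalGroup Γ] [TopologicalSpace Z]
  [AddCommGroup M] [Module ℂ M]

private theorem grpE3_twist_mem (R : SRep Γ M) (j : Z → Γ) (hj : Continuous j) (f : SF Z M) :
    (fun z => R.β (j z) (f z)) ∈ SF Z M := by
  constructor
  · rw [IsLocallyConstant.iff_eventually_eq]
    intro z
    obtain ⟨U, hU, h1, h⟩ := R.smooth (f z)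
    have h2 := (IsLocallyConstant.iff_eventually_eq _).mp f.2.1 z
    have h3 : ∀ᶠ z' in nhds z, (j z)⁻¹ * j z' ∈ U := by
      have hc : Continuous fun z' => (j z)⁻¹ * j z' := continuous_const.mul hj
      have hU' : U ∈ nhds ((j z)⁻¹ * j z) := by
        rw [inv_mul_cancel]
        exact hU.mem_nhds h1
      exact hc.continuousAt.eventually_mem hU'
    filter_upwards [h2, h3] with z' e2 e3
    have e2' : f z' = f z := e2
    rw [e2']
    have e4 : j z' = j z * ((j z)⁻¹ * j z') := by rw [mul_inv_cancel_left]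
    rw [e4, map_mul]
    show R.β (j z) (R.β ((j z)⁻¹ * j z') (f z)) = _
    rw [h _ e3]
  · refine f.2.2.mono' fun x hx => subset_tsupport _ ?_
    intro h
    apply hx
    show R.β (j x) (f x) = 0
    have h' : f x = 0 := h
    rw [h', map_zero]

/-- multiply the values by the action of a continuous function with values in the group -/
private def grpE3_twist (R : SRep Γ M) (j : Z → Γ) (hj : Continuous j) : SF Z M →ₗ[ℂ] SF Z M where
  toFun f := ⟨fun z => R.β (j z) (f z), grpE3_twist_mem R j hj f⟩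
  map_add' f g := by
    apply Subtype.ext
    funext z
    exact map_add (R.β (j z)) _ _
  map_smul' c f := by
    apply Subtype.ext
    funext z
    exact map_smul (R.β (j z)) _ _

private theorem grpE3_twist_surj (R : SRep Γ M) (j : Z → Γ) (hj : Continuous j) :
    Function.Surjective (grpE3_twist R j hj) := by
  intro f
  refine ⟨grpE3_twist R (fun z => (j z)⁻¹) hj.inv f, ?_⟩
  apply SF.ext
  intro z
  show R.β (j z) (R.β (j z)⁻¹ (f z)) = f z
  have h1 : R.β (j z) (R.β (j z)⁻¹ (f z)) = (R.β (j z) * R.β (j z)⁻¹) (f z) := rfl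
  rw [h1, ← map_mul, mul_inv_cancel, map_one]
  rfl

private theorem grpE3_transport {X : Type*} [TopologicalSpace X] [T2Space X]
    [LocallyCompactSpace X] [TotallyDisconnectedSpace X] (Y : Set X) (hY : IsClosed Y)
    (D : SF X M →ₗ[ℂ] ℂ) (D' : SF Y M →ₗ[ℂ] ℂ) (hD : ∀ f, D f = D' (SF.restr Y hY f))
    (φ : X ≃ₜ X) (hφ : ∀ x, x ∈ Y ↔ φ x ∈ Y) (m : M →ₗ[ℂ] M) (s : ℂ)
    (h : ∀ f, D (SF.opr φ m f) = s * D f) (f : SF Y M) :
    D' (SF.opr (φ.subtype hφ) m f) = s * D' f := by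
  obtain ⟨G, rfl⟩ := restr_surjective Y hY f
  have h1 : SF.opr (φ.subtype hφ) m (SF.restr Y hY G) = SF.restr Y hY (SF.opr φ m G) := rfl
  rw [h1, ← hD, ← hD, h]

end Gen

/-! ### polynomials in operators -/

private theorem grpE3_charconj (g : GV E V) (X : Module.End E V) :
    LinearMap.charpoly (g.1 * X * g⁻¹.1) = LinearMap.charpoly X := by
  have h1 := LinearEquiv.charpoly_conj (LinearMap.GeneralLinearGroup.generalLinearEquiv E V g) X
  rw [← h1]
  rfl

private theorem grpE3_star (P : Polynomial F) :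
    (P.map (algebraMap F E)).map (starRingEnd E) = P.map (algebraMap F E) := by
  rw [Polynomial.map_map]
  congr 1
  ext x
  exact QExt.star_alg x

private theorem grpE3_aeval_cont (f : Polynomial E) :
    Continuous (fun X : Module.End E V => Polynomial.aeval X f) := by
  have h1 : (fun X : Module.End E V => Polynomial.aeval X f) =
      fun X => ∑ i ∈ Finset.range (f.natDegree + 1), f.coeff i • X ^ i := by
    funext X
    rw [Polynomial.aeval_eq_sum_range]
  rw [h1]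
  refine continuous_finsetSum _ fun i _ => ?_
  refine continuous_induced_rng.mpr (continuous_pi fun v => ?_)
  show Continuous fun X : Module.End E V => f.coeff i • (X ^ i) v
  exact ((continuous_end_apply v).comp (continuous_pow i)).const_smul _

private theorem grpE3_conj_aeval (g : GV E V) (X : Module.End E V) (f : Polynomial E) :
    Polynomial.aeval (g.1 * X * g⁻¹.1) f = g.1 * Polynomial.aeval X f * g⁻¹.1 := by
  have hpow : ∀ n : ℕ, (g.1 * X * g⁻¹.1) ^ n = g.1 * X ^ n * g⁻¹.1 := by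
    intro n
    induction n with
    | zero =>
      rw [pow_zero, pow_zero, mul_one]
      exact g.mul_inv.symm
    | succ n ih =>
      rw [pow_succ, ih, pow_succ]
      have h1 : g⁻¹.1 * g.1 = 1 := g.inv_mul
      calc g.1 * X ^ n * g⁻¹.1 * (g.1 * X * g⁻¹.1)
          = g.1 * X ^ n * (g⁻¹.1 * g.1) * X * g⁻¹.1 := by simp only [mul_assoc]
        _ = g.1 * (X ^ n * X) * g⁻¹.1 := by
          rw [h1, mul_one]
          simp only [mul_assoc]
  rw [Polynomial.aeval_eq_sum_range, Polynomial.aeval_eq_sum_range, Finset.mul_sum,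
    Finset.sum_mul]
  refine Finset.sum_congr rfl fun i _ => ?_
  rw [hpow, mul_smul_comm, smul_mul_assoc]

private theorem grpE3_tau_zero {B : SkewH E V} (τ : AntiU B) : τ.t 0 = 0 := by
  have := τ.smul 0 0
  rwa [zero_smul, star_zero, zero_smul] at this

private theorem grpE3_conjτ_aeval {B : SkewH E V} (τ : AntiU B) (X : Module.End E V)
    (f : Polynomial E) : Polynomial.aeval (conjτ τ X) f =
      conjτ τ (Polynomial.aeval X (f.map (starRingEnd E))) := by
  have hpow : ∀ n : ℕ, (conjτ τ X) ^ n = conjτ τ (X ^ n) := by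
    intro n
    induction n with
    | zero =>
      rw [pow_zero, pow_zero, conjτ_one]
    | succ n ih =>
      rw [pow_succ, ih, pow_succ, conjτ_mul]
  have hadd : ∀ X Y : Module.End E V, conjτ τ (X + Y) = conjτ τ X + conjτ τ Y := by
    intro X Y
    ext v
    exact τ.add _ _
  have hsmul : ∀ (a : E) (X : Module.End E V), conjτ τ (a • X) = star a • conjτ τ X := by
    intro a X
    ext v
    exact τ.smul _ _
  have h0 : conjτ τ (0 : Module.End E V) = 0 := by
    ext v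
    exact grpE3_tau_zero τ
  induction f using Polynomial.induction_on' with
  | add p q hp hq => rw [map_add, Polynomial.map_add, map_add, hadd, hp, hq]
  | monomial n a =>
    rw [Polynomial.map_monomial, Polynomial.aeval_monomial, Polynomial.aeval_monomial,
      Algebra.algebraMap_eq_smul_one, Algebra.algebraMap_eq_smul_one, smul_mul_assoc, one_mul,
      smul_mul_assoc, one_mul, hsmul, hpow]
    congr 1
    exact (star_star a).symm

private theorem grpE3_aeval_zero {X : Module.End E V} {Q f : Polynomial E}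
    (hX : LinearMap.charpoly X = Q) (hf : Q ∣ f) : Polynomial.aeval X f = 0 := by
  obtain ⟨g, rfl⟩ := hf
  rw [map_mul, ← hX, LinearMap.aeval_self_charpoly, zero_mul]

private theorem grpE3_mem_UU {B : SkewH E V} {g : GV E V} (h : g.1 * adj B g.1 = 1) :
    g ∈ UU B := by
  have h1 : adj B g.1 * g.1 = 1 := by
    have h2 : g⁻¹.1 * (g.1 * adj B g.1) = g⁻¹.1 := by rw [h, mul_one]
    have h3 : g⁻¹.1 * g.1 = 1 := g.inv_mul
    rw [← mul_assoc, h3, one_mul] at h2
    rw [h2, h3]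
  intro v w
  rw [adj_spec]
  have h2 : adj B g.1 (g.1 w) = w := congrArg (fun f : Module.End E V => f w) h1
  rw [h2]

/-- the characteristic polynomial of an affine function -/
private theorem grpE3_affine (a b : E) (hb : b ≠ 0) (X : Module.End E V) (z : E) :
    (LinearMap.charpoly (a • (1 : Module.End E V) + b • X)).eval (a + b * z) =
      b ^ Module.finrank E V * (LinearMap.charpoly X).eval z := by
  rw [LinearMap.eval_charpoly, LinearMap.eval_charpoly]
  have h1 : algebraMap E (Module.End E V) (a + b * z) - (a • (1 : Module.End E V) + b • X) =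
      b • (algebraMap E (Module.End E V) z - X) := by
    rw [Algebra.algebraMap_eq_smul_one, Algebra.algebraMap_eq_smul_one, smul_sub, smul_smul,
      add_smul]
    abel
  rw [h1, LinearMap.det_smul]

private theorem grpE3_trace (X : Module.End E V) :
    LinearMap.trace E V X = -(LinearMap.charpoly X).nextCoeff := by
  classical
  rw [LinearMap.trace_eq_matrix_trace E (Module.finBasis E V) X,
    Matrix.trace_eq_neg_charpoly_nextCoeff, LinearMap.charpoly_toMatrix]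

/-- the polynomial `P''` -/
private def grpE3_P2 (P₁ : Polynomial F) (c w : F) (n : ℕ) : Polynomial F :=
  Polynomial.C ((c * w) ^ n) *
    P₁.comp (Polynomial.C (c * w)⁻¹ * (Polynomial.X - Polynomial.C c))

private theorem grpE3_P2_eval (P₁ : Polynomial F) {c w : F} (hc : c ≠ 0) (hw : w ≠ 0) (n : ℕ)
    (z : F) : (grpE3_P2 P₁ c w n).eval (c + c * w * z) = (c * w) ^ n * P₁.eval z := by
  unfold grpE3_P2
  have h0 : c * w ≠ 0 := mul_ne_zero hc hw
  have h1 : (c * w)⁻¹ * (c + c * w * z - c) = z := by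
    rw [add_sub_cancel_left, inv_mul_cancel_left₀ h0]
  rw [Polynomial.eval_mul, Polynomial.eval_C, Polynomial.eval_comp, Polynomial.eval_mul,
    Polynomial.eval_C, Polynomial.eval_sub, Polynomial.eval_X, Polynomial.eval_C, h1]

private theorem grpE3_P2_eval' (P₁ : Polynomial F) {c w : F} (hc : c ≠ 0) (hw : w ≠ 0) (n : ℕ)
    (z : E) : ((grpE3_P2 P₁ c w n).map (algebraMap F E)).eval
      (algebraMap F E c + algebraMap F E (c * w) * z) =
      algebraMap F E (c * w) ^ n * (P₁.map (algebraMap F E)).eval z := by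
  unfold grpE3_P2
  have h0 : algebraMap F E (c * w) ≠ 0 := by
    rw [map_ne_zero]
    exact mul_ne_zero hc hw
  have h1 : (algebraMap F E (c * w))⁻¹ * (algebraMap F E c + algebraMap F E (c * w) * z -
      algebraMap F E c) = z := by
    rw [add_sub_cancel_left, inv_mul_cancel_left₀ h0]
  rw [Polynomial.map_mul, Polynomial.map_C, Polynomial.map_comp, Polynomial.map_mul,
    Polynomial.map_C, Polynomial.map_sub, Polynomial.map_X, Polynomial.map_C, Polynomial.eval_mul,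
    Polynomial.eval_C, Polynomial.eval_comp, Polynomial.eval_mul, Polynomial.eval_C,
    Polynomial.eval_sub, Polynomial.eval_X, Polynomial.eval_C, map_inv₀, h1, map_pow]

variable (F E) in
include F in
private theorem grpE3_infinite : Infinite E := inferInstance

/-- two polynomials that agree on the image of an affine function -/
private theorem grpE3_ext {K : Type*} [Field K] [Infinite K] {a b : K} (hb : b ≠ 0)
    {P Q : Polynomial K} (h : ∀ z, P.eval (a + b * z) = Q.eval (a + b * z)) : P = Q := by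
  apply Polynomial.funext
  intro y
  have h1 := h (b⁻¹ * (y - a))
  rw [mul_inv_cancel_left₀ hb, add_sub_cancel] at h1
  exact h1

/-- `charpoly (c (1 + w X)) = P''` if and only if `charpoly X = P₁` -/
private theorem grpE3_char (P₁ : Polynomial F) {c w : F} (hc : c ≠ 0) (hw : w ≠ 0)
    (X : Module.End E V) :
    LinearMap.charpoly (algebraMap F E c • (1 : Module.End E V) + algebraMap F E (c * w) • X) =
      (grpE3_P2 P₁ c w (Module.finrank E V)).map (algebraMap F E) ↔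
    LinearMap.charpoly X = P₁.map (algebraMap F E) := by
  haveI : Infinite E := grpE3_infinite F E
  have h0 : algebraMap F E (c * w) ≠ 0 := by
    rw [map_ne_zero]
    exact mul_ne_zero hc hw
  constructor
  · intro h
    apply Polynomial.funext
    intro z
    have h1 := grpE3_affine (algebraMap F E c) (algebraMap F E (c * w)) h0 X z
    rw [h, grpE3_P2_eval' P₁ hc hw] at h1
    exact (mul_left_cancel₀ (pow_ne_zero _ h0) h1).symm
  · intro h
    apply grpE3_ext h0 (a := algebraMap F E c)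
    intro z
    rw [grpE3_affine _ _ h0, grpE3_P2_eval' P₁ hc hw, h]

/-! ### the data -/

/-- the data of the construction -/
private structure GrpE3Data {B : SkewH E V} {c : F} {g₀ : GV E V} (hg : IsSim B c g₀)
    (P₁ : Polynomial F) where
  w : F
  t : Polynomial F
  a : Polynomial F
  w0 : w ≠ 0
  ht : P₁ ∣ t ^ 2 - (1 + Polynomial.C w * Polynomial.X)
  ha : P₁ ∣ t * a - 1
  X₀ : SA0 B
  hX₀ : LinearMap.charpoly X₀.1 = P₁.map (algebraMap F E)

/-- the set `Ω` -/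
private def grpE3_Om (B : SkewH E V) (P₁ : Polynomial F) : Set (SA0 B) :=
  {X | LinearMap.charpoly X.1 = P₁.map (algebraMap F E)}

private theorem grpE3_Om_closed (B : SkewH E V) (P₁ : Polynomial F) :
    IsClosed (grpE3_Om B P₁) := by
  have h1 : grpE3_Om B P₁ = ⋂ i : ℕ, {X : SA0 B | (LinearMap.charpoly X.1).coeff i =
      (P₁.map (algebraMap F E)).coeff i} := by
    ext X
    rw [Set.mem_iInter]
    exact ⟨fun h i => congrArg (fun f : Polynomial E => f.coeff i) h, fun h => Polynomial.ext h⟩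
  rw [h1]
  exact isClosed_iInter fun i => isClosed_eq
    ((continuous_charcoef i).comp continuous_subtype_val) continuous_const

section Data

variable {B : SkewH E V} {c : F} {g₀ : GV E V} {hg : IsSim B c g₀} {P₁ : Polynomial F}
  (Dt : GrpE3Data hg P₁)

private theorem grpE3_self (f : Polynomial F) (X : SA0 B) :
    adj B (Polynomial.aeval X.1 (f.map (algebraMap F E))) =
      Polynomial.aeval X.1 (f.map (algebraMap F E)) := by
  symm
  apply adj_unique
  intro v w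
  have h1 := ip_aeval B X.2.1 (f.map (algebraMap F E)) v w
  rw [grpE3_star] at h1
  exact h1

/-- `t(X)` as a unit -/
private def grpE3_u (X : grpE3_Om B P₁) : GV E V where
  val := Polynomial.aeval X.1.1 (Dt.t.map (algebraMap F E))
  inv := Polynomial.aeval X.1.1 (Dt.a.map (algebraMap F E))
  val_inv := by
    have h1 := grpE3_aeval_zero X.2 (Polynomial.map_dvd (algebraMap F E) Dt.ha)
    rw [Polynomial.map_sub, Polynomial.map_mul, Polynomial.map_one, map_sub, map_one, map_mul,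
      sub_eq_zero] at h1
    exact h1
  inv_val := by
    have h1 := grpE3_aeval_zero X.2 (Polynomial.map_dvd (algebraMap F E) Dt.ha)
    rw [mul_comm, Polynomial.map_sub, Polynomial.map_mul, Polynomial.map_one, map_sub, map_one,
      map_mul, sub_eq_zero] at h1
    exact h1

private theorem grpE3_u_cont : Continuous (grpE3_u Dt) := by
  rw [Units.continuous_iff]
  exact ⟨(grpE3_aeval_cont _).comp (continuous_subtype_val.comp continuous_subtype_val),
    (grpE3_aeval_cont _).comp (continuous_subtype_val.comp continuous_subtype_val)⟩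

private theorem grpE3_u_adj (X : grpE3_Om B P₁) :
    adj B (grpE3_u Dt X).1 = (grpE3_u Dt X).1 := grpE3_self Dt.t X.1

private theorem grpE3_u_adj_inv (X : grpE3_Om B P₁) :
    adj B (grpE3_u Dt X)⁻¹.1 = (grpE3_u Dt X)⁻¹.1 := grpE3_self Dt.a X.1

private theorem grpE3_u_sq (X : grpE3_Om B P₁) :
    (grpE3_u Dt X).1 * (grpE3_u Dt X).1 = 1 + algebraMap F E Dt.w • X.1.1 := by
  have h1 := grpE3_aeval_zero X.2 (Polynomial.map_dvd (algebraMap F E) Dt.ht)
  rw [Polynomial.map_sub, Polynomial.map_pow, Polynomial.map_add, Polynomial.map_mul,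
    Polynomial.map_one, Polynomial.map_C, Polynomial.map_X, map_sub, map_pow, map_add, map_mul,
    map_one, Polynomial.aeval_C, Polynomial.aeval_X, sub_eq_zero, sq,
    Algebra.algebraMap_eq_smul_one, smul_mul_assoc, one_mul] at h1
  exact h1

/-- conjugation by `g` takes `t(X)` to `t(g X g⁻¹)` -/
private theorem grpE3_u_conj (g : GV E V) (X Y : grpE3_Om B P₁)
    (h : Y.1.1 = g.1 * X.1.1 * g⁻¹.1) : grpE3_u Dt Y = g * grpE3_u Dt X * g⁻¹ := by
  apply Units.ext
  show Polynomial.aeval Y.1.1 _ = g.1 * Polynomial.aeval X.1.1 _ * g⁻¹.1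
  rw [h, grpE3_conj_aeval]

/-- the case of the similitude -/
private theorem grpE3_u_sim (τ : AntiU B) (g : GV E V) (X Y : grpE3_Om B P₁)
    (h : Y.1.1 = g.1 * conjτ τ X.1.1 * g⁻¹.1) :
    grpE3_u Dt Y = g * thG τ (grpE3_u Dt X) * g⁻¹ := by
  apply Units.ext
  show Polynomial.aeval Y.1.1 _ = g.1 * conjτ τ (adj B (grpE3_u Dt X).1) * g⁻¹.1
  rw [h, grpE3_conj_aeval, grpE3_conjτ_aeval, grpE3_star, grpE3_u_adj]
  rfl

private theorem grpE3_sg (X : grpE3_Om B P₁) (k : UU B) :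
    (sg B (grpE3_u Dt X * g₀ * k.1)).1 = algebraMap F E c • (1 : Module.End E V) +
      algebraMap F E (c * Dt.w) • X.1.1 := by
  show (grpE3_u Dt X).1 * g₀.1 * k.1.1 * adj B ((grpE3_u Dt X).1 * g₀.1 * k.1.1) = _
  have hk : k.1.1 * k.1⁻¹.1 = 1 := k.1.mul_inv
  rw [adj_mul, adj_mul, uu_adj, grpE3_u_adj]
  calc (grpE3_u Dt X).1 * g₀.1 * k.1.1 * (k.1⁻¹.1 * (adj B g₀.1 * (grpE3_u Dt X).1))
      = (grpE3_u Dt X).1 * g₀.1 * (k.1.1 * k.1⁻¹.1) * adj B g₀.1 * (grpE3_u Dt X).1 := by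
        simp only [mul_assoc]
    _ = (grpE3_u Dt X).1 * (g₀.1 * adj B g₀.1) * (grpE3_u Dt X).1 := by
        rw [hk, mul_one]
        simp only [mul_assoc]
    _ = algebraMap F E c • ((grpE3_u Dt X).1 * (grpE3_u Dt X).1) := by
        rw [sim_adj hg, mul_smul_comm, mul_one, smul_mul_assoc]
    _ = _ := by
        rw [grpE3_u_sq, smul_add, smul_smul, map_mul]

private theorem grpE3_phi_mem (X : grpE3_Om B P₁) (k : UU B) :
    grpE3_u Dt X * g₀ * k.1 ∈ GP B (grpE3_P2 P₁ c Dt.w (Module.finrank E V)) := by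
  show LinearMap.charpoly (sg B (grpE3_u Dt X * g₀ * k.1)).1 = _
  rw [grpE3_sg, grpE3_char P₁ hg.1 Dt.w0]
  exact X.2

private theorem grpE3_cw : algebraMap F E (c * Dt.w) ≠ 0 := by
  rw [map_ne_zero]
  exact mul_ne_zero hg.1 Dt.w0

/-- the operator of an element of `G_P` -/
private def grpE3_X (g : GP B (grpE3_P2 P₁ c Dt.w (Module.finrank E V))) : grpE3_Om B P₁ := by
  have h0 := grpE3_cw Dt
  have hY : algebraMap F E c • (1 : Module.End E V) + algebraMap F E (c * Dt.w) •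
      ((algebraMap F E (c * Dt.w))⁻¹ • ((sg B g.1).1 - algebraMap F E c • (1 : Module.End E V))) =
      (sg B g.1).1 := by
    rw [smul_smul, mul_inv_cancel₀ h0, one_smul, add_sub_cancel]
  have hch : LinearMap.charpoly ((algebraMap F E (c * Dt.w))⁻¹ • ((sg B g.1).1 -
      algebraMap F E c • (1 : Module.End E V))) = P₁.map (algebraMap F E) := by
    rw [← grpE3_char P₁ hg.1 Dt.w0, hY]
    exact g.2
  refine ⟨⟨(algebraMap F E (c * Dt.w))⁻¹ • ((sg B g.1).1 -
    algebraMap F E c • (1 : Module.End E V)), ?_, ?_⟩, hch⟩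
  · intro v w
    show B.ip ((algebraMap F E (c * Dt.w))⁻¹ • ((sg B g.1).1 v - algebraMap F E c • v)) w =
      B.ip v ((algebraMap F E (c * Dt.w))⁻¹ • ((sg B g.1).1 w - algebraMap F E c • w))
    have h1 : B.ip ((sg B g.1).1 v) w = B.ip v ((sg B g.1).1 w) := (sg B g.1).2 v w
    rw [B.smul_left, B.smul_right, sub_eq_add_neg, sub_eq_add_neg, B.add_left, B.add_right,
      ← neg_smul, ← neg_smul, B.smul_left, B.smul_right, h1, ← map_inv₀, QExt.star_alg,
      ← map_neg, QExt.star_alg]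
  · rw [grpE3_trace, hch, ← Dt.hX₀, ← grpE3_trace]
    exact Dt.X₀.2.2

private theorem grpE3_X_val (g : GP B (grpE3_P2 P₁ c Dt.w (Module.finrank E V))) :
    (grpE3_X Dt g).1.1 = (algebraMap F E (c * Dt.w))⁻¹ • ((sg B g.1).1 -
      algebraMap F E c • (1 : Module.End E V)) := rfl

private theorem grpE3_X_cont : Continuous (grpE3_X Dt) := by
  refine Continuous.subtype_mk (Continuous.subtype_mk ?_ _) _
  have h1 : Continuous fun g : GP B (grpE3_P2 P₁ c Dt.w (Module.finrank E V)) =>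
      (sg B g.1).1 - algebraMap F E c • (1 : Module.End E V) :=
    (continuous_subtype_val.comp ((continuous_sg F B).comp continuous_subtype_val)).sub
      continuous_const
  refine continuous_induced_rng.mpr (continuous_pi fun v => ?_)
  exact ((continuous_end_apply v).comp h1).const_smul _

private theorem grpE3_X_sg (g : GP B (grpE3_P2 P₁ c Dt.w (Module.finrank E V))) :
    algebraMap F E c • (1 : Module.End E V) + algebraMap F E (c * Dt.w) • (grpE3_X Dt g).1.1 =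
      (sg B g.1).1 := by
  rw [grpE3_X_val, smul_smul, mul_inv_cancel₀ (grpE3_cw Dt), one_smul, add_sub_cancel]

private theorem grpE3_k_mem (g : GP B (grpE3_P2 P₁ c Dt.w (Module.finrank E V))) :
    g₀⁻¹ * (grpE3_u Dt (grpE3_X Dt g))⁻¹ * g.1 ∈ UU B := by
  apply grpE3_mem_UU
  set u := grpE3_u Dt (grpE3_X Dt g) with hu
  have hu1 : u⁻¹.1 * u.1 = 1 := u.inv_mul
  have hu2 : u.1 * u⁻¹.1 = 1 := u.mul_inv
  have hg1 : g₀⁻¹.1 * g₀.1 = 1 := g₀.inv_mul
  have hs : g.1.1 * adj B g.1.1 = u.1 * (g₀.1 * adj B g₀.1) * u.1 := by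
    have h1 : g.1.1 * adj B g.1.1 = (sg B g.1).1 := rfl
    rw [h1, ← grpE3_X_sg Dt g, sim_adj hg, mul_smul_comm, mul_one, smul_mul_assoc, hu, grpE3_u_sq,
      smul_add, smul_smul, map_mul]
  show g₀⁻¹.1 * u⁻¹.1 * g.1.1 * adj B (g₀⁻¹.1 * u⁻¹.1 * g.1.1) = 1
  rw [adj_mul, adj_mul, hu, grpE3_u_adj_inv, ← hu]
  calc g₀⁻¹.1 * u⁻¹.1 * g.1.1 * (adj B g.1.1 * (u⁻¹.1 * adj B g₀⁻¹.1))
      = g₀⁻¹.1 * u⁻¹.1 * (g.1.1 * adj B g.1.1) * u⁻¹.1 * adj B g₀⁻¹.1 := by
        simp only [mul_assoc]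
    _ = g₀⁻¹.1 * (u⁻¹.1 * u.1) * g₀.1 * adj B g₀.1 * (u.1 * u⁻¹.1) * adj B g₀⁻¹.1 := by
        rw [hs]
        simp only [mul_assoc]
    _ = adj B g₀.1 * adj B g₀⁻¹.1 := by
        rw [hu1, hu2, mul_one, mul_one, hg1, one_mul]
    _ = 1 := by rw [← adj_mul, hg1, adj_one]

/-- the homeomorphism `(k, X) ↦ t(X) g₀ k` -/
private def grpE3_phi : (UU B × grpE3_Om B P₁) ≃ₜ
    GP B (grpE3_P2 P₁ c Dt.w (Module.finrank E V)) where
  toFun x := ⟨grpE3_u Dt x.2 * g₀ * x.1.1, grpE3_phi_mem Dt x.2 x.1⟩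
  invFun g := (⟨g₀⁻¹ * (grpE3_u Dt (grpE3_X Dt g))⁻¹ * g.1, grpE3_k_mem Dt g⟩, grpE3_X Dt g)
  left_inv x := by
    have h1 : grpE3_X Dt ⟨grpE3_u Dt x.2 * g₀ * x.1.1, grpE3_phi_mem Dt x.2 x.1⟩ = x.2 := by
      apply Subtype.ext
      apply Subtype.ext
      rw [grpE3_X_val, grpE3_sg, add_sub_cancel_left, smul_smul, inv_mul_cancel₀ (grpE3_cw Dt),
        one_smul]
    refine Prod.ext ?_ h1
    apply Subtype.ext
    show g₀⁻¹ * (grpE3_u Dt (grpE3_X Dt ⟨grpE3_u Dt x.2 * g₀ * x.1.1,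
      grpE3_phi_mem Dt x.2 x.1⟩))⁻¹ * (grpE3_u Dt x.2 * g₀ * x.1.1) = x.1.1
    rw [h1]
    group
  right_inv g := by
    apply Subtype.ext
    show grpE3_u Dt (grpE3_X Dt g) * g₀ * (g₀⁻¹ * (grpE3_u Dt (grpE3_X Dt g))⁻¹ * g.1) = g.1
    group
  continuous_toFun := ((((grpE3_u_cont Dt).comp continuous_snd).mul continuous_const).mul
    (continuous_subtype_val.comp continuous_fst)).subtype_mk _
  continuous_invFun := ((((continuous_const.mul ((grpE3_u_cont Dt).comp
    (grpE3_X_cont Dt)).inv).mul continuous_subtype_val)).subtype_mk _).prodMk (grpE3_X_cont Dt)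

/-- conjugation by `h` on `Ω` -/
private theorem grpE3_cj_mem (P₁ : Polynomial F) (h : UU B) (X : SA0 B) :
    X ∈ grpE3_Om B P₁ ↔ (sa0Conj B h).h X ∈ grpE3_Om B P₁ := by
  show LinearMap.charpoly X.1 = _ ↔ LinearMap.charpoly (h.1.1 * X.1 * h.1⁻¹.1) = _
  rw [grpE3_charconj]

private theorem grpE3_sim_mem (hg : IsSim B c g₀) (P₁ : Polynomial F) (τ : AntiU B) (X : SA0 B) :
    X ∈ grpE3_Om B P₁ ↔ (sa0Sim hg τ).h X ∈ grpE3_Om B P₁ := by
  show LinearMap.charpoly X.1 = _ ↔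
    LinearMap.charpoly ((thG τ g₀).1 * conjτ τ X.1 * (thG τ g₀)⁻¹.1) = _
  rw [grpE3_charconj, charpoly_conjτ]
  constructor
  · intro h
    rw [h, grpE3_star]
  · intro h
    have h1 : (LinearMap.charpoly X.1).map (starRingEnd E) = LinearMap.charpoly X.1 := by
      have h2 := charpoly_adj B X.1
      rw [sa_adj B X.2.1] at h2
      exact h2.symm
    rw [← h1, h]

end Data

/-- the representation `r` -/
private def grpE3_r {B : SkewH E V} {p : PChar F} (W : WeilRep B p) : SRep (UU B) (SF V ℂ) where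
  β :=
    { toFun := fun h => W.r h
      map_one' := r_one W
      map_mul' := r_mul W }
  smooth := r_smooth W

section Main

variable {B : SkewH E V} {p : PChar F} (W : WeilRep B p) {c : F} {g₀ : GV E V}
  {hg : IsSim B c g₀} {P₁ : Polynomial F} (Dt : GrpE3Data hg P₁)

/-- `G ↦ (k ↦ (X ↦ r(k) G(t(X) g₀ k)))` before currying -/
private def grpE3_T : SF (GP B (grpE3_P2 P₁ c Dt.w (Module.finrank E V))) (SF V ℂ) →ₗ[ℂ]
    SF (UU B × grpE3_Om B P₁) (SF V ℂ) :=
  grpE3_twist (grpE3_r W) (fun x : UU B × grpE3_Om B P₁ => x.1) continuous_fst ∘ₗ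
    SF.comp (grpE3_phi Dt)

private theorem grpE3_T_surj : Function.Surjective (grpE3_T W Dt) := by
  have h1 : Function.Surjective (SF.comp (grpE3_phi Dt) :
      SF (GP B (grpE3_P2 P₁ c Dt.w (Module.finrank E V))) (SF V ℂ) →
        SF (UU B × grpE3_Om B P₁) (SF V ℂ)) := by
    intro f
    refine ⟨SF.comp (grpE3_phi Dt).symm f, ?_⟩
    apply SF.ext
    intro x
    show f ((grpE3_phi Dt).symm ((grpE3_phi Dt) x)) = f x
    rw [Homeomorph.symm_apply_apply]
  exact (grpE3_twist_surj (grpE3_r W) (fun x : UU B × grpE3_Om B P₁ => x.1)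
    continuous_fst).comp h1

variable [LocallyCompactSpace (UU B)] [TotallyDisconnectedSpace (UU B)]
  [LocallyCompactSpace (grpE3_Om B P₁)] [TotallyDisconnectedSpace (grpE3_Om B P₁)]

/-- `G ↦ (k ↦ (X ↦ r(k) G(t(X) g₀ k)))` -/
private def grpE3_Q : SF (GP B (grpE3_P2 P₁ c Dt.w (Module.finrank E V))) (SF V ℂ) →ₗ[ℂ]
    SF (UU B) (SF (grpE3_Om B P₁) (SF V ℂ)) := SF.curry ∘ₗ grpE3_T W Dt

private theorem grpE3_Q_surj : Function.Surjective (grpE3_Q W Dt) :=
  SF.curry_bijective.2.comp (grpE3_T_surj W Dt)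

private theorem grpE3_Q_apply (G : SF (GP B (grpE3_P2 P₁ c Dt.w (Module.finrank E V))) (SF V ℂ))
    (k : UU B) (X : grpE3_Om B P₁) :
    grpE3_Q W Dt G k X = W.r k (G (grpE3_phi Dt (k, X))) := rfl

private theorem grpE3_r_mul (a b : UU B) (v : SF V ℂ) : W.r a (W.r b v) = W.r (a * b) v := by
  rw [r_mul]
  rfl

private theorem grpE3_lr (a b : UU B) (v : SF V ℂ) : W.l a (W.r b v) = W.r b (W.l a v) :=
  congrArg (fun f : SF V ℂ →ₗ[ℂ] SF V ℂ => f v) (l_r_comm W a b)

/-- the action of `U(V) × U(V)` -/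
private theorem grpE3_Q_op (γ : UU B × UU B)
    (f : SF (GP B (grpE3_P2 P₁ c Dt.w (Module.finrank E V))) (SF V ℂ)) (k : UU B) :
    grpE3_Q W Dt ((gpC B _).op (wRep W) γ f) k =
      SF.opr (((sa0Conj B γ.1⁻¹).h).subtype (grpE3_cj_mem P₁ γ.1⁻¹))
        (W.l γ.1 ∘ₗ W.r (simC hg γ.1))
        (grpE3_Q W Dt f ((simC hg γ.1)⁻¹ * k * γ.2)) := by
  apply SF.ext
  intro X
  rw [grpE3_Q_apply, CAct.op_apply, SF.opr_apply, grpE3_Q_apply]
  have e1 : (gpC B (grpE3_P2 P₁ c Dt.w (Module.finrank E V))).act γ⁻¹ (grpE3_phi Dt (k, X)) =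
      grpE3_phi Dt ((simC hg γ.1)⁻¹ * k * γ.2,
        (((sa0Conj B γ.1⁻¹).h).subtype (grpE3_cj_mem P₁ γ.1⁻¹)) X) := by
    apply Subtype.ext
    show (γ⁻¹).1.1 * (grpE3_u Dt X * g₀ * k.1) * ((γ⁻¹).2.1)⁻¹ =
      grpE3_u Dt ((((sa0Conj B γ.1⁻¹).h).subtype (grpE3_cj_mem P₁ γ.1⁻¹)) X) * g₀ *
        ((g₀⁻¹ * γ.1.1 * g₀)⁻¹ * k.1 * γ.2.1)
    rw [grpE3_u_conj Dt (γ.1⁻¹).1 X
      ((((sa0Conj B γ.1⁻¹).h).subtype (grpE3_cj_mem P₁ γ.1⁻¹)) X) rfl]
    show (γ.1.1)⁻¹ * (grpE3_u Dt X * g₀ * k.1) * ((γ.2.1)⁻¹)⁻¹ =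
      (γ.1.1)⁻¹ * grpE3_u Dt X * ((γ.1.1)⁻¹)⁻¹ * g₀ * ((g₀⁻¹ * γ.1.1 * g₀)⁻¹ * k.1 * γ.2.1)
    group
  rw [e1]
  set v := f (grpE3_phi Dt ((simC hg γ.1)⁻¹ * k * γ.2,
        (((sa0Conj B γ.1⁻¹).h).subtype (grpE3_cj_mem P₁ γ.1⁻¹)) X)) with hv
  show W.r k (W.l γ.1 (W.r γ.2 v)) =
    W.l γ.1 (W.r (simC hg γ.1) (W.r ((simC hg γ.1)⁻¹ * k * γ.2) v))
  rw [← grpE3_lr, grpE3_r_mul, grpE3_r_mul]
  congr 2
  group

/-- the anti-involution -/
private theorem grpE3_Q_th (τ : AntiU B)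
    (f : SF (GP B (grpE3_P2 P₁ c Dt.w (Module.finrank E V))) (SF V ℂ)) (k : UU B) :
    grpE3_Q W Dt (SF.opr (gpTh τ _) (tneg F τ) f) k =
      SF.opr (((sa0Sim hg τ).h).subtype (grpE3_sim_mem hg P₁ τ))
        (tneg F τ ∘ₗ W.r (simK hg τ)⁻¹)
        (SF.opr (((sa0Conj B (tauU τ k)⁻¹).h).subtype (grpE3_cj_mem P₁ (tauU τ k)⁻¹))
          (W.l (tauU τ k) ∘ₗ W.r (simC hg (tauU τ k)))
          (grpE3_Q W Dt f ((simC hg (tauU τ k))⁻¹ * simK hg τ))) := by
  apply SF.ext
  intro X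
  rw [grpE3_Q_apply, SF.opr_apply, SF.opr_apply, SF.opr_apply, grpE3_Q_apply]
  set m := tauU τ k with hm
  set X' := (((sa0Sim hg τ).h).subtype (grpE3_sim_mem hg P₁ τ)) X with hX'
  have e1 : gpTh τ (grpE3_P2 P₁ c Dt.w (Module.finrank E V)) (grpE3_phi Dt (k, X)) =
      grpE3_phi Dt ((simC hg m)⁻¹ * simK hg τ,
        (((sa0Conj B m⁻¹).h).subtype (grpE3_cj_mem P₁ m⁻¹)) X') := by
    apply Subtype.ext
    show thG τ (grpE3_u Dt X * g₀ * k.1) =
      grpE3_u Dt ((((sa0Conj B m⁻¹).h).subtype (grpE3_cj_mem P₁ m⁻¹)) X') * g₀ *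
        ((g₀⁻¹ * m.1 * g₀)⁻¹ * (g₀⁻¹ * thG τ g₀))
    rw [thG_mul, thG_mul, thG_UU, ← hm, grpE3_u_conj Dt (m⁻¹).1 X'
      ((((sa0Conj B m⁻¹).h).subtype (grpE3_cj_mem P₁ m⁻¹)) X') rfl,
      grpE3_u_sim Dt τ (thG τ g₀) X X' rfl]
    show (m.1)⁻¹ * (thG τ g₀ * thG τ (grpE3_u Dt X)) =
      (m.1)⁻¹ * (thG τ g₀ * thG τ (grpE3_u Dt X) * (thG τ g₀)⁻¹) * ((m.1)⁻¹)⁻¹ * g₀ *
        ((g₀⁻¹ * m.1 * g₀)⁻¹ * (g₀⁻¹ * thG τ g₀))
    group
  rw [e1]
  set v := f (grpE3_phi Dt ((simC hg m)⁻¹ * simK hg τ,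
        (((sa0Conj B m⁻¹).h).subtype (grpE3_cj_mem P₁ m⁻¹)) X')) with hv
  show W.r k (tneg F τ v) = tneg F τ (W.r (simK hg τ)⁻¹
    (W.l m (W.r (simC hg m) (W.r ((simC hg m)⁻¹ * simK hg τ) v))))
  have e2 : W.r (simK hg τ)⁻¹
      (W.l m (W.r (simC hg m) (W.r ((simC hg m)⁻¹ * simK hg τ) v))) = W.l m v := by
    have e5 : (simK hg τ)⁻¹ * simC hg m * ((simC hg m)⁻¹ * simK hg τ) = 1 := by group
    rw [← grpE3_lr, grpE3_r_mul, grpE3_r_mul, e5, r_one]
    rfl
  rw [e2]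
  have e3 := congrArg (fun g : SF V ℂ →ₗ[ℂ] SF V ℂ => g v) (tneg_l W τ m)
  have e4 : tauU τ m = k := by rw [hm, tauU_tauU]
  rw [e4] at e3
  exact e3.symm

end Main

/-- `k ↦ g₀ k g₀⁻¹` -/
private def grpE3_ci {B : SkewH E V} {c : F} {g₀ : GV E V} (hg : IsSim B c g₀) (k : UU B) :
    UU B := ⟨g₀ * k.1 * g₀⁻¹, by
  obtain ⟨k', h1, -⟩ := simC_surj hg k
  rw [← h1]
  exact k'.2⟩

private theorem grpE3_ci_l {B : SkewH E V} {c : F} {g₀ : GV E V} (hg : IsSim B c g₀)
    (k : UU B) : grpE3_ci hg (simC hg k) = k := by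
  apply Subtype.ext
  show g₀ * (g₀⁻¹ * k.1 * g₀) * g₀⁻¹ = k.1
  group

private theorem grpE3_ci_r {B : SkewH E V} {c : F} {g₀ : GV E V} (hg : IsSim B c g₀)
    (k : UU B) : simC hg (grpE3_ci hg k) = k := by
  apply Subtype.ext
  show g₀⁻¹ * (g₀ * k.1 * g₀⁻¹) * g₀ = k.1
  group

private theorem grpE3_ci_cont {B : SkewH E V} {c : F} {g₀ : GV E V} (hg : IsSim B c g₀) :
    Continuous (grpE3_ci hg) :=
  ((continuous_const.mul continuous_subtype_val).mul continuous_const).subtype_mk _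

/-- the automorphism `k ↦ g₀⁻¹ (τ k τ) g₀` -/
private def grpE3_aut {B : SkewH E V} {c : F} {g₀ : GV E V} (hg : IsSim B c g₀) (τ : AntiU B) :
    UU B ≃ₜ UU B where
  toFun k := simC hg (tauU τ k)
  invFun k := tauU τ (grpE3_ci hg k)
  left_inv k := by
    show tauU τ (grpE3_ci hg (simC hg (tauU τ k))) = k
    rw [grpE3_ci_l, tauU_tauU]
  right_inv k := by
    show simC hg (tauU τ (tauU τ (grpE3_ci hg k))) = k
    rw [tauU_tauU, grpE3_ci_r]
  continuous_toFun := (continuous_simC hg).comp (continuous_tauU F τ)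
  continuous_invFun := (continuous_tauU F τ).comp (grpE3_ci_cont hg)

private theorem grpE3_poly (B : SkewH E V) (X : SA0 B) : ∃ P : Polynomial F, P.Monic ∧
    LinearMap.charpoly X.1 = P.map (algebraMap F E) := by
  obtain ⟨-, -, -, -, -, hfix⟩ := exists_eta F E
  have h0 : (LinearMap.charpoly X.1).map (starRingEnd E) = LinearMap.charpoly X.1 := by
    have h2 := charpoly_adj B X.1
    rw [sa_adj B X.2.1] at h2
    exact h2.symm
  have h1 : LinearMap.charpoly X.1 ∈ Polynomial.lifts (algebraMap F E) := by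
    rw [Polynomial.lifts_iff_coeff_lifts]
    intro n
    have h2 : star ((LinearMap.charpoly X.1).coeff n) = (LinearMap.charpoly X.1).coeff n := by
      have h3 := congrArg (fun p => Polynomial.coeff p n) h0
      simp only [Polynomial.coeff_map, starRingEnd_apply] at h3
      exact h3
    obtain ⟨f, hf⟩ := hfix _ h2
    exact ⟨f, hf.symm⟩
  obtain ⟨P, hP⟩ := (Polynomial.mem_lifts _).1 h1
  refine ⟨P, ?_, hP.symm⟩
  have h2 : (P.map (algebraMap F E)).Monic := by
    rw [hP]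
    exact LinearMap.charpoly_monic _
  exact Polynomial.monic_of_injective (algebraMap F E).injective h2

private theorem grpE3_num {d : ℝ} (h : 0 < d) (h2 : d ^ 2 = 1) : d = 1 := by
  nlinarith

/-- the properties of the polynomial `P''` -/
private theorem grpE3_polyP {B : SkewH E V} [hnF : NeZero ((Module.finrank E V : ℕ) : F)] (P₁ : Polynomial F) {c w : F} (hc : c ≠ 0)
    (hw : w ≠ 0) (X₀ : SA0 B) (hP₁ : LinearMap.charpoly X₀.1 = P₁.map (algebraMap F E))
    (hP' : P₁.map (algebraMap F E) ≠ Polynomial.X ^ Module.finrank E V) (a0 b0 : Polynomial F)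
    (hab : a0 * (1 + Polynomial.C w * Polynomial.X) + b0 * P₁ = 1) :
    (grpE3_P2 P₁ c w (Module.finrank E V)).Monic ∧
    (grpE3_P2 P₁ c w (Module.finrank E V)).natDegree = Module.finrank E V ∧
    (grpE3_P2 P₁ c w (Module.finrank E V)).coeff 0 ≠ 0 ∧
    ∀ c' : F, grpE3_P2 P₁ c w (Module.finrank E V) ≠
      (Polynomial.X - Polynomial.C c') ^ Module.finrank E V := by
  set n := Module.finrank E V with hn
  set P₂ := grpE3_P2 P₁ c w n with hP₂
  have hcw : c * w ≠ 0 := mul_ne_zero hc hw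
  haveI : Infinite F := inferInstance
  haveI : Infinite E := grpE3_infinite F E
  have hmap : P₂.map (algebraMap F E) = LinearMap.charpoly
      (algebraMap F E c • (1 : Module.End E V) + algebraMap F E (c * w) • X₀.1) :=
    ((grpE3_char P₁ hc hw X₀.1).2 hP₁).symm
  refine ⟨?_, ?_, ?_, ?_⟩
  · apply Polynomial.monic_of_injective (algebraMap F E).injective
    rw [hmap]
    exact LinearMap.charpoly_monic _
  · rw [← Polynomial.natDegree_map (algebraMap F E) (p := P₂), hmap,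
      LinearMap.charpoly_natDegree]
  · rw [Polynomial.coeff_zero_eq_eval_zero]
    have h1 := grpE3_P2_eval P₁ hc hw n (-w⁻¹)
    have h2 : c + c * w * (-w⁻¹) = 0 := by
      rw [mul_neg, mul_assoc, mul_inv_cancel₀ hw, mul_one, add_neg_cancel]
    rw [h2] at h1
    rw [h1]
    refine mul_ne_zero (pow_ne_zero _ hcw) ?_
    intro h3
    have h4 := congrArg (Polynomial.eval (-w⁻¹)) hab
    rw [Polynomial.eval_add, Polynomial.eval_mul, Polynomial.eval_mul, h3, Polynomial.eval_add,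
      Polynomial.eval_mul, Polynomial.eval_C, Polynomial.eval_X, Polynomial.eval_one,
      mul_neg, mul_inv_cancel₀ hw, add_neg_cancel, mul_zero, mul_zero, add_zero] at h4
    exact zero_ne_one h4
  · intro c' h
    apply hP'
    have h1 : P₁ = (Polynomial.X - Polynomial.C ((c * w)⁻¹ * (c' - c))) ^ n := by
      apply Polynomial.funext
      intro z
      have h2 := grpE3_P2_eval P₁ hc hw n z
      rw [← hP₂, h, Polynomial.eval_pow, Polynomial.eval_sub, Polynomial.eval_X,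
        Polynomial.eval_C] at h2
      rw [Polynomial.eval_pow, Polynomial.eval_sub, Polynomial.eval_X, Polynomial.eval_C]
      apply mul_left_cancel₀ (pow_ne_zero n hcw)
      rw [← h2, ← mul_pow]
      congr 1
      rw [mul_sub, mul_inv_cancel_left₀ hcw]
      ring
    have h2 : (LinearMap.charpoly X₀.1).nextCoeff = 0 := by
      have h3 := grpE3_trace X₀.1
      rw [X₀.2.2] at h3
      exact neg_eq_zero.1 h3.symm
    rw [hP₁, h1, Polynomial.map_pow, Polynomial.map_sub, Polynomial.map_X, Polynomial.map_C,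
      Polynomial.Monic.nextCoeff_pow (Polynomial.monic_X_sub_C _), Polynomial.nextCoeff_X_sub_C,
      smul_neg, neg_eq_zero] at h2
    rw [h1]
    have h3 : ((n : ℕ) : E) ≠ 0 := by
      rw [← map_natCast (algebraMap F E), Ne, map_eq_zero]
      exact hnF.ne
    have h4 : algebraMap F E ((c * w)⁻¹ * (c' - c)) = 0 := by
      rw [nsmul_eq_mul] at h2
      exact (mul_eq_zero.1 h2).resolve_left h3
    have h5 : (c * w)⁻¹ * (c' - c) = 0 := (map_eq_zero (algebraMap F E)).1 h4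
    rw [h5, map_zero, sub_zero, Polynomial.map_pow, Polynomial.map_X]

/-- antisymmetry up to a positive factor -/
private theorem grpE3_anti {B : SkewH E V} {p : PChar F} (W : WeilRep B p) (τ : AntiU B)
    {P₂ : Polynomial F} (hPG : PGood W P₂) (D' : SF (GP B P₂) (SF V ℂ) →ₗ[ℂ] ℂ)
    (hD'inv : ∀ (γ : UU B × UU B) (f : SF (GP B P₂) (SF V ℂ)),
      D' ((gpC B P₂).op (wRep W) γ f) = D' f) (d : ℝ) (hd : 0 < d)
    (hD'th : ∀ f : SF (GP B P₂) (SF V ℂ),
      D' (SF.opr (gpTh τ P₂) (tneg F τ) f) = -(d : ℂ) * D' f) : D' = 0 := by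
  by_contra hne0
  obtain ⟨f, hf⟩ : ∃ f, D' f ≠ 0 := by
    by_contra hcon
    push Not at hcon
    exact hne0 (LinearMap.ext hcon)
  have h1 : SF.opr (gpTh τ P₂) (tneg F τ) (SF.opr (gpTh τ P₂) (tneg F τ) f) = f := by
    apply SF.ext
    intro g
    show tneg F τ (tneg F τ (f (gpTh τ P₂ (gpTh τ P₂ g)))) = f g
    rw [tneg_tneg]
    exact congrArg f.1 ((gpTh τ P₂).left_inv g)
  have h2 := hD'th (SF.opr (gpTh τ P₂) (tneg F τ) f)
  rw [h1, hD'th] at h2
  have h3 : (d : ℂ) ^ 2 = 1 := by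
    have h4 : ((d : ℂ) ^ 2 - 1) * D' f = 0 := by linear_combination -h2
    exact sub_eq_zero.1 ((mul_eq_zero.1 h4).resolve_right hf)
  have h5 : d = 1 := grpE3_num hd (by exact_mod_cast h3)
  refine hne0 (hPG τ D' ⟨hD'inv, fun f => ?_⟩)
  rw [hD'th f, h5, Complex.ofReal_one, neg_one_mul]

/-- vanishing of the integral implies vanishing -/
private theorem grpE3_concl {Γ M N : Type*} [Group Γ] [TopologicalSpace Γ] [T2Space Γ]
    [LocallyCompactSpace Γ] [TotallyDisconnectedSpace Γ] [AddCommGroup M] [Module ℂ M]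
    [AddCommGroup N] [Module ℂ N] (I : SF Γ ℂ →ₗ[ℂ] ℂ) (DO : M →ₗ[ℂ] ℂ)
    (hI : ∀ (K : Set Γ) (hK : IsCompact K) (hK' : IsOpen K), K.Nonempty →
      I (SF.single K hK hK' 1) ≠ 0) (Q : N →ₗ[ℂ] SF Γ M) (hQ : Function.Surjective Q)
    (h0 : I ∘ₗ SF.map DO ∘ₗ Q = 0) : DO = 0 := by
  refine LinearMap.ext fun f => ?_
  obtain ⟨K, hK, hK', h1K, -⟩ := exists_compact_open (1 : Γ) Set.univ isOpen_univ
    (Set.mem_univ _)
  obtain ⟨G, hG⟩ := hQ (SF.single K hK hK' f)
  have h1 : I (SF.map DO (Q G)) = 0 := congrArg (fun g : N →ₗ[ℂ] ℂ => g G) h0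
  have h3 : SF.map DO (SF.single K hK hK' f) = DO f • SF.single K hK hK' (1 : ℂ) := by
    apply SF.ext
    intro k
    show DO (SF.single K hK hK' f k) = DO f * SF.single K hK hK' (1 : ℂ) k
    by_cases hk : k ∈ K
    · rw [SF.single_apply_mem _ _ _ _ _ hk, SF.single_apply_mem _ _ _ _ _ hk, mul_one]
    · rw [SF.single_apply_not_mem _ _ _ _ _ hk, SF.single_apply_not_mem _ _ _ _ _ hk,
        map_zero, mul_zero]
  rw [hG, h3, map_smul, smul_eq_mul] at h1
  exact (mul_eq_zero.1 h1).resolve_right (hI K hK hK' ⟨1, h1K⟩)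

/-- the main step -/
private theorem grpE3_main {B : SkewH E V} [NeZero ((Module.finrank E V : ℕ) : F)] {p : PChar F} (W : WeilRep B p) {c : F} {g₀ : GV E V}
    {hg : IsSim B c g₀} (τ : AntiU B) {P₁ : Polynomial F} (Dt : GrpE3Data hg P₁)
    (hPG : PGood W (grpE3_P2 P₁ c Dt.w (Module.finrank E V)))
    (D : SF (SA0 B) (SF V ℂ) →ₗ[ℂ] ℂ) (hD : EInv W hg τ D)
    (hs : SF.SuppOn D {X : SA0 B | LinearMap.charpoly X.1 = P₁.map (algebraMap F E)}) :
    D = 0 := by
  classical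
  set P₂ := grpE3_P2 P₁ c Dt.w (Module.finrank E V) with hP₂
  -- topology
  have hOc := grpE3_Om_closed B P₁
  haveI := lc_SA0 F B
  haveI := td_SA0 F B
  haveI : LocallyCompactSpace (UU B) := lc_UU F B
  haveI : TotallyDisconnectedSpace (UU B) := td_UU F B
  haveI : LocallyCompactSpace (grpE3_Om B P₁) :=
    hOc.isClosedEmbedding_subtypeVal.locallyCompactSpace
  haveI : TotallyDisconnectedSpace (grpE3_Om B P₁) := inferInstance
  obtain ⟨DO, hDO⟩ := supp_on_factor (grpE3_Om B P₁) hOc D (fun f hf => hs f fun X hX =>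
    hf X hX)
  have hDOinv : ∀ (h : UU B) (f : SF (grpE3_Om B P₁) (SF V ℂ)),
      DO (SF.opr (((sa0Conj B h⁻¹).h).subtype (grpE3_cj_mem P₁ h⁻¹))
        (W.l h ∘ₗ W.r (simC hg h)) f) = DO f := by
    intro h f
    have h1 := grpE3_transport (grpE3_Om B P₁) hOc D DO hDO (sa0Conj B h⁻¹).h
      (grpE3_cj_mem P₁ h⁻¹) (W.l h ∘ₗ W.r (simC hg h)) 1
      (fun f => by rw [one_mul]; exact hD.inv h f) f
    rw [one_mul] at h1
    exact h1
  have hDOanti : ∀ f : SF (grpE3_Om B P₁) (SF V ℂ),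
      DO (SF.opr (((sa0Sim hg τ).h).subtype (grpE3_sim_mem hg P₁ τ))
        (tneg F τ ∘ₗ W.r (simK hg τ)⁻¹) f) = -DO f := by
    intro f
    have h1 := grpE3_transport (grpE3_Om B P₁) hOc D DO hDO (sa0Sim hg τ).h
      (grpE3_sim_mem hg P₁ τ) (tneg F τ ∘ₗ W.r (simK hg τ)⁻¹) (-1)
      (fun f => by rw [neg_one_mul]; exact hD.anti f) f
    rw [neg_one_mul] at h1
    exact h1
  obtain ⟨I, hI1, hI2, hI3, ⟨d1, hd1, hI4⟩, hI5⟩ := exists_haarU F B
  obtain ⟨d2, hd2', hI6⟩ := hI5 (grpE3_aut hg τ) (fun a b => by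
    show simC hg (tauU τ (a * b)) = simC hg (tauU τ a) * simC hg (tauU τ b)
    rw [tauU_mul, map_mul])
  let D' : SF (GP B P₂) (SF V ℂ) →ₗ[ℂ] ℂ := I ∘ₗ SF.map DO ∘ₗ grpE3_Q W Dt
  have hD'inv : ∀ (γ : UU B × UU B) (f : SF (GP B P₂) (SF V ℂ)),
      D' ((gpC B P₂).op (wRep W) γ f) = D' f := by
    intro γ f
    show I (SF.map DO (grpE3_Q W Dt ((gpC B P₂).op (wRep W) γ f))) =
      I (SF.map DO (grpE3_Q W Dt f))
    have h1 : SF.map DO (grpE3_Q W Dt ((gpC B P₂).op (wRep W) γ f)) =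
        SF.comp (Homeomorph.mulLeft (simC hg γ.1)⁻¹) (SF.comp (Homeomorph.mulRight γ.2)
          (SF.map DO (grpE3_Q W Dt f))) := by
      apply SF.ext
      intro k
      show DO (grpE3_Q W Dt ((gpC B P₂).op (wRep W) γ f) k) =
        DO (grpE3_Q W Dt f ((simC hg γ.1)⁻¹ * k * γ.2))
      exact (congrArg DO (grpE3_Q_op W Dt γ f k)).trans (hDOinv γ.1 _)
    rw [h1, hI1, hI2]
  have hD'th : ∀ f : SF (GP B P₂) (SF V ℂ),
      D' (SF.opr (gpTh τ P₂) (tneg F τ) f) = -((d2 * d1 : ℝ) : ℂ) * D' f := by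
    intro f
    show I (SF.map DO (grpE3_Q W Dt (SF.opr (gpTh τ P₂) (tneg F τ) f))) =
      -((d2 * d1 : ℝ) : ℂ) * I (SF.map DO (grpE3_Q W Dt f))
    have h1 : SF.map DO (grpE3_Q W Dt (SF.opr (gpTh τ P₂) (tneg F τ) f)) =
        -SF.comp (grpE3_aut hg τ) (SF.comp (Homeomorph.inv (UU B))
          (SF.comp (Homeomorph.mulRight (simK hg τ)) (SF.map DO (grpE3_Q W Dt f)))) := by
      apply SF.ext
      intro k
      show DO (grpE3_Q W Dt (SF.opr (gpTh τ P₂) (tneg F τ) f) k) =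
        -DO (grpE3_Q W Dt f ((simC hg (tauU τ k))⁻¹ * simK hg τ))
      exact (congrArg DO (grpE3_Q_th W Dt τ f k)).trans ((hDOanti _).trans
        (congrArg Neg.neg (hDOinv (tauU τ k) _)))
    rw [h1, map_neg, hI6, hI4, hI2]
    push_cast
    ring
  have hD'0 : D' = 0 := grpE3_anti W τ hPG D' hD'inv (d2 * d1) (mul_pos hd2' hd1) hD'th
  -- conclusion
  have hDO0 : DO = 0 := by
    refine grpE3_concl (Γ := UU B) (M := SF (grpE3_Om B P₁) (SF V ℂ))
      (N := SF (GP B (grpE3_P2 P₁ c Dt.w (Module.finrank E V))) (SF V ℂ)) I DO ?_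
      (grpE3_Q W Dt) (grpE3_Q_surj W Dt) hD'0
    intro K hK hK' hne
    obtain ⟨r, hr, h1⟩ := hI3 K hK hK' hne
    rw [h1]
    exact_mod_cast hr.ne'
  refine LinearMap.ext fun f => ?_
  rw [hDO, hDO0]
  rfl

theorem grpE3 {B : SkewH E V} [NeZero ((Module.finrank E V : ℕ) : F)] {p : PChar F} (W : WeilRep B p) {c : F} {g₀ : GV E V}
    (hg : IsSim B c g₀) (τ : AntiU B)
    (hgood : ∀ P : Polynomial F, P.Monic → P.natDegree = Module.finrank E V → P.coeff 0 ≠ 0 →
      (∀ c' : F, P ≠ (Polynomial.X - Polynomial.C c') ^ Module.finrank E V) → PGood W P)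
    (P' : Polynomial E) (hP' : P' ≠ Polynomial.X ^ Module.finrank E V)
    (D : SF (SA0 B) (SF V ℂ) →ₗ[ℂ] ℂ) (hD : EInv W hg τ D)
    (hs : SF.SuppOn D {X : SA0 B | LinearMap.charpoly X.1 = P'}) : D = 0 := by
  by_cases hne : ∃ X₀ : SA0 B, LinearMap.charpoly X₀.1 = P'
  swap
  · refine LinearMap.ext fun f => ?_
    exact hs f fun X hX => absurd ⟨X, hX⟩ hne
  obtain ⟨X₀, hX₀⟩ := hne
  obtain ⟨P₁, hP₁m, hP₁⟩ := grpE3_poly (F := F) B X₀
  obtain ⟨w, t, hw, ht, a0, b0, hab⟩ := exists_t P₁ hP₁m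
  have ha : P₁ ∣ t * (t * a0) - 1 := by
    have h1 : t * (t * a0) - 1 =
        (t ^ 2 - (1 + Polynomial.C w * Polynomial.X)) * a0 - P₁ * b0 := by
      linear_combination hab
    rw [h1]
    exact dvd_sub (Dvd.dvd.mul_right ht _) (dvd_mul_right _ _)
  obtain ⟨h1, h2, h3, h4⟩ := grpE3_polyP P₁ hg.1 hw X₀ hP₁ (by rw [← hP₁, hX₀]; exact hP') a0 b0
    hab
  refine grpE3_main W τ (⟨w, t, t * a0, hw, ht, ha, X₀, hP₁⟩ : GrpE3Data hg P₁)
    (hgood _ h1 h2 h3 h4) D hD ?_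
  rw [← hP₁, hX₀]
  exact hs

end

end Pool.Agent.Work.MP_dd0ddf_al.OC
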