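import Pool.Agent.Work.MP_dd0ddf_al.OC.SimA
import Pool.Agent.Work.MP_dd0ddf_al.OC.HmodIsom
import Pool.Agent.Work.MP_dd0ddf_al.OC.GrpB1

/-!
# MP_dd0ddf_al (characteristic dividing the dimension), module GrpP2: Fourier transform and translations

`fourA_EInvA`: four1_isom with trA_conj, trA_sim.
`grpP2`: if S is supported on `{charpoly X = P}` and `S ∘ fourA` on `{tr X = 0}` then S = 0: the character `X ↦ ψ(b(X, λ 1)) = ψ(Tr (λ tr X))` is 1 on `{tr X = 0}`, so `S` is invariant under the translations by `λ 1`;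
for `f` with compact support and `|λ|` large `f(X + λ 1) = 0` for all X with characteristic polynomial P, since `charpoly (X + λ)` has constant term `P(-λ)`, unbounded.
-/

set_option linter.unusedSectionVars false
set_option linter.style.haveILetI false

namespace Pool.Agent.Work.MP_dd0ddf_al.OC

noncomputable section

universe u

variable {F E : Type u} [NontriviallyNormedField F] [IsUltrametricDist F] [ProperSpace F]
  [NeZero (2 : F)] [NontriviallyNormedField E] [NormedAlgebra F E] [ProperSpace E] [StarRing E]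
  [QExt F E] [MeasurableSpace E] [BorelSpace E]
variable {V : Type u} [AddCommGroup V] [Module E V] [Module.Finite E V] [TopologicalSpace V]
  [IsTopologicalAddGroup V] [T2Space V] [ContinuousSMul E V]

theorem fourA_EInvA {B : SkewH E V} {p : PChar F} (W : WeilRep B p) {c : F} {g : GV E V}
    (hg : IsSim B c g) (τ : AntiU B) (S : SF (SA B) (SF V ℂ) →ₗ[ℂ] ℂ) (hS : EInvA W hg τ S) :
    EInvA W hg τ (S ∘ₗ fourA B p) := by
  haveI := lc_SA F B
  haveI := td_SA F B
  constructor
  · intro h f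
    show S (four1 ((trA F B).bi p) (SF.opr (saConjT B h⁻¹).h (W.l h ∘ₗ W.r (simC hg h)) f)) =
      S (four1 ((trA F B).bi p) f)
    rw [four1_isom (trA F B) p (saConjT B h⁻¹) (trA_conj B h⁻¹)]
    exact hS.inv h _
  · intro f
    show S (four1 ((trA F B).bi p) (SF.opr (saSimT hg τ).h (tneg F τ ∘ₗ W.r (simK hg τ)⁻¹) f)) =
      - S (four1 ((trA F B).bi p) f)
    rw [four1_isom (trA F B) p (saSimT hg τ) (trA_sim hg τ)]
    exact hS.anti _

variable (F) in
/-- the identity as a self-adjoint operator -/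
private def grpp2_one (B : SkewH E V) : SA B := ⟨1, sa0_one_mem F B⟩

private theorem grpp2_psi0 (p : PChar F) : p.ψ 0 = 1 := by
  have h1 := p.add 0 0
  rw [add_zero] at h1
  have h2 : p.ψ 0 ≠ 0 := by
    intro h
    have := p.norm_one 0
    rw [h, norm_zero] at this
    exact zero_ne_one this
  exact (mul_left_cancel₀ h2 (by rw [mul_one]; exact h1)).symm

private theorem grpp2_supp {X M : Type*} [TopologicalSpace X] [AddCommGroup M] [Module ℂ M]
    (L : SF X M →ₗ[ℂ] ℂ) (Z : Set X) (h : SF.SuppOn L Z) (f g : SF X M)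
    (hfg : ∀ z ∈ Z, f z = g z) : L f = L g := by
  rw [← sub_eq_zero, ← map_sub]
  apply h
  intro z hz
  show f z - g z = 0
  rw [hfg z hz, sub_self]

private theorem grpp2_trans {B : SkewH E V} (p : PChar F) (S : SF (SA B) (SF V ℂ) →ₗ[ℂ] ℂ)
    (h2 : SF.SuppOn (S ∘ₗ fourA B p) {X : SA B | LinearMap.trace E V X.1 = 0}) (a : F)
    (f : SF (SA B) (SF V ℂ)) :
    S (SF.comp (Homeomorph.addRight (a • grpp2_one F B)) f) = S f := by
  haveI := lc_SA F B
  haveI := td_SA F B
  set χ : BiChar (SA B) := (trA F B).bi p with hχ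
  set b : SA B := a • grpp2_one F B with hb
  have hC : (fourC χ (uc_U F (SA B)) : ℂ) ≠ 0 := by
    exact_mod_cast (fourC_pos χ (uc_U F (SA B))).ne'
  obtain ⟨g, hg⟩ : ∃ g : SF (SA B) (SF V ℂ), four1 χ g = f := by
    refine ⟨(fourC χ (uc_U F (SA B)) : ℂ)⁻¹ • four1 χ.dual f, ?_⟩
    rw [map_smul, four_inv' χ (uc_U F (SA B)), smul_smul, inv_mul_cancel₀ hC, one_smul]
  have h3 : SF.comp (Homeomorph.addRight b) f =
      four1 χ (SF.mulc (fun v => χ.χ v b) (χ.lcl b) g) := by
    apply SF.ext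
    intro w
    rw [four1_mod, hg]
    rfl
  have h4 : (S ∘ₗ fourA B p) (SF.mulc (fun v => χ.χ v b) (χ.lcl b) g) = (S ∘ₗ fourA B p) g := by
    refine grpp2_supp (S ∘ₗ fourA B p) _ h2 _ _ ?_
    intro X hX
    have hX' : LinearMap.trace E V X.1 = 0 := hX
    show χ.χ X b • g X = g X
    have h5 : χ.χ X b = 1 := by
      rw [hχ, SForm.bi_apply]
      have h6 : (trA F B).b X b = 0 := by
        rw [hb, SForm.smul_right]
        have h7 : (trA F B).b X (grpp2_one F B) = 0 := by
          show Algebra.trace F E (LinearMap.trace E V (X.1 * 1)) = 0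
          rw [mul_one, hX', map_zero]
        rw [h7, mul_zero]
      rw [h6, grpp2_psi0]
    rw [h5, one_smul]
  have h5 : S (four1 χ (SF.mulc (fun v => χ.χ v b) (χ.lcl b) g)) = S (four1 χ g) := h4
  rw [h3, h5, hg]

theorem grpP2 {B : SkewH E V} (p : PChar F) (P : Polynomial F) (hd : 0 < P.natDegree)
    (S : SF (SA B) (SF V ℂ) →ₗ[ℂ] ℂ) (h1 : SF.SuppOn S (SAP B P))
    (h2 : SF.SuppOn (S ∘ₗ fourA B p) {X : SA B | LinearMap.trace E V X.1 = 0}) : S = 0 := by
  apply LinearMap.ext
  intro f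
  -- a bound on the support
  have hc : Continuous (fun X : SA B => ‖(LinearMap.charpoly X.1).coeff 0‖) :=
    ((continuous_charcoef 0).comp continuous_subtype_val).norm
  obtain ⟨R, hR⟩ : ∃ R : ℝ, ∀ X : SA B, f X ≠ 0 → ‖(LinearMap.charpoly X.1).coeff 0‖ ≤ R := by
    have hK : IsCompact (tsupport f.1) := f.2.2
    obtain ⟨R, hR⟩ := (hK.image hc).bddAbove
    exact ⟨R, fun X hX => hR ⟨X, subset_tsupport _ hX, rfl⟩⟩
  -- a large scalar
  obtain ⟨x0, hx0⟩ := NormedField.exists_one_lt_norm F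
  have ht : Filter.Tendsto (fun n : ℕ => ‖P.eval (x0 ^ n)‖) Filter.atTop Filter.atTop := by
    apply Polynomial.tendsto_norm_atTop P (Polynomial.natDegree_pos_iff_degree_pos.1 hd)
    simp only [norm_pow]
    exact tendsto_pow_atTop_atTop_of_one_lt hx0
  obtain ⟨n, hn⟩ := (ht.eventually (Filter.eventually_gt_atTop R)).exists
  rw [← grpp2_trans p S h2 (-(x0 ^ n)) f]
  apply h1
  intro X hX
  show f (X + (-(x0 ^ n)) • grpp2_one F B) = 0
  by_contra h0
  have h3 := hR _ h0
  have h4 : (X + (-(x0 ^ n)) • grpp2_one F B).1 =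
      X.1 - algebraMap F E (x0 ^ n) • (1 : Module.End E V) := by
    show X.1 + algebraMap F E (-(x0 ^ n)) • (1 : Module.End E V) = _
    rw [map_neg, neg_smul, sub_eq_add_neg]
  have hX' : LinearMap.charpoly X.1 = P.map (algebraMap F E) := hX
  rw [h4, LinearMap.charpoly_sub_smul, hX', Polynomial.coeff_zero_eq_eval_zero,
    Polynomial.eval_comp, Polynomial.eval_add, Polynomial.eval_X, Polynomial.eval_C, zero_add,
    Polynomial.eval_map_algebraMap, Polynomial.aeval_algebraMap_apply, norm_algebraMap',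
    Polynomial.coe_aeval_eq_eval] at h3
  exact absurd h3 (not_le.2 hn)

end

end Pool.Agent.Work.MP_dd0ddf_al.OC
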