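import Pool.Agent.Work.MP_dd0ddf_al.OC.GrpA
import Pool.Agent.Work.MP_dd0ddf_al.OC.GrpB2
import Pool.Agent.Work.MP_dd0ddf_al.OC.GrpC2
import Pool.Agent.Work.MP_dd0ddf_al.OC.GrpD2
import Pool.Agent.Work.MP_dd0ddf_al.OC.GrpE
import Pool.Agent.Work.MP_dd0ddf_al.OC.GrpP

/-!
# MP_dd0ddf_al, module GrpAll: the group level theorem: induction on the dimension

Induction on n: `GrpHyp n`.  Let `finrank E V ≤ n`; induction hypothesis `GrpHyp (finrank E V - 1)` (if finrank = 0 it is not needed: P = 1 has no bad factor; note `GrpHyp` is monotone).  `grp_of_pgood`.  Let `P` be monic of degree n, `P(0) ≠ 0`.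
If no bad `q` divides P: `grpB`.  Otherwise take a bad `q ∣ P` and write `P = q^m P'`, `q ∤ P'`, m ≥ 1, P' monic, coprime to q (q is irreducible over F because it is over E).  m odd: `grpA`.  m even, `P' ≠ 1`: `grpC`.  m even, `P' = 1`, deg q > 1: `grpD`.
m even, `P' = 1`, `q = q1(x^(l^k))` with `q1` separable of degree 1 (l the characteristic exponent): `grpE` if n is nonzero in F, `grpP` otherwise; `grpE` is the case `q = x - c` whose hypothesis `hgood` concerns the same V and polynomials not of the form (x - c')^n, for which the previous cases apply (if such a polynomial has a bad factor of even multiplicity with P' = 1 then deg q > 1).  So first prove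
`(∀ c', P ≠ (x - c')^n) → PGood W P`, then the general case.
-/

set_option linter.unusedSectionVars false
set_option linter.style.haveILetI false

namespace Pool.Agent.Work.MP_dd0ddf_al.OC

noncomputable section

universe u

variable {F E : Type u} [NontriviallyNormedField F] [IsUltrametricDist F] [ProperSpace F]
  [NeZero (2 : F)] [NontriviallyNormedField E] [NormedAlgebra F E] [ProperSpace E] [StarRing E]
  [QExt F E] [MeasurableSpace E] [BorelSpace E]
variable {V : Type u} [AddCommGroup V] [Module E V] [Module.Finite E V] [TopologicalSpace V]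
  [IsTopologicalAddGroup V] [T2Space V] [ContinuousSMul E V]

private theorem grpall_main {B : SkewH E V} {p : PChar F} (W : WeilRep B p) (ℓ : ℕ)
    [hexp : ExpChar F ℓ]
    (IH : 0 < Module.finrank E V → GrpHyp.{u} (Module.finrank E V - 1)) (P : Polynomial F)
    (hP : P.Monic) (hd : P.natDegree = Module.finrank E V) (h0 : P.coeff 0 ≠ 0)
    (hlast : ∀ (k m : ℕ) (c' : F), P = (Polynomial.X ^ ℓ ^ k - Polynomial.C c') ^ m →
      Bad F E (Polynomial.X ^ ℓ ^ k - Polynomial.C c') → 0 < m →
      0 < Module.finrank E V → Even (Module.finrank E V) → PGood W P) :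
    PGood W P := by
  by_cases hb : ∃ q : Polynomial F, Bad F E q ∧ q ∣ P
  swap
  · refine grpB W P hP h0 fun q hq hqP => hb ⟨q, hq, hqP⟩
  obtain ⟨q, hq, hqP⟩ := hb
  have hqi : Irreducible q := hq.1.irreducible_of_irreducible_map _ _ hq.2.1
  have hqd : 0 < q.natDegree := hqi.natDegree_pos
  have hP0 : P ≠ 0 := hP.ne_zero
  have hfin : FiniteMultiplicity q P :=
    Polynomial.finiteMultiplicity_of_degree_pos_of_monic (Polynomial.natDegree_pos_iff_degree_pos.1 hqd)
      hq.1 hP0
  obtain ⟨P', hPP, hnd⟩ := hfin.exists_eq_pow_mul_and_not_dvd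
  set m : ℕ := multiplicity q P with hm
  have hm0 : 0 < m := by
    rcases Nat.eq_zero_or_pos m with h | h
    · rw [h, pow_zero, one_mul] at hPP
      rw [hPP] at hqP
      exact absurd hqP hnd
    · exact h
  clear_value m
  have hqm : (q ^ m).Monic := hq.1.pow m
  have hP'm : P'.Monic := by
    refine hqm.of_mul_monic_left ?_
    rw [← hPP]
    exact hP
  have hdeg : P.natDegree = m * q.natDegree + P'.natDegree := by
    rw [hPP, hqm.natDegree_mul hP'm, hq.1.natDegree_pow]
  have hpos : 0 < Module.finrank E V := by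
    rw [← hd, hdeg]
    have := Nat.mul_pos hm0 hqd
    omega
  rcases Nat.even_or_odd m with hev | hodd
  swap
  · rw [hPP]
    exact grpA W q P' m hq hodd hnd
  rcases Nat.eq_zero_or_pos P'.natDegree with hP'0 | hP'pos
  swap
  · rw [hPP]
    refine grpC W q P' m hev hm0 hq.1 hq.2.2.1 hqd hP'm hP'pos
      ((hqi.coprime_iff_not_dvd.2 hnd).pow_left) ?_ (IH hpos)
    rw [← hPP, hd]
  have hP'1 : P' = 1 := hP'm.natDegree_eq_zero.1 hP'0
  rw [hP'1, mul_one] at hPP
  rw [hP'0, add_zero] at hdeg
  -- the separable contraction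
  obtain ⟨q1, hsep, k, hk⟩ := hqi.hasSeparableContraction ℓ
  have hℓ : 0 < ℓ ^ k := expChar_pow_pos F ℓ k
  have hq1m : q1.Monic := (Polynomial.monic_expand_iff hℓ).1 (by rw [hk]; exact hq.1)
  have hq1i : Irreducible (q1.map (algebraMap F E)) := by
    apply Polynomial.of_irreducible_expand (R := E) hℓ.ne'
    rw [← Polynomial.map_expand, hk]
    exact hq.2.1
  have hq1d : 0 < q1.natDegree := by
    have h1 := hq1i.natDegree_pos
    rwa [Polynomial.natDegree_map] at h1
  by_cases hq1 : q1.natDegree = 1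
  · have hqq : q = Polynomial.X ^ ℓ ^ k - Polynomial.C (-(q1.coeff 0)) := by
      rw [← hk]
      conv_lhs => rw [hq1m.eq_X_add_C hq1]
      rw [map_add, Polynomial.expand_X, Polynomial.expand_C, Polynomial.C_neg, sub_neg_eq_add]
    refine hlast k m (-(q1.coeff 0)) (by rw [hPP, ← hqq]) (by rw [← hqq]; exact hq) hm0 hpos ?_
    rw [← hd, hdeg]
    exact hev.mul_right _
  · rw [hPP]
    refine grpD W q q1 (Polynomial.X ^ ℓ ^ k) m hq1m hq1i hsep ?_ (by omega) hpos (IH hpos)
    rw [← Polynomial.expand_eq_comp_X_pow, hk]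

theorem grp_ne {B : SkewH E V} {p : PChar F} (W : WeilRep B p) (ℓ : ℕ) [ExpChar F ℓ]
    (IH : 0 < Module.finrank E V → GrpHyp.{u} (Module.finrank E V - 1)) (P : Polynomial F)
    (hP : P.Monic) (hd : P.natDegree = Module.finrank E V) (h0 : P.coeff 0 ≠ 0)
    (hne : ¬ SpecP ℓ P) : PGood W P :=
  grpall_main W ℓ IH P hP hd h0 fun k m c' h _ _ _ _ => absurd ⟨k, m, c', h⟩ hne

/-- if the dimension is nonzero in `F` then `ℓ^k = 1` for polynomials of degree `n` -/
private theorem grpall_one (ℓ : ℕ) [hexp : ExpChar F ℓ] (n k m : ℕ) (hn : ((n : ℕ) : F) ≠ 0)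
    (h : n = m * ℓ ^ k) : ℓ ^ k = 1 := by
  cases hexp with
  | zero => exact one_pow k
  | prime hp =>
    rcases Nat.eq_zero_or_pos k with h0 | h0
    · rw [h0, pow_zero]
    · exfalso
      apply hn
      have h1 : ((ℓ : ℕ) : F) = 0 := CharP.cast_eq_zero F ℓ
      rw [h, Nat.cast_mul, Nat.cast_pow, h1, zero_pow h0.ne', mul_zero]

theorem grp_all (n : ℕ) : GrpHyp.{u} n := by
  induction n using Nat.strong_induction_on with
  | _ n ihn =>
    intro F E _ _ _ _ _ _ _ _ _ _ _ V _ _ _ _ _ _ _ B p W hle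
    have IH : 0 < Module.finrank E V → GrpHyp.{u} (Module.finrank E V - 1) := fun hpos =>
      ihn _ (by omega)
    obtain ⟨ℓ, hexp⟩ := ExpChar.exists F
    refine grp_of_pgood W fun P hP hd h0 => ?_
    refine grpall_main W ℓ IH P hP hd h0 fun k m c' h hbad hm hpos hev => ?_
    have hℓ : 0 < ℓ ^ k := expChar_pow_pos F ℓ k
    have hnm : Module.finrank E V = m * ℓ ^ k := by
      rw [← hd, h, (Polynomial.monic_X_pow_sub_C _ hℓ.ne').natDegree_pow,
        Polynomial.natDegree_X_pow_sub_C]
    by_cases hnF : ((Module.finrank E V : ℕ) : F) = 0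
    · -- the characteristic divides the dimension
      rw [h]
      have hprime : ℓ.Prime ∧ CharP F ℓ := by
        cases hexp with
        | zero => exact absurd (Nat.cast_eq_zero.1 hnF) hpos.ne'
        | prime hp => exact ⟨hp, inferInstance⟩
      haveI : Fact ℓ.Prime := ⟨hprime.1⟩
      haveI := hprime.2
      refine grpP W ℓ k m c' hbad hev hpos ((CharP.cast_eq_zero_iff F ℓ _).1 hnF) hm
        fun P hP hd h0 hne => grp_ne W ℓ IH P hP hd h0 hne
    · haveI : NeZero ((Module.finrank E V : ℕ) : F) := ⟨hnF⟩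
      have h1 := grpall_one ℓ _ k m hnF hnm
      rw [h1, mul_one] at hnm
      rw [h1, pow_one, ← hnm] at h
      rw [h]
      refine grpE W c' ?_ hev fun P hP hd h0 hne => grp_ne W ℓ IH P hP hd h0 ?_
      · rintro rfl
        apply h0
        rw [h, map_zero, sub_zero, Polynomial.coeff_X_pow, if_neg (by omega)]
      · rintro ⟨k1, m1, c1, h2⟩
        have hℓ1 : 0 < ℓ ^ k1 := expChar_pow_pos F ℓ k1
        have h3 : Module.finrank E V = m1 * ℓ ^ k1 := by
          rw [← hd, h2, (Polynomial.monic_X_pow_sub_C _ hℓ1.ne').natDegree_pow,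
            Polynomial.natDegree_X_pow_sub_C]
        have h4 := grpall_one ℓ _ k1 m1 hnF h3
        rw [h4, mul_one] at h3
        apply hne c1
        rw [h2, h4, pow_one, h3]

end

end Pool.Agent.Work.MP_dd0ddf_al.OC
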