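import Pool.Agent.Work.MP_dd0ddf_al.OC.GDefs
import Pool.Agent.Work.MP_dd0ddf_al.OC.FdCount
import Pool.Agent.Work.MP_dd0ddf_al.OC.SFPull

/-!
# MP_dd0ddf_al, module GrpDesc: descent for functionals on GL(V) (general form, consumer of the descent theorem)

`T` is supported on the closed Γ-stable set `Y`: `T = T_Y ∘ restr` (supp_on_factor).  `DescData (UU B × UU B) Y O (SF V ℂ)` with the restricted action, `wRep W`, `π`; orbit map open by orbit_map_open.  `descent` gives a functional `S0` on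
`SF Fib (SF V ℂ)`; `Fib` is a closed subset of `GV E V`; `S := S0 ∘ pull`.  `(S = 0 → T = 0)` since pull is surjective.  The operator `fop γ` corresponds to `W.act γ.1 γ.2` (act_eq).
Symmetry: `DSym` with `sX g = θ(g) k⁻¹`, `sB = tneg ∘ r(k⁻¹)`, `sΓ (h1, h2) = (τ k⁻¹ h2 k τ, τ h1 τ)`:
compX: `sX(h1' g h2'⁻¹) = (τ h2' τ) [θ(g) k⁻¹] [k (τ h1' τ)⁻¹ k⁻¹]` (thG_mul, thG_UU) with `(h1', h2') = sΓ(h1, h2)`; compB: tneg_l, tneg_r, r_mul, l_r_comm.
`sX (sX g) = act (τkτ, k) g`, which gives the converse directions in `fib` and `stb` (using `hk`).  The composite operator is `Θ ∘ act 1 k⁻¹`, and `T (Θ (act 1 k⁻¹ G)) = - T G` for every τ (Theta_indep, invariance): ε = -1.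
`ginv_split`: T restricted to GP: `T'` (inGP_of_inG); for `g0` take `Y`; `T'' := T' ∘ ind Y` composed with restr to GP is GInv, GAnti, supported on Y, so 0: `T'` vanishes on the functions supported in Y; conclude by `vanish_local`.
-/

set_option linter.unusedSectionVars false
set_option linter.style.haveILetI false

namespace Pool.Agent.Work.MP_dd0ddf_al.OC

noncomputable section

universe u

variable {F E : Type u} [NontriviallyNormedField F] [IsUltrametricDist F] [ProperSpace F]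
  [NeZero (2 : F)] [NontriviallyNormedField E] [NormedAlgebra F E] [ProperSpace E] [StarRing E]
  [QExt F E] [MeasurableSpace E] [BorelSpace E]
variable {V : Type u} [AddCommGroup V] [Module E V] [Module.Finite E V] [TopologicalSpace V]
  [IsTopologicalAddGroup V] [T2Space V] [ContinuousSMul E V]

private theorem grpdesc_tone {B : SkewH E V} (τ : AntiU B) : tauU τ 1 = 1 := by
  apply Subtype.ext
  apply Units.ext
  exact conjτ_one τ

private theorem grpdesc_tinv {B : SkewH E V} (τ : AntiU B) (h : UU B) :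
    tauU τ h⁻¹ = (tauU τ h)⁻¹ := by
  refine eq_inv_of_mul_eq_one_left ?_
  rw [← tauU_mul, inv_mul_cancel, grpdesc_tone]

private theorem grpdesc_thinv {B : SkewH E V} (τ : AntiU B) (h : UU B) :
    thG τ (h.1⁻¹) = (tauU τ h).1 := by
  have h1 := thG_UU τ h⁻¹
  rw [grpdesc_tinv] at h1
  have h2 : (((tauU τ h)⁻¹ : UU B) : GV E V)⁻¹ = (tauU τ h).1 := by
    rw [Subgroup.coe_inv, inv_inv]
  rw [h2] at h1
  exact h1

/-- the automorphism of the group -/
private def grpdesc_G {B : SkewH E V} (τ : AntiU B) (k : UU B) :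
    (UU B × UU B) ≃* (UU B × UU B) where
  toFun γ := (tauU τ (k⁻¹ * γ.2 * k), tauU τ γ.1)
  invFun γ := (tauU τ γ.2, k * tauU τ γ.1 * k⁻¹)
  left_inv γ := by
    apply Prod.ext
    · exact tauU_tauU τ γ.1
    · show k * tauU τ (tauU τ (k⁻¹ * γ.2 * k)) * k⁻¹ = γ.2
      rw [tauU_tauU]
      group
  right_inv γ := by
    apply Prod.ext
    · show tauU τ (k⁻¹ * (k * tauU τ γ.1 * k⁻¹) * k) = γ.1
      have h1 : k⁻¹ * (k * tauU τ γ.1 * k⁻¹) * k = tauU τ γ.1 := by group
      rw [h1, tauU_tauU]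
    · exact tauU_tauU τ γ.2
  map_mul' γ γ' := by
    apply Prod.ext
    · show tauU τ (k⁻¹ * (γ.2 * γ'.2) * k) = tauU τ (k⁻¹ * γ.2 * k) * tauU τ (k⁻¹ * γ'.2 * k)
      rw [← tauU_mul]
      congr 1
      group
    · exact tauU_mul τ γ.1 γ'.1

variable (F) in
include F in
private theorem grpdesc_Gc {B : SkewH E V} (τ : AntiU B) (k : UU B) :
    Continuous (grpdesc_G τ k) :=
  ((continuous_tauU F τ).comp ((continuous_const.mul continuous_snd).mul
    continuous_const)).prodMk ((continuous_tauU F τ).comp continuous_fst)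

variable (F) in
include F in
private theorem grpdesc_Gc' {B : SkewH E V} (τ : AntiU B) (k : UU B) :
    Continuous (grpdesc_G τ k).symm :=
  ((continuous_tauU F τ).comp continuous_snd).prodMk ((continuous_const.mul
    ((continuous_tauU F τ).comp continuous_fst)).mul continuous_const)

private theorem grpdesc_comp {B : SkewH E V} (τ : AntiU B) (k : UU B) (γ : UU B × UU B)
    (g : GV E V) : (gC B).act (1, k) (thG τ ((gC B).act (grpdesc_G τ k γ) g)) =
      (gC B).act γ ((gC B).act (1, k) (thG τ g)) := by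
  show (1 : UU B).1 * thG τ ((tauU τ (k⁻¹ * γ.2 * k)).1 * g * (tauU τ γ.1).1⁻¹) * k.1⁻¹ =
    γ.1.1 * ((1 : UU B).1 * thG τ g * k.1⁻¹) * γ.2.1⁻¹
  rw [thG_mul, thG_mul, grpdesc_thinv, tauU_tauU, thG_UU, tauU_tauU]
  simp only [OneMemClass.coe_one, one_mul, Subgroup.coe_mul, Subgroup.coe_inv]
  group

private theorem grpdesc_sq {B : SkewH E V} (τ : AntiU B) (k : UU B) (g : GV E V) :
    (gC B).act (1, k) (thG τ ((gC B).act (1, k) (thG τ g))) =
      (gC B).act (tauU τ k, k) g := by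
  show (1 : UU B).1 * thG τ ((1 : UU B).1 * thG τ g * k.1⁻¹) * k.1⁻¹ =
    (tauU τ k).1 * g * k.1⁻¹
  rw [thG_mul, thG_mul, grpdesc_thinv, thG_thG, thG_UU, grpdesc_tone]
  simp only [OneMemClass.coe_one, one_mul, inv_one, mul_one]

private theorem grpdesc_B {B : SkewH E V} {p : PChar F} (W : WeilRep B p) (τ : AntiU B)
    (k : UU B) (γ : UU B × UU B) (b : SF V ℂ) :
    tneg F τ (W.l 1 (W.r k⁻¹ ((wRep W).β γ b))) =
      (wRep W).β (grpdesc_G τ k γ) (tneg F τ (W.l 1 (W.r k⁻¹ b))) := by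
  show tneg F τ (W.l 1 (W.r k⁻¹ (W.l γ.1 (W.r γ.2 b)))) =
    W.l (tauU τ (k⁻¹ * γ.2 * k)) (W.r (tauU τ γ.1) (tneg F τ (W.l 1 (W.r k⁻¹ b))))
  have hl : ∀ (h : UU B) (f : SF V ℂ), tneg F τ (W.l h f) = W.r (tauU τ h) (tneg F τ f) :=
    fun h f => congrArg (fun T : SF V ℂ →ₗ[ℂ] SF V ℂ => T f) (tneg_l W τ h)
  have hr : ∀ (h : UU B) (f : SF V ℂ), tneg F τ (W.r h f) = W.l (tauU τ h) (tneg F τ f) :=
    fun h f => congrArg (fun T : SF V ℂ →ₗ[ℂ] SF V ℂ => T f) (tneg_r W τ h)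
  have hc : ∀ (g h : UU B) (f : SF V ℂ), W.l g (W.r h f) = W.r h (W.l g f) :=
    fun g h f => congrArg (fun T : SF V ℂ →ₗ[ℂ] SF V ℂ => T f) (l_r_comm W g h)
  have h1 : ∀ f : SF V ℂ, W.l 1 f = f := fun f => by
    rw [map_one]
    rfl
  have hrm : ∀ (g h : UU B) (f : SF V ℂ), W.r g (W.r h f) = W.r (g * h) f := fun g h f =>
    (congrArg (fun T : SF V ℂ →ₗ[ℂ] SF V ℂ => T f) (r_mul W g h)).symm
  have hlm : ∀ (g h : UU B) (f : SF V ℂ), W.l g (W.l h f) = W.l (g * h) f := fun g h f => by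
    rw [map_mul]
    rfl
  rw [h1, h1, ← hc, hrm, hl, hr, hr, hc (tauU τ (k⁻¹ * γ.2 * k)), hlm, ← tauU_mul]
  congr 3
  group

theorem grp_desc {B : SkewH E V} {p : PChar F} (W : WeilRep B p) (Y : Set (GV E V))
    (hY : IsClosed Y) (hYi : ∀ γ g, g ∈ Y → (gC B).act γ g ∈ Y)
    {O : Type*} [TopologicalSpace O] [T2Space O] [LocallyCompactSpace O]
    (C : CAct (UU B × UU B) O) (π : Y → O) (hπ : Continuous π)
    (heq : ∀ γ (g : Y), π ⟨(gC B).act γ g.1, hYi γ g.1 g.2⟩ = C.act γ (π g)) (o : O)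
    (htr : ∀ y, ∃ γ, C.act γ o = y) (τ₀ : AntiU B) (T : SF (GV E V) (SF V ℂ) →ₗ[ℂ] ℂ)
    (hT : GInv W T) (hT' : GAnti F τ₀ T) (hsupp : SF.SuppOn T Y) :
    ∃ S : SF (GV E V) (SF V ℂ) →ₗ[ℂ] ℂ, (S = 0 → T = 0) ∧
      SF.SuppOn S {g | ∃ hg : g ∈ Y, π ⟨g, hg⟩ = o} ∧
      (∃ δ : PosChar (C.stab o), ∀ (γ : C.stab o) (G : SF (GV E V) (SF V ℂ)),
        S (W.act γ.1.1 γ.1.2 G) = δ.δ γ * S G) ∧
      ∀ (τ : AntiU B) (k : UU B), (tauU τ k, k) ∈ C.stab o →
        (∀ g ∈ Y, thG τ g ∈ Y) →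
        (∀ (g : GV E V) (hg : g ∈ Y) (hg' : (gC B).act (1, k) (thG τ g) ∈ Y),
          π ⟨g, hg⟩ = o → π ⟨_, hg'⟩ = o) →
        (∀ γ ∈ C.stab o, (tauU τ (k⁻¹ * γ.2 * k), tauU τ γ.1) ∈ C.stab o) →
        ∃ c : ℝ, 0 < c ∧ ∀ G : SF (GV E V) (SF V ℂ),
          S (Theta F τ (W.act 1 k⁻¹ G)) = -(c : ℂ) * S G := by
  haveI := td_GV F E V
  haveI := lc_UU F B
  haveI := td_UU F B
  haveI : LocallyCompactSpace Y := hY.isClosedEmbedding_subtypeVal.locallyCompactSpace
  obtain ⟨TY, hTY⟩ := supp_on_factor Y hY T hsupp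
  let D : DescData (UU B × UU B) Y O (SF V ℂ) :=
    { A := (gC B).sub Y hYi
      C := C
      R := wRep W
      π := π
      hπ := hπ
      eqv := heq
      o := o
      tr := htr
      opn := orbit_map_open C o htr }
  have hres : ∀ (γ : UU B × UU B) (G : SF (GV E V) (SF V ℂ)),
      D.A.op D.R γ (SF.restr Y hY G) = SF.restr Y hY (W.act γ.1 γ.2 G) := by
    intro γ G
    rw [act_eq]
    rfl
  have hinv : ∀ γ f, TY (D.A.op D.R γ f) = TY f := by
    intro γ f
    obtain ⟨G, rfl⟩ := restr_surjective Y hY f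
    rw [hres, ← hTY, ← hTY]
    exact hT γ.1 γ.2 G
  obtain ⟨S0, hS0, ⟨δ, hδ⟩, hsym⟩ := descent D TY hinv
  let j : D.Fib → GV E V := fun x => x.1.1
  have hj : Topology.IsClosedEmbedding j :=
    hY.isClosedEmbedding_subtypeVal.comp
      (isClosed_eq hπ continuous_const).isClosedEmbedding_subtypeVal
  refine ⟨S0 ∘ₗ SF.pull j hj, fun h0 => ?_, fun f hf => ?_, ⟨δ, fun γ G => ?_⟩, ?_⟩
  · have h1 : S0 = 0 := by
      refine LinearMap.ext fun f => ?_
      obtain ⟨G, rfl⟩ := SF.pull_surjective j hj f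
      exact congrArg (fun l : SF (GV E V) (SF V ℂ) →ₗ[ℂ] ℂ => l G) h0
    refine LinearMap.ext fun G => ?_
    rw [hTY, hS0 h1]
    rfl
  · have h1 : SF.pull j hj f = 0 := SF.ext fun z => hf z.1.1 ⟨z.1.2, z.2⟩
    show S0 _ = 0
    rw [h1, map_zero]
  · have h1 : SF.pull j hj (W.act γ.1.1 γ.1.2 G) = D.fop γ (SF.pull j hj G) := by
      rw [act_eq]
      rfl
    show S0 _ = δ.δ γ * S0 _
    rw [h1]
    exact hδ γ _
  · intro τ k hk hYt hfib hstb
    have hYk : ∀ g ∈ Y, (gC B).act (1, k) (thG τ g) ∈ Y := fun g hg => hYi _ _ (hYt g hg)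
    have hYk' : ∀ g ∈ Y, (gC B).act ((tauU τ k)⁻¹, 1) (thG τ g) ∈ Y :=
      fun g hg => hYi _ _ (hYt g hg)
    let sX : Y ≃ₜ Y :=
      { toFun := fun g => ⟨(gC B).act (1, k) (thG τ g.1), hYk g.1 g.2⟩
        invFun := fun g => ⟨(gC B).act ((tauU τ k)⁻¹, 1) (thG τ g.1), hYk' g.1 g.2⟩
        left_inv := fun g => by
          apply Subtype.ext
          show ((tauU τ k)⁻¹ : UU B).1 * thG τ ((1 : UU B).1 * thG τ g.1 * k.1⁻¹) *
            (1 : UU B).1⁻¹ = g.1
          rw [thG_mul, thG_mul, grpdesc_thinv, thG_thG, thG_UU, grpdesc_tone]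
          simp only [OneMemClass.coe_one, inv_one, mul_one, Subgroup.coe_inv]
          group
        right_inv := fun g => by
          apply Subtype.ext
          show (1 : UU B).1 * thG τ (((tauU τ k)⁻¹ : UU B).1 * thG τ g.1 * (1 : UU B).1⁻¹) *
            k.1⁻¹ = g.1
          rw [thG_mul, thG_mul, grpdesc_thinv, thG_thG, thG_UU, grpdesc_tone, grpdesc_tinv,
            tauU_tauU]
          simp only [OneMemClass.coe_one, one_mul, Subgroup.coe_inv]
          group
        continuous_toFun := (((gC B).cont.comp (continuous_const.prodMk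
          ((continuous_thG F τ).comp continuous_subtype_val)))).subtype_mk _
        continuous_invFun := (((gC B).cont.comp (continuous_const.prodMk
          ((continuous_thG F τ).comp continuous_subtype_val)))).subtype_mk _ }
    have hsq : ∀ x : Y, sX (sX x) = D.A.act (tauU τ k, k) x := fun x =>
      Subtype.ext (grpdesc_sq τ k x.1)
    have hki : ∀ y, C.act (tauU τ k, k) y = o → y = o := by
      intro y hy
      have h1 : C.act (tauU τ k, k)⁻¹ (C.act (tauU τ k, k) y) = y := C.inv_act _ _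
      rw [← h1, hy]
      exact (C.stab o).inv_mem hk
    let sy : D.DSym :=
      { sX := sX
        sB := tneg F τ ∘ₗ W.l 1 ∘ₗ W.r k⁻¹
        sΓ := grpdesc_G τ k
        cont := grpdesc_Gc F τ k
        cont' := grpdesc_Gc' F τ k
        compX := fun γ x => Subtype.ext (grpdesc_comp τ k γ x.1)
        compB := fun γ b => grpdesc_B W τ k γ b
        fib := fun x => by
          constructor
          · intro h1
            have h2 := hfib (sX x).1 (sX x).2 (hYk _ (sX x).2) h1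
            have h3 : π (sX (sX x)) = o := h2
            rw [hsq] at h3
            exact hki _ ((heq (tauU τ k, k) x).symm.trans h3)
          · intro h1
            exact hfib x.1 x.2 (hYk _ x.2) h1
        stb := fun γ => by
          constructor
          · exact fun h1 => hstb γ h1
          · intro h1
            have h2 : (tauU τ (k⁻¹ * (grpdesc_G τ k γ).2 * k), tauU τ (grpdesc_G τ k γ).1) ∈
              C.stab o := hstb _ h1
            have h3 : (tauU τ (k⁻¹ * (grpdesc_G τ k γ).2 * k), tauU τ (grpdesc_G τ k γ).1) =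
                (tauU τ k, k)⁻¹ * γ * (tauU τ k, k) := by
              apply Prod.ext
              · show tauU τ (k⁻¹ * tauU τ γ.1 * k) = (tauU τ k)⁻¹ * γ.1 * tauU τ k
                rw [tauU_mul, tauU_mul, tauU_tauU, grpdesc_tinv]
              · show tauU τ (tauU τ (k⁻¹ * γ.2 * k)) = k⁻¹ * γ.2 * k
                rw [tauU_tauU]
            rw [h3] at h2
            have h4 : γ = (tauU τ k, k) * ((tauU τ k, k)⁻¹ * γ * (tauU τ k, k)) *
                (tauU τ k, k)⁻¹ := by group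
            have h5 : (tauU τ k, k) * ((tauU τ k, k)⁻¹ * γ * (tauU τ k, k)) *
                (tauU τ k, k)⁻¹ ∈ C.stab o :=
              (C.stab o).mul_mem ((C.stab o).mul_mem hk h2) ((C.stab o).inv_mem hk)
            rw [h4]
            exact h5 }
    have hε : ∀ f, TY (SF.opr sy.sX sy.sB f) = (-1) * TY f := by
      intro f
      obtain ⟨G, rfl⟩ := restr_surjective Y hY f
      have h1 : SF.opr sy.sX sy.sB (SF.restr Y hY G) =
          SF.restr Y hY (Theta F τ (W.act 1 k⁻¹ G)) := by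
        apply SF.ext
        intro x
        show tneg F τ (W.l 1 (W.r k⁻¹ (G ((1 : UU B).1 * thG τ x.1 * k.1⁻¹)))) =
          tneg F τ (W.l 1 (W.r k⁻¹ (G ((1 : UU B).1⁻¹ * thG τ x.1 * (k⁻¹ : UU B).1))))
        rw [Subgroup.coe_inv, OneMemClass.coe_one, inv_one]
      rw [h1, ← hTY, ← hTY, Theta_indep W τ₀ τ T hT hT', hT]
      ring
    obtain ⟨c, hc, h2⟩ := hsym sy (-1) hε
    refine ⟨c, hc, fun G => ?_⟩
    have h1 : SF.opr sy.fibHomeo sy.sB (SF.pull j hj G) =
        SF.pull j hj (Theta F τ (W.act 1 k⁻¹ G)) := by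
      apply SF.ext
      intro x
      show tneg F τ (W.l 1 (W.r k⁻¹ (G ((1 : UU B).1 * thG τ x.1.1 * k.1⁻¹)))) =
        tneg F τ (W.l 1 (W.r k⁻¹ (G ((1 : UU B).1⁻¹ * thG τ x.1.1 * (k⁻¹ : UU B).1))))
      rw [Subgroup.coe_inv, OneMemClass.coe_one, inv_one]
    have h3 := h2 (SF.pull j hj G)
    rw [h1] at h3
    show S0 _ = -(c : ℂ) * S0 _
    rw [h3]
    ring

theorem inG_of_inGP {B : SkewH E V} {p : PChar F} (W : WeilRep B p) (τ : AntiU B)
    (P : Polynomial F) (T : SF (GP B P) (SF V ℂ) →ₗ[ℂ] ℂ) (hT : InGP W τ P T) :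
    GInv W (T ∘ₗ SF.restr (GP B P) (gp_closed B P)) ∧
    GAnti F τ (T ∘ₗ SF.restr (GP B P) (gp_closed B P)) ∧
    SF.SuppOn (T ∘ₗ SF.restr (GP B P) (gp_closed B P)) (GP B P) ∧
    (T ∘ₗ SF.restr (GP B P) (gp_closed B P) = 0 → T = 0) := by
  haveI := td_GV F E V
  refine ⟨fun h₁ h₂ G => ?_, fun G => ?_, fun f hf => ?_, fun h0 => ?_⟩
  · have h1 : SF.restr (GP B P) (gp_closed B P) (W.act h₁ h₂ G) =
        (gpC B P).op (wRep W) (h₁, h₂) (SF.restr (GP B P) (gp_closed B P) G) := by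
      rw [act_eq]
      rfl
    show T _ = T _
    rw [h1]
    exact hT.inv (h₁, h₂) _
  · have h1 : SF.restr (GP B P) (gp_closed B P) (Theta F τ G) =
        SF.opr (gpTh τ P) (tneg F τ) (SF.restr (GP B P) (gp_closed B P) G) := rfl
    show T _ = - T _
    rw [h1]
    exact hT.anti _
  · have h1 : SF.restr (GP B P) (gp_closed B P) f = 0 := SF.ext fun z => hf z.1 z.2
    show T _ = 0
    rw [h1, map_zero]
  · refine LinearMap.ext fun f => ?_
    obtain ⟨G, rfl⟩ := restr_surjective (GP B P) (gp_closed B P) f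
    exact congrArg (fun l : SF (GV E V) (SF V ℂ) →ₗ[ℂ] ℂ => l G) h0

theorem ginv_split {B : SkewH E V} {p : PChar F} (W : WeilRep B p) (P : Polynomial F)
    (h : ∀ g₀ ∈ GP B P, ∃ Y : Set (GV E V), g₀ ∈ Y ∧ Y ⊆ GP B P ∧
      IsClosed Y ∧ IsOpen ((fun g : GP B P => g.1) ⁻¹' Y) ∧
      (∀ γ g, g ∈ Y → (gC B).act γ g ∈ Y) ∧ (∀ (τ : AntiU B), ∀ g ∈ Y, thG τ g ∈ Y) ∧
      ∀ (τ : AntiU B) (T : SF (GV E V) (SF V ℂ) →ₗ[ℂ] ℂ), GInv W T → GAnti F τ T →
        SF.SuppOn T Y → T = 0) : PGood W P := by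
  haveI := td_GV F E V
  haveI := lc_GP B P
  haveI := td_GP B P
  intro τ T hT
  refine LinearMap.ext fun f => ?_
  refine vanish_local T f fun x _ => ?_
  obtain ⟨Y, hxY, -, hYc, hYo, hYi, hYt, hY⟩ := h x.1 x.2
  let K : Set (GP B P) := (fun g : GP B P => g.1) ⁻¹' Y
  have hK : IsClopen K := ⟨hYc.preimage continuous_subtype_val, hYo⟩
  refine ⟨K, hYo, hxY, fun g hg => ?_⟩
  have hKi : ∀ (γ : UU B × UU B) (z : GP B P), z ∈ K ↔ (gpC B P).act γ z ∈ K := by
    intro γ z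
    constructor
    · exact fun h1 => hYi γ _ h1
    · intro h1
      have h2 := hYi γ⁻¹ _ h1
      have h3 : (gC B).act γ⁻¹ ((gpC B P).act γ z).1 = z.1 := (gC B).inv_act γ z.1
      rw [h3] at h2
      exact h2
  have hKt : ∀ z : GP B P, z ∈ K ↔ gpTh τ P z ∈ K := by
    intro z
    constructor
    · exact fun h1 => hYt τ _ h1
    · intro h1
      have h2 := hYt τ _ h1
      have h3 : thG τ (gpTh τ P z).1 = z.1 := thG_thG τ z.1
      rw [h3] at h2
      exact h2
  have hT' : InGP W τ P (T ∘ₗ SF.ind K hK) := by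
    refine ⟨fun γ f => ?_, fun f => ?_⟩
    · have h1 : SF.ind K hK ((gpC B P).op (wRep W) γ f) =
          (gpC B P).op (wRep W) γ (SF.ind K hK f) := by
        apply SF.ext
        intro z
        rw [CAct.op_apply]
        by_cases hz : z ∈ K
        · rw [SF.ind_apply_mem _ _ _ _ hz, SF.ind_apply_mem _ _ _ _ ((hKi γ⁻¹ z).1 hz)]
          rfl
        · rw [SF.ind_apply_not_mem _ _ _ _ hz,
            SF.ind_apply_not_mem _ _ _ _ (fun h1 => hz ((hKi γ⁻¹ z).2 h1)), map_zero]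
      show T _ = T _
      rw [h1]
      exact hT.inv γ _
    · have h1 : SF.ind K hK (SF.opr (gpTh τ P) (tneg F τ) f) =
          SF.opr (gpTh τ P) (tneg F τ) (SF.ind K hK f) := by
        apply SF.ext
        intro z
        rw [SF.opr_apply]
        by_cases hz : z ∈ K
        · rw [SF.ind_apply_mem _ _ _ _ hz, SF.ind_apply_mem _ _ _ _ ((hKt z).1 hz)]
          rfl
        · rw [SF.ind_apply_not_mem _ _ _ _ hz,
            SF.ind_apply_not_mem _ _ _ _ (fun h1 => hz ((hKt z).2 h1)), map_zero]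
      show T _ = - T _
      rw [h1]
      exact hT.anti _
  obtain ⟨e1, e2, -, e4⟩ := inG_of_inGP W τ P _ hT'
  have h0 := hY τ _ e1 e2 (fun f hf => by
    show T (SF.ind K hK (SF.restr (GP B P) (gp_closed B P) f)) = 0
    have h1 : SF.ind K hK (SF.restr (GP B P) (gp_closed B P) f) = 0 := by
      apply SF.ext
      intro z
      by_cases hz : z ∈ K
      · rw [SF.ind_apply_mem _ _ _ _ hz]
        exact hf z.1 hz
      · rw [SF.ind_apply_not_mem _ _ _ _ hz]
        rfl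
    rw [h1, map_zero])
  have h3 := congrArg (fun l : SF (GP B P) (SF V ℂ) →ₗ[ℂ] ℂ => l g) (e4 h0)
  have h4 : SF.ind K hK g = g := by
    apply SF.ext
    intro z
    by_cases hz : z ∈ K
    · rw [SF.ind_apply_mem _ _ _ _ hz]
    · rw [SF.ind_apply_not_mem _ _ _ _ hz, hg z hz]
  have h5 : T (SF.ind K hK g) = 0 := h3
  rw [h4] at h5
  exact h5

end

end Pool.Agent.Work.MP_dd0ddf_al.OC
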