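import Pool.Agent.Work.MP_dd0ddf_al.OC.GrpDesc
import Pool.Agent.Work.MP_dd0ddf_al.OC.SimDefs
import Pool.Agent.Work.MP_dd0ddf_al.OC.TPoly
import Pool.Agent.Work.MP_dd0ddf_al.OC.CycDefs

/-!
# MP_dd0ddf_al, module GrpE1: case P = (x - c)^n: descent to nilpotent operators

`exists_sim`: `g ∈ G_P`: `N = g g^*/c - 1` satisfies `N^n = 0` (Cayley-Hamilton), self-adjoint; `t(N)² = 1 + N = g g^*/c`, t(N) self-adjoint (t ∈ F[x]) invertible; `g0 = t(N)⁻¹ g` satisfies `g0 g0^* = c`.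
`grpE1`: `grp_desc` with `Y = G_P`, `O = UU B`, `(h1, h2)·k = (simC h1) k h2⁻¹`, `π g = g0⁻¹ t(X)⁻¹ g`, `X = g g^*/c - 1` (unitary: t(X)⁻¹ g is a similitude of factor c), `o = 1`.  Equivariance: `t(h1 X h1⁻¹) = h1 t(X) h1⁻¹`.  The fibre over 1 is `{t(X) g0 : X^n = 0}`.
The stabiliser is `{(h, simC h)}`, isomorphic to UU B: δ trivial by noPos.  Symmetry: `k = simK hg τ = k0`: `(tauU τ k0, k0) ∈ stab`: `simC (τ k0 τ) = g0⁻¹ τ g0⁻¹ τ g0^* τ τ g0`... (check: τ k0 τ = (τ g0⁻¹ τ)(g0^*) , g0^* = c g0⁻¹, θ(g0) = τ g0^* τ = c τ g0⁻¹ τ, so τ k0 τ = c τ g0⁻¹ τ g0⁻¹ = θ(g0) g0⁻¹ and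
simC of it = g0⁻¹ θ(g0) = k0.)  For `g = t(X) g0`: `θ(g) k0⁻¹ = t(X') g0`, `X' = θ(g0) τXτ θ(g0)⁻¹` (θ(g) = θ(g0) t(τXτ) = t(X') θ(g0)).  Closure of the stabiliser: `simC (τ k0⁻¹ (simC h) k0 τ) = τ h τ`: by conjugating: τ k0⁻¹ g0⁻¹ h g0 k0 τ = τ θ(g0)⁻¹ h θ(g0) τ, and g0⁻¹ τ θ(g0)⁻¹ = c⁻¹... = a scalar times τ
(θ(g0) τ g0... = τ g0^* τ τ g0 = τ g0^* g0 = c τ).
Transfer to SA0: `N0 = {X ∈ SA0 : X^n = 0}` closed; `X ↦ t(X) g0` is a closed embedding N0 → GV (inverse g ↦ g g^*/c - 1; a nilpotent self-adjoint operator has trace 0).  `S1 f := S G` for `G(t(X) g0) = f(X)`, X ∈ N0.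
`W.act h (simC h)` corresponds to `opr (sa0Conj h⁻¹) (l h ∘ r (simC h))`, and `Θ ∘ act 1 k0⁻¹` to `opr (sa0Sim) (tneg ∘ r k0⁻¹)`.  `S1 ∘ σ = -c' S1`, c' > 0, and `σ²` is the operator of the stabiliser element `(τ k0 τ, k0)⁻¹`, which fixes S1, so `c'² = 1`, `c' = 1`.
-/

set_option linter.unusedSectionVars false
set_option linter.style.haveILetI false

namespace Pool.Agent.Work.MP_dd0ddf_al.OC

noncomputable section

universe u

variable {F E : Type u} [NontriviallyNormedField F] [IsUltrametricDist F] [ProperSpace F]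
  [NeZero (2 : F)] [NontriviallyNormedField E] [NormedAlgebra F E] [ProperSpace E] [StarRing E]
  [QExt F E] [MeasurableSpace E] [BorelSpace E]
variable {V : Type u} [AddCommGroup V] [Module E V] [Module.Finite E V] [TopologicalSpace V]
  [IsTopologicalAddGroup V] [T2Space V] [ContinuousSMul E V]

/-- nilpotent elements of `SA0` -/
def N0 (B : SkewH E V) : Set (SA0 B) := {X | X.1 ^ Module.finrank E V = 0}

private theorem grpe1_aeval_cont (f : Polynomial E) :
    Continuous (fun X : Module.End E V => Polynomial.aeval X f) := by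
  have h1 : (fun X : Module.End E V => Polynomial.aeval X f) =
      fun X => ∑ i ∈ Finset.range (f.natDegree + 1), f.coeff i • X ^ i := by
    funext X
    rw [Polynomial.aeval_eq_sum_range]
  rw [h1]
  refine continuous_finsetSum _ fun i _ => ?_
  refine continuous_induced_rng.mpr (continuous_pi fun v => ?_)
  show Continuous fun X : Module.End E V => f.coeff i • (X ^ i) v
  exact ((continuous_end_apply v).comp (continuous_pow i)).const_smul _

private theorem grpe1_conj_aeval (g : GV E V) (X : Module.End E V) (f : Polynomial E) :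
    Polynomial.aeval (g.1 * X * g⁻¹.1) f = g.1 * Polynomial.aeval X f * g⁻¹.1 := by
  have hpow : ∀ n : ℕ, (g.1 * X * g⁻¹.1) ^ n = g.1 * X ^ n * g⁻¹.1 := by
    intro n
    induction n with
    | zero =>
      rw [pow_zero, pow_zero, mul_one]
      exact g.mul_inv.symm
    | succ n ih =>
      rw [pow_succ, ih, pow_succ]
      have h1 : g⁻¹.1 * g.1 = 1 := g.inv_mul
      calc g.1 * X ^ n * g⁻¹.1 * (g.1 * X * g⁻¹.1)
          = g.1 * X ^ n * (g⁻¹.1 * g.1) * X * g⁻¹.1 := by simp only [mul_assoc]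
        _ = g.1 * (X ^ n * X) * g⁻¹.1 := by
          rw [h1, mul_one]
          simp only [mul_assoc]
  rw [Polynomial.aeval_eq_sum_range, Polynomial.aeval_eq_sum_range, Finset.mul_sum,
    Finset.sum_mul]
  refine Finset.sum_congr rfl fun i _ => ?_
  rw [hpow, mul_smul_comm, smul_mul_assoc]

private theorem grpe1_conj_pow (g : GV E V) (X : Module.End E V) (n : ℕ) (h : X ^ n = 0) :
    (g.1 * X * g⁻¹.1) ^ n = 0 := by
  have h1 := grpe1_conj_aeval g X (Polynomial.X ^ n)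
  rw [map_pow, map_pow, Polynomial.aeval_X, Polynomial.aeval_X, h, mul_zero, zero_mul] at h1
  exact h1

private theorem grpe1_tau_zero {B : SkewH E V} (τ : AntiU B) : τ.t 0 = 0 := by
  have := τ.smul 0 0
  rwa [zero_smul, star_zero, zero_smul] at this

private theorem grpe1_conjτ_smul {B : SkewH E V} (τ : AntiU B) (a : E) (X : Module.End E V) :
    conjτ τ (a • X) = star a • conjτ τ X := by
  ext v
  exact τ.smul _ _

private theorem grpe1_conjτ_pow {B : SkewH E V} (τ : AntiU B) (X : Module.End E V) (n : ℕ) :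
    (conjτ τ X) ^ n = conjτ τ (X ^ n) := by
  induction n with
  | zero =>
    rw [pow_zero, pow_zero, conjτ_one]
  | succ n ih =>
    rw [pow_succ, ih, pow_succ, conjτ_mul]

private theorem grpe1_conjτ_zero {B : SkewH E V} (τ : AntiU B) :
    conjτ τ (0 : Module.End E V) = 0 := by
  ext v
  exact grpe1_tau_zero τ

private theorem grpe1_conjτ_aeval {B : SkewH E V} (τ : AntiU B) (X : Module.End E V)
    (f : Polynomial E) : Polynomial.aeval (conjτ τ X) f =
      conjτ τ (Polynomial.aeval X (f.map (starRingEnd E))) := by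
  have hadd : ∀ X Y : Module.End E V, conjτ τ (X + Y) = conjτ τ X + conjτ τ Y := by
    intro X Y
    ext v
    exact τ.add _ _
  induction f using Polynomial.induction_on' with
  | add p q hp hq => rw [map_add, Polynomial.map_add, map_add, hadd, hp, hq]
  | monomial n a =>
    rw [Polynomial.map_monomial, Polynomial.aeval_monomial, Polynomial.aeval_monomial,
      Algebra.algebraMap_eq_smul_one, Algebra.algebraMap_eq_smul_one, smul_mul_assoc, one_mul,
      smul_mul_assoc, one_mul, grpe1_conjτ_smul, grpe1_conjτ_pow]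
    congr 1
    exact (star_star a).symm

private theorem grpe1_map_star (t : Polynomial F) :
    (t.map (algebraMap F E)).map (starRingEnd E) = t.map (algebraMap F E) := by
  rw [Polynomial.map_map]
  congr 1
  ext x
  exact QExt.star_alg x

private theorem grpe1_tau_t {B : SkewH E V} (τ : AntiU B) (X : Module.End E V)
    (t : Polynomial F) : Polynomial.aeval (conjτ τ X) (t.map (algebraMap F E)) =
      conjτ τ (Polynomial.aeval X (t.map (algebraMap F E))) := by
  rw [grpe1_conjτ_aeval, grpe1_map_star]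

private theorem grpe1_adj_t (B : SkewH E V) {X : Module.End E V} (hX : X ∈ SA B)
    (t : Polynomial F) : adj B (Polynomial.aeval X (t.map (algebraMap F E))) =
      Polynomial.aeval X (t.map (algebraMap F E)) := by
  symm
  apply adj_unique
  intro v w
  rw [ip_aeval B hX, grpe1_map_star]

private theorem grpe1_dvd {X : Module.End E V} {n : ℕ} (hX : X ^ n = 0) {f : Polynomial F}
    (hf : Polynomial.X ^ n ∣ f) : Polynomial.aeval X (f.map (algebraMap F E)) = 0 := by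
  obtain ⟨g, rfl⟩ := hf
  rw [Polynomial.map_mul, Polynomial.map_pow, Polynomial.map_X, map_mul, map_pow,
    Polynomial.aeval_X, hX, zero_mul]

/-! ### the unit `t(X)` -/

/-- nilpotent operators -/
private abbrev Nil (E V : Type u) [NontriviallyNormedField E] [AddCommGroup V] [Module E V] :
    Type u := {X : Module.End E V // X ^ Module.finrank E V = 0}

section TT

variable (E V) in
/-- the polynomials `t` and its inverse -/
private structure TData (F : Type u) [NontriviallyNormedField F] where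
  t : Polynomial F
  a : Polynomial F
  ht : Polynomial.X ^ Module.finrank E V ∣ t ^ 2 - (1 + Polynomial.X)
  ha : Polynomial.X ^ Module.finrank E V ∣ t * a - 1

variable (F E V) in
private theorem grpe1_tdata : Nonempty (TData E V F) := by
  obtain ⟨t, h1, h2⟩ := exists_t_nil (F := F) two_ne_zero (Module.finrank E V)
  have h3 : IsCoprime t (Polynomial.X : Polynomial F) := by
    obtain ⟨s, hs⟩ := h2
    exact ⟨1, -s, by linear_combination hs⟩
  obtain ⟨u, v, huv⟩ := h3.pow_right (n := Module.finrank E V)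
  exact ⟨⟨t, u, h1, ⟨-v, by linear_combination huv⟩⟩⟩

variable (D : TData E V F)

private theorem TData.mul_inv (X : Nil E V) : Polynomial.aeval X.1 (D.t.map (algebraMap F E)) *
    Polynomial.aeval X.1 (D.a.map (algebraMap F E)) = 1 := by
  have h1 := grpe1_dvd X.2 D.ha
  rw [Polynomial.map_sub, Polynomial.map_mul, Polynomial.map_one, map_sub, map_mul, map_one,
    sub_eq_zero] at h1
  exact h1

/-- `t(X)` -/
private def TData.U (X : Nil E V) : GV E V where
  val := Polynomial.aeval X.1 (D.t.map (algebraMap F E))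
  inv := Polynomial.aeval X.1 (D.a.map (algebraMap F E))
  val_inv := D.mul_inv X
  inv_val := by
    rw [← map_mul, mul_comm, map_mul]
    exact D.mul_inv X

private theorem TData.U_val (X : Nil E V) :
    (D.U X).1 = Polynomial.aeval X.1 (D.t.map (algebraMap F E)) := rfl

private theorem TData.U_cont : Continuous D.U := by
  rw [Units.continuous_iff]
  exact ⟨(grpe1_aeval_cont _).comp continuous_subtype_val,
    (grpe1_aeval_cont _).comp continuous_subtype_val⟩

private theorem TData.U_sq (X : Nil E V) : (D.U X).1 * (D.U X).1 = 1 + X.1 := by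
  have h1 := grpe1_dvd X.2 D.ht
  rw [Polynomial.map_sub, Polynomial.map_pow, Polynomial.map_add, Polynomial.map_one,
    Polynomial.map_X, map_sub, map_pow, map_add, map_one, Polynomial.aeval_X, sub_eq_zero,
    sq] at h1
  exact h1

/-- conjugation of nilpotent operators -/
private def nilConj (g : GV E V) (X : Nil E V) : Nil E V :=
  ⟨g.1 * X.1 * g⁻¹.1, grpe1_conj_pow g X.1 _ X.2⟩

private theorem TData.U_conj (g : GV E V) (X : Nil E V) :
    D.U (nilConj g X) = g * D.U X * g⁻¹ :=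
  Units.ext (grpe1_conj_aeval g X.1 _)

end TT

/-! ### the operator `X(g) = g g^* / c - 1` -/

section XX

variable (B : SkewH E V) (c : F)

/-- `g g^* / c - 1` -/
private def grpe1X (g : GV E V) : Module.End E V :=
  algebraMap F E c⁻¹ • (sg B g).1 - 1

private theorem grpe1X_cont : Continuous (grpe1X B c) := by
  have h1 : grpe1X B c = fun g => (algebraMap F E c⁻¹ • (1 : Module.End E V)) * (sg B g).1 - 1 := by
    funext g
    rw [smul_mul_assoc, one_mul]
    rfl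
  rw [h1]
  exact (continuous_const.mul (continuous_subtype_val.comp (continuous_sg F B))).sub
    continuous_const

private theorem grpe1X_SA (g : GV E V) : grpe1X B c g ∈ SA B := by
  apply sa_of_adj
  symm
  apply adj_unique
  intro v w
  have h1 := (sg B g).2 v w
  show B.ip (algebraMap F E c⁻¹ • (sg B g).1 v - v) w =
    B.ip v (algebraMap F E c⁻¹ • (sg B g).1 w - w)
  rw [sub_eq_add_neg, sub_eq_add_neg, B.add_left, B.add_right, B.smul_left, B.smul_right, h1,
    QExt.star_alg, ← neg_one_smul E v, ← neg_one_smul E w, B.smul_left, B.smul_right, star_neg,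
    star_one]

private theorem grpe1X_nil (hc : c ≠ 0) (g : GV E V)
    (hg : g ∈ GP B ((Polynomial.X - Polynomial.C c) ^ Module.finrank E V)) :
    grpe1X B c g ^ Module.finrank E V = 0 := by
  have h1 : LinearMap.charpoly (sg B g).1 =
      ((Polynomial.X - Polynomial.C c) ^ Module.finrank E V).map (algebraMap F E) := hg
  have h2 := LinearMap.aeval_self_charpoly (sg B g).1
  rw [h1, Polynomial.map_pow, Polynomial.map_sub, Polynomial.map_X, Polynomial.map_C, map_pow,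
    map_sub, Polynomial.aeval_X, Polynomial.aeval_C] at h2
  have h3 : grpe1X B c g = algebraMap F E c⁻¹ •
      ((sg B g).1 - algebraMap E (Module.End E V) (algebraMap F E c)) := by
    rw [smul_sub, Algebra.algebraMap_eq_smul_one (algebraMap F E c), smul_smul, ← map_mul,
      inv_mul_cancel₀ hc, map_one, one_smul]
    rfl
  rw [h3, smul_pow, h2, smul_zero]

private theorem grpe1X_act (γ : UU B × UU B) (g : GV E V) :
    grpe1X B c ((gC B).act γ g) = γ.1.1.1 * grpe1X B c g * γ.1.1⁻¹.1 := by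
  have h1 : sg B ((gC B).act γ g) = saConj B γ.1 (sg B g) := sg_act B γ.1 γ.2 g
  have h2 : γ.1.1.1 * γ.1.1⁻¹.1 = 1 := γ.1.1.mul_inv
  show algebraMap F E c⁻¹ • (sg B ((gC B).act γ g)).1 - 1 = _
  rw [h1]
  show algebraMap F E c⁻¹ • (γ.1.1.1 * (sg B g).1 * γ.1.1⁻¹.1) - 1 =
    γ.1.1.1 * (algebraMap F E c⁻¹ • (sg B g).1 - 1) * γ.1.1⁻¹.1
  rw [mul_sub, sub_mul, mul_one, h2, mul_smul_comm, smul_mul_assoc]

end XX

/-! ### similitudes -/

section sim

variable {B : SkewH E V} {c : F}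

private theorem grpe1_adj_smul (B : SkewH E V) (a : F) (X : Module.End E V) :
    adj B (algebraMap F E a • X) = algebraMap F E a • adj B X := by
  symm
  apply adj_unique
  intro v w
  show B.ip (algebraMap F E a • X v) w = B.ip v (algebraMap F E a • adj B X w)
  rw [B.smul_left, B.smul_right, QExt.star_alg, adj_spec]

private theorem grpe1_quot {g s : GV E V} (hg : IsSim B c g) (hs : IsSim B c s) :
    g⁻¹ * s ∈ UU B := by
  intro v w
  have hc : algebraMap F E c ≠ 0 := fun h => hg.1 ((algebraMap F E).injective (by rw [h, map_zero]))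
  have h1 : ∀ x, g.1 (g⁻¹.1 x) = x := fun x =>
    congrArg (fun f : Module.End E V => f x) g.mul_inv
  have h2 := hg.2 ((g⁻¹ * s).1 v) ((g⁻¹ * s).1 w)
  have h3 : ∀ x, g.1 ((g⁻¹ * s).1 x) = s.1 x := fun x => h1 (s.1 x)
  rw [h3, h3, hs.2] at h2
  exact (mul_left_cancel₀ hc h2).symm

/-- the element `t(X(g))⁻¹ g` is a similitude -/
private theorem grpe1_sim (D : TData E V F) (hc : c ≠ 0) (g : GV E V) (X : Nil E V)
    (hX : X.1 = grpe1X B c g) : IsSim B c ((D.U X)⁻¹ * g) := by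
  apply sim_of_adj hc
  set u := D.U X with hu
  have hu1 : u⁻¹.1 * u.1 = 1 := u.inv_mul
  have hadj : adj B u.1 = u.1 := by
    rw [hu, TData.U_val, hX, grpe1_adj_t B (grpe1X_SA B c g)]
  have hu2 : u.1 * adj B u⁻¹.1 = 1 := by
    rw [← adj_one B, ← hu1, adj_mul, hadj]
  have hs : g.1 * adj B g.1 = algebraMap F E c • (u.1 * u.1) := by
    rw [hu, D.U_sq, hX]
    show _ = algebraMap F E c • (1 + (algebraMap F E c⁻¹ • (g.1 * adj B g.1) - 1))
    rw [add_sub_cancel, smul_smul, ← map_mul, mul_inv_cancel₀ hc, map_one, one_smul]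
  show u⁻¹.1 * g.1 * adj B (u⁻¹.1 * g.1) = _
  rw [adj_mul]
  calc u⁻¹.1 * g.1 * (adj B g.1 * adj B u⁻¹.1)
      = u⁻¹.1 * (g.1 * adj B g.1) * adj B u⁻¹.1 := by simp only [mul_assoc]
    _ = algebraMap F E c • ((u⁻¹.1 * u.1) * (u.1 * adj B u⁻¹.1)) := by
      rw [hs, mul_smul_comm, smul_mul_assoc]
      simp only [mul_assoc]
    _ = algebraMap F E c • 1 := by rw [hu1, hu2, mul_one]

/-- `X(t(X) g₀) = X` -/
private theorem grpe1X_U (D : TData E V F) {g₀ : GV E V} (hg : IsSim B c g₀) (X : Nil E V)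
    (hX : X.1 ∈ SA B) : grpe1X B c (D.U X * g₀) = X.1 := by
  have hadj : adj B (D.U X).1 = (D.U X).1 := by
    rw [TData.U_val, grpe1_adj_t B hX]
  have h1 := sim_adj hg
  have h2 : (sg B (D.U X * g₀)).1 = algebraMap F E c • (1 + X.1) := by
    show (D.U X).1 * g₀.1 * adj B ((D.U X).1 * g₀.1) = _
    rw [adj_mul, hadj]
    calc (D.U X).1 * g₀.1 * (adj B g₀.1 * (D.U X).1)
        = (D.U X).1 * (g₀.1 * adj B g₀.1) * (D.U X).1 := by simp only [mul_assoc]
      _ = algebraMap F E c • ((D.U X).1 * (D.U X).1) := by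
        rw [h1, mul_smul_comm, mul_one, smul_mul_assoc]
      _ = _ := by rw [D.U_sq]
  unfold grpe1X
  rw [h2, smul_smul, ← map_mul, inv_mul_cancel₀ hg.1, map_one, one_smul, add_sub_cancel_left]

private theorem grpe1_GP (D : TData E V F) {g₀ : GV E V} (hg : IsSim B c g₀) (X : Nil E V)
    (hX : X.1 ∈ SA B) :
    D.U X * g₀ ∈ GP B ((Polynomial.X - Polynomial.C c) ^ Module.finrank E V) := by
  have h1 := grpe1X_U D hg X hX
  show LinearMap.charpoly (sg B (D.U X * g₀)).1 = _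
  have hcne : algebraMap F E c ≠ 0 := fun h => hg.1 ((algebraMap F E).injective
    (by rw [h, map_zero]))
  have h2 : (sg B (D.U X * g₀)).1 =
      algebraMap F E c • X.1 - (-(algebraMap F E c)) • 1 := by
    have h3 : algebraMap F E c • grpe1X B c (D.U X * g₀) = (sg B (D.U X * g₀)).1 -
        algebraMap F E c • 1 := by
      unfold grpe1X
      rw [smul_sub, smul_smul, ← map_mul, mul_inv_cancel₀ hg.1, map_one, one_smul]
    rw [h1] at h3
    rw [h3, neg_smul]
    abel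
  rw [h2, LinearMap.charpoly_sub_smul]
  have h4 : LinearMap.charpoly (algebraMap F E c • X.1) =
      Polynomial.X ^ Module.finrank E V := by
    rw [LinearMap.charpoly_eq_X_pow_iff]
    intro m
    refine ⟨Module.finrank E V, ?_⟩
    rw [smul_pow, X.2, smul_zero]
    rfl
  rw [h4, Polynomial.X_pow_comp, Polynomial.map_pow, Polynomial.map_sub, Polynomial.map_X,
    Polynomial.map_C, Polynomial.C_neg, sub_eq_add_neg]

end sim

theorem exists_sim (B : SkewH E V) (c : F) (hc : c ≠ 0) (g : GV E V)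
    (hg : g ∈ GP B ((Polynomial.X - Polynomial.C c) ^ Module.finrank E V)) :
    ∃ g₀ : GV E V, IsSim B c g₀ := by
  obtain ⟨D⟩ := grpe1_tdata F E V
  exact ⟨_, grpe1_sim D hc g ⟨grpe1X B c g, grpe1X_nil B c hc g hg⟩ rfl⟩

/-! ### the map `π` -/

section pi

variable {B : SkewH E V} {c : F} (D : TData E V F) {g₀ : GV E V} (hg : IsSim B c g₀)

/-- the nilpotent operator of an element of `G_P` -/
private def grpe1N (hc : c ≠ 0) (g : GP B ((Polynomial.X - Polynomial.C c) ^ Module.finrank E V)) :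
    Nil E V := ⟨grpe1X B c g.1, grpe1X_nil B c hc g.1 g.2⟩

/-- `g₀⁻¹ t(X)⁻¹ g` -/
private def grpe1Pi (g : GP B ((Polynomial.X - Polynomial.C c) ^ Module.finrank E V)) : UU B :=
  ⟨g₀⁻¹ * ((D.U (grpe1N hg.1 g))⁻¹ * g.1), grpe1_quot hg (grpe1_sim D hg.1 g.1 _ rfl)⟩

private theorem grpe1Pi_cont : Continuous (grpe1Pi D hg) := by
  refine Continuous.subtype_mk (continuous_const.mul (Continuous.mul ?_ continuous_subtype_val)) _
  exact ((D.U_cont).comp (((grpe1X_cont B c).comp continuous_subtype_val).subtype_mk _)).inv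

/-- the action on `U(V)` -/
private def grpe1C : CAct (UU B × UU B) (UU B) where
  act γ k := simC hg γ.1 * k * γ.2⁻¹
  one k := by simp
  mul g h x := by
    simp only [Prod.fst_mul, Prod.snd_mul, mul_inv_rev, mul_assoc, map_mul]
  cont := (((continuous_simC hg).comp (continuous_fst.comp continuous_fst)).mul
    continuous_snd).mul (continuous_snd.comp continuous_fst).inv

private theorem grpe1Pi_act (γ : UU B × UU B)
    (g : GP B ((Polynomial.X - Polynomial.C c) ^ Module.finrank E V)) :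
    grpe1Pi D hg ⟨(gC B).act γ g.1, gp_gC B _ γ g.1 g.2⟩ =
      (grpe1C hg).act γ (grpe1Pi D hg g) := by
  apply Subtype.ext
  have h1 : grpe1N hg.1 ⟨(gC B).act γ g.1, gp_gC B _ γ g.1 g.2⟩ =
      nilConj γ.1.1 (grpe1N hg.1 g) := Subtype.ext (grpe1X_act B c γ g.1)
  show g₀⁻¹ * ((D.U (grpe1N hg.1 ⟨(gC B).act γ g.1, gp_gC B _ γ g.1 g.2⟩))⁻¹ *
    (γ.1.1 * g.1 * γ.2.1⁻¹)) = g₀⁻¹ * γ.1.1 * g₀ *
      (g₀⁻¹ * ((D.U (grpe1N hg.1 g))⁻¹ * g.1)) * γ.2.1⁻¹
  rw [h1, TData.U_conj]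
  group

private theorem grpe1_tr (k : UU B) : ∃ γ, (grpe1C hg).act γ 1 = k :=
  ⟨(1, k⁻¹), by
    show simC hg 1 * 1 * k⁻¹⁻¹ = k
    rw [map_one, one_mul, one_mul, inv_inv]⟩

private theorem grpe1Pi_one (g : GP B ((Polynomial.X - Polynomial.C c) ^ Module.finrank E V)) :
    grpe1Pi D hg g = 1 ↔ g.1 = D.U (grpe1N hg.1 g) * g₀ := by
  constructor
  · intro h
    have h1 : g₀⁻¹ * ((D.U (grpe1N hg.1 g))⁻¹ * g.1) = 1 := congrArg Subtype.val h
    exact (eq_inv_mul_iff_mul_eq.1 (inv_mul_eq_one.1 h1)).symm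
  · intro h
    apply Subtype.ext
    show g₀⁻¹ * ((D.U (grpe1N hg.1 g))⁻¹ * g.1) = 1
    conv_lhs => rw [h]
    rw [inv_mul_cancel_left, inv_mul_cancel]

/-- the operator of `t(X) g₀` -/
private theorem grpe1Pi_U (X : Nil E V) (hX : X.1 ∈ SA B) :
    grpe1Pi D hg ⟨D.U X * g₀, grpe1_GP D hg X hX⟩ = 1 := by
  rw [grpe1Pi_one]
  have h1 : grpe1N hg.1 ⟨D.U X * g₀, grpe1_GP D hg X hX⟩ = X :=
    Subtype.ext (grpe1X_U D hg X hX)
  rw [h1]

end pi

/-! ### the symmetry -/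

section sym

variable {B : SkewH E V} {c : F} {g₀ : GV E V}

/-- conjugation by `τ` on `GL(V)` -/
private def grpe1T (τ : AntiU B) : GV E V →* GV E V :=
  Units.map
    { toFun := conjτ τ
      map_one' := conjτ_one τ
      map_mul' := conjτ_mul τ }

private theorem grpe1T_T (τ : AntiU B) (g : GV E V) : grpe1T τ (grpe1T τ g) = g :=
  Units.ext (conjτ_conjτ τ g.1)

private theorem grpe1T_tauU (τ : AntiU B) (h : UU B) : (tauU τ h).1 = grpe1T τ h.1 :=
  Units.ext rfl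

/-- `θ(g₀)` is `τ g₀⁻¹ τ` times a scalar `z` with `τ z τ = z` -/
private theorem grpe1_q (hg : IsSim B c g₀) (τ : AntiU B) : ∃ z : GV E V,
    thG τ g₀ = z * (grpe1T τ g₀)⁻¹ ∧ (∀ g, z * g = g * z) ∧ grpe1T τ z = z ∧
      ∀ Y : Module.End E V, z.1 * Y = Y * z.1 := by
  have hc : algebraMap F E c ≠ 0 := fun h => hg.1 ((algebraMap F E).injective (by rw [h, map_zero]))
  have hcc : (algebraMap F E c)⁻¹ * algebraMap F E c = 1 := inv_mul_cancel₀ hc
  refine ⟨⟨algebraMap F E c • 1, (algebraMap F E c)⁻¹ • 1, ?_, ?_⟩, ?_, ?_, ?_, ?_⟩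
  · rw [smul_mul_smul_comm, mul_inv_cancel₀ hc, one_smul, one_mul]
  · rw [smul_mul_smul_comm, inv_mul_cancel₀ hc, one_smul, one_mul]
  · apply Units.ext
    have h1 := sim_adj hg
    have h2 : adj B g₀.1 = algebraMap F E c • g₀⁻¹.1 := by
      have h3 : g₀⁻¹.1 * g₀.1 = 1 := g₀.inv_mul
      calc adj B g₀.1 = (g₀⁻¹.1 * g₀.1) * adj B g₀.1 := by rw [h3, one_mul]
        _ = g₀⁻¹.1 * (g₀.1 * adj B g₀.1) := mul_assoc _ _ _
        _ = _ := by rw [h1, mul_smul_comm, mul_one]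
    show conjτ τ (adj B g₀.1) = (algebraMap F E c • 1) * conjτ τ g₀⁻¹.1
    rw [h2, grpe1_conjτ_smul, QExt.star_alg, smul_mul_assoc, one_mul]
  · intro g
    apply Units.ext
    show (algebraMap F E c • (1 : Module.End E V)) * g.1 = g.1 * (algebraMap F E c • 1)
    rw [smul_mul_assoc, mul_smul_comm, one_mul, mul_one]
  · apply Units.ext
    show conjτ τ (algebraMap F E c • 1) = algebraMap F E c • 1
    rw [grpe1_conjτ_smul, QExt.star_alg, conjτ_one]
  · intro Y
    show (algebraMap F E c • (1 : Module.End E V)) * Y = Y * (algebraMap F E c • 1)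
    rw [smul_mul_assoc, mul_smul_comm, one_mul, mul_one]

private theorem grpe1_tauk (hg : IsSim B c g₀) (τ : AntiU B) :
    (tauU τ (simK hg τ)).1 = thG τ g₀ * g₀⁻¹ := by
  obtain ⟨z, hz1, hz2, hz3, hz4⟩ := grpe1_q hg τ
  rw [grpe1T_tauU]
  show grpe1T τ (g₀⁻¹ * thG τ g₀) = _
  rw [hz1, map_mul, map_mul, map_inv, map_inv, hz3, grpe1T_T, hz2 g₀⁻¹, ← mul_assoc, ← hz2,
    mul_assoc]

private theorem grpe1_simC_tauk (hg : IsSim B c g₀) (τ : AntiU B) :
    simC hg (tauU τ (simK hg τ)) = simK hg τ := by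
  apply Subtype.ext
  show g₀⁻¹ * (tauU τ (simK hg τ)).1 * g₀ = g₀⁻¹ * thG τ g₀
  rw [grpe1_tauk]
  group

private theorem grpe1_clos (hg : IsSim B c g₀) (τ : AntiU B) (h : UU B) :
    simC hg (tauU τ ((simK hg τ)⁻¹ * simC hg h * simK hg τ)) = tauU τ h := by
  obtain ⟨z, hz1, hz2, hz3, hz4⟩ := grpe1_q hg τ
  apply Subtype.ext
  show g₀⁻¹ * (tauU τ ((simK hg τ)⁻¹ * simC hg h * simK hg τ)).1 * g₀ = (tauU τ h).1
  rw [grpe1T_tauU, grpe1T_tauU]
  show g₀⁻¹ * grpe1T τ ((g₀⁻¹ * thG τ g₀)⁻¹ * (g₀⁻¹ * h.1 * g₀) * (g₀⁻¹ * thG τ g₀)) * g₀ = _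
  have h1 : (g₀⁻¹ * thG τ g₀)⁻¹ * (g₀⁻¹ * h.1 * g₀) * (g₀⁻¹ * thG τ g₀) =
      (thG τ g₀)⁻¹ * h.1 * thG τ g₀ := by group
  have h2 : grpe1T τ (thG τ g₀) = z * g₀⁻¹ := by
    rw [hz1, map_mul, map_inv, hz3, grpe1T_T]
  rw [h1, map_mul, map_mul, map_inv, h2]
  have h3 : g₀⁻¹ * ((z * g₀⁻¹)⁻¹ * grpe1T τ h.1 * (z * g₀⁻¹)) * g₀ =
      z⁻¹ * (grpe1T τ h.1 * z) := by
    group
  rw [h3, ← hz2, inv_mul_cancel_left]

/-- the action of `θ` on `t(X) g₀` -/
private theorem grpe1_th (D : TData E V F) (hg : IsSim B c g₀) (τ : AntiU B) (X Y : Nil E V)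
    (hX : X.1 ∈ SA B) (hY : Y.1 = (thG τ g₀).1 * conjτ τ X.1 * (thG τ g₀)⁻¹.1) :
    thG τ (D.U X * g₀) * (simK hg τ).1⁻¹ = D.U Y * g₀ := by
  have h1 : (conjτ τ X.1) ^ Module.finrank E V = 0 := by
    rw [grpe1_conjτ_pow, X.2, grpe1_conjτ_zero]
  have h2 : Y = nilConj (thG τ g₀) ⟨conjτ τ X.1, h1⟩ := Subtype.ext hY
  have h3 : thG τ (D.U X) = D.U ⟨conjτ τ X.1, h1⟩ := by
    apply Units.ext
    show conjτ τ (adj B (D.U X).1) = _
    rw [TData.U_val, TData.U_val, grpe1_adj_t B hX, ← grpe1_tau_t]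
  rw [h2, D.U_conj, thG_mul, h3]
  show thG τ g₀ * D.U ⟨conjτ τ X.1, h1⟩ * (g₀⁻¹ * thG τ g₀)⁻¹ = _
  group

end sym

theorem grpE1 {B : SkewH E V} {p : PChar F} (W : WeilRep B p) (c : F) (g₀ : GV E V)
    (hg : IsSim B c g₀) (τ : AntiU B) (T : SF (GV E V) (SF V ℂ) →ₗ[ℂ] ℂ) (hT : GInv W T)
    (hT' : GAnti F τ T)
    (hs : SF.SuppOn T (GP B ((Polynomial.X - Polynomial.C c) ^ Module.finrank E V))) :
    ∃ S : SF (SA0 B) (SF V ℂ) →ₗ[ℂ] ℂ, (S = 0 → T = 0) ∧ SF.SuppOn S (N0 B) ∧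
      EInv W hg τ S := by
  haveI := td_GV F E V
  haveI := lc_UU F B
  haveI := td_UU F B
  haveI := lc_SA0 F B
  haveI := td_SA0 F B
  obtain ⟨D⟩ := grpe1_tdata F E V
  set P := (Polynomial.X - Polynomial.C c) ^ Module.finrank E V with hP
  obtain ⟨S, hS0, hSs, ⟨δ, hδ⟩, hSym⟩ := grp_desc W (GP B P) (gp_closed B P) (gp_gC B P)
    (grpe1C hg) (grpe1Pi D hg) (grpe1Pi_cont D hg) (fun γ g => grpe1Pi_act D hg γ g) 1
    (grpe1_tr hg) τ T hT hT' hs
  -- the stabiliser
  have hstab : ∀ γ : UU B × UU B, γ ∈ (grpe1C hg).stab 1 ↔ simC hg γ.1 = γ.2 := by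
    intro γ
    show simC hg γ.1 * 1 * γ.2⁻¹ = 1 ↔ _
    rw [mul_one, mul_inv_eq_one]
  let κ : UU B →* (grpe1C hg).stab 1 :=
    { toFun := fun h => ⟨(h, simC hg h), (hstab (h, simC hg h)).2 rfl⟩
      map_one' := Subtype.ext (Prod.ext rfl (map_one _))
      map_mul' := fun a b => Subtype.ext (Prod.ext rfl (map_mul _ a b)) }
  have hκ : Continuous κ := (continuous_id.prodMk (continuous_simC hg)).subtype_mk _
  have hδ1 : ∀ h, δ.δ (κ h) = 1 := fun h => noPos (F := F) B (δ.comap κ hκ) h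
  have hinv : ∀ (h : UU B) (G : SF (GV E V) (SF V ℂ)), S (W.act h (simC hg h) G) = S G := by
    intro h G
    have h1 := hδ (κ h) G
    rw [hδ1, Complex.ofReal_one, one_mul] at h1
    exact h1
  -- nilpotent operators
  let nm : N0 B → Nil E V := fun X => ⟨X.1.1, X.2⟩
  have hnm : ∀ X : N0 B, (nm X).1 ∈ SA B := fun X => X.1.2.1
  let v : N0 B → GV E V := fun X => D.U (nm X) * g₀
  have hv : ∀ X, v X ∈ GP B P := fun X => grpe1_GP D hg (nm X) (hnm X)
  have hvpi : ∀ X, grpe1Pi D hg ⟨v X, hv X⟩ = 1 := fun X => grpe1Pi_U D hg (nm X) (hnm X)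
  have hN0c : IsClosed (N0 B) := isClosed_eq
    ((continuous_subtype_val).pow _) continuous_const
  set Z : Set (GV E V) := {g | ∃ hg' : g ∈ GP B P, grpe1Pi D hg ⟨g, hg'⟩ = 1} with hZ
  have hZc : IsClosed Z := by
    have h1 : IsClosed {g : GP B P | grpe1Pi D hg g = 1} :=
      isClosed_eq (grpe1Pi_cont D hg) continuous_const
    have h2 := (gp_closed B P).isClosedEmbedding_subtypeVal.isClosedMap _ h1
    have h3 : Z = Subtype.val '' {g : GP B P | grpe1Pi D hg g = 1} := by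
      ext g
      constructor
      · rintro ⟨hg', h⟩
        exact ⟨⟨g, hg'⟩, h, rfl⟩
      · rintro ⟨x, hx, rfl⟩
        exact ⟨x.2, hx⟩
    rw [h3]
    exact h2
  have hzX : ∀ z ∈ Z, grpe1X B c z ^ Module.finrank E V = 0 := fun z hz =>
    grpe1X_nil B c hg.1 z hz.1
  let toX : Z → N0 B := fun z => ⟨⟨grpe1X B c z.1, grpe1X_SA B c z.1, by
    have h1 : IsNilpotent (LinearMap.trace E V (grpe1X B c z.1)) :=
      LinearMap.isNilpotent_trace_of_isNilpotent ⟨_, hzX z.1 z.2⟩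
    exact h1.eq_zero⟩, hzX z.1 z.2⟩
  let e : Z ≃ₜ N0 B :=
    { toFun := toX
      invFun := fun X => ⟨v X, hv X, hvpi X⟩
      left_inv := fun z => Subtype.ext ((grpe1Pi_one D hg ⟨z.1, z.2.1⟩).1 z.2.2).symm
      right_inv := fun X => Subtype.ext (Subtype.ext (grpe1X_U D hg (nm X) (hnm X)))
      continuous_toFun := (((grpe1X_cont B c).comp continuous_subtype_val).subtype_mk _).subtype_mk _
      continuous_invFun := ((D.U_cont.comp
        ((continuous_subtype_val.comp continuous_subtype_val).subtype_mk _)).mul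
          continuous_const).subtype_mk _ }
  obtain ⟨SZ, hSZ⟩ := supp_on_factor Z hZc S hSs
  set S1 : SF (SA0 B) (SF V ℂ) →ₗ[ℂ] ℂ := SZ ∘ₗ SF.comp e ∘ₗ SF.restr (N0 B) hN0c with hS1
  -- the key formula
  have key : ∀ (f : SF (SA0 B) (SF V ℂ)) (G : SF (GV E V) (SF V ℂ)),
      (∀ X : N0 B, G (v X) = f X.1) → S1 f = S G := by
    intro f G h
    rw [hSZ]
    show SZ (SF.comp e (SF.restr (N0 B) hN0c f)) = _
    congr 1
    apply SF.ext
    intro z
    show f (e z).1 = G z.1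
    rw [← h (e z)]
    exact congrArg (fun y : Z => G y.1) (e.symm_apply_apply z)
  have hex : ∀ f : SF (SA0 B) (SF V ℂ), ∃ G : SF (GV E V) (SF V ℂ),
      ∀ X : N0 B, G (v X) = f X.1 := by
    intro f
    obtain ⟨G, hG⟩ := restr_surjective Z hZc (SF.comp e (SF.restr (N0 B) hN0c f))
    refine ⟨G, fun X => ?_⟩
    have h1 := congrArg (fun H : SF Z (SF V ℂ) => H (e.symm X)) hG
    have h2 : G (v X) = f (e (e.symm X)).1 := h1
    rw [e.apply_symm_apply] at h2
    exact h2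
  have hvinj : ∀ (h : UU B) (X : N0 B) (Y : N0 B), Y.1.1 = h.1⁻¹.1 * X.1.1 * h.1.1 →
      h.1⁻¹ * v X * (simC hg h).1 = v Y := by
    intro h X Y hY
    have h1 : nm Y = nilConj h.1⁻¹ (nm X) := by
      apply Subtype.ext
      show Y.1.1 = h.1⁻¹.1 * X.1.1 * (h.1⁻¹)⁻¹.1
      rw [inv_inv]
      exact hY
    show h.1⁻¹ * (D.U (nm X) * g₀) * (g₀⁻¹ * h.1 * g₀) = D.U (nm Y) * g₀
    rw [h1, D.U_conj]
    group
  -- invariance
  have hi : ∀ (h : UU B) (f : SF (SA0 B) (SF V ℂ)),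
      S1 (SF.opr (sa0Conj B h⁻¹).h (W.l h ∘ₗ W.r (simC hg h)) f) = S1 f := by
    intro h f
    obtain ⟨G, hG⟩ := hex f
    rw [key f G hG, ← hinv h G]
    apply key
    intro X
    have hp : ((sa0Conj B h⁻¹).h X.1).1 ^ Module.finrank E V = 0 := by
      show (h.1⁻¹.1 * X.1.1 * (h.1⁻¹)⁻¹.1) ^ Module.finrank E V = 0
      exact grpe1_conj_pow _ _ _ X.2
    show W.l h (W.r (simC hg h) (G (h.1⁻¹ * v X * (simC hg h).1))) =
      W.l h (W.r (simC hg h) (f ((sa0Conj B h⁻¹).h X.1)))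
    rw [hvinj h X ⟨(sa0Conj B h⁻¹).h X.1, hp⟩ (by
      show h.1⁻¹.1 * X.1.1 * (h.1⁻¹)⁻¹.1 = _
      rw [inv_inv]), hG]
  -- the symmetry
  have hsimnil : ∀ X : N0 B, ((sa0Sim hg τ).h X.1).1 ^ Module.finrank E V = 0 := by
    intro X
    show ((thG τ g₀).1 * conjτ τ X.1.1 * (thG τ g₀)⁻¹.1) ^ Module.finrank E V = 0
    apply grpe1_conj_pow
    rw [grpe1_conjτ_pow, X.2, grpe1_conjτ_zero]
  have hthv : ∀ X : N0 B, thG τ (v X) * (simK hg τ).1⁻¹ =
      v ⟨(sa0Sim hg τ).h X.1, hsimnil X⟩ := fun X =>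
    grpe1_th D hg τ (nm X) (nm ⟨(sa0Sim hg τ).h X.1, hsimnil X⟩) (hnm X) rfl
  obtain ⟨c', hc', hanti⟩ := hSym τ (simK hg τ) ((hstab _).2 (grpe1_simC_tauk hg τ))
    (fun g hgY => gp_thG τ P g hgY) (by
      intro g hgY hg' hpi
      have h1 := (grpe1Pi_one D hg ⟨g, hgY⟩).1 hpi
      let X : N0 B := toX ⟨g, hgY, hpi⟩
      have h2 : g = v X := h1
      have h3 : (gC B).act (1, simK hg τ) (thG τ g) =
          v ⟨(sa0Sim hg τ).h X.1, hsimnil X⟩ := by
        rw [← hthv X, ← h2]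
        show (1 : GV E V) * thG τ g * (simK hg τ).1⁻¹ = _
        rw [one_mul]
      have h4 := hvpi ⟨(sa0Sim hg τ).h X.1, hsimnil X⟩
      have h5 : (⟨_, hg'⟩ : GP B P) = ⟨v ⟨(sa0Sim hg τ).h X.1, hsimnil X⟩, hv _⟩ :=
        Subtype.ext h3
      rw [h5]
      exact h4)
    (by
      intro γ hγ
      rw [hstab] at hγ ⊢
      show simC hg (tauU τ ((simK hg τ)⁻¹ * γ.2 * simK hg τ)) = tauU τ γ.1
      rw [← hγ]
      exact grpe1_clos hg τ γ.1)
  have ha : ∀ f : SF (SA0 B) (SF V ℂ),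
      S1 (SF.opr (sa0Sim hg τ).h (tneg F τ ∘ₗ W.r (simK hg τ)⁻¹) f) = -(c' : ℂ) * S1 f := by
    intro f
    obtain ⟨G, hG⟩ := hex f
    rw [key f G hG, ← hanti G]
    apply key
    intro X
    show tneg F τ (W.l 1 (W.r (simK hg τ)⁻¹
      (G ((1 : UU B).1⁻¹ * thG τ (v X) * ((simK hg τ)⁻¹ : UU B).1)))) =
      tneg F τ (W.r (simK hg τ)⁻¹ (f ((sa0Sim hg τ).h X.1)))
    have h1 : (1 : UU B).1⁻¹ * thG τ (v X) * ((simK hg τ)⁻¹ : UU B).1 =
        v ⟨(sa0Sim hg τ).h X.1, hsimnil X⟩ := by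
      rw [← hthv X]
      show (1 : GV E V)⁻¹ * thG τ (v X) * (simK hg τ).1⁻¹ = _
      rw [inv_one, one_mul]
    rw [h1, hG, map_one]
    rfl
  refine ⟨S1, fun h => hS0 ?_, ?_, hi, ?_⟩
  · apply LinearMap.ext
    intro G
    obtain ⟨f, hf⟩ := restr_surjective (N0 B) hN0c (SF.comp e.symm (SF.restr Z hZc G))
    have h1 : ∀ X : N0 B, G (v X) = f X.1 := by
      intro X
      have h2 := congrArg (fun H : SF (N0 B) (SF V ℂ) => H X) hf
      exact h2.symm
    rw [← key f G h1, h]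
    rfl
  · intro f hf
    have h1 : SF.restr (N0 B) hN0c f = 0 := by
      apply SF.ext
      intro X
      exact hf X.1 X.2
    show SZ (SF.comp e (SF.restr (N0 B) hN0c f)) = 0
    rw [h1, map_zero, map_zero]
  · by_cases hS10 : S1 = 0
    · intro f
      rw [hS10, LinearMap.zero_apply, LinearMap.zero_apply, neg_zero]
    · obtain ⟨f, hf⟩ : ∃ f, S1 f ≠ 0 := by
        by_contra h
        push Not at h
        exact hS10 (LinearMap.ext h)
      -- the square
      have hsq : ∀ f : SF (SA0 B) (SF V ℂ), SF.opr (sa0Sim hg τ).h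
          (tneg F τ ∘ₗ W.r (simK hg τ)⁻¹) (SF.opr (sa0Sim hg τ).h
          (tneg F τ ∘ₗ W.r (simK hg τ)⁻¹) f) =
          SF.opr (sa0Conj B ((tauU τ (simK hg τ))⁻¹)⁻¹).h (W.l (tauU τ (simK hg τ))⁻¹ ∘ₗ
            W.r (simC hg (tauU τ (simK hg τ))⁻¹)) f := by
        intro f
        apply SF.ext
        intro X
        have htr : ∀ (h : UU B) (φ : SF V ℂ), tneg F τ (W.r h φ) =
            W.l (tauU τ h) (tneg F τ φ) := fun h φ =>
          congrArg (fun R : SF V ℂ →ₗ[ℂ] SF V ℂ => R φ) (tneg_r W τ h)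
        have htinv : tauU τ (simK hg τ)⁻¹ = (tauU τ (simK hg τ))⁻¹ := by
          have h1 : tauU τ (simK hg τ)⁻¹ * tauU τ (simK hg τ) = 1 := by
            rw [← tauU_mul, inv_mul_cancel]
            apply Subtype.ext
            apply Units.ext
            exact conjτ_one τ
          exact eq_inv_of_mul_eq_one_left h1
        have hXX : (sa0Sim hg τ).h ((sa0Sim hg τ).h X) =
            (sa0Conj B ((tauU τ (simK hg τ))⁻¹)⁻¹).h X := by
          obtain ⟨z, hz1, hz2, hz3, hz4⟩ := grpe1_q hg τ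
          apply Subtype.ext
          rw [inv_inv]
          show (thG τ g₀).1 * conjτ τ ((thG τ g₀).1 * conjτ τ X.1 * (thG τ g₀)⁻¹.1) *
            (thG τ g₀)⁻¹.1 = (tauU τ (simK hg τ)).1.1 * X.1 * (tauU τ (simK hg τ)).1⁻¹.1
          rw [conjτ_mul, conjτ_mul, conjτ_conjτ, grpe1_tauk]
          have h2 : grpe1T τ (thG τ g₀) = z * g₀⁻¹ := by
            rw [hz1, map_mul, map_inv, hz3, grpe1T_T]
          have h3 : thG τ g₀ * grpe1T τ (thG τ g₀) = z * (thG τ g₀ * g₀⁻¹) := by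
            rw [h2, ← mul_assoc, ← hz2, mul_assoc]
          have h4 : (grpe1T τ (thG τ g₀))⁻¹ * (thG τ g₀)⁻¹ = (thG τ g₀ * g₀⁻¹)⁻¹ * z⁻¹ := by
            rw [← mul_inv_rev, h3, mul_inv_rev]
          have h5 : (thG τ g₀).1 * (conjτ τ (thG τ g₀).1 * X.1 * conjτ τ (thG τ g₀)⁻¹.1) *
              (thG τ g₀)⁻¹.1 = (thG τ g₀ * grpe1T τ (thG τ g₀)).1 * X.1 *
                ((grpe1T τ (thG τ g₀))⁻¹ * (thG τ g₀)⁻¹).1 := by
            show _ = (thG τ g₀).1 * conjτ τ (thG τ g₀).1 * X.1 *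
              (conjτ τ (thG τ g₀)⁻¹.1 * (thG τ g₀)⁻¹.1)
            simp only [mul_assoc]
          rw [h5, h3, h4]
          have hzc : z.1 * z⁻¹.1 = 1 := z.mul_inv
          show z.1 * (thG τ g₀ * g₀⁻¹).1 * X.1 * ((thG τ g₀ * g₀⁻¹)⁻¹.1 * z⁻¹.1) = _
          rw [mul_assoc z.1, hz4, mul_assoc _ z.1, ← mul_assoc z.1 _ z⁻¹.1, hz4 _, mul_assoc _ z.1,
            hzc, mul_one]
        show tneg F τ (W.r (simK hg τ)⁻¹ (tneg F τ (W.r (simK hg τ)⁻¹
          (f ((sa0Sim hg τ).h ((sa0Sim hg τ).h X)))))) =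
          W.l (tauU τ (simK hg τ))⁻¹ (W.r (simC hg (tauU τ (simK hg τ))⁻¹)
            (f ((sa0Conj B ((tauU τ (simK hg τ))⁻¹)⁻¹).h X)))
        rw [hXX, htr, tneg_tneg, htinv, map_inv (simC hg), grpe1_simC_tauk]
      have h1 := hi (tauU τ (simK hg τ))⁻¹ f
      rw [← hsq, ha, ha] at h1
      have h2 : (c' : ℂ) * c' = 1 := by
        refine mul_right_cancel₀ hf ?_
        rw [one_mul]
        linear_combination h1
      have h3 : c' * c' = 1 := by exact_mod_cast h2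
      have h4 : c' = 1 := by nlinarith
      intro f
      rw [ha, h4, Complex.ofReal_one, neg_one_mul]

end

end Pool.Agent.Work.MP_dd0ddf_al.OC
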