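import Pool.Agent.Work.MP_dd0ddf_al.OC.GrpDesc
import Pool.Agent.Work.MP_dd0ddf_al.OC.SimA
import Pool.Agent.Work.MP_dd0ddf_al.OC.GrpB1

/-!
# MP_dd0ddf_al (all characteristics /= 2), module GrpP1: case P = q^m, q = x^e - c: descent to self-adjoint operators

The analogue of GrpE1 with `t(X)` replaced by `b(s)`, `b bbar = x / c0 mod P`, and nilpotent operators replaced by `SAP B P`.
`grp_desc` with `Y = G_P`, `O = UU B`, `(h1, h2)·k = (simC h1) k h2⁻¹`, `π g = g0⁻¹ b(g g^*)⁻¹ g`, `o = 1`.  The fibre over 1 is `{b(s) g0 : s ∈ SAP B P}`.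
-/

set_option linter.unusedSectionVars false
set_option linter.style.haveILetI false

namespace Pool.Agent.Work.MP_dd0ddf_al.OC

noncomputable section

universe u

variable {F E : Type u} [NontriviallyNormedField F] [IsUltrametricDist F] [ProperSpace F]
  [NeZero (2 : F)] [NontriviallyNormedField E] [NormedAlgebra F E] [ProperSpace E] [StarRing E]
  [QExt F E] [MeasurableSpace E] [BorelSpace E]
variable {V : Type u} [AddCommGroup V] [Module E V] [Module.Finite E V] [TopologicalSpace V]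
  [IsTopologicalAddGroup V] [T2Space V] [ContinuousSMul E V]

private theorem grpp1_aeval_cont (f : Polynomial E) :
    Continuous (fun X : Module.End E V => Polynomial.aeval X f) := by
  have h1 : (fun X : Module.End E V => Polynomial.aeval X f) =
      fun X => ∑ i ∈ Finset.range (f.natDegree + 1), f.coeff i • X ^ i := by
    funext X
    rw [Polynomial.aeval_eq_sum_range]
  rw [h1]
  refine continuous_finsetSum _ fun i _ => ?_
  refine continuous_induced_rng.mpr (continuous_pi fun v => ?_)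
  show Continuous fun X : Module.End E V => f.coeff i • (X ^ i) v
  exact ((continuous_end_apply v).comp (continuous_pow i)).const_smul _

private theorem grpp1_conj_aeval (g : GV E V) (X : Module.End E V) (f : Polynomial E) :
    Polynomial.aeval (g.1 * X * g⁻¹.1) f = g.1 * Polynomial.aeval X f * g⁻¹.1 := by
  have hpow : ∀ n : ℕ, (g.1 * X * g⁻¹.1) ^ n = g.1 * X ^ n * g⁻¹.1 := by
    intro n
    induction n with
    | zero =>
      rw [pow_zero, pow_zero, mul_one]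
      exact g.mul_inv.symm
    | succ n ih =>
      rw [pow_succ, ih, pow_succ]
      have h1 : g⁻¹.1 * g.1 = 1 := g.inv_mul
      calc g.1 * X ^ n * g⁻¹.1 * (g.1 * X * g⁻¹.1)
          = g.1 * X ^ n * (g⁻¹.1 * g.1) * X * g⁻¹.1 := by simp only [mul_assoc]
        _ = g.1 * (X ^ n * X) * g⁻¹.1 := by
          rw [h1, mul_one]
          simp only [mul_assoc]
  rw [Polynomial.aeval_eq_sum_range, Polynomial.aeval_eq_sum_range, Finset.mul_sum,
    Finset.sum_mul]
  refine Finset.sum_congr rfl fun i _ => ?_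
  rw [hpow, mul_smul_comm, smul_mul_assoc]

private theorem grpp1_tau_zero {B : SkewH E V} (τ : AntiU B) : τ.t 0 = 0 := by
  have := τ.smul 0 0
  rwa [zero_smul, star_zero, zero_smul] at this

private theorem grpp1_conjτ_smul {B : SkewH E V} (τ : AntiU B) (a : E) (X : Module.End E V) :
    conjτ τ (a • X) = star a • conjτ τ X := by
  ext v
  exact τ.smul _ _

private theorem grpp1_conjτ_pow {B : SkewH E V} (τ : AntiU B) (X : Module.End E V) (n : ℕ) :
    (conjτ τ X) ^ n = conjτ τ (X ^ n) := by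
  induction n with
  | zero =>
    rw [pow_zero, pow_zero, conjτ_one]
  | succ n ih =>
    rw [pow_succ, ih, pow_succ, conjτ_mul]

private theorem grpp1_conjτ_zero {B : SkewH E V} (τ : AntiU B) :
    conjτ τ (0 : Module.End E V) = 0 := by
  ext v
  exact grpp1_tau_zero τ

private theorem grpp1_conjτ_aeval {B : SkewH E V} (τ : AntiU B) (X : Module.End E V)
    (f : Polynomial E) : Polynomial.aeval (conjτ τ X) f =
      conjτ τ (Polynomial.aeval X (f.map (starRingEnd E))) := by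
  have hadd : ∀ X Y : Module.End E V, conjτ τ (X + Y) = conjτ τ X + conjτ τ Y := by
    intro X Y
    ext v
    exact τ.add _ _
  induction f using Polynomial.induction_on' with
  | add p q hp hq => rw [map_add, Polynomial.map_add, map_add, hadd, hp, hq]
  | monomial n a =>
    rw [Polynomial.map_monomial, Polynomial.aeval_monomial, Polynomial.aeval_monomial,
      Algebra.algebraMap_eq_smul_one, Algebra.algebraMap_eq_smul_one, smul_mul_assoc, one_mul,
      smul_mul_assoc, one_mul, grpp1_conjτ_smul, grpp1_conjτ_pow]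
    congr 1
    exact (star_star a).symm

private theorem grpp1_inv (P : Polynomial F) (h0 : P.coeff 0 ≠ 0) (c : F) (hc : c ≠ 0)
    (b : Polynomial E) (hb : P.map (algebraMap F E) ∣
      b * b.map (starRingEnd E) - Polynomial.C (algebraMap F E c⁻¹) * Polynomial.X) :
    ∃ a : Polynomial E, P.map (algebraMap F E) ∣ b * a - 1 := by
  have h1 := Polynomial.divX_mul_X_add (P.map (algebraMap F E))
  set Q := P.map (algebraMap F E) with hQ
  have hq0 : Q.coeff 0 ≠ 0 := by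
    rw [hQ, Polynomial.coeff_map]
    exact fun h => h0 ((map_eq_zero (algebraMap F E)).1 h)
  have hcc : Polynomial.C (algebraMap F E c⁻¹) * Polynomial.C (algebraMap F E c) = 1 := by
    rw [← Polynomial.C_mul, ← map_mul, inv_mul_cancel₀ hc, map_one, Polynomial.C_1]
  have h2 : Polynomial.C (Q.coeff 0)⁻¹ * Polynomial.C (Q.coeff 0) = 1 := by
    rw [← Polynomial.C_mul, inv_mul_cancel₀ hq0, Polynomial.C_1]
  have h3 : Polynomial.C (Q.coeff 0)⁻¹ * Q = Polynomial.C (Q.coeff 0)⁻¹ *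
      (Q.divX * Polynomial.X) + 1 := by
    have h4 := congrArg (fun f => Polynomial.C (Q.coeff 0)⁻¹ * f) h1
    simp only [mul_add, h2] at h4
    exact h4.symm
  obtain ⟨r, hr⟩ := hb
  refine ⟨b.map (starRingEnd E) * Polynomial.C (algebraMap F E c) *
    (-(Polynomial.C (Q.coeff 0)⁻¹ * Q.divX)),
    r * (Polynomial.C (algebraMap F E c) * (-(Polynomial.C (Q.coeff 0)⁻¹ * Q.divX))) -
      Polynomial.C (Q.coeff 0)⁻¹, ?_⟩
  linear_combination (Polynomial.C (algebraMap F E c) *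
    (-(Polynomial.C (Q.coeff 0)⁻¹ * Q.divX))) * hr + h3 -
      (Polynomial.C (Q.coeff 0)⁻¹ * Q.divX * Polynomial.X) * hcc

private theorem grpp1_aeval_zero {X : Module.End E V} {Q f : Polynomial E}
    (hX : LinearMap.charpoly X = Q) (hf : Q ∣ f) : Polynomial.aeval X f = 0 := by
  obtain ⟨g, rfl⟩ := hf
  rw [map_mul, ← hX, LinearMap.aeval_self_charpoly, zero_mul]

private theorem grpp1_comm (X : Module.End E V) (f g : Polynomial E) :
    Polynomial.aeval X f * Polynomial.aeval X g = Polynomial.aeval X g * Polynomial.aeval X f := by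
  rw [← map_mul, mul_comm, map_mul]

/-! ### the unit `b(X)` -/

/-- the polynomials `b` and its inverse -/
private structure BData (E : Type u) [NontriviallyNormedField E] [StarRing E]
    [NontriviallyNormedField F] [NormedAlgebra F E] (P : Polynomial F) (c : F) where
  b : Polynomial E
  a : Polynomial E
  hb : P.map (algebraMap F E) ∣
    b * b.map (starRingEnd E) - Polynomial.C (algebraMap F E c⁻¹) * Polynomial.X
  ha : P.map (algebraMap F E) ∣ b * a - 1

section Data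

variable {B : SkewH E V} {P : Polynomial F} {c : F} (D : BData (F := F) E P c)

/-- `b(X)` as a unit -/
private def BData.U (X : SAP B P) : GV E V where
  val := Polynomial.aeval X.1.1 D.b
  inv := Polynomial.aeval X.1.1 D.a
  val_inv := by
    have h1 := grpp1_aeval_zero X.2 D.ha
    rw [map_sub, map_one, sub_eq_zero] at h1
    rw [← map_mul, h1]
  inv_val := by
    have h1 := grpp1_aeval_zero X.2 D.ha
    rw [map_sub, map_one, sub_eq_zero, mul_comm D.b D.a] at h1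
    rw [← map_mul, h1]

private theorem BData.U_val (X : SAP B P) : (D.U X).1 = Polynomial.aeval X.1.1 D.b := rfl

private theorem BData.U_cont : Continuous (D.U : SAP B P → GV E V) := by
  rw [Units.continuous_iff]
  exact ⟨(grpp1_aeval_cont D.b).comp (continuous_subtype_val.comp continuous_subtype_val),
    (grpp1_aeval_cont D.a).comp (continuous_subtype_val.comp continuous_subtype_val)⟩

private theorem BData.bb (X : SAP B P) : Polynomial.aeval X.1.1 D.b *
    Polynomial.aeval X.1.1 (D.b.map (starRingEnd E)) = algebraMap F E c⁻¹ • X.1.1 := by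
  have h1 := grpp1_aeval_zero X.2 D.hb
  rw [map_sub, sub_eq_zero, map_mul, map_mul, Polynomial.aeval_C, Polynomial.aeval_X,
    ← Algebra.smul_def] at h1
  exact h1

private theorem BData.adj (X : SAP B P) : adj B (D.U X).1 =
    Polynomial.aeval X.1.1 (D.b.map (starRingEnd E)) := by
  symm
  apply adj_unique
  intro v w
  exact ip_aeval B X.1.2 D.b v w

private theorem BData.U_conj (h : GV E V) (X Y : SAP B P) (hY : Y.1.1 = h.1 * X.1.1 * h⁻¹.1) :
    D.U Y = h * D.U X * h⁻¹ := by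
  apply Units.ext
  show Polynomial.aeval Y.1.1 D.b = h.1 * Polynomial.aeval X.1.1 D.b * h⁻¹.1
  rw [hY, grpp1_conj_aeval]

/-- the self-adjoint operator of an element of `GP` -/
private def grpp1_s (g : GP B P) : SAP B P := ⟨sg B g.1, g.2⟩

private theorem grpp1_s_cont : Continuous (grpp1_s : GP B P → SAP B P) :=
  ((continuous_sg F B).comp continuous_subtype_val).subtype_mk _

private theorem grpp1_s_act (γ : UU B × UU B) (g : GP B P) :
    (grpp1_s (⟨(gC B).act γ g.1, gp_gC B P γ g.1 g.2⟩ : GP B P)).1 =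
      saConj B γ.1 (grpp1_s g).1 := sg_act B γ.1 γ.2 g.1

private theorem grpp1_quot {g s : GV E V} (hg : IsSim B c g) (hs : IsSim B c s) :
    g⁻¹ * s ∈ UU B := by
  intro v w
  have hc : algebraMap F E c ≠ 0 := fun h => hg.1 ((algebraMap F E).injective (by rw [h, map_zero]))
  have h1 : ∀ x, g.1 (g⁻¹.1 x) = x := fun x =>
    congrArg (fun f : Module.End E V => f x) g.mul_inv
  have h2 := hg.2 ((g⁻¹ * s).1 v) ((g⁻¹ * s).1 w)
  have h3 : ∀ x, g.1 ((g⁻¹ * s).1 x) = s.1 x := fun x => h1 (s.1 x)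
  rw [h3, h3, hs.2] at h2
  exact (mul_left_cancel₀ hc h2).symm

/-- `b(g g^*)⁻¹ g` is a similitude -/
private theorem grpp1_sim (hc : c ≠ 0) (g : GP B P) :
    IsSim B c ((D.U (grpp1_s g))⁻¹ * g.1) := by
  apply sim_of_adj hc
  set u := D.U (grpp1_s g) with hu
  have hu1 : u⁻¹.1 * u.1 = 1 := u.inv_mul
  have hu2 : OC.adj B u.1 * OC.adj B u⁻¹.1 = 1 := by
    rw [← adj_mul, hu1, adj_one]
  have hs : g.1.1 * OC.adj B g.1.1 = algebraMap F E c • (u.1 * OC.adj B u.1) := by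
    have h1 := D.bb (grpp1_s g)
    rw [← D.adj, ← D.U_val, ← hu] at h1
    rw [h1, smul_smul, ← map_mul, mul_inv_cancel₀ hc, map_one, one_smul]
    rfl
  show u⁻¹.1 * g.1.1 * OC.adj B (u⁻¹.1 * g.1.1) = _
  rw [adj_mul]
  calc u⁻¹.1 * g.1.1 * (OC.adj B g.1.1 * OC.adj B u⁻¹.1)
      = u⁻¹.1 * (g.1.1 * OC.adj B g.1.1) * OC.adj B u⁻¹.1 := by simp only [mul_assoc]
    _ = algebraMap F E c • ((u⁻¹.1 * u.1) * (OC.adj B u.1 * OC.adj B u⁻¹.1)) := by
      rw [hs, mul_smul_comm, smul_mul_assoc]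
      simp only [mul_assoc]
    _ = algebraMap F E c • 1 := by rw [hu1, hu2, mul_one]

variable {g₀ : GV E V} (hg : IsSim B c g₀)

include hg in
/-- `s(b(X) g₀) = X` -/
private theorem grpp1_sg_U (X : SAP B P) : sg B (D.U X * g₀) = X.1 := by
  apply Subtype.ext
  show (D.U X).1 * g₀.1 * OC.adj B ((D.U X).1 * g₀.1) = X.1.1
  have h1 := sim_adj hg
  have h2 := D.bb X
  rw [← D.adj, ← D.U_val] at h2
  rw [adj_mul]
  calc (D.U X).1 * g₀.1 * (OC.adj B g₀.1 * OC.adj B (D.U X).1)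
      = (D.U X).1 * (g₀.1 * OC.adj B g₀.1) * OC.adj B (D.U X).1 := by simp only [mul_assoc]
    _ = algebraMap F E c • ((D.U X).1 * OC.adj B (D.U X).1) := by
      rw [h1, mul_smul_comm, mul_one, smul_mul_assoc]
    _ = X.1.1 := by
      rw [h2, smul_smul, ← map_mul, mul_inv_cancel₀ hg.1, map_one, one_smul]

include hg in
private theorem grpp1_GP (X : SAP B P) : D.U X * g₀ ∈ GP B P := by
  show LinearMap.charpoly (sg B (D.U X * g₀)).1 = _
  rw [grpp1_sg_U D hg X]
  exact X.2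

/-! ### the map `π` -/

/-- `g₀⁻¹ b(s)⁻¹ g` -/
private def grpp1Pi (g : GP B P) : UU B :=
  ⟨g₀⁻¹ * ((D.U (grpp1_s g))⁻¹ * g.1), grpp1_quot hg (grpp1_sim D hg.1 g)⟩

private theorem grpp1Pi_cont : Continuous (grpp1Pi D hg) := by
  refine Continuous.subtype_mk (continuous_const.mul (Continuous.mul ?_ continuous_subtype_val)) _
  exact ((D.U_cont).comp grpp1_s_cont).inv

/-- the action on `U(V)` -/
private def grpp1C : CAct (UU B × UU B) (UU B) where
  act γ k := simC hg γ.1 * k * γ.2⁻¹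
  one k := by simp
  mul g h x := by
    simp only [Prod.fst_mul, Prod.snd_mul, mul_inv_rev, mul_assoc, map_mul]
  cont := (((continuous_simC hg).comp (continuous_fst.comp continuous_fst)).mul
    continuous_snd).mul (continuous_snd.comp continuous_fst).inv

private theorem grpp1Pi_act (γ : UU B × UU B) (g : GP B P) :
    grpp1Pi D hg ⟨(gC B).act γ g.1, gp_gC B _ γ g.1 g.2⟩ =
      (grpp1C hg).act γ (grpp1Pi D hg g) := by
  apply Subtype.ext
  have h1 : D.U (grpp1_s (⟨(gC B).act γ g.1, gp_gC B P γ g.1 g.2⟩ : GP B P)) =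
      γ.1.1 * D.U (grpp1_s g) * γ.1.1⁻¹ :=
    D.U_conj γ.1.1 _ _ (congrArg Subtype.val (grpp1_s_act γ g))
  show g₀⁻¹ * ((D.U (grpp1_s ⟨(gC B).act γ g.1, gp_gC B _ γ g.1 g.2⟩))⁻¹ *
    (γ.1.1 * g.1 * γ.2.1⁻¹)) = g₀⁻¹ * γ.1.1 * g₀ *
      (g₀⁻¹ * ((D.U (grpp1_s g))⁻¹ * g.1)) * γ.2.1⁻¹
  rw [h1]
  group

private theorem grpp1_tr (k : UU B) : ∃ γ, (grpp1C hg).act γ 1 = k :=
  ⟨(1, k⁻¹), by
    show simC hg 1 * 1 * k⁻¹⁻¹ = k
    rw [map_one, one_mul, one_mul, inv_inv]⟩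

private theorem grpp1Pi_one (g : GP B P) :
    grpp1Pi D hg g = 1 ↔ g.1 = D.U (grpp1_s g) * g₀ := by
  constructor
  · intro h
    have h1 : g₀⁻¹ * ((D.U (grpp1_s g))⁻¹ * g.1) = 1 := congrArg Subtype.val h
    exact (eq_inv_mul_iff_mul_eq.1 (inv_mul_eq_one.1 h1)).symm
  · intro h
    apply Subtype.ext
    show g₀⁻¹ * ((D.U (grpp1_s g))⁻¹ * g.1) = 1
    conv_lhs => rw [h]
    rw [inv_mul_cancel_left, inv_mul_cancel]

private theorem grpp1_s_U (X : SAP B P) :
    grpp1_s (⟨D.U X * g₀, grpp1_GP D hg X⟩ : GP B P) = X := Subtype.ext (grpp1_sg_U D hg X)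

/-- the operator of `b(X) g₀` -/
private theorem grpp1Pi_U (X : SAP B P) :
    grpp1Pi D hg ⟨D.U X * g₀, grpp1_GP D hg X⟩ = 1 := by
  rw [grpp1Pi_one, grpp1_s_U D hg]

end Data

/-! ### the symmetry -/

section sym

variable {B : SkewH E V} {c : F} {g₀ : GV E V}

/-- conjugation by `τ` on `GL(V)` -/
private def grpp1T (τ : AntiU B) : GV E V →* GV E V :=
  Units.map
    { toFun := conjτ τ
      map_one' := conjτ_one τ
      map_mul' := conjτ_mul τ }

private theorem grpp1T_T (τ : AntiU B) (g : GV E V) : grpp1T τ (grpp1T τ g) = g :=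
  Units.ext (conjτ_conjτ τ g.1)

private theorem grpp1T_tauU (τ : AntiU B) (h : UU B) : (tauU τ h).1 = grpp1T τ h.1 :=
  Units.ext rfl

/-- `θ(g₀)` is `τ g₀⁻¹ τ` times a scalar `z` with `τ z τ = z` -/
private theorem grpp1_q (hg : IsSim B c g₀) (τ : AntiU B) : ∃ z : GV E V,
    thG τ g₀ = z * (grpp1T τ g₀)⁻¹ ∧ (∀ g, z * g = g * z) ∧ grpp1T τ z = z ∧
      ∀ Y : Module.End E V, z.1 * Y = Y * z.1 := by
  have hc : algebraMap F E c ≠ 0 := fun h => hg.1 ((algebraMap F E).injective (by rw [h, map_zero]))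
  have hcc : (algebraMap F E c)⁻¹ * algebraMap F E c = 1 := inv_mul_cancel₀ hc
  refine ⟨⟨algebraMap F E c • 1, (algebraMap F E c)⁻¹ • 1, ?_, ?_⟩, ?_, ?_, ?_, ?_⟩
  · rw [smul_mul_smul_comm, mul_inv_cancel₀ hc, one_smul, one_mul]
  · rw [smul_mul_smul_comm, inv_mul_cancel₀ hc, one_smul, one_mul]
  · apply Units.ext
    have h1 := sim_adj hg
    have h2 : adj B g₀.1 = algebraMap F E c • g₀⁻¹.1 := by
      have h3 : g₀⁻¹.1 * g₀.1 = 1 := g₀.inv_mul
      calc adj B g₀.1 = (g₀⁻¹.1 * g₀.1) * adj B g₀.1 := by rw [h3, one_mul]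
        _ = g₀⁻¹.1 * (g₀.1 * adj B g₀.1) := mul_assoc _ _ _
        _ = _ := by rw [h1, mul_smul_comm, mul_one]
    show conjτ τ (adj B g₀.1) = (algebraMap F E c • 1) * conjτ τ g₀⁻¹.1
    rw [h2, grpp1_conjτ_smul, QExt.star_alg, smul_mul_assoc, one_mul]
  · intro g
    apply Units.ext
    show (algebraMap F E c • (1 : Module.End E V)) * g.1 = g.1 * (algebraMap F E c • 1)
    rw [smul_mul_assoc, mul_smul_comm, one_mul, mul_one]
  · apply Units.ext
    show conjτ τ (algebraMap F E c • 1) = algebraMap F E c • 1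
    rw [grpp1_conjτ_smul, QExt.star_alg, conjτ_one]
  · intro Y
    show (algebraMap F E c • (1 : Module.End E V)) * Y = Y * (algebraMap F E c • 1)
    rw [smul_mul_assoc, mul_smul_comm, one_mul, mul_one]

private theorem grpp1_tauk (hg : IsSim B c g₀) (τ : AntiU B) :
    (tauU τ (simK hg τ)).1 = thG τ g₀ * g₀⁻¹ := by
  obtain ⟨z, hz1, hz2, hz3, hz4⟩ := grpp1_q hg τ
  rw [grpp1T_tauU]
  show grpp1T τ (g₀⁻¹ * thG τ g₀) = _
  rw [hz1, map_mul, map_mul, map_inv, map_inv, hz3, grpp1T_T, hz2 g₀⁻¹, ← mul_assoc, ← hz2,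
    mul_assoc]

private theorem grpp1_simC_tauk (hg : IsSim B c g₀) (τ : AntiU B) :
    simC hg (tauU τ (simK hg τ)) = simK hg τ := by
  apply Subtype.ext
  show g₀⁻¹ * (tauU τ (simK hg τ)).1 * g₀ = g₀⁻¹ * thG τ g₀
  rw [grpp1_tauk]
  group

private theorem grpp1_clos (hg : IsSim B c g₀) (τ : AntiU B) (h : UU B) :
    simC hg (tauU τ ((simK hg τ)⁻¹ * simC hg h * simK hg τ)) = tauU τ h := by
  obtain ⟨z, hz1, hz2, hz3, hz4⟩ := grpp1_q hg τ
  apply Subtype.ext
  show g₀⁻¹ * (tauU τ ((simK hg τ)⁻¹ * simC hg h * simK hg τ)).1 * g₀ = (tauU τ h).1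
  rw [grpp1T_tauU, grpp1T_tauU]
  show g₀⁻¹ * grpp1T τ ((g₀⁻¹ * thG τ g₀)⁻¹ * (g₀⁻¹ * h.1 * g₀) * (g₀⁻¹ * thG τ g₀)) * g₀ = _
  have h1 : (g₀⁻¹ * thG τ g₀)⁻¹ * (g₀⁻¹ * h.1 * g₀) * (g₀⁻¹ * thG τ g₀) =
      (thG τ g₀)⁻¹ * h.1 * thG τ g₀ := by group
  have h2 : grpp1T τ (thG τ g₀) = z * g₀⁻¹ := by
    rw [hz1, map_mul, map_inv, hz3, grpp1T_T]
  rw [h1, map_mul, map_mul, map_inv, h2]
  have h3 : g₀⁻¹ * ((z * g₀⁻¹)⁻¹ * grpp1T τ h.1 * (z * g₀⁻¹)) * g₀ =
      z⁻¹ * (grpp1T τ h.1 * z) := by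
    group
  rw [h3, ← hz2, inv_mul_cancel_left]

/-- `X ↦ θ(g₀) τ X τ θ(g₀)⁻¹` preserves the characteristic polynomial -/
theorem sap_simT (hg : IsSim B c g₀) (τ : AntiU B) (P : Polynomial F) (X : SA B)
    (hX : X ∈ SAP B P) : (saSimT hg τ).h X ∈ SAP B P := by
  have h1 := sap_tau τ P X hX
  show LinearMap.charpoly ((thG τ g₀).1 * conjτ τ X.1 * (thG τ g₀)⁻¹.1) = _
  have h2 := LinearEquiv.charpoly_conj
    (LinearMap.GeneralLinearGroup.generalLinearEquiv E V (thG τ g₀)) (conjτ τ X.1)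
  exact h2.trans h1

/-- the action of `θ` on `b(X) g₀` -/
private theorem grpp1_th {P : Polynomial F} (D : BData (F := F) E P c) (hg : IsSim B c g₀)
    (τ : AntiU B) (X Y : SAP B P)
    (hY : Y.1.1 = (thG τ g₀).1 * conjτ τ X.1.1 * (thG τ g₀)⁻¹.1) :
    thG τ (D.U X * g₀) * (simK hg τ).1⁻¹ = D.U Y * g₀ := by
  let X' : SAP B P := ⟨saTau F τ X.1, sap_tau τ P X.1 X.2⟩
  have h2 : D.U Y = thG τ g₀ * D.U X' * (thG τ g₀)⁻¹ := D.U_conj (thG τ g₀) X' Y hY
  have h3 : thG τ (D.U X) = D.U X' := by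
    apply Units.ext
    show conjτ τ (adj B (D.U X).1) = Polynomial.aeval (conjτ τ X.1.1) D.b
    rw [D.adj, ← grpp1_conjτ_aeval]
  rw [h2, thG_mul, h3]
  show thG τ g₀ * D.U X' * (g₀⁻¹ * thG τ g₀)⁻¹ = _
  group

end sym

theorem grpP1 {B : SkewH E V} {p : PChar F} (W : WeilRep B p) (P : Polynomial F)
    (h0 : P.coeff 0 ≠ 0) (c : F) (g₀ : GV E V) (hg : IsSim B c g₀) (b : Polynomial E)
    (hb : P.map (algebraMap F E) ∣
      b * b.map (starRingEnd E) - Polynomial.C (algebraMap F E c⁻¹) * Polynomial.X)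
    (τ : AntiU B) (T : SF (GV E V) (SF V ℂ) →ₗ[ℂ] ℂ) (hT : GInv W T)
    (hT' : GAnti F τ T) (hs : SF.SuppOn T (GP B P)) :
    ∃ S : SF (SA B) (SF V ℂ) →ₗ[ℂ] ℂ, (S = 0 → T = 0) ∧ SF.SuppOn S (SAP B P) ∧
      EInvA W hg τ S := by
  haveI := td_GV F E V
  haveI := lc_UU F B
  haveI := td_UU F B
  haveI := lc_SA F B
  haveI := td_SA F B
  obtain ⟨a, ha⟩ := grpp1_inv P h0 c hg.1 b hb
  let D : BData (F := F) E P c := ⟨b, a, hb, ha⟩
  obtain ⟨S, hS0, hSs, ⟨δ, hδ⟩, hSym⟩ := grp_desc W (GP B P) (gp_closed B P) (gp_gC B P)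
    (grpp1C hg) (grpp1Pi D hg) (grpp1Pi_cont D hg) (fun γ g => grpp1Pi_act D hg γ g) 1
    (grpp1_tr hg) τ T hT hT' hs
  -- the stabiliser
  have hstab : ∀ γ : UU B × UU B, γ ∈ (grpp1C hg).stab 1 ↔ simC hg γ.1 = γ.2 := by
    intro γ
    show simC hg γ.1 * 1 * γ.2⁻¹ = 1 ↔ _
    rw [mul_one, mul_inv_eq_one]
  let κ : UU B →* (grpp1C hg).stab 1 :=
    { toFun := fun h => ⟨(h, simC hg h), (hstab (h, simC hg h)).2 rfl⟩
      map_one' := Subtype.ext (Prod.ext rfl (map_one _))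
      map_mul' := fun a b => Subtype.ext (Prod.ext rfl (map_mul _ a b)) }
  have hκ : Continuous κ := (continuous_id.prodMk (continuous_simC hg)).subtype_mk _
  have hδ1 : ∀ h, δ.δ (κ h) = 1 := fun h => noPos (F := F) B (δ.comap κ hκ) h
  have hinv : ∀ (h : UU B) (G : SF (GV E V) (SF V ℂ)), S (W.act h (simC hg h) G) = S G := by
    intro h G
    have h1 := hδ (κ h) G
    rw [hδ1, Complex.ofReal_one, one_mul] at h1
    exact h1
  -- the fibre
  let v : SAP B P → GV E V := fun X => D.U X * g₀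
  have hv : ∀ X, v X ∈ GP B P := fun X => grpp1_GP D hg X
  have hvpi : ∀ X, grpp1Pi D hg ⟨v X, hv X⟩ = 1 := fun X => grpp1Pi_U D hg X
  have hN0c : IsClosed (SAP B P) := sap_closed B P
  set Z : Set (GV E V) := {g | ∃ hg' : g ∈ GP B P, grpp1Pi D hg ⟨g, hg'⟩ = 1} with hZ
  have hZc : IsClosed Z := by
    have h1 : IsClosed {g : GP B P | grpp1Pi D hg g = 1} :=
      isClosed_eq (grpp1Pi_cont D hg) continuous_const
    have h2 := (gp_closed B P).isClosedEmbedding_subtypeVal.isClosedMap _ h1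
    have h3 : Z = Subtype.val '' {g : GP B P | grpp1Pi D hg g = 1} := by
      ext g
      constructor
      · rintro ⟨hg', h⟩
        exact ⟨⟨g, hg'⟩, h, rfl⟩
      · rintro ⟨x, hx, rfl⟩
        exact ⟨x.2, hx⟩
    rw [h3]
    exact h2
  let toX : Z → SAP B P := fun z => grpp1_s ⟨z.1, z.2.1⟩
  let e : Z ≃ₜ SAP B P :=
    { toFun := toX
      invFun := fun X => ⟨v X, hv X, hvpi X⟩
      left_inv := fun z => Subtype.ext ((grpp1Pi_one D hg ⟨z.1, z.2.1⟩).1 z.2.2).symm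
      right_inv := fun X => grpp1_s_U D hg X
      continuous_toFun := grpp1_s_cont.comp (continuous_subtype_val.subtype_mk _)
      continuous_invFun := (D.U_cont.mul continuous_const).subtype_mk _ }
  obtain ⟨SZ, hSZ⟩ := supp_on_factor Z hZc S hSs
  set S1 : SF (SA B) (SF V ℂ) →ₗ[ℂ] ℂ := SZ ∘ₗ SF.comp e ∘ₗ SF.restr (SAP B P) hN0c with hS1
  -- the key formula
  have key : ∀ (f : SF (SA B) (SF V ℂ)) (G : SF (GV E V) (SF V ℂ)),
      (∀ X : SAP B P, G (v X) = f X.1) → S1 f = S G := by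
    intro f G h
    rw [hSZ]
    show SZ (SF.comp e (SF.restr (SAP B P) hN0c f)) = _
    congr 1
    apply SF.ext
    intro z
    show f (e z).1 = G z.1
    rw [← h (e z)]
    exact congrArg (fun y : Z => G y.1) (e.symm_apply_apply z)
  have hex : ∀ f : SF (SA B) (SF V ℂ), ∃ G : SF (GV E V) (SF V ℂ),
      ∀ X : SAP B P, G (v X) = f X.1 := by
    intro f
    obtain ⟨G, hG⟩ := restr_surjective Z hZc (SF.comp e (SF.restr (SAP B P) hN0c f))
    refine ⟨G, fun X => ?_⟩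
    have h1 := congrArg (fun H : SF Z (SF V ℂ) => H (e.symm X)) hG
    have h2 : G (v X) = f (e (e.symm X)).1 := h1
    rw [e.apply_symm_apply] at h2
    exact h2
  have hvinj : ∀ (h : UU B) (X : SAP B P) (Y : SAP B P), Y.1.1 = h.1⁻¹.1 * X.1.1 * h.1.1 →
      h.1⁻¹ * v X * (simC hg h).1 = v Y := by
    intro h X Y hY
    have h1 : D.U Y = h.1⁻¹ * D.U X * (h.1⁻¹)⁻¹ := D.U_conj h.1⁻¹ X Y (by
      rw [inv_inv]
      exact hY)
    show h.1⁻¹ * (D.U X * g₀) * (g₀⁻¹ * h.1 * g₀) = D.U Y * g₀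
    rw [h1]
    group
  -- invariance
  have hi : ∀ (h : UU B) (f : SF (SA B) (SF V ℂ)),
      S1 (SF.opr (saConjT B h⁻¹).h (W.l h ∘ₗ W.r (simC hg h)) f) = S1 f := by
    intro h f
    obtain ⟨G, hG⟩ := hex f
    rw [key f G hG, ← hinv h G]
    apply key
    intro X
    have hp : (saConjT B h⁻¹).h X.1 ∈ SAP B P := sap_conj B P h⁻¹ X.1 X.2
    show W.l h (W.r (simC hg h) (G (h.1⁻¹ * v X * (simC hg h).1))) =
      W.l h (W.r (simC hg h) (f ((saConjT B h⁻¹).h X.1)))
    rw [hvinj h X ⟨(saConjT B h⁻¹).h X.1, hp⟩ (by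
      show h.1⁻¹.1 * X.1.1 * (h.1⁻¹)⁻¹.1 = _
      rw [inv_inv]), hG]
  -- the symmetry
  have hsimnil : ∀ X : SAP B P, (saSimT hg τ).h X.1 ∈ SAP B P := fun X =>
    sap_simT hg τ P X.1 X.2
  have hthv : ∀ X : SAP B P, thG τ (v X) * (simK hg τ).1⁻¹ =
      v ⟨(saSimT hg τ).h X.1, hsimnil X⟩ := fun X =>
    grpp1_th D hg τ X ⟨(saSimT hg τ).h X.1, hsimnil X⟩ rfl
  obtain ⟨c', hc', hanti⟩ := hSym τ (simK hg τ) ((hstab _).2 (grpp1_simC_tauk hg τ))
    (fun g hgY => gp_thG τ P g hgY) (by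
      intro g hgY hg' hpi
      have h1 := (grpp1Pi_one D hg ⟨g, hgY⟩).1 hpi
      let X : SAP B P := toX ⟨g, hgY, hpi⟩
      have h2 : g = v X := h1
      have h3 : (gC B).act (1, simK hg τ) (thG τ g) =
          v ⟨(saSimT hg τ).h X.1, hsimnil X⟩ := by
        rw [← hthv X, ← h2]
        show (1 : GV E V) * thG τ g * (simK hg τ).1⁻¹ = _
        rw [one_mul]
      have h4 := hvpi ⟨(saSimT hg τ).h X.1, hsimnil X⟩
      have h5 : (⟨_, hg'⟩ : GP B P) = ⟨v ⟨(saSimT hg τ).h X.1, hsimnil X⟩, hv _⟩ :=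
        Subtype.ext h3
      rw [h5]
      exact h4)
    (by
      intro γ hγ
      rw [hstab] at hγ ⊢
      show simC hg (tauU τ ((simK hg τ)⁻¹ * γ.2 * simK hg τ)) = tauU τ γ.1
      rw [← hγ]
      exact grpp1_clos hg τ γ.1)
  have ha : ∀ f : SF (SA B) (SF V ℂ),
      S1 (SF.opr (saSimT hg τ).h (tneg F τ ∘ₗ W.r (simK hg τ)⁻¹) f) = -(c' : ℂ) * S1 f := by
    intro f
    obtain ⟨G, hG⟩ := hex f
    rw [key f G hG, ← hanti G]
    apply key
    intro X
    show tneg F τ (W.l 1 (W.r (simK hg τ)⁻¹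
      (G ((1 : UU B).1⁻¹ * thG τ (v X) * ((simK hg τ)⁻¹ : UU B).1)))) =
      tneg F τ (W.r (simK hg τ)⁻¹ (f ((saSimT hg τ).h X.1)))
    have h1 : (1 : UU B).1⁻¹ * thG τ (v X) * ((simK hg τ)⁻¹ : UU B).1 =
        v ⟨(saSimT hg τ).h X.1, hsimnil X⟩ := by
      rw [← hthv X]
      show (1 : GV E V)⁻¹ * thG τ (v X) * (simK hg τ).1⁻¹ = _
      rw [inv_one, one_mul]
    rw [h1, hG, map_one]
    rfl
  refine ⟨S1, fun h => hS0 ?_, ?_, hi, ?_⟩
  · apply LinearMap.ext
    intro G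
    obtain ⟨f, hf⟩ := restr_surjective (SAP B P) hN0c (SF.comp e.symm (SF.restr Z hZc G))
    have h1 : ∀ X : SAP B P, G (v X) = f X.1 := by
      intro X
      have h2 := congrArg (fun H : SF (SAP B P) (SF V ℂ) => H X) hf
      exact h2.symm
    rw [← key f G h1, h]
    rfl
  · intro f hf
    have h1 : SF.restr (SAP B P) hN0c f = 0 := by
      apply SF.ext
      intro X
      exact hf X.1 X.2
    show SZ (SF.comp e (SF.restr (SAP B P) hN0c f)) = 0
    rw [h1, map_zero, map_zero]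
  · by_cases hS10 : S1 = 0
    · intro f
      rw [hS10, LinearMap.zero_apply, LinearMap.zero_apply, neg_zero]
    · obtain ⟨f, hf⟩ : ∃ f, S1 f ≠ 0 := by
        by_contra h
        push Not at h
        exact hS10 (LinearMap.ext h)
      -- the square
      have hsq : ∀ f : SF (SA B) (SF V ℂ), SF.opr (saSimT hg τ).h
          (tneg F τ ∘ₗ W.r (simK hg τ)⁻¹) (SF.opr (saSimT hg τ).h
          (tneg F τ ∘ₗ W.r (simK hg τ)⁻¹) f) =
          SF.opr (saConjT B ((tauU τ (simK hg τ))⁻¹)⁻¹).h (W.l (tauU τ (simK hg τ))⁻¹ ∘ₗ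
            W.r (simC hg (tauU τ (simK hg τ))⁻¹)) f := by
        intro f
        apply SF.ext
        intro X
        have htr : ∀ (h : UU B) (φ : SF V ℂ), tneg F τ (W.r h φ) =
            W.l (tauU τ h) (tneg F τ φ) := fun h φ =>
          congrArg (fun R : SF V ℂ →ₗ[ℂ] SF V ℂ => R φ) (tneg_r W τ h)
        have htinv : tauU τ (simK hg τ)⁻¹ = (tauU τ (simK hg τ))⁻¹ := by
          have h1 : tauU τ (simK hg τ)⁻¹ * tauU τ (simK hg τ) = 1 := by
            rw [← tauU_mul, inv_mul_cancel]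
            apply Subtype.ext
            apply Units.ext
            exact conjτ_one τ
          exact eq_inv_of_mul_eq_one_left h1
        have hXX : (saSimT hg τ).h ((saSimT hg τ).h X) =
            (saConjT B ((tauU τ (simK hg τ))⁻¹)⁻¹).h X := by
          obtain ⟨z, hz1, hz2, hz3, hz4⟩ := grpp1_q hg τ
          apply Subtype.ext
          rw [inv_inv]
          show (thG τ g₀).1 * conjτ τ ((thG τ g₀).1 * conjτ τ X.1 * (thG τ g₀)⁻¹.1) *
            (thG τ g₀)⁻¹.1 = (tauU τ (simK hg τ)).1.1 * X.1 * (tauU τ (simK hg τ)).1⁻¹.1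
          rw [conjτ_mul, conjτ_mul, conjτ_conjτ, grpp1_tauk]
          have h2 : grpp1T τ (thG τ g₀) = z * g₀⁻¹ := by
            rw [hz1, map_mul, map_inv, hz3, grpp1T_T]
          have h3 : thG τ g₀ * grpp1T τ (thG τ g₀) = z * (thG τ g₀ * g₀⁻¹) := by
            rw [h2, ← mul_assoc, ← hz2, mul_assoc]
          have h4 : (grpp1T τ (thG τ g₀))⁻¹ * (thG τ g₀)⁻¹ = (thG τ g₀ * g₀⁻¹)⁻¹ * z⁻¹ := by
            rw [← mul_inv_rev, h3, mul_inv_rev]
          have h5 : (thG τ g₀).1 * (conjτ τ (thG τ g₀).1 * X.1 * conjτ τ (thG τ g₀)⁻¹.1) *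
              (thG τ g₀)⁻¹.1 = (thG τ g₀ * grpp1T τ (thG τ g₀)).1 * X.1 *
                ((grpp1T τ (thG τ g₀))⁻¹ * (thG τ g₀)⁻¹).1 := by
            show _ = (thG τ g₀).1 * conjτ τ (thG τ g₀).1 * X.1 *
              (conjτ τ (thG τ g₀)⁻¹.1 * (thG τ g₀)⁻¹.1)
            simp only [mul_assoc]
          rw [h5, h3, h4]
          have hzc : z.1 * z⁻¹.1 = 1 := z.mul_inv
          show z.1 * (thG τ g₀ * g₀⁻¹).1 * X.1 * ((thG τ g₀ * g₀⁻¹)⁻¹.1 * z⁻¹.1) = _
          rw [mul_assoc z.1, hz4, mul_assoc _ z.1, ← mul_assoc z.1 _ z⁻¹.1, hz4 _, mul_assoc _ z.1,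
            hzc, mul_one]
        show tneg F τ (W.r (simK hg τ)⁻¹ (tneg F τ (W.r (simK hg τ)⁻¹
          (f ((saSimT hg τ).h ((saSimT hg τ).h X)))))) =
          W.l (tauU τ (simK hg τ))⁻¹ (W.r (simC hg (tauU τ (simK hg τ))⁻¹)
            (f ((saConjT B ((tauU τ (simK hg τ))⁻¹)⁻¹).h X)))
        rw [hXX, htr, tneg_tneg, htinv, map_inv (simC hg), grpp1_simC_tauk]
      have h1 := hi (tauU τ (simK hg τ))⁻¹ f
      rw [← hsq, ha, ha] at h1
      have h2 : (c' : ℂ) * c' = 1 := by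
        refine mul_right_cancel₀ hf ?_
        rw [one_mul]
        linear_combination h1
      have h3 : c' * c' = 1 := by exact_mod_cast h2
      have h4 : c' = 1 := by nlinarith
      intro f
      rw [ha, h4, Complex.ofReal_one, neg_one_mul]

end

end Pool.Agent.Work.MP_dd0ddf_al.OC
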