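import Pool.Agent.Work.MP_dd0ddf_al.OC.JDefs
import Pool.Agent.Work.MP_dd0ddf_al.OC.WfLR
import Pool.Agent.Work.MP_dd0ddf_al.OC.SFCurry

/-!
# MP_dd0ddf_al, module JMap: properties of the integration map J

`jMap_L`: for `v = v1 + y0 ∈ Y^⊥`: `J(L_v f)(w) = ∫_Y ψ(½om(v, w+y)) f(w + y - v) dy`, `om(v, w + y) = om(v1, w)` (Y isotropic, V1 ⟂ Y), translation invariance (hI_trans).
`jMap_surjective`: for `g ∈ SF V1` and `N` a compact open subset of Y, extend `(w, y) ↦ g(w) 1_N(y)` from the closed subset V1 + Y to V (closed embedding `V1 × Y → V`, SF.pull_surjective): J of it is `vol(N) g`.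
`jMap_factor`: P L_y = P = P R_y.  Then `P (ψ(om(y, ·)) f) = P f` (L_y R_{-y} = multiplication by ψ(om(y, v))) for y ∈ Y, and `P (f(· - y)) = P f` (L_{y/2} R_{y/2}).  (i) if `f` vanishes on Y^⊥ then `P f = 0`: locally near v ∉ Y^⊥ there is y ∈ Y with ψ(om(y, v)) ≠ 1, and f supported in a
small neighbourhood of v is `(ψ(om(y,v)) - 1)⁻¹ (ψ(om(y,·)) - 1) f` (vanish_local).  (ii) so P factors through the restriction to Y^⊥ ≅ V1 × Y; curry to SF V1 (SF Y ℂ); for boxes `g ⊗ k`, translation invariance in y and hI_unique (for fixed g): P(g ⊗ k) = P'(g) ∫k.  So if `J f = 0` then `P f = 0`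
(alternatively: functions on V1 × Y with ∫_Y = 0 fibrewise are sums of functions u(· - y) - u, y ∈ Y).  Then P factors through J (surjective).
`jMap_geo`: substitution by the automorphism `h⁻¹|_Y` of Y (hI_comp_aut) and translation.
`jMap_tens`: Y ⊆ V1^⊥.
-/

set_option linter.unusedSectionVars false
set_option linter.style.haveILetI false

namespace Pool.Agent.Work.MP_dd0ddf_al.OC

noncomputable section

universe u

variable {F E : Type u} [NontriviallyNormedField F] [IsUltrametricDist F] [ProperSpace F]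
  [NeZero (2 : F)] [NontriviallyNormedField E] [NormedAlgebra F E] [ProperSpace E] [StarRing E]
  [QExt F E]
variable {V : Type u} [AddCommGroup V] [Module E V] [Module.Finite E V] [TopologicalSpace V]
  [IsTopologicalAddGroup V] [T2Space V] [ContinuousSMul E V]

private theorem jm_om_Y {B : SkewH E V} (D : IsoD B) {v y : V} (hv : v ∈ orth B D.Y)
    (hy : y ∈ D.Y) : om F B v y = 0 := by
  unfold om
  rw [hv y hy, map_zero]

private theorem jm_om_Y' {B : SkewH E V} (D : IsoD B) {v y : V} (hv : v ∈ orth B D.Y)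
    (hy : y ∈ D.Y) : om F B y v = 0 := by
  rw [om_swap (F := F) B v y, jm_om_Y D hv hy, neg_zero]

private theorem jm_Y_le {B : SkewH E V} (D : IsoD B) {y : V} (hy : y ∈ D.Y) :
    y ∈ orth B D.Y := fun y' hy' => D.iso y hy y' hy'

/-- `om(v, w + y) = om(pr v, w)` -/
private theorem jm_om {B : SkewH E V} (D : IsoD B) {v : V} (hv : v ∈ orth B D.Y) (w : D.V1)
    (y : D.Y) : om F B v ((w : V) + (y : V)) = om F B (prO B D.V1 D.nd v) (w : V) := by
  have h1 : om F B v (w : V) = om F B (prO B D.V1 D.nd v + (v - prO B D.V1 D.nd v)) (w : V) := by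
    rw [add_sub_cancel]
  rw [om_add_right, jm_om_Y D hv y.2, add_zero, h1, om_add_left,
    jm_om_Y' D (D.V1_le w.2) (D.sub_pr hv), add_zero]

private theorem jm_om' {B : SkewH E V} (D : IsoD B) {v : V} (hv : v ∈ orth B D.Y) (w : D.V1)
    (y : D.Y) : om F B ((w : V) + (y : V)) v = om F B (w : V) (prO B D.V1 D.nd v) := by
  rw [om_swap (F := F) B v, jm_om D hv, ← om_swap]

theorem jMap_L {B : SkewH E V} (D : IsoD B) (p : PChar F) (v : V) (hv : v ∈ orth B D.Y)
    (f : SF V ℂ) : jMap F D (Lop B p v f) =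
      Lop (B.restrict D.V1 D.nd) p ⟨prO B D.V1 D.nd v, prO_mem B D.V1 D.nd v⟩ (jMap F D f) := by
  haveI := lc_V E D.Y
  haveI := td_V F E D.Y
  apply SF.ext
  intro w
  set v1 : D.V1 := ⟨prO B D.V1 D.nd v, prO_mem B D.V1 D.nd v⟩ with hv1
  set y0 : D.Y := ⟨v - prO B D.V1 D.nd v, D.sub_pr hv⟩ with hy0
  show hI (SF.pull (fun y : D.Y => (w : V) + (y : V)) (emb_Y D w) (Lop B p v f)) =
    p.ψ (2⁻¹ * om F B (v1 : V) (w : V)) *
      hI (SF.pull (fun y : D.Y => ((w - v1 : D.V1) : V) + (y : V)) (emb_Y D _) f)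
  have h1 : SF.pull (fun y : D.Y => (w : V) + (y : V)) (emb_Y D w) (Lop B p v f) =
      p.ψ (2⁻¹ * om F B (v1 : V) (w : V)) • SF.comp (Homeomorph.addRight (-y0))
        (SF.pull (fun y : D.Y => ((w - v1 : D.V1) : V) + (y : V)) (emb_Y D _) f) := by
    apply SF.ext
    intro y
    show p.ψ (2⁻¹ * om F B v ((w : V) + (y : V))) * f ((w : V) + (y : V) - v) =
      p.ψ (2⁻¹ * om F B (v1 : V) (w : V)) *
        f (((w : V) - (v1 : V)) + ((y : V) + (-(y0 : V))))
    rw [jm_om D hv]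
    congr 1
    refine congrArg f.1 ?_
    rw [hy0, hv1]
    show (w : V) + (y : V) - v = ((w : V) - prO B D.V1 D.nd v) +
      ((y : V) + -(v - prO B D.V1 D.nd v))
    abel
  rw [h1, map_smul, hI_trans, smul_eq_mul]

theorem jMap_R {B : SkewH E V} (D : IsoD B) (p : PChar F) (v : V) (hv : v ∈ orth B D.Y)
    (f : SF V ℂ) : jMap F D (Rop B p v f) =
      Rop (B.restrict D.V1 D.nd) p ⟨prO B D.V1 D.nd v, prO_mem B D.V1 D.nd v⟩ (jMap F D f) := by
  haveI := lc_V E D.Y
  haveI := td_V F E D.Y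
  apply SF.ext
  intro w
  set v1 : D.V1 := ⟨prO B D.V1 D.nd v, prO_mem B D.V1 D.nd v⟩ with hv1
  set y0 : D.Y := ⟨v - prO B D.V1 D.nd v, D.sub_pr hv⟩ with hy0
  show hI (SF.pull (fun y : D.Y => (w : V) + (y : V)) (emb_Y D w) (Rop B p v f)) =
    p.ψ (2⁻¹ * om F B (w : V) (v1 : V)) *
      hI (SF.pull (fun y : D.Y => ((w - v1 : D.V1) : V) + (y : V)) (emb_Y D _) f)
  have h1 : SF.pull (fun y : D.Y => (w : V) + (y : V)) (emb_Y D w) (Rop B p v f) =
      p.ψ (2⁻¹ * om F B (w : V) (v1 : V)) • SF.comp (Homeomorph.addRight (-y0))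
        (SF.pull (fun y : D.Y => ((w - v1 : D.V1) : V) + (y : V)) (emb_Y D _) f) := by
    apply SF.ext
    intro y
    show p.ψ (2⁻¹ * om F B ((w : V) + (y : V)) v) * f ((w : V) + (y : V) - v) =
      p.ψ (2⁻¹ * om F B (w : V) (v1 : V)) *
        f (((w : V) - (v1 : V)) + ((y : V) + (-(y0 : V))))
    rw [jm_om' D hv]
    congr 1
    refine congrArg f.1 ?_
    rw [hy0, hv1]
    show (w : V) + (y : V) - v = ((w : V) - prO B D.V1 D.nd v) +
      ((y : V) + -(v - prO B D.V1 D.nd v))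
    abel
  rw [h1, map_smul, hI_trans, smul_eq_mul]

/-- the closed embedding `(y, w) ↦ w + y` -/
private theorem jm_emb {B : SkewH E V} (D : IsoD B) :
    Topology.IsClosedEmbedding (fun q : D.Y × D.V1 => (q.2 : V) + (q.1 : V)) := by
  let L : (D.Y × D.V1) →ₗ[E] V := D.Y.subtype.coprod D.V1.subtype
  have hL : LinearMap.ker L = ⊥ := by
    rw [LinearMap.ker_eq_bot']
    rintro ⟨y, w⟩ h
    have h1 : (y : V) + (w : V) = 0 := h
    have h2 := congrArg (prO B D.V1 D.nd) h1
    rw [map_add, D.pr_Y y.2, prO_of_mem B D.V1 D.nd w.2, map_zero, zero_add] at h2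
    rw [h2, add_zero] at h1
    exact Prod.ext (Subtype.ext h1) (Subtype.ext h2)
  have h3 := LinearMap.isClosedEmbedding_of_injective hL
  have h4 : (fun q : D.Y × D.V1 => (q.2 : V) + (q.1 : V)) = L := by
    funext q
    exact add_comm _ _
  rw [h4]
  exact h3

/-- `f ↦ (y ↦ (w ↦ f (w + y)))` -/
private def jmS {B : SkewH E V} (D : IsoD B) (hY : LocallyCompactSpace D.Y)
    (hY' : TotallyDisconnectedSpace D.Y) (hV : LocallyCompactSpace D.V1)
    (hV' : TotallyDisconnectedSpace D.V1) : SF V ℂ →ₗ[ℂ] SF D.Y (SF D.V1 ℂ) :=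
  SF.curry ∘ₗ SF.pull (fun q : D.Y × D.V1 => (q.2 : V) + (q.1 : V)) (jm_emb D)

variable (F) in
include F in
private theorem jm_J {B : SkewH E V} (D : IsoD B) (hY : LocallyCompactSpace D.Y)
    (hY' : TotallyDisconnectedSpace D.Y) (hV : LocallyCompactSpace D.V1)
    (hV' : TotallyDisconnectedSpace D.V1) (f : SF V ℂ) :
    jMap F D f = hI (jmS D hY hY' hV hV' f) := by
  apply SF.ext
  intro w
  let ev : SF D.V1 ℂ →ₗ[ℂ] ℂ :=
    { toFun := fun g => g w
      map_add' := fun _ _ => rfl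
      map_smul' := fun _ _ => rfl }
  have h1 := hI_map ev (jmS D hY hY' hV hV' f)
  show hI (SF.pull (fun y : D.Y => (w : V) + (y : V)) (emb_Y D w) f) =
    ev (hI (jmS D hY hY' hV hV' f))
  rw [← h1]
  rfl

variable (F) in
include F in
private theorem jm_S_surj {B : SkewH E V} (D : IsoD B) (hY : LocallyCompactSpace D.Y)
    (hY' : TotallyDisconnectedSpace D.Y) (hV : LocallyCompactSpace D.V1)
    (hV' : TotallyDisconnectedSpace D.V1) : Function.Surjective (jmS D hY hY' hV hV') := by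
  haveI := lc_V E V
  haveI := td_V F E V
  exact SF.curry_bijective.2.comp (SF.pull_surjective _ (jm_emb D))

private theorem jm_Sapp {B : SkewH E V} (D : IsoD B) (hY : LocallyCompactSpace D.Y)
    (hY' : TotallyDisconnectedSpace D.Y) (hV : LocallyCompactSpace D.V1)
    (hV' : TotallyDisconnectedSpace D.V1) (f : SF V ℂ) (y : D.Y) (w : D.V1) :
    (jmS D hY hY' hV hV' f y) w = f ((w : V) + (y : V)) := rfl

private theorem jm_Str {B : SkewH E V} (D : IsoD B) (hY : LocallyCompactSpace D.Y)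
    (hY' : TotallyDisconnectedSpace D.Y) (hV : LocallyCompactSpace D.V1)
    (hV' : TotallyDisconnectedSpace D.V1) (f : SF V ℂ) (a : D.Y) :
    SF.comp (Homeomorph.addRight a) (jmS D hY hY' hV hV' f) =
      jmS D hY hY' hV hV' (SF.comp (Homeomorph.subRight (-(a : V))) f) := by
  apply SF.ext
  intro y
  apply SF.ext
  intro w
  show f ((w : V) + ((y : V) + (a : V))) = f ((w : V) + (y : V) - -(a : V))
  rw [sub_neg_eq_add, add_assoc]

private theorem jm_fac {A C M : Type*} [AddCommGroup A] [Module ℂ A] [AddCommGroup C]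
    [Module ℂ C] [AddCommGroup M] [Module ℂ M] (S : A →ₗ[ℂ] C) (hS : Function.Surjective S)
    (P : A →ₗ[ℂ] M) (hker : ∀ a, S a = 0 → P a = 0) :
    ∃ T : C →ₗ[ℂ] M, ∀ a, T (S a) = P a := by
  have hker' : LinearMap.ker S ≤ LinearMap.ker P := fun f hf => hker f hf
  refine ⟨(LinearMap.ker S).liftQ P hker' ∘ₗ
    (S.quotKerEquivOfSurjective hS).symm.toLinearMap, fun a => ?_⟩
  have h1 : (S.quotKerEquivOfSurjective hS).symm (S a) = Submodule.Quotient.mk a := by
    rw [LinearEquiv.symm_apply_eq]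
    rfl
  show (LinearMap.ker S).liftQ P hker' ((S.quotKerEquivOfSurjective hS).symm (S a)) = P a
  rw [h1]
  rfl

theorem jMap_surjective {B : SkewH E V} (D : IsoD B) :
    Function.Surjective (jMap F D : SF V ℂ → SF D.V1 ℂ) := by
  haveI hY := lc_V E D.Y
  haveI hY' := td_V F E D.Y
  haveI hV := lc_V E D.V1
  haveI hV' := td_V F E D.V1
  intro g
  obtain ⟨N, hN, hN', h0, -⟩ := exists_compact_open (0 : D.Y) Set.univ isOpen_univ (Set.mem_univ _)
  have hpos : 0 < hvol N := hvol_pos N hN hN' ⟨0, h0⟩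
  have hne : (hvol N : ℂ) ≠ 0 := by
    rw [Ne, Complex.ofReal_eq_zero]
    exact hpos.ne'
  obtain ⟨f, hf⟩ := jm_S_surj F D hY hY' hV hV' (SF.single N hN hN' ((hvol N : ℂ)⁻¹ • g))
  refine ⟨f, ?_⟩
  rw [jm_J F D hY hY' hV hV', hf, hI_single, smul_smul, mul_inv_cancel₀ hne, one_smul]

private theorem jm_half (F : Type u) [Field F] [NeZero (2 : F)] : (2⁻¹ : F) + 2⁻¹ = 1 := by
  rw [← two_mul, mul_inv_cancel₀ two_ne_zero]

private theorem jm_psi_zero (p : PChar F) : p.ψ 0 = 1 := by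
  have h := p.add 0 0
  rw [add_zero] at h
  have hn : p.ψ 0 ≠ 0 := by
    intro h0
    have := p.norm_one 0
    rw [h0, norm_zero] at this
    exact zero_ne_one this
  exact (mul_right_cancel₀ hn (by rw [one_mul]; exact h)).symm

private theorem jm_zero (B : SkewH E V) (x : V) : om F B x 0 = 0 := by
  have h := om_add_right (F := F) B x 0 0
  rw [add_zero] at h
  exact left_eq_add.1 h

private theorem jm_neg (B : SkewH E V) (x y : V) : om F B x (-y) = - om F B x y := by
  have h := om_add_right (F := F) B x y (-y)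
  rw [add_neg_cancel, jm_zero] at h
  linear_combination -h

private theorem jm_self (B : SkewH E V) (x : V) : om F B x x = 0 := by
  have h := om_swap (F := F) B x x
  have h2 : (2 : F) * om F B x x = 0 := by linear_combination h
  exact (mul_eq_zero.1 h2).resolve_left two_ne_zero

/-- `L_y R_{-y}` is the multiplication by `ψ(om(y, ·))` -/
private theorem jm_mod (B : SkewH E V) (p : PChar F) (y : V) (f : SF V ℂ) :
    Lop B p y (Rop B p (-y) f) = SF.mulc (fun v => p.ψ (om F B y v))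
      (p.lc.comp_continuous (continuous_om_right B y)) f := by
  apply SF.ext
  intro v
  show p.ψ (2⁻¹ * om F B y v) * (p.ψ (2⁻¹ * om F B (v - y) (-y)) * f (v - y - (-y))) =
    p.ψ (om F B y v) * f v
  rw [← mul_assoc, ← p.add, sub_neg_eq_add, sub_add_cancel]
  congr 2
  have h1 : om F B (v - y) (-y) = om F B y v := by
    have h2 : om F B (v - y) (-y) = om F B v (-y) + om F B (-y) (-y) := by
      rw [← om_add_left, ← sub_eq_add_neg]
    rw [h2, jm_self, add_zero, jm_neg, om_swap (F := F) B v y]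
  rw [h1, ← add_mul, jm_half, one_mul]

/-- `L_{y/2} R_{y/2}` is a translation -/
private theorem jm_tr (B : SkewH E V) (p : PChar F) (y : V) (f : SF V ℂ) :
    Lop B p y (Rop B p y f) = SF.comp (Homeomorph.subRight (y + y)) f := by
  apply SF.ext
  intro v
  show p.ψ (2⁻¹ * om F B y v) * (p.ψ (2⁻¹ * om F B (v - y) y) * f (v - y - y)) =
    f (v - (y + y))
  rw [← mul_assoc, ← p.add, sub_sub]
  have h1 : om F B (v - y) y = - om F B y v := by
    have h2 : om F B (v - y) y + om F B y y = om F B v y := by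
      rw [← om_add_left, sub_add_cancel]
    rw [jm_self, add_zero] at h2
    rw [h2, om_swap (F := F) B y v]
  rw [h1, mul_neg, add_neg_cancel, jm_psi_zero, one_mul]

private theorem jm_sep {B : SkewH E V} (D : IsoD B) (p : PChar F) {v : V}
    (hv : v ∉ orth B D.Y) : ∃ y ∈ D.Y, p.ψ (om F B y v) ≠ 1 := by
  haveI : FiniteDimensional F E := qext_findim F E
  have h1 : ∃ y ∈ D.Y, B.ip v y ≠ 0 := by
    by_contra hcon
    push Not at hcon
    exact hv hcon
  obtain ⟨y, hy, hyv⟩ := h1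
  have h2 : B.ip y v ≠ 0 := by
    intro h
    apply hyv
    rw [B.skew y v, h, star_zero, neg_zero]
  obtain ⟨x0, hx0⟩ := p.nontriv
  haveI : Algebra.IsSeparable F E := qext_sep F E
  obtain ⟨e, he⟩ := Algebra.trace_surjective F E x0
  refine ⟨(e * (B.ip y v)⁻¹) • y, D.Y.smul_mem _ hy, ?_⟩
  have h3 : om F B ((e * (B.ip y v)⁻¹) • y) v = x0 := by
    unfold om
    rw [B.smul_left, mul_assoc, inv_mul_cancel₀ h2, mul_one, he]
  rw [h3]
  exact hx0

theorem jMap_factor {B : SkewH E V} (D : IsoD B) (p : PChar F) {M : Type*} [AddCommGroup M]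
    [Module ℂ M] (P : SF V ℂ →ₗ[ℂ] M) (hL : ∀ y ∈ D.Y, ∀ f, P (Lop B p y f) = P f)
    (hR : ∀ y ∈ D.Y, ∀ f, P (Rop B p y f) = P f) :
    ∃ P1 : SF D.V1 ℂ →ₗ[ℂ] M, ∀ f, P f = P1 (jMap F D f) := by
  haveI := lc_V E V
  haveI := td_V F E V
  haveI hY := lc_V E D.Y
  haveI hY' := td_V F E D.Y
  haveI hV := lc_V E D.V1
  haveI hV' := td_V F E D.V1
  -- (i) `P` vanishes on functions vanishing on `Y^⊥`
  have hi : ∀ f : SF V ℂ, (∀ v ∈ orth B D.Y, f v = 0) → P f = 0 := by
    intro f hf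
    apply vanish_local
    intro v hfv
    have hv : v ∉ orth B D.Y := fun h => hfv (hf v h)
    obtain ⟨y, hy, hyv⟩ := jm_sep D p hv
    have hlc : IsLocallyConstant (fun z => p.ψ (om F B y z)) :=
      p.lc.comp_continuous (continuous_om_right B y)
    refine ⟨{z | p.ψ (om F B y z) = p.ψ (om F B y v)}, hlc {p.ψ (om F B y v)}, rfl, ?_⟩
    intro g hg
    have h1 : SF.mulc (fun z => p.ψ (om F B y z)) hlc g = p.ψ (om F B y v) • g := by
      apply SF.ext
      intro z
      show p.ψ (om F B y z) • g z = p.ψ (om F B y v) • g z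
      by_cases hz : p.ψ (om F B y z) = p.ψ (om F B y v)
      · rw [hz]
      · rw [hg z hz, smul_zero, smul_zero]
    have h2 : P (SF.mulc (fun z => p.ψ (om F B y z)) hlc g) = P g := by
      rw [← jm_mod B p y g, hL y hy, hR (-y) (D.Y.neg_mem hy)]
    rw [h1, map_smul] at h2
    have h3 : (p.ψ (om F B y v) - 1) • P g = 0 := by
      rw [sub_smul, one_smul, h2, sub_self]
    exact (smul_eq_zero.1 h3).resolve_left (sub_ne_zero.2 hyv)
  -- translations
  have hT0 : ∀ y ∈ D.Y, ∀ f, P (SF.comp (Homeomorph.subRight y) f) = P f := by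
    intro y hy f
    have h1 : (algebraMap F E 2⁻¹ • y) + (algebraMap F E 2⁻¹ • y) = y := by
      rw [← add_smul, ← map_add, jm_half, map_one, one_smul]
    have h2 := jm_tr B p (algebraMap F E 2⁻¹ • y) f
    rw [h1] at h2
    rw [← h2, hL _ (D.Y.smul_mem _ hy), hR _ (D.Y.smul_mem _ hy)]
  have hker : ∀ f, jmS D hY hY' hV hV' f = 0 → P f = 0 := by
    intro f hf
    apply hi
    intro v hv
    have h1 : (v : V) = ((⟨prO B D.V1 D.nd v, prO_mem B D.V1 D.nd v⟩ : D.V1) : V) +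
        ((⟨v - prO B D.V1 D.nd v, D.sub_pr hv⟩ : D.Y) : V) := by
      show v = prO B D.V1 D.nd v + (v - prO B D.V1 D.nd v)
      abel
    rw [h1, ← jm_Sapp D hY hY' hV hV', hf]
    rfl
  have hsurj := jm_S_surj F D hY hY' hV hV'
  obtain ⟨T, hT⟩ := jm_fac (A := SF V ℂ) (C := SF D.Y (SF D.V1 ℂ)) (M := M)
    (jmS D hY hY' hV hV') hsurj P hker
  obtain ⟨φ, hφ⟩ := hI_unique T (by
    intro a g
    obtain ⟨f, rfl⟩ := jm_S_surj F D hY hY' hV hV' g
    rw [jm_Str, hT, hT, hT0 _ (D.Y.neg_mem a.2)])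
  refine ⟨φ, fun f => ?_⟩
  rw [jm_J F D hY hY' hV hV', ← hφ, hT]

/-- `h⁻¹` restricted to `Y` -/
private def jmAut {B : SkewH E V} (D : IsoD B) (h : stabY D) : TAut D.Y where
  h :=
    { toFun := fun y => ⟨h⁻¹.1.1.1 (y : V), (h⁻¹.2 _).2 y.2⟩
      invFun := fun y => ⟨h.1.1.1 (y : V), (h.2 _).2 y.2⟩
      left_inv := fun y => Subtype.ext
        (congrArg (fun f : Module.End E V => f (y : V)) h.1.1.mul_inv)
      right_inv := fun y => Subtype.ext
        (congrArg (fun f : Module.End E V => f (y : V)) h.1.1.inv_mul)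
      continuous_toFun := by
        refine Continuous.subtype_mk ?_ _
        exact (LinearMap.continuous_of_finiteDimensional h⁻¹.1.1.1).comp continuous_subtype_val
      continuous_invFun := by
        refine Continuous.subtype_mk ?_ _
        exact (LinearMap.continuous_of_finiteDimensional h.1.1.1).comp continuous_subtype_val }
  add x y := Subtype.ext (map_add h⁻¹.1.1.1 (x : V) (y : V))

theorem jMap_geo {B : SkewH E V} (D : IsoD B) (h : stabY D) :
    ∃ c : ℝ, 0 < c ∧ ∀ f : SF V ℂ,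
      jMap F D (geo h.1.1 f) = (c : ℂ) • geo (indY D h).1 (jMap F D f) := by
  haveI hY := lc_V E D.Y
  haveI hY' := td_V F E D.Y
  refine ⟨hmod (jmAut D h), hmod_pos _, fun f => ?_⟩
  apply SF.ext
  intro w
  have hw : h⁻¹.1.1.1 (w : V) ∈ orth B D.Y := stabY_orth D h⁻¹ (D.V1_le w.2)
  set y1 : D.Y := ⟨h⁻¹.1.1.1 (w : V) - prO B D.V1 D.nd (h⁻¹.1.1.1 (w : V)), D.sub_pr hw⟩ with hy1
  set w' : D.V1 := (indY D h).1⁻¹.1 w with hw'
  have hw1 : (w' : V) = prO B D.V1 D.nd (h⁻¹.1.1.1 (w : V)) := by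
    have h1 := indY_apply D h⁻¹ w
    rw [map_inv] at h1
    exact h1
  show hI (SF.pull (fun y : D.Y => (w : V) + (y : V)) (emb_Y D w) (geo h.1.1 f)) =
    (hmod (jmAut D h) : ℂ) *
      hI (SF.pull (fun y : D.Y => (w' : V) + (y : V)) (emb_Y D w') f)
  have h1 : SF.pull (fun y : D.Y => (w : V) + (y : V)) (emb_Y D w) (geo h.1.1 f) =
      SF.comp (jmAut D h).h (SF.comp (Homeomorph.addRight y1)
        (SF.pull (fun y : D.Y => (w' : V) + (y : V)) (emb_Y D w') f)) := by
    apply SF.ext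
    intro y
    show f (h⁻¹.1.1.1 ((w : V) + (y : V))) = f ((w' : V) + (h⁻¹.1.1.1 (y : V) + (y1 : V)))
    refine congrArg f.1 ?_
    rw [map_add, hw1, hy1]
    show _ = prO B D.V1 D.nd (h⁻¹.1.1.1 (w : V)) + (h⁻¹.1.1.1 (y : V) +
      (h⁻¹.1.1.1 (w : V) - prO B D.V1 D.nd (h⁻¹.1.1.1 (w : V))))
    abel
  rw [h1, hI_comp_aut, hI_trans, smul_eq_mul]

theorem jMap_tens [MeasurableSpace E] [BorelSpace E] {B : SkewH E V} (D : IsoD B) : ∃ I2 : SF (orth B D.V1) ℂ →ₗ[ℂ] ℂ,
    ∀ (f1 : SF D.V1 ℂ) (f2 : SF (orth B D.V1) ℂ),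
      jMap F D (tens B D.V1 D.nd f1 f2) = I2 f2 • f1 := by
  haveI hY := lc_V E D.Y
  haveI hY' := td_V F E D.Y
  have hle : D.Y ≤ orth B D.V1 := by
    intro y hy u hu
    have h1 := D.V1_le hu y hy
    rw [B.skew u y, h1, star_zero, neg_zero]
  have hemb : Topology.IsClosedEmbedding (Submodule.inclusion hle) :=
    LinearMap.isClosedEmbedding_of_injective
      (LinearMap.ker_eq_bot.2 (Submodule.inclusion_injective hle))
  refine ⟨hI ∘ₗ SF.pull (Submodule.inclusion hle) hemb, fun f1 f2 => ?_⟩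
  apply SF.ext
  intro w
  show hI (SF.pull (fun y : D.Y => (w : V) + (y : V)) (emb_Y D w) (tens B D.V1 D.nd f1 f2)) =
    hI (SF.pull (Submodule.inclusion hle) hemb f2) * f1 w
  have h1 : SF.pull (fun y : D.Y => (w : V) + (y : V)) (emb_Y D w) (tens B D.V1 D.nd f1 f2) =
      f1 w • SF.pull (Submodule.inclusion hle) hemb f2 := by
    apply SF.ext
    intro y
    have h2 : prO B D.V1 D.nd ((w : V) + (y : V)) = (w : V) := by
      rw [map_add, D.pr_Y y.2, prO_of_mem B D.V1 D.nd w.2, add_zero]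
    have h3 : (⟨prO B D.V1 D.nd ((w : V) + (y : V)), prO_mem B D.V1 D.nd _⟩ : D.V1) = w :=
      Subtype.ext h2
    have h4 : (⟨(w : V) + (y : V) - prO B D.V1 D.nd ((w : V) + (y : V)),
        sub_prO_mem B D.V1 D.nd _⟩ : orth B D.V1) = Submodule.inclusion hle y := by
      apply Subtype.ext
      show (w : V) + (y : V) - prO B D.V1 D.nd ((w : V) + (y : V)) = (y : V)
      rw [h2, add_sub_cancel_left]
    show tens B D.V1 D.nd f1 f2 ((w : V) + (y : V)) = f1 w * f2 (Submodule.inclusion hle y)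
    rw [wrsub_tens, h3, h4]
  rw [h1, map_smul, smul_eq_mul, mul_comm]

end

end Pool.Agent.Work.MP_dd0ddf_al.OC
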