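import Pool.Agent.Work.MP_dd0ddf_al.OC.Defs2
import Pool.Agent.Work.MP_dd0ddf_al.OC.NiMain
import Pool.Agent.Work.MP_dd0ddf_al.OC.BiOm
import Pool.Agent.Work.MP_dd0ddf_al.OC.NiE1

/-!
# MP_dd0ddf_al, module KDefs: compatible pairs of quadratic extensions E/F, L/K with K/F finite, L = K E
-/

set_option linter.unusedSectionVars false
set_option linter.style.haveILetI false

namespace Pool.Agent.Work.MP_dd0ddf_al.OC

noncomputable section

universe u

/-- compatible pair of quadratic extensions `E/F`, `L/K`, `K/F` finite, `[K:F] = [L:E]` -/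
class KCompat (F E K L : Type u) [NontriviallyNormedField F] [NontriviallyNormedField E]
    [NormedAlgebra F E] [StarRing E] [NontriviallyNormedField K] [NontriviallyNormedField L]
    [NormedAlgebra K L] [StarRing L] [NormedAlgebra F K] [NormedAlgebra E L] [Algebra F L] :
    Prop where
  tower1 : IsScalarTower F K L
  tower2 : IsScalarTower F E L
  star_comm : ∀ x : E, star (algebraMap E L x) = algebraMap E L (star x)
  fd : FiniteDimensional F K
  deg : Module.finrank F K = Module.finrank E L

/-! ### the functional `tk F K : K → F` replacing the trace (any retraction of `F → K`) -/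

theorem exists_tk (F K : Type u) [Field F] [Field K] [Algebra F K] :
    ∃ t : K →ₗ[F] F, ∀ x : F, t (algebraMap F K x) = x := by
  obtain ⟨g, hg⟩ := LinearMap.exists_leftInverse_of_injective (Algebra.linearMap F K)
    (LinearMap.ker_eq_bot.2 (algebraMap F K).injective)
  exact ⟨g, fun x => LinearMap.congr_fun hg x⟩

/-- a linear retraction of `F → K`, used in place of the trace `K → F` -/
def tk (F K : Type u) [Field F] [Field K] [Algebra F K] : K →ₗ[F] F := (exists_tk F K).choose

theorem tk_alg (F K : Type u) [Field F] [Field K] [Algebra F K] (x : F) :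
    tk F K (algebraMap F K x) = x := (exists_tk F K).choose_spec x

theorem tk_one (F K : Type u) [Field F] [Field K] [Algebra F K] : tk F K 1 = 1 := by
  have h := tk_alg F K 1
  rw [map_one] at h
  exact h

theorem tk_nondeg (F K : Type u) [Field F] [Field K] [Algebra F K] (x : K)
    (h : ∀ y, tk F K (y * x) = 0) : x = 0 := by
  by_contra h0
  have h1 := h x⁻¹
  rw [inv_mul_cancel₀ h0, tk_one] at h1
  exact one_ne_zero h1

/-- the Gram matrix of the form `tk (x y)` -/
def tkMatrix (F : Type u) {K : Type u} [Field F] [Field K] [Algebra F K] {ι : Type*} (c : ι → K) :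
    Matrix ι ι F := Matrix.of fun i j => tk F K (c i * c j)

theorem tkMatrix_apply (F : Type u) {K : Type u} [Field F] [Field K] [Algebra F K] {ι : Type*}
    (c : ι → K) (i j : ι) : tkMatrix F c i j = tk F K (c i * c j) := rfl

theorem tkMatrix_det_ne {F K : Type u} [Field F] [Field K] [Algebra F K] {ι : Type*} [Fintype ι]
    [DecidableEq ι] (c : Module.Basis ι F K) : (tkMatrix F c).det ≠ 0 := by
  intro h0
  obtain ⟨v, hv, hv0⟩ := Matrix.exists_mulVec_eq_zero_iff.mpr h0
  apply hv
  have h1 : ∀ i, tk F K (c i * ∑ j, v j • c j) = 0 := by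
    intro i
    have h2 : ∑ j, tkMatrix F c i j * v j = 0 := congrFun hv0 i
    rw [← h2, Finset.mul_sum, map_sum]
    refine Finset.sum_congr rfl fun j _ => ?_
    rw [mul_smul_comm, map_smul, smul_eq_mul, mul_comm, tkMatrix_apply]
  have h3 : (∑ j, v j • c j) = 0 := by
    apply tk_nondeg F K
    intro y
    have h4 : y = ∑ i, c.repr y i • c i := (c.sum_repr y).symm
    rw [h4, Finset.sum_mul, map_sum]
    refine Finset.sum_eq_zero fun i _ => ?_
    rw [smul_mul_assoc, map_smul, h1, smul_zero]
  funext i
  exact Fintype.linearIndependent_iff.1 c.linearIndependent v h3 i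

/-- the character `ψ ∘ tk` -/
def PChar.ext {F : Type u} (K : Type u) [NontriviallyNormedField F] [ProperSpace F] [NeZero (2 : F)]
    [NontriviallyNormedField K] [NormedAlgebra F K] [FiniteDimensional F K] (p : PChar F) :
    PChar K where
  ψ x := p.ψ (tk F K x)
  add x y := by rw [map_add, p.add]
  norm_one x := p.norm_one _
  lc := p.lc.comp_continuous (LinearMap.continuous_of_finiteDimensional (tk F K))
  nontriv := by
    obtain ⟨y, hy⟩ := p.nontriv
    exact ⟨algebraMap F K y, by rw [tk_alg]; exact hy⟩

section

variable {F E : Type u} [NontriviallyNormedField F] [IsUltrametricDist F] [ProperSpace F]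
  [NeZero (2 : F)] [NontriviallyNormedField E] [NormedAlgebra F E] [ProperSpace E] [StarRing E]
  [QExt F E]
variable {K L : Type u} [NontriviallyNormedField K] [IsUltrametricDist K] [ProperSpace K]
  [NeZero (2 : K)] [NontriviallyNormedField L] [NormedAlgebra K L] [ProperSpace L] [StarRing L]
  [QExt K L] [NormedAlgebra F K] [NormedAlgebra E L]
  [Algebra F L] [KCompat F E K L]

variable (F E K L) in
include F K in
private theorem kdefs_fdE : FiniteDimensional E L := by
  haveI := KCompat.tower1 (F := F) (E := E) (K := K) (L := L)
  haveI := KCompat.tower2 (F := F) (E := E) (K := K) (L := L)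
  haveI : FiniteDimensional F K := KCompat.fd (F := F) (E := E) (K := K) (L := L)
  haveI : FiniteDimensional K L := qext_findim K L
  haveI : FiniteDimensional F L := FiniteDimensional.trans F K L
  exact FiniteDimensional.right F E L

theorem kc_norm (x : L) : Algebra.norm F (Algebra.norm K x) =
    Algebra.norm F (Algebra.norm E x) := by
  haveI := KCompat.tower1 (F := F) (E := E) (K := K) (L := L)
  haveI := KCompat.tower2 (F := F) (E := E) (K := K) (L := L)
  haveI : FiniteDimensional F K := KCompat.fd (F := F) (E := E) (K := K) (L := L)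
  haveI : FiniteDimensional K L := qext_findim K L
  haveI : FiniteDimensional F E := qext_findim F E
  haveI : FiniteDimensional E L := kdefs_fdE F E K L
  rw [Algebra.norm_norm, Algebra.norm_norm]

variable (F E K L) in
private theorem kdefs_alg (f : F) : algebraMap E L (algebraMap F E f) =
    algebraMap K L (algebraMap F K f) := by
  haveI := KCompat.tower1 (F := F) (E := E) (K := K) (L := L)
  haveI := KCompat.tower2 (F := F) (E := E) (K := K) (L := L)
  rw [← IsScalarTower.algebraMap_apply F E L, ← IsScalarTower.algebraMap_apply F K L]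

variable (E L) in
private theorem kdefs_li {ι : Type*} [Fintype ι] (b : Module.Basis ι F K) :
    LinearIndependent E fun i => algebraMap K L (b i) := by
  haveI : NeZero (2 : E) := nz2_of_injective (algebraMap F E).injective
  obtain ⟨η, hη0, hηs, -, -, hfix⟩ := exists_eta F E
  have hkey : ∀ y : ι → E, ∑ i, algebraMap E L (y i) * algebraMap K L (b i) = 0 →
      ∀ i, y i + star (y i) = 0 := by
    intro y hy i
    have h1 : ∑ i, algebraMap E L (star (y i)) * algebraMap K L (b i) = 0 := by
      have h2 := congrArg star hy
      rw [star_sum, star_zero] at h2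
      rw [← h2]
      refine Finset.sum_congr rfl fun j _ => ?_
      rw [star_mul', KCompat.star_comm (F := F) (E := E) (K := K) (L := L),
        QExt.star_alg (F := K) (E := L)]
    choose t ht using fun i => hfix (y i + star (y i)) (by rw [star_add, star_star, add_comm])
    have h3 : ∑ i, t i • b i = 0 := by
      apply (algebraMap K L).injective
      rw [map_sum, map_zero]
      have h4 : ∀ j, algebraMap K L (t j • b j) =
          algebraMap E L (y j) * algebraMap K L (b j) +
          algebraMap E L (star (y j)) * algebraMap K L (b j) := by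
        intro j
        rw [Algebra.smul_def, map_mul, ← kdefs_alg F E K L, ← ht, map_add, add_mul]
      rw [Finset.sum_congr rfl fun j _ => h4 j, Finset.sum_add_distrib, hy, h1, add_zero]
    have h5 := Fintype.linearIndependent_iff.1 b.linearIndependent t h3 i
    rw [ht, h5, map_zero]
  rw [Fintype.linearIndependent_iff]
  intro y hy i
  have hy' : ∑ i, algebraMap E L (y i) * algebraMap K L (b i) = 0 := by
    rw [← hy]
    exact Finset.sum_congr rfl fun j _ => (Algebra.smul_def _ _).symm
  have h6 := hkey y hy' i
  have h7 := hkey (fun i => η * y i) (by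
    have h8 : ∑ i, algebraMap E L (η * y i) * algebraMap K L (b i) =
        algebraMap E L η * ∑ i, algebraMap E L (y i) * algebraMap K L (b i) := by
      rw [Finset.mul_sum]
      refine Finset.sum_congr rfl fun j _ => ?_
      rw [map_mul, mul_assoc]
    rw [h8, hy', mul_zero]) i
  rw [star_mul', hηs] at h7
  have h9 : (2 : E) * (η * y i) = 0 := by linear_combination h7 + η * h6
  exact (mul_eq_zero.1 ((mul_eq_zero.1 h9).resolve_left two_ne_zero)).resolve_left hη0

/-- a basis of `K/F` is a basis of `L/E` -/
theorem kc_basis {ι : Type*} [Fintype ι] (b : Module.Basis ι F K) :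
    ∃ b' : Module.Basis ι E L, ∀ i, b' i = algebraMap K L (b i) := by
  haveI : FiniteDimensional F K := KCompat.fd (F := F) (E := E) (K := K) (L := L)
  have h1 := kdefs_li E L b
  have hcard : Fintype.card ι = Module.finrank F K := (Module.finrank_eq_card_basis b).symm
  haveI : Nonempty ι := by
    rw [← Fintype.card_pos_iff, hcard]
    exact Module.finrank_pos
  refine ⟨basisOfLinearIndependentOfCardEqFinrank h1 ?_, fun i => ?_⟩
  · rw [hcard]
    exact KCompat.deg
  · rw [coe_basisOfLinearIndependentOfCardEqFinrank]

variable (F E K L) in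
/-- the `E`-linear extension `L → E` of `tk : K → F` -/
theorem exists_tl : ∃ T : L →ₗ[E] E, ∀ c : K, T (algebraMap K L c) =
    algebraMap F E (tk F K c) := by
  haveI : FiniteDimensional F K := KCompat.fd (F := F) (E := E) (K := K) (L := L)
  obtain ⟨b', hb⟩ := kc_basis (E := E) (L := L) (Module.finBasis F K)
  refine ⟨b'.constr E fun i => algebraMap F E (tk F K (Module.finBasis F K i)), fun c => ?_⟩
  have h1 : algebraMap K L c =
      ∑ i, algebraMap F E ((Module.finBasis F K).repr c i) • b' i := by
    have h2 := congrArg (algebraMap K L) ((Module.finBasis F K).sum_repr c)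
    rw [map_sum] at h2
    rw [← h2]
    refine Finset.sum_congr rfl fun i _ => ?_
    rw [Algebra.smul_def, Algebra.smul_def, map_mul (algebraMap K L), ← hb, kdefs_alg F E K L]
  have h3 : c = ∑ i, (Module.finBasis F K).repr c i • Module.finBasis F K i :=
    ((Module.finBasis F K).sum_repr c).symm
  rw [h1]
  conv_rhs => rw [h3]
  rw [map_sum, map_sum, map_sum]
  refine Finset.sum_congr rfl fun i _ => ?_
  rw [map_smul, map_smul, Module.Basis.constr_basis, smul_eq_mul, smul_eq_mul, map_mul]

variable (F E K L) in
/-- the `E`-linear extension `L → E` of `tk : K → F` -/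
def tl : L →ₗ[E] E := (exists_tl F E K L).choose

theorem tl_K (c : K) : tl F E K L (algebraMap K L c) = algebraMap F E (tk F K c) :=
  (exists_tl F E K L).choose_spec c

variable (F E K L) in
theorem tl_nondeg (x : L) (h : ∀ z : L, tl F E K L (z * x) = 0) : x = 0 := by
  by_contra h0
  have h1 := h x⁻¹
  rw [inv_mul_cancel₀ h0, ← map_one (algebraMap K L), tl_K, tk_one, map_one] at h1
  exact one_ne_zero h1

/-- `tl` commutes with `star` -/
theorem kc_trace_star (x : L) : tl F E K L (star x) = star (tl F E K L x) := by
  haveI : FiniteDimensional F K := KCompat.fd (F := F) (E := E) (K := K) (L := L)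
  obtain ⟨b', hb⟩ := kc_basis (E := E) (L := L) (Module.finBasis F K)
  have h1 : x = ∑ i, b'.repr x i • b' i := (b'.sum_repr x).symm
  have h2 : star x = ∑ i, star (b'.repr x i) • b' i := by
    conv_lhs => rw [h1]
    rw [star_sum]
    refine Finset.sum_congr rfl fun i _ => ?_
    rw [Algebra.smul_def, Algebra.smul_def, star_mul', hb, QExt.star_alg (F := K) (E := L),
      KCompat.star_comm (F := F) (E := E) (K := K) (L := L)]
  rw [h2]
  conv_rhs => rw [h1]
  rw [map_sum, map_sum, star_sum]
  refine Finset.sum_congr rfl fun i _ => ?_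
  rw [map_smul, map_smul, hb, tl_K, smul_eq_mul, smul_eq_mul, star_mul', QExt.star_alg]

private theorem kdefs_tr_add {F E : Type u} [NontriviallyNormedField F] [IsUltrametricDist F]
    [ProperSpace F] [NeZero (2 : F)] [NontriviallyNormedField E] [NormedAlgebra F E]
    [ProperSpace E] [StarRing E] [QExt F E] (x : E) : algebraMap F E (Algebra.trace F E x) = x + star x := by
  haveI : NeZero (2 : E) := nz2_of_injective (algebraMap F E).injective
  haveI : FiniteDimensional F E := qext_findim F E
  have hst : Algebra.trace F E (star x) = Algebra.trace F E x :=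
    Algebra.trace_eq_of_algEquiv
      ({ toFun := star
         invFun := star
         left_inv := star_star
         right_inv := star_star
         map_mul' := fun x y => by rw [star_mul']
         map_add' := fun x y => star_add x y
         commutes' := fun a => QExt.star_alg a } : E ≃ₐ[F] E) x
  obtain ⟨-, -, -, -, -, hfix⟩ := exists_eta F E
  obtain ⟨c, hc⟩ := hfix (x + star x) (by rw [star_add, star_star, add_comm])
  have h1 : Algebra.trace F E (x + star x) = 2 * c := by
    rw [hc, Algebra.trace_algebraMap, QExt.finrank_two (F := F) (E := E), nsmul_eq_mul,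
      Nat.cast_ofNat]
  rw [map_add, hst, ← two_mul] at h1
  have h2 := mul_left_cancel₀ (two_ne_zero (α := F)) h1
  rw [h2, hc]

/-- `tk ∘ Tr_{L/K} = Tr_{E/F} ∘ tl` -/
theorem kc_trace (x : L) : tk F K (Algebra.trace K L x) =
    Algebra.trace F E (tl F E K L x) := by
  apply (algebraMap F E).injective
  rw [← tl_K (L := L), kdefs_tr_add, kdefs_tr_add, map_add, kc_trace_star]

private theorem kdefs_matrix {ι : Type*} [Fintype ι] [DecidableEq ι] (b : Module.Basis ι F K)
    (b' : Module.Basis ι E L) (hb : ∀ i, b' i = algebraMap K L (b i)) (x : L) :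
    Algebra.leftMulMatrix b' (star x) = (Algebra.leftMulMatrix b' x).map (starRingEnd E) := by
  ext i j
  rw [Matrix.map_apply, Algebra.leftMulMatrix_eq_repr_mul, Algebra.leftMulMatrix_eq_repr_mul]
  have h1 : star x * b' j = ∑ i, star (b'.repr (x * b' j) i) • b' i := by
    have h2 := congrArg star (b'.sum_repr (x * b' j))
    rw [star_mul', star_sum] at h2
    have h3 : ∀ i, star (b' i) = b' i := fun i => by
      rw [hb, QExt.star_alg (F := K) (E := L)]
    rw [h3] at h2
    rw [← h2]
    refine Finset.sum_congr rfl fun i _ => ?_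
    rw [Algebra.smul_def, Algebra.smul_def, star_mul', h3,
      KCompat.star_comm (F := F) (E := E) (K := K) (L := L)]
  rw [h1, b'.repr_sum_self]
  rfl

variable (F K) in
include F K in
theorem kc_norm_star (x : L) : Algebra.norm E (star x) = star (Algebra.norm E x) := by
  classical
  haveI : FiniteDimensional F K := KCompat.fd (F := F) (E := E) (K := K) (L := L)
  obtain ⟨b', hb⟩ := kc_basis (E := E) (L := L) (Module.finBasis F K)
  rw [Algebra.norm_eq_matrix_det b', Algebra.norm_eq_matrix_det b', kdefs_matrix _ b' hb]
  exact (RingHom.map_det (starRingEnd E) (Algebra.leftMulMatrix b' x)).symm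

/-- for `c ∈ K`: `N_{L/E}(c) = N_{K/F}(c)` -/
theorem kc_norm_K (c : K) : Algebra.norm E (algebraMap K L c) =
    algebraMap F E (Algebra.norm F c) := by
  classical
  haveI : FiniteDimensional F K := KCompat.fd (F := F) (E := E) (K := K) (L := L)
  obtain ⟨b', hb⟩ := kc_basis (E := E) (L := L) (Module.finBasis F K)
  rw [Algebra.norm_eq_matrix_det b', Algebra.norm_eq_matrix_det (Module.finBasis F K),
    RingHom.map_det]
  congr 1
  ext i j
  rw [RingHom.mapMatrix_apply, Matrix.map_apply, Algebra.leftMulMatrix_eq_repr_mul,
    Algebra.leftMulMatrix_eq_repr_mul]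
  have h1 : algebraMap K L c * b' j =
      ∑ i, algebraMap F E ((Module.finBasis F K).repr (c * Module.finBasis F K j) i) • b' i := by
    have h2 := congrArg (algebraMap K L)
      ((Module.finBasis F K).sum_repr (c * Module.finBasis F K j))
    rw [map_mul (algebraMap K L), ← hb, map_sum] at h2
    rw [← h2]
    refine Finset.sum_congr rfl fun i _ => ?_
    rw [Algebra.smul_def, Algebra.smul_def, map_mul (algebraMap K L), ← hb, kdefs_alg F E K L]
  rw [h1, b'.repr_sum_self]

end

end

end Pool.Agent.Work.MP_dd0ddf_al.OC
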