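import Pool.Agent.Work.MP_dd0ddf_al.OC.LinDefs

/-!
# MP_dd0ddf_al, module StabPos: the stabiliser of a nonisotropic vector has no positive characters

`U = E v0`, `V1 = U^⊥` nondegenerate (`ndeg_span`, `ndeg_orth`).  An element of the stabiliser of `v0` is the identity on `E v0 = (V1)^⊥` (orth_orth), so it
is `extU B V1 _ k` (`extU_surj`); `k ↦ δ (extU k)` is a `PosChar` of `UU (B.restrict V1)` (continuous_extU, the values lie in `stabV`), trivial by `noPos`.
-/

set_option linter.unusedSectionVars false
set_option linter.style.haveILetI false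

namespace Pool.Agent.Work.MP_dd0ddf_al.OC

noncomputable section

universe u

variable {F E : Type u} [NontriviallyNormedField F] [IsUltrametricDist F] [ProperSpace F]
  [NeZero (2 : F)] [NontriviallyNormedField E] [NormedAlgebra F E] [ProperSpace E] [StarRing E]
  [QExt F E]
variable {V : Type u} [AddCommGroup V] [Module E V] [Module.Finite E V] [TopologicalSpace V]
  [IsTopologicalAddGroup V] [T2Space V] [ContinuousSMul E V]

include F
variable (F)

theorem stab_pos (B : SkewH E V) (v0 : V) (hv0 : B.ip v0 v0 ≠ 0) (δ : PosChar (stabV B v0))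
    (h : stabV B v0) : δ.δ h = 1 := by
  have hn : NDeg B (orth B (Submodule.span E {v0})) := ndeg_orth B _ (ndeg_span B v0 hv0)
  have hv0m : v0 ∈ orth B (orth B (Submodule.span E {v0})) := by
    rw [orth_orth]
    exact Submodule.mem_span_singleton_self v0
  have hmem : ∀ k : UU (B.restrict (orth B (Submodule.span E {v0})) hn),
      extU B (orth B (Submodule.span E {v0})) hn k ∈ stabV B v0 := fun k =>
    extU_orth B _ hn k hv0m
  have hfix : ∀ w ∈ orth B (orth B (Submodule.span E {v0})), h.1.1.1 w = w := by
    intro w hw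
    rw [orth_orth] at hw
    obtain ⟨c, rfl⟩ := Submodule.mem_span_singleton.1 hw
    rw [map_smul, show h.1.1.1 v0 = v0 from h.2]
  obtain ⟨k, hk⟩ := extU_surj B (orth B (Submodule.span E {v0})) hn h.1 hfix
  let δ' : PosChar (UU (B.restrict (orth B (Submodule.span E {v0})) hn)) :=
    { δ := fun k => δ.δ ⟨extU B (orth B (Submodule.span E {v0})) hn k, hmem k⟩
      pos := fun k => δ.pos _
      mul := fun k l => by
        rw [← δ.mul]
        congr 1
        exact Subtype.ext (map_mul (extU B (orth B (Submodule.span E {v0})) hn) k l)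
      lc := by
        obtain ⟨U, hU, h1, hU1⟩ := δ.lc
        have hc : Continuous fun k : UU (B.restrict (orth B (Submodule.span E {v0})) hn) =>
            (⟨extU B (orth B (Submodule.span E {v0})) hn k, hmem k⟩ : stabV B v0) :=
          (continuous_extU B _ hn).subtype_mk _
        refine ⟨_, hU.preimage hc, ?_, fun k hk => hU1 _ hk⟩
        show (⟨extU B (orth B (Submodule.span E {v0})) hn 1, hmem 1⟩ : stabV B v0) ∈ U
        have h2 : (⟨extU B (orth B (Submodule.span E {v0})) hn 1, hmem 1⟩ : stabV B v0) = 1 :=
          Subtype.ext (map_one (extU B (orth B (Submodule.span E {v0})) hn))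
        rw [h2]
        exact h1 }
  have h3 := noPos F (B.restrict (orth B (Submodule.span E {v0})) hn) δ' k
  have h4 : (⟨extU B (orth B (Submodule.span E {v0})) hn k, hmem k⟩ : stabV B v0) = h :=
    Subtype.ext hk
  have h5 : δ'.δ k = δ.δ ⟨extU B (orth B (Submodule.span E {v0})) hn k, hmem k⟩ := rfl
  rw [h4] at h5
  rw [← h5, h3]

end

end Pool.Agent.Work.MP_dd0ddf_al.OC
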