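import Pool.Agent.Work.MP_dd0ddf_al.OC.LinFib
import Pool.Agent.Work.MP_dd0ddf_al.OC.StabPos

/-!
# MP_dd0ddf_al, module LinDesc: descent to a nonisotropic vector

`O = {v : ⟨v, v⟩ = c}` (closed in V, locally compact), `UU B` acts transitively by `witt_vec` (c ≠ 0), orbit map open by `orbit_map_open`.
`DescData (UU B) {x // ipv B x = c} O ℂ` with `π (X, v) = v`, trivial representation (`SRep.triv`).
(`A.op R h f = f ∘ (h⁻¹ acting)`, so FibInv gives invariance.)
`D.Fib` over `v0` is homeomorphic to `SA B` via `X ↦ (X, v0)`.  `descent` gives `R` on `SF Fib ℂ`, `R = 0 → S = 0`, equivariant under `stab = stabV B v0` up to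
`δ : PosChar`, trivial by `stab_pos F`, and for the symmetry `sX = (saTau τ0, τ0)`, `sB = id`, `sΓ h = τ0 h τ0` (continuous automorphism of UU B: continuous_conjτ; `τ0 v0 = v0`):
`R (f ∘ saTau) = -a R f`.  Transfer to `SA B` and apply `hR`.
-/

set_option linter.unusedSectionVars false
set_option linter.style.haveILetI false

namespace Pool.Agent.Work.MP_dd0ddf_al.OC

noncomputable section

universe u

variable {F E : Type u} [NontriviallyNormedField F] [IsUltrametricDist F] [ProperSpace F]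
  [NeZero (2 : F)] [NontriviallyNormedField E] [NormedAlgebra F E] [ProperSpace E] [StarRing E]
  [QExt F E]
variable {V : Type u} [AddCommGroup V] [Module E V] [Module.Finite E V] [TopologicalSpace V]
  [IsTopologicalAddGroup V] [T2Space V] [ContinuousSMul E V]

variable (F) in
include F in
private theorem lindesc_cont (B : SkewH E V) : Continuous (fun v : V => B.ip v v) := by
  have h : (fun v : V => B.ip v v) = fun v => ∑ i, (Module.finBasis E V).coord i v *
      B.ip (Module.finBasis E V i) v := by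
    funext v
    have h1 : B.lin v v = ∑ i, (Module.finBasis E V).repr v i *
      B.lin v (Module.finBasis E V i) := by
      conv_lhs => arg 2; rw [← (Module.finBasis E V).sum_repr v]
      rw [map_sum]
      refine Finset.sum_congr rfl fun i _ => ?_
      rw [map_smul, smul_eq_mul]
    exact h1
  rw [h]
  refine continuous_finsetSum _ fun i _ => ?_
  exact ((Module.finBasis E V).coord i).continuous_of_finiteDimensional.mul
    (continuous_ip_right F B (Module.finBasis E V i))

/-- `τ h τ` -/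
private def lindesc_tg0 {B : SkewH E V} (τ : AntiU B) (h : UU B) : UU B :=
  ⟨⟨conjτ τ h.1.1, conjτ τ h.1⁻¹.1, by rw [← conjτ_mul, h.1.mul_inv, conjτ_one],
    by rw [← conjτ_mul, h.1.inv_mul, conjτ_one]⟩, fun v w => by
    show B.ip (τ.t (h.1.1 (τ.t v))) (τ.t (h.1.1 (τ.t w))) = B.ip v w
    rw [τ.ip, h.2, τ.ip]⟩

/-- the automorphism `h ↦ τ h τ` of `U(V)` -/
private def lindesc_tg {B : SkewH E V} (τ : AntiU B) : UU B ≃* UU B where
  toFun := lindesc_tg0 τ
  invFun := lindesc_tg0 τ
  left_inv h := Subtype.ext (Units.ext (conjτ_conjτ τ h.1.1))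
  right_inv h := Subtype.ext (Units.ext (conjτ_conjτ τ h.1.1))
  map_mul' g h := Subtype.ext (Units.ext (conjτ_mul τ g.1.1 h.1.1))

variable (F) in
include F in
private theorem lindesc_tg_cont {B : SkewH E V} (τ : AntiU B) :
    Continuous (lindesc_tg0 τ : UU B → UU B) := by
  refine Continuous.subtype_mk (Units.continuous_iff.2 ⟨?_, ?_⟩) _
  · exact (continuous_conjτ F τ).comp (Units.continuous_val.comp continuous_subtype_val)
  · exact (continuous_conjτ F τ).comp (Units.continuous_val.comp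
      (continuous_inv.comp continuous_subtype_val))

private theorem lindesc_tau_act {B : SkewH E V} (τ : AntiU B) (γ : UU B) (Y : SA B) :
    saTau F τ (saConj B (lindesc_tg τ γ) Y) = saConj B γ (saTau F τ Y) := by
  apply Subtype.ext
  show conjτ τ (conjτ τ γ.1.1 * Y.1 * conjτ τ γ.1⁻¹.1) = γ.1.1 * conjτ τ Y.1 * γ.1⁻¹.1
  rw [conjτ_mul, conjτ_mul, conjτ_conjτ, conjτ_conjτ]

section Data

variable (B : SkewH E V) (c : E)

/-- the action on `{v : ⟨v, v⟩ = c}` -/
private def lindesc_C : CAct (UU B) {v : V // B.ip v v = c} where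
  act h v := ⟨h.1.1 v.1, (h.2 _ _).trans v.2⟩
  one v := rfl
  mul g h v := rfl
  cont := by
    refine Continuous.subtype_mk ?_ _
    exact continuous_end_eval.comp ((Units.continuous_val.comp
        (continuous_subtype_val.comp continuous_fst)).prodMk
        (continuous_subtype_val.comp continuous_snd))

/-- the action on `{(X, v) : ⟨v, v⟩ = c}` -/
private def lindesc_A : CAct (UU B) {x : SA B × V // ipv B x = c} where
  act h x := ⟨(linC B).act h x.1, (h.2 _ _).trans x.2⟩
  one x := Subtype.ext ((linC B).one x.1)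
  mul g h x := Subtype.ext ((linC B).mul g h x.1)
  cont := ((linC B).cont.comp (continuous_fst.prodMk
    (continuous_subtype_val.comp continuous_snd))).subtype_mk _

variable (v0 : V) (hv0 : B.ip v0 v0 = c)
    (htr : ∀ v : {v : V // B.ip v v = c}, ∃ h, (lindesc_C B c).act h ⟨v0, hv0⟩ = v)
    (hop : IsOpenMap fun h => (lindesc_C B c).act h ⟨v0, hv0⟩)

/-- the descent data -/
private def lindesc_D :
    DescData (UU B) {x : SA B × V // ipv B x = c} {v : V // B.ip v v = c} ℂ where
  A := lindesc_A B c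
  C := lindesc_C B c
  R := SRep.triv (UU B) ℂ
  π x := ⟨x.1.2, x.2⟩
  hπ := (continuous_snd.comp continuous_subtype_val).subtype_mk _
  eqv _ _ := rfl
  o := ⟨v0, hv0⟩
  tr := htr
  opn := hop

/-- the fibre is `SA B` -/
private def lindesc_eF : (lindesc_D B c v0 hv0 htr hop).Fib ≃ₜ SA B where
  toFun x := x.1.1.1
  invFun X := ⟨⟨(X, v0), hv0⟩, rfl⟩
  left_inv x := Subtype.ext (Subtype.ext (Prod.ext rfl (congrArg Subtype.val x.2).symm))
  right_inv _ := rfl
  continuous_toFun := continuous_fst.comp (continuous_subtype_val.comp continuous_subtype_val)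
  continuous_invFun := ((continuous_id.prodMk continuous_const).subtype_mk _).subtype_mk _

private theorem lindesc_stab (h : UU B) :
    h ∈ (lindesc_D B c v0 hv0 htr hop).stab ↔ h ∈ stabV B v0 :=
  ⟨fun h1 => congrArg Subtype.val h1, fun h1 => Subtype.ext h1⟩

/-- the symmetry given by `τ` -/
private def lindesc_S (τ : AntiU B) (hτ : τ.t v0 = v0) :
    (lindesc_D B c v0 hv0 htr hop).DSym where
  sX := fibH (ipv B) ((saTau F τ).prodCongr (tauH F τ)) (ipv_tau τ) c
  sB := LinearMap.id
  sΓ := lindesc_tg τ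
  cont := lindesc_tg_cont F τ
  cont' := lindesc_tg_cont F τ
  compX γ x := by
    refine Subtype.ext (Prod.ext (lindesc_tau_act τ γ x.1.1) ?_)
    show τ.t (τ.t (γ.1.1 (τ.t x.1.2))) = γ.1.1 (τ.t x.1.2)
    rw [τ.inv]
  compB γ b := rfl
  fib x := by
    constructor
    · intro h
      have h1 : τ.t x.1.2 = v0 := congrArg Subtype.val h
      refine Subtype.ext ?_
      show x.1.2 = v0
      rw [← τ.inv x.1.2, h1, hτ]
    · intro h
      have h1 : x.1.2 = v0 := congrArg Subtype.val h
      refine Subtype.ext ?_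
      show τ.t x.1.2 = v0
      rw [h1, hτ]
  stb γ := by
    rw [lindesc_stab, lindesc_stab]
    constructor
    · intro h
      have h1 : γ.1.1 v0 = v0 := h
      show τ.t (γ.1.1 (τ.t v0)) = v0
      rw [hτ, h1, hτ]
    · intro h
      have h1 : τ.t (γ.1.1 (τ.t v0)) = v0 := h
      show γ.1.1 v0 = v0
      rw [hτ] at h1
      rw [← τ.inv (γ.1.1 v0), h1, hτ]

end Data

theorem lin_desc (B : SkewH E V) (c : E) (hc : c ≠ 0) (v0 : V) (hv0 : B.ip v0 v0 = c)
    (τ0 : AntiU B) (hτ0 : τ0.t v0 = v0)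
    (hR : ∀ R : SF (SA B) ℂ →ₗ[ℂ] ℂ,
      (∀ h ∈ stabV B v0, ∀ f : SF (SA B) ℂ, R (SF.comp (saConj B h) f) = R f) →
      (∃ a : ℝ, 0 < a ∧ ∀ f : SF (SA B) ℂ, R (SF.comp (saTau F τ0) f) = -(a : ℂ) * R f) → R = 0)
    (S : SF {x : SA B × V // ipv B x = c} ℂ →ₗ[ℂ] ℂ) (hS : FibInv B c S)
    (hS' : FibAnti F τ0 c S) : S = 0 := by
  haveI := lc_V E V
  haveI := td_V F E V
  haveI := lc_SA F B
  haveI := td_SA F B
  haveI := lc_UU F B
  haveI := td_UU F B
  have h2 : (2 : E) ≠ 0 := by
    intro h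
    have h3 : algebraMap F E 2 = 0 := by rw [map_ofNat]; exact h
    exact two_ne_zero ((map_eq_zero (algebraMap F E)).1 h3)
  have hcl1 : IsClosed {v : V | B.ip v v = c} := isClosed_singleton.preimage (lindesc_cont F B)
  have hcl2 : IsClosed {x : SA B × V | ipv B x = c} :=
    isClosed_singleton.preimage ((lindesc_cont F B).comp continuous_snd)
  haveI : LocallyCompactSpace {v : V // B.ip v v = c} :=
    hcl1.isClosedEmbedding_subtypeVal.locallyCompactSpace
  haveI : LocallyCompactSpace {x : SA B × V // ipv B x = c} :=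
    hcl2.isClosedEmbedding_subtypeVal.locallyCompactSpace
  have hne : ∀ v : V, B.ip v v = c → v ≠ 0 := by
    intro v hv h0
    apply hc
    rw [← hv, h0]
    have := B.smul_left 0 0 (0 : V)
    rwa [zero_smul, zero_mul] at this
  have htr : ∀ v : {v : V // B.ip v v = c}, ∃ h, (lindesc_C B c).act h ⟨v0, hv0⟩ = v := by
    rintro ⟨v, hv⟩
    obtain ⟨g, hg⟩ := witt_vec B h2 v0 v (hne v0 hv0) (hne v hv) (hv0.trans hv.symm)
    exact ⟨g, Subtype.ext hg⟩
  have hop := orbit_map_open (lindesc_C B c) ⟨v0, hv0⟩ htr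
  let D := lindesc_D B c v0 hv0 htr hop
  let eF : D.Fib ≃ₜ SA B := lindesc_eF B c v0 hv0 htr hop
  have hinv : ∀ γ g, S (D.A.op D.R γ g) = S g := fun γ g => hS γ⁻¹ g
  obtain ⟨S', hS0, ⟨δ, hδ⟩, hsym⟩ := descent D S hinv
  have hst : ∀ h : stabV B v0, h.1 ∈ D.stab := fun h =>
      (lindesc_stab B c v0 hv0 htr hop _).2 h.2
  let κ : stabV B v0 → D.stab := fun h => ⟨h.1, hst h⟩
  have hκ : Continuous κ := continuous_subtype_val.subtype_mk _
  let δ' : PosChar (stabV B v0) :=
    { δ := fun h => δ.δ (κ h)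
      pos := fun h => δ.pos _
      mul := fun g h => δ.mul (κ g) (κ h)
      lc := by
        obtain ⟨N, hN, h1, h2⟩ := δ.lc
        exact ⟨κ ⁻¹' N, hN.preimage hκ, h1, fun γ hγ => h2 _ hγ⟩ }
  have hδ1 : ∀ h, δ'.δ h = 1 := fun h =>
    stab_pos (F := F) B v0 (by rw [hv0]; exact hc) δ' h
  have hR0 : S' ∘ₗ SF.comp eF = 0 := by
    refine hR _ (fun h hh f => ?_) ?_
    · have h3 := hδ (κ ⟨h⁻¹, (stabV B v0).inv_mem hh⟩) (SF.comp eF f)
      have h4 : δ.δ (κ ⟨h⁻¹, (stabV B v0).inv_mem hh⟩) = 1 := hδ1 _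
      rw [h4, Complex.ofReal_one, one_mul] at h3
      have h5 : D.fop (κ ⟨h⁻¹, (stabV B v0).inv_mem hh⟩) (SF.comp eF f) =
          SF.comp eF (SF.comp (saConj B (h⁻¹)⁻¹) f) := SF.ext fun _ => rfl
      rw [h5, inv_inv] at h3
      exact h3
    · obtain ⟨a, ha, h3⟩ := hsym (lindesc_S B c v0 hv0 htr hop τ0 hτ0) (-1) (fun f => by
        rw [neg_one_mul]
        exact hS' f)
      refine ⟨a, ha, fun f => ?_⟩
      have h4 := h3 (SF.comp eF f)
      rw [neg_one_mul] at h4
      exact h4
  apply hS0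
  apply LinearMap.ext
  intro f
  have h3 := congrArg (fun R : SF (SA B) ℂ →ₗ[ℂ] ℂ => R (SF.comp eF.symm f)) hR0
  have h4 : SF.comp eF (SF.comp eF.symm f) = f := by
    apply SF.ext
    intro x
    show f (eF.symm (eF x)) = f x
    rw [eF.symm_apply_apply]
  have h5 : S' (SF.comp eF (SF.comp eF.symm f)) = 0 := h3
  rw [h4] at h5
  exact h5

end

end Pool.Agent.Work.MP_dd0ddf_al.OC
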