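import Pool.Agent.Work.MP_dd0ddf_al.OC.LinDefs

/-!
# MP_dd0ddf_al, module LinIso: self-adjoint operators in terms of a nonisotropic vector

`V1 = (E v0)^⊥`, `B1` the restricted form.  First `a = 1`: `saTau τ0` is an involution, so `a² R = R`; if `R ≠ 0` then `a = 1`.
`X ↦ ((pr X|V1, pr (X v0)), ⟨X v0, v0⟩)`, `pr` the orthogonal projection onto `V1`, is a homeomorphism of `SA B` onto `(SA B1 × V1) × {y ∈ E : star y = -y}`
(inverse: `X v0 = w + (y/⟨v0,v0⟩) v0`, `X u = Y u + (⟨u, w⟩/⟨v0,v0⟩) v0` for `u ∈ V1`; check self-adjointness).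
Apply `localise` to `R` with `π X = ⟨X v0, v0⟩ : SA B → E`, operators `saConj (extU k)` (k ∈ UU B1, scalar 1; they preserve π) and `saTau τ0` (scalar -1;
`⟨τ0 X τ0 v0, v0⟩ = ⟨τ0 X v0, τ0 v0⟩ = ⟨v0, X v0⟩ = ⟨X v0, v0⟩`).  The fibre over `y` is empty or homeomorphic to `SA B1 × V1`, the operators become
`linAct B1 k` and `linTau (tauRes τ0)`; so the fibre functional vanishes by `LinGood F B1`.
-/

set_option linter.unusedSectionVars false
set_option linter.style.haveILetI false

namespace Pool.Agent.Work.MP_dd0ddf_al.OC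

noncomputable section

universe u

variable {F E : Type u} [NontriviallyNormedField F] [IsUltrametricDist F] [ProperSpace F]
  [NeZero (2 : F)] [NontriviallyNormedField E] [NormedAlgebra F E] [ProperSpace E] [StarRing E]
  [QExt F E]
variable {V : Type u} [AddCommGroup V] [Module E V] [Module.Finite E V] [TopologicalSpace V]
  [IsTopologicalAddGroup V] [T2Space V] [ContinuousSMul E V]

section Alg

variable (B : SkewH E V) (v0 : V)

/-- `v0^⊥` -/
private abbrev liniso_U : Submodule E V := orth B (Submodule.span E {v0})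

private theorem liniso_mem (v : V) : v ∈ liniso_U B v0 ↔ B.ip v v0 = 0 := by
  constructor
  · intro h
    exact h v0 (Submodule.mem_span_singleton_self v0)
  · intro h u hu
    obtain ⟨c, rfl⟩ := Submodule.mem_span_singleton.1 hu
    rw [B.smul_right, h, mul_zero]

private theorem liniso_symm {a b : V} (h : B.ip a b = 0) : B.ip b a = 0 := by
  rw [B.skew a b, h, star_zero, neg_zero]

private theorem liniso_sub (a b w : V) : B.ip (a - b) w = B.ip a w - B.ip b w := by
  have h := B.smul_left (-1) b w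
  rw [neg_smul, one_smul] at h
  rw [sub_eq_add_neg, B.add_left, h]
  ring

private theorem liniso_v0 : v0 ∈ orth B (liniso_U B v0) := by
  intro u hu
  exact liniso_symm B ((liniso_mem B v0 u).1 hu)

variable (hn : NDeg B (liniso_U B v0))

/-- the projection to `v0^⊥` -/
private def liniso_pr : V →ₗ[E] liniso_U B v0 :=
  (prO B (liniso_U B v0) hn).codRestrict _ (prO_mem B (liniso_U B v0) hn)

private theorem liniso_pr_ip (v : V) (u : liniso_U B v0) :
    B.ip (liniso_pr B v0 hn v : V) (u : V) = B.ip v (u : V) :=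
  ip_prO B (liniso_U B v0) hn v u.2

private theorem liniso_ip_pr (v : V) (u : liniso_U B v0) :
    B.ip (u : V) (liniso_pr B v0 hn v : V) = B.ip (u : V) v := by
  rw [B.skew (liniso_pr B v0 hn v : V) (u : V), liniso_pr_ip, ← B.skew]

private theorem liniso_pr_mem (u : liniso_U B v0) : liniso_pr B v0 hn (u : V) = u :=
  Subtype.ext (prO_of_mem B (liniso_U B v0) hn u.2)

private theorem liniso_pr_v0 : liniso_pr B v0 hn v0 = 0 :=
  Subtype.ext (prO_of_orth B (liniso_U B v0) hn (liniso_v0 B v0))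

/-- `v = pr v + (⟨v, v0⟩ / ⟨v0, v0⟩) v0` -/
private theorem liniso_dec (hv0 : B.ip v0 v0 ≠ 0) (v : V) :
    v = (liniso_pr B v0 hn v : V) + ((B.ip v0 v0)⁻¹ * B.ip v v0) • v0 := by
  have h1 : v - (liniso_pr B v0 hn v : V) ∈ orth B (liniso_U B v0) :=
    sub_prO_mem B (liniso_U B v0) hn v
  rw [orth_orth] at h1
  obtain ⟨c, hc⟩ := Submodule.mem_span_singleton.1 h1
  have h2 : B.ip (liniso_pr B v0 hn v : V) v0 = 0 :=
    (liniso_mem B v0 _).1 (liniso_pr B v0 hn v).2
  have h3 : c * B.ip v0 v0 = B.ip v v0 := by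
    rw [← B.smul_left, hc, liniso_sub, h2, sub_zero]
  rw [← h3, mul_comm c, inv_mul_cancel_left₀ hv0, hc, add_sub_cancel]

/-- the operator with blocks `Y, w, y` -/
private def liniso_op (Y : Module.End E (liniso_U B v0)) (w : liniso_U B v0) (y : E) :
    Module.End E V where
  toFun v := (Y (liniso_pr B v0 hn v) : V) + ((B.ip v0 v0)⁻¹ * B.ip v (w : V)) • v0 +
    ((B.ip v0 v0)⁻¹ * B.ip v v0) • ((w : V) + ((B.ip v0 v0)⁻¹ * y) • v0)
  map_add' u v := by
    rw [map_add, map_add, Submodule.coe_add, B.add_left, B.add_left]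
    module
  map_smul' c v := by
    rw [map_smul, map_smul, Submodule.coe_smul, B.smul_left, B.smul_left, RingHom.id_apply]
    module

private theorem liniso_a0 : star (B.ip v0 v0) = - B.ip v0 v0 := by
  conv_rhs => rw [B.skew v0 v0]
  rw [neg_neg]

private theorem liniso_op_SA (Y : SA (B.restrict (liniso_U B v0) hn)) (w : liniso_U B v0)
    (y : E) (hy : star y = -y) : liniso_op B v0 hn Y.1 w y ∈ SA B := by
  intro v v'
  show B.ip ((Y.1 (liniso_pr B v0 hn v) : V) + ((B.ip v0 v0)⁻¹ * B.ip v (w : V)) • v0 +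
    ((B.ip v0 v0)⁻¹ * B.ip v v0) • ((w : V) + ((B.ip v0 v0)⁻¹ * y) • v0)) v' =
    B.ip v ((Y.1 (liniso_pr B v0 hn v') : V) + ((B.ip v0 v0)⁻¹ * B.ip v' (w : V)) • v0 +
    ((B.ip v0 v0)⁻¹ * B.ip v' v0) • ((w : V) + ((B.ip v0 v0)⁻¹ * y) • v0))
  have h1 : B.ip (Y.1 (liniso_pr B v0 hn v) : V) v' = B.ip v (Y.1 (liniso_pr B v0 hn v') : V) := by
    have h2 := Y.2 (liniso_pr B v0 hn v) (liniso_pr B v0 hn v')
    have h3 : B.ip (Y.1 (liniso_pr B v0 hn v) : V) (liniso_pr B v0 hn v' : V) =
      B.ip (liniso_pr B v0 hn v : V) (Y.1 (liniso_pr B v0 hn v') : V) := h2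
    rw [liniso_ip_pr, liniso_pr_ip] at h3
    exact h3
  simp only [B.add_left, B.add_right, B.smul_left, B.smul_right, star_mul', star_inv₀,
    liniso_a0, h1, hy, smul_add]
  rw [B.skew (w : V) v', B.skew v0 v']
  simp only [star_neg, star_star, inv_neg]
  ring

/-- the block on `v0^⊥` -/
private def liniso_Y (X : Module.End E V) : Module.End E (liniso_U B v0) :=
  liniso_pr B v0 hn ∘ₗ X ∘ₗ (liniso_U B v0).subtype

private theorem liniso_Y_SA (X : SA B) :
    liniso_Y B v0 hn X.1 ∈ SA (B.restrict (liniso_U B v0) hn) := by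
  intro v w
  show B.ip (liniso_pr B v0 hn (X.1 (v : V)) : V) (w : V) =
    B.ip (v : V) (liniso_pr B v0 hn (X.1 (w : V)) : V)
  rw [liniso_pr_ip, liniso_ip_pr, X.2]

private theorem liniso_left (hv0 : B.ip v0 v0 ≠ 0) (X : SA B) (v : V) :
    liniso_op B v0 hn (liniso_Y B v0 hn X.1) (liniso_pr B v0 hn (X.1 v0)) (B.ip (X.1 v0) v0) v =
      X.1 v := by
  show (liniso_pr B v0 hn (X.1 (liniso_pr B v0 hn v : V)) : V) +
    ((B.ip v0 v0)⁻¹ * B.ip v (liniso_pr B v0 hn (X.1 v0) : V)) • v0 +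
    ((B.ip v0 v0)⁻¹ * B.ip v v0) • ((liniso_pr B v0 hn (X.1 v0) : V) +
      ((B.ip v0 v0)⁻¹ * B.ip (X.1 v0) v0) • v0) = X.1 v
  rw [← liniso_dec B v0 hn hv0 (X.1 v0)]
  have h1 : B.ip v (liniso_pr B v0 hn (X.1 v0) : V) =
      B.ip (X.1 (liniso_pr B v0 hn v : V)) v0 := by
    rw [X.2, ← liniso_pr_ip, liniso_ip_pr]
  rw [h1, ← liniso_dec B v0 hn hv0]
  conv_rhs => rw [liniso_dec B v0 hn hv0 v, map_add, map_smul]

private theorem liniso_op_v0 (hv0 : B.ip v0 v0 ≠ 0) (Y : Module.End E (liniso_U B v0))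
    (w : liniso_U B v0) (y : E) :
    liniso_op B v0 hn Y w y v0 = (w : V) + ((B.ip v0 v0)⁻¹ * y) • v0 := by
  show (Y (liniso_pr B v0 hn v0) : V) + ((B.ip v0 v0)⁻¹ * B.ip v0 (w : V)) • v0 +
    ((B.ip v0 v0)⁻¹ * B.ip v0 v0) • ((w : V) + ((B.ip v0 v0)⁻¹ * y) • v0) = _
  rw [liniso_pr_v0, map_zero, liniso_v0 B v0 w w.2, inv_mul_cancel₀ hv0, mul_zero, zero_smul,
    one_smul, Submodule.coe_zero, zero_add, zero_add]

private theorem liniso_pr_add (u : liniso_U B v0) (c : E) :
    liniso_pr B v0 hn ((u : V) + c • v0) = u := by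
  rw [map_add, map_smul, liniso_pr_v0, smul_zero, add_zero, liniso_pr_mem]

private theorem liniso_op_u (Y : Module.End E (liniso_U B v0))
    (w : liniso_U B v0) (y : E) (u : liniso_U B v0) :
    liniso_op B v0 hn Y w y (u : V) = (Y u : V) + ((B.ip v0 v0)⁻¹ * B.ip (u : V) (w : V)) • v0 := by
  show (Y (liniso_pr B v0 hn (u : V)) : V) + ((B.ip v0 v0)⁻¹ * B.ip (u : V) (w : V)) • v0 +
    ((B.ip v0 v0)⁻¹ * B.ip (u : V) v0) • ((w : V) + ((B.ip v0 v0)⁻¹ * y) • v0) = _
  rw [liniso_pr_mem, (liniso_mem B v0 u).1 u.2, mul_zero, zero_smul, add_zero]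

end Alg

section Fib

variable (B : SkewH E V) (v0 : V) (hn : NDeg B (liniso_U B v0))

variable (F) in
/-- the fibre over `y` -/
private def liniso_fib (hv0 : B.ip v0 v0 ≠ 0) (y : E) (hy : star y = -y) :
    {X : SA B // B.ip (X.1 v0) v0 = y} ≃ₜ
      SA (B.restrict (liniso_U B v0) hn) × (liniso_U B v0) where
  toFun X := (⟨liniso_Y B v0 hn X.1.1, liniso_Y_SA B v0 hn X.1⟩, liniso_pr B v0 hn (X.1.1 v0))
  invFun q := ⟨⟨liniso_op B v0 hn q.1.1 q.2 y, liniso_op_SA B v0 hn q.1 q.2 y hy⟩, by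
    show B.ip (liniso_op B v0 hn q.1.1 q.2 y v0) v0 = y
    rw [liniso_op_v0 B v0 hn hv0, B.add_left, (liniso_mem B v0 _).1 q.2.2, B.smul_left, zero_add,
      mul_comm _ y, inv_mul_cancel_right₀ hv0]⟩
  left_inv X := by
    refine Subtype.ext (Subtype.ext (LinearMap.ext fun v => ?_))
    have h1 := liniso_left B v0 hn hv0 X.1 v
    rw [X.2] at h1
    exact h1
  right_inv q := by
    refine Prod.ext (Subtype.ext (LinearMap.ext fun u => ?_)) ?_
    · show liniso_pr B v0 hn (liniso_op B v0 hn q.1.1 q.2 y (u : V)) = q.1.1 u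
      rw [liniso_op_u, liniso_pr_add]
    · show liniso_pr B v0 hn (liniso_op B v0 hn q.1.1 q.2 y v0) = q.2
      rw [liniso_op_v0 B v0 hn hv0, liniso_pr_add]
  continuous_toFun := by
    have hpr : Continuous (liniso_pr B v0 hn) := LinearMap.continuous_of_finiteDimensional _
    have h1 : ∀ v : V, Continuous fun X : {X : SA B // B.ip (X.1 v0) v0 = y} => X.1.1 v :=
      fun v => (continuous_end_apply v).comp (continuous_subtype_val.comp continuous_subtype_val)
    refine Continuous.prodMk (Continuous.subtype_mk (continuous_induced_rng.mpr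
      (continuous_pi fun u => ?_)) _) (hpr.comp (h1 v0))
    exact hpr.comp (h1 (u : V))
  continuous_invFun := by
    refine Continuous.subtype_mk (Continuous.subtype_mk (continuous_induced_rng.mpr
      (continuous_pi fun v => ?_)) _) _
    show Continuous fun q : SA (B.restrict (liniso_U B v0) hn) × (liniso_U B v0) =>
      (q.1.1 (liniso_pr B v0 hn v) : V) + ((B.ip v0 v0)⁻¹ * B.ip v (q.2 : V)) • v0 +
      ((B.ip v0 v0)⁻¹ * B.ip v v0) • ((q.2 : V) + ((B.ip v0 v0)⁻¹ * y) • v0)
    have h2 : Continuous fun q : SA (B.restrict (liniso_U B v0) hn) × (liniso_U B v0) =>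
        (q.2 : V) := continuous_subtype_val.comp continuous_snd
    have h3 : Continuous fun q : SA (B.restrict (liniso_U B v0) hn) × (liniso_U B v0) =>
        (q.1.1 (liniso_pr B v0 hn v) : V) := continuous_subtype_val.comp
      ((continuous_end_apply _).comp (continuous_subtype_val.comp continuous_fst))
    exact (h3.add ((continuous_const.mul ((continuous_ip_right F B v).comp h2)).smul
      continuous_const)).add (continuous_const.smul (h2.add continuous_const))

private theorem liniso_pr_ext (hv0 : B.ip v0 v0 ≠ 0)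
    (k : UU (B.restrict (liniso_U B v0) hn)) (x : V) :
    liniso_pr B v0 hn ((extU B (liniso_U B v0) hn k).1.1 x) = k.1.1 (liniso_pr B v0 hn x) := by
  conv_lhs => rw [liniso_dec B v0 hn hv0 x, map_add, map_smul, extU_mem,
    extU_orth B (liniso_U B v0) hn k (liniso_v0 B v0), liniso_pr_add]

private theorem liniso_ext_inv (k : UU (B.restrict (liniso_U B v0) hn)) (u : liniso_U B v0) :
    (extU B (liniso_U B v0) hn k).1⁻¹.1 (u : V) = (k.1⁻¹.1 u : V) := by
  have h1 := extU_mem B (liniso_U B v0) hn k⁻¹ u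
  rw [map_inv] at h1
  exact h1

private theorem liniso_ext_inv0 (k : UU (B.restrict (liniso_U B v0) hn)) :
    (extU B (liniso_U B v0) hn k).1⁻¹.1 v0 = v0 := by
  have h1 := extU_orth B (liniso_U B v0) hn k⁻¹ (liniso_v0 B v0)
  rw [map_inv] at h1
  exact h1

private theorem liniso_tau_U (τ : AntiU B) (hτ : τ.t v0 = v0) :
    ∀ u ∈ liniso_U B v0, τ.t u ∈ liniso_U B v0 := by
  intro u hu
  rw [liniso_mem] at hu ⊢
  have h1 := τ.ip u v0
  rw [hτ, liniso_symm B hu] at h1
  exact h1

private theorem liniso_pr_tau (hv0 : B.ip v0 v0 ≠ 0) (τ : AntiU B) (hτ : τ.t v0 = v0) (x : V) :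
    liniso_pr B v0 hn (τ.t x) =
      (tauRes τ (liniso_U B v0) hn (liniso_tau_U B v0 τ hτ)).t (liniso_pr B v0 hn x) := by
  have h1 : τ.t x = (((tauRes τ (liniso_U B v0) hn (liniso_tau_U B v0 τ hτ)).t
      (liniso_pr B v0 hn x) : liniso_U B v0) : V) + star ((B.ip v0 v0)⁻¹ * B.ip x v0) • v0 := by
    conv_lhs => rw [liniso_dec B v0 hn hv0 x, τ.add, τ.smul, hτ]
    rfl
  rw [h1, liniso_pr_add]

end Fib

theorem lin_iso (B : SkewH E V) (v0 : V) (hv0 : B.ip v0 v0 ≠ 0) (τ0 : AntiU B)
    (hτ0 : τ0.t v0 = v0)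
    (hg : LinGood F (B.restrict (orth B (Submodule.span E {v0}))
      (ndeg_orth B _ (ndeg_span B v0 hv0))))
    (R : SF (SA B) ℂ →ₗ[ℂ] ℂ)
    (h1 : ∀ h ∈ stabV B v0, ∀ f : SF (SA B) ℂ, R (SF.comp (saConj B h) f) = R f)
    (h2 : ∃ a : ℝ, 0 < a ∧ ∀ f : SF (SA B) ℂ, R (SF.comp (saTau F τ0) f) = -(a : ℂ) * R f) :
    R = 0 := by
  haveI := lc_SA F B
  haveI := td_SA F B
  haveI := ts_E F (E := E)
  by_contra hR0
  obtain ⟨a, ha, h3⟩ := h2
  have ha1 : a = 1 := by
    have h4 : ∃ f, R f ≠ 0 := by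
      by_contra h5
      push Not at h5
      exact hR0 (LinearMap.ext h5)
    obtain ⟨f, hf⟩ := h4
    have h5 := h3 (SF.comp (saTau F τ0) f)
    rw [h3 f] at h5
    have h6 : SF.comp (saTau F τ0) (SF.comp (saTau F τ0) f) = f := by
      apply SF.ext
      intro X
      show f (saTau F τ0 (saTau F τ0 X)) = f X
      rw [show saTau F τ0 (saTau F τ0 X) = X from (saTau F τ0).left_inv X]
    rw [h6] at h5
    have h7 : ((a : ℂ) ^ 2 - 1) * R f = 0 := by linear_combination -h5
    have h8 := (mul_eq_zero.1 h7).resolve_right hf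
    have h9 : (((a ^ 2 - 1 : ℝ)) : ℂ) = 0 := by push_cast; exact h8
    have h10 : a ^ 2 - 1 = 0 := Complex.ofReal_eq_zero.1 h9
    nlinarith
  rw [ha1] at h3
  apply hR0
  have hn : NDeg B (liniso_U B v0) := ndeg_orth B _ (ndeg_span B v0 hv0)
  have hτU := liniso_tau_U B v0 τ0 hτ0
  let H : Option (UU (B.restrict (liniso_U B v0) hn)) → (SA B ≃ₜ SA B) := fun i =>
    match i with
    | some k => saConj B (extU B (liniso_U B v0) hn k)
    | none => saTau F τ0
  have hH : ∀ i (X : SA B), B.ip ((H i X).1 v0) v0 = B.ip (X.1 v0) v0 := by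
    intro i X
    cases i with
    | some k =>
      show B.ip ((extU B (liniso_U B v0) hn k).1.1 (X.1
        ((extU B (liniso_U B v0) hn k).1⁻¹.1 v0))) v0 = _
      rw [liniso_ext_inv0]
      have h4 := (extU B (liniso_U B v0) hn k).2 (X.1 v0) v0
      rw [extU_orth B (liniso_U B v0) hn k (liniso_v0 B v0)] at h4
      exact h4
    | none =>
      show B.ip (τ0.t (X.1 (τ0.t v0))) v0 = _
      rw [hτ0]
      have h4 := τ0.ip (X.1 v0) v0
      rw [hτ0] at h4
      rw [h4, X.2]
  let c : Option (UU (B.restrict (liniso_U B v0) hn)) → ℂ := fun i =>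
    match i with
    | some _ => 1
    | none => -1
  have hπ : Continuous fun X : SA B => B.ip (X.1 v0) v0 :=
    (continuous_ip_left B v0).comp ((continuous_end_apply v0).comp continuous_subtype_val)
  refine localise (fun X : SA B => B.ip (X.1 v0) v0) hπ H hH (fun _ => LinearMap.id) c ?_ R ?_
  · intro y S hS
    by_cases hy : star y = -y
    · let Φ := liniso_fib F B v0 hn hv0 y hy
      have h4 : S ∘ₗ SF.comp Φ = 0 := by
        refine hg (tauRes τ0 (liniso_U B v0) hn hτU) _ (fun k f => ?_) (fun f => ?_)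
        · have h5 := hS (some k) (SF.comp Φ f)
          rw [show c (some k) = 1 from rfl, one_mul] at h5
          show S (SF.comp Φ (linAct (B.restrict (liniso_U B v0) hn) k f)) = S (SF.comp Φ f)
          rw [← h5]
          congr 1
          apply SF.ext
          intro X
          show f (saConj (B.restrict (liniso_U B v0) hn) k (Φ X).1, k.1.1 (Φ X).2) =
            f (Φ (fibH (fun X : SA B => B.ip (X.1 v0) v0) (H (some k)) (hH (some k)) y X))
          refine congrArg f.1 (Prod.ext (Subtype.ext (LinearMap.ext fun u => ?_)) ?_)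
          · show k.1.1 (liniso_pr B v0 hn (X.1.1 (k.1⁻¹.1 u : V))) =
              liniso_pr B v0 hn ((extU B (liniso_U B v0) hn k).1.1 (X.1.1
                ((extU B (liniso_U B v0) hn k).1⁻¹.1 (u : V))))
            rw [liniso_pr_ext B v0 hn hv0, liniso_ext_inv]
          · show k.1.1 (liniso_pr B v0 hn (X.1.1 v0)) =
              liniso_pr B v0 hn ((extU B (liniso_U B v0) hn k).1.1 (X.1.1
                ((extU B (liniso_U B v0) hn k).1⁻¹.1 v0)))
            rw [liniso_pr_ext B v0 hn hv0, liniso_ext_inv0]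
        · have h5 := hS none (SF.comp Φ f)
          rw [show c none = -1 from rfl, neg_one_mul] at h5
          show S (SF.comp Φ (linTau F (tauRes τ0 (liniso_U B v0) hn hτU) f)) = - S (SF.comp Φ f)
          rw [← h5]
          congr 1
          apply SF.ext
          intro X
          show f (saTau F (tauRes τ0 (liniso_U B v0) hn hτU) (Φ X).1,
              (tauRes τ0 (liniso_U B v0) hn hτU).t (Φ X).2) =
            f (Φ (fibH (fun X : SA B => B.ip (X.1 v0) v0) (H none) (hH none) y X))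
          refine congrArg f.1 (Prod.ext (Subtype.ext (LinearMap.ext fun u => ?_)) ?_)
          · show (tauRes τ0 (liniso_U B v0) hn hτU).t (liniso_pr B v0 hn (X.1.1 (τ0.t (u : V)))) =
              liniso_pr B v0 hn (τ0.t (X.1.1 (τ0.t (u : V))))
            rw [liniso_pr_tau B v0 hn hv0 τ0 hτ0]
          · show (tauRes τ0 (liniso_U B v0) hn hτU).t (liniso_pr B v0 hn (X.1.1 v0)) =
              liniso_pr B v0 hn (τ0.t (X.1.1 (τ0.t v0)))
            rw [liniso_pr_tau B v0 hn hv0 τ0 hτ0, hτ0]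
      apply LinearMap.ext
      intro f
      have h5 := congrArg (fun R => R (SF.comp Φ.symm f)) h4
      have h6 : SF.comp Φ (SF.comp Φ.symm f) = f := by
        apply SF.ext
        intro x
        show f (Φ.symm (Φ x)) = f x
        rw [Φ.symm_apply_apply]
      have h7 : S (SF.comp Φ (SF.comp Φ.symm f)) = 0 := h5
      rw [h6] at h7
      exact h7
    · apply LinearMap.ext
      intro f
      have h0 : f = 0 := by
        apply SF.ext
        intro X
        refine absurd ?_ hy
        have h4 : B.ip (X.1.1 v0) v0 = y := X.2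
        have h5 : B.ip v0 (X.1.1 v0) = y := by rw [← X.1.2]; exact h4
        rw [B.skew (X.1.1 v0) v0, h4] at h5
        rw [← neg_neg (star y), h5]
      rw [h0, map_zero, map_zero]
  · intro i f
    cases i with
    | some k =>
      show R (SF.comp (saConj B (extU B (liniso_U B v0) hn k)) f) = 1 * R f
      rw [one_mul]
      exact h1 _ (extU_orth B (liniso_U B v0) hn k (liniso_v0 B v0)) f
    | none =>
      show R (SF.comp (saTau F τ0) f) = -1 * R f
      rw [h3 f, Complex.ofReal_one]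

end

end Pool.Agent.Work.MP_dd0ddf_al.OC
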