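import Pool.Agent.Work.MP_dd0ddf_al.OC.LinDefs

/-!
# MP_dd0ddf_al, module LinFib: localisation along (X, v) ↦ ⟨v, v⟩

Let `X° = {x : SA B × V | ipv B x ≠ 0}`, open (ipv is continuous), with its topology locally compact, T2, totally disconnected (`lc_SA, td_SA, lc_V, td_V`).
`T° = T ∘ ext0` is a functional on `SF X° ℂ`; all homeomorphisms `(saConj h, h)`, `(saTau, τ)` preserve `X°` and `ipv`.  Apply `localise` with
`π = ipv : X° → E` (`ts_E F`), index type `Option (UU B)` (some h: scalar 1, none: τ, scalar -1), `m = id`.  A fibre of `X° → E` over `c`: empty if `c = 0`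
(then `SF` is zero); otherwise homeomorphic to `{x : SA B × V // ipv B x = c}` compatibly with the operators: transfer and use `h`.
So `T° = 0`; a function on `SA B × V` supported in `X°` is `ext0` of its restriction.
-/

set_option linter.unusedSectionVars false
set_option linter.style.haveILetI false

namespace Pool.Agent.Work.MP_dd0ddf_al.OC

noncomputable section

universe u

variable {F E : Type u} [NontriviallyNormedField F] [IsUltrametricDist F] [ProperSpace F]
  [NeZero (2 : F)] [NontriviallyNormedField E] [NormedAlgebra F E] [ProperSpace E] [StarRing E]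
  [QExt F E]
variable {V : Type u} [AddCommGroup V] [Module E V] [Module.Finite E V] [TopologicalSpace V]
  [IsTopologicalAddGroup V] [T2Space V] [ContinuousSMul E V]

/-- invariance of a functional on a fibre of ipv -/
def FibInv (B : SkewH E V) (c : E) (S : SF {x : SA B × V // ipv B x = c} ℂ →ₗ[ℂ] ℂ) : Prop :=
  ∀ (h : UU B) (f : SF {x : SA B × V // ipv B x = c} ℂ), S (SF.comp (fibH (ipv B) ((saConj B h).prodCongr (gvHomeo h.1)) (ipv_lin B h) c) f) =
    S f

variable (F) in
/-- antisymmetry of a functional on a fibre of ipv -/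
def FibAnti {B : SkewH E V} (τ : AntiU B) (c : E)
    (S : SF {x : SA B × V // ipv B x = c} ℂ →ₗ[ℂ] ℂ) : Prop :=
  ∀ f : SF {x : SA B × V // ipv B x = c} ℂ, S (SF.comp (fibH (ipv B) ((saTau F τ).prodCongr (tauH F τ)) (ipv_tau τ) c) f) = - S f

private theorem linfib_ext0 {X : Type*} [TopologicalSpace X] [T2Space X] (W : Set X)
    (hW : IsOpen W) (f : SF X ℂ) (hf : ∀ x, x ∉ W → f x = 0) :
    ∃ g : SF W ℂ, SF.ext0 W hW g = f := by
  have hs : IsClosed (Function.support f.1) := by
    have h : (Function.support f.1)ᶜ = f.1 ⁻¹' {0} := by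
      ext x
      simp [Function.mem_support]
    exact ⟨by
      rw [h]
      exact f.2.1 _⟩
  have hc : IsCompact (Function.support f.1) := by
    have h1 : tsupport f.1 = Function.support f.1 := hs.closure_eq
    rw [← h1]
    exact f.2.2
  have hsW : Function.support f.1 ⊆ W := by
    intro x hx
    by_contra hn
    exact hx (hf x hn)
  refine ⟨⟨fun x => f x.1, f.2.1.comp_continuous continuous_subtype_val, ?_⟩, ?_⟩
  · refine HasCompactSupport.of_support_subset_isCompact
      (K := (Subtype.val : W → X) ⁻¹' (Function.support f.1)) ?_ (fun x hx => hx)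
    refine Topology.IsEmbedding.subtypeVal.isCompact_preimage_iff ?_ |>.2 hc
    rw [Subtype.range_val]
    exact hsW
  · apply SF.ext
    intro x
    by_cases hx : x ∈ W
    · rw [SF.ext0_apply_mem _ _ _ _ hx]
    · rw [SF.ext0_apply_not_mem _ _ _ _ hx, hf x hx]

variable (F) in
include F in
private theorem linfib_cont (B : SkewH E V) : Continuous (fun v : V => B.ip v v) := by
  have h : (fun v : V => B.ip v v) = fun v => ∑ i, (Module.finBasis E V).coord i v *
      B.ip (Module.finBasis E V i) v := by
    funext v
    have h1 : B.lin v v = ∑ i, (Module.finBasis E V).repr v i *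
      B.lin v (Module.finBasis E V i) := by
      conv_lhs => arg 2; rw [← (Module.finBasis E V).sum_repr v]
      rw [map_sum]
      refine Finset.sum_congr rfl fun i _ => ?_
      rw [map_smul, smul_eq_mul]
    exact h1
  rw [h]
  refine continuous_finsetSum _ fun i _ => ?_
  exact ((Module.finBasis E V).coord i).continuous_of_finiteDimensional.mul
    (continuous_ip_right F B (Module.finBasis E V i))

variable (F) in
include F in
private theorem linfib_contp (B : SkewH E V) : Continuous (ipv B) :=
  (linfib_cont F B).comp continuous_snd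

variable (F) in
include F in
private theorem linfib_open (B : SkewH E V) : IsOpen {x : SA B × V | ipv B x ≠ 0} :=
  isOpen_ne.preimage (linfib_contp F B)

/-- the restriction of a homeomorphism to `X°` -/
private def linfib_res (B : SkewH E V) (a : SA B × V ≃ₜ SA B × V)
    (ha : ∀ x, ipv B (a x) = ipv B x) :
    {x : SA B × V | ipv B x ≠ 0} ≃ₜ {x : SA B × V | ipv B x ≠ 0} :=
  a.subtype fun x => by
    show ipv B x ≠ 0 ↔ ipv B (a x) ≠ 0
    rw [ha]

/-- the fibre of `X°` over `y ≠ 0` -/
private def linfib_fib (B : SkewH E V) (y : E) (hy : y ≠ 0) :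
    {x : {x : SA B × V | ipv B x ≠ 0} // ipv B x.1 = y} ≃ₜ {x : SA B × V // ipv B x = y} where
  toFun x := ⟨x.1.1, x.2⟩
  invFun z := ⟨⟨z.1, fun h0 => hy (z.2.symm.trans h0)⟩, z.2⟩
  left_inv _ := rfl
  right_inv _ := rfl
  continuous_toFun := (continuous_subtype_val.comp continuous_subtype_val).subtype_mk _
  continuous_invFun := (continuous_subtype_val.subtype_mk _).subtype_mk _

theorem lin_fib {B : SkewH E V} (τ : AntiU B)
    (h : ∀ c : E, c ≠ 0 → ∀ S, FibInv B c S → FibAnti F τ c S → S = 0)
    (T : SF (SA B × V) ℂ →ₗ[ℂ] ℂ) (hT : LinInv B T) (hT' : LinAnti F τ T) :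
    SF.VanishOn T {x | ipv B x ≠ 0} := by
  haveI := lc_V E V
  haveI := td_V F E V
  haveI := lc_SA F B
  haveI := td_SA F B
  haveI := ts_E F (E := E)
  have hW : IsOpen {x : SA B × V | ipv B x ≠ 0} := linfib_open F B
  haveI : LocallyCompactSpace {x : SA B × V | ipv B x ≠ 0} := hW.locallyCompactSpace
  let H : Option (UU B) → (SA B × V ≃ₜ SA B × V) := fun i =>
    match i with
    | some g => (saConj B g).prodCongr (gvHomeo g.1)
    | none => (saTau F τ).prodCongr (tauH F τ)
  have hH : ∀ i x, ipv B (H i x) = ipv B x := by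
    intro i x
    cases i with
    | some g => exact ipv_lin B g x
    | none => exact ipv_tau τ x
  let c : Option (UU B) → ℂ := fun i =>
    match i with
    | some _ => 1
    | none => -1
  have hTH : ∀ i f, T (SF.comp (H i) f) = c i * T f := by
    intro i f
    cases i with
    | some g =>
      show T (linAct B g f) = 1 * T f
      rw [one_mul]
      exact hT g f
    | none =>
      show T (linTau F τ f) = -1 * T f
      rw [neg_one_mul]
      exact hT' f
  have key : T ∘ₗ SF.ext0 {x : SA B × V | ipv B x ≠ 0} hW = 0 := by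
    refine localise (fun x : {x : SA B × V | ipv B x ≠ 0} => ipv B x.1)
      ((linfib_contp F B).comp continuous_subtype_val)
      (fun i => linfib_res B (H i) (hH i)) (fun i x => hH i x.1) (fun _ => LinearMap.id) c ?_ _ ?_
    · intro y S hS
      by_cases hy : y = 0
      · apply LinearMap.ext
        intro f
        have h0 : f = 0 := by
          apply SF.ext
          intro x
          exact absurd (x.2.trans hy) x.1.2
        rw [h0, map_zero, map_zero]
      · have h1 := h y hy (S ∘ₗ SF.comp (linfib_fib B y hy)) (fun g f => by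
          have h2 := hS (some g) (SF.comp (linfib_fib B y hy) f)
          rw [show c (some g) = 1 from rfl, one_mul] at h2
          exact h2) (fun f => by
          have h2 := hS none (SF.comp (linfib_fib B y hy) f)
          rw [show c none = -1 from rfl, neg_one_mul] at h2
          exact h2)
        apply LinearMap.ext
        intro f
        have h3 := congrArg (fun R : SF {x : SA B × V // ipv B x = y} ℂ →ₗ[ℂ] ℂ =>
          R (SF.comp (linfib_fib B y hy).symm f)) h1
        have h4 : SF.comp (linfib_fib B y hy) (SF.comp (linfib_fib B y hy).symm f) = f :=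
          SF.ext fun x => rfl
        have h5 : S (SF.comp (linfib_fib B y hy) (SF.comp (linfib_fib B y hy).symm f)) = 0 := h3
        rw [h4] at h5
        exact h5
    · intro i f
      have h1 := hTH i (SF.ext0 {x : SA B × V | ipv B x ≠ 0} hW f)
      show T (SF.ext0 {x : SA B × V | ipv B x ≠ 0} hW
        (SF.opr (linfib_res B (H i) (hH i)) LinearMap.id f)) =
        c i * T (SF.ext0 {x : SA B × V | ipv B x ≠ 0} hW f)
      rw [← h1]
      congr 1
      apply SF.ext
      intro x
      show _ = SF.ext0 {x : SA B × V | ipv B x ≠ 0} hW f (H i x)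
      by_cases hx : x ∈ {x : SA B × V | ipv B x ≠ 0}
      · have hx' : H i x ∈ {x : SA B × V | ipv B x ≠ 0} := by
          show ipv B (H i x) ≠ 0
          rw [hH]
          exact hx
        rw [SF.ext0_apply_mem _ _ _ _ hx, SF.ext0_apply_mem _ _ _ _ hx']
        rfl
      · have hx' : H i x ∉ {x : SA B × V | ipv B x ≠ 0} := by
          intro h3
          apply hx
          have h4 : ipv B (H i x) ≠ 0 := h3
          rw [hH] at h4
          exact h4
        rw [SF.ext0_apply_not_mem _ _ _ _ hx, SF.ext0_apply_not_mem _ _ _ _ hx']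
  intro f hf
  obtain ⟨g, hg⟩ := linfib_ext0 _ hW f hf
  rw [← hg]
  exact congrArg (fun R : SF {x : SA B × V | ipv B x ≠ 0} ℂ →ₗ[ℂ] ℂ => R g) key

end

end Pool.Agent.Work.MP_dd0ddf_al.OC
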