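import Pool.Agent.Work.MP_dd0ddf_al.OC.LinNu
import Pool.Agent.Work.MP_dd0ddf_al.OC.LinFour

/-!
# MP_dd0ddf_al, module LinZ1: the minimal closed set Z and an open orbit

`Zset`: the set of `X` such that every neighbourhood `W` of `X` supports some `T ∈ D_P` (T f ≠ 0 for an f supported in W × V).
`zset_closed`: complement open by definition.  `zset_inv`: translate (T is invariant: `linAct`).
`zset_supp`: if `T ∈ D_P` and `f = 0` on `Zset × V` then `T f = 0`: `vanish_local`: each point `(Y, v)` of the support of f has `Y ∉ Zset`, so there is `W ∋ Y` open such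
that `T` kills the functions supported in `W × V`.
`zset_char`: `Zset ⊆ {charpoly = P}` (closed set, T is supported on it).
`zset_orbit`: if `Zset ≠ ∅` there are `X ∈ Zset` and an open `U(V)`-stable `W ∋ X` such that `Zset ∩ W` is the orbit of `X`: `Zset` is closed in `SA B` (locally
compact) and the continuous action `CAct (UU B) Zset` has countably many orbits by `hcount`; `exists_open_orbit`; the orbit is `Zset ∩ W0` with `W0` open in `SA B`; put
`W = ⋃ h W0`.
-/

set_option linter.unusedSectionVars false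
set_option linter.style.haveILetI false

namespace Pool.Agent.Work.MP_dd0ddf_al.OC

noncomputable section

universe u

variable {F E : Type u} [NontriviallyNormedField F] [IsUltrametricDist F] [ProperSpace F]
  [NeZero (2 : F)] [NontriviallyNormedField E] [NormedAlgebra F E] [ProperSpace E] [StarRing E]
  [QExt F E]
variable {V : Type u} [AddCommGroup V] [Module E V] [Module.Finite E V] [TopologicalSpace V]
  [IsTopologicalAddGroup V] [T2Space V] [ContinuousSMul E V]

omit [ProperSpace E] [IsTopologicalAddGroup V] [T2Space V] [ContinuousSMul E V]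
  [TopologicalSpace V] [Module.Finite E V] in
private theorem linz1_inv (B : SkewH E V) (g h : UU B) :
    (g * h).1⁻¹.1 = h.1⁻¹.1 * g.1⁻¹.1 := by
  have h1 : ((g * h).1⁻¹ : GV E V) = h.1⁻¹ * g.1⁻¹ := mul_inv_rev _ _
  rw [h1]
  rfl

private theorem linz1_mul (B : SkewH E V) (g h : UU B) (X : SA B) :
    saConj B (g * h) X = saConj B g (saConj B h X) := by
  apply Subtype.ext
  show (g.1.1 * h.1.1) * X.1 * (g * h).1⁻¹.1 = g.1.1 * (h.1.1 * X.1 * h.1⁻¹.1) * g.1⁻¹.1
  rw [linz1_inv]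
  simp only [mul_assoc]

private theorem linz1_one (B : SkewH E V) (X : SA B) : saConj B 1 X = X := by
  apply Subtype.ext
  show (1 : GV E V).1 * X.1 * ((1 : GV E V)⁻¹).1 = X.1
  rw [inv_one, Units.val_one, one_mul, mul_one]

private theorem linz1_inv_conj (B : SkewH E V) (h : UU B) (X : SA B) :
    saConj B h⁻¹ (saConj B h X) = X := by
  rw [← linz1_mul, inv_mul_cancel, linz1_one]

private def linz1_act (B : SkewH E V) : CAct (UU B) (SA B) where
  act h X := saConj B h X
  one X := linz1_one B X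
  mul g h X := linz1_mul B g h X
  cont := by
    refine Continuous.subtype_mk ?_ _
    show Continuous fun q : UU B × SA B => q.1.1.1 * q.2.1 * q.1.1⁻¹.1
    exact ((Units.continuous_val.comp (continuous_subtype_val.comp continuous_fst)).mul
      (continuous_subtype_val.comp continuous_snd)).mul
      (Units.continuous_val.comp ((continuous_subtype_val.comp continuous_fst).inv))

/-- the minimal closed set outside of which all `T ∈ D_P` vanish -/
def Zset {B : SkewH E V} (F : Type u) [NontriviallyNormedField F] [ProperSpace F]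
    [NormedAlgebra F E] [QExt F E] [IsUltrametricDist F] [NeZero (2 : F)] (τ : AntiU B)
    (P : Polynomial E) : Set (SA B) :=
  {X | ∀ W : Set (SA B), IsOpen W → X ∈ W → ∃ T, InD F τ P T ∧
    ∃ f : SF (SA B × V) ℂ, (∀ x : SA B × V, x.1 ∉ W → f x = 0) ∧ T f ≠ 0}

theorem zset_closed {B : SkewH E V} (τ : AntiU B) (P : Polynomial E) :
    IsClosed (Zset F τ P) := by
  rw [← isOpen_compl_iff, isOpen_iff_forall_mem_open]
  intro X hX
  have hX' : ¬ ∀ W : Set (SA B), IsOpen W → X ∈ W → ∃ T, InD F τ P T ∧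
    ∃ f : SF (SA B × V) ℂ, (∀ x : SA B × V, x.1 ∉ W → f x = 0) ∧ T f ≠ 0 := hX
  push Not at hX'
  obtain ⟨W, hW, hXW, h⟩ := hX'
  refine ⟨W, fun Y hY hYZ => ?_, hW, hXW⟩
  obtain ⟨T, hT, f, hf, hTf⟩ := hYZ W hW hY
  exact hTf (h T hT f hf)

theorem zset_inv {B : SkewH E V} (τ : AntiU B) (P : Polynomial E) (h : UU B) (X : SA B)
    (hX : X ∈ Zset F τ P) : saConj B h X ∈ Zset F τ P := by
  intro W hW hXW
  obtain ⟨T, hT, f, hf, hTf⟩ := hX ((saConj B h) ⁻¹' W) (hW.preimage (saConj B h).continuous) hXW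
  refine ⟨T, hT, SF.comp ((saConj B h).prodCongr (gvHomeo h.1)).symm f, fun x hx => ?_, ?_⟩
  · show f ((saConj B h).symm x.1, (gvHomeo h.1).symm x.2) = 0
    refine hf _ fun hx' => hx ?_
    have h1 : saConj B h ((saConj B h).symm x.1) ∈ W := hx'
    rwa [(saConj B h).apply_symm_apply] at h1
  · have h1 := hT.inv h (SF.comp ((saConj B h).prodCongr (gvHomeo h.1)).symm f)
    have h2 : linAct B h (SF.comp ((saConj B h).prodCongr (gvHomeo h.1)).symm f) = f := by
      apply SF.ext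
      intro x
      show f (((saConj B h).prodCongr (gvHomeo h.1)).symm
        (((saConj B h).prodCongr (gvHomeo h.1)) x)) = f x
      rw [Homeomorph.symm_apply_apply]
    rw [h2] at h1
    rw [← h1]
    exact hTf

theorem zset_supp {B : SkewH E V} (τ : AntiU B) (P : Polynomial E)
    (T : SF (SA B × V) ℂ →ₗ[ℂ] ℂ) (hT : InD F τ P T) :
    SF.SuppOn T {x : SA B × V | x.1 ∈ Zset F τ P} := by
  haveI := lc_V E V
  haveI := td_V F E V
  haveI := lc_SA F B
  haveI := td_SA F B
  intro f hf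
  refine vanish_local T f fun x hx => ?_
  have hxZ : ¬ ∀ W : Set (SA B), IsOpen W → x.1 ∈ W → ∃ T, InD F τ P T ∧
      ∃ f : SF (SA B × V) ℂ, (∀ x : SA B × V, x.1 ∉ W → f x = 0) ∧ T f ≠ 0 :=
    fun h => hx (hf x h)
  push Not at hxZ
  obtain ⟨W, hW, hxW, h⟩ := hxZ
  exact ⟨{y | y.1 ∈ W}, hW.preimage continuous_fst, hxW, fun g hg => h T hT g hg⟩

theorem zset_char {B : SkewH E V} (τ : AntiU B) (P : Polynomial E) (X : SA B)
    (hX : X ∈ Zset F τ P) : LinearMap.charpoly X.1 = P := by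
  by_contra hne
  have hc : IsClosed {Y : SA B | LinearMap.charpoly Y.1 = P} :=
    (isClosed_char B P).preimage
      (show Continuous fun Y : SA B => ((Y, 0) : SA B × V) from
        continuous_id.prodMk continuous_const)
  obtain ⟨T, hT, f, hf, hTf⟩ := hX _ hc.isOpen_compl hne
  exact hTf (hT.supp f fun x hx => hf x fun h => h hx)

theorem zset_nonempty {B : SkewH E V} (τ : AntiU B) (P : Polynomial E)
    (T : SF (SA B × V) ℂ →ₗ[ℂ] ℂ) (hT : InD F τ P T) (h0 : T ≠ 0) : (Zset F τ P).Nonempty := by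
  by_contra hne
  rw [Set.not_nonempty_iff_eq_empty] at hne
  refine h0 (LinearMap.ext fun f => ?_)
  refine zset_supp τ P T hT f fun x hx => ?_
  have h1 : x.1 ∈ Zset F τ P := hx
  rw [hne] at h1
  exact h1.elim

theorem zset_orbit {B : SkewH E V} (τ : AntiU B) (P : Polynomial E)
    (hcount : ∃ s : Set (SA B), s.Countable ∧ ∀ X : SA B, LinearMap.charpoly X.1 = P →
      ∃ Y ∈ s, LinearMap.charpoly Y.1 = P ∧ ∃ h : UU B, saConj B h Y = X)
    (hne : (Zset F τ P).Nonempty) :
    ∃ X ∈ Zset F τ P, ∃ W : Set (SA B), IsOpen W ∧ X ∈ W ∧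
      (∀ (h : UU B) (Y : SA B), Y ∈ W → saConj B h Y ∈ W) ∧
      ∀ Y ∈ Zset F τ P, Y ∈ W → ∃ h : UU B, saConj B h X = Y := by
  haveI := lc_SA F B
  haveI := lc_UU F B
  haveI : Nonempty (Zset F τ P) := hne.to_subtype
  haveI : LocallyCompactSpace (Zset F τ P) :=
    (zset_closed τ P).isClosedEmbedding_subtypeVal.locallyCompactSpace
  obtain ⟨s, hs, hcov⟩ := hcount
  obtain ⟨x0, hx0⟩ := exists_open_orbit
    ((linz1_act B).sub (Zset F τ P) (fun h X hX => zset_inv τ P h X hX))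
    (Subtype.val ⁻¹' s) (hs.preimage_of_injOn Subtype.val_injective.injOn) (by
      intro x
      obtain ⟨Y, hYs, -, h, hh⟩ := hcov x.1 (zset_char τ P x.1 x.2)
      have hY : Y = saConj B h⁻¹ x.1 := by rw [← hh, linz1_inv_conj]
      exact ⟨⟨Y, by rw [hY]; exact zset_inv τ P h⁻¹ x.1 x.2⟩, hYs, h, Subtype.ext hh⟩)
  obtain ⟨W0, hW0, hW0'⟩ := isOpen_induced_iff.1 hx0
  have hmem : ∀ Y : Zset F τ P, Y.1 ∈ W0 ↔ ∃ h : UU B, saConj B h x0.1 = Y.1 := by
    intro Y
    have h1 : Y ∈ Subtype.val ⁻¹' W0 ↔ Y ∈ {y | ∃ γ, ((linz1_act B).sub (Zset F τ P)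
        (fun h X hX => zset_inv τ P h X hX)).act γ x0 = y} := by rw [hW0']
    refine h1.trans ⟨fun ⟨h, hh⟩ => ⟨h, congrArg Subtype.val hh⟩, fun ⟨h, hh⟩ =>
      ⟨h, Subtype.ext hh⟩⟩
  refine ⟨x0.1, x0.2, ⋃ h : UU B, (saConj B h) ⁻¹' W0,
    isOpen_iUnion fun h => hW0.preimage (saConj B h).continuous, ?_, ?_, ?_⟩
  · refine Set.mem_iUnion.2 ⟨1, ?_⟩
    show saConj B 1 x0.1 ∈ W0
    rw [linz1_one]
    exact (hmem x0).2 ⟨1, linz1_one B _⟩
  · intro h Y hY
    obtain ⟨g, hg⟩ := Set.mem_iUnion.1 hY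
    refine Set.mem_iUnion.2 ⟨g * h⁻¹, ?_⟩
    show saConj B (g * h⁻¹) (saConj B h Y) ∈ W0
    rw [linz1_mul, linz1_inv_conj]
    exact hg
  · intro Y hYZ hY
    obtain ⟨g, hg⟩ := Set.mem_iUnion.1 hY
    obtain ⟨h, hh⟩ := (hmem ⟨saConj B g Y, zset_inv τ P g Y hYZ⟩).1 hg
    refine ⟨g⁻¹ * h, ?_⟩
    rw [linz1_mul, hh]
    exact linz1_inv_conj B g Y

end

end Pool.Agent.Work.MP_dd0ddf_al.OC
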