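import Pool.Agent.Work.MP_dd0ddf_al.OC.LinZ1

/-!
# MP_dd0ddf_al, module LinZ2: the support over an open orbit of Z is contained in the vectors v with ⟨Y v, v⟩ = 0 for all Y commuting with X

Let `T ∈ D_P`, `f` supported over `W`, vanishing at all `(X, v)` with `v ∈ Cset B X`.  By `vanish_local` (for `T`, f) let `(X1, v1)` with `f(X1, v1) ≠ 0`, so `X1 ∈ W`,
`v1 ∉ Cset B X1`; claim: `T` kills the functions supported in some neighbourhood of `(X1, v1)`.  Otherwise `(X1, v1)` is in the support of `T`.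
Let `ζ ∈ E` with `star ζ = -ζ`.  `T ∘ comp (nu (-ζ))`... : for `T' = T ∘ₗ comp (nu B ζ' _) ∈ D_P` (nu_InD) one has `(X1, v1)` in supp T implies
`nu ζ' (X1, v1)`-translate in supp T': precisely `T' g = T (g ∘ nu ζ')`, so for every neighbourhood `N` of `nu ζ' (X1,v1)` there is `g` supported in N with `T' g ≠ 0`.
Hence `X1 + ζ' v1 v1^* ∈ Zset` for every skew `ζ'`.  (In particular `X1 ∈ Zset`, ζ' = 0.)
Take `ζ' = t η`, `t ∈ F` tending to 0 (`exists_eta`): `Y_t = X1 + tη v1 v1^* ∈ Zset ∩ W` for `t` small, so `Y_t = h_t X1 h_t⁻¹` with `h_t ∈ U(V)`, and `h_t → 1` can be arranged: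
the orbit map `h ↦ h X1 h⁻¹` of `UU B` onto the orbit `Zset ∩ W` (locally compact: open in the closed set Zset) is open (`orbit_map_open`).
Let `Y` commute with `X1`.  From `h_t X1 = Y_t h_t = X1 h_t + tη (v1 v1^*) h_t` and `trace(Y (h_t X1 - X1 h_t)) = 0` (Y commutes with X1, cyclicity of the trace) get
`tη · trace(Y (v1 v1^*)' h_t) = 0`, where `(v1 v1^*)' x = ⟨x, v1⟩ v1`; the trace of `x ↦ ⟨h_t x, v1⟩ Y v1` is `⟨h_t Y v1, v1⟩`.  So `⟨h_t Y v1, v1⟩ = 0` for all small `t ≠ 0`, and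
`t → 0` gives `⟨Y v1, v1⟩ = 0`: `v1 ∈ Cset B X1`, contradiction.
-/

set_option linter.unusedSectionVars false
set_option linter.style.haveILetI false

namespace Pool.Agent.Work.MP_dd0ddf_al.OC

noncomputable section

universe u

variable {F E : Type u} [NontriviallyNormedField F] [IsUltrametricDist F] [ProperSpace F]
  [NeZero (2 : F)] [NontriviallyNormedField E] [NormedAlgebra F E] [ProperSpace E] [StarRing E]
  [QExt F E]
variable {V : Type u} [AddCommGroup V] [Module E V] [Module.Finite E V] [TopologicalSpace V]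
  [IsTopologicalAddGroup V] [T2Space V] [ContinuousSMul E V]

omit [ProperSpace E] [IsTopologicalAddGroup V] [T2Space V] [ContinuousSMul E V]
  [TopologicalSpace V] [Module.Finite E V] in
private theorem linz2_inv (B : SkewH E V) (g h : UU B) :
    (g * h).1⁻¹.1 = h.1⁻¹.1 * g.1⁻¹.1 := by
  have h1 : ((g * h).1⁻¹ : GV E V) = h.1⁻¹ * g.1⁻¹ := mul_inv_rev _ _
  rw [h1]
  rfl

private theorem linz2_mul (B : SkewH E V) (g h : UU B) (X : SA B) :
    saConj B (g * h) X = saConj B g (saConj B h X) := by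
  apply Subtype.ext
  show (g.1.1 * h.1.1) * X.1 * (g * h).1⁻¹.1 = g.1.1 * (h.1.1 * X.1 * h.1⁻¹.1) * g.1⁻¹.1
  rw [linz2_inv]
  simp only [mul_assoc]

private theorem linz2_one (B : SkewH E V) (X : SA B) : saConj B 1 X = X := by
  apply Subtype.ext
  show (1 : GV E V).1 * X.1 * ((1 : GV E V)⁻¹).1 = X.1
  rw [inv_one, Units.val_one, one_mul, mul_one]

private def linz2_act (B : SkewH E V) : CAct (UU B) (SA B) where
  act h X := saConj B h X
  one X := linz2_one B X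
  mul g h X := linz2_mul B g h X
  cont := by
    refine Continuous.subtype_mk ?_ _
    show Continuous fun q : UU B × SA B => q.1.1.1 * q.2.1 * q.1.1⁻¹.1
    exact ((Units.continuous_val.comp (continuous_subtype_val.comp continuous_fst)).mul
      (continuous_subtype_val.comp continuous_snd)).mul
      (Units.continuous_val.comp ((continuous_subtype_val.comp continuous_fst).inv))

/-- the trace identity -/
private theorem linz2_trace (B : SkewH E V) (X1 Y R : Module.End E V) (v1 : V) (z : E)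
    (hz : z ≠ 0) (hR : ∀ x, R x = (z * B.ip x v1) • v1) (hY : Y * X1 = X1 * Y) (γ : GV E V)
    (h : γ.1 * X1 * γ⁻¹.1 = X1 + R) : B.ip (γ.1 (Y v1)) v1 = 0 := by
  have h1 : γ.1 * X1 = X1 * γ.1 + R * γ.1 := by
    calc γ.1 * X1 = (γ.1 * X1 * γ⁻¹.1) * γ.1 := by
          rw [mul_assoc, show γ⁻¹.1 * γ.1 = 1 from γ.inv_mul, mul_one]
      _ = X1 * γ.1 + R * γ.1 := by rw [h, add_mul]
  have h2 : LinearMap.trace E V (Y * (γ.1 * X1)) = LinearMap.trace E V (Y * (X1 * γ.1)) := by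
    rw [← mul_assoc, LinearMap.trace_mul_comm, ← mul_assoc, ← hY, mul_assoc]
  have h3 : LinearMap.trace E V (Y * (R * γ.1)) = 0 := by
    rw [h1, mul_add, map_add] at h2
    exact left_eq_add.1 h2.symm
  let f : V →ₗ[E] E := z • ((B.lin v1) ∘ₗ γ.1)
  have h4 : Y * (R * γ.1) = f.smulRight (Y v1) := by
    ext x
    show Y (R (γ.1 x)) = (z * B.ip (γ.1 x) v1) • Y v1
    rw [hR, map_smul]
  rw [h4, LinearMap.trace_smulRight] at h3
  have h5 : z * B.ip (γ.1 (Y v1)) v1 = 0 := h3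
  exact (mul_eq_zero.1 h5).resolve_left hz

/-- moving the support by `nu` -/
private theorem linz2_move {B : SkewH E V} (τ : AntiU B) (P : Polynomial E)
    (hQ : ∀ T : SF (SA B × V) ℂ →ₗ[ℂ] ℂ, InD F τ P T → SF.SuppOn T (Qset B))
    (T : SF (SA B × V) ℂ →ₗ[ℂ] ℂ) (hT : InD F τ P T) (X1 : SA B) (v1 : V)
    (hsupp : ∀ N : Set (SA B × V), IsOpen N → (X1, v1) ∈ N →
      ∃ g : SF (SA B × V) ℂ, (∀ y, y ∉ N → g y = 0) ∧ T g ≠ 0)
    (ζ : E) (hζ : star ζ = -ζ) : X1 + vvs B ζ hζ v1 ∈ Zset F τ P := by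
  intro W hW hXW
  obtain ⟨g, hg, hTg⟩ := hsupp ((nu F B ζ hζ) ⁻¹' {y | y.1 ∈ W})
    ((hW.preimage continuous_fst).preimage (nu F B ζ hζ).continuous) hXW
  refine ⟨T ∘ₗ SF.comp (nu F B ζ hζ), nu_InD ζ hζ τ P T hT (hQ T hT),
    SF.comp (nu F B ζ hζ).symm g, fun y hy => ?_, ?_⟩
  · show g ((nu F B ζ hζ).symm y) = 0
    refine hg _ fun h => hy ?_
    have h1 : (nu F B ζ hζ ((nu F B ζ hζ).symm y)).1 ∈ W := h
    rwa [Homeomorph.apply_symm_apply] at h1
  · show T (SF.comp (nu F B ζ hζ) (SF.comp (nu F B ζ hζ).symm g)) ≠ 0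
    have h1 : SF.comp (nu F B ζ hζ) (SF.comp (nu F B ζ hζ).symm g) = g := by
      apply SF.ext
      intro y
      show g ((nu F B ζ hζ).symm (nu F B ζ hζ y)) = g y
      rw [Homeomorph.symm_apply_apply]
    rw [h1]
    exact hTg

/-- local form of `linZ2` -/
theorem linZ2_local {B : SkewH E V} (τ : AntiU B) (P : Polynomial E)
    (hQ : ∀ T : SF (SA B × V) ℂ →ₗ[ℂ] ℂ, InD F τ P T → SF.SuppOn T (Qset B))
    (X : SA B) (hX : X ∈ Zset F τ P) (W : Set (SA B)) (hW : IsOpen W) (hXW : X ∈ W)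
    (hWi : ∀ (h : UU B) (Y : SA B), Y ∈ W → saConj B h Y ∈ W)
    (horb : ∀ Y ∈ Zset F τ P, Y ∈ W → ∃ h : UU B, saConj B h X = Y)
    (T : SF (SA B × V) ℂ →ₗ[ℂ] ℂ) (hT : InD F τ P T)
    (X1 : SA B) (v1 : V) (hX1W : X1 ∈ W) (hv1 : v1 ∉ Cset B X1) :
    ∃ N : Set (SA B × V), IsOpen N ∧ (X1, v1) ∈ N ∧
      ∀ g : SF (SA B × V) ℂ, (∀ y, y ∉ N → g y = 0) → T g = 0 := by
  haveI := lc_V E V
  haveI := td_V F E V
  haveI := lc_SA F B
  haveI := td_SA F B
  haveI := lc_UU F B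
  by_contra hcon
  push Not at hcon
  have hv1' : ¬ ∀ Y : Module.End E V, Y * X1.1 = X1.1 * Y → B.ip (Y v1) v1 = 0 := hv1
  push Not at hv1'
  obtain ⟨Y, hYX, hYv⟩ := hv1'
  have hmove := linz2_move τ P hQ T hT X1 v1 (fun N hN hx1 => by
    obtain ⟨g, hg1, hg2⟩ := hcon N hN hx1
    exact ⟨g, hg1, hg2⟩)
  -- a skew element
  obtain ⟨x0, hx0⟩ := QExt.nontriv (F := F) (E := E)
  set η : E := x0 - star x0 with hη
  have hη0 : η ≠ 0 := sub_ne_zero.2 (Ne.symm hx0)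
  have hηs : star η = -η := by rw [hη, star_sub, star_star, neg_sub]
  have hz : ∀ t : F, star (algebraMap F E t * η) = -(algebraMap F E t * η) := by
    intro t
    rw [star_mul', QExt.star_alg, hηs, mul_neg]
  let Yt : F → SA B := fun t => X1 + vvs B (algebraMap F E t * η) (hz t) v1
  have hYtZ : ∀ t, Yt t ∈ Zset F τ P := fun t => hmove _ (hz t)
  have hYc : Continuous Yt := by
    refine continuous_const.add (Continuous.subtype_mk (continuous_induced_rng.mpr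
      (continuous_pi fun x => ?_)) _)
    show Continuous fun t : F => ((algebraMap F E t * η) * B.ip x v1) • v1
    exact (((continuous_algebraMap F E).mul continuous_const).mul continuous_const).smul
      continuous_const
  have hY0 : Yt 0 = X1 := by
    apply Subtype.ext
    ext x
    show X1.1 x + ((algebraMap F E 0 * η) * B.ip x v1) • v1 = X1.1 x
    rw [map_zero, zero_mul, zero_mul, zero_smul, add_zero]
  have hX1Z : X1 ∈ Zset F τ P := hY0 ▸ hYtZ 0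
  -- the orbit
  have hSinv : ∀ (h : UU B) (Z : SA B), Z ∈ Zset F τ P ∩ W → (linz2_act B).act h Z ∈
      Zset F τ P ∩ W := fun h Z hZ => ⟨zset_inv τ P h Z hZ.1, hWi h Z hZ.2⟩
  haveI : LocallyCompactSpace (Zset F τ P ∩ W : Set (SA B)) :=
    ((zset_closed τ P).isLocallyClosed.inter hW.isLocallyClosed).locallyCompactSpace
  have hopen := orbit_map_open ((linz2_act B).sub (Zset F τ P ∩ W) hSinv) ⟨X1, hX1Z, hX1W⟩ (by
    rintro ⟨Z, hZ1, hZ2⟩
    obtain ⟨h1, hh1⟩ := horb Z hZ1 hZ2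
    obtain ⟨h2, hh2⟩ := horb X1 hX1Z hX1W
    refine ⟨h1 * h2⁻¹, Subtype.ext ?_⟩
    show saConj B (h1 * h2⁻¹) X1 = Z
    rw [linz2_mul, ← hh2, ← linz2_mul B h2⁻¹ h2, inv_mul_cancel, linz2_one, hh1])
  have hUo : IsOpen {h : UU B | B.ip (h.1.1 (Y v1)) v1 ≠ 0} := by
    refine isOpen_compl_singleton.preimage (f := fun h : UU B => B.ip (h.1.1 (Y v1)) v1)
      ((continuous_ip_left B v1).comp ?_)
    exact (continuous_end_apply (Y v1)).comp (Units.continuous_val.comp continuous_subtype_val)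
  obtain ⟨N, hN, hN'⟩ := isOpen_induced_iff.1 (hopen _ hUo)
  have hX1N : X1 ∈ N := by
    have h1 : (⟨X1, hX1Z, hX1W⟩ : (Zset F τ P ∩ W : Set (SA B))) ∈ Subtype.val ⁻¹' N := by
      rw [hN']
      exact ⟨1, hYv, ((linz2_act B).sub (Zset F τ P ∩ W) hSinv).one _⟩
    exact h1
  have hopen2 : IsOpen (Yt ⁻¹' (N ∩ W)) := (hN.inter hW).preimage hYc
  obtain ⟨r, hr, hrN⟩ := Metric.isOpen_iff.1 hopen2 0 (by
    show Yt 0 ∈ N ∩ W
    rw [hY0]
    exact ⟨hX1N, hX1W⟩)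
  obtain ⟨t, ht0, htr⟩ := NormedField.exists_norm_lt F hr
  have htN : Yt t ∈ N ∩ W := hrN (by rwa [Metric.mem_ball, dist_zero_right])
  have h2 : (⟨Yt t, hYtZ t, htN.2⟩ : (Zset F τ P ∩ W : Set (SA B))) ∈ Subtype.val ⁻¹' N := htN.1
  rw [hN'] at h2
  obtain ⟨γ, hγU, hγ⟩ := h2
  have h3 : saConj B γ X1 = Yt t := congrArg Subtype.val hγ
  have h4 : γ.1.1 * X1.1 * γ.1⁻¹.1 = X1.1 + (vvs B (algebraMap F E t * η) (hz t) v1).1 :=
    congrArg Subtype.val h3
  refine hγU (linz2_trace B X1.1 Y _ v1 (algebraMap F E t * η) ?_ (fun x => rfl) hYX γ.1 h4)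
  refine mul_ne_zero ?_ hη0
  rw [Ne, FaithfulSMul.algebraMap_eq_zero_iff]
  exact norm_pos_iff.1 ht0

theorem linZ2 {B : SkewH E V} (τ : AntiU B) (P : Polynomial E)
    (hQ : ∀ T : SF (SA B × V) ℂ →ₗ[ℂ] ℂ, InD F τ P T → SF.SuppOn T (Qset B))
    (X : SA B) (hX : X ∈ Zset F τ P) (W : Set (SA B)) (hW : IsOpen W) (hXW : X ∈ W)
    (hWi : ∀ (h : UU B) (Y : SA B), Y ∈ W → saConj B h Y ∈ W)
    (horb : ∀ Y ∈ Zset F τ P, Y ∈ W → ∃ h : UU B, saConj B h X = Y)
    (T : SF (SA B × V) ℂ →ₗ[ℂ] ℂ) (hT : InD F τ P T)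
    (f : SF (SA B × V) ℂ) (hf : ∀ x : SA B × V, x.1 ∉ W → f x = 0)
    (hf' : ∀ x : SA B × V, x.2 ∈ Cset B x.1 → f x = 0) : T f = 0 := by
  haveI := lc_V E V
  haveI := td_V F E V
  haveI := lc_SA F B
  haveI := td_SA F B
  refine vanish_local T f fun x hx => ?_
  obtain ⟨X1, v1⟩ := x
  have hX1W : X1 ∈ W := by
    by_contra h
    exact hx (hf _ h)
  have hv1 : v1 ∉ Cset B X1 := fun h => hx (hf' _ h)
  exact linZ2_local τ P hQ X hX W hW hXW hWi horb T hT X1 v1 hX1W hv1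

end

end Pool.Agent.Work.MP_dd0ddf_al.OC
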