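import Pool.Agent.Work.MP_dd0ddf_al.OC.NiQ
import Pool.Agent.Work.MP_dd0ddf_al.OC.NiSq
import Pool.Agent.Work.MP_dd0ddf_al.OC.Topo
import Pool.Agent.Work.MP_dd0ddf_al.OC.BiOm

/-!
# MP_dd0ddf_al, module NiDefs: unit groups (definitions)
-/

set_option linter.unusedSectionVars false
set_option linter.style.haveILetI false

namespace Pool.Agent.Work.MP_dd0ddf_al.OC

noncomputable section

private theorem nidefs_norm_one {L : Type*} [NontriviallyNormedField L] [IsUltrametricDist L]
    {r : ℝ} (hr1 : r < 1) {x : L} (hx : ‖x - 1‖ ≤ r) : ‖x‖ = 1 := by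
  have h1 : ‖x‖ ≤ 1 := by
    have := IsUltrametricDist.norm_add_le_max (x - 1) (1 : L)
    rw [sub_add_cancel, norm_one] at this
    exact this.trans (max_le (hx.trans hr1.le) le_rfl)
  have h2 : (1 : ℝ) ≤ max ‖x‖ ‖x - 1‖ := by
    have := IsUltrametricDist.norm_add_le_max x (-(x - 1))
    rw [norm_neg] at this
    have e : x + -(x - 1) = 1 := by ring
    rw [e, norm_one] at this
    exact this
  rcases le_max_iff.1 h2 with h3 | h3
  · exact le_antisymm h1 h3
  · linarith

/-- `{x : ‖x - 1‖ ≤ r}` in `L^×`, for `0 < r < 1` -/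
def uball (L : Type*) [NontriviallyNormedField L] [IsUltrametricDist L] (r : ℝ) (hr : 0 < r)
    (hr1 : r < 1) : Subgroup Lˣ where
  carrier := {x | ‖(x : L) - 1‖ ≤ r}
  one_mem' := by simp [hr.le]
  mul_mem' := by
    intro a b ha hb
    have ha' : ‖(a : L) - 1‖ ≤ r := ha
    have hb' : ‖(b : L) - 1‖ ≤ r := hb
    show ‖((a * b : Lˣ) : L) - 1‖ ≤ r
    rw [Units.val_mul]
    have e : (a : L) * b - 1 = ((a : L) - 1) * b + ((b : L) - 1) := by ring
    rw [e]
    refine (IsUltrametricDist.norm_add_le_max _ _).trans (max_le ?_ hb')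
    rw [norm_mul, nidefs_norm_one hr1 hb', mul_one]
    exact ha'
  inv_mem' := by
    intro a ha
    have ha' : ‖(a : L) - 1‖ ≤ r := ha
    show ‖((a⁻¹ : Lˣ) : L) - 1‖ ≤ r
    rw [Units.val_inv_eq_inv_val]
    have h0 : (a : L) ≠ 0 := a.ne_zero
    have e : (a : L)⁻¹ - 1 = -(((a : L) - 1) * (a : L)⁻¹) := by
      field_simp
      ring
    rw [e, norm_neg, norm_mul, norm_inv, nidefs_norm_one hr1 ha', inv_one, mul_one]
    exact ha'

/-- the ball of radius `r` as an additive subgroup -/
def aball (L : Type*) [NontriviallyNormedField L] [IsUltrametricDist L] (r : ℝ) (hr : 0 ≤ r) :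
    AddSubgroup L where
  carrier := {x | ‖x‖ ≤ r}
  zero_mem' := by simp [hr]
  add_mem' := by
    intro a b ha hb
    exact (IsUltrametricDist.norm_add_le_max a b).trans (max_le ha hb)
  neg_mem' := by
    intro x hx
    show ‖-x‖ ≤ r
    rw [norm_neg]
    exact hx

/-- `m_F = [B_1 : 2 B_1]`, `B_1` the closed unit ball -/
def mTwo (L : Type*) [NontriviallyNormedField L] [IsUltrametricDist L] : ℕ :=
  (aball L ‖(2 : L)‖ (norm_nonneg _)).relIndex (aball L 1 zero_le_one)

/-- the group of norm one elements -/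
def E1 (E : Type*) [Field E] [StarRing E] : Subgroup Eˣ where
  carrier := {x | (x : E) * star (x : E) = 1}
  one_mem' := by simp
  mul_mem' := by
    intro a b ha hb
    show ((a * b : Eˣ) : E) * star ((a * b : Eˣ) : E) = 1
    have ha' : (a : E) * star (a : E) = 1 := ha
    have hb' : (b : E) * star (b : E) = 1 := hb
    rw [Units.val_mul, star_mul']
    calc (a : E) * b * (star (a : E) * star (b : E))
        = ((a : E) * star (a : E)) * ((b : E) * star (b : E)) := by ring
      _ = 1 := by rw [ha', hb', one_mul]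
  inv_mem' := by
    intro a ha
    have ha' : (a : E) * star (a : E) = 1 := ha
    show ((a⁻¹ : Eˣ) : E) * star ((a⁻¹ : Eˣ) : E) = 1
    rw [Units.val_inv_eq_inv_val, star_inv₀, ← mul_inv, ha', inv_one]

end

end Pool.Agent.Work.MP_dd0ddf_al.OC
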