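import Pool.Agent.Work.MP_dd0ddf_al.OC.Found

/-!
# MP_dd0ddf_al, module NiQ: index of the squares in an abelian group (Mathlib only)

For a commutative group `A` let `sq : A →* A`, `x ↦ x^2`.  If `U ≤ A` has finite index and no element of order 2, `A[2]` finite and `U^2` of finite index in `U`, then
`[A : A^2] = |A[2]| [U : U^2]`.
Proof: `q(A) = [A:A^2]/|A[2]|` is multiplicative in exact sequences (snake lemma) and `q(finite) = 1`.  Direct: `[A : U^2] = [A : A^2] [A^2 : U^2]` and
`[A^2 : U^2] = [A : U A[2]]` (the map `A → A^2/U^2`, `x ↦ x^2` has kernel `U A[2]`), `[A : U A[2]] = [A : U]/[U A[2] : U] = [A:U]/|A[2]|` as `U ∩ A[2] = 1`; and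
`[A : U^2] = [A : U] [U : U^2]`.  So `[A:A^2] [A:U]/|A[2]| = [A:U][U:U^2]`.
-/

set_option linter.unusedSectionVars false
set_option linter.style.haveILetI false

namespace Pool.Agent.Work.MP_dd0ddf_al.OC

noncomputable section

/-- the subgroup of squares of elements of `U` -/
def sqSub {A : Type*} [CommGroup A] (U : Subgroup A) : Subgroup A := U.map (powMonoidHom 2)

/-- the elements with `x ^ 2 = 1` -/
def twoTors (A : Type*) [CommGroup A] : Subgroup A := (powMonoidHom 2 : A →* A).ker

theorem index_squares {A : Type*} [CommGroup A] (U : Subgroup A) (hU : U.FiniteIndex)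
    (h1 : ∀ u ∈ U, u ^ 2 = 1 → u = 1) (h2 : (sqSub U).relIndex U ≠ 0) :
    (sqSub (⊤ : Subgroup A)).index = Nat.card (twoTors A) * (sqSub U).relIndex U := by
  have _ := h2
  have hSU : sqSub U ≤ U := by
    rintro x ⟨u, hu, rfl⟩
    exact U.pow_mem hu 2
  have e1 : (sqSub U).relIndex U * U.index = (sqSub U).index := Subgroup.relIndex_mul_index hSU
  have e2 : (sqSub U).index = (U ⊔ twoTors A).index * (sqSub (⊤ : Subgroup A)).index := by
    have := Subgroup.index_map U (powMonoidHom 2 : A →* A)
    rw [MonoidHom.range_eq_map] at this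
    exact this
  have e3 : U.relIndex (U ⊔ twoTors A) * (U ⊔ twoTors A).index = U.index :=
    Subgroup.relIndex_mul_index le_sup_left
  have e4 : U.relIndex (U ⊔ twoTors A) = Nat.card (twoTors A) := by
    rw [sup_comm, Subgroup.relIndex_sup_right, ← Subgroup.inf_relIndex_right]
    have : U ⊓ twoTors A = ⊥ := by
      rw [eq_bot_iff]
      rintro x ⟨hx1, hx2⟩
      have hx3 : x ^ 2 = 1 := hx2
      exact h1 x hx1 hx3
    rw [this, Subgroup.relIndex_bot_left]
  have hne : (U ⊔ twoTors A).index ≠ 0 := by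
    intro h0
    rw [h0, mul_zero] at e3
    exact hU.index_ne_zero e3.symm
  rw [e2, ← e3, e4] at e1
  have e5 : (U ⊔ twoTors A).index * (sqSub (⊤ : Subgroup A)).index =
      (U ⊔ twoTors A).index * (Nat.card (twoTors A) * (sqSub U).relIndex U) := by
    rw [← e1]
    ring
  exact Nat.eq_of_mul_eq_mul_left (Nat.pos_of_ne_zero hne) e5

end

end Pool.Agent.Work.MP_dd0ddf_al.OC
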