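import Pool.Agent.Work.MP_dd0ddf_al.OC.WfLc

/-!
# MP_dd0ddf_al, module WeilMain: the formula for the Weil representation: assembly (blueprint section 5)

Every smooth action `l` of `U(V)` on `SF V` with `l(h) L_x = L_{hx} l(h)`, `l(h) R_x = R_x l(h)` is a Weil representation in the sense of `WeilRep`.
Put `D : LData`, `A = fb 1`, `μ` from `exists_mu`; `A0`: fb_ne; `A4`: fb_A4; `μ_norm, μ_non`: mu_norm_pos, mu_nonnorm_neg; `μ_lc`: mu_lc; `formula`: `t_spec`, `t_general`, `Mop_apply`.
-/

set_option linter.unusedSectionVars false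
set_option linter.style.haveILetI false

namespace Pool.Agent.Work.MP_dd0ddf_al.OC

noncomputable section

universe u

variable {F E : Type u} [NontriviallyNormedField F] [IsUltrametricDist F] [ProperSpace F]
  [NeZero (2 : F)] [NontriviallyNormedField E] [NormedAlgebra F E] [ProperSpace E] [StarRing E]
  [QExt F E] [MeasurableSpace E] [BorelSpace E]
variable {V : Type u} [AddCommGroup V] [Module E V] [Module.Finite E V] [TopologicalSpace V]
  [IsTopologicalAddGroup V] [T2Space V] [ContinuousSMul E V]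

/-- **Weil representation formula** -/
theorem weil_formula (B : SkewH E V) (p : PChar F) (hn : 3 ≤ Module.finrank E V)
    (l : UU B →* Module.End ℂ (SF V ℂ))
    (hL : ∀ (h : UU B) (x : V), l h ∘ₗ Lop B p x = Lop B p (h.1.1 x) ∘ₗ l h)
    (hR : ∀ (h : UU B) (x : V), l h ∘ₗ Rop B p x = Rop B p x ∘ₗ l h)
    (hs : ∀ f : SF V ℂ, ∃ U : Set (Module.End E V), IsOpen U ∧ (1 : Module.End E V) ∈ U ∧
      ∀ h : UU B, h.1.1 ∈ U → l h f = f) : ∃ W : WeilRep B p, W.l = l := by
  let D : LData B p := ⟨l, hL, hR, hs⟩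
  obtain ⟨μ, hμ⟩ := exists_mu D hn
  refine ⟨{ l := l
            A := fb D hn 1
            A0 := fb_ne D hn 1 one_ne_zero
            A4 := fb_A4 D hn
            μ := μ
            μ_norm := ?_
            μ_non := ?_
            μ_lc := mu_lc D hn μ hμ
            smooth := hs
            L_comm := hL
            R_comm := hR
            formula := ?_ }, rfl⟩
  · intro c h
    obtain ⟨r, hr, h1⟩ := mu_norm_pos D hn (c : F) c.ne_zero h
    refine ⟨r, hr, ?_⟩
    rw [hμ]
    exact h1
  · intro c h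
    obtain ⟨r, hr, h1⟩ := mu_nonnorm_neg D hn (c : F) c.ne_zero h
    refine ⟨r, hr, ?_⟩
    rw [hμ]
    exact h1
  · intro h r b hb
    refine ⟨Units.mk0 (wallM B h.1 b).det (wall_det h b hb), rfl, fun f v => ?_⟩
    have h1 : D.l h = D.t h b hb • Mop B p h b hb := t_spec D h b hb
    have h2 : l h f v = D.t h b hb * Mop B p h b hb f v :=
      congrArg (fun T : SF V ℂ →ₗ[ℂ] SF V ℂ => T f v) h1
    rw [h2, t_general D hn h b hb, Mop_apply, hμ]
    rfl

end

end Pool.Agent.Work.MP_dd0ddf_al.OC
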