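import Pool.Agent.Work.MP_dd0ddf_al.OC.SvnJ
import Pool.Agent.Work.MP_dd0ddf_al.OC.WeilMain

/-!
# MP_dd0ddf_al, module SvnW: from a compatible action ω of U(V) on S to a Weil representation

`l(h)` on SF V: `l(h) cf s lam = cf (ω(h) s) lam` (cf_lift, cf_ext; multiplicative).  L_comm: `ω(h) ρ(x) = ρ(hx) ω(h)`, cf_L; R_comm: cf_R.  Smoothness: each f is a finite sum of cf s_i lam_i; a neighbourhood of 1 in `UU B` contains `{h : h.1.1 ∈ U}` with U an open neighbourhood of 1 in End V, since `h⁻¹ = adj h` is a continuous function of h (the topology of UU B is that of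
h and h⁻¹).  `weil_formula`.
`r(h) = l(h)⁻¹ geo(h)`: `geo(h) cf s lam = cf (ω(h) s) (od h lam)`.
`om_j`: apply tneg_l : `t ∘ l(h) = r(τhτ) ∘ t` to `cf s lam`: `κ cf (j lam) (j⁻¹ ω(h) s) = κ cf (j lam) (od (τhτ) (j⁻¹ s))`; cf injective: `j⁻¹ ω(h) = od(τhτ) j⁻¹`; put h → τhτ.
-/

set_option linter.unusedSectionVars false
set_option linter.style.haveILetI false

namespace Pool.Agent.Work.MP_dd0ddf_al.OC

noncomputable section

universe u

variable {F E : Type u} [NontriviallyNormedField F] [IsUltrametricDist F] [ProperSpace F]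
  [NeZero (2 : F)] [NontriviallyNormedField E] [NormedAlgebra F E] [ProperSpace E] [StarRing E]
  [QExt F E] [MeasurableSpace E] [BorelSpace E]
variable {V : Type u} [AddCommGroup V] [Module E V] [Module.Finite E V] [TopologicalSpace V]
  [IsTopologicalAddGroup V] [T2Space V] [ContinuousSMul E V]
variable {S : Type*} [AddCommGroup S] [Module ℂ S]

variable (F) in
include F in
/-- neighbourhoods of `1` in the unitary group come from `End V` -/
private theorem svnw_open (B : SkewH E V) {W : Set (UU B)} (hW : IsOpen W)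
    (h1 : (1 : UU B) ∈ W) : ∃ U : Set (Module.End E V), IsOpen U ∧ (1 : Module.End E V) ∈ U ∧
      ∀ h : UU B, h.1.1 ∈ U → h ∈ W := by
  obtain ⟨W1, hW1, rfl⟩ := isOpen_induced_iff.1 hW
  obtain ⟨O, hO, rfl⟩ := Units.isEmbedding_embedProduct.isInducing.isOpen_iff.1 hW1
  have hc : Continuous (fun g : Module.End E V =>
      ((g, MulOpposite.op (adj B g)) : Module.End E V × (Module.End E V)ᵐᵒᵖ)) :=
    continuous_id.prodMk (MulOpposite.continuous_op.comp (continuous_adj F B))
  refine ⟨_, hO.preimage hc, ?_, ?_⟩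
  · show ((1, MulOpposite.op (adj B 1)) : Module.End E V × (Module.End E V)ᵐᵒᵖ) ∈ O
    rw [adj_one]
    exact h1
  · intro h hh
    show Units.embedProduct (Module.End E V) h.1 ∈ O
    have e1 : h.1⁻¹.1 = adj B h.1.1 := by
      apply adj_unique
      intro v w
      have h3 : h.1.1 (h.1⁻¹.1 w) = w := congrArg (fun f : Module.End E V => f w) h.1.mul_inv
      have h2 : B.ip (h.1.1 v) (h.1.1 (h.1⁻¹.1 w)) = B.ip v (h.1⁻¹.1 w) := h.2 v _
      rw [h3] at h2
      exact h2
    have e2 : Units.embedProduct (Module.End E V) h.1 =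
        ((h.1.1, MulOpposite.op (adj B h.1.1)) :
          Module.End E V × (Module.End E V)ᵐᵒᵖ) := by
      rw [← e1]
      rfl
    rw [e2]
    exact hh

/-- `cf` as a bilinear map -/
private def svnw_c2 {B : SkewH E V} {p : PChar F} (H : Heis B p S) :
    S →ₗ[ℂ] H.sd →ₗ[ℂ] SF V ℂ :=
  (TensorProduct.mk ℂ S H.sd).compr₂ (cfMap H)

private theorem svnw_R {B : SkewH E V} {p : PChar F} (H : Heis B p S) (x : V) (s : S)
    (lam : H.sd) : Rop B p x (cf H s lam) = cf H s (H.rd (-x) lam) := by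
  have h1 := cf_R H (-x) s lam
  rwa [neg_neg] at h1

private theorem svnw_om_inv {B : SkewH E V} {p : PChar F} {H : Heis B p S} (O : OmRep H)
    (h : UU B) (s : S) : O.ω h⁻¹ (O.ω h s) = s := by
  rw [← Module.End.mul_apply, ← map_mul, inv_mul_cancel, map_one]
  rfl

private theorem svnw_geo {B : SkewH E V} {p : PChar F} (H : Heis B p S) (O : OmRep H)
    (h : UU B) (s : S) (lam : H.sd) :
    geo h.1 (cf H s lam) = cf H (O.ω h s) (O.od h lam) := by
  apply SF.ext
  intro v
  show lam.1 (H.ρ (-(h.1⁻¹.1 v)) s) = lam.1 (O.ω h⁻¹ (H.ρ (-v) (O.ω h s)))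
  have e : O.ω h⁻¹ (H.ρ (-v) (O.ω h s)) = H.ρ (h⁻¹.1.1 (-v)) (O.ω h⁻¹ (O.ω h s)) :=
    congrArg (fun T : Module.End ℂ S => T (O.ω h s)) (O.comm h⁻¹ (-v))
  rw [e, svnw_om_inv, map_neg]
  rfl

theorem weil_of_omega {B : SkewH E V} {p : PChar F} (H : Heis B p S) (O : OmRep H)
    (hn : 3 ≤ Module.finrank E V) : ∃ W : WeilRep B p,
      (∀ (h : UU B) (s : S) (lam : H.sd), W.l h (cf H s lam) = cf H (O.ω h s) lam) ∧
      ∀ (h : UU B) (s : S) (lam : H.sd), W.r h (cf H s lam) = cf H s (O.od h lam) := by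
  choose l0 hl0 using fun h : UU B => cf_lift H ((svnw_c2 H) ∘ₗ (O.ω h))
  have hl0' : ∀ h s lam, l0 h (cf H s lam) = cf H (O.ω h s) lam := hl0
  let l : UU B →* Module.End ℂ (SF V ℂ) :=
    { toFun := l0
      map_one' := by
        apply cf_ext H
        intro s lam
        rw [hl0', map_one]
        rfl
      map_mul' := by
        intro g h
        apply cf_ext H
        intro s lam
        show l0 (g * h) (cf H s lam) = l0 g (l0 h (cf H s lam))
        rw [hl0', hl0', hl0', map_mul]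
        rfl }
  have hl : ∀ h s lam, l h (cf H s lam) = cf H (O.ω h s) lam := hl0'
  obtain ⟨W, hW⟩ := weil_formula B p hn l
    (fun h x => by
      apply cf_ext H
      intro s lam
      show l h (Lop B p x (cf H s lam)) = Lop B p (h.1.1 x) (l h (cf H s lam))
      have e : O.ω h (H.ρ x s) = H.ρ (h.1.1 x) (O.ω h s) :=
        congrArg (fun T : Module.End ℂ S => T s) (O.comm h x)
      rw [cf_L, hl, hl, e, cf_L])
    (fun h x => by
      apply cf_ext H
      intro s lam
      show l h (Rop B p x (cf H s lam)) = Rop B p x (l h (cf H s lam))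
      rw [svnw_R, hl, hl, svnw_R])
    (fun f => by
      obtain ⟨t, rfl⟩ := cfMap_surjective H f
      induction t using TensorProduct.induction_on with
      | zero => exact ⟨Set.univ, isOpen_univ, Set.mem_univ _, fun h _ => by rw [map_zero, map_zero]⟩
      | tmul s lam =>
        obtain ⟨W, hWo, hW1, hW⟩ := O.smooth s
        obtain ⟨U, hUo, hU1, hU⟩ := svnw_open F B hWo hW1
        refine ⟨U, hUo, hU1, fun h hh => ?_⟩
        rw [cfMap_tmul, hl, hW h (hU h hh)]
      | add a b ha hb =>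
        obtain ⟨U, hUo, hU1, hU⟩ := ha
        obtain ⟨U', hUo', hU1', hU'⟩ := hb
        exact ⟨U ∩ U', hUo.inter hUo', ⟨hU1, hU1'⟩, fun h hh => by
          rw [map_add, map_add, hU h hh.1, hU' h hh.2]⟩)
  have hWl : ∀ (h : UU B) (s : S) (lam : H.sd), W.l h (cf H s lam) = cf H (O.ω h s) lam := by
    intro h s lam
    rw [hW, hl]
  refine ⟨W, hWl, fun h s lam => ?_⟩
  show W.l h⁻¹ (geo h.1 (cf H s lam)) = cf H s (O.od h lam)
  rw [svnw_geo H O, hWl, svnw_om_inv]

theorem om_j {B : SkewH E V} {p : PChar F} (H : Heis B p S) (O : OmRep H)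
    (hn : 3 ≤ Module.finrank E V) (τ : AntiU B) (j : H.sd ≃ₗ[ℂ] S) (κ : ℂ) (hκ : κ ≠ 0)
    (hj : ∀ (s : S) (lam : H.sd), tneg F τ (cf H s lam) = κ • cf H (j lam) (j.symm s))
    (h : UU B) (lam : H.sd) : j (O.od h lam) = O.ω (tauU τ h) (j lam) := by
  obtain ⟨W, hWl, hWr⟩ := weil_of_omega H O hn
  obtain ⟨s0, hs0⟩ := H.nontriv
  have key : ∀ (h : UU B) (s : S), j.symm (O.ω h s) = O.od (tauU τ h) (j.symm s) := by
    intro h s
    have e1 : tneg F τ (W.l h (cf H s (j.symm s0))) =
        W.r (tauU τ h) (tneg F τ (cf H s (j.symm s0))) :=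
      congrArg (fun T : SF V ℂ →ₗ[ℂ] SF V ℂ => T (cf H s (j.symm s0))) (tneg_l W τ h)
    rw [hWl, hj, hj, map_smul, hWr, LinearEquiv.apply_symm_apply] at e1
    have e2 : cf H s0 (j.symm (O.ω h s)) = cf H s0 (O.od (tauU τ h) (j.symm s)) :=
      smul_right_injective _ hκ e1
    have e3 : cf H s0 (j.symm (O.ω h s) - O.od (tauU τ h) (j.symm s)) = 0 := by
      have e4 : svnw_c2 H s0 (j.symm (O.ω h s) - O.od (tauU τ h) (j.symm s)) = 0 := by
        rw [map_sub]
        exact sub_eq_zero.2 e2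
      exact e4
    rcases cf_eq_zero H _ _ e3 with h1 | h1
    · exact absurd h1 hs0
    · exact sub_eq_zero.1 h1
  have e := key (tauU τ h) (j lam)
  rw [tauU_tauU, LinearEquiv.symm_apply_apply] at e
  rw [← e, LinearEquiv.apply_symm_apply]

end

end Pool.Agent.Work.MP_dd0ddf_al.OC
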