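import Pool.Agent.Work.MP_dd0ddf_al.OC.WfF

/-!
# MP_dd0ddf_al, module WfTri: the scalar of a general element: t_b(h) = A^r μ(det W_h(b))

Induction on `r = dim R_h`: for every `h` with `dim R_h = r` and every basis `b` of `R_h`: `t_b(h) = A^r μ(det W_h(b))`, `A = fb 1`.
r = 0: `h = 1`, `M = id`, t = 1.  r > 0: choose `v ∈ R_h`, `β = W_h(v,v) ≠ 0` (wall_aniso), `h' = (qr v β)⁻¹ h`, `R_h' = {y ∈ R_h : W_h(v,y) = 0}` of dimension r - 1, disjoint from `E v` (wall_split); for a basis `b'` of
`R_h'`: by `wall_prod`, `t_prod`: `(v, b')` is a basis of `R_h`, `t_{(v,b')}(h) = fb β · t_{b'}(h') = A μ(β) A^{r-1} μ(det W_{h'}(b'))`, `det W_h(v,b') = β det W_h'(b')`.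
Other bases: `t_change` and `wall_det_change`, with `μ(c star c) = hmod(c)⁻¹` (fb_norm with β = 1).
-/

set_option linter.unusedSectionVars false
set_option linter.style.haveILetI false

namespace Pool.Agent.Work.MP_dd0ddf_al.OC

noncomputable section

universe u

variable {F E : Type u} [NontriviallyNormedField F] [IsUltrametricDist F] [ProperSpace F]
  [NeZero (2 : F)] [NontriviallyNormedField E] [NormedAlgebra F E] [ProperSpace E] [StarRing E]
  [QExt F E] [MeasurableSpace E] [BorelSpace E]
variable {V : Type u} [AddCommGroup V] [Module E V] [Module.Finite E V] [TopologicalSpace V]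
  [IsTopologicalAddGroup V] [T2Space V] [ContinuousSMul E V]

private theorem wftri_congr {B : SkewH E V} {p : PChar F} (D : LData B p) {h h' : UU B} {r : ℕ}
    {b b' : Fin r → V} (hb : IsRBasis h.1 b) (hb' : IsRBasis h'.1 b') (e1 : h = h')
    (e2 : b = b') : D.t h b hb = D.t h' b' hb' := by
  subst e1
  subst e2
  rfl

private theorem wftri_zero {B : SkewH E V} {p : PChar F} (D : LData B p) (h : UU B)
    (b : Fin 0 → V) (hb : IsRBasis h.1 b) : h = 1 ∧ D.t h b hb = 1 := by
  have h1 : LinearMap.range (h.1.1 - 1) = ⊥ := by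
    rw [← hb.2, Set.range_eq_empty, Submodule.span_empty]
  have h2 : h = 1 := by
    apply Subtype.ext
    apply Units.ext
    have h3 := LinearMap.range_eq_bot.1 h1
    exact sub_eq_zero.1 h3
  refine ⟨h2, ?_⟩
  have hd : Disjoint (LinearMap.range (h.1.1 - 1)) (LinearMap.range (h.1.1 - 1)) := by
    rw [h1]
    exact disjoint_bot_left
  have h3 := (wall_prod h h hd b b hb hb).1
  have h4 := t_prod D h h hd b b hb hb h3
  have h5 : D.t (h * h) (Fin.append b b) h3 = D.t h b hb :=
    wftri_congr (r := 0) D h3 hb (by rw [h2, mul_one]) (funext fun i => i.elim0)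
  rw [h5] at h4
  have h6 := t_ne D h b hb
  exact (mul_left_cancel₀ h6 (by rw [← h4, mul_one])).symm

private theorem wftri_main {B : SkewH E V} {p : PChar F} (D : LData B p)
    (hn : 3 ≤ Module.finrank E V) (n : ℕ) : ∀ (h : UU B) {r : ℕ} (b : Fin r → V)
    (hb : IsRBasis h.1 b), r = n →
    D.t h b hb = fb D hn 1 ^ r * (fb D hn (wallM B h.1 b).det / fb D hn 1) := by
  haveI : TotallyDisconnectedSpace E := td_E F
  have hA := fb_ne D hn 1 one_ne_zero
  induction n with
  | zero =>
    intro h r b hb hr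
    subst hr
    rw [(wftri_zero D h b hb).2, Matrix.det_isEmpty, div_self hA, pow_zero, mul_one]
  | succ n ih =>
    intro h r b hb hr
    have h1 : h ≠ 1 := by
      intro h1
      have h2 : LinearMap.range (h.1.1 - 1) = ⊥ := by
        rw [h1]
        show LinearMap.range ((1 : Module.End E V) - 1) = ⊥
        rw [sub_self, LinearMap.range_zero]
      have h3 : b ⟨0, by omega⟩ ∈ LinearMap.range (h.1.1 - 1) := by
        rw [← hb.2]
        exact Submodule.subset_span ⟨_, rfl⟩
      rw [h2, Submodule.mem_bot] at h3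
      exact hb.1.ne_zero _ h3
    obtain ⟨v, hv, hvv⟩ := wall_aniso (QExt.nontriv (F := F)) h h1
    have hv0 : v ≠ 0 := by
      rintro rfl
      apply hvv
      have h2 := wall_smul_left h 0 hv hv
      rw [zero_smul, zero_mul] at h2
      exact h2
    obtain ⟨hs1, hs2⟩ := wall_split h hv hvv
    have ok := wall_qrok h hv hvv
    set β := wall B h.1 v v with hβ
    set g := qr B v β ok with hg
    set h' : UU B := g⁻¹ * h with hh'
    have hgh : g * h' = h := by rw [hh', mul_inv_cancel_left]
    obtain ⟨s, b', hb'⟩ := rbasis_exists h'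
    have hbg := (wall_qr v hv0 β ok).1
    have hrg : LinearMap.range (g.1.1 - 1) = Submodule.span E {v} := by
      rw [← hbg.2, Set.range_const]
    have hd : Disjoint (LinearMap.range (g.1.1 - 1)) (LinearMap.range (h'.1.1 - 1)) := by
      rw [hrg, disjoint_comm, disjoint_iff]
      exact hs1
    obtain ⟨hbb, hdet, -⟩ := wall_prod g h' hd _ b' hbg hb'
    have hbh : IsRBasis h.1 (Fin.append (fun _ : Fin 1 => v) b') := by
      rw [← hgh]
      exact hbb
    obtain rfl : r = 1 + s := rbasis_change h b _ hb hbh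
    have hsn : s = n := by omega
    have ht := t_prod D g h' hd _ b' hbg hb' hbb
    rw [ih h' b' hb' hsn, fb_spec D hn β v hv0 ok] at ht
    have hdg : (wallM B g.1 (fun _ : Fin 1 => v)).det = β := by
      rw [Matrix.det_fin_one]
      exact (wall_qr v hv0 β ok).2
    rw [hdg] at hdet
    have hd0 : (wallM B h'.1 b').det ≠ 0 := wall_det h' b' hb'
    have hrel := fb_rel D hn β _ 1 hvv hd0 one_ne_zero
    rw [div_one] at hrel
    have hdet' : (wallM B h.1 (Fin.append (fun _ : Fin 1 => v) b')).det =
        β * (wallM B h'.1 b').det := by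
      rw [← hdet, hgh]
    have ht' : D.t h (Fin.append (fun _ : Fin 1 => v) b') hbh = fb D hn 1 ^ (1 + s) *
        (fb D hn (wallM B h.1 (Fin.append (fun _ : Fin 1 => v) b')).det / fb D hn 1) := by
      rw [wftri_congr D hbh hbb hgh.symm rfl, ht, hdet', pow_add, pow_one]
      field_simp
      linear_combination hrel
    obtain ⟨P, hP, hPb⟩ := rbasis_mat h _ b hbh hb
    have hc := t_change D h _ b hbh hb P hP hPb
    have hdc := wall_det_change h _ b hbh P hPb
    have hnm := fb_norm D hn _ P.det (wall_det h _ hbh) hP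
    rw [← hdc] at hnm
    rw [ht', ← hnm] at hc
    have hm : (hmod (mulT E P.det hP) : ℂ) ≠ 0 := by
      rw [Ne, Complex.ofReal_eq_zero]
      exact (hmod_pos _).ne'
    refine mul_right_cancel₀ hm ?_
    rw [← hc]
    ring

theorem t_general {B : SkewH E V} {p : PChar F} (D : LData B p) (hn : 3 ≤ Module.finrank E V)
    (h : UU B) {r : ℕ} (b : Fin r → V) (hb : IsRBasis h.1 b) :
    D.t h b hb = fb D hn 1 ^ r * (fb D hn (wallM B h.1 b).det / fb D hn 1) :=
  wftri_main D hn r h b hb rfl

end

end Pool.Agent.Work.MP_dd0ddf_al.OC
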